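import Pool.Agent.OIP.ALExact

/-!
# LP: the twelve numbers near the extremal point

`AL_unique`: for `p ≥ pc` the exact system has exactly two solutions (exchanged by swapping the layers):
layer 0 pure (`a = al = √3 - 1`, nothing else), layer 1 mixed (`b = be = (3 - √3)/2`, `b' = be' = (√3 - 1)/2`).
`AL_near`: with a small slack all numbers are near one of these two points.
-/

set_option autoImplicit false

open Filter Topology

namespace Pool.Agent.LP

open Pool.Agent.OIP

/-- layer 0 pure, layer 1 mixed, up to `ε` -/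
structure NearPM (ε a a' e b b' e' al al' n1 be be' n2 : ℝ) : Prop where
  a1 : Real.sqrt 3 - 1 - ε ≤ a
  a2 : a ≤ Real.sqrt 3 - 1 + ε
  al1 : Real.sqrt 3 - 1 - ε ≤ al
  al2 : al ≤ Real.sqrt 3 - 1 + ε
  b1 : (3 - Real.sqrt 3) / 2 - ε ≤ b
  b2 : b ≤ (3 - Real.sqrt 3) / 2 + ε
  be1 : (3 - Real.sqrt 3) / 2 - ε ≤ be
  be2 : be ≤ (3 - Real.sqrt 3) / 2 + ε
  b'1 : (Real.sqrt 3 - 1) / 2 - ε ≤ b'
  b'2 : b' ≤ (Real.sqrt 3 - 1) / 2 + ε
  be'1 : (Real.sqrt 3 - 1) / 2 - ε ≤ be'
  be'2 : be' ≤ (Real.sqrt 3 - 1) / 2 + ε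
  a'2 : a' ≤ ε
  al'2 : al' ≤ ε
  e2 : e ≤ ε
  e'2 : e' ≤ ε
  n12 : n1 ≤ ε
  n22 : n2 ≤ ε

theorem sqrt3_bounds : 1.732 < Real.sqrt 3 ∧ Real.sqrt 3 < 1.7321 ∧ Real.sqrt 3 ^ 2 = 3 := by
  refine ⟨?_, ?_, Real.sq_sqrt (by norm_num)⟩
  · rw [Real.lt_sqrt (by norm_num)]
    norm_num
  · rw [Real.sqrt_lt' (by norm_num)]
    norm_num

/-- the second stage: from the products to the numbers -/
theorem two_class_fin {T a a' b b' al al' be be' : ℝ} (hT1 : 1.732 < T) (hT2 : T < 1.7321)
    (hT : T ^ 2 = 3)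
    (ha : 1 / 2 ≤ a) (hb : 1 / 2 ≤ b) (hal : 1 / 2 ≤ al) (hbe : 1 / 2 ≤ be)
    (ha' : 0 ≤ a') (hb' : 0 ≤ b') (hal' : 0 ≤ al') (hbe' : 0 ≤ be')
    (s2 : b + b' ≤ 1) (s4 : be + be' ≤ 1)
    (h3 : a * b + a' * b' ≤ 2 * T - 3) (h4 : al * be + al' * be' ≤ 2 * T - 3)
    (x2 : a * al = 4 - 2 * T) (z2 : b * be = (6 - 3 * T) / 2) (u2 : b' * be' = (2 - T) / 2) :
    a = T - 1 ∧ al = T - 1 ∧ b = (3 - T) / 2 ∧ be = (3 - T) / 2 ∧
      b' = (T - 1) / 2 ∧ be' = (T - 1) / 2 ∧ a' = 0 ∧ al' = 0 := by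
  have hb'0 : 0 < b' := by
    rcases hb'.lt_or_eq with h | h
    · exact h
    · rw [← h] at u2
      linarith only [hT2, u2]
  have hbe'0 : 0 < be' := by
    rcases hbe'.lt_or_eq with h | h
    · exact h
    · rw [← h] at u2
      linarith only [hT2, u2]
  -- products `a b` and `al be`
  have hq : (a * b) * (al * be) = (2 * T - 3) ^ 2 := by
    have : (a * b) * (al * be) = (a * al) * (b * be) := by ring
    have h2 : (2 * T - 3) ^ 2 = 4 * T ^ 2 - 12 * T + 9 := by ring
    have h3 : (4 - 2 * T) * ((6 - 3 * T) / 2) = 12 - 12 * T + 3 * T ^ 2 := by ring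
    rw [this, x2, z2, h2, h3, hT]
    ring
  have hab0 : 0 < a * b := by positivity
  have hal0 : 0 < al * be := by positivity
  have k1 : 0 ≤ a' * b' := by positivity
  have k2 : 0 ≤ al' * be' := by positivity
  have hab : a * b = 2 * T - 3 := by
    apply le_antisymm (by linarith only [h3, k1])
    by_contra hcon
    push Not at hcon
    have g1 : (a * b) * (al * be) ≤ (a * b) * (2 * T - 3) :=
      mul_le_mul_of_nonneg_left (by linarith only [h4, k2]) hab0.le
    have g2 : (a * b) * (2 * T - 3) < (2 * T - 3) * (2 * T - 3) :=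
      mul_lt_mul_of_pos_right hcon (by linarith only [hT1])
    rw [sq] at hq
    linarith only [hq, g1, g2]
  have halbe : al * be = 2 * T - 3 := by
    apply le_antisymm (by linarith only [h4, k2])
    by_contra hcon
    push Not at hcon
    have g1 : (a * b) * (al * be) ≤ (2 * T - 3) * (al * be) :=
      mul_le_mul_of_nonneg_right (by linarith only [h3, k1]) hal0.le
    have g2 : (2 * T - 3) * (al * be) < (2 * T - 3) * (2 * T - 3) :=
      mul_lt_mul_of_pos_left hcon (by linarith only [hT1])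
    rw [sq] at hq
    linarith only [hq, g1, g2]
  have ha'0 : a' = 0 := by
    have h : a' * b' ≤ 0 := by linarith only [h3, hab]
    have h' : a' * b' = 0 := le_antisymm h k1
    rcases mul_eq_zero.1 h' with h | h
    · exact h
    · exact absurd h hb'0.ne'
  have hal'0 : al' = 0 := by
    have h : al' * be' ≤ 0 := by linarith only [h4, halbe]
    have h' : al' * be' = 0 := le_antisymm h k2
    rcases mul_eq_zero.1 h' with h | h
    · exact h
    · exact absurd h hbe'0.ne'
  -- `b = be`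
  have hbb : b = be := by
    have g0 : (b + b') * (be + be') ≤ 1 := by
      have := mul_le_mul s2 s4 (by linarith only [hbe, hbe'0]) (by norm_num : (0 : ℝ) ≤ 1)
      linarith only [this]
    have g1 : (b + b') * (be + be') = b * be + b' * be' + (b * be' + b' * be) := by ring
    have g2 : (b * be') * (b' * be) = ((b * be) * (b' * be')) := by ring
    have g3 : (b * be') * (b' * be) = ((2 * T - 3) / 2) ^ 2 := by
      have h2 : ((2 * T - 3) / 2) ^ 2 = (4 * T ^ 2 - 12 * T + 9) / 4 := by ring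
      have h3 : (6 - 3 * T) / 2 * ((2 - T) / 2) = (12 - 12 * T + 3 * T ^ 2) / 4 := by ring
      rw [g2, z2, u2, h2, h3, hT]
      ring
    have g4 : b * be' + b' * be ≤ 2 * T - 3 := by
      rw [g1, z2, u2] at g0
      linarith only [g0]
    have g5 : (b * be' - b' * be) ^ 2 ≤ 0 := by
      have h1 : 0 ≤ b * be' + b' * be := by positivity
      have h2 : (b * be' + b' * be) ^ 2 ≤ (2 * T - 3) ^ 2 := pow_le_pow_left₀ h1 g4 2
      have h3 : (b * be' - b' * be) ^ 2 =
          (b * be' + b' * be) ^ 2 - 4 * ((b * be') * (b' * be)) := by ring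
      rw [h3, g3]
      linarith only [h2]
    have g6 : b * be' = b' * be := by
      have : (b * be' - b' * be) ^ 2 = 0 := le_antisymm g5 (sq_nonneg _)
      have := pow_eq_zero_iff (two_ne_zero) |>.1 this
      linarith only [this]
    have g7 : b * be' = (2 * T - 3) / 2 := by
      have h1 : (b * be') ^ 2 = ((2 * T - 3) / 2) ^ 2 := by
        rw [sq (b * be')]
        nth_rewrite 2 [g6]
        exact g3
      have h2 : 0 ≤ b * be' := by positivity
      exact (pow_left_inj₀ h2 (by linarith) two_ne_zero).1 h1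
    -- `(b + b') (be + be') = 1`
    have g8 : (b + b') * (be + be') = 1 := by
      rw [g1, z2, u2, ← g6, g7]
      ring
    have g9 : b + b' = 1 := by
      apply le_antisymm s2
      by_contra hcon
      push Not at hcon
      have h1 : 0 < be + be' := by positivity
      have := mul_lt_mul_of_pos_right hcon h1
      rw [g8] at this
      linarith only [s4, this]
    have g10 : be + be' = 1 := by
      rw [g9] at g8
      linarith only [g8]
    have h1 : b' = 1 - b := by linarith only [g9]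
    have h2 : be' = 1 - be := by linarith only [g10]
    rw [h1, h2] at g6
    linarith only [g6]
  have hbs : b = (3 - T) / 2 := by
    rw [← hbb] at z2
    have h1 : b ^ 2 = ((3 - T) / 2) ^ 2 := by
      have h2 : ((3 - T) / 2) ^ 2 = (9 - 6 * T + T ^ 2) / 4 := by ring
      rw [h2, hT, sq, z2]
      ring
    exact (pow_left_inj₀ (by linarith only [hT2, hb]) (by linarith only [hT2]) two_ne_zero).1 h1
  have hbes : be = (3 - T) / 2 := by rw [← hbb]; exact hbs
  have hb's : b' = (T - 1) / 2 ∧ be' = (T - 1) / 2 := by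
    have h1 : b' ≤ (T - 1) / 2 := by linarith only [s2, hbs]
    have h2 : be' ≤ (T - 1) / 2 := by linarith only [s4, hbb, hbs]
    have h3 : b' * be' = ((T - 1) / 2) * ((T - 1) / 2) := by
      have h4 : ((T - 1) / 2) * ((T - 1) / 2) = (T ^ 2 - 2 * T + 1) / 4 := by ring
      rw [u2, h4, hT]
      ring
    constructor
    · apply le_antisymm h1
      by_contra hcon
      push Not at hcon
      have g1 : b' * be' ≤ b' * ((T - 1) / 2) := mul_le_mul_of_nonneg_left h2 hb'0.le
      have g2 : b' * ((T - 1) / 2) < ((T - 1) / 2) * ((T - 1) / 2) :=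
        mul_lt_mul_of_pos_right hcon (by linarith only [hT1])
      linarith only [hT, u2, g1, g2]
    · apply le_antisymm h2
      by_contra hcon
      push Not at hcon
      have g1 : b' * be' ≤ ((T - 1) / 2) * be' := mul_le_mul_of_nonneg_right h1 hbe'0.le
      have g2 : ((T - 1) / 2) * be' < ((T - 1) / 2) * ((T - 1) / 2) :=
        mul_lt_mul_of_pos_left hcon (by linarith)
      linarith only [hT, u2, g1, g2]
  have has : a = T - 1 := by
    rw [hbs] at hab
    have : (a - (T - 1)) * ((3 - T) / 2) = 0 := by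
      have h4 : (a - (T - 1)) * ((3 - T) / 2) = a * ((3 - T) / 2) - (4 * T - T ^ 2 - 3) / 2 := by ring
      rw [h4, hab, hT]
      ring
    rcases mul_eq_zero.1 this with h | h
    · linarith only [h]
    · linarith only [hT2, h]
  have hals : al = T - 1 := by
    rw [hbes] at halbe
    have : (al - (T - 1)) * ((3 - T) / 2) = 0 := by
      have h4 : (al - (T - 1)) * ((3 - T) / 2) = al * ((3 - T) / 2) - (4 * T - T ^ 2 - 3) / 2 := by
        ring
      rw [h4, halbe, hT]
      ring
    rcases mul_eq_zero.1 this with h | h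
    · linarith only [h]
    · linarith only [hT2, h]
  exact ⟨has, hals, hbs, hbes, hb's.1, hb's.2, ha'0, hal'0⟩

/-- the first stage: square roots.  `T = √3`, `p = 4 - 2 T`. -/
theorem two_class_sqrt {T x y z u : ℝ} (hT1 : 1.732 < T) (hT2 : T < 1.7321) (hT : T ^ 2 = 3)
    (hx : 1 / 2 ≤ x) (hz : 1 / 2 ≤ z) (hy : 0 ≤ y) (hu : 0 ≤ u)
    (d1 : T * y ≤ x) (d2 : T * u ≤ z)
    (h1 : 4 - 2 * T ≤ x ^ 2 + y ^ 2) (h2 : 4 - 2 * T ≤ z ^ 2 + u ^ 2)
    (h3 : x * z + y * u ≤ 2 * T - 3) :
    (y = 0 ∧ x ^ 2 = 4 - 2 * T ∧ z ^ 2 = (6 - 3 * T) / 2 ∧ u ^ 2 = (2 - T) / 2) ∨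
    (u = 0 ∧ z ^ 2 = 4 - 2 * T ∧ x ^ 2 = (6 - 3 * T) / 2 ∧ y ^ 2 = (2 - T) / 2) := by
  have hxz : 0 < x * z := by positivity
  have hyu : 0 ≤ y * u := by positivity
  have hxu : 0 ≤ x * u := by positivity
  have hyz : 0 ≤ y * z := by positivity
  have e1 : T * (x * u) ≤ x * z := by
    have := mul_le_mul_of_nonneg_left d2 (by linarith only [hx] : (0 : ℝ) ≤ x)
    linarith
  have e2 : T * (y * z) ≤ x * z := by
    have := mul_le_mul_of_nonneg_right d1 (by linarith only [hz] : (0 : ℝ) ≤ z)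
    linarith
  have id1 : (x ^ 2 + y ^ 2) * (z ^ 2 + u ^ 2) = (x * z + y * u) ^ 2 + (x * u - y * z) ^ 2 := by ring
  have f1 : (x * z + y * u) ^ 2 ≤ (2 * T - 3) ^ 2 := pow_le_pow_left₀ (by positivity) h3 2
  have f2 : 3 * (x * u - y * z) ^ 2 ≤ (x * z + y * u) ^ 2 := by
    have hTxu : 0 ≤ T * (x * u) := by positivity
    have hTyz : 0 ≤ T * (y * z) := by positivity
    have hms : T * (x * u - y * z) = T * (x * u) - T * (y * z) := by ring
    have : (T * (x * u - y * z)) ^ 2 ≤ (x * z + y * u) ^ 2 := by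
      apply sq_le_sq'
      · rw [hms]
        linarith only [hyu, e2, hTxu]
      · rw [hms]
        linarith only [hyu, e1, hTyz]
    rw [mul_pow, hT] at this
    exact this
  have f3 : (4 - 2 * T) * (4 - 2 * T) ≤ (x ^ 2 + y ^ 2) * (z ^ 2 + u ^ 2) :=
    mul_le_mul h1 h2 (by linarith only [hT2]) (by positivity)
  have hid : 3 * ((4 - 2 * T) * (4 - 2 * T)) = 4 * (2 * T - 3) ^ 2 := by
    have h4 : 3 * ((4 - 2 * T) * (4 - 2 * T)) = 48 - 48 * T + 12 * T ^ 2 := by ring
    have h5 : 4 * (2 * T - 3) ^ 2 = 16 * T ^ 2 - 48 * T + 36 := by ring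
    rw [h4, h5, hT]
    ring
  have g1 : 3 * (x * u - y * z) ^ 2 = (x * z + y * u) ^ 2 := by
    apply le_antisymm f2
    linarith only [hT, f1, f3]
  have g2 : (x ^ 2 + y ^ 2) * (z ^ 2 + u ^ 2) = (4 - 2 * T) * (4 - 2 * T) := by
    apply le_antisymm _ f3
    linarith only [hT, f1, f2]
  have p0 : 0 < 4 - 2 * T := by linarith only [hT2]
  have g3 : x ^ 2 + y ^ 2 = 4 - 2 * T := by
    apply le_antisymm _ h1
    by_contra hcon
    push Not at hcon
    have k1 : (4 - 2 * T) * (4 - 2 * T) < (x ^ 2 + y ^ 2) * (4 - 2 * T) :=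
      mul_lt_mul_of_pos_right hcon p0
    have k2 : (x ^ 2 + y ^ 2) * (4 - 2 * T) ≤ (x ^ 2 + y ^ 2) * (z ^ 2 + u ^ 2) :=
      mul_le_mul_of_nonneg_left h2 (by positivity)
    linarith only [hT, f1, f2, k1, k2]
  have g4 : z ^ 2 + u ^ 2 = 4 - 2 * T := by
    apply le_antisymm _ h2
    by_contra hcon
    push Not at hcon
    have k1 : (4 - 2 * T) * (4 - 2 * T) < (4 - 2 * T) * (z ^ 2 + u ^ 2) :=
      mul_lt_mul_of_pos_left hcon p0
    have k2 : (4 - 2 * T) * (z ^ 2 + u ^ 2) ≤ (x ^ 2 + y ^ 2) * (z ^ 2 + u ^ 2) :=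
      mul_le_mul_of_nonneg_right h1 (by positivity)
    linarith
  have g5 : (T * (x * u - y * z) - (x * z + y * u)) * (T * (x * u - y * z) + (x * z + y * u)) = 0 := by
    have : (T * (x * u - y * z) - (x * z + y * u)) * (T * (x * u - y * z) + (x * z + y * u)) =
        T ^ 2 * (x * u - y * z) ^ 2 - (x * z + y * u) ^ 2 := by ring
    rw [this, hT, g1]
    ring
  rcases mul_eq_zero.1 g5 with h | h
  · left
    have hms : T * (x * u - y * z) = T * (x * u) - T * (y * z) := by ring
    have k1 : y * z = 0 := by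
      apply le_antisymm _ hyz
      by_contra hcon
      push Not at hcon
      have : 0 < T * (y * z) := by positivity
      linarith only [hyu, e1, h, this]
    have hy0 : y = 0 := by
      rcases mul_eq_zero.1 k1 with h | h
      · exact h
      · linarith only [hz, h]
    subst hy0
    have k2 : T * (x * u) = x * z := by linarith only [h]
    have k3 : T * u = z := by
      have : x * (T * u - z) = 0 := by linarith only [h]
      rcases mul_eq_zero.1 this with h | h
      · linarith only [hT1, hx, h]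
      · linarith only [h]
    refine ⟨rfl, by linarith only [g3], ?_, ?_⟩
    · have : z ^ 2 = 3 * u ^ 2 := by rw [← k3, mul_pow, hT]
      linarith only [g4, this]
    · have : z ^ 2 = 3 * u ^ 2 := by rw [← k3, mul_pow, hT]
      linarith only [g4, this]
  · right
    have hms : T * (x * u - y * z) = T * (x * u) - T * (y * z) := by ring
    have k1 : x * u = 0 := by
      apply le_antisymm _ hxu
      by_contra hcon
      push Not at hcon
      have : 0 < T * (x * u) := by positivity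
      linarith
    have hu0 : u = 0 := by
      rcases mul_eq_zero.1 k1 with h | h
      · linarith only [hx, h]
      · exact h
    subst hu0
    have k2 : T * (y * z) = x * z := by linarith only [h]
    have k3 : T * y = x := by
      have : z * (T * y - x) = 0 := by linarith only [h]
      rcases mul_eq_zero.1 this with h | h
      · linarith only [hT1, hT2, hz, h]
      · linarith only [h]
    refine ⟨rfl, by linarith only [g4], ?_, ?_⟩
    · have : x ^ 2 = 3 * y ^ 2 := by rw [← k3, mul_pow, hT]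
      linarith only [h1, g3, this]
    · have : x ^ 2 = 3 * y ^ 2 := by rw [← k3, mul_pow, hT]
      linarith only [g3, this]

/-- exact solutions of the two-class system -/
theorem two_class_unique (p a a' b b' al al' be be' : ℝ)
    (ha : 1 / 2 ≤ a) (hb : 1 / 2 ≤ b) (hal : 1 / 2 ≤ al) (hbe : 1 / 2 ≤ be)
    (ha' : 0 ≤ a') (hb' : 0 ≤ b') (hal' : 0 ≤ al') (hbe' : 0 ≤ be')
    (s1 : a + a' ≤ 1) (s2 : b + b' ≤ 1) (s3 : al + al' ≤ 1) (s4 : be + be' ≤ 1)
    (h1 : p ≤ a * al + a' * al') (h2 : p ≤ b * be + b' * be')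
    (h3 : a * b + a' * b' ≤ 1 - p) (h4 : al * be + al' * be' ≤ 1 - p) (hp : pc ≤ p) :
    p = pc ∧
    ((a = Real.sqrt 3 - 1 ∧ al = Real.sqrt 3 - 1 ∧ b = (3 - Real.sqrt 3) / 2 ∧
      be = (3 - Real.sqrt 3) / 2 ∧ b' = (Real.sqrt 3 - 1) / 2 ∧ be' = (Real.sqrt 3 - 1) / 2 ∧
      a' = 0 ∧ al' = 0) ∨
    (b = Real.sqrt 3 - 1 ∧ be = Real.sqrt 3 - 1 ∧ a = (3 - Real.sqrt 3) / 2 ∧
      al = (3 - Real.sqrt 3) / 2 ∧ a' = (Real.sqrt 3 - 1) / 2 ∧ al' = (Real.sqrt 3 - 1) / 2 ∧
      b' = 0 ∧ be' = 0)) := by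
  have hpe : p = pc := le_antisymm (two_class p a a' b b' al al' be be' ha hb hal hbe ha' hb'
    hal' hbe' s1 s2 s3 s4 h1 h2 h3 h4) hp
  refine ⟨hpe, ?_⟩
  obtain ⟨t1, t2, t3⟩ := sqrt3_bounds
  have hpT : p = 4 - 2 * Real.sqrt 3 := by rw [hpe]; rfl
  set T := Real.sqrt 3 with hT
  set x := Real.sqrt (a * al) with hx
  set y := Real.sqrt (a' * al') with hy
  set z := Real.sqrt (b * be) with hz
  set u := Real.sqrt (b' * be') with hu
  have hx2 : x ^ 2 = a * al := Real.sq_sqrt (by positivity)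
  have hy2 : y ^ 2 = a' * al' := Real.sq_sqrt (by positivity)
  have hz2 : z ^ 2 = b * be := Real.sq_sqrt (by positivity)
  have hu2 : u ^ 2 = b' * be' := Real.sq_sqrt (by positivity)
  have hy0 : 0 ≤ y := Real.sqrt_nonneg _
  have hu0 : 0 ≤ u := Real.sqrt_nonneg _
  have hxh : 1 / 2 ≤ x := by
    apply Real.le_sqrt_of_sq_le
    have := mul_le_mul ha hal (by norm_num) (by linarith only [ha])
    linarith only [this]
  have hzh : 1 / 2 ≤ z := by
    apply Real.le_sqrt_of_sq_le
    have := mul_le_mul hb hbe (by norm_num) (by linarith only [hb])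
    linarith only [this]
  have c1 : x + y ≤ 1 := by
    have := altwo_cs a a' al al' 1 1 (by linarith only [ha]) ha' (by linarith only [hal]) hal' s1 s3
    simpa using this
  have c2 : z + u ≤ 1 := by
    have := altwo_cs b b' be be' 1 1 (by linarith) hb' (by linarith only [hbe]) hbe' s2 s4
    simpa using this
  have c3 : x * z + y * u ≤ 1 - p := by
    have h5 := altwo_cs (a * b) (a' * b') (al * be) (al' * be') (1 - p) (1 - p) (by positivity)
      (by positivity) (by positivity) (by positivity) h3 h4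
    rw [Real.sqrt_mul_self (by linarith only [t1, hpT])] at h5
    have e1 : x * z = Real.sqrt (a * b * (al * be)) := by
      rw [hx, hz, ← Real.sqrt_mul (by positivity)]
      congr 1
      ring
    have e2 : y * u = Real.sqrt (a' * b' * (al' * be')) := by
      rw [hy, hu, ← Real.sqrt_mul (by positivity)]
      congr 1
      ring
    rw [e1, e2]
    exact h5
  have hr : 2 * p = 1 + (2 - T) ^ 2 := by
    have : (2 - T) ^ 2 = 4 - 4 * T + T ^ 2 := by ring
    rw [this, t3, hpT]
    ring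
  have slope : ∀ x y : ℝ, 1 / 2 ≤ x → 0 ≤ y → x + y ≤ 1 → p ≤ x ^ 2 + y ^ 2 → T * y ≤ x := by
    intro x y hx hy hxy h
    have h5 := altwo_slope p (2 - T) x y (by linarith only [t2]) (by linarith only [t1]) hr hx hy hxy h
    have h6 : (1 + (2 - T)) * (T * y) ≤ (1 + (2 - T)) * x := by
      have e1 : (1 + (2 - T)) * (T * y) = T * ((1 + (2 - T)) * y) := by ring
      have e2 : T * ((1 - (2 - T)) * x) = (T ^ 2 - T) * x := by ring
      have e3 : T * ((1 + (2 - T)) * y) ≤ T * ((1 - (2 - T)) * x) :=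
        mul_le_mul_of_nonneg_left h5 (by linarith only [t1])
      rw [e1]
      rw [e2, t3] at e3
      linarith only [e3]
    exact le_of_mul_le_mul_left h6 (by linarith only [t2])
  have d1 : T * y ≤ x := slope x y hxh hy0 c1 (by linarith only [h1, hx2, hy2])
  have d2 : T * u ≤ z := slope z u hzh hu0 c2 (by linarith only [h2, hz2, hu2])
  rcases two_class_sqrt t1 t2 t3 hxh hzh hy0 hu0 d1 d2 (by linarith only [h1, hpT, hx2, hy2]) (by linarith only [h2, hpT, hz2, hu2]) (by linarith only [hpT, c3])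
    with ⟨-, k1, k2, k3⟩ | ⟨-, k1, k2, k3⟩
  · left
    exact two_class_fin t1 t2 t3 ha hb hal hbe ha' hb' hal' hbe' s2 s4 (by linarith only [h3, hpT]) (by linarith only [h4, hpT])
      (by linarith only [hx2, k1]) (by linarith only [hz2, k2]) (by linarith only [hpT, hz2, hu2, k3])
  · right
    exact two_class_fin t1 t2 t3 hb ha hbe hal hb' ha' hbe' hal' s1 s3
      (by linarith only [h3, hpT]) (by linarith only [h4, hpT])
      (by linarith only [hz2, k1]) (by linarith only [hx2, k2]) (by linarith only [hy2, k3])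

/-- the exact system has exactly two solutions for `p ≥ pc` -/
theorem AL_unique (p a a' e b b' e' al al' n1 be be' n2 : ℝ) (hp : pc ≤ p)
    (h : ALSys p 0 a a' e b b' e' al al' n1 be be' n2) :
    p = pc ∧ (NearPM 0 a a' e b b' e' al al' n1 be be' n2 ∨
      NearPM 0 b b' e' a a' e be be' n2 al al' n1) := by
  have ha := h.ha
  have hb := h.hb
  have hal := h.hal
  have hbe := h.hbe
  have ha' := h.ha'
  have hb' := h.hb'
  have hal' := h.hal'
  have hbe' := h.hbe'
  have he := h.he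
  have he' := h.he'
  have hn1 := h.hn1
  have hn2 := h.hn2
  have s1 := h.s1
  have s2 := h.s2
  have s3 := h.s3
  have s4 := h.s4
  have e1 := h.e1
  have e2 := h.e2
  have I1 := h.I1
  have I2 := h.I2
  have I3 := h.I3
  have I4 := h.I4
  have a0 : 0 < a := by linarith
  have b0 : 0 < b := by linarith only [hb]
  have q1 : 0 ≤ e / b := div_nonneg he b0.le
  have q2 : 0 ≤ e' / a := div_nonneg he' a0.le
  have r1 : e / b ≤ 1 - a - a' := by
    rw [div_le_iff₀ b0]
    exact e1
  have r2 : e' / a ≤ 1 - b - b' := by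
    rw [div_le_iff₀ a0]
    exact e2
  have k1 : e / b * b = e := div_mul_cancel₀ e b0.ne'
  have k2 : e' / a * a = e' := div_mul_cancel₀ e' a0.ne'
  obtain ⟨hpe, hor⟩ := two_class_unique p a (a' + e / b) b (b' + e' / a) al (al' + n1) be
    (be' + n2) ha hb hal hbe
    (by linarith only [ha', q1]) (by linarith) (by linarith only [hal', hn1]) (by linarith only [hbe', hn2]) (by linarith only [r1]) (by linarith only [r2])
    (by linarith) (by linarith only [s4])
    (by
      have h1 : p - al * a - al' * a' ≤ n1 * (e / b) := by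
        rw [← mul_div_assoc, le_div_iff₀ b0]
        linarith only [I1]
      nlinarith only [h1, mul_nonneg ha' hn1, mul_nonneg q1 hal'])
    (by
      have h1 : p - be * b - be' * b' ≤ n2 * (e' / a) := by
        rw [← mul_div_assoc, le_div_iff₀ a0]
        linarith only [I2]
      nlinarith only [q2, h1, mul_nonneg hb' hn2, mul_nonneg q2 hbe'])
    (by
      have h1 : e' / a ≤ b - b' := by linarith only [hb, r2]
      have h2 : a' ≤ a := by linarith only [ha, s1]
      have h3 : e / b * (e' / a) ≤ e / b * (b - b') := mul_le_mul_of_nonneg_left h1 q1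
      have h4 : a' * (e' / a) ≤ a * (e' / a) := mul_le_mul_of_nonneg_right h2 q2
      nlinarith only [I3, k1, k2, h3, h4])
    (by
      have h1 : be' + n2 ≤ be := by linarith only [hbe, s4]
      have h2 : al' ≤ al := by linarith only [hal, hn1, s3]
      have h3 := mul_le_mul_of_nonneg_left h1 hn1
      have h4 := mul_le_mul_of_nonneg_right h2 hn2
      nlinarith only [I4, h3, h4]) hp
  refine ⟨hpe, ?_⟩
  obtain ⟨t1, t2, t3⟩ := sqrt3_bounds
  have hpT : p = 4 - 2 * Real.sqrt 3 := by rw [hpe]; rfl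
  have hprod : (Real.sqrt 3 - 1) * ((3 - Real.sqrt 3) / 2) = 2 * Real.sqrt 3 - 3 := by
    have : (Real.sqrt 3 - 1) * ((3 - Real.sqrt 3) / 2) =
        (4 * Real.sqrt 3 - Real.sqrt 3 ^ 2 - 3) / 2 := by ring
    rw [this, t3]
    ring
  rcases hor with ⟨c1, c2, c3, c4, c5, c6, c7, c8⟩ | ⟨c1, c2, c3, c4, c5, c6, c7, c8⟩
  · left
    have z1 : a' = 0 := by linarith only [ha', q1, c7]
    have z2 : e / b = 0 := by linarith only [ha', q1, c7]
    have z3 : al' = 0 := by linarith only [hal', hn1, c8]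
    have z4 : n1 = 0 := by linarith only [hal', hn1, c8]
    have z5 : e = 0 := by rw [← k1, z2, zero_mul]
    have z6 : n2 = 0 := by
      have : n2 * al ≤ 0 := by
        rw [c2, c4, hprod, z3, z4, hpT] at I4
        rw [c2]
        linarith only [I4]
      have h5 : n2 * al = 0 := le_antisymm this (mul_nonneg hn2 (by linarith only [t1, c2]))
      rcases mul_eq_zero.1 h5 with h | h
      · exact h
      · linarith only [t1, c2, h]
    have z7 : e' = 0 := by
      rw [c1, c3, hprod, z1, z5, hpT] at I3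
      linarith only [he', I3]
    have z8 : e' / a = 0 := by rw [z7, zero_div]
    constructor <;> linarith only [c1, c2, c3, r2, c5, c4, s4, c6, z8, s2, z6, hn2, q1, c7, hn1, c8, z5, z7, hal']
  · right
    have z1 : b' = 0 := by linarith only [hb', q2, c7]
    have z2 : e' / a = 0 := by linarith only [hb', q2, c7]
    have z3 : be' = 0 := by linarith only [hbe', hn2, c8]
    have z4 : n2 = 0 := by linarith only [hbe', hn2, c8]
    have z5 : e' = 0 := by rw [← k2, z2, zero_mul]
    have z6 : n1 = 0 := by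
      have : n1 * be ≤ 0 := by
        rw [mul_comm al be, c2, c4, hprod, z3, z4, hpT] at I4
        rw [c2]
        linarith
      have h5 : n1 * be = 0 := le_antisymm this (mul_nonneg hn1 (by linarith only [t1, c2]))
      rcases mul_eq_zero.1 h5 with h | h
      · exact h
      · linarith only [t1, c2, h]
    have z7 : e = 0 := by
      rw [mul_comm a b, c1, c3, hprod, z1, z5, hpT] at I3
      linarith only [he, I3]
    have z8 : e / b = 0 := by rw [z7, zero_div]
    constructor <;> linarith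

/-- the system for a vector of thirteen numbers (the last one is `p`) -/
private def alnearSys (t : ℝ) (x : Fin 13 → ℝ) : Prop :=
  ALSys (x 12) t (x 0) (x 1) (x 2) (x 3) (x 4) (x 5) (x 6) (x 7) (x 8) (x 9) (x 10) (x 11)

private def alnearPM (ε : ℝ) (x : Fin 13 → ℝ) : Prop :=
  NearPM ε (x 0) (x 1) (x 2) (x 3) (x 4) (x 5) (x 6) (x 7) (x 8) (x 9) (x 10) (x 11)

private def alnearMP (ε : ℝ) (x : Fin 13 → ℝ) : Prop :=
  NearPM ε (x 3) (x 4) (x 5) (x 0) (x 1) (x 2) (x 9) (x 10) (x 11) (x 6) (x 7) (x 8)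

private theorem alnear_mem {t : ℝ} (ht1 : t ≤ 1) {x : Fin 13 → ℝ} (h : alnearSys t x)
    (hp : pc ≤ x 12) : x ∈ Set.Icc (0 : Fin 13 → ℝ) (fun _ => 2) := by
  obtain ⟨ha, hb, hal, hbe, ha', hb', hal', hbe', he, he', hn1, hn2, s1, s2, s3, s4, e1, e2,
    _, _, i3, _⟩ := h
  have hpc : 0 ≤ pc := by
    unfold pc
    linarith only [sqrt3_bounds.2.1]
  have hab : 0 ≤ x 0 * x 3 := by positivity
  have hab' : 0 ≤ x 1 * x 4 := by positivity
  have g1 : x 2 ≤ 1 := by
    have : (1 - x 0 - x 1) * x 3 ≤ 1 * 1 := by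
      apply mul_le_mul <;> linarith only [ha, ha', hb', s2, hb]
    linarith only [e1, this]
  have g2 : x 5 ≤ 1 := by
    have : (1 - x 3 - x 4) * x 0 ≤ 1 * 1 := by
      apply mul_le_mul <;> linarith only [hb, hb', ha', s1, ha]
    linarith only [e2, this]
  constructor
  · intro i
    show (0 : ℝ) ≤ x i
    fin_cases i <;> simp <;> linarith only [ha, ha', he, hb, hb', he', hal, hal', hn1, hbe, hbe', hn2, hp, hpc]
  · intro i
    show x i ≤ (2 : ℝ)
    fin_cases i <;> simp <;> linarith only [ha', s1, ha, ht1, hp, he', i3, hpc, hab, hab', hb', s2, hb, he, hal', hn1, s3, hal, hbe', hn2, s4, hbe]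

/-- near the extremal point: with a small slack all twelve numbers are near one of the two
extremal points, and `p` is near `pc` -/
theorem AL_near (ε : ℝ) (hε : 0 < ε) :
    ∃ t : ℝ, 0 < t ∧ ∀ p a a' e b b' e' al al' n1 be be' n2 : ℝ, pc ≤ p →
      ALSys p t a a' e b b' e' al al' n1 be be' n2 →
      p ≤ pc + ε ∧ (NearPM ε a a' e b b' e' al al' n1 be be' n2 ∨
        NearPM ε b b' e' a a' e be be' n2 al al' n1) := by
  by_contra hcon
  push Not at hcon
  have hcon' : ∀ k : ℕ, ∃ x : Fin 13 → ℝ, pc ≤ x 12 ∧ alnearSys (1 / ((k : ℝ) + 1)) x ∧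
      ¬ (x 12 ≤ pc + ε ∧ (alnearPM ε x ∨ alnearMP ε x)) := by
    intro k
    obtain ⟨p, a, a', e, b, b', e', al, al', n1, be, be', n2, hp, h, hne⟩ :=
      hcon (1 / ((k : ℝ) + 1)) Nat.one_div_pos_of_nat
    refine ⟨![a, a', e, b, b', e', al, al', n1, be, be', n2, p], hp, h, ?_⟩
    rintro ⟨h1, h2 | h2⟩
    · exact (hne h1).1 h2
    · exact (hne h1).2 h2
  choose x hxp hx hxn using hcon'
  have hk1 : ∀ k : ℕ, 1 / ((k : ℝ) + 1) ≤ 1 := by
    intro k
    rw [div_le_one (by positivity)]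
    linarith [(Nat.cast_nonneg k : (0 : ℝ) ≤ (k : ℝ))]
  obtain ⟨y, -, φ, hφ, hy⟩ := isCompact_Icc.tendsto_subseq
    (fun k => alnear_mem (hk1 k) (hx k) (hxp k))
  have ht : Tendsto (fun k : ℕ => 1 / ((φ k : ℝ) + 1)) atTop (𝓝 0) :=
    (tendsto_one_div_add_atTop_nhds_zero_nat (𝕜 := ℝ)).comp hφ.tendsto_atTop
  have hq : Tendsto (fun k : ℕ => ((1 / ((φ k : ℝ) + 1), x (φ k)) : ℝ × (Fin 13 → ℝ))) atTop
      (𝓝 ((0 : ℝ), y)) := ht.prodMk_nhds hy
  have key : ∀ F G : ℝ × (Fin 13 → ℝ) → ℝ, Continuous F → Continuous G →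
      (∀ k : ℕ, F (1 / ((φ k : ℝ) + 1), x (φ k)) ≤ G (1 / ((φ k : ℝ) + 1), x (φ k))) →
      F (0, y) ≤ G (0, y) := by
    intro F G hF hG h
    exact le_of_tendsto_of_tendsto' ((hF.tendsto _).comp hq) ((hG.tendsto _).comp hq) h
  have hX : ∀ k, ALSys (x (φ k) 12) (1 / ((φ k : ℝ) + 1)) (x (φ k) 0) (x (φ k) 1) (x (φ k) 2)
      (x (φ k) 3) (x (φ k) 4) (x (φ k) 5) (x (φ k) 6) (x (φ k) 7) (x (φ k) 8) (x (φ k) 9)
      (x (φ k) 10) (x (φ k) 11) := fun k => hx (φ k)
  have hp12 : pc ≤ y 12 :=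
    key (fun _ => pc) (fun q => q.2 12) (by fun_prop) (by fun_prop) (fun k => hxp (φ k))
  have hlim : ALSys (y 12) 0 (y 0) (y 1) (y 2) (y 3) (y 4) (y 5) (y 6) (y 7) (y 8) (y 9) (y 10)
      (y 11) :=
    { ha := key (fun _ => 1 / 2) (fun q => q.2 0) (by fun_prop) (by fun_prop)
        (fun k => (hX k).ha)
      hb := key (fun _ => 1 / 2) (fun q => q.2 3) (by fun_prop) (by fun_prop)
        (fun k => (hX k).hb)
      hal := key (fun _ => 1 / 2) (fun q => q.2 6) (by fun_prop) (by fun_prop)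
        (fun k => (hX k).hal)
      hbe := key (fun _ => 1 / 2) (fun q => q.2 9) (by fun_prop) (by fun_prop)
        (fun k => (hX k).hbe)
      ha' := key (fun _ => 0) (fun q => q.2 1) (by fun_prop) (by fun_prop)
        (fun k => (hX k).ha')
      hb' := key (fun _ => 0) (fun q => q.2 4) (by fun_prop) (by fun_prop)
        (fun k => (hX k).hb')
      hal' := key (fun _ => 0) (fun q => q.2 7) (by fun_prop) (by fun_prop)
        (fun k => (hX k).hal')
      hbe' := key (fun _ => 0) (fun q => q.2 10) (by fun_prop) (by fun_prop)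
        (fun k => (hX k).hbe')
      he := key (fun _ => 0) (fun q => q.2 2) (by fun_prop) (by fun_prop)
        (fun k => (hX k).he)
      he' := key (fun _ => 0) (fun q => q.2 5) (by fun_prop) (by fun_prop)
        (fun k => (hX k).he')
      hn1 := key (fun _ => 0) (fun q => q.2 8) (by fun_prop) (by fun_prop)
        (fun k => (hX k).hn1)
      hn2 := key (fun _ => 0) (fun q => q.2 11) (by fun_prop) (by fun_prop)
        (fun k => (hX k).hn2)
      s1 := key (fun q => q.2 0 + q.2 1) (fun _ => 1) (by fun_prop) (by fun_prop)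
        (fun k => (hX k).s1)
      s2 := key (fun q => q.2 3 + q.2 4) (fun _ => 1) (by fun_prop) (by fun_prop)
        (fun k => (hX k).s2)
      s3 := key (fun q => q.2 6 + q.2 7 + q.2 8) (fun _ => 1) (by fun_prop) (by fun_prop)
        (fun k => (hX k).s3)
      s4 := key (fun q => q.2 9 + q.2 10 + q.2 11) (fun _ => 1) (by fun_prop) (by fun_prop)
        (fun k => (hX k).s4)
      e1 := key (fun q => q.2 2) (fun q => (1 - q.2 0 - q.2 1) * q.2 3) (by fun_prop)
        (by fun_prop) (fun k => (hX k).e1)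
      e2 := key (fun q => q.2 5) (fun q => (1 - q.2 3 - q.2 4) * q.2 0) (by fun_prop)
        (by fun_prop) (fun k => (hX k).e2)
      I1 := key (fun q => q.2 3 * (q.2 12 - q.2 6 * q.2 0 - q.2 7 * q.2 1))
        (fun q => q.2 8 * q.2 2 + q.1) (by fun_prop) (by fun_prop) (fun k => (hX k).I1)
      I2 := key (fun q => q.2 0 * (q.2 12 - q.2 9 * q.2 3 - q.2 10 * q.2 4))
        (fun q => q.2 11 * q.2 5 + q.1) (by fun_prop) (by fun_prop) (fun k => (hX k).I2)
      I3 := key (fun q => q.2 0 * q.2 3 + q.2 1 * q.2 4 + q.2 2 + q.2 5)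
        (fun q => 1 - q.2 12 + q.1) (by fun_prop) (by fun_prop) (fun k => (hX k).I3)
      I4 := key (fun q => q.2 6 * q.2 9 + q.2 7 * q.2 10 + q.2 8 * q.2 9 + q.2 11 * q.2 6)
        (fun q => 1 - q.2 12 + q.1) (by fun_prop) (by fun_prop) (fun k => (hX k).I4) }
  obtain ⟨hype, hyor⟩ := AL_unique _ _ _ _ _ _ _ _ _ _ _ _ _ hp12 hlim
  -- convergence of the coordinates
  have hcoord : ∀ i : Fin 13, ∀ᶠ k in atTop, |x (φ k) i - y i| < ε := by
    intro i
    have h1 : Tendsto (fun k => x (φ k) i) atTop (𝓝 (y i)) := (tendsto_pi_nhds.1 hy) i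
    have h2 := Metric.tendsto_nhds.1 h1 ε hε
    filter_upwards [h2] with k hk
    rwa [Real.dist_eq] at hk
  have hall : ∀ᶠ k in atTop, ∀ i : Fin 13, |x (φ k) i - y i| < ε := by
    rw [Filter.eventually_all]
    exact hcoord
  obtain ⟨k, hk⟩ := hall.exists
  refine hxn (φ k) ?_
  have hb : ∀ i : Fin 13, y i - ε ≤ x (φ k) i ∧ x (φ k) i ≤ y i + ε := by
    intro i
    have := abs_lt.1 (hk i)
    constructor <;> linarith [this.1, this.2]
  refine ⟨by linarith [(hb 12).2], ?_⟩
  rcases hyor with hpm | hpm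
  · left
    obtain ⟨c1, c2, c3, c4, c5, c6, c7, c8, c9, c10, c11, c12, c13, c14, c15, c16, c17, c18⟩ := hpm
    constructor <;> linarith only [c1, hb 0, c2, c3, hb 6, c4, c5, hb 3, hb, c6, c7, hb 9, c8, c9, hb 4, c10, c11, hb 10, c12, c13, hb 1, c14, hb 7, c15, hb 2, c16, hb 5, c17, hb 8, c18, hb 11]
  · right
    obtain ⟨c1, c2, c3, c4, c5, c6, c7, c8, c9, c10, c11, c12, c13, c14, c15, c16, c17, c18⟩ := hpm
    constructor <;> linarith only [c1, hb 3, c2, c3, hb 9, c4, c5, hb 0, c6, c7, hb 6, c8, c9, hb 1, c10, c11, hb 7, c12, c13, hb 4, c14, hb 10, c15, hb 5, c16, hb 2, c17, hb 11, c18, hb 8]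

end Pool.Agent.LP
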