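import Pool.Agent.OIP.Avg

/-!
# LP, Part I.a: exact layered star laws, definitions

`Λ` = finite type of layers with adjacency `L` (plaquette: `Bool × Bool`), `κ` = index type of the leaves.
Vertices: leaves `(i, k)` and hubs `i`.  Clusters are always clusters inside the leaves.
-/

set_option autoImplicit false

open Finset
open scoped Classical

namespace Pool.Agent.LP

open Pool.Agent.OIP

noncomputable section

/-- vertices of a layered star -/
abbrev LV (Λ κ : Type) := (Λ × κ) ⊕ Λ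

abbrev leaf {Λ κ : Type} (a : Λ × κ) : LV Λ κ := Sum.inl a
abbrev hub {Λ κ : Type} (i : Λ) : LV Λ κ := Sum.inr i

/-- exact layered star law -/
structure LStar {Ω : Type} [Fintype Ω] {Λ κ : Type} (L : SimpleGraph Λ) (p : ℝ) (w : Ω → ℝ)
    (W : Ω → SimpleGraph (LV Λ κ)) : Prop where
  law : IsLaw w
  indep : OneIndep w W
  hubEdge : ∀ (i : Λ) (k : κ), p ≤ pr w {ω | (W ω).Adj (hub i) (leaf (i, k))}
  vert : ∀ i i' : Λ, L.Adj i i' → ∀ k : κ, p ≤ pr w {ω | (W ω).Adj (leaf (i, k)) (leaf (i', k))}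
  hubVert : ∀ i i' : Λ, L.Adj i i' → p ≤ pr w {ω | (W ω).Adj (hub i) (hub i')}
  cross : ∀ ω, ∀ (i i' : Λ) (j k : κ), j ≠ k → (W ω).Adj (hub i) (leaf (i, j)) →
    Cn (W ω) (Set.range Sum.inr) (hub i) (hub i') → (W ω).Adj (hub i') (leaf (i', k)) →
    (W ω).Adj (leaf (i, j)) (leaf (i', k))

section

variable {Λ κ : Type} [Fintype κ]

/-- number of leaves of layer `i` in the cluster of `a` -/
def lcnt (G : SimpleGraph (LV Λ κ)) (a : Λ × κ) (i : Λ) : ℕ :=
  (Finset.univ.filter (fun k : κ => Cn G (Set.range Sum.inl) (leaf a) (leaf (i, k)))).card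

/-- the leaf `a` lies in the majority cluster of layer `i` -/
def InMaj (G : SimpleGraph (LV Λ κ)) (a : Λ × κ) (i : Λ) : Prop :=
  Fintype.card κ < 2 * lcnt G a i

/-- the majority clusters of the layers `i` and `i'` exist and coincide -/
def SameMaj (G : SimpleGraph (LV Λ κ)) (i i' : Λ) : Prop := ∃ a : Λ × κ, InMaj G a i ∧ InMaj G a i'

/-- layer `i` has a cluster of density at least `1/2 + δ` -/
def MajOK (δ : ℝ) (G : SimpleGraph (LV Λ κ)) (i : Λ) : Prop :=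
  ∃ a : Λ × κ, (1 / 2 + δ) * (Fintype.card κ : ℝ) ≤ (lcnt G a i : ℝ)

/-- one cluster has density at least `1/2 + δ` in both layers -/
def LkOK (δ : ℝ) (G : SimpleGraph (LV Λ κ)) (i i' : Λ) : Prop :=
  ∃ a : Λ × κ, (1 / 2 + δ) * (Fintype.card κ : ℝ) ≤ (lcnt G a i : ℝ) ∧
    (1 / 2 + δ) * (Fintype.card κ : ℝ) ≤ (lcnt G a i' : ℝ)

/-- all majority clusters exist, adjacent layers not related by `U` are linked -/
def Nice (L : SimpleGraph Λ) (δ : ℝ) (U : Λ → Λ → Prop) (G : SimpleGraph (LV Λ κ)) : Prop :=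
  (∀ i, MajOK δ G i) ∧ ∀ i i', L.Adj i i' → ¬ U i i' → LkOK δ G i i'

/-- number of open edges between the hub of layer `i` and its leaves -/
def hdeg (G : SimpleGraph (LV Λ κ)) (i : Λ) : ℕ :=
  (Finset.univ.filter (fun k : κ => G.Adj (hub i) (leaf (i, k)))).card

end

/-- the combinatorial rules for the relation `U` (unlinked) and the types `P` (`P i`: layer `i` is a P end) -/
structure Rules {Λ : Type} (L : SimpleGraph Λ) (U : Λ → Λ → Prop) (P : Λ → Prop) : Prop where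
  symm : ∀ i i', U i i' → U i' i
  adj : ∀ i i', U i i' → L.Adj i i'
  u1 : ∀ i i', U i i' → (P i ↔ ¬ P i')
  u2 : ∀ i i' i'', U i i' → U i i'' → i' ≠ i'' → ¬ P i
  u3 : ∀ i i' j j', U i i' → U j j' → L.Adj i j → i' ≠ j → j' ≠ i → (P i ↔ P j)

/-- critical value `4 - 2 √3` and the DFH number `s = (√3 - 1)√3/2 = .6339...` (`s (1-s)`, ... below) -/
def sc : ℝ := (3 - Real.sqrt 3) / 2

/-- event: `(i, j)` lies in the majority cluster of layer `i`, `(i, j')` in that of layer `i'` -/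
def EvA {Λ κ : Type} [Fintype κ] (i i' : Λ) (j j' : κ) (G : SimpleGraph (LV Λ κ)) : Prop :=
  InMaj G (i, j) i ∧ InMaj G (i, j') i'

/-- the numbers of an M end `i` of an unlinked pair `i, i'` (error `ε`), for the leaves `j ≠ j'` -/
structure MNum {Λ κ : Type} [Fintype κ] (ε : ℝ) (Q : Set (SimpleGraph (LV Λ κ)) → ℝ) (i i' : Λ) (j j' : κ) :
    Prop where
  ne : j ≠ j'
  a1 : sc * (1 - sc) - ε ≤ Q {G | EvA i i' j j' G}
  a2 : Q {G | EvA i i' j j' G ∧ ¬ SameMaj G i i'} ≤ sc * (1 - sc) + ε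
  b : sc * (sc * (1 - sc)) - ε ≤ Q {G | EvA i i' j j' G ∧ G.Adj (hub i) (leaf (i, j))}
  c : (1 - sc) * (sc * (1 - sc)) - ε ≤ Q {G | EvA i i' j j' G ∧ G.Adj (hub i) (leaf (i, j'))}
  d : Q {G | EvA i i' j j' G ∧ ¬ SameMaj G i i' ∧ G.Adj (hub i) (leaf (i, j')) ∧ ¬ G.Adj (hub i) (hub i')} ≤ ε

/-- output of the theory of exact star laws; `Q A` = probability of `A` -/
structure StarOut {Λ : Type} {n : ℕ} (L : SimpleGraph Λ) (δ ε e₁ : ℝ)
    (Q : Set (SimpleGraph (LV Λ (Fin n))) → ℝ) (U : Λ → Λ → Prop) (P : Λ → Prop) : Prop where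
  rules : Rules L U P
  nice : Q {G | ¬ Nice L δ U G} ≤ e₁
  pend : ∀ i i', U i i' → P i → 1 / 5 ≤ Q {G | 100 * hdeg G i ≤ n}
  mend : ∀ i i', U i i' → ¬ P i → Q {G | 5 * hdeg G i ≤ n} ≤ 1 / 100
  mnum : ∀ i i', U i i' → ¬ P i → ∃ j j', MNum ε Q i i' j j'

end

end Pool.Agent.LP
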