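import Pool.Agent.OIP.Der
import Pool.Agent.LP.SDefs

/-!
# LP, Part I.b: layered cubes, the model `Z^4 x {0,1}^D`, derived stars

`Λ` is a finite set of layers, `L` the adjacency of layers (see `SDefs`).  A layered cube has the vertices `(i, S)`, `S : Finset D`.
Weights, events, `DepOn`, `OneIndep`, `Cn` are those of `OIP.Defs`.
-/

set_option autoImplicit false

open Finset
open scoped Classical

namespace Pool.Agent.LP

open Pool.Agent.OIP

noncomputable section

/-- the layers of a plaquette -/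
def plaq : SimpleGraph (Bool × Bool) where
  Adj i j := (i.1 = j.1 ∧ i.2 ≠ j.2) ∨ (i.1 ≠ j.1 ∧ i.2 = j.2)
  symm := ⟨by
    rintro i j (h | h)
    · exact Or.inl ⟨h.1.symm, fun h' => h.2 h'.symm⟩
    · exact Or.inr ⟨fun h' => h.1 h'.symm, h.2.symm⟩⟩
  loopless := ⟨by
    rintro i (h | h)
    · exact h.2 rfl
    · exact h.1 rfl⟩

/-- approximate layered star law -/
structure NearL {Ω : Type} [Fintype Ω] {Λ κ : Type} (L : SimpleGraph Λ) (η p : ℝ) (w : Ω → ℝ)
    (W : Ω → SimpleGraph (LV Λ κ)) : Prop where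
  law : IsLaw w
  indep : ∀ A B : Set (LV Λ κ), Disjoint A B → ∀ U U' : Set (SimpleGraph (LV Λ κ)), DepOn A U → DepOn B U' →
    |pr w {ω | W ω ∈ U ∧ W ω ∈ U'} - pr w {ω | W ω ∈ U} * pr w {ω | W ω ∈ U'}| ≤ η
  hubEdge : ∀ (i : Λ) (k : κ), p ≤ pr w {ω | (W ω).Adj (hub i) (leaf (i, k))}
  vert : ∀ i i' : Λ, L.Adj i i' → ∀ k : κ, p ≤ pr w {ω | (W ω).Adj (leaf (i, k)) (leaf (i', k))}
  hubVert : ∀ i i' : Λ, L.Adj i i' → p ≤ pr w {ω | (W ω).Adj (hub i) (hub i')}
  cross : ∀ (i i' : Λ) (j k : κ), j ≠ k → pr w {ω | (W ω).Adj (hub i) (leaf (i, j)) ∧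
    Cn (W ω) (Set.range Sum.inr) (hub i) (hub i') ∧ (W ω).Adj (hub i') (leaf (i', k)) ∧
    ¬ (W ω).Adj (leaf (i, j)) (leaf (i', k))} ≤ η

section cube

variable {Λ D : Type}

/-- 1-independent law on the layered cube; everything is required only for vertices `(i, S)` with `S ⊆ D0` -/
structure LCube {Ω : Type} [Fintype Ω] [DecidableEq D] (L : SimpleGraph Λ) (D0 : Finset D) (p : ℝ) (w : Ω → ℝ)
    (W : Ω → SimpleGraph (Λ × Finset D)) : Prop where
  law : IsLaw w
  indep : ∀ A B : Set (Λ × Finset D), Disjoint A B → (∀ u ∈ A, u.2 ⊆ D0) → (∀ u ∈ B, u.2 ⊆ D0) →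
    ∀ U U' : Set (SimpleGraph (Λ × Finset D)), DepOn A U → DepOn B U' →
    pr w {ω | W ω ∈ U ∧ W ω ∈ U'} = pr w {ω | W ω ∈ U} * pr w {ω | W ω ∈ U'}
  lay : ∀ (i : Λ) (S : Finset D) (d : D), insert d S ⊆ D0 → d ∉ S → p ≤ pr w {ω | (W ω).Adj (i, S) (i, insert d S)}
  ver : ∀ (i i' : Λ) (S : Finset D), L.Adj i i' → S ⊆ D0 → p ≤ pr w {ω | (W ω).Adj (i, S) (i', S)}

/-- derived star graph: two leaves with different indices are adjacent iff their positions are connected in `G` inside
the region `R` together with the two positions; all other pairs are adjacent iff their positions are adjacent -/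
def derAdjL {V κ : Type} (x : LV Λ κ → V) (R : Set V) (G : SimpleGraph V) : LV Λ κ → LV Λ κ → Prop
  | Sum.inl a, Sum.inl b => (a.2 = b.2 ∧ G.Adj (x (Sum.inl a)) (x (Sum.inl b))) ∨
      (a.2 ≠ b.2 ∧ Cn G (R ∪ {x (Sum.inl a), x (Sum.inl b)}) (x (Sum.inl a)) (x (Sum.inl b)))
  | Sum.inl a, Sum.inr i => G.Adj (x (Sum.inl a)) (x (Sum.inr i))
  | Sum.inr i, Sum.inl a => G.Adj (x (Sum.inr i)) (x (Sum.inl a))
  | Sum.inr i, Sum.inr j => G.Adj (x (Sum.inr i)) (x (Sum.inr j))

def derL {V κ : Type} (x : LV Λ κ → V) (R : Set V) (G : SimpleGraph V) : SimpleGraph (LV Λ κ) where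
  Adj := derAdjL x R G
  symm := ⟨by
    intro s t h
    rcases s with a | i <;> rcases t with b | j
    · rcases h with ⟨h1, h2⟩ | ⟨h1, h2⟩
      · exact Or.inl ⟨h1.symm, G.adj_symm h2⟩
      · refine Or.inr ⟨h1.symm, ?_⟩
        rw [Set.pair_comm]
        exact h2.symm
    · exact G.adj_symm h
    · exact G.adj_symm h
    · exact G.adj_symm h⟩
  loopless := ⟨by
    intro s h
    rcases s with a | i
    · rcases h with ⟨_, h2⟩ | ⟨h1, _⟩
      · exact G.loopless.irrefl _ h2
      · exact h1 rfl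
    · exact G.loopless.irrefl _ h⟩

variable [DecidableEq D] {n : ℕ}

/-- the set of directions of a star -/
def vsL (ι : Fin n → D) : Finset D := Finset.univ.image ι

/-- positions of leaves and hubs -/
def xL (ι : Fin n → D) : LV Λ (Fin n) → Λ × Finset D
  | Sum.inl a => (a.1, (vsL ι).erase (ι a.2))
  | Sum.inr i => (i, vsL ι)

/-- far region -/
def farL (ι : Fin n → D) (T : Finset D) : Set (Λ × Finset D) :=
  {u | u.2 ⊆ vsL ι ∪ T ∧ (∃ t ∈ T, t ∈ u.2 ∧ t ∉ vsL ι) ∧ n ≤ u.2.card + 1}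

/-- the derived star graph of the cube -/
def starC (ι : Fin n → D) (T : Finset D) (G : SimpleGraph (Λ × Finset D)) : SimpleGraph (LV Λ (Fin n)) :=
  derL (xL ι) (farL ι T) G

end cube

section model

variable {D : Type} [DecidableEq D]

/-- vertices of the model -/
abbrev V (D : Type) := (Fin 4 → ℤ) × Finset D

/-- flip the fibre coordinates in `S` -/
def flip (S : Finset D) (O : V D) : V D := (O.1, symmDiff O.2 S)

/-- directions: base (axis, sign) or fibre -/
abbrev Dir (D : Type) := (Fin 4 × Bool) ⊕ D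

/-- the neighbour of `v` in direction `d` -/
def mv : Dir D → V D → V D
  | Sum.inl (i, b), v => (v.1 + Pi.single i (if b then 1 else -1), v.2)
  | Sum.inr d, v => flip {d} v

/-- axis of a direction -/
def ax : Dir D → Fin 4 ⊕ D
  | Sum.inl e => Sum.inl e.1
  | Sum.inr d => Sum.inr d

/-- the fibre directions in `e` -/
def fdir : Dir D → Finset D
  | Sum.inl _ => ∅
  | Sum.inr d => {d}

/-- the fibre directions different from those of `e`, `e'` -/
def D0 [Fintype D] (e e' : Dir D) : Finset D := (fdir e ∪ fdir e')ᶜ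

/-- the four layers of the plaquette at `O` with the directions `e`, `e'` -/
def lam4 (O : V D) (e e' : Dir D) (i : Bool × Bool) : V D :=
  (fun v => if i.2 then mv e' v else v) (if i.1 then mv e O else O)

/-- the layered cube at the layers `lam` -/
def phi {Λ : Type} (lam : Λ → V D) (u : Λ × Finset D) : V D := flip u.2 (lam u.1)

/-- the derived star graph with layers `lam`, directions `ι` and far directions `T` -/
def starV {Λ : Type} {n : ℕ} (lam : Λ → V D) (ι : Fin n → D) (T : Finset D) (G : SimpleGraph (V D)) :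
    SimpleGraph (LV Λ (Fin n)) :=
  starC ι T (G.comap (phi lam))

/-- the majority of the leaves of the site `(O, K)` is in `A` -/
def aa (A : Set (V D)) (O : V D) (K : Finset D) : Prop :=
  K.card < 2 * (K.filter (fun k => flip (K.erase k) O ∈ A)).card

end model

end

end Pool.Agent.LP
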