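import Pool.Agent.LP.GBas

/-!
# LP, part III (probability): local sigma-algebras and the statements about bad cells

`meas_bad` by induction (`reg_sub`, finite unions over pairs in `Big Y`, countable unions are fine).
`prob_bad`: `q_0 ≤ 10^(-20)`, `q_(k+1) ≤ 132^8 q_k^2 ≤ 10^17 q_k^2` (at most `(132^4)^2` pairs of
cells in `Big Y`; a pair at distance at least 8 is independent by `reg_disjoint` and `Loc.indep`).
-/

set_option autoImplicit false

open MeasureTheory

namespace Pool.LPG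

/-- local sigma-algebras `F U`, `U` a set of base sites: monotone, independent for disjoint sets -/
structure Loc {Ω : Type*} [m : MeasurableSpace Ω] (μ : Measure Ω)
    (F : Set V → MeasurableSpace Ω) : Prop where
  le : ∀ U, F U ≤ m
  mono : ∀ U U', U ⊆ U' → F U ≤ F U'
  indep : ∀ (U U' : Set V) (A B : Set Ω), Disjoint U U' → MeasurableSet[F U] A →
    MeasurableSet[F U'] B → μ (A ∩ B) = μ A * μ B

/-- sup-norm ball -/
def Ball (z : V) (r : ℤ) : Set V := {x | ∀ i, z i - r ≤ x i ∧ x i ≤ z i + r}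

/-- bad set of a configuration -/
def XX {Ω : Type*} (X : V → Set Ω) (ω : Ω) : Set V := {z | ω ∈ X z}

/-- region on which badness of the cell `y` of level `k` depends -/
def Reg (k : ℕ) (y : V) : Set V :=
  {x | ∀ i, 100 ^ k * y i - 100 ^ k - 2 ≤ x i ∧ x i ≤ 100 ^ k * y i + 2 * 100 ^ k + 1}

/-- region on which soundness of the cell `y` of level `k` up to level `K` depends -/
def RegS (K k : ℕ) (y : V) : Set V :=
  {x | ∀ i, 100 ^ k * y i - 2 * 100 ^ K ≤ x i ∧ x i ≤ 100 ^ k * y i + 2 * 100 ^ K}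

/-- region allowed for the leak event of the cell `Y` of level `k` -/
def RegE (k : ℕ) (Y : V) : Set V :=
  {x | ∀ i, 100 ^ k * Y i - 3 * 100 ^ k ≤ x i ∧ x i ≤ 100 ^ k * Y i + 4 * 100 ^ k}

theorem reg_disjoint (k : ℕ) (y y' : V) (i : Fin 4) (h : y i + 8 ≤ y' i) :
    Disjoint (Reg k y) (Reg k y') := by
  rw [Set.disjoint_left]
  intro x hx hx'
  have h1 := (hx i).2
  have h2 := (hx' i).1
  have h3 : (1 : ℤ) ≤ 100 ^ k := one_le_pow₀ (by norm_num)
  have h4 : (100 : ℤ) ^ k * (y i + 8) ≤ 100 ^ k * y' i :=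
    mul_le_mul_of_nonneg_left h (by positivity)
  linarith

theorem reg_sub (k : ℕ) (y Y : V) (h : y ∈ Big Y) : Reg k y ⊆ Reg (k + 1) Y := by
  intro x hx i
  have h1 := (hx i).1
  have h2 := (hx i).2
  have h3 := (h i).1
  have h4 : y i ≤ 100 * Y i + 115 := by have := (h i).2; omega
  have h5 : (1 : ℤ) ≤ 100 ^ k := one_le_pow₀ (by norm_num)
  have h6 : (100 : ℤ) ^ k * (100 * Y i - 16) ≤ 100 ^ k * y i :=
    mul_le_mul_of_nonneg_left h3 (by positivity)
  have h7 : (100 : ℤ) ^ k * y i ≤ 100 ^ k * (100 * Y i + 115) :=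
    mul_le_mul_of_nonneg_left h4 (by positivity)
  rw [pow_succ]
  constructor
  · linarith
  · linarith

theorem gloc_succ_eq {Ω : Type*} (X : V → Set Ω) (k : ℕ) (Y : V) :
    {ω | Y ∈ Bad (XX X ω) (k + 1)} =
      ⋃ y : V, ⋃ y' : V, ⋃ _ : y ∈ Big Y ∧ y' ∈ Big Y ∧ ∃ i, y i + 8 ≤ y' i,
        ({ω | y ∈ Bad (XX X ω) k} ∩ {ω | y' ∈ Bad (XX X ω) k}) := by
  ext ω
  simp only [Bad, nextBad, Set.mem_ofPred_eq, Set.mem_iUnion, Set.mem_inter_iff, exists_prop]
  constructor
  · rintro ⟨y, hy, y', hy', h1, h2, h3⟩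
    exact ⟨y, y', ⟨h1, h2, h3⟩, hy, hy'⟩
  · rintro ⟨y, y', ⟨h1, h2, h3⟩, hy, hy'⟩
    exact ⟨y, hy, y', hy', h1, h2, h3⟩

theorem gloc_ball (z : V) : Ball z 3 = Reg 0 z := by
  ext x
  simp only [Ball, Reg, Set.mem_ofPred_eq, pow_zero, one_mul]
  constructor
  · intro h i
    have := h i
    constructor <;> omega
  · intro h i
    have := h i
    constructor <;> omega

/-- the enlarged region as a finite set -/
noncomputable def glocBig (Y : V) : Finset V :=
  Fintype.piFinset (fun i => Finset.Ico (100 * Y i - 16) (100 * Y i + 116))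

theorem gloc_mem_big (Y y : V) : y ∈ glocBig Y ↔ y ∈ Big Y := by
  simp only [glocBig, Fintype.mem_piFinset, Finset.mem_Ico, Big, Set.mem_ofPred_eq]

theorem gloc_card_big (Y : V) : (glocBig Y).card = 132 ^ 4 := by
  rw [glocBig, Fintype.card_piFinset]
  have : ∀ i : Fin 4, (Finset.Ico (100 * Y i - 16) (100 * Y i + 116)).card = 132 := by
    intro i
    rw [Int.card_Ico]
    have : 100 * Y i + 116 - (100 * Y i - 16) = 132 := by ring
    rw [this]
    rfl
  rw [Finset.prod_congr rfl (fun i _ => this i)]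
  simp

theorem meas_bad {Ω : Type*} [m : MeasurableSpace Ω] (μ : Measure Ω) [IsProbabilityMeasure μ]
    (F : Set V → MeasurableSpace Ω) (hF : Loc μ F) (X : V → Set Ω)
    (hX : ∀ z, MeasurableSet[F (Ball z 3)] (X z)) (k : ℕ) (y : V) :
    MeasurableSet[F (Reg k y)] {ω | y ∈ Bad (XX X ω) k} := by
  induction k generalizing y with
  | zero =>
    rw [← gloc_ball]
    exact hX y
  | succ k ih =>
    rw [gloc_succ_eq]
    refine MeasurableSet.iUnion fun z => MeasurableSet.iUnion fun z' =>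
      MeasurableSet.iUnion fun hz => ?_
    refine MeasurableSet.inter ?_ ?_
    · exact hF.mono _ _ (reg_sub k z y hz.1) _ (ih z)
    · exact hF.mono _ _ (reg_sub k z' y hz.2.1) _ (ih z')

theorem prob_bad {Ω : Type*} [m : MeasurableSpace Ω] (μ : Measure Ω) [IsProbabilityMeasure μ]
    (F : Set V → MeasurableSpace Ω) (hF : Loc μ F) (X : V → Set Ω)
    (hX : ∀ z, MeasurableSet[F (Ball z 3)] (X z))
    (hδ : ∀ z, μ (X z) ≤ ENNReal.ofReal (1 / 10 ^ 20)) (k : ℕ) (y : V) :
    μ {ω | y ∈ Bad (XX X ω) k} ≤ ENNReal.ofReal (1 / 10 ^ 17 * (1 / 1000) ^ (2 ^ k)) := by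
  induction k generalizing y with
  | zero =>
    have h1 : (1 : ℝ) / 10 ^ 17 * (1 / 1000) ^ (2 ^ 0) = 1 / 10 ^ 20 := by norm_num
    rw [h1]
    exact hδ y
  | succ k ih =>
    set q : ℝ := 1 / 10 ^ 17 * (1 / 1000) ^ (2 ^ k) with hq
    have hq0 : 0 ≤ q := by positivity
    have hpair : ∀ z z' : V, (∃ i, z i + 8 ≤ z' i) →
        μ ({ω | z ∈ Bad (XX X ω) k} ∩ {ω | z' ∈ Bad (XX X ω) k}) ≤ ENNReal.ofReal (q * q) := by
      rintro z z' ⟨i, hi⟩
      rw [hF.indep (Reg k z) (Reg k z') _ _ (reg_disjoint k z z' i hi)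
        (meas_bad μ F hF X hX k z) (meas_bad μ F hF X hX k z'), ENNReal.ofReal_mul hq0]
      exact mul_le_mul' (ih z) (ih z')
    have hsub : {ω | y ∈ Bad (XX X ω) (k + 1)} ⊆
        ⋃ p ∈ ((glocBig y) ×ˢ (glocBig y)).filter (fun p : V × V => ∃ i, p.1 i + 8 ≤ p.2 i),
          ({ω | p.1 ∈ Bad (XX X ω) k} ∩ {ω | p.2 ∈ Bad (XX X ω) k}) := by
      rw [gloc_succ_eq]
      intro ω hω
      simp only [Set.mem_iUnion] at hω ⊢
      obtain ⟨z, z', hz, hmem⟩ := hω
      refine ⟨(z, z'), ?_, hmem⟩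
      rw [Finset.mem_filter, Finset.mem_product]
      exact ⟨⟨(gloc_mem_big y z).2 hz.1, (gloc_mem_big y z').2 hz.2.1⟩, hz.2.2⟩
    calc μ {ω | y ∈ Bad (XX X ω) (k + 1)}
        ≤ μ (⋃ p ∈ ((glocBig y) ×ˢ (glocBig y)).filter
            (fun p : V × V => ∃ i, p.1 i + 8 ≤ p.2 i),
          ({ω | p.1 ∈ Bad (XX X ω) k} ∩ {ω | p.2 ∈ Bad (XX X ω) k})) := measure_mono hsub
      _ ≤ ∑ p ∈ ((glocBig y) ×ˢ (glocBig y)).filter
            (fun p : V × V => ∃ i, p.1 i + 8 ≤ p.2 i),
          μ ({ω | p.1 ∈ Bad (XX X ω) k} ∩ {ω | p.2 ∈ Bad (XX X ω) k}) :=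
            measure_biUnion_finset_le _ _
      _ ≤ ∑ _p ∈ ((glocBig y) ×ˢ (glocBig y)).filter
            (fun p : V × V => ∃ i, p.1 i + 8 ≤ p.2 i), ENNReal.ofReal (q * q) := by
            refine Finset.sum_le_sum fun p hp => ?_
            exact hpair p.1 p.2 (Finset.mem_filter.1 hp).2
      _ = ((((glocBig y) ×ˢ (glocBig y)).filter
            (fun p : V × V => ∃ i, p.1 i + 8 ≤ p.2 i)).card : ENNReal) *
              ENNReal.ofReal (q * q) := by
            rw [Finset.sum_const, nsmul_eq_mul]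
      _ ≤ ENNReal.ofReal (10 ^ 17) * ENNReal.ofReal (q * q) := by
            gcongr
            have hc : (((glocBig y) ×ˢ (glocBig y)).filter
                (fun p : V × V => ∃ i, p.1 i + 8 ≤ p.2 i)).card ≤ 10 ^ 17 := by
              refine (Finset.card_filter_le _ _).trans ?_
              rw [Finset.card_product, gloc_card_big]
              norm_num
            have h2 : ENNReal.ofReal (10 ^ 17) = ((10 ^ 17 : ℕ) : ENNReal) := by
              rw [← ENNReal.ofReal_natCast]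
              congr 1
              norm_num
            rw [h2]
            exact_mod_cast hc
      _ = ENNReal.ofReal (1 / 10 ^ 17 * (1 / 1000) ^ (2 ^ (k + 1))) := by
            rw [← ENNReal.ofReal_mul (by positivity)]
            congr 1
            rw [hq, pow_succ 2 k, pow_mul]
            ring

end Pool.LPG
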