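import Pool.Agent.LP.ConcM
import Pool.Agent.LP.Defs
import Pool.Agent.LP.GLoc

/-!
# LP, part II: bad base sites

`Test`: star positions `ι`, far directions `T`, deterministic typicality `Typ` and failure events `B`.
`bad_le`: the probability that some centre over `z` has a large fraction of failures.
`bad_dep`, `bad_meas`: the bad event depends on the edges over a ball around `z`.
`locV`: the local sigma-algebras of the model.
-/

set_option autoImplicit false

open MeasureTheory ProbabilityTheory Finset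
open scoped Classical

namespace Pool.Agent.LP

open Pool.Agent.OIP

noncomputable section

section region

variable {D : Type} [DecidableEq D]

theorem mv_snd (e : Dir D) (v : V D) {d : D} (hd : d ∉ fdir e) : d ∈ (mv e v).2 ↔ d ∈ v.2 := by
  rcases e with ⟨i, b⟩ | x
  · exact Iff.rfl
  · have hdx : d ≠ x := by
      intro h
      exact hd (by rw [h]; exact Finset.mem_singleton_self x)
    show d ∈ symmDiff v.2 {x} ↔ d ∈ v.2
    rw [Finset.mem_symmDiff]
    simp [hdx]

theorem lam4_snd (O : V D) (e e' : Dir D) (i : Bool × Bool) {d : D} (hd : d ∉ fdir e)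
    (hd' : d ∉ fdir e') : d ∈ (lam4 O e e' i).2 ↔ d ∈ O.2 := by
  obtain ⟨i1, i2⟩ := i
  cases i1 <;> cases i2
  · exact Iff.rfl
  · exact mv_snd e' _ hd'
  · exact mv_snd e _ hd
  · exact (mv_snd e' _ hd').trans (mv_snd e _ hd)

/-- a step moves the base site by at most one -/
theorem mv_fst (e : Dir D) (v : V D) (a : Fin 4) :
    v.1 a - 1 ≤ (mv e v).1 a ∧ (mv e v).1 a ≤ v.1 a + 1 := by
  rcases e with ⟨i, b⟩ | x
  · show v.1 a - 1 ≤ (v.1 + Pi.single i (if b then 1 else -1) : Fin 4 → ℤ) a ∧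
      (v.1 + Pi.single i (if b then 1 else -1) : Fin 4 → ℤ) a ≤ v.1 a + 1
    rw [Pi.add_apply]
    by_cases h : a = i
    · subst h
      rw [Pi.single_eq_same]
      split_ifs <;> constructor <;> omega
    · rw [Pi.single_eq_of_ne h]
      constructor <;> omega
  · show v.1 a - 1 ≤ v.1 a ∧ v.1 a ≤ v.1 a + 1
    constructor <;> omega

theorem lam4_fst (O : V D) (e e' : Dir D) (i : Bool × Bool) (a : Fin 4) :
    O.1 a - 2 ≤ (lam4 O e e' i).1 a ∧ (lam4 O e e' i).1 a ≤ O.1 a + 2 := by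
  have h1 := mv_fst e O a
  have h2 := mv_fst e' O a
  have h3 := mv_fst e' (mv e O) a
  obtain ⟨i1, i2⟩ := i
  cases i1 <;> cases i2
  · show O.1 a - 2 ≤ O.1 a ∧ O.1 a ≤ O.1 a + 2
    omega
  · show O.1 a - 2 ≤ (mv e' O).1 a ∧ (mv e' O).1 a ≤ O.1 a + 2
    omega
  · show O.1 a - 2 ≤ (mv e O).1 a ∧ (mv e O).1 a ≤ O.1 a + 2
    omega
  · show O.1 a - 2 ≤ (mv e' (mv e O)).1 a ∧ (mv e' (mv e O)).1 a ≤ O.1 a + 2
    omega

/-- region of the star with all directions in `S` -/
def regS (O : V D) (e e' : Dir D) (n : ℕ) (S : Finset D) : Set (V D) :=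
  phi (lam4 O e e') '' {u | u.2 ⊆ S ∧ n ≤ u.2.card + 1}

theorem regS_fst {O : V D} {e e' : Dir D} {n : ℕ} {S : Finset D} {v : V D} (hv : v ∈ regS O e e' n S)
    (a : Fin 4) : O.1 a - 2 ≤ v.1 a ∧ v.1 a ≤ O.1 a + 2 := by
  obtain ⟨u, _, rfl⟩ := hv
  exact lam4_fst O e e' u.1 a

theorem regS_finite (O : V D) (e e' : Dir D) (n : ℕ) (S : Finset D) : (regS O e e' n S).Finite := by
  refine Set.Finite.image _ ?_
  refine Set.Finite.subset ((Set.finite_univ (α := Bool × Bool)).prod (S.powerset.finite_toSet)) ?_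
  rintro u ⟨hu, _⟩
  exact ⟨Set.mem_univ _, by simpa using hu⟩

theorem regS_disjoint (O : V D) (e e' : Dir D) {n : ℕ} (hn : 3 ≤ n) {S S' : Finset D}
    (hS : Disjoint S (fdir e ∪ fdir e')) (hS' : Disjoint S' (fdir e ∪ fdir e'))
    (hSS : (S ∩ S').card ≤ 1) : Disjoint (regS O e e' n S) (regS O e e' n S') := by
  rw [Set.disjoint_left]
  rintro v ⟨⟨i, X⟩, ⟨hX, hXc⟩, rfl⟩ ⟨⟨j, Y⟩, ⟨hY, _⟩, hv⟩
  have hsub : X ⊆ S ∩ S' := by
    intro d hd
    have hdS : d ∈ S := hX hd
    have h0 : d ∉ fdir e ∪ fdir e' := fun h => Finset.disjoint_left.1 hS hdS h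
    rw [Finset.mem_union, not_or] at h0
    have h2 : (phi (lam4 O e e') (j, Y)).2 = (phi (lam4 O e e') (i, X)).2 := by rw [hv]
    have h3 : d ∈ symmDiff (lam4 O e e' j).2 Y ↔ d ∈ symmDiff (lam4 O e e' i).2 X := by
      show d ∈ (phi (lam4 O e e') (j, Y)).2 ↔ d ∈ (phi (lam4 O e e') (i, X)).2
      rw [h2]
    rw [Finset.mem_symmDiff, Finset.mem_symmDiff, lam4_snd O e e' j h0.1 h0.2,
      lam4_snd O e e' i h0.1 h0.2] at h3
    have hdY : d ∈ Y := by
      by_contra hY'
      by_cases hO : d ∈ O.2 <;> simp [hO, hd, hY'] at h3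
    exact Finset.mem_inter.2 ⟨hdS, hY hdY⟩
  have := Finset.card_le_card hsub
  simp only at hXc
  omega

/-- the derived star graph depends only on the region -/
theorem starV_congr {n : ℕ} {ι : Fin n → D} (hι : Function.Injective ι) (T : Finset D) (O : V D)
    (e e' : Dir D) {G H : SimpleGraph (V D)}
    (hGH : ∀ a ∈ regS O e e' n (vsL ι ∪ T), ∀ b ∈ regS O e e' n (vsL ι ∪ T), (G.Adj a b ↔ H.Adj a b)) :
    starV (lam4 O e e') ι T G = starV (lam4 O e e') ι T H := by
  set R0 : Set ((Bool × Bool) × Finset D) := {u | u.2 ⊆ vsL ι ∪ T ∧ n ≤ u.2.card + 1} with hR0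
  set G' := G.comap (phi (lam4 O e e')) with hG'
  set H' := H.comap (phi (lam4 O e e')) with hH'
  have hagree : ∀ u ∈ R0, ∀ v ∈ R0, (G'.Adj u v ↔ H'.Adj u v) := fun u hu v hv =>
    hGH _ ⟨u, hu, rfl⟩ _ ⟨v, hv, rfl⟩
  have hcard : (vsL ι).card = n := by
    unfold vsL
    rw [Finset.card_image_of_injective _ hι, Finset.card_univ, Fintype.card_fin]
  have hpos : ∀ s : LV (Bool × Bool) (Fin n), xL ι s ∈ R0 := by
    rintro (a | i)
    · refine ⟨(Finset.erase_subset _ _).trans Finset.subset_union_left, ?_⟩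
      show n ≤ ((vsL ι).erase (ι a.2)).card + 1
      have hm : ι a.2 ∈ vsL ι := Finset.mem_image_of_mem _ (Finset.mem_univ _)
      rw [Finset.card_erase_of_mem hm, hcard]
      omega
    · refine ⟨Finset.subset_union_left, ?_⟩
      show n ≤ (vsL ι).card + 1
      omega
  have hfar : farL (Λ := Bool × Bool) ι T ⊆ R0 := fun u hu => ⟨hu.1, hu.2.2⟩
  have hcn : ∀ a b : (Bool × Bool) × Fin n,
      Cn G' (farL ι T ∪ {xL ι (Sum.inl a), xL ι (Sum.inl b)}) (xL ι (Sum.inl a)) (xL ι (Sum.inl b)) ↔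
        Cn H' (farL ι T ∪ {xL ι (Sum.inl a), xL ι (Sum.inl b)}) (xL ι (Sum.inl a)) (xL ι (Sum.inl b)) := by
    intro a b
    have hsub : farL (Λ := Bool × Bool) ι T ∪ {xL ι (Sum.inl a), xL ι (Sum.inl b)} ⊆ R0 := by
      refine Set.union_subset hfar ?_
      intro v hv
      rcases hv with rfl | rfl
      · exact hpos _
      · exact hpos _
    exact depOn_Cn _ _ _ G' H' fun u hu v hv => hagree u (hsub hu) v (hsub hv)
  ext s t
  show (derL (xL ι) (farL ι T) G').Adj s t ↔ (derL (xL ι) (farL ι T) H').Adj s t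
  have hadj : G'.Adj (xL ι s) (xL ι t) ↔ H'.Adj (xL ι s) (xL ι t) := hagree _ (hpos s) _ (hpos t)
  rcases s with a | i <;> rcases t with b | j
  · exact or_congr (and_congr_right fun _ => hadj) (and_congr_right fun _ => hcn a b)
  · exact hadj
  · exact hadj
  · exact hadj

end region

section test

/-- a family of tests -/
structure Test (D : Type) [DecidableEq D] where
  n : ℕ
  ι : Fin n → D
  T : Finset D
  three : 3 ≤ n
  inj : Function.Injective ι
  Typ : V D → Dir D → Dir D → Equiv.Perm D → Prop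
  B : V D → Dir D → Dir D → Equiv.Perm D → Set (SimpleGraph (LV (Bool × Bool) (Fin n)))
  avoid : ∀ O e e' σ, Typ O e e' σ → Disjoint ((vsL ι ∪ T).image σ) (fdir e ∪ fdir e')

variable {D : Type} [DecidableEq D]

/-- the star of the test `a` at `σ` -/
def Test.star (a : Test D) (O : V D) (e e' : Dir D) (σ : Equiv.Perm D) (G : SimpleGraph (V D)) :
    SimpleGraph (LV (Bool × Bool) (Fin a.n)) :=
  starV (lam4 O e e') (fun k => σ (a.ι k)) (a.T.image σ) G

/-- failure of the test `a` at a typical `σ` -/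
def Test.F (a : Test D) (O : V D) (e e' : Dir D) (σ : Equiv.Perm D) : Set (SimpleGraph (V D)) :=
  {G | a.Typ O e e' σ ∧ a.star O e e' σ G ∈ a.B O e e' σ}

/-- the directions of the test `a` -/
def Test.S (a : Test D) : Finset D := vsL a.ι ∪ a.T

/-- region of the test -/
def Test.reg (a : Test D) (O : V D) (e e' : Dir D) (σ : Equiv.Perm D) : Set (V D) :=
  if Disjoint (a.S.image σ) (fdir e ∪ fdir e') then regS O e e' a.n (a.S.image σ) else ∅

theorem Test.image_S (a : Test D) (σ : Equiv.Perm D) :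
    a.S.image σ = vsL (fun k => σ (a.ι k)) ∪ a.T.image σ := by
  unfold Test.S vsL
  rw [Finset.image_union, Finset.image_image]
  rfl

theorem Test.dep (a : Test D) (O : V D) (e e' : Dir D) (σ : Equiv.Perm D) :
    DepOn (a.reg O e e' σ) (a.F O e e' σ) := by
  intro G H hGH
  refine and_congr_right fun hT => ?_
  have h1 : a.reg O e e' σ = regS O e e' a.n (a.S.image σ) := if_pos (a.avoid O e e' σ hT)
  rw [h1, a.image_S σ] at hGH
  have h2 : a.star O e e' σ G = a.star O e e' σ H :=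
    starV_congr (σ.injective.comp a.inj) (a.T.image σ) O e e' hGH
  rw [h2]

theorem Test.reg_finite (a : Test D) (O : V D) (e e' : Dir D) (σ : Equiv.Perm D) :
    (a.reg O e e' σ).Finite := by
  unfold Test.reg
  split_ifs
  · exact regS_finite O e e' a.n _
  · exact Set.finite_empty

theorem Test.reg_fst (a : Test D) (O : V D) (e e' : Dir D) (σ : Equiv.Perm D) {v : V D}
    (hv : v ∈ a.reg O e e' σ) : v.1 ∈ Pool.LPG.Ball O.1 3 := by
  unfold Test.reg at hv
  split_ifs at hv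
  · intro i
    have := regS_fst hv i
    omega
  · exact absurd hv (Set.notMem_empty v)

theorem Test.reg_disjoint (a : Test D) (O : V D) (e e' : Dir D) (σ τ : Equiv.Perm D)
    (h : ((a.S.image σ) ∩ (a.S.image τ)).card ≤ 1) :
    Disjoint (a.reg O e e' σ) (a.reg O e e' τ) := by
  unfold Test.reg
  split_ifs with h1 h2
  · exact regS_disjoint O e e' a.three h1 h2 h
  · exact Set.disjoint_empty _
  · exact Set.empty_disjoint _
  · exact Set.empty_disjoint _

end test

section bad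

theorem ind_or_le (P Q : Prop) : ind (P ∨ Q) ≤ ind P + ind Q := by
  unfold ind
  by_cases hP : P <;> by_cases hQ : Q <;> simp [hP, hQ]

variable {D : Type} [Fintype D] [DecidableEq D]

instance : Fintype (Dir D) := inferInstanceAs (Fintype ((Fin 4 × Bool) ⊕ D))

/-- number of directions -/
theorem card_Dir : Fintype.card (Dir D) = Fintype.card D + 8 := by
  show Fintype.card ((Fin 4 × Bool) ⊕ D) = _
  rw [Fintype.card_sum, Fintype.card_prod, Fintype.card_fin, Fintype.card_bool]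
  omega

/-- **Union bound.** -/
theorem bad_union {Ω : Type} [MeasurableSpace Ω] (μ : Measure Ω) [IsProbabilityMeasure μ]
    (W : Ω → SimpleGraph (V D)) (hmeas : ∀ a b, MeasurableSet {ω | (W ω).Adj a b})
    (hind : OneIndepM μ W) {k : ℕ} (τ : Fin k → Test D) (M : ℕ)
    (hM : ∀ a, (τ a).S.card * ((τ a).S.card * M) ≤ Fintype.card D) (ζ : ℝ)
    (hζ : ∀ a O e e' σ, μ.real {ω | W ω ∈ (τ a).F O e e' σ} ≤ ζ) (z : Fin 4 → ℤ) :
    μ.real {ω | ∃ O : V D, O.1 = z ∧ ∃ e e' : Dir D, ∃ a : Fin k,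
      3 * ζ ≤ avg (fun σ => ind (W ω ∈ (τ a).F O e e' σ))} ≤
      (2 ^ Fintype.card D * ((Fintype.card D + 8) ^ 2 * k) : ℕ) * Real.exp (-((M : ℝ) ^ 2 * ζ)) := by
  have key := conc_union μ W hmeas hind
    (Finset.univ : Finset (Finset D × (Dir D × Dir D) × Fin k)) (fun _ => D)
    (fun x => (τ x.2.2).S) M (fun x _ => hM x.2.2)
    (fun x σ => (τ x.2.2).F (z, x.1) x.2.1.1 x.2.1.2 σ)
    (fun x σ => (τ x.2.2).reg (z, x.1) x.2.1.1 x.2.1.2 σ)
    (fun x σ => (τ x.2.2).reg_finite _ _ _ σ)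
    (fun x σ => (τ x.2.2).dep _ _ _ σ)
    (fun x σ σ' h => (τ x.2.2).reg_disjoint _ _ _ σ σ' h) ζ
    (fun x _ σ => hζ x.2.2 _ _ _ σ)
  have hcard : (Finset.univ : Finset (Finset D × (Dir D × Dir D) × Fin k)).card
      = 2 ^ Fintype.card D * ((Fintype.card D + 8) ^ 2 * k) := by
    rw [Finset.card_univ, Fintype.card_prod, Fintype.card_prod, Fintype.card_prod, Fintype.card_finset,
      card_Dir, Fintype.card_fin]
    ring
  rw [hcard] at key
  refine le_trans (measureReal_mono ?_ (measure_ne_top _ _)) key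
  rintro ω ⟨O, hO, e, e', a, h⟩
  refine ⟨(O.2, (e, e'), a), Finset.mem_univ _, ?_⟩
  have : O = (z, O.2) := by rw [← hO]
  rw [this] at h
  exact h

/-- the bad event at `z`: some centre over `z` has more than `θ` atypical or failing pairs `(t, σ)` for one of the
sizes `s` -/
def BadE {k l : ℕ} (τ : Fin k → Fin l → Test D) (θ : ℝ) (z : Fin 4 → ℤ) : Set (SimpleGraph (V D)) :=
  {G | ∃ O : V D, O.1 = z ∧ ∃ e e' : Dir D, ax e ≠ ax e' ∧ ∃ s : Fin k,
    θ < avg (fun t : Fin l => avg (fun σ : Equiv.Perm D =>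
      ind (¬ (τ s t).Typ O e e' σ ∨ G ∈ (τ s t).F O e e' σ)))}

/-- vertices over the ball -/
def overB (z : Fin 4 → ℤ) (r : ℤ) : Set (V D) := {v | v.1 ∈ Pool.LPG.Ball z r}

theorem overB_finite (z : Fin 4 → ℤ) (r : ℤ) : (overB (D := D) z r).Finite := by
  have h1 : (Pool.LPG.Ball z r).Finite :=
    Set.Finite.pi' fun i => Set.finite_Icc (z i - r) (z i + r)
  have h2 : (overB (D := D) z r) = Pool.LPG.Ball z r ×ˢ Set.univ := by
    ext v
    simp [overB]
  rw [h2]
  exact h1.prod Set.finite_univ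

theorem bad_dep {k l : ℕ} (τ : Fin k → Fin l → Test D) (θ : ℝ) (z : Fin 4 → ℤ) :
    DepOn (overB z 3) (BadE τ θ z) := by
  intro G H hGH
  have key : ∀ O : V D, O.1 = z → ∀ (e e' : Dir D) (s : Fin k) (t : Fin l) (σ : Equiv.Perm D),
      (G ∈ (τ s t).F O e e' σ ↔ H ∈ (τ s t).F O e e' σ) := by
    intro O hO e e' s t σ
    refine (τ s t).dep O e e' σ G H fun a ha b hb => hGH a ?_ b ?_
    · have := (τ s t).reg_fst O e e' σ ha
      rw [hO] at this
      exact this
    · have := (τ s t).reg_fst O e e' σ hb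
      rw [hO] at this
      exact this
  unfold BadE
  simp only [Set.mem_ofPred_eq]
  refine exists_congr fun O => and_congr_right fun hO => exists_congr fun e => exists_congr fun e' =>
    and_congr_right fun _ => exists_congr fun s => ?_
  have : (fun t : Fin l => avg (fun σ : Equiv.Perm D =>
      ind (¬ (τ s t).Typ O e e' σ ∨ G ∈ (τ s t).F O e e' σ))) = (fun t : Fin l =>
      avg (fun σ : Equiv.Perm D => ind (¬ (τ s t).Typ O e e' σ ∨ H ∈ (τ s t).F O e e' σ))) := by
    funext t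
    congr 1
    funext σ
    rw [key O hO e e' s t σ]
  rw [this]

/-- the local sigma-algebras -/
@[reducible] def FV {Ω : Type} (W : Ω → SimpleGraph (V D)) (U : Set (Fin 4 → ℤ)) : MeasurableSpace Ω :=
  sigV W {v | v.1 ∈ U}

theorem locV {Ω : Type} [MeasurableSpace Ω] (μ : Measure Ω)
    (W : Ω → SimpleGraph (V D)) (hmeas : ∀ a b, MeasurableSet {ω | (W ω).Adj a b})
    (hind : OneIndepM μ W) : Pool.LPG.Loc μ (FV W) where
  le U := infMarg_le W hmeas _
  mono U U' h := by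
    refine MeasurableSpace.generateFrom_mono ?_
    rintro E ⟨a, ha, b, hb, rfl⟩
    exact ⟨a, h ha, b, h hb, rfl⟩
  indep U U' A B hd hA hB := by
    have h1 := hind {v | v.1 ∈ U} {v | v.1 ∈ U'} (by
      rw [Set.disjoint_left]
      intro v hv hv'
      exact Set.disjoint_left.1 hd hv hv')
    rw [Indep_iff] at h1
    exact h1 A B hA hB

theorem bad_meas {Ω : Type} (W : Ω → SimpleGraph (V D)) {k l : ℕ} (τ : Fin k → Fin l → Test D) (θ : ℝ)
    (z : Fin 4 → ℤ) : MeasurableSet[FV W (Pool.LPG.Ball z 3)] {ω | W ω ∈ BadE τ θ z} :=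
  concM_meas W (overB_finite z 3) (bad_dep τ θ z)

/-- **Probability of a bad site.** -/
theorem bad_le {Ω : Type} [MeasurableSpace Ω] (μ : Measure Ω) [IsProbabilityMeasure μ]
    (W : Ω → SimpleGraph (V D)) (hmeas : ∀ a b, MeasurableSet {ω | (W ω).Adj a b})
    (hind : OneIndepM μ W) {k l : ℕ} (τ : Fin k → Fin l → Test D) (M : ℕ)
    (hM : ∀ s t, (τ s t).S.card * ((τ s t).S.card * M) ≤ Fintype.card D) (ζ η θ : ℝ) (hζ0 : 0 ≤ ζ)
    (hζ : ∀ s t O e e' σ, μ.real {ω | W ω ∈ (τ s t).F O e e' σ} ≤ ζ)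
    (hη : ∀ s O e e', ax e ≠ ax e' → avg (fun t : Fin l => avg (fun σ : Equiv.Perm D =>
      ind (¬ (τ s t).Typ O e e' σ))) ≤ η)
    (hθ : η + 3 * ζ ≤ θ) (z : Fin 4 → ℤ) :
    μ.real {ω | W ω ∈ BadE τ θ z} ≤
      (2 ^ Fintype.card D * ((Fintype.card D + 8) ^ 2 * (k * l)) : ℕ) *
        Real.exp (-((M : ℝ) ^ 2 * ζ)) := by
  have key := bad_union μ W hmeas hind (k := k * l)
    (fun x => τ (finProdFinEquiv.symm x).1 (finProdFinEquiv.symm x).2) M (fun x => hM _ _) ζ
    (fun x => hζ _ _) z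
  refine le_trans (measureReal_mono ?_ (measure_ne_top _ _)) key
  rintro ω ⟨O, hO, e, e', hee, s, h⟩
  refine ⟨O, hO, e, e', ?_⟩
  by_contra hcon
  push Not at hcon
  have h1 : ∀ t : Fin l, avg (fun σ => ind (W ω ∈ (τ s t).F O e e' σ)) ≤ 3 * ζ := by
    intro t
    have := hcon (finProdFinEquiv (s, t))
    simp only [Equiv.symm_apply_apply] at this
    exact this.le
  have h2 : avg (fun t : Fin l => avg (fun σ : Equiv.Perm D =>
      ind (¬ (τ s t).Typ O e e' σ ∨ W ω ∈ (τ s t).F O e e' σ))) ≤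
      avg (fun t : Fin l => avg (fun σ : Equiv.Perm D => ind (¬ (τ s t).Typ O e e' σ))) +
      avg (fun t : Fin l => avg (fun σ : Equiv.Perm D => ind (W ω ∈ (τ s t).F O e e' σ))) := by
    rw [← avg_add]
    refine avg_mono fun t => ?_
    rw [← avg_add]
    exact avg_mono fun σ => ind_or_le _ _
  have h3 : avg (fun t : Fin l => avg (fun σ : Equiv.Perm D => ind (W ω ∈ (τ s t).F O e e' σ))) ≤ 3 * ζ :=
    avg_le_of_le (by positivity) h1
  have h4 := hη s O e e' hee
  linarith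

/-- **A site is bad with probability at most `δ` for large `N`.** `r` = number of directions of a test,
`q` = number of tests, `ζ` = failure probability of one test. -/
theorem bad_small (r q : ℕ) (ζ δ : ℝ) (hζ : 0 < ζ) (hδ : 0 < δ) : ∃ N₀ : ℕ,
    ∀ (D : Type) [Fintype D] [DecidableEq D], N₀ ≤ Fintype.card D →
    ∀ (Ω : Type) [MeasurableSpace Ω] (μ : Measure Ω) [IsProbabilityMeasure μ]
      (W : Ω → SimpleGraph (V D)), (∀ a b, MeasurableSet {ω | (W ω).Adj a b}) → OneIndepM μ W →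
    ∀ (k l : ℕ) (τ : Fin k → Fin l → Test D), k * l ≤ q → (∀ s t, (τ s t).S.card ≤ r) →
    ∀ (η θ : ℝ), (∀ s t O e e' σ, μ.real {ω | W ω ∈ (τ s t).F O e e' σ} ≤ ζ) →
      (∀ s O e e', ax e ≠ ax e' → avg (fun t : Fin l => avg (fun σ : Equiv.Perm D =>
        ind (¬ (τ s t).Typ O e e' σ))) ≤ η) → η + 3 * ζ ≤ θ →
    ∀ z, μ {ω | W ω ∈ BadE τ θ z} ≤ ENNReal.ofReal δ := by
  obtain ⟨N₀, hN₀⟩ := conc_calc r 0 ζ hζ δ hδ
  refine ⟨max N₀ q, fun D _ _ hD Ω _ μ _ W hmeas hind k l τ hq hr η θ hF hη hθ z => ?_⟩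
  obtain ⟨M, hM, hexp⟩ := hN₀ (Fintype.card D) ((le_max_left _ _).trans hD)
  have hqD : q ≤ Fintype.card D := (le_max_right _ _).trans hD
  have h1 := bad_le μ W hmeas hind τ M (fun s t => by
    have h := hr s t
    calc (τ s t).S.card * ((τ s t).S.card * M) ≤ r * (r * M) :=
          Nat.mul_le_mul h (Nat.mul_le_mul_right M h)
      _ ≤ Fintype.card D := by omega) ζ η θ hζ.le hF hη hθ z
  have h2 : ((2 ^ Fintype.card D * ((Fintype.card D + 8) ^ 2 * (k * l)) : ℕ) : ℝ) ≤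
      2 ^ Fintype.card D * ((Fintype.card D : ℝ) + 16) ^ 3 := by
    push_cast
    have hkl : (k : ℝ) * l ≤ (Fintype.card D : ℝ) + 16 := by
      have : k * l ≤ Fintype.card D + 16 := by omega
      exact_mod_cast this
    have hN : (0 : ℝ) ≤ (Fintype.card D : ℝ) := Nat.cast_nonneg _
    gcongr
    calc ((Fintype.card D : ℝ) + 8) ^ 2 * ((k : ℝ) * l)
        ≤ ((Fintype.card D : ℝ) + 16) ^ 2 * ((Fintype.card D : ℝ) + 16) := by
          gcongr
          norm_num
      _ = ((Fintype.card D : ℝ) + 16) ^ 3 := by ring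
  have h3 : μ.real {ω | W ω ∈ BadE τ θ z} ≤ δ := by
    refine h1.trans (le_trans (mul_le_mul_of_nonneg_right h2 (Real.exp_pos _).le) ?_)
    exact hexp
  rw [← ENNReal.ofReal_toReal (measure_ne_top μ {ω | W ω ∈ BadE τ θ z})]
  exact ENNReal.ofReal_le_ofReal h3

end bad

end

end Pool.Agent.LP
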