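import Pool.Agent.OIP.Avg

/-!
# LP: concentration of averages over permutations (packing and Hoeffding's trick)

For every permutation `σ` of the direction set `D` let `F σ` be an event of the random graph which depends only
on the region `Reg σ`; suppose that `Reg σ` and `Reg τ` are disjoint as soon as the images of a fixed set `S`
under `σ` and `τ` have at most one common element, and that all events have probability at most `e`.  Then the
proportion of the `σ` for which the event occurs is at least `3 e` only with probability at most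
`exp (- M² e)`, where `|S|² M ≤ |D|` (`conc_perm`).
-/

set_option autoImplicit false

open Finset
open scoped Classical

namespace Pool.Agent.LP

open Pool.Agent.OIP

section indep

variable {Ω V : Type*} [Fintype Ω] {w : Ω → ℝ} {W : Ω → SimpleGraph V}

theorem depOn_forall_mem {ι : Type*} (J : Finset ι) (A : ι → Set V) (U : ι → Set (SimpleGraph V))
    (hU : ∀ j ∈ J, DepOn (A j) (U j)) :
    DepOn (⋃ j ∈ J, A j) {G : SimpleGraph V | ∀ j ∈ J, G ∈ U j} := by
  intro G H hGH
  refine forall_congr' fun j => forall_congr' fun hj => ?_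
  refine hU j hj G H fun a ha b hb => hGH a ?_ b ?_
  · exact Set.mem_biUnion hj ha
  · exact Set.mem_biUnion hj hb

/-- events depending on pairwise disjoint regions are mutually independent -/
theorem pr_forall_eq_prod (hw : IsLaw w) (hW : OneIndep w W) {ι : Type*} (J : Finset ι) (A : ι → Set V)
    (hA : ∀ i ∈ J, ∀ j ∈ J, i ≠ j → Disjoint (A i) (A j)) (U : ι → Set (SimpleGraph V))
    (hU : ∀ j ∈ J, DepOn (A j) (U j)) :
    pr w {ω | ∀ j ∈ J, W ω ∈ U j} = ∏ j ∈ J, pr w {ω | W ω ∈ U j} := by
  induction J using Finset.induction_on with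
  | empty =>
    have : {ω : Ω | ∀ j ∈ (∅ : Finset ι), W ω ∈ U j} = Set.univ := by
      ext ω
      simp
    rw [this, pr_univ hw, Finset.prod_empty]
  | insert a s ha ih =>
    rw [Finset.prod_insert ha]
    have ih' := ih (fun i hi j hj => hA i (Finset.mem_insert_of_mem hi) j (Finset.mem_insert_of_mem hj))
      (fun j hj => hU j (Finset.mem_insert_of_mem hj))
    rw [← ih']
    have hd : Disjoint (A a) (⋃ j ∈ s, A j) := by
      rw [Set.disjoint_iUnion₂_right]
      intro j hj
      exact hA a (Finset.mem_insert_self a s) j (Finset.mem_insert_of_mem hj)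
        (fun h => ha (h ▸ hj))
    have key := hW (A a) (⋃ j ∈ s, A j) hd (U a) {G | ∀ j ∈ s, G ∈ U j}
      (hU a (Finset.mem_insert_self a s))
      (depOn_forall_mem s A U fun j hj => hU j (Finset.mem_insert_of_mem hj))
    have e1 : {ω : Ω | ∀ j ∈ insert a s, W ω ∈ U j}
        = {ω | W ω ∈ U a ∧ W ω ∈ {G : SimpleGraph V | ∀ j ∈ s, G ∈ U j}} := by
      ext ω
      exact ⟨fun h => ⟨h a (Finset.mem_insert_self a s), fun j hj => h j (Finset.mem_insert_of_mem hj)⟩,
        fun h j hj => (Finset.mem_insert.1 hj).elim (fun e => e ▸ h.1) (h.2 j)⟩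
    rw [e1, key]
    rfl

/-- product of `1 + c · ind` over independent events -/
theorem sum_prod_one_add (hw : IsLaw w) (hW : OneIndep w W) {ι : Type*} (J : Finset ι) (A : ι → Set V)
    (hA : ∀ i ∈ J, ∀ j ∈ J, i ≠ j → Disjoint (A i) (A j)) (U : ι → Set (SimpleGraph V))
    (hU : ∀ j ∈ J, DepOn (A j) (U j)) (c : ℝ) :
    ∑ ω, w ω * ∏ j ∈ J, (1 + c * ind (W ω ∈ U j)) = ∏ j ∈ J, (1 + c * pr w {ω | W ω ∈ U j}) := by
  have hexp : ∀ x : ι → ℝ, ∏ j ∈ J, (1 + c * x j) = ∑ t ∈ J.powerset, c ^ t.card * ∏ j ∈ t, x j := by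
    intro x
    rw [Finset.prod_one_add]
    refine Finset.sum_congr rfl fun t _ => ?_
    rw [Finset.prod_mul_distrib, Finset.prod_const]
  simp_rw [hexp]
  have h1 : ∀ ω, w ω * ∑ t ∈ J.powerset, c ^ t.card * ∏ j ∈ t, ind (W ω ∈ U j)
      = ∑ t ∈ J.powerset, c ^ t.card * (w ω * ind (∀ j ∈ t, W ω ∈ U j)) := by
    intro ω
    rw [Finset.mul_sum]
    refine Finset.sum_congr rfl fun t _ => ?_
    have : ∏ j ∈ t, ind (W ω ∈ U j) = ind (∀ j ∈ t, W ω ∈ U j) := by
      by_cases h : ∀ j ∈ t, W ω ∈ U j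
      · rw [Finset.prod_congr rfl fun j hj => (by unfold ind; rw [if_pos (h j hj)] :
          ind (W ω ∈ U j) = 1), Finset.prod_const_one]
        unfold ind
        rw [if_pos h]
      · push Not at h
        obtain ⟨j, hj, hj'⟩ := h
        rw [Finset.prod_eq_zero hj (by unfold ind; rw [if_neg hj'])]
        unfold ind
        rw [if_neg]
        intro h
        exact hj' (h j hj)
    rw [this]
    ring
  simp_rw [h1]
  rw [Finset.sum_comm]
  refine Finset.sum_congr rfl fun t ht => ?_
  rw [← Finset.mul_sum]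
  congr 1
  have hts : t ⊆ J := Finset.mem_powerset.1 ht
  rw [← pr_forall_eq_prod hw hW t A (fun i hi j hj => hA i (hts hi) j (hts hj)) U
    (fun j hj => hU j (hts hj)), pr_eq_sum_ind]
  rfl

end indep

/-- Jensen for the exponential function and a uniform average -/
theorem exp_avg_le {X : Type*} [Fintype X] [Nonempty X] (F : X → ℝ) :
    Real.exp (avg F) ≤ avg (fun x => Real.exp (F x)) := by
  set m := avg F with hm
  have h1 : ∀ x, Real.exp m * (1 + (F x - m)) ≤ Real.exp (F x) := by
    intro x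
    have h2 : Real.exp (F x) = Real.exp m * Real.exp (F x - m) := by
      rw [← Real.exp_add]
      congr 1
      ring
    rw [h2]
    refine mul_le_mul_of_nonneg_left ?_ (Real.exp_pos m).le
    linarith [Real.add_one_le_exp (F x - m)]
  have h2 := avg_mono h1
  have h3 : avg (fun x => Real.exp m * (1 + (F x - m))) = Real.exp m := by
    rw [avg_const_mul]
    have : (fun x => 1 + (F x - m)) = fun x => (1 - m) + F x := by
      funext x
      ring
    rw [this, avg_add, avg_const, ← hm]
    ring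
  linarith

section packing

variable {D : Type*} [Fintype D] [DecidableEq D]

/-- packing: `M²` permutations such that the images of `S` have pairwise at most one common element -/
theorem exists_packing (S : Finset D) (M : ℕ) (hM : S.card * (S.card * M) ≤ Fintype.card D) :
    ∃ π : Fin M × Fin M → Equiv.Perm D, ∀ i j, i ≠ j → ∀ σ : Equiv.Perm D,
      ((S.image (σ * π i)) ∩ (S.image (σ * π j))).card ≤ 1 := by
  obtain ⟨g⟩ : Nonempty ((Fin S.card × Fin (S.card * M)) ↪ D) := by
    refine Function.Embedding.nonempty_of_card_le ?_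
    rw [Fintype.card_prod, Fintype.card_fin, Fintype.card_fin]
    exact hM
  have hval : ∀ (a b : Fin M) (s : Fin S.card), a.1 * s.1 + b.1 < S.card * M := by
    intro a b s
    have ha := a.2
    have hb := b.2
    have hs := s.2
    have h1 : a.1 * s.1 ≤ (M - 1) * (S.card - 1) := Nat.mul_le_mul (by omega) (by omega)
    have h2 : (M - 1) * (S.card - 1) + (M - 1) = (M - 1) * S.card := by
      obtain ⟨c, hc⟩ : ∃ c, S.card = c + 1 := ⟨S.card - 1, by omega⟩
      rw [hc, Nat.add_sub_cancel]
      ring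
    have h3 : (M - 1) * S.card < S.card * M := by
      rw [mul_comm]
      exact Nat.mul_lt_mul_of_pos_left (by omega) (by omega)
    omega
  let f : Fin M × Fin M → S → D := fun ab s =>
    g (S.equivFin s, ⟨ab.1.1 * (S.equivFin s).1 + ab.2.1, hval ab.1 ab.2 (S.equivFin s)⟩)
  have hf : ∀ ab, Function.Injective (f ab) := by
    intro ab s t h
    have h1 := g.injective h
    exact S.equivFin.injective (Prod.ext_iff.1 h1).1
  have hext : ∀ ab, ∃ π : Equiv.Perm D, ∀ s : S, π s.1 = f ab s := by
    intro ab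
    let e : {x // x ∈ S} ≃ {x // x ∈ Set.range (f ab)} := Equiv.ofInjective (f ab) (hf ab)
    refine ⟨Equiv.extendSubtype e, fun s => ?_⟩
    rw [Equiv.extendSubtype_apply_of_mem e s.1 s.2]
    rfl
  choose π hπ using hext
  refine ⟨π, fun i j hij σ => ?_⟩
  rw [Finset.card_le_one]
  have key : ∀ x, x ∈ (S.image (σ * π i)) ∩ (S.image (σ * π j)) → ∃ s : S, x = σ (f i s) ∧
      i.1.1 * (S.equivFin s).1 + i.2.1 = j.1.1 * (S.equivFin s).1 + j.2.1 := by
    intro x hx
    rw [Finset.mem_inter, Finset.mem_image, Finset.mem_image] at hx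
    obtain ⟨⟨s, hs, hs'⟩, ⟨t, ht, ht'⟩⟩ := hx
    rw [Equiv.Perm.mul_apply, hπ i ⟨s, hs⟩] at hs'
    rw [Equiv.Perm.mul_apply, hπ j ⟨t, ht⟩] at ht'
    refine ⟨⟨s, hs⟩, hs'.symm, ?_⟩
    have h1 : f i ⟨s, hs⟩ = f j ⟨t, ht⟩ := σ.injective (hs'.trans ht'.symm)
    have h2 := g.injective h1
    have h3 := (Prod.ext_iff.1 h2).1
    have h4 := (Prod.ext_iff.1 h2).2
    simp only [Fin.mk.injEq] at h4
    simp only at h3
    rw [← h3] at h4
    exact h4
  intro x hx y hy
  obtain ⟨s, rfl, hs⟩ := key x hx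
  obtain ⟨t, rfl, ht⟩ := key y hy
  by_cases hst : S.equivFin s = S.equivFin t
  · rw [S.equivFin.injective hst]
  · exfalso
    apply hij
    have hne : (S.equivFin s).1 ≠ (S.equivFin t).1 := fun h => hst (Fin.ext h)
    have hs' : (i.1.1 : ℤ) * (S.equivFin s).1 + i.2.1 = (j.1.1 : ℤ) * (S.equivFin s).1 + j.2.1 := by
      exact_mod_cast hs
    have ht' : (i.1.1 : ℤ) * (S.equivFin t).1 + i.2.1 = (j.1.1 : ℤ) * (S.equivFin t).1 + j.2.1 := by
      exact_mod_cast ht
    have h5 : ((i.1.1 : ℤ) - j.1.1) * ((S.equivFin s).1 - (S.equivFin t).1) = 0 := by linarith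
    have h6 : (i.1.1 : ℤ) = j.1.1 := by
      rcases mul_eq_zero.1 h5 with h | h
      · linarith
      · exfalso
        apply hne
        have : ((S.equivFin s).1 : ℤ) = (S.equivFin t).1 := by linarith
        exact_mod_cast this
    have h7 : (i.2.1 : ℤ) = j.2.1 := by
      rw [h6] at hs'
      linarith
    refine Prod.ext (Fin.ext ?_) (Fin.ext ?_)
    · exact_mod_cast h6
    · exact_mod_cast h7

end packing

theorem exp_one_sub_one_lt : Real.exp 1 - 1 < 2 := by
  have := Real.exp_one_lt_d9
  linarith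

/-- **Concentration.** -/
theorem conc_perm {Ω V : Type*} [Fintype Ω] {w : Ω → ℝ} {W : Ω → SimpleGraph V} (hw : IsLaw w)
    (hW : OneIndep w W) {D : Type*} [Fintype D] [DecidableEq D] (S : Finset D) (M : ℕ)
    (hM : S.card * (S.card * M) ≤ Fintype.card D) (F : Equiv.Perm D → Set (SimpleGraph V))
    (Reg : Equiv.Perm D → Set V) (hF : ∀ σ, DepOn (Reg σ) (F σ))
    (hReg : ∀ σ τ : Equiv.Perm D, ((S.image σ) ∩ (S.image τ)).card ≤ 1 → Disjoint (Reg σ) (Reg τ))
    (e : ℝ) (he : ∀ σ, pr w {ω | W ω ∈ F σ} ≤ e) :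
    pr w {ω | 3 * e ≤ avg (fun σ => ind (W ω ∈ F σ))} ≤ Real.exp (-((M : ℝ) ^ 2 * e)) := by
  obtain ⟨π, hπ⟩ := exists_packing S M hM
  have he0 : 0 ≤ e := (pr_nonneg hw _).trans (he 1)
  -- the exponential moment
  let Z : Ω → ℝ := fun ω => Real.exp ((M : ℝ) ^ 2 * avg (fun σ => ind (W ω ∈ F σ)))
  have hZ : ∀ ω, Z ω ≤ avg (fun σ : Equiv.Perm D =>
      ∏ j : Fin M × Fin M, (1 + (Real.exp 1 - 1) * ind (W ω ∈ F (σ * π j)))) := by
    intro ω
    have h1 : (M : ℝ) ^ 2 * avg (fun σ => ind (W ω ∈ F σ))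
        = avg (fun σ : Equiv.Perm D => ∑ j : Fin M × Fin M, ind (W ω ∈ F (σ * π j))) := by
      rw [avg_sum]
      have : ∀ j ∈ (Finset.univ : Finset (Fin M × Fin M)),
          avg (fun σ : Equiv.Perm D => ind (W ω ∈ F (σ * π j))) = avg (fun σ => ind (W ω ∈ F σ)) :=
        fun j _ => avg_perm_mul_right (π j) (fun σ => ind (W ω ∈ F σ))
      rw [Finset.sum_congr rfl this, Finset.sum_const, Finset.card_univ, Fintype.card_prod,
        Fintype.card_fin, nsmul_eq_mul]
      push_cast
      ring
    show Real.exp _ ≤ _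
    rw [h1]
    refine (exp_avg_le _).trans (avg_mono fun σ => ?_)
    rw [Real.exp_sum]
    refine le_of_eq (Finset.prod_congr rfl fun j _ => ?_)
    unfold ind
    split_ifs
    · ring
    · rw [Real.exp_zero]
      ring
  have hmom : ∑ ω, w ω * Z ω ≤ Real.exp (2 * ((M : ℝ) ^ 2 * e)) := by
    calc ∑ ω, w ω * Z ω ≤ ∑ ω, w ω * avg (fun σ : Equiv.Perm D =>
          ∏ j : Fin M × Fin M, (1 + (Real.exp 1 - 1) * ind (W ω ∈ F (σ * π j)))) :=
          Finset.sum_le_sum fun ω _ => mul_le_mul_of_nonneg_left (hZ ω) (hw.nonneg ω)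
      _ = avg (fun σ : Equiv.Perm D => ∑ ω, w ω *
            ∏ j : Fin M × Fin M, (1 + (Real.exp 1 - 1) * ind (W ω ∈ F (σ * π j)))) := by
          rw [avg_sum]
          refine Finset.sum_congr rfl fun ω _ => ?_
          rw [avg_const_mul]
      _ = avg (fun σ : Equiv.Perm D =>
            ∏ j : Fin M × Fin M, (1 + (Real.exp 1 - 1) * pr w {ω | W ω ∈ F (σ * π j)})) := by
          congr 1
          funext σ
          refine sum_prod_one_add hw hW Finset.univ (fun j => Reg (σ * π j)) ?_
            (fun j => F (σ * π j)) (fun j _ => hF _) _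
          intro i _ j _ hij
          exact hReg _ _ (hπ i j hij σ)
      _ ≤ avg (fun _ : Equiv.Perm D => Real.exp (2 * ((M : ℝ) ^ 2 * e))) := by
          refine avg_mono fun σ => ?_
          have h2 : ∀ j : Fin M × Fin M, 1 + (Real.exp 1 - 1) * pr w {ω | W ω ∈ F (σ * π j)}
              ≤ Real.exp (2 * e) := by
            intro j
            have h3 := pr_nonneg hw {ω | W ω ∈ F (σ * π j)}
            have h4 := he (σ * π j)
            have h5 := exp_one_sub_one_lt
            have h6 : (Real.exp 1 - 1) * pr w {ω | W ω ∈ F (σ * π j)} ≤ 2 * e := by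
              have h7 : 0 ≤ Real.exp 1 - 1 := by linarith [Real.add_one_le_exp (1 : ℝ)]
              calc (Real.exp 1 - 1) * pr w {ω | W ω ∈ F (σ * π j)}
                  ≤ 2 * pr w {ω | W ω ∈ F (σ * π j)} := mul_le_mul_of_nonneg_right h5.le h3
                _ ≤ 2 * e := by linarith
            linarith [Real.add_one_le_exp (2 * e)]
          calc ∏ j : Fin M × Fin M, (1 + (Real.exp 1 - 1) * pr w {ω | W ω ∈ F (σ * π j)})
              ≤ ∏ _j : Fin M × Fin M, Real.exp (2 * e) := by
                refine Finset.prod_le_prod (fun j _ => ?_) (fun j _ => h2 j)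
                have h3 := pr_nonneg hw {ω | W ω ∈ F (σ * π j)}
                have h7 : 0 ≤ Real.exp 1 - 1 := by linarith [Real.add_one_le_exp (1 : ℝ)]
                have := mul_nonneg h7 h3
                linarith
            _ = Real.exp (2 * ((M : ℝ) ^ 2 * e)) := by
                rw [Finset.prod_const, Finset.card_univ, Fintype.card_prod, Fintype.card_fin,
                  ← Real.exp_nat_mul]
                congr 1
                push_cast
                ring
      _ = Real.exp (2 * ((M : ℝ) ^ 2 * e)) := avg_const _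
  -- Markov
  have hmark : pr w {ω | 3 * e ≤ avg (fun σ => ind (W ω ∈ F σ))} * Real.exp (3 * ((M : ℝ) ^ 2 * e))
      ≤ ∑ ω, w ω * Z ω := by
    rw [pr_eq_sum_ind, Finset.sum_mul]
    refine Finset.sum_le_sum fun ω _ => ?_
    rw [mul_assoc]
    refine mul_le_mul_of_nonneg_left ?_ (hw.nonneg ω)
    unfold ind
    split_ifs with h
    · rw [one_mul]
      refine Real.exp_le_exp.2 ?_
      have h8 : 3 * e ≤ avg (fun σ => ind (W ω ∈ F σ)) := h
      have := mul_le_mul_of_nonneg_left h8 (sq_nonneg (M : ℝ))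
      have e9 : avg (fun σ => ind (W ω ∈ F σ)) = avg (fun σ => if W ω ∈ F σ then (1 : ℝ) else 0) := rfl
      linarith
    · rw [zero_mul]
      exact (Real.exp_pos _).le
  have hpos := Real.exp_pos (3 * ((M : ℝ) ^ 2 * e))
  have h9 : pr w {ω | 3 * e ≤ avg (fun σ => ind (W ω ∈ F σ))}
      ≤ Real.exp (2 * ((M : ℝ) ^ 2 * e)) / Real.exp (3 * ((M : ℝ) ^ 2 * e)) := by
    rw [le_div_iff₀ hpos]
    exact hmark.trans hmom
  refine h9.trans (le_of_eq ?_)
  rw [← Real.exp_sub]
  congr 1
  ring

end Pool.Agent.LP
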