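import Mathlib

/-!
# LP: the numerical estimate for the union bound over all centres and all sets of directions
-/

set_option autoImplicit false

namespace Pool.Agent.LP

/-- `2^N (N+16)^3 exp(-M² e)` is small for `M ~ N / r²` -/
theorem conc_calc (r s : ℕ) (e : ℝ) (he : 0 < e) (δ : ℝ) (hδ : 0 < δ) :
    ∃ N₀ : ℕ, ∀ N : ℕ, N₀ ≤ N → ∃ M : ℕ, r * (r * M) ≤ N - s ∧
      (2 : ℝ) ^ N * ((N : ℝ) + 16) ^ 3 * Real.exp (-((M : ℝ) ^ 2 * e)) ≤ δ := by
  set R : ℕ := r * r + 1 with hR
  have hR1 : 1 ≤ R := by omega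
  have hRpos : (0 : ℝ) < R := by exact_mod_cast hR1
  set c : ℝ := e / (4 * (R : ℝ) ^ 2) with hc
  have hcpos : 0 < c := by positivity
  obtain ⟨A, hA⟩ := exists_nat_ge ((52 + |Real.log δ|) / c)
  refine ⟨A + 2 * s + 2 * R + 1, fun N hN => ⟨(N - s) / R, ?_, ?_⟩⟩
  · calc r * (r * ((N - s) / R)) = (r * r) * ((N - s) / R) := by ring
      _ ≤ R * ((N - s) / R) := Nat.mul_le_mul_right _ (by omega)
      _ ≤ N - s := Nat.mul_div_le _ _
  · -- lower bound for `M`
    have hM : (N : ℝ) / (2 * R) ≤ (((N - s) / R : ℕ) : ℝ) := by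
      have h1 : N - s < R * ((N - s) / R) + R := by
        have h0 := Nat.lt_mul_div_succ (N - s) (show 0 < R by omega)
        rwa [Nat.mul_add, Nat.mul_one] at h0
      have h2 : N < R * ((N - s) / R) + R + s := by omega
      have h3 : (N : ℝ) < R * (((N - s) / R : ℕ) : ℝ) + R + s := by exact_mod_cast h2
      have h4 : (2 * (s : ℝ) + 2 * R) ≤ N := by
        have : 2 * s + 2 * R ≤ N := by omega
        exact_mod_cast this
      rw [div_le_iff₀ (by positivity)]
      nlinarith
    have hMsq : c * (N : ℝ) ^ 2 ≤ (((N - s) / R : ℕ) : ℝ) ^ 2 * e := by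
      have h5 : ((N : ℝ) / (2 * R)) ^ 2 ≤ (((N - s) / R : ℕ) : ℝ) ^ 2 :=
        pow_le_pow_left₀ (by positivity) hM 2
      calc c * (N : ℝ) ^ 2 = ((N : ℝ) / (2 * R)) ^ 2 * e := by
            rw [hc]
            field_simp
            ring
        _ ≤ _ := mul_le_mul_of_nonneg_right h5 he.le
    have hN1 : (1 : ℝ) ≤ N := by
      have : 1 ≤ N := by omega
      exact_mod_cast this
    have hNA : (52 + |Real.log δ|) / c ≤ N := by
      have : (A : ℝ) ≤ N := by
        have : A ≤ N := by omega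
        exact_mod_cast this
      linarith
    have hcN : 52 + |Real.log δ| ≤ c * N := by
      rw [div_le_iff₀ hcpos] at hNA
      linarith
    have h2N : (2 : ℝ) ^ N ≤ Real.exp N := by
      have h6 : (2 : ℝ) ≤ Real.exp 1 := by linarith [Real.add_one_le_exp (1 : ℝ)]
      calc (2 : ℝ) ^ N ≤ (Real.exp 1) ^ N := pow_le_pow_left₀ (by norm_num) h6 N
        _ = Real.exp N := by rw [← Real.exp_nat_mul, mul_one]
    have h16 : ((N : ℝ) + 16) ^ 3 ≤ Real.exp (3 * (N + 16)) := by
      have h7 : (N : ℝ) + 16 ≤ Real.exp (N + 16) := by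
        linarith [Real.add_one_le_exp ((N : ℝ) + 16)]
      calc ((N : ℝ) + 16) ^ 3 ≤ (Real.exp (N + 16)) ^ 3 := pow_le_pow_left₀ (by positivity) h7 3
        _ = Real.exp (3 * (N + 16)) := by
          rw [← Real.exp_nat_mul]
          norm_num
    calc (2 : ℝ) ^ N * ((N : ℝ) + 16) ^ 3 * Real.exp (-((((N - s) / R : ℕ) : ℝ) ^ 2 * e))
        ≤ Real.exp N * Real.exp (3 * (N + 16)) * Real.exp (-(c * (N : ℝ) ^ 2)) := by
          refine mul_le_mul (mul_le_mul h2N h16 (by positivity) (Real.exp_pos _).le) ?_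
            (Real.exp_pos _).le (by positivity)
          exact Real.exp_le_exp.2 (by linarith)
      _ = Real.exp (N + 3 * (N + 16) - c * (N : ℝ) ^ 2) := by
          rw [← Real.exp_add, ← Real.exp_add]
          congr 1
      _ ≤ Real.exp (Real.log δ) := by
          refine Real.exp_le_exp.2 ?_
          have h8 : (52 + |Real.log δ|) * N ≤ c * (N : ℝ) ^ 2 := by
            calc (52 + |Real.log δ|) * N ≤ (c * N) * N :=
                  mul_le_mul_of_nonneg_right hcN (by positivity)
              _ = c * (N : ℝ) ^ 2 := by ring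
          have h9 : |Real.log δ| ≤ |Real.log δ| * N :=
            le_mul_of_one_le_right (abs_nonneg _) hN1
          have h10 := neg_abs_le (Real.log δ)
          nlinarith
      _ = δ := Real.exp_log hδ

end Pool.Agent.LP
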