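import Pool.Agent.LP.Conc
import Pool.Agent.LP.ConcCalc
import Pool.Agent.OIP.InfMarg

/-!
# LP: concentration for a general 1-independent measure

`conc_measure`: version of `conc_perm` for a measure and an infinite vertex set, by restriction to a finite window.
`conc_union`: union bound over finitely many tests.
-/

set_option autoImplicit false

open MeasureTheory ProbabilityTheory Finset
open scoped Classical

namespace Pool.Agent.LP

open Pool.Agent.OIP

/-- the embedding of a window -/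
def winEmb {V : Type} (T : Set V) : T ↪ V := ⟨Subtype.val, Subtype.val_injective⟩

/-- restriction to a window does not change an event depending on the window -/
theorem concM_map_comap {V : Type} {T : Set V} (G : SimpleGraph V) {a b : V} (ha : a ∈ T) (hb : b ∈ T) :
    (SimpleGraph.map (winEmb T) (G.comap (Subtype.val : T → V))).Adj a b ↔ G.Adj a b := by
  rw [SimpleGraph.map_adj]
  constructor
  · rintro ⟨x, y, hxy, rfl, rfl⟩
    exact hxy
  · intro h
    exact ⟨⟨a, ha⟩, ⟨b, hb⟩, h, rfl, rfl⟩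

/-- the event on the graphs of the window -/
def winEv {V : Type} (T : Set V) (U : Set (SimpleGraph V)) : Set (SimpleGraph T) :=
  {H | SimpleGraph.map (winEmb T) H ∈ U}

theorem mem_winEv {V : Type} {T A : Set V} (hA : A ⊆ T) {U : Set (SimpleGraph V)} (hU : DepOn A U)
    (G : SimpleGraph V) : G.comap (Subtype.val : T → V) ∈ winEv T U ↔ G ∈ U :=
  hU _ _ fun _ ha _ hb => concM_map_comap G (hA ha) (hA hb)

theorem depOn_winEv {V : Type} {T A : Set V} {U : Set (SimpleGraph V)} (hU : DepOn A U) :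
    DepOn (Subtype.val ⁻¹' A : Set T) (winEv T U) := by
  intro G H hGH
  refine hU _ _ fun a ha b hb => ?_
  rw [SimpleGraph.map_adj, SimpleGraph.map_adj]
  constructor
  · rintro ⟨x, y, hxy, rfl, rfl⟩
    exact ⟨x, y, (hGH x ha y hb).1 hxy, rfl, rfl⟩
  · rintro ⟨x, y, hxy, rfl, rfl⟩
    exact ⟨x, y, (hGH x ha y hb).2 hxy, rfl, rfl⟩

/-- events depending on a finite region are measurable -/
theorem concM_meas {Ω V : Type} (W : Ω → SimpleGraph V) {A : Set V} (hA : A.Finite)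
    {U : Set (SimpleGraph V)} (hU : DepOn A U) : MeasurableSet[sigV W A] {ω | W ω ∈ U} := by
  have : Finite A := hA
  have h1 := measurableSet_of_depOn (fun ω => (W ω).comap (Subtype.val : A → V))
    (depOn_winEv (T := A) hU)
  have h2 : {ω | (W ω).comap (Subtype.val : A → V) ∈ winEv A U} = {ω | W ω ∈ U} := by
    ext ω
    exact mem_winEv subset_rfl hU (W ω)
  rw [h2] at h1
  refine (?_ : sigV (fun ω => (W ω).comap (Subtype.val : A → V)) (Subtype.val ⁻¹' A) ≤ sigV W A) _ h1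
  refine MeasurableSpace.generateFrom_mono ?_
  rintro E ⟨a, ha, b, hb, rfl⟩
  exact ⟨a.1, ha, b.1, hb, rfl⟩

/-- **Concentration for a measure.** -/
theorem conc_measure {Ω V : Type} [MeasurableSpace Ω] (μ : Measure Ω) [IsProbabilityMeasure μ]
    (W : Ω → SimpleGraph V) (hmeas : ∀ a b, MeasurableSet {ω | (W ω).Adj a b}) (hind : OneIndepM μ W)
    {D : Type} [Fintype D] [DecidableEq D] (S : Finset D) (M : ℕ)
    (hM : S.card * (S.card * M) ≤ Fintype.card D) (F : Equiv.Perm D → Set (SimpleGraph V))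
    (Reg : Equiv.Perm D → Set V) (hfin : ∀ σ, (Reg σ).Finite) (hF : ∀ σ, DepOn (Reg σ) (F σ))
    (hReg : ∀ σ τ : Equiv.Perm D, ((S.image σ) ∩ (S.image τ)).card ≤ 1 → Disjoint (Reg σ) (Reg τ))
    (e : ℝ) (he : ∀ σ, μ.real {ω | W ω ∈ F σ} ≤ e) :
    μ.real {ω | 3 * e ≤ avg (fun σ => ind (W ω ∈ F σ))} ≤ Real.exp (-((M : ℝ) ^ 2 * e)) := by
  set T : Set V := ⋃ σ, Reg σ with hT
  have hTfin : T.Finite := Set.finite_iUnion hfin
  have hsub : ∀ σ, Reg σ ⊆ T := fun σ => Set.subset_iUnion Reg σ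
  have : Fintype T := hTfin.fintype
  set W' : Ω → SimpleGraph T := fun ω => (W ω).comap (Subtype.val : T → V) with hW'
  have hmeas' : ∀ a b, MeasurableSet {ω | (W' ω).Adj a b} := fun a b => hmeas a.1 b.1
  have hind' : OneIndepM μ W' := hind.comap Subtype.val_injective
  have hlaw := marg_law μ W' hmeas'
  have hone := marg_indep μ W' hmeas' hind'
  have hmem : ∀ σ ω, (W' ω ∈ winEv T (F σ) ↔ W ω ∈ F σ) := fun σ ω => mem_winEv (hsub σ) (hF σ) (W ω)
  have key := conc_perm hlaw hone S M hM (fun σ => winEv T (F σ)) (fun σ => Subtype.val ⁻¹' (Reg σ))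
    (fun σ => depOn_winEv (hF σ)) (fun σ τ h => (hReg σ τ h).preimage _) e (fun σ => by
      rw [marg_pr μ W' hmeas' {G | G ∈ winEv T (F σ)}]
      refine le_trans (le_of_eq ?_) (he σ)
      congr 1
      ext ω
      exact hmem σ ω)
  rw [marg_pr μ W' hmeas' {G | 3 * e ≤ avg (fun σ => ind (G ∈ winEv T (F σ)))}] at key
  refine le_trans (le_of_eq ?_) key
  congr 1
  ext ω
  have h1 : (fun σ => ind (W ω ∈ F σ)) = fun σ => ind (W' ω ∈ winEv T (F σ)) := by
    funext σ
    unfold ind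
    simp only [hmem σ ω]
  show 3 * e ≤ avg (fun σ => ind (W ω ∈ F σ)) ↔ 3 * e ≤ avg (fun σ => ind (W' ω ∈ winEv T (F σ)))
  rw [h1]

/-- union bound over finitely many tests -/
theorem conc_union {Ω V : Type} [MeasurableSpace Ω] (μ : Measure Ω) [IsProbabilityMeasure μ]
    (W : Ω → SimpleGraph V) (hmeas : ∀ a b, MeasurableSet {ω | (W ω).Adj a b}) (hind : OneIndepM μ W)
    {A : Type} (s : Finset A) (D : A → Type) [∀ a, Fintype (D a)] [∀ a, DecidableEq (D a)]
    (S : ∀ a, Finset (D a)) (M : ℕ)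
    (hM : ∀ a ∈ s, (S a).card * ((S a).card * M) ≤ Fintype.card (D a))
    (F : ∀ a, Equiv.Perm (D a) → Set (SimpleGraph V)) (Reg : ∀ a, Equiv.Perm (D a) → Set V)
    (hfin : ∀ a σ, (Reg a σ).Finite) (hF : ∀ a σ, DepOn (Reg a σ) (F a σ))
    (hReg : ∀ a, ∀ σ τ : Equiv.Perm (D a), (((S a).image σ) ∩ ((S a).image τ)).card ≤ 1 →
      Disjoint (Reg a σ) (Reg a τ))
    (e : ℝ) (he : ∀ a ∈ s, ∀ σ, μ.real {ω | W ω ∈ F a σ} ≤ e) :
    μ.real {ω | ∃ a ∈ s, 3 * e ≤ avg (fun σ => ind (W ω ∈ F a σ))} ≤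
      (s.card : ℝ) * Real.exp (-((M : ℝ) ^ 2 * e)) := by
  have h1 : {ω | ∃ a ∈ s, 3 * e ≤ avg (fun σ => ind (W ω ∈ F a σ))}
      = ⋃ a ∈ s, {ω | 3 * e ≤ avg (fun σ => ind (W ω ∈ F a σ))} := by
    ext ω
    simp
  rw [h1]
  calc μ.real (⋃ a ∈ s, {ω | 3 * e ≤ avg (fun σ => ind (W ω ∈ F a σ))})
      ≤ ∑ a ∈ s, μ.real {ω | 3 * e ≤ avg (fun σ => ind (W ω ∈ F a σ))} :=
        measureReal_biUnion_finset_le _ _
    _ ≤ ∑ _a ∈ s, Real.exp (-((M : ℝ) ^ 2 * e)) :=
        Finset.sum_le_sum fun a ha => conc_measure μ W hmeas hind (S a) M (hM a ha) (F a) (Reg a)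
          (hfin a) (hF a) (hReg a) e (he a ha)
    _ = (s.card : ℝ) * Real.exp (-((M : ℝ) ^ 2 * e)) := by
        rw [Finset.sum_const, nsmul_eq_mul]

/-- the event of the union bound depends on the union of the regions -/
theorem depOn_avg {V X : Type} [Fintype X] (F : X → Set (SimpleGraph V)) (Reg : X → Set V) (T : Set V)
    (hT : ∀ x, Reg x ⊆ T) (hF : ∀ x, DepOn (Reg x) (F x)) (c : ℝ) :
    DepOn T {G : SimpleGraph V | c ≤ avg (fun x => ind (G ∈ F x))} := by
  intro G H hGH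
  have h1 : (fun x => ind (G ∈ F x)) = fun x => ind (H ∈ F x) := by
    funext x
    unfold ind
    have := ((hF x).mono (hT x)) G H hGH
    simp only [this]
  show c ≤ avg (fun x => ind (G ∈ F x)) ↔ c ≤ avg (fun x => ind (H ∈ F x))
  rw [h1]

end Pool.Agent.LP
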