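import Pool.Agent.LP.GLat

/-!
# LP, part III: a set closed under the two-neighbour rule and full outside is full

Proof.  All cells of level `K` in `Top = Cube (100^(K+2))` are sound (`S_top`).  Fix a sound vertex
`x`, `i = 0`, `c = x 0`.  Cells `y ∈ Top \ Cube (100^K)` contain only vertices outside
`Cube (100^(2K))`, so they satisfy `SF`.  For `y ∈ Cube (100^K)` use `rulelat` at level `K` with the
neighbours `y - e 1`, `y - e 2` (`uv 1 false`, `uv 2 false`, still in `Top`) and induction on
`y 1 + y 2 + 2 * 100^K`.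
-/

set_option autoImplicit false

namespace Pool.LPG

theorem gallf_out {K : ℕ} {y v : V} (hv : anc K v = y) (hy : y ∉ Cube (100 ^ K)) :
    v ∉ Cube (100 ^ (2 * K)) := by
  intro hc
  apply hy
  intro i
  have h1 := hc i
  have hP : (0 : ℤ) < 100 ^ K := by positivity
  have h2 : y i = v i / 100 ^ K := by rw [← hv, anc_apply]
  have h3 : (100 : ℤ) ^ (2 * K) = 100 ^ K * 100 ^ K := by rw [two_mul, pow_add]
  rw [h3] at h1
  rw [h2]
  constructor
  · rw [Int.le_ediv_iff_mul_le hP]
    nlinarith [h1.1]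
  · exact Int.ediv_lt_of_lt_mul hP h1.2

theorem gallf_step {K : ℕ} {y : V} (hy : y ∈ Cube (100 ^ K)) (j : Fin 4) :
    y + uv j false ∈ Cube (100 ^ (K + 2)) := by
  intro i
  have h1 := hy i
  have hP : (1 : ℤ) ≤ 100 ^ K := one_le_pow₀ (by norm_num)
  have h3 : (100 : ℤ) ^ (K + 2) = 100 ^ K * 10000 := by rw [pow_add]; norm_num
  have h4 : (y + uv j false) i = y i + uv j false i := rfl
  rw [h3, h4]
  by_cases h : i = j
  · subst h
    rw [uv_same, sg_false]
    constructor <;> linarith [h1.1, h1.2]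
  · rw [uv_ne _ h]
    constructor <;> linarith [h1.1, h1.2]

theorem gallf_mem {K : ℕ} {y : V} (hy : y ∈ Cube (100 ^ K)) : y ∈ Cube (100 ^ (K + 2)) := by
  intro i
  have h1 := hy i
  have hP : (1 : ℤ) ≤ 100 ^ K := one_le_pow₀ (by norm_num)
  have h3 : (100 : ℤ) ^ (K + 2) = 100 ^ K * 10000 := by rw [pow_add]; norm_num
  rw [h3]
  constructor <;> linarith [h1.1, h1.2]

theorem allF (X : Set V) (K : ℕ) (hgood : ∀ y ∈ Cube (100 ^ (K + 2)), y ∉ Bad X K) (F : Set V)
    (hF : Rule2 X K (Cube (100 ^ (K + 2))) F)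
    (hout : ∀ x, S X K (Cube (100 ^ (K + 2))) 0 x → x ∉ Cube (100 ^ (2 * K)) → x ∈ F) :
    ∀ x, S X K (Cube (100 ^ (K + 2))) 0 x → x ∈ F := by
  intro x hx
  have hout' : ∀ y : V, y ∉ Cube (100 ^ K) → SF X K (Cube (100 ^ (K + 2))) F 0 (x 0) K y := by
    intro y hy v hv _ hS
    exact hout v hS (gallf_out hv hy)
  have key : ∀ n : ℕ, ∀ y : V, y ∈ Cube (100 ^ K) →
      (y 1 + y 2 + 2 * 100 ^ K).toNat = n → SF X K (Cube (100 ^ (K + 2))) F 0 (x 0) K y := by
    intro n
    induction n using Nat.strong_induction_on with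
    | _ n ih =>
      intro y hy hn
      have h1 := hy 1
      have h2 := hy 2
      have step : ∀ j : Fin 4, j = 1 ∨ j = 2 →
          SF X K (Cube (100 ^ (K + 2))) F 0 (x 0) K (y + uv j false) := by
        intro j hj
        by_cases hc : y + uv j false ∈ Cube (100 ^ K)
        · have h3 := hc 1
          have h4 := hc 2
          have h5 : (y + uv j false) 1 = y 1 + uv j false 1 := rfl
          have h6 : (y + uv j false) 2 = y 2 + uv j false 2 := rfl
          have h7 : (y + uv j false) 1 + (y + uv j false) 2 = y 1 + y 2 - 1 := by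
            rcases hj with rfl | rfl
            · rw [h5, h6, uv_same, uv_ne _ (by decide : (2 : Fin 4) ≠ 1), sg_false]
              ring
            · rw [h5, h6, uv_same, uv_ne _ (by decide : (1 : Fin 4) ≠ 2), sg_false]
              ring
          refine ih _ ?_ _ hc rfl
          generalize (100 : ℤ) ^ K = P at *
          omega
        · exact hout' _ hc
      exact rulelat X K _ hgood F hF 0 (x 0) K le_rfl y 1 2 false false (by decide) (by decide)
        (by decide) ((S_top X K _ y).2 (gallf_mem hy)) ((S_top X K _ _).2 (gallf_step hy 1))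
        ((S_top X K _ _).2 (gallf_step hy 2)) (step 1 (Or.inl rfl)) (step 2 (Or.inr rfl))
  by_cases hc : anc K x ∈ Cube (100 ^ K)
  · exact key _ _ hc rfl x rfl rfl hx
  · exact hout' _ hc x rfl rfl hx

end Pool.LPG
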