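import Pool.Agent.LP.GBas

/-!
# LP, part III: a closed cochain on a box is exact
-/

set_option autoImplicit false

open Finset

namespace Pool.LPG

/-- closed cochains on boxes have potentials: version for the directions in `T` -/
theorem boxex_aux (a b : V) (κ : V → Fin 4 → ℤ) (hκ : Cocyc (Box a b) κ) (T : Finset (Fin 4)) :
    ∃ φ : V → ℤ, ∀ z, z ∈ Box a b → (∀ i, i ∉ T → z i = a i) → ∀ j ∈ T, z + e j ∈ Box a b →
      φ (z + e j) = φ z + κ z j := by
  classical
  induction T using Finset.induction_on with
  | empty => exact ⟨fun _ => 0, fun z _ _ j hj => absurd hj (Finset.notMem_empty j)⟩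
  | insert i T hi ih =>
    obtain ⟨φ, hφ⟩ := ih
    refine ⟨fun z => φ (Function.update z i (a i)) +
      ∑ t ∈ Finset.range (z i - a i).toNat, κ (Function.update z i (a i + (t : ℤ))) i, ?_⟩
    intro z hz hzS j hj hzj
    have hbi := (hz i)
    rcases Finset.mem_insert.1 hj with rfl | hjS
    · have e1 : Function.update (z + e j) j (a j) = Function.update z j (a j) := by
        funext k
        by_cases hk : k = j
        · subst hk; simp
        · simp [Function.update_of_ne hk, e_ne hk]
      have e2 : ∀ t : ℤ, Function.update (z + e j) j t = Function.update z j t := by
        intro t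
        funext k
        by_cases hk : k = j
        · subst hk; simp
        · simp [Function.update_of_ne hk, e_ne hk]
      have e3 : ((z + e j) j - a j).toNat = (z j - a j).toNat + 1 := by
        have : (z + e j) j = z j + 1 := by simp [e_same]
        rw [this]; omega
      have e4 : Function.update z j (a j + (((z j - a j).toNat : ℕ) : ℤ)) = z := by
        have : a j + (((z j - a j).toNat : ℕ) : ℤ) = z j := by omega
        rw [this]; simp
      simp only [e2]
      rw [e3, Finset.sum_range_succ, e4]
      ring
    · have hij : j ≠ i := by rintro rfl; exact hi hjS
      have hzij : (z + e j) i = z i := by simp [e_ne hij.symm]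
      have comm : ∀ t : ℤ, Function.update (z + e j) i t = Function.update z i t + e j := by
        intro t
        funext k
        by_cases hk : k = i
        · subst hk; simp [e_ne hij.symm]
        · simp [Function.update_of_ne hk]
      have stepi : ∀ t : ℤ, Function.update z i t + e i = Function.update z i (t + 1) := by
        intro t
        funext k
        by_cases hk : k = i
        · subst hk; simp [e_same]
        · simp [Function.update_of_ne hk, e_ne hk]
      have memu : ∀ t : ℤ, a i ≤ t → t ≤ z i → Function.update z i t ∈ Box a b := by
        intro t h1 h2 k
        by_cases hk : k = i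
        · subst hk; simp; exact ⟨h1, lt_of_le_of_lt h2 hbi.2⟩
        · simp only [Function.update_of_ne hk]; exact hz k
      have memuj : ∀ t : ℤ, a i ≤ t → t ≤ z i → Function.update z i t + e j ∈ Box a b := by
        intro t h1 h2 k
        rw [← comm]
        by_cases hk : k = i
        · subst hk; simp; exact ⟨h1, lt_of_le_of_lt h2 hbi.2⟩
        · simp only [Function.update_of_ne hk]
          exact hzj k
      have base : φ (Function.update z i (a i) + e j) =
          φ (Function.update z i (a i)) + κ (Function.update z i (a i)) j := by
        apply hφ
        · exact memu _ le_rfl hbi.1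
        · intro k hk
          by_cases hki : k = i
          · subst hki; simp
          · rw [Function.update_of_ne hki]
            exact hzS k (by simp [hki, hk])
        · exact hjS
        · exact memuj _ le_rfl hbi.1
      have tele : ∀ n : ℕ, a i + (n : ℤ) ≤ z i →
          ∑ t ∈ Finset.range n, κ (Function.update z i (a i + (t : ℤ)) + e j) i =
          ∑ t ∈ Finset.range n, κ (Function.update z i (a i + (t : ℤ))) i +
            (κ (Function.update z i (a i + (n : ℤ))) j - κ (Function.update z i (a i)) j) := by
        intro n
        induction n with
        | zero => intro _; simp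
        | succ n ihn =>
          intro hn
          have hn' : a i + (n : ℤ) ≤ z i := by push_cast at hn; omega
          rw [Finset.sum_range_succ, Finset.sum_range_succ, ihn hn']
          have hcl := hκ (Function.update z i (a i + (n : ℤ))) i j hij.symm
            (memu _ (by omega) hn')
            (by rw [stepi]; exact memu _ (by omega) (by push_cast at hn; omega))
            (memuj _ (by omega) hn')
            (by rw [stepi]; exact memuj _ (by omega) (by push_cast at hn; omega))
          rw [stepi] at hcl
          have : a i + ((n + 1 : ℕ) : ℤ) = a i + (n : ℤ) + 1 := by push_cast; ring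
          rw [this]
          linarith
      have hn0 : a i + (((z i - a i).toNat : ℕ) : ℤ) = z i := by omega
      have htele := tele (z i - a i).toNat (by omega)
      rw [hn0, Function.update_eq_self] at htele
      simp only [comm, hzij]
      rw [base, htele]
      ring

theorem boxex (a b : V) (κ : V → Fin 4 → ℤ) (h : Cocyc (Box a b) κ) :
    ∃ f : V → ℤ, ∀ x i, x ∈ Box a b → x + e i ∈ Box a b → κ x i = f (x + e i) - f x := by
  obtain ⟨φ, hφ⟩ := boxex_aux a b κ h Finset.univ
  refine ⟨φ, fun z i hz hzi => ?_⟩
  have := hφ z hz (fun k hk => absurd (Finset.mem_univ k) hk) i (Finset.mem_univ i) hzi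
  linarith

/-- two potentials on a box differ by a constant -/
theorem boxdiff (a b : V) (φ φ' : V → ℤ)
    (h : ∀ x i, x ∈ Box a b → x + e i ∈ Box a b → φ (x + e i) - φ x = φ' (x + e i) - φ' x)
    (z w : V) (hz : z ∈ Box a b) (hw : w ∈ Box a b) : φ z - φ' z = φ w - φ' w := by
  classical
  have step : ∀ u, u ∈ Box a b → ∀ i, u + e i ∈ Box a b → φ (u + e i) - φ' (u + e i) = φ u - φ' u := by
    intro u hu i hui
    linarith [h u i hu hui]
  have line : ∀ (i : Fin 4) (n : ℕ) (u : V), u ∈ Box a b → Function.update u i (u i + n) ∈ Box a b →
      φ (Function.update u i (u i + n)) - φ' (Function.update u i (u i + n)) = φ u - φ' u := by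
    intro i n
    induction n with
    | zero => intro u _ _; simp
    | succ n ihn =>
      intro u hu hun
      have hmem : Function.update u i (u i + (n : ℤ)) ∈ Box a b := by
        intro k
        by_cases hk : k = i
        · subst hk
          have h1 := hun k
          have h2 := hu k
          simp at h1 ⊢
          omega
        · have := hu k
          rwa [Function.update_of_ne hk]
      have e' : Function.update u i (u i + ((n + 1 : ℕ) : ℤ)) =
          Function.update u i (u i + (n : ℤ)) + e i := by
        funext k
        by_cases hk : k = i
        · subst hk; simp [e_same]; ring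
        · simp [Function.update_of_ne hk, e_ne hk]
      rw [e'] at hun ⊢
      rw [step _ hmem i hun, ihn u hu hmem]
  have line' : ∀ (i : Fin 4) (t : ℤ) (u : V), u ∈ Box a b → Function.update u i t ∈ Box a b →
      φ (Function.update u i t) - φ' (Function.update u i t) = φ u - φ' u := by
    intro i t u hu hut
    rcases le_total (u i) t with hle | hle
    · have e' : t = u i + ((t - u i).toNat : ℤ) := by omega
      rw [e'] at hut ⊢
      exact line i _ u hu hut
    · have hu' : u = Function.update (Function.update u i t) i (t + ((u i - t).toNat : ℤ)) := by
        have : t + ((u i - t).toNat : ℤ) = u i := by omega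
        rw [this]; simp
      have e2 : (Function.update u i t) i = t := by simp
      have := line i (u i - t).toNat (Function.update u i t) hut (by
        rw [e2, ← hu']; exact hu)
      rw [e2, ← hu'] at this
      exact this.symm
  have main : ∀ T : Finset (Fin 4), φ (fun k => if k ∈ T then w k else z k) -
      φ' (fun k => if k ∈ T then w k else z k) = φ z - φ' z := by
    intro T
    induction T using Finset.induction_on with
    | empty => simp
    | insert i T hi ih =>
      have hmemS : (fun k => if k ∈ T then w k else z k) ∈ Box a b := by
        intro k; by_cases hk : k ∈ T
        · simp [hk]; exact hw k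
        · simp [hk]; exact hz k
      have e' : (fun k => if k ∈ insert i T then w k else z k) =
          Function.update (fun k => if k ∈ T then w k else z k) i (w i) := by
        funext k
        by_cases hk : k = i
        · subst hk; simp
        · simp [Function.update_of_ne hk, hk]
      rw [e', line' i (w i) _ hmemS, ih]
      intro k
      by_cases hk : k = i
      · subst hk; simp; exact hw k
      · rw [Function.update_of_ne hk]; exact hmemS k
  have := main Finset.univ
  simp at this
  exact this.symm

end Pool.LPG
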