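import Pool.Agent.LP.GCo
import Pool.Agent.LP.GBoxEx

/-!
# LP, part III: a closed cochain on box minus box is exact (dimension 4)

Cover `Box a b \ Box c d` by the (at most 8) full boxes `{x ∈ Box a b | x i < c i}` and
`{x ∈ Box a b | d i ≤ x i}`; each edge of the region lies in one of them (common free coordinate),
`boxex` gives a potential on each, boxes of different axes intersect in a nonempty box, and the
nerve (join of four nonempty sets of at most two points) is simply connected.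
-/

set_option autoImplicit false

namespace Pool.LPG

/-- lower corner of the slab -/
def axLo (a d : V) (s : Fin 4 × Bool) : V :=
  if s.2 then Function.update a s.1 (max (a s.1) (d s.1)) else a

/-- upper corner of the slab -/
def axHi (b c : V) (s : Fin 4 × Bool) : V :=
  if s.2 then b else Function.update b s.1 (min (b s.1) (c s.1))

theorem mem_ax (a b c d : V) (s : Fin 4 × Bool) (z : V) :
    z ∈ Box (axLo a d s) (axHi b c s) ↔
      z ∈ Box a b ∧ (if s.2 = true then d s.1 ≤ z s.1 else z s.1 < c s.1) := by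
  obtain ⟨i, σ⟩ := s
  cases σ
  · simp only [axLo, axHi, Box, Bool.false_eq_true, if_false]
    constructor
    · intro h
      have hi4 := h i
      simp at hi4
      refine ⟨fun k => ?_, by omega⟩
      by_cases hk : k = i
      · subst hk; omega
      · have := h k
        rwa [Function.update_of_ne hk] at this
    · rintro ⟨h, h'⟩ k
      by_cases hk : k = i
      · subst hk; simp; exact ⟨(h k).1, (h k).2, h'⟩
      · rw [Function.update_of_ne hk]; exact h k
  · simp only [axLo, axHi, Box, if_true]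
    constructor
    · intro h
      have hi4 := h i
      simp at hi4
      refine ⟨fun k => ?_, by omega⟩
      by_cases hk : k = i
      · subst hk; omega
      · have := h k
        rwa [Function.update_of_ne hk] at this
    · rintro ⟨h, h'⟩ k
      by_cases hk : k = i
      · subst hk; simp; exact ⟨⟨(h k).1, h'⟩, (h k).2⟩
      · rw [Function.update_of_ne hk]; exact h k

theorem annex (a b c d p : V) (hp : ∀ j, a j ≤ p j ∧ p j < b j ∧ (p j < c j ∨ d j ≤ p j))
    (κ : V → Fin 4 → ℤ) (h : Cocyc (Box a b \ Box c d) κ) :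
    ∃ f : V → ℤ, ∀ x i, x ∈ Box a b \ Box c d → x + e i ∈ Box a b \ Box c d →
      κ x i = f (x + e i) - f x := by
  classical
  by_cases hcd : ∀ i, c i < d i
  swap
  · -- the inner box is empty
    have hem : Box a b \ Box c d = Box a b := by
      ext x
      refine ⟨fun hx => hx.1, fun hx => ⟨hx, fun hx' => hcd fun i => ?_⟩⟩
      exact lt_of_le_of_lt (hx' i).1 (hx' i).2
    rw [hem] at h ⊢
    exact boxex a b κ h
  set Sl : Fin 4 × Bool → Set V := fun s => Box (axLo a d s) (axHi b c s) with hSl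
  have memSl : ∀ s z, z ∈ Sl s ↔ z ∈ Box a b ∧ (if s.2 = true then d s.1 ≤ z s.1 else z s.1 < c s.1) :=
    fun s z => mem_ax a b c d s z
  have hsub : ∀ s, Sl s ⊆ Box a b \ Box c d := by
    intro s z hz
    rw [memSl] at hz
    refine ⟨hz.1, fun hab => ?_⟩
    have h4 := hab s.1
    have h5 := hz.2
    split_ifs at h5 <;> omega
  -- potentials
  have hraw : ∀ s, ∃ f : V → ℤ, ∀ x i, x ∈ Sl s → x + e i ∈ Sl s → κ x i = f (x + e i) - f x := by
    intro s
    apply boxex
    intro x i j hij h1 h2 h3 h4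
    exact h x i j hij (hsub s h1) (hsub s h2) (hsub s h3) (hsub s h4)
  choose g hg using hraw
  -- pot predicate
  let PT : Fin 4 × Bool → (V → ℤ) → Prop := fun s f => ∀ x i, x ∈ Sl s → x + e i ∈ Sl s →
    κ x i = f (x + e i) - f x
  have shift : ∀ s (t : ℤ), PT s (fun z => g s z + t) := by
    intro s t z i hz hzi
    have := hg s z i hz hzi
    simp only
    rw [this]; ring
  -- agreement at one point of the intersection implies agreement
  have agree : ∀ (s s' : Fin 4 × Bool) (f f' : V → ℤ), PT s f → PT s' f' → ∀ w, w ∈ Sl s → w ∈ Sl s' →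
      f w = f' w → ∀ z, z ∈ Sl s → z ∈ Sl s' → f z = f' z := by
    intro s s' f f' hf hf' w hw hw' hww z hz hz'
    let Lw : V := fun k => max (axLo a d s k) (axLo a d s' k)
    let Uw : V := fun k => min (axHi b c s k) (axHi b c s' k)
    have hmem : ∀ u : V, u ∈ Box Lw Uw ↔ u ∈ Sl s ∧ u ∈ Sl s' := by
      intro u
      constructor
      · intro hu
        exact ⟨fun k => ⟨(le_max_left _ _).trans (hu k).1, lt_of_lt_of_le (hu k).2 (min_le_left _ _)⟩,
          fun k => ⟨(le_max_right _ _).trans (hu k).1, lt_of_lt_of_le (hu k).2 (min_le_right _ _)⟩⟩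
      · rintro ⟨hu1, hu2⟩ k
        exact ⟨max_le (hu1 k).1 (hu2 k).1, lt_min (hu1 k).2 (hu2 k).2⟩
    have key := boxdiff Lw Uw f f' (fun x i hx hxi => by
      rw [← hf x i ((hmem x).1 hx).1 ((hmem _).1 hxi).1,
        ← hf' x i ((hmem x).1 hx).2 ((hmem _).1 hxi).2]) z w ((hmem z).2 ⟨hz, hz'⟩)
        ((hmem w).2 ⟨hw, hw'⟩)
    linarith
  -- base slabs through p
  have hpB : p ∈ Box a b := fun j => ⟨(hp j).1, (hp j).2.1⟩
  have hσ : ∀ j, ∃ σ : Bool, p ∈ Sl (j, σ) := by
    intro j
    rcases (hp j).2.2 with h1 | h1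
    · exact ⟨false, (memSl _ _).2 ⟨hpB, by simpa using h1⟩⟩
    · exact ⟨true, (memSl _ _).2 ⟨hpB, by simpa using h1⟩⟩
  choose σ0 hσ0 using hσ
  let s0 : Fin 4 × Bool := (0, σ0 0)
  let s1 : Fin 4 × Bool := (0, !σ0 0)
  let t0 : Fin 4 × Bool := (1, σ0 1)
  let u0 : Fin 4 × Bool := (2, σ0 2)
  have d10 : (1 : Fin 4) ≠ 0 := by decide
  have d20 : (2 : Fin 4) ≠ 0 := by decide
  have d21 : (2 : Fin 4) ≠ 1 := by decide
  have ps0 : p ∈ Sl s0 := hσ0 0
  have pt0 : p ∈ Sl t0 := hσ0 1
  have pu0 : p ∈ Sl u0 := hσ0 2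
  -- changing p in one coordinate
  have updm : ∀ (s : Fin 4 × Bool) (z : V), z ∈ Sl s → Function.update p s.1 (z s.1) ∈ Sl s := by
    intro s z hz
    rw [memSl] at hz ⊢
    refine ⟨fun k => ?_, ?_⟩
    · by_cases hk : k = s.1
      · subst hk; simpa using hz.1 s.1
      · rw [Function.update_of_ne hk]; exact hpB k
    · simpa using hz.2
  have updo : ∀ (s s' : Fin 4 × Bool) (q z : V), s'.1 ≠ s.1 → q ∈ Sl s' → z ∈ Sl s →
      Function.update q s.1 (z s.1) ∈ Sl s' := by
    intro s s' q z hne hq hz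
    rw [memSl] at hq hz ⊢
    refine ⟨fun k => ?_, ?_⟩
    · by_cases hk : k = s.1
      · subst hk; simpa using hz.1 s.1
      · rw [Function.update_of_ne hk]; exact hq.1 k
    · rw [Function.update_of_ne hne]; exact hq.2
  -- a chosen point of every nonempty slab
  let wt : Fin 4 × Bool → V := fun s => if hs : (Sl s).Nonempty then hs.choose else p
  have hwt : ∀ s, (Sl s).Nonempty → wt s ∈ Sl s := by
    intro s hs
    simp only [wt, dif_pos hs]
    exact hs.choose_spec
  let pt : Fin 4 × Bool → V := fun s => Function.update p s.1 (wt s s.1)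
  let cst : Fin 4 × Bool → ℤ := fun s => if s = s0 then 0 else g s0 (pt s) - g s (pt s)
  let f : Fin 4 × Bool → V → ℤ := fun s z => g s z + cst s
  have hf : ∀ s, PT s (f s) := fun s => shift s _
  have hf0 : ∀ z, f s0 z = g s0 z := by intro z; simp [f, cst]
  have stepA : ∀ s : Fin 4 × Bool, s.1 ≠ 0 → ∀ z, z ∈ Sl s → z ∈ Sl s0 → f s z = f s0 z := by
    intro s hs z hz hz0
    have hne : (Sl s).Nonempty := ⟨z, hz⟩
    have hc1 : pt s ∈ Sl s := updm s (wt s) (hwt s hne)
    have hc2 : pt s ∈ Sl s0 := updo s s0 p (wt s) (Ne.symm hs) ps0 (hwt s hne)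
    refine agree s s0 _ _ (hf s) (hf s0) _ hc1 hc2 ?_ z hz hz0
    rw [hf0]
    have : s ≠ s0 := fun hh => hs (by rw [hh])
    simp [f, cst, this]
  have third : ∀ (F : Fin 4 × Bool → V → ℤ) (_ : ∀ s, PT s (F s)) (s s' s'' : Fin 4 × Bool),
      s.1 ≠ s'.1 → s.1 ≠ s''.1 → s'.1 ≠ s''.1 → p ∈ Sl s'' →
      (∀ z, z ∈ Sl s → z ∈ Sl s'' → F s z = F s'' z) →
      (∀ z, z ∈ Sl s' → z ∈ Sl s'' → F s' z = F s'' z) →
      ∀ z, z ∈ Sl s → z ∈ Sl s' → F s z = F s' z := by
    intro F hF s s' s'' n1 n2 n3 hp'' e1 e2 z hz hz'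
    set w1 : V := Function.update p s'.1 (z s'.1)
    have w1s' : w1 ∈ Sl s' := updm s' z hz'
    have w1s'' : w1 ∈ Sl s'' := updo s' s'' p z (Ne.symm n3) hp'' hz'
    set w : V := Function.update w1 s.1 (z s.1)
    have ws' : w ∈ Sl s' := updo s s' w1 z (Ne.symm n1) w1s' hz
    have ws'' : w ∈ Sl s'' := updo s s'' w1 z (Ne.symm n2) w1s'' hz
    have ws : w ∈ Sl s := by
      rw [memSl] at hz ws' ⊢
      refine ⟨ws'.1, ?_⟩
      simpa [w] using hz.2
    refine agree s s' _ _ (hF s) (hF s') w ws ws' ?_ z hz hz'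
    rw [e1 _ ws ws'', e2 _ ws' ws'']
  have stepB : ∀ s s' : Fin 4 × Bool, s.1 ≠ 0 → s'.1 ≠ 0 → s.1 ≠ s'.1 → ∀ z, z ∈ Sl s →
      z ∈ Sl s' → f s z = f s' z := fun s s' hs hs' hss =>
    third f hf s s' s0 hss hs hs' ps0 (stepA s hs) (stepA s' hs')
  let F : Fin 4 × Bool → V → ℤ := fun s z =>
    if s = s1 then g s1 z + (f t0 (pt s1) - g s1 (pt s1)) else f s z
  have hF : ∀ s, PT s (F s) := by
    intro s
    by_cases hs : s = s1
    · subst hs
      intro z i hz hzi
      have := shift s1 (f t0 (pt s1) - g s1 (pt s1)) z i hz hzi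
      simpa [F] using this
    · intro z i hz hzi
      have := hf s z i hz hzi
      simpa [F, hs] using this
  have hFne : ∀ s, s ≠ s1 → ∀ z, F s z = f s z := by intro s hs z; simp [F, hs]
  have ne1 : ∀ s : Fin 4 × Bool, s.1 ≠ 0 → s ≠ s1 := by rintro s hs rfl; exact hs rfl
  have hs01 : s0 ≠ s1 := by
    intro hh
    have := congrArg Prod.snd hh
    simp [s0, s1] at this
  have stepT : ∀ z, z ∈ Sl s1 → z ∈ Sl t0 → F s1 z = F t0 z := by
    intro z hz hz'
    have hne : (Sl s1).Nonempty := ⟨z, hz⟩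
    have m1 : pt s1 ∈ Sl s1 := updm s1 (wt s1) (hwt s1 hne)
    have m2 : pt s1 ∈ Sl t0 := updo s1 t0 p (wt s1) d10 pt0 (hwt s1 hne)
    refine agree s1 t0 _ _ (hF s1) (hF t0) _ m1 m2 ?_ z hz hz'
    rw [hFne t0 (ne1 t0 d10)]
    simp [F]
  have stepBF : ∀ s s' : Fin 4 × Bool, s.1 ≠ 0 → s'.1 ≠ 0 → s.1 ≠ s'.1 → ∀ z, z ∈ Sl s →
      z ∈ Sl s' → F s z = F s' z := by
    intro s s' hs hs' hss z hz hz'
    rw [hFne s (ne1 s hs), hFne s' (ne1 s' hs')]
    exact stepB s s' hs hs' hss z hz hz'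
  have stepC : ∀ s : Fin 4 × Bool, s.1 ≠ 0 → s.1 ≠ 1 → ∀ z, z ∈ Sl s1 →
      z ∈ Sl s → F s1 z = F s z := by
    intro s hs hs2
    exact third F hF s1 s t0 (Ne.symm hs) d10.symm hs2 pt0 stepT
      (stepBF s t0 hs d10 hs2)
  have stepD : ∀ s : Fin 4 × Bool, s.1 ≠ 0 → ∀ z, z ∈ Sl s1 → z ∈ Sl s → F s1 z = F s z := by
    intro s hs
    by_cases hs2 : s.1 = 1
    · refine third F hF s1 s u0 (Ne.symm hs) d20.symm (by rw [hs2]; exact d21.symm) pu0 ?_ ?_
      · exact stepC u0 d20 d21
      · exact stepBF s u0 hs d20 (by rw [hs2]; exact d21.symm)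
    · exact stepC s hs hs2
  have stepA' : ∀ s : Fin 4 × Bool, s.1 ≠ 0 → ∀ z, z ∈ Sl s0 → z ∈ Sl s → F s0 z = F s z := by
    intro s hs z hz hz'
    rw [hFne s0 hs01, hFne s (ne1 s hs)]
    exact (stepA s hs z hz' hz).symm
  have all : ∀ s s' : Fin 4 × Bool, ∀ z, z ∈ Sl s → z ∈ Sl s' → F s z = F s' z := by
    intro s s' z hz hz'
    by_cases hss : s.1 = s'.1
    · by_cases h2' : s.2 = s'.2
      · have : s = s' := Prod.ext hss h2'
        rw [this]
      · exfalso
        rw [memSl] at hz hz'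
        have e1 := hz.2
        have e2 := hz'.2
        rw [← hss] at e2
        have := hcd s.1
        rcases Bool.eq_false_or_eq_true s.2 with hh | hh <;>
          rcases Bool.eq_false_or_eq_true s'.2 with hh' | hh' <;> rw [hh] at e1 <;> rw [hh'] at e2 <;>
          simp at e1 e2 <;> first | omega | exact h2' (hh.trans hh'.symm)
    · by_cases hs : s.1 = 0
      · have hs' : s'.1 ≠ 0 := fun h => hss (hs.trans h.symm)
        by_cases hh : s.2 = σ0 0
        · have : s = s0 := Prod.ext hs hh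
          subst this
          exact stepA' s' hs' z hz hz'
        · have : s = s1 := Prod.ext hs (Bool.eq_not.2 hh)
          subst this
          exact stepD s' hs' z hz hz'
      · by_cases hs' : s'.1 = 0
        · by_cases hh : s'.2 = σ0 0
          · have : s' = s0 := Prod.ext hs' hh
            subst this
            exact (stepA' s hs z hz' hz).symm
          · have : s' = s1 := Prod.ext hs' (Bool.eq_not.2 hh)
            subst this
            exact (stepD s hs z hz' hz).symm
        · exact stepBF s s' hs hs' hss z hz hz'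
  have cover : ∀ z, z ∈ Box a b \ Box c d → ∃ s, z ∈ Sl s := by
    rintro z ⟨hz, hz'⟩
    have : ∃ i, ¬ (c i ≤ z i ∧ z i < d i) := by
      by_contra hcon
      push Not at hcon
      exact hz' hcon
    obtain ⟨i, hi⟩ := this
    rcases lt_or_ge (z i) (c i) with h | h
    · exact ⟨(i, false), (memSl _ _).2 ⟨hz, by simpa using h⟩⟩
    · have hb : d i ≤ z i := by
        by_contra hc
        exact hi ⟨h, not_le.1 hc⟩
      exact ⟨(i, true), (memSl _ _).2 ⟨hz, by simpa using hb⟩⟩
  let φ : V → ℤ := fun z => if h : z ∈ Box a b \ Box c d then F (cover z h).choose z else 0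
  have hφ : ∀ s z, z ∈ Sl s → φ z = F s z := by
    intro s z hz
    have hzR := hsub s hz
    simp only [φ, dif_pos hzR]
    exact all _ _ z (cover z hzR).choose_spec hz
  refine ⟨φ, fun z j hz hzj => ?_⟩
  have common : ∃ s, z ∈ Sl s ∧ z + e j ∈ Sl s := by
    obtain ⟨s, hs⟩ := cover z hz
    by_cases hsj : z + e j ∈ Sl s
    · exact ⟨s, hs, hsj⟩
    · obtain ⟨s', hs'⟩ := cover _ hzj
      refine ⟨s', ?_, hs'⟩
      rw [memSl] at hs hs' hsj ⊢
      refine ⟨hs.1, ?_⟩
      have hsj' : ¬ (if s.2 = true then d s.1 ≤ (z + e j) s.1 else (z + e j) s.1 < c s.1) :=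
        fun hc => hsj ⟨hs'.1, hc⟩
      have e0 := hs.2
      have e1 := hs'.2
      have hjs : j = s.1 := by
        by_contra hne
        have : (z + e j) s.1 = z s.1 := by simp [e_ne (Ne.symm hne)]
        rw [this] at hsj'
        exact hsj' e0
      subst hjs
      have e2 : (z + e s.1) s.1 = z s.1 + 1 := by simp [e_same]
      rw [e2] at hsj'
      have e4 := hcd s.1
      by_cases hk : s'.1 = s.1
      · rw [hk, e2] at e1
        rw [hk]
        split_ifs at * <;> omega
      · have : (z + e s.1) s'.1 = z s'.1 := by simp [e_ne hk]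
        rw [this] at e1
        exact e1
  obtain ⟨s, hs, hsj⟩ := common
  rw [hφ s z hs, hφ s _ hsj]
  exact hF s z j hs hsj

end Pool.LPG
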