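import Pool.Agent.LP.GDefs

/-!
# LP, part III (geometry): basic lemmas (proved)
-/

set_option autoImplicit false

namespace Pool.LPG

theorem sg_true : sg true = 1 := rfl
theorem sg_false : sg false = -1 := rfl

theorem uv_same (i : Fin 4) (s : Bool) : uv i s i = sg s := by simp [uv]

theorem uv_ne {i j : Fin 4} (s : Bool) (h : j ≠ i) : uv i s j = 0 := by
  simp [uv, h]

theorem e_same (i : Fin 4) : e i i = 1 := by simp [e]

theorem e_ne {i j : Fin 4} (h : j ≠ i) : e i j = 0 := by simp [e, h]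

theorem uv_true (i : Fin 4) : uv i true = e i := rfl

theorem uv_false (i : Fin 4) : uv i false = - e i := by
  funext j
  by_cases h : j = i
  · subst h; simp [uv, e, sg]
  · simp [uv, e, h]

theorem par_apply (y : V) (i : Fin 4) : par y i = y i / 100 := rfl

theorem anc_apply (k : ℕ) (v : V) (i : Fin 4) : anc k v i = v i / 100 ^ k := rfl

theorem anc_zero (v : V) : anc 0 v = v := by
  funext i; simp [anc]

theorem anc_succ (k : ℕ) (v : V) : anc (k + 1) v = par (anc k v) := by
  funext i
  simp only [anc, par]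
  rw [pow_succ, Int.ediv_ediv_of_nonneg (by positivity)]

theorem anc_one (v : V) : anc 1 v = par v := by
  rw [show (1 : ℕ) = 0 + 1 from rfl, anc_succ, anc_zero]

theorem anc_anc (k n : ℕ) (v : V) : anc n (anc k v) = anc (k + n) v := by
  funext i
  simp only [anc]
  rw [pow_add, Int.ediv_ediv_of_nonneg (by positivity)]

theorem anc_succ' (k : ℕ) (v : V) : anc (k + 1) v = anc k (par v) := by
  rw [← anc_one, anc_anc, add_comm]

theorem near_sub_big (Y : V) : Near Y ⊆ Big Y := by
  intro y hy i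
  have := hy i
  constructor
  · linarith [this.1]
  · linarith [this.2]

theorem mem_near_par (y : V) : y ∈ Near (par y) := by
  intro i
  have h1 := Int.mul_ediv_add_emod (y i) 100
  have h2 := Int.emod_nonneg (y i) (by norm_num : (100 : ℤ) ≠ 0)
  have h3 := Int.emod_lt_of_pos (y i) (by norm_num : (0 : ℤ) < 100)
  simp only [par]
  constructor <;> omega

theorem mem_big_par (y : V) : y ∈ Big (par y) := near_sub_big _ (mem_near_par y)

theorem bad_mem_spot {B : Set V} {y Y : V} (hy : y ∈ B) (hY : y ∈ Big Y) : y ∈ Spot B Y :=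
  ⟨fun _ => ⟨y, hy, hY, le_rfl⟩, fun _ => ⟨y, hy, hY, le_rfl⟩⟩

theorem S_top (X : Set V) (K : ℕ) (Top : Set V) (y : V) : S X K Top K y ↔ y ∈ Top := by
  simp [S, SndA]

theorem S_step (X : Set V) {K : ℕ} (Top : Set V) {k : ℕ} (h : k < K) (y : V) :
    S X K Top k y ↔ y ∉ Spot (Bad X k) (par y) ∧ S X K Top (k + 1) (par y) := by
  unfold S
  obtain ⟨n, rfl⟩ : ∃ n, K = k + (n + 1) := ⟨K - k - 1, by omega⟩
  rw [show k + (n + 1) - k = n + 1 by omega, show k + (n + 1) - (k + 1) = n by omega]
  simp only [SndA]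
  rw [show k + (n + 1) - (n + 1) = k by omega]

theorem S_not_bad {X : Set V} {K : ℕ} {Top : Set V} (hTop : ∀ y ∈ Top, y ∉ Bad X K) {k : ℕ}
    (hk : k ≤ K) {y : V} (h : S X K Top k y) : y ∉ Bad X k := by
  rcases Nat.lt_or_ge k K with h1 | h1
  · rw [S_step X Top h1] at h
    intro hb
    exact h.1 (bad_mem_spot hb (mem_big_par y))
  · have : k = K := le_antisymm hk h1
    subst this
    exact hTop y ((S_top X k Top y).1 h)

theorem S_not_bad' {X : Set V} {K : ℕ} {Top : Set V} {k : ℕ}
    (hk : k < K) {y : V} (h : S X K Top k y) : y ∉ Bad X k := by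
  rw [S_step X Top hk] at h
  intro hb
  exact h.1 (bad_mem_spot hb (mem_big_par y))

/-- soundness with respect to `K' ≥ K` splits -/
theorem S_comp (X : Set V) {K K' : ℕ} (Top : Set V) (hK : K ≤ K') :
    ∀ (n k : ℕ), k + n = K → ∀ y : V,
      (S X K' Top k y ↔ S X K Set.univ k y ∧ S X K' Top K (anc n y)) := by
  intro n
  induction n with
  | zero =>
    intro k hk y
    have : k = K := by omega
    subst this
    simp [S_top, anc_zero]
  | succ n ih =>
    intro k hk y
    rw [S_step X Top (by omega : k < K'), S_step X Set.univ (by omega : k < K),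
      ih (k + 1) (by omega) (par y), anc_succ' n y]
    tauto

/-- ancestors of sound cells are sound -/
theorem S_anc (X : Set V) {K : ℕ} (Top : Set V) :
    ∀ (n k : ℕ), k + n ≤ K → ∀ y : V, S X K Top k y → S X K Top (k + n) (anc n y) := by
  intro n
  induction n with
  | zero => intro k _ y h; simpa [anc_zero] using h
  | succ n ih =>
    intro k hk y h
    have h1 := ((S_step X Top (by omega : k < K) y).1 h).2
    have h2 := ih (k + 1) (by omega) (par y) h1
    rw [anc_succ', show k + (n + 1) = k + 1 + n by omega]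
    exact h2

theorem S_anc0 (X : Set V) {K : ℕ} (Top : Set V) (k : ℕ) (hk : k ≤ K) (v : V)
    (h : S X K Top 0 v) : S X K Top k (anc k v) := by
  have := S_anc X Top k 0 (by omega) v h
  simpa using this

theorem nextBad_mono {B B' : Set V} (h : B ⊆ B') : nextBad B ⊆ nextBad B' := by
  rintro Y ⟨y, hy, y', hy', h1, h2, h3⟩
  exact ⟨y, h hy, y', h hy', h1, h2, h3⟩

theorem Bad_mono {X X' : Set V} (h : X ⊆ X') (k : ℕ) : Bad X k ⊆ Bad X' k := by
  induction k with
  | zero => exact h
  | succ k ih => exact nextBad_mono ih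

theorem Spot_mono {B B' : Set V} (h : B ⊆ B') (Y : V) : Spot B Y ⊆ Spot B' Y := by
  rintro x ⟨h1, h2⟩
  refine ⟨fun i => ?_, fun i => ?_⟩
  · obtain ⟨y, hy, h3⟩ := h1 i
    exact ⟨y, h hy, h3⟩
  · obtain ⟨y, hy, h3⟩ := h2 i
    exact ⟨y, h hy, h3⟩

/-- more bad sites, fewer sound cells -/
theorem S_mono {X X' : Set V} (h : X ⊆ X') {K : ℕ} {Top Top' : Set V} (hT : Top' ⊆ Top) {k : ℕ}
    {y : V} (hS : S X' K Top' k y) : S X K Top k y := by
  unfold S at *
  generalize K - k = n at *
  induction n generalizing y with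
  | zero => exact hT hS
  | succ n ih =>
    exact ⟨fun hx => hS.1 (Spot_mono (Bad_mono h _) _ hx), ih hS.2⟩

theorem lev_same (i : Fin 4) (c : ℤ) (k : ℕ) (y : V) : lev i c k y i = c / 100 ^ k := by
  simp [lev]

theorem lev_ne (i : Fin 4) (c : ℤ) (k : ℕ) (y : V) {j : Fin 4} (h : j ≠ i) :
    lev i c k y j = y j := by
  simp [lev, h]

theorem lev_self (i : Fin 4) (c : ℤ) (k : ℕ) (y : V) (h : y i = c / 100 ^ k) : lev i c k y = y := by
  funext j
  by_cases hj : j = i
  · subst hj; rw [lev_same, h]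
  · rw [lev_ne _ _ _ _ hj]

theorem par_lev (i : Fin 4) (c : ℤ) (k : ℕ) (y : V) :
    par (lev i c k y) = lev i c (k + 1) (par y) := by
  funext j
  by_cases hj : j = i
  · subst hj
    rw [par_apply, lev_same, lev_same, pow_succ, Int.ediv_ediv_of_nonneg (by positivity)]
  · rw [par_apply, lev_ne _ _ _ _ hj, lev_ne _ _ _ _ hj, par_apply]

theorem sh_true (κ : V → Fin 4 → ℤ) (x : V) (i : Fin 4) : sh κ x i true = κ x i := rfl

theorem sh_false (κ : V → Fin 4 → ℤ) (x : V) (i : Fin 4) : sh κ x i false = - κ (x - e i) i := rfl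

end Pool.LPG
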