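import Pool.Agent.LP.GBas

/-!
# LP, part III: connectivity of box minus box inside a slice

Proof.  Call an axis `l` free for `z` if `z l < c l` or `d l ≤ z l`; `z ∉ Box c d` iff some axis is
free.  Moving one coordinate of `T` step by step towards its target keeps the point in `Box a b`
(convexity) and off `Box c d` as long as some other axis is free.  (1) If an axis `l ∉ T` is free
for `x` (hence for `y`), move the coordinates of `T` one after the other from `x` to `y`.
(2) Otherwise `x` has a free axis `j ∈ T`: move all other coordinates of `T` to `p` (axis `j` stays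
free), then, since `T` has a second axis `j'` which is now at `p j'`, hence free, move coordinate
`j` to `p j`.  So `x` is joined to `q := (p on T, x off T)`, and so is `y`.  As `hstep` is only a
one-way implication for `P`, but the step relation is symmetric, prove the statement for the
relation `Relation.ReflTransGen` (symmetric) first, or prove `P x → P q` and `P q → P y` by the
same lemma (a chain from `x` to `q` reversed is again a chain).
-/

set_option autoImplicit false

namespace Pool.LPG

/-- one step inside the slice of `x`, inside `Box a b` and outside `Box c d` -/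
def gco_R (T : Finset (Fin 4)) (a b c d x : V) (z z' : V) : Prop :=
  z ∈ Box a b ∧ z ∉ Box c d ∧ z' ∈ Box a b ∧ z' ∉ Box c d ∧
    (∀ l, l ∉ T → z l = x l) ∧ ∃ j ∈ T, ∃ s, z' = z + uv j s

theorem gco_not_box {c d z : V} {l : Fin 4} (h : z l < c l ∨ d l ≤ z l) : z ∉ Box c d := by
  intro hz
  have h1 := hz l
  omega

theorem gco_free {c d z : V} (h : z ∉ Box c d) : ∃ l, z l < c l ∨ d l ≤ z l := by
  by_contra hc
  apply h
  intro l
  by_contra hl
  apply hc
  refine ⟨l, ?_⟩
  by_contra h2
  apply hl
  omega

theorem gco_symm (T : Finset (Fin 4)) (a b c d x : V) {z z' : V}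
    (h : gco_R T a b c d x z z') : gco_R T a b c d x z' z := by
  obtain ⟨h1, h2, h3, h4, h5, j, hj, s, h6⟩ := h
  refine ⟨h3, h4, h1, h2, ?_, j, hj, !s, ?_⟩
  · intro l hl
    have hne : l ≠ j := fun he => hl (he ▸ hj)
    rw [h6]
    simp only [Pi.add_apply]
    rw [uv_ne s hne, h5 l hl]
    ring
  · funext l
    rw [h6]
    simp only [Pi.add_apply]
    by_cases hl : l = j
    · subst hl
      rw [uv_same, uv_same]
      cases s <;> simp [sg]
    · rw [uv_ne _ hl, uv_ne _ hl]
      ring

theorem gco_symm_star (T : Finset (Fin 4)) (a b c d x : V) {z z' : V}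
    (h : Relation.ReflTransGen (gco_R T a b c d x) z z') :
    Relation.ReflTransGen (gco_R T a b c d x) z' z := by
  induction h with
  | refl => exact Relation.ReflTransGen.refl
  | tail _ h2 ih => exact Relation.ReflTransGen.head (gco_symm T a b c d x h2) ih

/-- move one coordinate `j ∈ T` to a value `t` while another axis is free -/
theorem gco_move (T : Finset (Fin 4)) (a b c d x : V) (j : Fin 4) (hj : j ∈ T) (l0 : Fin 4)
    (hl0 : l0 ≠ j) (t : ℤ) (ht : a j ≤ t ∧ t < b j) :
    ∀ (n : ℕ) (z : V), (t - z j).natAbs = n → z ∈ Box a b → (z l0 < c l0 ∨ d l0 ≤ z l0) →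
      (∀ l, l ∉ T → z l = x l) →
      Relation.ReflTransGen (gco_R T a b c d x) z (Function.update z j t) := by
  intro n
  induction n with
  | zero =>
    intro z hn _ _ _
    have h0 : t = z j := by omega
    rw [h0, Function.update_eq_self]
  | succ n ih =>
    intro z hn hz hf hx
    obtain ⟨s, hs⟩ : ∃ s : Bool, (t - (z j + sg s)).natAbs = n ∧ a j ≤ z j + sg s ∧
        z j + sg s < b j := by
      have hzj := hz j
      rcases lt_or_ge (z j) t with h | h
      · refine ⟨true, ?_⟩
        rw [sg_true]
        omega
      · refine ⟨false, ?_⟩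
        rw [sg_false]
        omega
    obtain ⟨hs1, hs2, hs3⟩ := hs
    have hj1 : (z + uv j s) j = z j + sg s := by
      simp only [Pi.add_apply]
      rw [uv_same]
    have hne : ∀ l, l ≠ j → (z + uv j s) l = z l := by
      intro l hl
      simp only [Pi.add_apply]
      rw [uv_ne s hl]
      ring
    have hz' : z + uv j s ∈ Box a b := by
      intro l
      by_cases hl : l = j
      · subst hl
        rw [hj1]
        exact ⟨hs2, hs3⟩
      · rw [hne l hl]
        exact hz l
    have hf' : (z + uv j s) l0 < c l0 ∨ d l0 ≤ (z + uv j s) l0 := by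
      rw [hne l0 hl0]
      exact hf
    have hx' : ∀ l, l ∉ T → (z + uv j s) l = x l := by
      intro l hl
      have hlj : l ≠ j := fun he => hl (he ▸ hj)
      rw [hne l hlj]
      exact hx l hl
    have h1 := ih (z + uv j s) (by rw [hj1]; exact hs1) hz' hf' hx'
    have h2 : Function.update (z + uv j s) j t = Function.update z j t := by
      funext l
      by_cases hl : l = j
      · subst hl
        simp
      · rw [Function.update_of_ne hl, Function.update_of_ne hl]
        exact hne l hl
    rw [h2] at h1
    exact Relation.ReflTransGen.head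
      ⟨hz, gco_not_box hf, hz', gco_not_box hf', hx, j, hj, s, rfl⟩ h1

/-- move the coordinates of `U ⊆ T` to those of `w` while an axis outside `U` is free -/
theorem gco_moves (T : Finset (Fin 4)) (a b c d x w : V) (l0 : Fin 4) (U : Finset (Fin 4)) :
    U ⊆ T → l0 ∉ U → (∀ l ∈ U, a l ≤ w l ∧ w l < b l) → ∀ z : V, z ∈ Box a b →
      (z l0 < c l0 ∨ d l0 ≤ z l0) → (∀ l, l ∉ T → z l = x l) →
      Relation.ReflTransGen (gco_R T a b c d x) z (fun l => if l ∈ U then w l else z l) := by
  induction U using Finset.induction_on with
  | empty =>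
    intro _ _ _ z _ _ _
    simp only [Finset.notMem_empty, if_false]
    exact Relation.ReflTransGen.refl
  | insert j U hjU ih =>
    intro hUT hl0 hw z hz hf hx
    have hjT : j ∈ T := hUT (Finset.mem_insert_self j U)
    have hl0j : l0 ≠ j := fun he => hl0 (he ▸ Finset.mem_insert_self j U)
    have hl0U : l0 ∉ U := fun h => hl0 (Finset.mem_insert_of_mem h)
    have h1 := ih (fun l hl => hUT (Finset.mem_insert_of_mem hl)) hl0U
      (fun l hl => hw l (Finset.mem_insert_of_mem hl)) z hz hf hx
    have h2 := gco_move T a b c d x j hjT l0 hl0j (w j) (hw j (Finset.mem_insert_self j U)) _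
      (fun l => if l ∈ U then w l else z l) rfl
      (by
        intro l
        by_cases hl : l ∈ U
        · simp only [hl, if_true]
          exact hw l (Finset.mem_insert_of_mem hl)
        · simp only [hl, if_false]
          exact hz l)
      (by
        simp only [hl0U, if_false]
        exact hf)
      (by
        intro l hl
        have hlU : l ∉ U := fun h => hl (hUT (Finset.mem_insert_of_mem h))
        simp only [hlU, if_false]
        exact hx l hl)
    have h3 : Function.update (fun l => if l ∈ U then w l else z l) j (w j) =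
        (fun l => if l ∈ insert j U then w l else z l) := by
      funext l
      by_cases hl : l = j
      · subst hl
        simp
      · rw [Function.update_of_ne hl]
        simp only [Finset.mem_insert, hl, false_or]
    rw [h3] at h2
    exact h1.trans h2

/-- every point of the slice is joined to the point with the coordinates `p` on `T` -/
theorem gco_toq (T : Finset (Fin 4)) (hT : 2 ≤ T.card) (a b c d p x : V)
    (hp : ∀ j ∈ T, a j ≤ p j ∧ p j < b j ∧ (p j < c j ∨ d j ≤ p j))
    (z : V) (hz : z ∈ Box a b) (hzS : z ∉ Box c d) (hzx : ∀ l, l ∉ T → z l = x l) :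
    Relation.ReflTransGen (gco_R T a b c d x) z (fun l => if l ∈ T then p l else x l) := by
  obtain ⟨l0, hl0⟩ := gco_free hzS
  by_cases hl0T : l0 ∈ T
  · have h1 := gco_moves T a b c d x p l0 (T.erase l0) (Finset.erase_subset l0 T)
      (Finset.notMem_erase l0 T)
      (fun l hl => ⟨(hp l (Finset.mem_of_mem_erase hl)).1, (hp l (Finset.mem_of_mem_erase hl)).2.1⟩)
      z hz hl0 hzx
    obtain ⟨j', hj', hne⟩ : ∃ j' ∈ T, j' ≠ l0 :=
      Finset.exists_mem_ne (by omega) l0
    have hj'e : j' ∈ T.erase l0 := Finset.mem_erase.2 ⟨hne, hj'⟩
    have h2 := gco_move T a b c d x l0 hl0T j' hne (p l0) ⟨(hp l0 hl0T).1, (hp l0 hl0T).2.1⟩ _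
      (fun l => if l ∈ T.erase l0 then p l else z l) rfl
      (by
        intro l
        by_cases hl : l ∈ T.erase l0
        · simp only [hl, if_true]
          exact ⟨(hp l (Finset.mem_of_mem_erase hl)).1, (hp l (Finset.mem_of_mem_erase hl)).2.1⟩
        · simp only [hl, if_false]
          exact hz l)
      (by
        simp only [hj'e, if_true]
        exact (hp j' hj').2.2)
      (by
        intro l hl
        have hlU : l ∉ T.erase l0 := fun h => hl (Finset.mem_of_mem_erase h)
        simp only [hlU, if_false]
        exact hzx l hl)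
    have h3 : Function.update (fun l => if l ∈ T.erase l0 then p l else z l) l0 (p l0) =
        (fun l => if l ∈ T then p l else x l) := by
      funext l
      by_cases hl : l = l0
      · subst hl
        simp [hl0T]
      · rw [Function.update_of_ne hl]
        by_cases hlT : l ∈ T
        · have hle : l ∈ T.erase l0 := Finset.mem_erase.2 ⟨hl, hlT⟩
          simp only [hle, hlT, if_true]
        · have hle : l ∉ T.erase l0 := fun h => hlT (Finset.mem_of_mem_erase h)
          simp only [hle, hlT, if_false]
          exact hzx l hlT
    rw [h3] at h2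
    exact h1.trans h2
  · have h1 := gco_moves T a b c d x p l0 T (Finset.Subset.refl T) hl0T
      (fun l hl => ⟨(hp l hl).1, (hp l hl).2.1⟩) z hz hl0 hzx
    have h3 : (fun l => if l ∈ T then p l else z l) = (fun l => if l ∈ T then p l else x l) := by
      funext l
      by_cases hlT : l ∈ T
      · simp only [hlT, if_true]
      · simp only [hlT, if_false]
        exact hzx l hlT
    rw [h3] at h1
    exact h1

/-- `Box a b \ Box c d` restricted to a coordinate slice with at least two free axes `T` is
connected, provided in each free axis the box `Box a b` has room outside `Box c d`. -/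
theorem co (T : Finset (Fin 4)) (hT : 2 ≤ T.card) (a b c d p : V)
    (hp : ∀ j ∈ T, a j ≤ p j ∧ p j < b j ∧ (p j < c j ∨ d j ≤ p j))
    (x y : V) (hx : x ∈ Box a b) (hxS : x ∉ Box c d) (hy : y ∈ Box a b) (hyS : y ∉ Box c d)
    (hxy : ∀ l, l ∉ T → x l = y l) (P : V → Prop)
    (hstep : ∀ z z', z ∈ Box a b → z ∉ Box c d → z' ∈ Box a b → z' ∉ Box c d →
      (∀ l, l ∉ T → z l = x l) → (∃ j ∈ T, ∃ s, z' = z + uv j s) → P z → P z')
    (hPx : P x) : P y := by
  have h1 := gco_toq T hT a b c d p x hp x hx hxS (fun _ _ => rfl)
  have h2 := gco_toq T hT a b c d p x hp y hy hyS (fun l hl => (hxy l hl).symm)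
  have h3 := h1.trans (gco_symm_star T a b c d x h2)
  have h4 : ∀ w, Relation.ReflTransGen (gco_R T a b c d x) x w → P w := by
    intro w hw
    induction hw with
    | refl => exact hPx
    | tail _ hs ih =>
      obtain ⟨g1, g2, g3, g4, g5, g6⟩ := hs
      exact hstep _ _ g1 g2 g3 g4 g5 g6 ih
  exact h4 y h3

end Pool.LPG
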