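import Pool.Agent.LP.GExi
import Pool.Agent.LP.GCo

/-!
# LP, part III (used in part IV): the sound vertices of a slice of a sound cell are connected

Proof by induction on `k`: `k = 0`: `x = y = x'`.  `k+1`: the sound subcells of `Y` at height
`c / 100^k` are the subcells off the spot; they are connected by lateral steps (`co` with
`T = univ.erase i`, `spot_box`, `spot_avoid`); inside a subcell use the induction hypothesis, from
one subcell to an adjacent one `exiAdj` (note that the property carried along is
`all sound vertices of the subcell in the slice satisfy P`).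
-/

set_option autoImplicit false

namespace Pool.LPG

theorem gconn_cell (Y y : V) :
    y ∈ Box (fun l => 100 * Y l) (fun l => 100 * Y l + 100) ↔ par y = Y := by
  constructor
  · intro h
    exact gexi_par h
  · intro h l
    have := congrFun h l
    rw [par_apply] at this
    show 100 * Y l ≤ y l ∧ y l < 100 * Y l + 100
    omega

theorem conn_slice (X : Set V) (K : ℕ) (Top : Set V) (hTop : ∀ y ∈ Top, y ∉ Bad X K) (i : Fin 4)
    (c : ℤ) :
    ∀ k, k ≤ K → ∀ y : V, S X K Top k y → ∀ P : V → Prop,
      (∀ x x', anc k x = y → anc k x' = y → x i = c → x' i = c → S X K Top 0 x →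
        S X K Top 0 x' → (∃ j t, j ≠ i ∧ x' = x + uv j t) → P x → P x') →
      ∀ x x', anc k x = y → anc k x' = y → x i = c → x' i = c → S X K Top 0 x →
        S X K Top 0 x' → P x → P x' := by
  intro k
  induction k with
  | zero =>
    intro _ y _ P _ x x' hx hx' _ _ _ _ h
    rw [anc_zero] at hx hx'
    rw [hx', ← hx]
    exact h
  | succ k ih =>
    intro hk Y hY P hP x x' hx hx' hxc hxc' hxs hxs' hPx
    have hb : Y ∉ nextBad (Bad X k) := S_not_bad hTop hk hY
    obtain ⟨c', d', hcd, hl⟩ := spot_box hb
    -- soundness of the subcells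
    have hsub : ∀ z : V, par z = Y → (S X K Top k z ↔ z ∉ Box c' d') := by
      intro z hz
      rw [S_step X Top (by omega : k < K), hz, ← hcd]
      exact ⟨fun h => h.1, fun h => ⟨h, hY⟩⟩
    -- induction hypothesis inside a subcell
    have hin : ∀ z : V, par z = Y → z ∉ Box c' d' → ∀ v v', anc k v = z → anc k v' = z →
        v i = c → v' i = c → S X K Top 0 v → S X K Top 0 v' → P v → P v' := by
      intro z hz hzS
      apply ih (by omega) z ((hsub z hz).2 hzS) P
      intro v v' h1 h2 h3 h4 h5 h6 h7 h8
      exact hP v v' (by rw [anc_succ, h1, hz]) (by rw [anc_succ, h2, hz]) h3 h4 h5 h6 h7 h8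
    have hz1 : par (anc k x) = Y := by rw [← anc_succ, hx]
    have hz2 : par (anc k x') = Y := by rw [← anc_succ, hx']
    have hzs1 : anc k x ∉ Box c' d' := (hsub _ hz1).1 (S_anc0 X Top k (by omega) x hxs)
    have hzs2 : anc k x' ∉ Box c' d' := (hsub _ hz2).1 (S_anc0 X Top k (by omega) x' hxs')
    have hQ : ∀ v, anc k v = anc k x' → v i = c → S X K Top 0 v → P v := by
      refine co (Finset.univ.erase i) (by rw [Finset.card_erase_of_mem (Finset.mem_univ i)]; decide)
        (fun l => 100 * Y l) (fun l => 100 * Y l + 100) c' d'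
        (fun j => if 100 * Y j < c' j then 100 * Y j else 100 * Y j + 99) ?_ (anc k x) (anc k x')
        ((gconn_cell Y _).2 hz1) hzs1 ((gconn_cell Y _).2 hz2) hzs2 ?_
        (fun z => ∀ v, anc k v = z → v i = c → S X K Top 0 v → P v) ?_ ?_
      · intro j _
        have := hl j
        show 100 * Y j ≤ (if 100 * Y j < c' j then 100 * Y j else 100 * Y j + 99) ∧
          (if 100 * Y j < c' j then 100 * Y j else 100 * Y j + 99) < 100 * Y j + 100 ∧
          ((if 100 * Y j < c' j then 100 * Y j else 100 * Y j + 99) < c' j ∨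
            d' j ≤ (if 100 * Y j < c' j then 100 * Y j else 100 * Y j + 99))
        split_ifs with h1
        · exact ⟨le_rfl, by omega, Or.inl h1⟩
        · exact ⟨by omega, by omega, Or.inr (by omega)⟩
      · intro l hl'
        have : l = i := by
          by_contra hne
          exact hl' (Finset.mem_erase.2 ⟨hne, Finset.mem_univ l⟩)
        rw [this, anc_apply, anc_apply, hxc, hxc']
      · rintro z z' h1 h2 h3 h4 h5 ⟨j, hj, t, ht⟩ h6
        have hji : j ≠ i := Finset.ne_of_mem_erase hj
        have hpz := (gconn_cell Y z).1 h1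
        have hpz' := (gconn_cell Y z').1 h3
        have hzi : z i = c / 100 ^ k := by
          rw [h5 i (Finset.notMem_erase i _), anc_apply, hxc]
        obtain ⟨u, hu1, hu2, hu3, hu4, hu5⟩ := exiAdj X K Top hTop i c k (by omega) z j t hji hzi
          ((hsub z hpz).2 h2) (by rw [← ht]; exact (hsub z' hpz').2 h4)
        rw [← ht] at hu2
        have hui : (u + uv j t) i = c := by
          rw [Pi.add_apply, uv_ne _ hji.symm, add_zero, hu3]
        have hPu := h6 u hu1 hu3 hu4
        have hPu' : P (u + uv j t) :=
          hP u (u + uv j t) (by rw [anc_succ, hu1, hpz]) (by rw [anc_succ, hu2, hpz']) hu3 hui hu4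
            hu5 ⟨j, t, hji, rfl⟩ hPu
        intro v hv1 hv2 hv3
        exact hin z' hpz' h4 (u + uv j t) v hu2 hv1 hui hv2 hu5 hv3 hPu'
      · intro v hv1 hv2 hv3
        exact hin (anc k x) hz1 hzs1 x v rfl hv1 hxc hv2 hxs hv3 hPx
    exact hQ x' rfl hxc' hxs'

end Pool.LPG
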