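import Mathlib

/-!
# LP, part III (geometry): definitions

Base lattice `V = Z^4`.  Cells of level `k` are cubes of side `100^k`; the cell of the vertex `v`
is `anc k v`.  `Bad X k` are the bad cells of level `k`, `Spot B Y` the hull of the bad cells near
the cell `Y` of the next level, `S X K Top k y` soundness of a cell of level `k`.
-/

set_option autoImplicit false

namespace Pool.LPG

/-- base lattice -/
abbrev V := Fin 4 → ℤ

/-- sign -/
def sg (s : Bool) : ℤ := if s then 1 else -1

/-- signed unit vector -/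
def uv (i : Fin 4) (s : Bool) : V := Pi.single i (sg s)

/-- positive unit vector -/
def e (i : Fin 4) : V := Pi.single i 1

/-- half open box -/
def Box (a b : V) : Set V := {x | ∀ i, a i ≤ x i ∧ x i < b i}

/-- centred cube -/
def Cube (r : ℤ) : Set V := {x | ∀ i, -r ≤ x i ∧ x i < r}

/-- integer cochain on the edges `x → x + e i`, closed on all plaquettes inside `G` -/
def Cocyc (G : Set V) (κ : V → Fin 4 → ℤ) : Prop :=
  ∀ x i j, i ≠ j → x ∈ G → x + e i ∈ G → x + e j ∈ G → x + e i + e j ∈ G →
    κ x i + κ (x + e i) j = κ x j + κ (x + e j) i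

/-- value of the cochain along the step `x → x + uv i s` -/
def sh (κ : V → Fin 4 → ℤ) (x : V) (i : Fin 4) (s : Bool) : ℤ :=
  if s then κ x i else - κ (x - e i) i

/-- parent cell (next level) -/
def par (y : V) : V := fun i => y i / 100

/-- cell of level `k` containing the vertex `v` -/
def anc (k : ℕ) (v : V) : V := fun i => v i / 100 ^ k

/-- enlarged region (margin 16) of the cell `Y` of the next level -/
def Big (Y : V) : Set V := {y | ∀ i, 100 * Y i - 16 ≤ y i ∧ y i < 100 * Y i + 116}

/-- region with margin 1 of the cell `Y` of the next level -/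
def Near (Y : V) : Set V := {y | ∀ i, 100 * Y i - 1 ≤ y i ∧ y i < 100 * Y i + 101}

/-- bad cells of the next level: two bad cells at distance at least 8 in the enlarged region -/
def nextBad (B : Set V) : Set V :=
  {Y | ∃ y ∈ B, ∃ y' ∈ B, y ∈ Big Y ∧ y' ∈ Big Y ∧ ∃ i, y i + 8 ≤ y' i}

/-- bad cells of level `k` -/
def Bad (X : Set V) : ℕ → Set V
  | 0 => X
  | k + 1 => nextBad (Bad X k)

/-- hull of the bad cells in the enlarged region of `Y` -/
def Spot (B : Set V) (Y : V) : Set V :=
  {x | (∀ i, ∃ y ∈ B, y ∈ Big Y ∧ y i ≤ x i) ∧ (∀ i, ∃ y ∈ B, y ∈ Big Y ∧ x i ≤ y i)}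

/-- auxiliary recursion for soundness -/
def SndA (X : Set V) (K : ℕ) (Top : Set V) : ℕ → V → Prop
  | 0, y => y ∈ Top
  | n + 1, y => y ∉ Spot (Bad X (K - (n + 1))) (par y) ∧ SndA X K Top n (par y)

/-- the cell `y` of level `k` (`k ≤ K`) is sound: for `k ≤ j < K` its ancestor of level `j` is not
in the spot of the ancestor of level `j+1`, and the ancestor of level `K` is in `Top` -/
def S (X : Set V) (K : ℕ) (Top : Set V) (k : ℕ) (y : V) : Prop := SndA X K Top (K - k) y

/-- `F` is closed under two sound neighbours in different axes -/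
def Rule2 (X : Set V) (K : ℕ) (Top : Set V) (F : Set V) : Prop :=
  ∀ x j j' s s', j ≠ j' → S X K Top 0 x → S X K Top 0 (x + uv j s) → S X K Top 0 (x + uv j' s') →
    x + uv j s ∈ F → x + uv j' s' ∈ F → x ∈ F

/-- all sound vertices with coordinate `c` in axis `i` of the cell `y` of level `k` are in `F` -/
def SF (X : Set V) (K : ℕ) (Top : Set V) (F : Set V) (i : Fin 4) (c : ℤ) (k : ℕ) (y : V) : Prop :=
  ∀ v, anc k v = y → v i = c → S X K Top 0 v → v ∈ F

/-- the cell of level `k` at height `c` under or over `y` -/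
def lev (i : Fin 4) (c : ℤ) (k : ℕ) (y : V) : V := Function.update y i (c / 100 ^ k)

/-- no bad cell of level `j` near the origin, for all `j ≥ K0` -/
def GoodFrom (X : Set V) (K0 : ℕ) : Prop :=
  ∀ j, K0 ≤ j → ∀ y ∈ Cube (100 ^ (j + 4)), y ∉ Bad X j

/-- the height data produced by part II (for one configuration with finite `A`).
`C i s u`: closed flat wall between the inner site `u - uv i s` and the outer site `u`. -/
def HData (X : Set V) (L : ℤ) (C : Fin 4 → Bool → V → Prop) : Prop :=
  ∃ (κ : V → Fin 4 → ℤ) (Full Emp : V → ℤ → Prop) (M : ℤ),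
    Cocyc Xᶜ κ ∧
    (∀ z i, z ∉ Cube M → κ z i = 0) ∧
    (∀ z, z ∉ X → z ∉ Cube M → Full z 0 ∧ ¬ Full z 1) ∧
    (∀ z i j s t n, i ≠ j → z ∉ X → z + uv i s ∉ X → z + uv j t ∉ X →
      Full (z + uv i s) (n + 2 * sh κ z i s) → Full (z + uv j t) (n + 2 * sh κ z j t) →
        Full z n) ∧
    (∀ z i s n, z ∉ X → z + uv i s ∉ X → Full (z + uv i s) (n + 2 * sh κ z i s) →
        Full z n ∨ Emp z n) ∧
    (∀ z m, z ∈ Cube L → z ∉ X → Full z (2 * m) → Full z (2 * m + 1)) ∧
    (∀ z i s m, z ∉ X → z + uv i s ∉ X → Full z (2 * m + 1) →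
      Full (z + uv i s) (2 * (m + sh κ z i s)) → Emp (z + uv i s) (2 * (m + sh κ z i s) + 1) →
        C i s (z + uv i s))

end Pool.LPG
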