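import Pool.Agent.LP.GHull

/-!
# LP, part III: existence of sound vertices in sound cells

Proofs by induction on `k`, using `spot_avoid` (a coordinate value in an axis `≠ i` avoiding the
spots of the one or two or four cells of the upper level involved) and `S_step`; `par_lev`.
-/

set_option autoImplicit false

namespace Pool.LPG

theorem gexi_par {y Y : V} (h : ∀ l, 100 * Y l ≤ y l ∧ y l < 100 * Y l + 100) : par y = Y := by
  funext l
  rw [par_apply]
  have := h l
  omega

theorem gexi_div (c : ℤ) (k : ℕ) : c / 100 ^ (k + 1) = c / 100 ^ k / 100 := by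
  rw [pow_succ, Int.ediv_ediv_of_nonneg (by positivity)]

theorem gexi_ne1 : ∀ i : Fin 4, ∃ j : Fin 4, j ≠ i := by decide

theorem gexi_ne2 : ∀ i j : Fin 4, ∃ l : Fin 4, l ≠ i ∧ l ≠ j := by decide

/-- two-layer version: a sound cell `y` of level `k` meeting the slice `c`, with sound cell in the
slice `c - sg s`, contains a two-layer-sound vertex of the slice `c` -/
theorem exi2 (X : Set V) (K : ℕ) (Top : Set V) (hTop : ∀ y ∈ Top, y ∉ Bad X K) (i : Fin 4)
    (s : Bool) (c : ℤ) :
    ∀ k, k ≤ K → ∀ y : V, y i = c / 100 ^ k → S X K Top k y →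
      S X K Top k (lev i (c - sg s) k y) →
      ∃ u : V, anc k u = y ∧ u i = c ∧ S X K Top 0 u ∧ S X K Top 0 (u - uv i s) := by
  intro k
  induction k with
  | zero =>
    intro _ y hy h1 h2
    rw [pow_zero, Int.ediv_one] at hy
    refine ⟨y, anc_zero y, hy, h1, ?_⟩
    have : lev i (c - sg s) 0 y = y - uv i s := by
      funext l
      by_cases hl : l = i
      · subst hl
        rw [lev_same, pow_zero, Int.ediv_one, Pi.sub_apply, uv_same, hy]
      · rw [lev_ne _ _ _ _ hl, Pi.sub_apply, uv_ne _ hl, sub_zero]
    rw [this] at h2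
    exact h2
  | succ k ih =>
    intro hk Y hY h1 h2
    have hb1 : Y ∉ nextBad (Bad X k) := S_not_bad hTop hk h1
    have hb2 : lev i (c - sg s) (k + 1) Y ∉ nextBad (Bad X k) := S_not_bad hTop hk h2
    obtain ⟨j, hj⟩ := gexi_ne1 i
    obtain ⟨t, ht1, ht2, ht3⟩ := spot_avoid (Y := Y) hb1 hb2 hb1 hb2 j
    set y : V := fun l => if l = i then c / 100 ^ k else if l = j then t else 100 * Y l with hy
    have hyi : y i = c / 100 ^ k := by
      show (if i = i then _ else _) = _
      rw [if_pos rfl]
    have hyj : y j = t := by
      show (if j = i then _ else if j = j then t else _) = _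
      rw [if_neg hj, if_pos rfl]
    have hpar : par y = Y := by
      apply gexi_par
      intro l
      by_cases hl : l = i
      · subst hl
        rw [hyi, hY, gexi_div]
        omega
      · by_cases hl' : l = j
        · subst hl'
          rw [hyj]
          exact ⟨ht1, ht2⟩
        · have : y l = 100 * Y l := by
            show (if l = i then _ else if l = j then t else 100 * Y l) = _
            rw [if_neg hl, if_neg hl']
          rw [this]
          constructor <;> omega
    have hs1 : S X K Top k y := by
      rw [S_step X Top (by omega : k < K), hpar]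
      exact ⟨(ht3 y hyj).1, h1⟩
    have hs2 : S X K Top k (lev i (c - sg s) k y) := by
      rw [S_step X Top (by omega : k < K), par_lev, hpar]
      refine ⟨(ht3 _ ?_).2.1, h2⟩
      rw [lev_ne _ _ _ _ hj, hyj]
    obtain ⟨u, hu1, hu2, hu3, hu4⟩ := ih (by omega) y hyi hs1 hs2
    exact ⟨u, by rw [anc_succ, hu1, hpar], hu2, hu3, hu4⟩

theorem exi (X : Set V) (K : ℕ) (Top : Set V) (hTop : ∀ y ∈ Top, y ∉ Bad X K) :
    ∀ k, k ≤ K → ∀ y : V, S X K Top k y → ∃ u : V, anc k u = y ∧ S X K Top 0 u := by
  intro k
  induction k with
  | zero =>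
    intro _ y h1
    exact ⟨y, anc_zero y, h1⟩
  | succ k ih =>
    intro hk Y h1
    have hb1 : Y ∉ nextBad (Bad X k) := S_not_bad hTop hk h1
    obtain ⟨t, ht1, ht2, ht3⟩ := spot_avoid (Y := Y) hb1 hb1 hb1 hb1 0
    set y : V := fun l => if l = 0 then t else 100 * Y l with hy
    have hy0 : y 0 = t := by
      show (if (0 : Fin 4) = 0 then t else _) = _
      rw [if_pos rfl]
    have hpar : par y = Y := by
      apply gexi_par
      intro l
      by_cases hl : l = 0
      · subst hl
        rw [hy0]
        exact ⟨ht1, ht2⟩
      · have : y l = 100 * Y l := by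
          show (if l = 0 then t else 100 * Y l) = _
          rw [if_neg hl]
        rw [this]
        constructor <;> omega
    have hs1 : S X K Top k y := by
      rw [S_step X Top (by omega : k < K), hpar]
      exact ⟨(ht3 y hy0).1, h1⟩
    obtain ⟨u, hu1, hu2⟩ := ih (by omega) y hs1
    exact ⟨u, by rw [anc_succ, hu1, hpar], hu2⟩

/-- adjacent sound cells contain adjacent sound vertices in every common slice -/
theorem exiAdj (X : Set V) (K : ℕ) (Top : Set V) (hTop : ∀ y ∈ Top, y ∉ Bad X K) (i : Fin 4)
    (c : ℤ) :
    ∀ k, k ≤ K → ∀ (y : V) (j : Fin 4) (t : Bool), j ≠ i → y i = c / 100 ^ k → S X K Top k y →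
      S X K Top k (y + uv j t) →
      ∃ u : V, anc k u = y ∧ anc k (u + uv j t) = y + uv j t ∧ u i = c ∧ S X K Top 0 u ∧
        S X K Top 0 (u + uv j t) := by
  intro k
  induction k with
  | zero =>
    intro _ y j t _ hy h1 h2
    rw [pow_zero, Int.ediv_one] at hy
    exact ⟨y, anc_zero y, anc_zero _, hy, h1, h2⟩
  | succ k ih =>
    intro hk Y j t hj hY h1 h2
    have hb1 : Y ∉ nextBad (Bad X k) := S_not_bad hTop hk h1
    have hb2 : Y + uv j t ∉ nextBad (Bad X k) := S_not_bad hTop hk h2
    obtain ⟨l0, hl0i, hl0j⟩ := gexi_ne2 i j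
    obtain ⟨r, hr1, hr2, hr3⟩ := spot_avoid (Y := Y) hb1 hb2 hb1 hb2 l0
    set y : V := fun l => if l = i then c / 100 ^ k else if l = j then
      (if t = true then 100 * Y l + 99 else 100 * Y l) else if l = l0 then r else 100 * Y l with hy
    have hyi : y i = c / 100 ^ k := by
      show (if i = i then _ else _) = _
      rw [if_pos rfl]
    have hyj : y j = if t = true then 100 * Y j + 99 else 100 * Y j := by
      show (if j = i then _ else if j = j then
        (if t = true then 100 * Y j + 99 else 100 * Y j) else _) = _
      rw [if_neg hj, if_pos rfl]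
    have hyl : y l0 = r := by
      show (if l0 = i then _ else if l0 = j then _ else if l0 = l0 then r else _) = _
      rw [if_neg hl0i, if_neg hl0j, if_pos rfl]
    have hyo : ∀ l, l ≠ i → l ≠ j → l ≠ l0 → y l = 100 * Y l := by
      intro l ha hb hc
      show (if l = i then _ else if l = j then _ else if l = l0 then r else 100 * Y l) = _
      rw [if_neg ha, if_neg hb, if_neg hc]
    have hpar : par y = Y := by
      apply gexi_par
      intro l
      by_cases hl : l = i
      · subst hl
        rw [hyi, hY, gexi_div]
        omega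
      · by_cases hl' : l = j
        · subst hl'
          rw [hyj]
          split_ifs <;> constructor <;> omega
        · by_cases hl'' : l = l0
          · subst hl''
            rw [hyl]
            exact ⟨hr1, hr2⟩
          · rw [hyo l hl hl' hl'']
            constructor <;> omega
    have hpar2 : par (y + uv j t) = Y + uv j t := by
      funext l
      have h3 := congrFun hpar l
      rw [par_apply] at h3
      rw [par_apply, Pi.add_apply, Pi.add_apply]
      by_cases hl : l = j
      · subst hl
        rw [uv_same, hyj]
        cases t with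
        | true =>
          rw [sg_true, if_pos rfl]
          omega
        | false =>
          rw [sg_false, if_neg (by simp)]
          omega
      · rw [uv_ne _ hl, add_zero, add_zero]
        exact h3
    have hs1 : S X K Top k y := by
      rw [S_step X Top (by omega : k < K), hpar]
      exact ⟨(hr3 y hyl).1, h1⟩
    have hs2 : S X K Top k (y + uv j t) := by
      rw [S_step X Top (by omega : k < K), hpar2]
      refine ⟨(hr3 _ ?_).2.1, h2⟩
      rw [Pi.add_apply, uv_ne _ hl0j, add_zero, hyl]
    obtain ⟨u, hu1, hu2, hu3, hu4, hu5⟩ := ih (by omega) y j t hj hyi hs1 hs2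
    exact ⟨u, by rw [anc_succ, hu1, hpar], by rw [anc_succ, hu2, hpar2], hu3, hu4, hu5⟩

end Pool.LPG
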