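import Pool.Agent.LP.GMR

/-!
# LP, part III: growth of full boxes

`good_sound`: induction on `K1 - K`; `Big (par y) ⊆ Cube (100^(K+4))` contains no bad cell of level
`K`, so the spot is empty; `par y ∈ Cube (100^(K+3))`.
`grow`: for boxes `[a, b)` of cells of level `K` with `a j ≤ -100^K`, `100^K ≤ b j`, inside
`Cube (100^(K+2))`: if all sound vertices of the cells of the box are in `F` then the same holds for
the box enlarged by one layer of cells in the direction `(i, s)` (if still inside the cube).  Proof: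
treat the slices `c` of the layer one after the other, starting next to the box; the slice
`c - sg s` is full (over the face).  `hpatch` gives a two-layer-sound `u` in the slice `c` over
`[-100^(2K), 100^(2K))`, `u - uv i s ∈ F`, so `u ∈ F`; by `up` (level `K`) its cell is slice-full; by
`mr` (level `K`) all cells of the layer (connected by lateral steps) are slice-full.  All cells of
level `K` involved are sound by `good_sound`.  Then enlarge from `[-100^K, 100^K)` to
`[-100^(K+2), 100^(K+2))` axis by axis.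
-/

set_option autoImplicit false

namespace Pool.LPG

theorem ggrow_cube_mono {r r' : ℤ} (h : r ≤ r') {x : V} (hx : x ∈ Cube r) : x ∈ Cube r' := by
  intro i
  have := hx i
  constructor <;> linarith [this.1, this.2]

theorem ggrow_pow_mono {a b : ℕ} (h : a ≤ b) : (100 : ℤ) ^ a ≤ 100 ^ b :=
  pow_le_pow_right₀ (by norm_num) h

/-- all cells of level `K` in `Cube (100^(K+2))` are sound up to the top level `K1` -/
theorem good_sound (X : Set V) (K0 K K1 : ℕ) (h0 : K0 ≤ K) (h1 : K ≤ K1) (hG : GoodFrom X K0)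
    (y : V) (hy : y ∈ Cube (100 ^ (K + 2))) : S X K1 (Cube (100 ^ (K1 + 2))) K y := by
  obtain ⟨n, rfl⟩ : ∃ n, K1 = K + n := ⟨K1 - K, by omega⟩
  clear h1
  generalize hK1 : K + n = K1
  induction n generalizing K y with
  | zero =>
    have : K = K1 := by omega
    subst this
    rw [S_top]
    exact hy
  | succ n ih =>
    rw [S_step X _ (by omega : K < K1)]
    have hp4 : (100 : ℤ) ^ (K + 4) = 10000 * 100 ^ (K + 2) := by
      rw [show K + 4 = (K + 2) + 2 by omega, pow_add]; norm_num; ring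
    have hp3 : (100 : ℤ) ^ (K + 1 + 2) = 100 * 100 ^ (K + 2) := by
      rw [show K + 1 + 2 = (K + 2) + 1 by omega, pow_succ]; ring
    have hp1 : (1 : ℤ) ≤ 100 ^ (K + 2) := one_le_pow₀ (by norm_num)
    constructor
    · rintro ⟨h1, -⟩
      obtain ⟨y', hb, hbig, -⟩ := h1 0
      refine hG K h0 y' ?_ hb
      intro i
      have a1 := hbig i
      have a2 := hy i
      simp only [par] at a1
      have b1 := Int.mul_ediv_add_emod (y i) 100
      have b2 := Int.emod_nonneg (y i) (by norm_num : (100 : ℤ) ≠ 0)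
      have b3 := Int.emod_lt_of_pos (y i) (by norm_num : (0 : ℤ) < 100)
      rw [hp4]
      generalize (100 : ℤ) ^ (K + 2) = M at *
      constructor <;> omega
    · refine ih (K + 1) (by omega) (par y) ?_ (by omega)
      intro i
      have a2 := hy i
      simp only [par]
      rw [hp3]
      generalize (100 : ℤ) ^ (K + 2) = M at *
      constructor <;> omega

theorem ggrow_conn (i : Fin 4) (A : V) (y0 : V) (h0 : ∀ j, j ≠ i → -A j ≤ y0 j ∧ y0 j < A j)
    (Q : V → Prop) (hQ0 : Q y0)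
    (hQ : ∀ y : V, y i = y0 i → (∀ j, j ≠ i → -A j ≤ y j ∧ y j < A j) → ∀ (j : Fin 4) (t : Bool),
      j ≠ i → (∀ l, l ≠ i → -A l ≤ (y + uv j t) l ∧ (y + uv j t) l < A l) →
      Q (y + uv j t) → Q y) :
    ∀ (n : ℕ) (y : V), y i = y0 i → (∀ j, j ≠ i → -A j ≤ y j ∧ y j < A j) →
      ∑ j, (y j - y0 j).natAbs = n → Q y := by
  intro n
  induction n with
  | zero =>
    intro y _ _ hs
    have : y = y0 := by
      funext j
      have := (Finset.sum_eq_zero_iff.1 hs) j (Finset.mem_univ j)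
      omega
    rw [this]
    exact hQ0
  | succ n ih =>
    intro y hyi hy hs
    obtain ⟨j, hj⟩ : ∃ j, y j ≠ y0 j := by
      by_contra hcon
      push Not at hcon
      have : ∑ j, (y j - y0 j).natAbs = 0 := by
        apply Finset.sum_eq_zero
        intro j _
        rw [hcon j]
        simp
      omega
    have hji : j ≠ i := by
      rintro rfl
      exact hj hyi
    set t : Bool := decide (y j < y0 j) with ht
    have hz : ∀ l, l ≠ j → (y + uv j t) l = y l := by
      intro l hl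
      rw [Pi.add_apply, uv_ne t hl, add_zero]
    have hzj : (y + uv j t) j = y j + sg t := by
      rw [Pi.add_apply, uv_same]
    have hcase : (sg t = 1 ∧ y j < y0 j) ∨ (sg t = -1 ∧ y0 j < y j) := by
      by_cases h : y j < y0 j
      · left
        simp [ht, h, sg]
      · right
        have : y0 j < y j := by omega
        simp [ht, h, sg, this]
    have hbox : ∀ l, l ≠ i → -A l ≤ (y + uv j t) l ∧ (y + uv j t) l < A l := by
      intro l hl
      by_cases hlj : l = j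
      · subst hlj
        rw [hzj]
        have a1 := hy l hl
        have a2 := h0 l hl
        rcases hcase with h | h <;> rw [h.1] <;> omega
      · rw [hz l hlj]
        exact hy l hl
    refine hQ y hyi hy j t hji hbox ?_
    refine ih (y + uv j t) ?_ hbox ?_
    · rw [hz i (Ne.symm hji)]
      exact hyi
    · have e1 : ∑ l, (y l - y0 l).natAbs =
          (y j - y0 j).natAbs + ∑ l ∈ Finset.univ.erase j, (y l - y0 l).natAbs :=
        (Finset.add_sum_erase _ _ (Finset.mem_univ j)).symm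
      have e2 : ∑ l, ((y + uv j t) l - y0 l).natAbs =
          ((y + uv j t) j - y0 j).natAbs +
            ∑ l ∈ Finset.univ.erase j, ((y + uv j t) l - y0 l).natAbs :=
        (Finset.add_sum_erase _ _ (Finset.mem_univ j)).symm
      have e3 : ∑ l ∈ Finset.univ.erase j, ((y + uv j t) l - y0 l).natAbs =
          ∑ l ∈ Finset.univ.erase j, (y l - y0 l).natAbs := by
        apply Finset.sum_congr rfl
        intro l hl
        rw [hz l (Finset.ne_of_mem_erase hl)]
      rw [e2, e3, hzj]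
      rw [e1] at hs
      rcases hcase with h | h <;> rw [h.1] <;> omega

theorem ggrow_div_mem {L A x : ℤ} (hL : 0 < L) : (-A ≤ x / L ∧ x / L < A) ↔
    (-(A * L) ≤ x ∧ x < A * L) := by
  rw [Int.le_ediv_iff_mul_le hL, Int.ediv_lt_iff_lt_mul hL]
  constructor
  · rintro ⟨h1, h2⟩
    exact ⟨by linarith, h2⟩
  · rintro ⟨h1, h2⟩
    exact ⟨by linarith, h2⟩

/-- one slice -/
theorem ggrow_slice (X : Set V) (K0 K K1 : ℕ) (h0 : K0 ≤ K) (h1 : K ≤ K1) (hG : GoodFrom X K0)
    (F : Set V) (hF : Rule2 X K1 (Cube (100 ^ (K1 + 2))) F) (i : Fin 4) (s : Bool) (A : V)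
    (hA : ∀ j, 100 ^ K ≤ A j ∧ A j ≤ 100 ^ (K + 2)) (c : ℤ)
    (hc : -(100 ^ (K + 2) * 100 ^ K) ≤ c ∧ c < 100 ^ (K + 2) * 100 ^ K)
    (hc' : -(100 ^ (K + 2) * 100 ^ K) ≤ c - sg s ∧ c - sg s < 100 ^ (K + 2) * 100 ^ K)
    (hp : ∃ u : V, u i = c ∧ (∀ j, j ≠ i → -(100 ^ K * 100 ^ K) ≤ u j ∧ u j < 100 ^ K * 100 ^ K) ∧
        S X K1 (Cube (100 ^ (K1 + 2))) 0 u ∧ S X K1 (Cube (100 ^ (K1 + 2))) 0 (u - uv i s) ∧
        (u - uv i s ∈ F → u ∈ F))
    (hlow : ∀ v, S X K1 (Cube (100 ^ (K1 + 2))) 0 v → v i = c - sg s →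
      (∀ j, j ≠ i → -(A j * 100 ^ K) ≤ v j ∧ v j < A j * 100 ^ K) → v ∈ F) :
    ∀ v, S X K1 (Cube (100 ^ (K1 + 2))) 0 v → v i = c →
      (∀ j, j ≠ i → -(A j * 100 ^ K) ≤ v j ∧ v j < A j * 100 ^ K) → v ∈ F := by
  have hL : (0 : ℤ) < 100 ^ K := by positivity
  have hTop : ∀ y ∈ Cube (100 ^ (K1 + 2)), y ∉ Bad X K1 := by
    intro y hy
    refine hG K1 (le_trans h0 h1) y ?_
    exact ggrow_cube_mono (ggrow_pow_mono (by omega)) hy
  have hsound : ∀ y : V, y i = c / 100 ^ K → (∀ j, j ≠ i → -A j ≤ y j ∧ y j < A j) →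
      S X K1 (Cube (100 ^ (K1 + 2))) K y := by
    intro y hyi hy
    apply good_sound X K0 K K1 h0 h1 hG
    intro j
    by_cases hj : j = i
    · subst hj
      rw [hyi]
      exact (ggrow_div_mem hL).2 hc
    · have a1 := hy j hj
      have a2 := hA j
      constructor <;> linarith [a1.1, a1.2, a2.2]
  have hsound' : ∀ y : V, (∀ j, j ≠ i → -A j ≤ y j ∧ y j < A j) →
      S X K1 (Cube (100 ^ (K1 + 2))) K (lev i (c - sg s) K y) := by
    intro y hy
    apply good_sound X K0 K K1 h0 h1 hG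
    intro j
    by_cases hj : j = i
    · subst hj
      rw [lev_same]
      exact (ggrow_div_mem hL).2 hc'
    · rw [lev_ne _ _ _ _ hj]
      have a1 := hy j hj
      have a2 := hA j
      constructor <;> linarith [a1.1, a1.2, a2.2]
  have hSF' : ∀ y : V, (∀ j, j ≠ i → -A j ≤ y j ∧ y j < A j) →
      SF X K1 (Cube (100 ^ (K1 + 2))) F i (c - sg s) K (lev i (c - sg s) K y) := by
    intro y hy v hv hvi hvS
    refine hlow v hvS hvi ?_
    intro j hj
    rw [← ggrow_div_mem hL, ← anc_apply, hv, lev_ne _ _ _ _ hj]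
    exact hy j hj
  obtain ⟨u, hui, hu, huS, huS', huF⟩ := hp
  have huA : ∀ j, j ≠ i → -(A j * 100 ^ K) ≤ u j ∧ u j < A j * 100 ^ K := by
    intro j hj
    have a1 := hu j hj
    have a2 := mul_le_mul_of_nonneg_right (hA j).1 hL.le
    constructor <;> linarith [a1.1, a1.2]
  have huc : ∀ j, j ≠ i → -A j ≤ anc K u j ∧ anc K u j < A j := by
    intro j hj
    rw [anc_apply]
    exact (ggrow_div_mem hL).2 (huA j hj)
  have huF' : u ∈ F := by
    apply huF
    refine hlow _ huS' ?_ ?_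
    · rw [Pi.sub_apply, uv_same, hui]
    · intro j hj
      rw [Pi.sub_apply, uv_ne s hj, sub_zero]
      exact huA j hj
  have hup : SF X K1 (Cube (100 ^ (K1 + 2))) F i c K (anc K u) :=
    up X K1 _ hTop F hF i s c K h1 (anc K u) u rfl hui huS huS' (hSF' _ huc) huF'
  have hci : anc K u i = c / 100 ^ K := by rw [anc_apply, hui]
  intro v hvS hvi hv
  have hvc : ∀ j, j ≠ i → -A j ≤ anc K v j ∧ anc K v j < A j := by
    intro j hj
    rw [anc_apply]
    exact (ggrow_div_mem hL).2 (hv j hj)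
  have key : SF X K1 (Cube (100 ^ (K1 + 2))) F i c K (anc K v) := by
    refine ggrow_conn i A (anc K u) huc
      (fun y => SF X K1 (Cube (100 ^ (K1 + 2))) F i c K y) hup ?_ _ (anc K v) ?_ hvc rfl
    · intro y hyi hy j t hj hz hQ
      refine mr X K1 _ hTop F hF i s c K h1 y (by rw [hyi, hci]) (hsound y (by rw [hyi, hci]) hy)
        (hsound' y hy) (hSF' y hy) j t hj (hsound _ ?_ hz) hQ
      rw [Pi.add_apply, uv_ne t (Ne.symm hj), add_zero, hyi, hci]
    · rw [hci, anc_apply, hvi]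
  exact key v rfl hvi hvS

/-- one axis -/
theorem ggrow_axis (X : Set V) (K0 K K1 : ℕ) (h0 : K0 ≤ K) (h1 : K ≤ K1) (hG : GoodFrom X K0)
    (F : Set V) (hF : Rule2 X K1 (Cube (100 ^ (K1 + 2))) F) (i : Fin 4) (A : V)
    (hA : ∀ j, 100 ^ K ≤ A j ∧ A j ≤ 100 ^ (K + 2))
    (hp : ∀ (s : Bool) (c : ℤ), -(100 ^ (K + 2) * 100 ^ K) ≤ c → c < 100 ^ (K + 2) * 100 ^ K →
      (s = true → 100 ^ K * 100 ^ K ≤ c) → (s = false → c < -(100 ^ K * 100 ^ K)) →
      ∃ u : V, u i = c ∧ (∀ j, j ≠ i → -(100 ^ K * 100 ^ K) ≤ u j ∧ u j < 100 ^ K * 100 ^ K) ∧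
        S X K1 (Cube (100 ^ (K1 + 2))) 0 u ∧ S X K1 (Cube (100 ^ (K1 + 2))) 0 (u - uv i s) ∧
        (u - uv i s ∈ F → u ∈ F))
    (hin : ∀ v, S X K1 (Cube (100 ^ (K1 + 2))) 0 v →
      (∀ j, -(A j * 100 ^ K) ≤ v j ∧ v j < A j * 100 ^ K) → v ∈ F) :
    ∀ v, S X K1 (Cube (100 ^ (K1 + 2))) 0 v →
      (∀ j, -((Function.update A i (100 ^ (K + 2))) j * 100 ^ K) ≤ v j ∧
        v j < (Function.update A i (100 ^ (K + 2))) j * 100 ^ K) → v ∈ F := by
  have hL : (0 : ℤ) < 100 ^ K := by positivity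
  have hL1 : (1 : ℤ) ≤ 100 ^ K := hL
  have hLL : (0 : ℤ) < 100 ^ K * 100 ^ K := by positivity
  have hbig : (100 : ℤ) ^ K * 100 ^ K ≤ 100 ^ (K + 2) * 100 ^ K :=
    mul_le_mul_of_nonneg_right (ggrow_pow_mono (by omega)) hL.le
  have hAi : (100 : ℤ) ^ K * 100 ^ K ≤ A i * 100 ^ K :=
    mul_le_mul_of_nonneg_right (hA i).1 hL.le
  -- inner slices
  have hinner : ∀ c : ℤ, -(100 ^ K * 100 ^ K) ≤ c → c < 100 ^ K * 100 ^ K →
      ∀ v, S X K1 (Cube (100 ^ (K1 + 2))) 0 v → v i = c →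
        (∀ j, j ≠ i → -(A j * 100 ^ K) ≤ v j ∧ v j < A j * 100 ^ K) → v ∈ F := by
    intro c hc1 hc2 v hvS hvi hv
    apply hin v hvS
    intro j
    by_cases hj : j = i
    · subst hj
      rw [hvi]
      constructor <;> linarith
    · exact hv j hj
  have hup : ∀ n : ℕ, (100 : ℤ) ^ K * 100 ^ K - 1 + n < 100 ^ (K + 2) * 100 ^ K →
      ∀ v, S X K1 (Cube (100 ^ (K1 + 2))) 0 v → v i = (100 : ℤ) ^ K * 100 ^ K - 1 + n →
        (∀ j, j ≠ i → -(A j * 100 ^ K) ≤ v j ∧ v j < A j * 100 ^ K) → v ∈ F := by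
    intro n
    induction n with
    | zero =>
      intro _
      apply hinner
      · push_cast
        linarith
      · push_cast
        linarith
    | succ n ih =>
      intro hn
      push_cast at hn
      have hn0 : (0 : ℤ) ≤ n := Int.natCast_nonneg n
      have e : (100 : ℤ) ^ K * 100 ^ K - 1 + ((n + 1 : ℕ) : ℤ) - sg true =
          100 ^ K * 100 ^ K - 1 + n := by
        rw [sg_true]; push_cast; ring
      have ih' := ih (by linarith)
      rw [← e] at ih'
      have e2 : (100 : ℤ) ^ K * 100 ^ K - 1 + ((n + 1 : ℕ) : ℤ) = 100 ^ K * 100 ^ K + n := by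
        push_cast; ring
      refine ggrow_slice X K0 K K1 h0 h1 hG F hF i true A hA _ ?_ ?_ (hp true _ ?_ ?_ ?_ ?_) ih'
      · rw [e2]; constructor <;> linarith
      · rw [e]; constructor <;> linarith
      · rw [e2]; linarith
      · rw [e2]; linarith
      · intro _; rw [e2]; linarith
      · intro h; exact absurd h (by decide)
  have hdown : ∀ n : ℕ, -(100 ^ (K + 2) * 100 ^ K) ≤ -((100 : ℤ) ^ K * 100 ^ K) - n →
      ∀ v, S X K1 (Cube (100 ^ (K1 + 2))) 0 v → v i = -((100 : ℤ) ^ K * 100 ^ K) - n →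
        (∀ j, j ≠ i → -(A j * 100 ^ K) ≤ v j ∧ v j < A j * 100 ^ K) → v ∈ F := by
    intro n
    induction n with
    | zero =>
      intro _
      apply hinner
      · push_cast
        linarith
      · push_cast
        linarith
    | succ n ih =>
      intro hn
      push_cast at hn
      have hn0 : (0 : ℤ) ≤ n := Int.natCast_nonneg n
      have e : -((100 : ℤ) ^ K * 100 ^ K) - ((n + 1 : ℕ) : ℤ) - sg false =
          -((100 : ℤ) ^ K * 100 ^ K) - n := by
        rw [sg_false]; push_cast; ring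
      have ih' := ih (by linarith)
      rw [← e] at ih'
      have e2 : -((100 : ℤ) ^ K * 100 ^ K) - ((n + 1 : ℕ) : ℤ) =
          -((100 : ℤ) ^ K * 100 ^ K) - n - 1 := by
        push_cast; ring
      refine ggrow_slice X K0 K K1 h0 h1 hG F hF i false A hA _ ?_ ?_ (hp false _ ?_ ?_ ?_ ?_) ih'
      · rw [e2]; constructor <;> linarith
      · rw [e]; constructor <;> linarith
      · rw [e2]; linarith
      · rw [e2]; linarith
      · intro h; exact absurd h (by decide)
      · intro _; rw [e2]; linarith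
  intro v hvS hv
  have hvi := hv i
  rw [Function.update_self] at hvi
  have hvj : ∀ j, j ≠ i → -(A j * 100 ^ K) ≤ v j ∧ v j < A j * 100 ^ K := by
    intro j hj
    have := hv j
    rw [Function.update_of_ne hj] at this
    exact this
  rcases lt_or_ge (v i) (-(100 ^ K * 100 ^ K)) with h | h
  · obtain ⟨n, hn⟩ : ∃ n : ℕ, v i = -((100 : ℤ) ^ K * 100 ^ K) - n :=
      ⟨(-((100 : ℤ) ^ K * 100 ^ K) - v i).toNat, by
        rw [Int.toNat_of_nonneg (by linarith)]; ring⟩
    exact hdown n (by rw [← hn]; exact hvi.1) v hvS hn hvj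
  · obtain ⟨h2, h3⟩ | h2 : (v i < 100 ^ K * 100 ^ K - 1 ∧ True) ∨ 100 ^ K * 100 ^ K - 1 ≤ v i := by
      rcases lt_or_ge (v i) (100 ^ K * 100 ^ K - 1) with h | h
      · exact Or.inl ⟨h, trivial⟩
      · exact Or.inr h
    · exact hinner (v i) h (by linarith) v hvS rfl hvj
    · obtain ⟨n, hn⟩ : ∃ n : ℕ, v i = (100 : ℤ) ^ K * 100 ^ K - 1 + n :=
        ⟨(v i - ((100 : ℤ) ^ K * 100 ^ K - 1)).toNat, by
          rw [Int.toNat_of_nonneg (by linarith)]; ring⟩
      exact hup n (by rw [← hn]; exact hvi.2) v hvS hn hvj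

/-- If the sound vertices of `Cube (100^(2K))` are in `F` and every flat patch over a face contains
a two-layer-sound vertex at which `F` is passed on, then the sound vertices of
`Cube (100^(2K+2))` are in `F`. -/
theorem grow (X : Set V) (K0 K K1 : ℕ) (h0 : K0 ≤ K) (h1 : K ≤ K1) (hG : GoodFrom X K0)
    (F : Set V) (hF : Rule2 X K1 (Cube (100 ^ (K1 + 2))) F)
    (hin : ∀ x, S X K1 (Cube (100 ^ (K1 + 2))) 0 x → x ∈ Cube (100 ^ (2 * K)) → x ∈ F)
    (hpatch : ∀ (i : Fin 4) (s : Bool) (c : ℤ), -100 ^ (2 * K + 2) ≤ c → c < 100 ^ (2 * K + 2) →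
      (s = true → 100 ^ (2 * K) ≤ c) → (s = false → c < -100 ^ (2 * K)) →
      ∃ u : V, u i = c ∧ (∀ j, j ≠ i → -100 ^ (2 * K) ≤ u j ∧ u j < 100 ^ (2 * K)) ∧
        S X K1 (Cube (100 ^ (K1 + 2))) 0 u ∧ S X K1 (Cube (100 ^ (K1 + 2))) 0 (u - uv i s) ∧
        (u - uv i s ∈ F → u ∈ F)) :
    ∀ x, S X K1 (Cube (100 ^ (K1 + 2))) 0 x → x ∈ Cube (100 ^ (2 * K + 2)) → x ∈ F := by
  have q1 : (100 : ℤ) ^ (2 * K) = 100 ^ K * 100 ^ K := by
    rw [two_mul, pow_add]
  have q2 : (100 : ℤ) ^ (2 * K + 2) = 100 ^ (K + 2) * 100 ^ K := by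
    rw [← pow_add]; congr 1; omega
  simp only [q1, q2] at hin hpatch ⊢
  have hK : (100 : ℤ) ^ K ≤ 100 ^ (K + 2) := ggrow_pow_mono (by omega)
  have hp : ∀ (i : Fin 4) (s : Bool) (c : ℤ), -(100 ^ (K + 2) * 100 ^ K) ≤ c →
      c < 100 ^ (K + 2) * 100 ^ K →
      (s = true → 100 ^ K * 100 ^ K ≤ c) → (s = false → c < -(100 ^ K * 100 ^ K)) →
      ∃ u : V, u i = c ∧ (∀ j, j ≠ i → -(100 ^ K * 100 ^ K) ≤ u j ∧ u j < 100 ^ K * 100 ^ K) ∧
        S X K1 (Cube (100 ^ (K1 + 2))) 0 u ∧ S X K1 (Cube (100 ^ (K1 + 2))) 0 (u - uv i s) ∧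
        (u - uv i s ∈ F → u ∈ F) := hpatch
  have hA0 : ∀ j : Fin 4, (100 : ℤ) ^ K ≤ (fun _ => 100 ^ K : V) j ∧
      (fun _ => 100 ^ K : V) j ≤ 100 ^ (K + 2) := fun j => ⟨le_rfl, hK⟩
  have hupd : ∀ (A : V) (i : Fin 4), (∀ j, 100 ^ K ≤ A j ∧ A j ≤ 100 ^ (K + 2)) →
      ∀ j, 100 ^ K ≤ (Function.update A i (100 ^ (K + 2))) j ∧
        (Function.update A i (100 ^ (K + 2))) j ≤ 100 ^ (K + 2) := by
    intro A i hA j
    by_cases hj : j = i
    · subst hj
      rw [Function.update_self]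
      exact ⟨hK, le_rfl⟩
    · rw [Function.update_of_ne hj]
      exact hA j
  have s0 : ∀ v, S X K1 (Cube (100 ^ (K1 + 2))) 0 v →
      (∀ j, -((fun _ => 100 ^ K : V) j * 100 ^ K) ≤ v j ∧
        v j < (fun _ => 100 ^ K : V) j * 100 ^ K) → v ∈ F := by
    intro v hvS hv
    exact hin v hvS hv
  have hA1 := hupd _ 0 hA0
  have hA2 := hupd _ 1 hA1
  have hA3 := hupd _ 2 hA2
  have s1 := ggrow_axis X K0 K K1 h0 h1 hG F hF 0 _ hA0 (hp 0) s0
  have s2 := ggrow_axis X K0 K K1 h0 h1 hG F hF 1 _ hA1 (hp 1) s1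
  have s3 := ggrow_axis X K0 K K1 h0 h1 hG F hF 2 _ hA2 (hp 2) s2
  have s4 := ggrow_axis X K0 K K1 h0 h1 hG F hF 3 _ hA3 (hp 3) s3
  intro x hxS hx
  apply s4 x hxS
  intro j
  have hval : (Function.update (Function.update (Function.update (Function.update
      (fun _ => 100 ^ K : V) 0 (100 ^ (K + 2))) 1 (100 ^ (K + 2))) 2 (100 ^ (K + 2))) 3
        (100 ^ (K + 2))) j = 100 ^ (K + 2) := by
    fin_cases j <;> simp [Function.update]
  rw [hval]
  exact hx j

end Pool.LPG
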