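import Pool.Agent.LP.GHeights
import Pool.Agent.LP.GAllF
import Pool.Agent.LP.GGrow
import Pool.Agent.LP.GExi

/-!
# LP, part III: the deterministic theorem

Proof.  Take `κ, Full, Emp, M` from `hD`, `K1 ≥ K0`, `K1 ≥ 1` with `M ≤ 100^(2 K1 - 1)`, `Top1 =
Cube (100^(K1+2))`, and `ht` from `heights` (level `K1`; hypothesis from `hG`).
`F J := {x | Full x (J + 2 * ht x)}`.  For adjacent sound vertices `sh κ x i s = ht (x + uv i s) - ht x`
(both signs), and sound vertices are not in `X` (`S_not_bad'`, `K1 ≥ 1`), so both `F 0` and `F 1`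
satisfy `Rule2 X K1 Top1`.  `F 0` contains all sound vertices (`allF`; outside `Cube (100^(2 K1))`
`ht x = 0` and `Full x 0`).  By the parity clause `F 1` contains the sound vertices of
`Cube (100^(2 K0))`.  For `K0 ≤ K ≤ K1` apply `grow` to `F 1`: the `u` from `hpatch` is sound with
respect to `K1` (`S_comp` with `good_sound`, `anc K u ∈ Cube (100^(K+2))`; same for `u - uv i s`
because of the restrictions on `c`); if `u - uv i s ∈ F 1` then by the 0-1 clause (neighbour
`u + uv i (!s)`) `Full u (1 + 2 ht u)` or `Emp u (1 + 2 ht u)`, and in the second case the last clause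
with `m = ht (u - uv i s)` and `Full u (2 ht u)` gives `C i s u`, excluded.  So all sound vertices of
`Cube (100^(2 K1 + 2))` are in `F 1`.  But the cell of level `K1` with coordinate 0 equal to `100^K1`
and the others 0 is sound, so it contains a sound vertex `v` (`exi`), `v ∉ Cube (100^(2 K1))`, so
`ht v = 0`, `v ∉ Cube M`, `¬ Full v 1`: contradiction.
-/

set_option autoImplicit false

namespace Pool.LPG

private theorem gdet_cube_mono {a b : ℤ} (h : a ≤ b) {x : V} (hx : x ∈ Cube a) : x ∈ Cube b := by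
  intro i
  have := hx i
  constructor <;> linarith [this.1, this.2]

private theorem gdet_pow_le {a b : ℕ} (h : a ≤ b) : (100 : ℤ) ^ a ≤ 100 ^ b :=
  pow_le_pow_right₀ (by norm_num) h

private theorem gdet_anc_cube (K : ℕ) (v : V)
    (h : ∀ j, -100 ^ (2 * K + 2) ≤ v j ∧ v j < 100 ^ (2 * K + 2)) :
    anc K v ∈ Cube (100 ^ (K + 2)) := by
  intro j
  have hp : (0 : ℤ) < 100 ^ K := by positivity
  have e : (100 : ℤ) ^ (K + 2) * 100 ^ K = 100 ^ (2 * K + 2) := by
    rw [← pow_add]; congr 1; omega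
  rw [anc_apply]
  constructor
  · rw [Int.le_ediv_iff_mul_le hp, neg_mul, e]
    exact (h j).1
  · rw [Int.ediv_lt_iff_lt_mul hp, e]
    exact (h j).2

private theorem gdet_sh (X : Set V) (K : ℕ) (Top : Set V) (κ : V → Fin 4 → ℤ) (ht : V → ℤ)
    (h : ∀ x i, S X K Top 0 x → S X K Top 0 (x + e i) → κ x i = ht (x + e i) - ht x)
    (x : V) (i : Fin 4) (s : Bool) (h1 : S X K Top 0 x) (h2 : S X K Top 0 (x + uv i s)) :
    sh κ x i s = ht (x + uv i s) - ht x := by
  cases s with
  | true =>
    rw [sh_true, uv_true]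
    rw [uv_true] at h2
    exact h x i h1 h2
  | false =>
    rw [sh_false, uv_false]
    rw [uv_false, ← sub_eq_add_neg] at h2
    have h3 := h (x - e i) i h2 (by rw [sub_add_cancel]; exact h1)
    rw [sub_add_cancel] at h3
    rw [h3, ← sub_eq_add_neg]
    ring

private theorem gdet_uv_not (i : Fin 4) (s : Bool) (u : V) : u + uv i (!s) = u - uv i s := by
  cases s with
  | true =>
    show u + uv i false = u - uv i true
    rw [uv_false, uv_true, sub_eq_add_neg]
  | false =>
    show u + uv i true = u - uv i false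
    rw [uv_false, uv_true, sub_neg_eq_add]

theorem det (X : Set V) (K0 : ℕ) (hG : GoodFrom X K0) (C : Fin 4 → Bool → V → Prop)
    (hD : HData X (100 ^ (2 * K0)) C)
    (hpatch : ∀ K, K0 ≤ K → ∀ (i : Fin 4) (s : Bool) (c : ℤ), -100 ^ (2 * K + 2) ≤ c →
      c < 100 ^ (2 * K + 2) →
      ∃ u : V, u i = c ∧ (∀ j, j ≠ i → -100 ^ (2 * K) ≤ u j ∧ u j < 100 ^ (2 * K)) ∧
        S X K Set.univ 0 u ∧ S X K Set.univ 0 (u - uv i s) ∧ ¬ C i s u) : False := by
  obtain ⟨κ, Full, Emp, M, h1, h2, h3, h4, h5, h6, h7⟩ := hD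
  obtain ⟨K1, hK1⟩ : ∃ K1 : ℕ, K1 = K0 + M.toNat + 1 := ⟨_, rfl⟩
  have hK01 : K0 ≤ K1 := by omega
  have hK1' : 1 ≤ K1 := by omega
  have hM : M ≤ 100 ^ (2 * K1 - 1) := by
    have a1 : M ≤ (M.toNat : ℤ) := Int.self_le_toNat M
    have a2 : ((2 * K1 - 1 : ℕ) : ℤ) ≤ 100 ^ (2 * K1 - 1) := by
      have := (Nat.lt_pow_self (n := 2 * K1 - 1) (by norm_num : 1 < 100)).le
      exact_mod_cast this
    have a3 : (M.toNat : ℤ) ≤ ((2 * K1 - 1 : ℕ) : ℤ) := by
      have : M.toNat ≤ 2 * K1 - 1 := by omega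
      exact_mod_cast this
    linarith
  have hM2 : M ≤ 100 ^ (2 * K1) := hM.trans (gdet_pow_le (by omega))
  have hgood : ∀ y ∈ Cube (100 ^ (K1 + 2)), y ∉ Bad X K1 := fun y hy =>
    hG K1 hK01 y (gdet_cube_mono (gdet_pow_le (by omega)) hy)
  obtain ⟨ht, hht1, hht2⟩ := heights X K1 hK1' κ h1
    (fun x i hx => h2 x i fun hc => hx (gdet_cube_mono hM hc)) hgood
  have hnX : ∀ x, S X K1 (Cube (100 ^ (K1 + 2))) 0 x → x ∉ X := fun x hx =>
    S_not_bad' (k := 0) (by omega) hx
  have hsh := gdet_sh X K1 (Cube (100 ^ (K1 + 2))) κ ht hht1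
  have hrule : ∀ J : ℤ, Rule2 X K1 (Cube (100 ^ (K1 + 2))) {x | Full x (J + 2 * ht x)} := by
    intro J x j j' s s' hj hx hx1 hx2 f1 f2
    refine h4 x j j' s s' (J + 2 * ht x) hj (hnX x hx) (hnX _ hx1) (hnX _ hx2) ?_ ?_
    · rw [hsh x j s hx hx1]
      have e : J + 2 * ht x + 2 * (ht (x + uv j s) - ht x) = J + 2 * ht (x + uv j s) := by ring
      rw [e]
      exact f1
    · rw [hsh x j' s' hx hx2]
      have e : J + 2 * ht x + 2 * (ht (x + uv j' s') - ht x) = J + 2 * ht (x + uv j' s') := by ring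
      rw [e]
      exact f2
  have hF0 : ∀ x, S X K1 (Cube (100 ^ (K1 + 2))) 0 x → Full x (2 * ht x) := by
    intro x hx
    have := allF X K1 hgood {x | Full x (0 + 2 * ht x)} (hrule 0) (by
      intro x hx hxc
      show Full x (0 + 2 * ht x)
      rw [hht2 x hx hxc]
      exact (h3 x (hnX x hx) fun hc => hxc (gdet_cube_mono hM2 hc)).1) x hx
    have e : (0 : ℤ) + 2 * ht x = 2 * ht x := by ring
    rw [← e]
    exact this
  have hP : ∀ n : ℕ, K0 + n ≤ K1 + 1 → ∀ x, S X K1 (Cube (100 ^ (K1 + 2))) 0 x →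
      x ∈ Cube (100 ^ (2 * (K0 + n))) → x ∈ {x | Full x (1 + 2 * ht x)} := by
    intro n
    induction n with
    | zero =>
      intro _ x hx hxc
      show Full x (1 + 2 * ht x)
      rw [add_comm 1 (2 * ht x)]
      exact h6 x (ht x) (by simpa using hxc) (hnX x hx) (hF0 x hx)
    | succ n ih =>
      intro hn
      have ih' := ih (by omega)
      have e2 : 2 * (K0 + (n + 1)) = 2 * (K0 + n) + 2 := by ring
      rw [e2]
      refine grow X K0 (K0 + n) K1 (by omega) (by omega) hG _ (hrule 1) ih' ?_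
      intro i s c hc1 hc2 hs1 hs2
      obtain ⟨u, hui, huj, hu1, hu2, huC⟩ := hpatch (K0 + n) (by omega) i s c hc1 hc2
      have hle : (100 : ℤ) ^ (2 * (K0 + n)) ≤ 100 ^ (2 * (K0 + n) + 2) := gdet_pow_le (by omega)
      have hpos : (1 : ℤ) ≤ 100 ^ (2 * (K0 + n)) := one_le_pow₀ (by norm_num)
      have hlt : (100 : ℤ) ^ (2 * (K0 + n)) + 1 ≤ 100 ^ (2 * (K0 + n) + 2) := by
        rw [pow_add]
        nlinarith
      have hS1 : S X K1 (Cube (100 ^ (K1 + 2))) 0 u := by
        rw [S_comp X (Cube (100 ^ (K1 + 2))) (by omega : K0 + n ≤ K1) (K0 + n) 0 (by omega) u]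
        refine ⟨hu1, good_sound X K0 (K0 + n) K1 (by omega) (by omega) hG _ ?_⟩
        apply gdet_anc_cube
        intro j
        by_cases hj : j = i
        · rw [hj, hui]
          exact ⟨hc1, hc2⟩
        · exact ⟨by linarith [(huj j hj).1], by linarith [(huj j hj).2]⟩
      have hS2 : S X K1 (Cube (100 ^ (K1 + 2))) 0 (u - uv i s) := by
        rw [S_comp X (Cube (100 ^ (K1 + 2))) (by omega : K0 + n ≤ K1) (K0 + n) 0 (by omega)]
        refine ⟨hu2, good_sound X K0 (K0 + n) K1 (by omega) (by omega) hG _ ?_⟩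
        apply gdet_anc_cube
        intro j
        by_cases hj : j = i
        · have e3 : (u - uv i s) j = c - sg s := by
            rw [hj, Pi.sub_apply, uv_same, hui]
          rw [e3]
          cases s with
          | true =>
            have := hs1 rfl
            rw [sg_true]
            constructor <;> linarith
          | false =>
            have := hs2 rfl
            rw [sg_false]
            constructor <;> linarith
        · have e3 : (u - uv i s) j = u j := by
            rw [Pi.sub_apply, uv_ne s hj, sub_zero]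
          rw [e3]
          exact ⟨by linarith [(huj j hj).1], by linarith [(huj j hj).2]⟩
      refine ⟨u, hui, huj, hS1, hS2, ?_⟩
      intro hF
      have hF' : Full (u - uv i s) (1 + 2 * ht (u - uv i s)) := hF
      show Full u (1 + 2 * ht u)
      have hS2' : S X K1 (Cube (100 ^ (K1 + 2))) 0 (u + uv i (!s)) := by
        rw [gdet_uv_not]; exact hS2
      have e4 := hsh u i (!s) hS1 hS2'
      have hor := h5 u i (!s) (1 + 2 * ht u) (hnX u hS1) (hnX _ hS2') (by
        rw [e4]
        have e5 : 1 + 2 * ht u + 2 * (ht (u + uv i (!s)) - ht u) =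
            1 + 2 * ht (u + uv i (!s)) := by ring
        rw [e5, gdet_uv_not]
        exact hF')
      rcases hor with h8 | h8
      · exact h8
      · exfalso
        apply huC
        have e6 : u - uv i s + uv i s = u := sub_add_cancel u (uv i s)
        have e7 := hsh (u - uv i s) i s hS2 (by rw [e6]; exact hS1)
        rw [e6] at e7
        have e8 : ht (u - uv i s) + sh κ (u - uv i s) i s = ht u := by rw [e7]; ring
        have h9 := h7 (u - uv i s) i s (ht (u - uv i s)) (hnX _ hS2)
          (by rw [e6]; exact hnX u hS1) (by rw [add_comm]; exact hF')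
          (by rw [e6, e8]; exact hF0 u hS1)
          (by rw [e6, e8, add_comm]; exact h8)
        rw [e6] at h9
        exact h9
  -- final contradiction
  have hp1 : (1 : ℤ) ≤ 100 ^ K1 := one_le_pow₀ (by norm_num)
  obtain ⟨v, hv1, hv2⟩ := exi X K1 (Cube (100 ^ (K1 + 2))) hgood K1 le_rfl
    (Function.update (fun _ => (0 : ℤ)) 0 (100 ^ K1)) (by
      rw [S_top]
      have hlt : (100 : ℤ) ^ K1 < 100 ^ (K1 + 2) := by
        rw [pow_add]
        nlinarith
      intro j
      by_cases hj : j = 0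
      · rw [hj, Function.update_self]
        constructor <;> linarith
      · rw [Function.update_of_ne hj]
        constructor <;> linarith)
  have hvj : ∀ j, v j / 100 ^ K1 = Function.update (fun _ => (0 : ℤ)) 0 (100 ^ K1) j := by
    intro j
    rw [← hv1, anc_apply]
  have e9 : (100 : ℤ) ^ K1 * 100 ^ K1 = 100 ^ (2 * K1) := by
    rw [← pow_add]; congr 1; omega
  have e10 : (100 : ℤ) ^ (2 * K1 + 2) = 10000 * 100 ^ (2 * K1) := by
    rw [pow_add]; ring
  have hpp : (1 : ℤ) ≤ 100 ^ (2 * K1) := one_le_pow₀ (by norm_num)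
  have hle : (100 : ℤ) ^ K1 ≤ 100 ^ (2 * K1) := gdet_pow_le (by omega)
  have hv0 : 100 ^ (2 * K1) ≤ v 0 ∧ v 0 < 100 ^ (2 * K1) + 100 ^ K1 := by
    have h10 := hvj 0
    rw [Function.update_self] at h10
    have h11 := Int.mul_ediv_add_emod (v 0) (100 ^ K1)
    have h12 := Int.emod_nonneg (v 0) (by positivity : (100 : ℤ) ^ K1 ≠ 0)
    have h13 := Int.emod_lt_of_pos (v 0) (by positivity : (0 : ℤ) < 100 ^ K1)
    rw [h10, e9] at h11
    constructor <;> linarith
  have hvc : v ∈ Cube (100 ^ (2 * (K0 + (K1 + 1 - K0)))) := by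
    have e11 : 2 * (K0 + (K1 + 1 - K0)) = 2 * K1 + 2 := by omega
    rw [e11, e10]
    intro j
    by_cases hj : j = 0
    · rw [hj]
      constructor <;> linarith [hv0.1, hv0.2]
    · have h10 := hvj j
      rw [Function.update_of_ne hj] at h10
      have h11 := Int.mul_ediv_add_emod (v j) (100 ^ K1)
      have h12 := Int.emod_nonneg (v j) (by positivity : (100 : ℤ) ^ K1 ≠ 0)
      have h13 := Int.emod_lt_of_pos (v j) (by positivity : (0 : ℤ) < 100 ^ K1)
      rw [h10, mul_zero, zero_add] at h11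
      constructor <;> linarith
  have hvn : v ∉ Cube (100 ^ (2 * K1)) := fun hc => by
    have := (hc 0).2
    linarith [hv0.1]
  have hvF : Full v (1 + 2 * ht v) := hP (K1 + 1 - K0) (by omega) v hv2 hvc
  rw [hht2 v hv2 hvn] at hvF
  exact (h3 v (hnX v hv2) fun hc => hvn (gdet_cube_mono hM2 hc)).2 hvF

end Pool.LPG
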