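import Pool.Agent.LP.GLat

/-!
# LP, part III: filling a cell inside a slice, the slice below being full

Proof.  Write `Y' = lev i (c - sg s) (k+1) Y` (it is `Y` or `Y - uv i s`), and for a subcell `y` of
`Y` with `y i = c / 100^k` let `y' = lev i (c - sg s) k y` (it is `y` or `y - uv i s`;
`par y' = Y'` by `par_lev`), so `SF` at level `k` of `y'` at height `c - sg s` follows from `hlow`.
Good subcells: `y ∉ Spot Y` and `y' ∉ Spot Y'`.  They are the complement (in the 3-dimensional
array of subcells of `Y` at height `c / 100^k`) of one box with sides ≤ 8: if both cross-sections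
(of `Spot Y` at height `c / 100^k` and of `Spot Y'` at height `(c - sg s) / 100^k`) are nonempty they
are equal (if `Y' = Y` it is the same box; otherwise `hull_eq` applies near the common face).
Step 1: propagate `SF` from the given good subcell to all good subcells: `co` with
`T = univ.erase i` and `hMR`.  Step 2: a subcell `y ∉ Spot Y` which is not good has `y' ∈ Spot Y'`;
then no subcell of `Y` at height `c / 100^k` is in `Spot Y`; the not good subcells form a box with
sides ≤ 8, in each lateral axis at least one side of this box has room in `Y`; fill it from the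
corner in two lateral axes with `rulelat` (induction on the sum of the two distances).
Finally a sound vertex `v` of `Y` with `v i = c` lies in the subcell `anc k v`, which is off
`Spot Y`.
-/

set_option autoImplicit false

namespace Pool.LPG

/-- two-layer rule at level `k` (statement) -/
def MRst (X : Set V) (K : ℕ) (Top : Set V) (F : Set V) (i : Fin 4) (s : Bool) (c : ℤ) (k : ℕ) :
    Prop :=
  ∀ y : V, y i = c / 100 ^ k → S X K Top k y → S X K Top k (lev i (c - sg s) k y) →
    SF X K Top F i (c - sg s) k (lev i (c - sg s) k y) →
    ∀ (j : Fin 4) (t : Bool), j ≠ i → S X K Top k (y + uv j t) →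
      SF X K Top F i c k (y + uv j t) → SF X K Top F i c k y

theorem gfill_div (c : ℤ) (s : Bool) (k : ℕ) :
    c / 100 ^ k - 1 ≤ (c - sg s) / 100 ^ k ∧ (c - sg s) / 100 ^ k ≤ c / 100 ^ k + 1 := by
  have hm : (0 : ℤ) < 100 ^ k := by positivity
  have h1 : c / 100 ^ k * 100 ^ k ≤ c := Int.ediv_mul_le c hm.ne'
  have h2 : c < (c / 100 ^ k + 1) * 100 ^ k := Int.lt_ediv_add_one_mul_self c hm
  have h3 : -1 ≤ sg s ∧ sg s ≤ 1 := by cases s <;> simp [sg]
  have h4 : (1 : ℤ) ≤ 100 ^ k := hm
  constructor
  · rw [Int.le_ediv_iff_mul_le hm]
    nlinarith [h3.1, h3.2]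
  · rw [← Int.lt_add_one_iff, Int.ediv_lt_iff_lt_mul hm]
    nlinarith [h3.1, h3.2]

/-- the lower subcell is near `Y` -/
theorem gfill_near (i : Fin 4) (s : Bool) (c : ℤ) (k : ℕ) (Y z : V) (hz : par z = Y)
    (hzi : z i = c / 100 ^ k) : lev i (c - sg s) k z ∈ Near Y := by
  rw [glat_par_iff] at hz
  intro l
  have h := hz l
  by_cases hl : l = i
  · subst hl
    rw [lev_same]
    have := gfill_div c s k
    rw [hzi] at h
    omega
  · rw [lev_ne _ _ _ _ hl]
    omega

theorem gfill_two : ∀ i : Fin 4, ∃ j1 j2 : Fin 4, j1 ≠ j2 ∧ j1 ≠ i ∧ j2 ≠ i := by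
  decide

/-- one step towards `p` -/
theorem gfill_dir (A p z : ℤ) (h1 : A ≤ p) (h2 : p < A + 100) (h3 : A ≤ z) (h4 : z < A + 100)
    (h : z ≠ p) : ∃ s : Bool, A ≤ z + sg s ∧ z + sg s < A + 100 ∧
      (z + sg s - p).natAbs + 1 = (z - p).natAbs := by
  rcases lt_or_gt_of_ne h with h | h
  · exact ⟨true, by rw [sg_true]; omega, by rw [sg_true]; omega, by rw [sg_true]; omega⟩
  · exact ⟨false, by rw [sg_false]; omega, by rw [sg_false]; omega, by rw [sg_false]; omega⟩

/-- If the slice `c - sg s` is full under the cell `Y` of level `k+1` and one subcell `y` of `Y`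
(sound, also below) is slice-full at `c`, then `Y` is slice-full at `c`. -/
theorem fill (X : Set V) (K : ℕ) (Top : Set V) (hTop : ∀ y ∈ Top, y ∉ Bad X K) (F : Set V)
    (hF : Rule2 X K Top F) (i : Fin 4) (s : Bool) (c : ℤ) (k : ℕ) (hk : k < K)
    (hMR : MRst X K Top F i s c k) (Y : V) (hYi : Y i = c / 100 ^ (k + 1))
    (hY : S X K Top (k + 1) Y) (hY' : S X K Top (k + 1) (lev i (c - sg s) (k + 1) Y))
    (hlow : SF X K Top F i (c - sg s) (k + 1) (lev i (c - sg s) (k + 1) Y))
    (y : V) (hy : par y = Y) (hyi : y i = c / 100 ^ k) (hyS : S X K Top k y)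
    (hyS' : S X K Top k (lev i (c - sg s) k y)) (hfull : SF X K Top F i c k y) :
    SF X K Top F i c (k + 1) Y := by
  have nY : Y ∉ nextBad (Bad X k) := S_not_bad hTop hk hY
  have nY' : lev i (c - sg s) (k + 1) Y ∉ nextBad (Bad X k) := S_not_bad hTop hk hY'
  obtain ⟨lo, hi, hlh, h8⟩ := spot_box nY
  -- soundness of the subcells
  have snd : ∀ z : V, par z = Y → (S X K Top k z ↔ z ∉ Box lo hi) := by
    intro z hz
    rw [S_step X Top hk, hz, hlh]
    tauto
  have parl : ∀ z : V, par z = Y → par (lev i (c - sg s) k z) = lev i (c - sg s) (k + 1) Y := by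
    intro z hz
    rw [par_lev, hz]
  have snd' : ∀ z : V, par z = Y → z i = c / 100 ^ k →
      (S X K Top k (lev i (c - sg s) k z) ↔ lev i (c - sg s) k z ∉ Box lo hi) := by
    intro z hz hzi
    have h1 := parl z hz
    have h2 : lev i (c - sg s) k z ∈ Near (lev i (c - sg s) (k + 1) Y) := by
      rw [← h1]
      exact mem_near_par _
    rw [S_step X Top hk, h1, spot_iff nY' nY h2 (gfill_near i s c k Y z hz hzi), hlh]
    tauto
  have low : ∀ z : V, par z = Y →
      SF X K Top F i (c - sg s) k (lev i (c - sg s) k z) := by
    intro z hz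
    exact glat_SF_par X K Top F i (c - sg s) k _ _ (parl z hz) hlow
  -- the box of subcells which are not good
  by_cases hR : ((lo i ≤ c / 100 ^ k ∧ c / 100 ^ k < hi i) ∨
      (lo i ≤ (c - sg s) / 100 ^ k ∧ (c - sg s) / 100 ^ k < hi i))
  swap
  · -- all subcells are good
    push Not at hR
    have g : ∀ z : V, z i = c / 100 ^ k → z ∉ Box lo hi ∧ lev i (c - sg s) k z ∉ Box lo hi := by
      intro z hzi
      constructor
      · intro hb
        have := hb i
        rw [hzi] at this
        have := hR.1 this.1
        omega
      · intro hb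
        have := hb i
        rw [lev_same] at this
        have := hR.2 this.1
        omega
    have hT : 2 ≤ (Finset.univ.erase i : Finset (Fin 4)).card := by
      rw [Finset.card_erase_of_mem (Finset.mem_univ i)]
      simp
    have all : ∀ z : V, par z = Y → z i = c / 100 ^ k → SF X K Top F i c k z := by
      intro z hz hzi
      refine co (Finset.univ.erase i) hT (fun l => 100 * Y l) (fun l => 100 * Y l + 100)
        (fun _ => 0) (fun _ => 0) (fun l => 100 * Y l)
        (fun j _ => ⟨le_rfl, by linarith, by
          rcases lt_or_ge (100 * Y j) 0 with h | h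
          · exact Or.inl h
          · exact Or.inr h⟩) y z ((glat_par_iff y Y).1 hy)
        (fun hb => by have := hb i; simp only at this; omega) ((glat_par_iff z Y).1 hz)
        (fun hb => by have := hb i; simp only at this; omega) ?_
        (fun z => SF X K Top F i c k z) ?_ hfull
      · intro l hl
        have : l = i := by simpa using hl
        rw [this, hyi, hzi]
      · rintro w w' hw - hw' - hwl ⟨j, hj, t, rfl⟩ hP
        have hji : j ≠ i := by simpa using hj
        have pw : par w = Y := (glat_par_iff w Y).2 hw
        have pw' : par (w + uv j t) = Y := (glat_par_iff _ Y).2 hw'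
        have wi : w i = c / 100 ^ k := by rw [hwl i (by simp), hyi]
        have wi' : (w + uv j t) i = c / 100 ^ k := by rw [glat_uv_ne _ _ hji.symm, wi]
        have b := glat_uv_back w j t
        refine hMR (w + uv j t) wi' ((snd _ pw').2 (g _ wi').1)
          ((snd' _ pw' wi').2 (g _ wi').2) (low _ pw') j (!t) hji ?_ ?_
        · rw [b]
          exact (snd _ pw).2 (g _ wi).1
        · rw [b]
          exact hP
    intro v hv hc hSv
    have hp : par (anc k v) = Y := by rw [← anc_succ, hv]
    exact all (anc k v) hp (by rw [anc_apply, hc]) v rfl hc hSv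
  · -- the bad box
    obtain ⟨LO, hLO⟩ : ∃ LO : V, LO = Function.update lo i (c / 100 ^ k) := ⟨_, rfl⟩
    obtain ⟨HI, hHI⟩ : ∃ HI : V, HI = Function.update hi i (c / 100 ^ k + 1) := ⟨_, rfl⟩
    have LOi : LO i = c / 100 ^ k := by rw [hLO, Function.update_self]
    have HIi : HI i = c / 100 ^ k + 1 := by rw [hHI, Function.update_self]
    have LOl : ∀ l, l ≠ i → LO l = lo l := fun l hl => by rw [hLO, Function.update_of_ne hl]
    have HIl : ∀ l, l ≠ i → HI l = hi l := fun l hl => by rw [hHI, Function.update_of_ne hl]
    have h8' : ∀ l, HI l - LO l ≤ 8 := by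
      intro l
      by_cases hl : l = i
      · subst hl
        rw [LOi, HIi]
        omega
      · rw [LOl l hl, HIl l hl]
        exact h8 l
    have good : ∀ z : V, z i = c / 100 ^ k →
        (z ∉ Box LO HI ↔ z ∉ Box lo hi ∧ lev i (c - sg s) k z ∉ Box lo hi) := by
      intro z hzi
      constructor
      · intro h
        obtain ⟨l, hl⟩ := glat_ex_off h
        have hli : l ≠ i := by
          rintro rfl
          rw [LOi, HIi, hzi] at hl
          omega
        rw [LOl l hli, HIl l hli] at hl
        exact ⟨glat_off l hl, glat_off l (by rw [lev_ne _ _ _ _ hli]; exact hl)⟩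
      · rintro ⟨h1, h2⟩ hb
        have hb' : ∀ l, l ≠ i → lo l ≤ z l ∧ z l < hi l := by
          intro l hl
          have := hb l
          rw [LOl l hl, HIl l hl] at this
          exact this
        rcases hR with hR | hR
        · apply h1
          intro l
          by_cases hl : l = i
          · subst hl
            rw [hzi]
            exact hR
          · exact hb' l hl
        · apply h2
          intro l
          by_cases hl : l = i
          · subst hl
            rw [lev_same]
            exact hR
          · rw [lev_ne _ _ _ _ hl]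
            exact hb' l hl
    choose p hp using fun j => glat_room (100 * Y j) (LO j) (HI j) (h8' j)
    have hT : 2 ≤ (Finset.univ.erase i : Finset (Fin 4)).card := by
      rw [Finset.card_erase_of_mem (Finset.mem_univ i)]
      simp
    -- step 1
    have step1 : ∀ z : V, par z = Y → z i = c / 100 ^ k → z ∉ Box LO HI →
        SF X K Top F i c k z := by
      intro z hz hzi hzg
      refine co (Finset.univ.erase i) hT (fun l => 100 * Y l) (fun l => 100 * Y l + 100)
        LO HI p (fun j _ => hp j) y z ((glat_par_iff y Y).1 hy)
        ((good y hyi).2 ⟨(snd y hy).1 hyS, (snd' y hy hyi).1 hyS'⟩) ((glat_par_iff z Y).1 hz)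
        hzg ?_ (fun z => SF X K Top F i c k z) ?_ hfull
      · intro l hl
        have : l = i := by simpa using hl
        rw [this, hyi, hzi]
      · rintro w w' hw hwg hw' hwg' hwl ⟨j, hj, t, rfl⟩ hP
        have hji : j ≠ i := by simpa using hj
        have pw : par w = Y := (glat_par_iff w Y).2 hw
        have pw' : par (w + uv j t) = Y := (glat_par_iff _ Y).2 hw'
        have wi : w i = c / 100 ^ k := by rw [hwl i (by simp), hyi]
        have wi' : (w + uv j t) i = c / 100 ^ k := by rw [glat_uv_ne _ _ hji.symm, wi]
        have b := glat_uv_back w j t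
        have gw := (good _ wi).1 hwg
        have gw' := (good _ wi').1 hwg'
        refine hMR (w + uv j t) wi' ((snd _ pw').2 gw'.1)
          ((snd' _ pw' wi').2 gw'.2) (low _ pw') j (!t) hji ?_ ?_
        · rw [b]
          exact (snd _ pw).2 gw.1
        · rw [b]
          exact hP
    -- step 2
    have step2 : ∀ z : V, par z = Y → z i = c / 100 ^ k → z ∉ Box lo hi →
        SF X K Top F i c k z := by
      intro z hz hzi hzs
      by_cases hzg : z ∉ Box LO HI
      · exact step1 z hz hzi hzg
      push Not at hzg
      have hci : ¬ (lo i ≤ c / 100 ^ k ∧ c / 100 ^ k < hi i) := by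
        intro h
        apply hzs
        intro l
        by_cases hl : l = i
        · subst hl
          rw [hzi]
          exact h
        · have := hzg l
          rw [LOl l hl, HIl l hl] at this
          exact this
      have off : ∀ w : V, w i = c / 100 ^ k → w ∉ Box lo hi := by
        intro w hw hb
        have := hb i
        rw [hw] at this
        exact hci this
      obtain ⟨j1, j2, h12, h1i, h2i⟩ := gfill_two i
      have main : ∀ n : ℕ, ∀ w : V, par w = Y → w i = c / 100 ^ k →
          (w j1 - p j1).natAbs + (w j2 - p j2).natAbs < n → SF X K Top F i c k w := by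
        intro n
        induction n with
        | zero => intro w _ _ h; omega
        | succ n ihn =>
          intro w hw hwi hd
          by_cases hwg : w ∉ Box LO HI
          · exact step1 w hw hwi hwg
          push Not at hwg
          have hwb := (glat_par_iff w Y).1 hw
          have ne : ∀ j, w j ≠ p j := by
            intro j h
            have h1 := hwg j
            have h2 := (hp j).2.2
            rw [h] at h1
            omega
          have nb : ∀ j j' : Fin 4, j ≠ i → j' ≠ j → (w j' - p j').natAbs + (w j - p j).natAbs ≤ n →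
              ∃ t : Bool, par (w + uv j t) = Y ∧ (w + uv j t) i = c / 100 ^ k ∧
                ((w + uv j t) j' - p j').natAbs + ((w + uv j t) j - p j).natAbs < n := by
            intro j j' hji hjj hdd
            obtain ⟨t, t1, t2, t3⟩ := gfill_dir (100 * Y j) (p j) (w j) (hp j).1 (hp j).2.1
              (hwb j).1 (hwb j).2 (ne j)
            refine ⟨t, ?_, ?_, ?_⟩
            · rw [glat_par_iff]
              intro l
              by_cases hl : l = j
              · subst hl
                rw [glat_uv_same]
                exact ⟨t1, t2⟩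
              · rw [glat_uv_ne _ _ hl]
                exact hwb l
            · rw [glat_uv_ne _ _ hji.symm, hwi]
            · rw [glat_uv_same, glat_uv_ne _ _ hjj]
              omega
          obtain ⟨t1, a1, a2, a3⟩ := nb j1 j2 h1i h12.symm (by omega)
          obtain ⟨t2, b1, b2, b3⟩ := nb j2 j1 h2i h12 (by omega)
          exact rulelat X K Top hTop F hF i c k hk.le w j1 j2 t1 t2 h12 h1i h2i
            ((snd _ hw).2 (off _ hwi)) ((snd _ a1).2 (off _ a2)) ((snd _ b1).2 (off _ b2))
            (ihn _ a1 a2 (by omega)) (ihn _ b1 b2 (by omega))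
      exact main _ z hz hzi (Nat.lt_succ_self _)
    intro v hv hc hSv
    have hp' : par (anc k v) = Y := by rw [← anc_succ, hv]
    have hsv : anc k v ∉ Box lo hi := (snd _ hp').1 (S_anc0 X Top k hk.le v hSv)
    exact step2 (anc k v) hp' (by rw [anc_apply, hc]) hsv v rfl hc hSv

end Pool.LPG
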