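import Pool.Agent.LP.GLift

/-!
# LP, part III: global heights on the sound vertices

Iterate `lift` (levels 0,...,K-1): cochains `κ_k` closed off `Bad X k` and potentials `pot_k Y` of the
cells `Y` of level `k+1`.  `κ_K` is closed on the box `Cube (100^(K+2))` of cells of level `K` (none is
bad), so exact there (`boxex`): `g`.  Put
`φ_K = g` and `φ_k y = pot_k (par y) y + φ_(k+1) (par y)`; `ht = φ_0`.
Claim (downward induction on `k`): if `y` and `y + e i` are cells of level `k`, both
`S X K Top k`, then `κ_k y i = φ_k (y + e i) - φ_k y`.  Same parent `Y`: second claim of `lift`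
(`mem_near_par`; `Y` is not bad by `S_not_bad`; both off the spot by `S_step`).  Different parents
`Y`, `Y' = Y + e i`: `κ_(k+1) Y i = φ_(k+1) Y' - φ_(k+1) Y` by induction and
`κ_(k+1) Y i = pot Y x - pot Y' x` at `x = y + e i`, which is near both and off both spots
(`spot_iff`), and `κ_k y i = pot Y (y + e i) - pot Y y`.
Zero outside: `r_0 = 100^(2K-1)`, `r_(k+1) = r_k / 100 + 2`; by induction `κ_k y i = 0` for all
`y ∉ Cube r_k` with `y`, `y + e i` not bad, and `pot_k Y = 0` off the spot if `Near Y` is disjoint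
from `Cube r_k` (fourth claim of `lift`); `r_k ≤ 100^(2K-1-k) + 3`.  At level `K`: `κ_K = 0` outside
`Cube (100^K)`, so `g` is constant on `Cube (100^(K+2)) \ Cube (100^K)` (`co`), normalise it to 0.
For `x ∉ Cube (100^(2K))` all terms of `ht x` vanish.  Suggestion: state one induction lemma over
the levels which carries (cochain closed off `Bad X k`, zero outside `Cube r_k`) and produces the
heights on level `k` from the heights on level `k+1`.
-/

set_option autoImplicit false

namespace Pool.LPG

private theorem gheights_cube (r : ℤ) : Cube r = Box (fun _ => -r) (fun _ => r) := rfl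

private theorem gheights_add_same (y : V) (i : Fin 4) : (y + e i) i = y i + 1 := by
  rw [Pi.add_apply, e_same]

private theorem gheights_add_ne (y : V) {i j : Fin 4} (h : j ≠ i) : (y + e i) j = y j := by
  rw [Pi.add_apply, e_ne h, add_zero]

/-- a vertex off the cube -/
private theorem gheights_off {r : ℤ} {y : V} (h : y ∉ Cube r) : ∃ j, y j < -r ∨ r ≤ y j := by
  by_contra hc
  push Not at hc
  exact h fun j => hc j

private theorem gheights_off' {r : ℤ} {y : V} {j : Fin 4} (h : y j < -r ∨ r ≤ y j) : y ∉ Cube r := by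
  intro hy
  have := hy j
  omega

/-- cells near a cell far outside -/
private theorem gheights_near {R r : ℤ} (hR : r + 101 ≤ 100 * R) {Y : V} {j : Fin 4}
    (hY : Y j ≤ -R ∨ R ≤ Y j) {x : V} (hx : x ∈ Near Y) : x ∉ Cube r := by
  have h1 := hx j
  refine gheights_off' (j := j) ?_
  rcases hY with hY | hY
  · left; omega
  · right; omega

/-- the parent of the upper neighbour -/
private theorem gheights_par (y : V) (i : Fin 4) :
    par (y + e i) = par y ∨ (par (y + e i) = par y + e i ∧ y + e i ∈ Near (par y)) := by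
  by_cases h : (y i + 1) / 100 = y i / 100
  · left
    funext j
    by_cases hj : j = i
    · subst hj
      rw [par_apply, par_apply, gheights_add_same, h]
    · rw [par_apply, par_apply, gheights_add_ne _ hj]
  · right
    have h1 : (y i + 1) / 100 = y i / 100 + 1 := by omega
    constructor
    · funext j
      by_cases hj : j = i
      · subst hj
        rw [par_apply, gheights_add_same, gheights_add_same, par_apply, h1]
      · rw [par_apply, gheights_add_ne _ hj, gheights_add_ne _ hj, par_apply]
    · intro j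
      by_cases hj : j = i
      · subst hj
        rw [gheights_add_same, par_apply]
        omega
      · rw [gheights_add_ne _ hj, par_apply]
        omega

private theorem gheights_same (y : V) (i : Fin 4) (h : par (y + e i) = par y) :
    y + e i ∈ Near (par y) := by
  rw [← h]
  exact mem_near_par _

/-- the top level -/
private theorem gheights_top (X : Set V) (K' : ℕ)
    (hgood : ∀ y ∈ Cube (100 ^ (K' + 1 + 2)), y ∉ Bad X (K' + 1)) (κ : V → Fin 4 → ℤ)
    (h : Cocyc (Bad X (K' + 1))ᶜ κ)
    (hz : ∀ y i, y ∉ Cube (100 ^ K' + 2) → y ∉ Bad X (K' + 1) → y + e i ∉ Bad X (K' + 1) →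
      κ y i = 0) :
    ∃ φ : V → ℤ, (∀ y i, y ∈ Cube (100 ^ (K' + 1 + 2)) → y + e i ∈ Cube (100 ^ (K' + 1 + 2)) →
      κ y i = φ (y + e i) - φ y) ∧
      (∀ y, y ∈ Cube (100 ^ (K' + 1 + 2)) → y ∉ Cube (100 ^ (K' + 1)) → φ y = 0) := by
  have hpow : (1 : ℤ) ≤ 100 ^ K' := one_le_pow₀ (by norm_num)
  have hpow1 : (100 : ℤ) ^ (K' + 1) = 100 * 100 ^ K' := by rw [pow_succ]; ring
  have hpow2 : (100 : ℤ) ^ (K' + 1 + 2) = 1000000 * 100 ^ K' := by
    rw [pow_add, pow_succ]; norm_num; ring
  have hcl : Cocyc (Box (fun _ => -(100 ^ (K' + 1 + 2) : ℤ)) (fun _ => (100 ^ (K' + 1 + 2) : ℤ))) κ := by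
    intro x i j hij h1 h2 h3 h4
    exact h x i j hij (hgood x h1) (hgood _ h2) (hgood _ h3) (hgood _ h4)
  obtain ⟨g, hg⟩ := boxex _ _ κ hcl
  set p : V := fun _ => (100 : ℤ) ^ (K' + 1) with hp
  have hstep0 : ∀ z j, z ∈ Cube (100 ^ (K' + 1 + 2)) → z + e j ∈ Cube (100 ^ (K' + 1 + 2)) →
      z ∉ Cube (100 ^ (K' + 1)) → g (z + e j) = g z := by
    intro z j h1 h2 h3
    have h4 := hg z j h1 h2
    have h5 : κ z j = 0 := by
      refine hz z j ?_ (hgood z h1) (hgood _ h2)
      obtain ⟨l, hl⟩ := gheights_off h3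
      refine gheights_off' (j := l) ?_
      rw [hpow1] at hl
      rcases hl with hl | hl
      · left; linarith
      · right; linarith
    rw [h5] at h4
    linarith
  refine ⟨fun y => g y - g p, ?_, ?_⟩
  · intro y i h1 h2
    rw [hg y i h1 h2]
    ring
  · intro y h1 h2
    have hco := co Finset.univ (by simp) (fun _ => -(100 ^ (K' + 1 + 2) : ℤ))
      (fun _ => (100 ^ (K' + 1 + 2) : ℤ)) (fun _ => -(100 ^ (K' + 1) : ℤ))
      (fun _ => (100 ^ (K' + 1) : ℤ)) p ?_ p y ?_ ?_ h1 h2 ?_ (fun z => g z = g p) ?_ rfl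
    · simp only at hco ⊢
      rw [hco, sub_self]
    · intro j _
      simp only [hp]
      rw [hpow1, hpow2]
      refine ⟨by linarith, by linarith, Or.inr le_rfl⟩
    · intro j
      simp only [hp]
      rw [hpow1, hpow2]
      constructor <;> linarith
    · intro hc
      have := (hc 0).2
      simp only [hp] at this
      exact absurd this (lt_irrefl _)
    · intro l hl
      exact absurd (Finset.mem_univ l) hl
    · rintro z z' hz1 hz2 hz3 hz4 - ⟨j, -, s, rfl⟩ hP
      rw [← hP]
      cases s with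
      | true =>
        rw [uv_true] at hz3 ⊢
        exact hstep0 z j hz1 hz3 hz2
      | false =>
        rw [uv_false] at hz3 hz4 ⊢
        have h5 : z + -e j + e j = z := by abel
        have h6 := hstep0 (z + -e j) j hz3 (by rw [h5]; exact hz1) hz4
        rw [h5] at h6
        exact h6.symm

private theorem gheights_aux (X : Set V) (K' : ℕ)
    (hgood : ∀ y ∈ Cube (100 ^ (K' + 1 + 2)), y ∉ Bad X (K' + 1)) :
    ∀ (n k : ℕ), k + n = K' + 1 → ∀ κ : V → Fin 4 → ℤ, Cocyc (Bad X k)ᶜ κ →
      (∀ y i, y ∉ Cube (100 ^ (K' + n) + 2) → y ∉ Bad X k → y + e i ∉ Bad X k → κ y i = 0) →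
      ∃ φ : V → ℤ,
        (∀ y i, S X (K' + 1) (Cube (100 ^ (K' + 1 + 2))) k y →
          S X (K' + 1) (Cube (100 ^ (K' + 1 + 2))) k (y + e i) → κ y i = φ (y + e i) - φ y) ∧
        (∀ y, S X (K' + 1) (Cube (100 ^ (K' + 1 + 2))) k y → y ∉ Cube (100 ^ (K' + 1 + n)) →
          φ y = 0) := by
  intro n
  induction n with
  | zero =>
    intro k hk κ h hz
    rw [add_zero] at hk
    subst hk
    obtain ⟨φ, h1, h2⟩ := gheights_top X K' hgood κ h hz
    refine ⟨φ, ?_, ?_⟩
    · intro y i hy hy'
      rw [S_top] at hy hy'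
      exact h1 y i hy hy'
    · intro y hy hy'
      rw [S_top] at hy
      exact h2 y hy hy'
  | succ n ih =>
    intro k hk κ h hz
    have hk1 : k < K' + 1 := by omega
    obtain ⟨κ', pot, hcl, hpot, hdiff, hzero⟩ := lift (Bad X k) κ h
    have hpow : (1 : ℤ) ≤ 100 ^ (K' + n) := one_le_pow₀ (by norm_num)
    have hpow1 : (100 : ℤ) ^ (K' + (n + 1)) = 100 * 100 ^ (K' + n) := by
      rw [← add_assoc, pow_succ]; ring
    -- potentials vanish far outside
    have hfar : ∀ Y : V, Y ∉ nextBad (Bad X k) → (∃ j, Y j ≤ -(100 ^ (K' + n) + 2) ∨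
        (100 ^ (K' + n) + 2) ≤ Y j) → ∀ x ∈ Near Y, x ∉ Spot (Bad X k) Y → pot Y x = 0 := by
      rintro Y hY ⟨j, hj⟩ x hx hxs
      refine hzero Y hY ?_ x hx hxs
      intro z i hz1 hz2 hz3 hz4
      refine hz z i ?_ ?_ ?_
      · refine gheights_near (R := 100 ^ (K' + n) + 2) ?_ hj hz1
        rw [hpow1]
        linarith
      · exact fun hb => hz3 (bad_mem_spot hb (near_sub_big _ hz1))
      · exact fun hb => hz4 (bad_mem_spot hb (near_sub_big _ hz2))
    have hz' : ∀ Y i, Y ∉ Cube (100 ^ (K' + n) + 2) → Y ∉ Bad X (k + 1) →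
        Y + e i ∉ Bad X (k + 1) → κ' Y i = 0 := by
      intro Y i hYc hYb hYb'
      obtain ⟨j, hj⟩ := gheights_off hYc
      obtain ⟨l, hl⟩ : ∃ l : Fin 4, l ≠ i := ⟨i + 1, by fin_cases i <;> decide⟩
      obtain ⟨t, ht1, ht2, ht3⟩ := spot_avoid (Y := Y) hYb hYb' hYb hYb l
      set x : V := Function.update (fun m => 100 * Y m + if m = i then 100 else 0) l t with hx
      have hxl : x l = t := by simp [hx]
      have hxm : ∀ m, m ≠ l → x m = 100 * Y m + if m = i then 100 else 0 := by
        intro m hm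
        rw [hx, Function.update_of_ne hm]
      have hspot := ht3 x hxl
      have hn1 : x ∈ Near Y := by
        intro m
        by_cases hm : m = l
        · subst hm
          rw [hxl]
          omega
        · rw [hxm m hm]
          split_ifs <;> omega
      have hn2 : x ∈ Near (Y + e i) := by
        intro m
        by_cases hm : m = l
        · subst hm
          rw [hxl, gheights_add_ne _ hl]
          omega
        · rw [hxm m hm]
          by_cases hmi : m = i
          · subst hmi
            rw [gheights_add_same, if_pos rfl]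
            omega
          · rw [gheights_add_ne _ hmi, if_neg hmi]
            omega
      rw [hdiff Y i x hYb hYb' hn1 hn2 hspot.1]
      rw [hfar Y hYb ⟨j, ?_⟩ x hn1 hspot.1, hfar (Y + e i) hYb' ⟨j, ?_⟩ x hn2 hspot.2.1, sub_self]
      · by_cases hji : j = i
        · subst hji
          rw [gheights_add_same]
          omega
        · rw [gheights_add_ne _ hji]
          omega
      · omega
    obtain ⟨φ, hφ1, hφ2⟩ := ih (k + 1) (by omega) κ' hcl hz'
    refine ⟨fun y => pot (par y) y + φ (par y), ?_, ?_⟩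
    · intro y i hy hy'
      rw [S_step X _ hk1] at hy hy'
      obtain ⟨hys, hyS⟩ := hy
      obtain ⟨hys', hyS'⟩ := hy'
      have hbY : par y ∉ nextBad (Bad X k) := S_not_bad hgood (by omega : k + 1 ≤ K' + 1) hyS
      have hbY' : par (y + e i) ∉ nextBad (Bad X k) :=
        S_not_bad hgood (by omega : k + 1 ≤ K' + 1) hyS'
      simp only
      rcases gheights_par y i with hp | ⟨hp, hn⟩
      · rw [hp] at hys' ⊢
        rw [hpot (par y) y i hbY (mem_near_par y) (gheights_same y i hp) hys hys']
        ring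
      · have hn' : y + e i ∈ Near (par y + e i) := by
          rw [← hp]
          exact mem_near_par _
        have hbe : par y + e i ∉ nextBad (Bad X k) := by
          rw [← hp]
          exact hbY'
        have hxs' : y + e i ∉ Spot (Bad X k) (par y + e i) := by
          rw [← hp]
          exact hys'
        have hxs : y + e i ∉ Spot (Bad X k) (par y) :=
          fun hc => hxs' ((spot_iff hbY hbe hn hn').1 hc)
        have a1 := hpot (par y) y i hbY (mem_near_par y) hn hys hxs
        have a2 := hdiff (par y) i (y + e i) hbY hbe hn hn' hxs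
        have a3 := hφ1 (par y) i hyS (by rw [← hp]; exact hyS')
        rw [hp]
        linarith
    · intro y hy hyc
      rw [S_step X _ hk1] at hy
      obtain ⟨hys, hyS⟩ := hy
      have hbY : par y ∉ nextBad (Bad X k) := S_not_bad hgood (by omega : k + 1 ≤ K' + 1) hyS
      have hpow3 : (100 : ℤ) ^ (K' + 1 + n) = 100 * 100 ^ (K' + n) := by
        rw [show K' + 1 + n = K' + n + 1 by omega, pow_succ]; ring
      have hpow4 : (100 : ℤ) ^ (K' + 1 + (n + 1)) = 100 * 100 ^ (K' + 1 + n) := by
        rw [← add_assoc, pow_succ]; ring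
      obtain ⟨j, hj⟩ := gheights_off hyc
      have hparj : (par y) j < -(100 ^ (K' + 1 + n)) ∨ 100 ^ (K' + 1 + n) ≤ (par y) j := by
        rw [par_apply]
        rw [hpow4] at hj
        omega
      have hparc : par y ∉ Cube (100 ^ (K' + 1 + n)) := gheights_off' hparj
      have b1 := hφ2 (par y) hyS hparc
      have b2 : pot (par y) y = 0 := by
        refine hfar (par y) hbY ⟨j, ?_⟩ y (mem_near_par y) hys
        rw [hpow3] at hparj
        rcases hparj with h5 | h5
        · left; linarith
        · right; linarith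
      simp only
      rw [b1, b2, add_zero]

theorem heights (X : Set V) (K : ℕ) (hK : 1 ≤ K) (κ : V → Fin 4 → ℤ) (h : Cocyc Xᶜ κ)
    (hz : ∀ x i, x ∉ Cube (100 ^ (2 * K - 1)) → κ x i = 0)
    (hgood : ∀ y ∈ Cube (100 ^ (K + 2)), y ∉ Bad X K) :
    ∃ ht : V → ℤ,
      (∀ x i, S X K (Cube (100 ^ (K + 2))) 0 x → S X K (Cube (100 ^ (K + 2))) 0 (x + e i) →
        κ x i = ht (x + e i) - ht x) ∧
      (∀ x, S X K (Cube (100 ^ (K + 2))) 0 x → x ∉ Cube (100 ^ (2 * K)) → ht x = 0) := by
  obtain ⟨K', rfl⟩ : ∃ K', K = K' + 1 := ⟨K - 1, by omega⟩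
  obtain ⟨φ, h1, h2⟩ := gheights_aux X K' hgood (K' + 1) 0 (by omega) κ h (by
    intro y i hy _ _
    refine hz y i ?_
    obtain ⟨j, hj⟩ := gheights_off hy
    refine gheights_off' (j := j) ?_
    rw [show 2 * (K' + 1) - 1 = K' + (K' + 1) by omega]
    omega)
  refine ⟨φ, h1, ?_⟩
  intro x hx hxc
  refine h2 x hx ?_
  rw [show K' + 1 + (K' + 1) = 2 * (K' + 1) by omega]
  exact hxc

end Pool.LPG
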