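import Pool.Agent.LP.GBas

/-!
# LP, part III: spots (hulls of the bad cells near a cell which is not bad)
-/

set_option autoImplicit false

namespace Pool.LPG

theorem GHull_near {B : Set V} {Y y y' : V} (hY : Y ∉ nextBad B) (hy : y ∈ B) (hyY : y ∈ Big Y)
    (hy' : y' ∈ B) (hyY' : y' ∈ Big Y) (i : Fin 4) : y' i ≤ y i + 7 := by
  by_contra hcon
  exact hY ⟨y, hy, y', hy', hyY, hyY', i, by omega⟩

/-- every bad cell near `Y` is within 7 of every cell of the spot -/
theorem spot_close {B : Set V} {Y x z : V} (hY : Y ∉ nextBad B) (hx : x ∈ Spot B Y) (hz : z ∈ B)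
    (hzY : z ∈ Big Y) (i : Fin 4) : z i ≤ x i + 7 ∧ x i ≤ z i + 7 := by
  obtain ⟨y, hy, hyY, h1⟩ := hx.1 i
  obtain ⟨y', hy', hyY', h2⟩ := hx.2 i
  have h3 := GHull_near hY hy hyY hz hzY i
  have h4 := GHull_near hY hz hzY hy' hyY' i
  constructor <;> omega

/-- the spot is a box with sides at most 8 -/
theorem spot_box {B : Set V} {Y : V} (hY : Y ∉ nextBad B) :
    ∃ c d : V, Spot B Y = Box c d ∧ ∀ i, d i - c i ≤ 8 := by
  by_cases hne : ∃ y, y ∈ B ∧ y ∈ Big Y
  · obtain ⟨y0, hy0, hy0Y⟩ := hne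
    have hmin : ∀ i : Fin 4, ∃ t : ℤ, (∃ y ∈ B, y ∈ Big Y ∧ y i = t) ∧
        ∀ z : ℤ, (∃ y ∈ B, y ∈ Big Y ∧ y i = z) → t ≤ z := by
      intro i
      apply Int.exists_least_of_bdd (P := fun t => ∃ y ∈ B, y ∈ Big Y ∧ y i = t)
      · refine ⟨100 * Y i - 16, ?_⟩
        rintro z ⟨y, _, hyY, rfl⟩
        exact (hyY i).1
      · exact ⟨y0 i, y0, hy0, hy0Y, rfl⟩
    have hmax : ∀ i : Fin 4, ∃ t : ℤ, (∃ y ∈ B, y ∈ Big Y ∧ y i = t) ∧
        ∀ z : ℤ, (∃ y ∈ B, y ∈ Big Y ∧ y i = z) → z ≤ t := by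
      intro i
      apply Int.exists_greatest_of_bdd (P := fun t => ∃ y ∈ B, y ∈ Big Y ∧ y i = t)
      · refine ⟨100 * Y i + 116, ?_⟩
        rintro z ⟨y, _, hyY, rfl⟩
        exact (hyY i).2.le
      · exact ⟨y0 i, y0, hy0, hy0Y, rfl⟩
    choose c hc1 hc2 using hmin
    choose d hd1 hd2 using hmax
    refine ⟨c, fun i => d i + 1, ?_, ?_⟩
    · ext x
      constructor
      · rintro ⟨h1, h2⟩ i
        obtain ⟨y, hy, hyY, h3⟩ := h1 i
        obtain ⟨y', hy', hyY', h4⟩ := h2 i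
        have h5 := hc2 i (y i) ⟨y, hy, hyY, rfl⟩
        have h6 := hd2 i (y' i) ⟨y', hy', hyY', rfl⟩
        constructor
        · omega
        · show x i < d i + 1
          omega
      · intro hx
        constructor
        · intro i
          obtain ⟨y, hy, hyY, h3⟩ := hc1 i
          exact ⟨y, hy, hyY, by rw [h3]; exact (hx i).1⟩
        · intro i
          obtain ⟨y, hy, hyY, h3⟩ := hd1 i
          refine ⟨y, hy, hyY, ?_⟩
          have h4 : x i < d i + 1 := (hx i).2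
          omega
    · intro i
      obtain ⟨y, hy, hyY, h3⟩ := hc1 i
      obtain ⟨y', hy', hyY', h4⟩ := hd1 i
      have h5 := GHull_near hY hy hyY hy' hyY' i
      show d i + 1 - c i ≤ 8
      omega
  · refine ⟨0, 0, ?_, fun i => by simp⟩
    ext x
    constructor
    · rintro ⟨h1, _⟩
      obtain ⟨y, hy, hyY, _⟩ := h1 0
      exact absurd ⟨y, hy, hyY⟩ hne
    · intro hx
      have := hx 0
      simp only [Pi.zero_apply] at this
      omega

/-- two neighbouring cells with a common cell of the spot near both have the same spot -/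
theorem hull_eq {B : Set V} {Y Y' x : V} (hY : Y ∉ nextBad B) (hY' : Y' ∉ nextBad B)
    (hx : x ∈ Spot B Y) (hn : x ∈ Near Y) (hn' : x ∈ Near Y') : Spot B Y = Spot B Y' := by
  obtain ⟨y0, hy0, hy0Y, _⟩ := hx.1 0
  have hy0c := fun i => spot_close hY hx hy0 hy0Y i
  have hy0Y' : y0 ∈ Big Y' := by
    intro i
    have h1 := hy0c i
    have h2 := hn' i
    constructor <;> omega
  have key : ∀ z : V, z ∈ B → (z ∈ Big Y ↔ z ∈ Big Y') := by
    intro z hz
    constructor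
    · intro hzY i
      have h1 := spot_close hY hx hz hzY i
      have h2 := hn' i
      constructor <;> omega
    · intro hzY' i
      have h1 := GHull_near hY' hy0 hy0Y' hz hzY' i
      have h2 := GHull_near hY' hz hzY' hy0 hy0Y' i
      have h3 := hy0c i
      have h4 := hn i
      constructor <;> omega
  ext v
  constructor
  · rintro ⟨h1, h2⟩
    constructor
    · intro i
      obtain ⟨y, hy, hyY, h3⟩ := h1 i
      exact ⟨y, hy, (key y hy).1 hyY, h3⟩
    · intro i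
      obtain ⟨y, hy, hyY, h3⟩ := h2 i
      exact ⟨y, hy, (key y hy).1 hyY, h3⟩
  · rintro ⟨h1, h2⟩
    constructor
    · intro i
      obtain ⟨y, hy, hyY, h3⟩ := h1 i
      exact ⟨y, hy, (key y hy).2 hyY, h3⟩
    · intro i
      obtain ⟨y, hy, hyY, h3⟩ := h2 i
      exact ⟨y, hy, (key y hy).2 hyY, h3⟩

/-- near both cells, the two spots agree -/
theorem spot_iff {B : Set V} {Y Y' x : V} (hY : Y ∉ nextBad B) (hY' : Y' ∉ nextBad B)
    (hn : x ∈ Near Y) (hn' : x ∈ Near Y') : x ∈ Spot B Y ↔ x ∈ Spot B Y' := by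
  constructor
  · intro h
    rw [← hull_eq hY hY' h hn hn']
    exact h
  · intro h
    rw [← hull_eq hY' hY h hn' hn]
    exact h

/-- in every axis there is a coordinate inside `Y` which avoids the ranges of up to four spots -/
theorem spot_avoid {B : Set V} {Y Y1 Y2 Y3 Y4 : V} (h1 : Y1 ∉ nextBad B) (h2 : Y2 ∉ nextBad B)
    (h3 : Y3 ∉ nextBad B) (h4 : Y4 ∉ nextBad B) (j : Fin 4) :
    ∃ t : ℤ, 100 * Y j ≤ t ∧ t < 100 * Y j + 100 ∧ ∀ x : V, x j = t →
      x ∉ Spot B Y1 ∧ x ∉ Spot B Y2 ∧ x ∉ Spot B Y3 ∧ x ∉ Spot B Y4 := by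
  obtain ⟨c1, d1, e1, l1⟩ := spot_box h1
  obtain ⟨c2, d2, e2, l2⟩ := spot_box h2
  obtain ⟨c3, d3, e3, l3⟩ := spot_box h3
  obtain ⟨c4, d4, e4, l4⟩ := spot_box h4
  have hcard : (Finset.Ico (c1 j) (d1 j) ∪ Finset.Ico (c2 j) (d2 j) ∪ (Finset.Ico (c3 j) (d3 j) ∪
      Finset.Ico (c4 j) (d4 j))).card < (Finset.Ico (100 * Y j) (100 * Y j + 100)).card := by
    have k1 := Finset.card_union_le (Finset.Ico (c1 j) (d1 j) ∪ Finset.Ico (c2 j) (d2 j))
      (Finset.Ico (c3 j) (d3 j) ∪ Finset.Ico (c4 j) (d4 j))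
    have k2 := Finset.card_union_le (Finset.Ico (c1 j) (d1 j)) (Finset.Ico (c2 j) (d2 j))
    have k3 := Finset.card_union_le (Finset.Ico (c3 j) (d3 j)) (Finset.Ico (c4 j) (d4 j))
    have m1 := l1 j
    have m2 := l2 j
    have m3 := l3 j
    have m4 := l4 j
    simp only [Int.card_Ico] at k1 k2 k3 ⊢
    omega
  obtain ⟨t, ht1, ht2⟩ := Finset.exists_mem_notMem_of_card_lt_card hcard
  simp only [Finset.mem_union, Finset.mem_Ico, not_or] at ht1 ht2
  refine ⟨t, ht1.1, ht1.2, ?_⟩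
  intro x hx
  rw [e1, e2, e3, e4]
  refine ⟨fun h => ?_, fun h => ?_, fun h => ?_, fun h => ?_⟩
  · have := h j; rw [hx] at this; exact ht2.1.1 this
  · have := h j; rw [hx] at this; exact ht2.1.2 this
  · have := h j; rw [hx] at this; exact ht2.2.1 this
  · have := h j; rw [hx] at this; exact ht2.2.2 this

end Pool.LPG
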