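import Pool.Agent.LP.GCo
import Pool.Agent.LP.GHull

/-!
# LP, part III: hierarchical two-neighbour rule inside a slice

Proof by induction on `k`.  `k = 0`: `Rule2` (`anc_zero`; the neighbours have the same coordinate
`i`).  `k+1`: let `Y` be the cell, `Y1 = Y + uv j1 s1`, `Y2 = Y + uv j2 s2`, `j3` the fourth axis.
If `Y i ≠ c / 100^(k+1)` the conclusion is empty.  Otherwise a vertex of `Y` in the slice lies in a
subcell `y` (`par y = Y`, `y i = c / 100^k`, `S_anc0` and `S_step`: `y` is sound, i.e. `y ∉ Spot Y`).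
Show that all subcells `y` of `Y` with `y i = c / 100^k`, `y ∉ Spot Y`, are slice-full, by the rule at
level `k`.  Let the spot of `Y` be `Box lo hi`, sides ≤ 8 (`spot_box`).  Near the common face of `Y`
and `Y1` the spots agree (`spot_iff`), so a subcell `y'` of `Y1` adjacent to `Y` whose coordinate
`j3` (or `j2`) avoids the range of the spot of `Y` is sound and slice-full; same for `Y2`.
Phase 1: subcells with `y j3 ∉ [lo j3, hi j3)`: no subcell of this plane (also in `Y1`, `Y2` next to
`Y`) is in a spot; fill from the corner at `Y1`, `Y2` (induction on the sum of the distances to the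
two faces).  Phase 2: `y j3 ∈ [lo j3, hi j3)`: since the range has length ≤ 8 < 100 at least one
side of it has room in `Y`; go from there into the range one plane after the other.  In each plane:
the start subcell is at the face of `Y1` with coordinate `j2` avoiding the spot (neighbours: in `Y1`
and in the previous plane); propagate inside the plane with `co`, `T = {j1, j2}`: each new subcell
`z' ∉ Spot` has the filled neighbour `z` in the plane and the filled neighbour in the previous plane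
(which is not in the spot because `z'` is not: either its coordinate `j3` is outside the range, or
the other three coordinates decide).
-/

set_option autoImplicit false

namespace Pool.LPG

/-- the subcells of `Y` -/
theorem glat_par_iff (y Y : V) :
    par y = Y ↔ ∀ l, 100 * Y l ≤ y l ∧ y l < 100 * Y l + 100 := by
  constructor
  · rintro rfl l
    rw [par_apply]
    omega
  · intro h
    funext l
    have := h l
    rw [par_apply]
    omega

theorem glat_uv_same (y : V) (j : Fin 4) (s : Bool) : (y + uv j s) j = y j + sg s := by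
  rw [Pi.add_apply, uv_same]

theorem glat_uv_ne (y : V) {j l : Fin 4} (s : Bool) (h : l ≠ j) : (y + uv j s) l = y l := by
  rw [Pi.add_apply, uv_ne s h, add_zero]

theorem glat_uv_back (y : V) (j : Fin 4) (s : Bool) : y + uv j s + uv j (!s) = y := by
  funext l
  by_cases h : l = j
  · subst h
    rw [glat_uv_same, glat_uv_same]
    cases s <;> simp [sg]
  · rw [glat_uv_ne _ _ h, glat_uv_ne _ _ h]

theorem glat_par_uv (y Y : V) (hy : par y = Y) (j : Fin 4) (s : Bool) :
    par (y + uv j s) = Y ∨ par (y + uv j s) = Y + uv j s := by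
  rw [glat_par_iff] at hy
  rw [glat_par_iff, glat_par_iff]
  have hj := hy j
  by_cases h : 100 * Y j ≤ y j + sg s ∧ y j + sg s < 100 * Y j + 100
  · left
    intro l
    by_cases hl : l = j
    · subst hl
      rw [glat_uv_same]
      exact h
    · rw [glat_uv_ne _ _ hl]
      exact hy l
  · right
    intro l
    by_cases hl : l = j
    · subst hl
      rw [glat_uv_same, glat_uv_same]
      cases s <;> simp only [sg_true, sg_false] at h ⊢ <;> omega
    · rw [glat_uv_ne _ _ hl, glat_uv_ne _ _ hl]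
      exact hy l

theorem glat_near_uv (y Y : V) (hy : par y = Y) (j : Fin 4) (s : Bool) :
    y + uv j s ∈ Near Y := by
  rw [glat_par_iff] at hy
  intro l
  have := hy l
  by_cases hl : l = j
  · subst hl
    rw [glat_uv_same]
    cases s <;> simp only [sg_true, sg_false] <;> omega
  · rw [glat_uv_ne _ _ hl]
    omega

theorem glat_near (y Y : V) (hy : par y = Y) : y ∈ Near Y := hy ▸ mem_near_par y

theorem glat_SF_par (X : Set V) (K : ℕ) (Top : Set V) (F : Set V) (i : Fin 4) (c : ℤ) (k : ℕ)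
    (y Y : V) (h : par y = Y) (hY : SF X K Top F i c (k + 1) Y) : SF X K Top F i c k y := by
  intro v hv hc hS
  exact hY v (by rw [anc_succ, hv, h]) hc hS

/-- soundness of subcells near `Y` -/
theorem glat_sound (X : Set V) {K : ℕ} (Top : Set V) {k : ℕ} (hk : k < K) (y Y Y' : V)
    (hY : Y ∉ nextBad (Bad X k)) (hY' : Y' ∉ nextBad (Bad X k)) (hS' : S X K Top (k + 1) Y')
    (hp : par y = Y') (hn : y ∈ Near Y) : S X K Top k y ↔ y ∉ Spot (Bad X k) Y := by
  rw [S_step X Top hk, hp, spot_iff hY hY' hn (glat_near y Y' hp)]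
  tauto

/-- distance to the face in direction `s` -/
def glat_d (s : Bool) (A x : ℤ) : ℤ := if s then A + 99 - x else x - A

theorem glat_d_nonneg (s : Bool) (A x : ℤ) (h1 : A ≤ x) (h2 : x < A + 100) :
    0 ≤ glat_d s A x := by
  unfold glat_d
  split_ifs <;> omega

theorem glat_d_add (s : Bool) (A x : ℤ) : glat_d s A (x + sg s) = glat_d s A x - 1 := by
  cases s
  · simp only [glat_d, sg_false]
    simp
    ring
  · simp only [glat_d, sg_true]
    simp
    ring

theorem glat_fourth : ∀ i j1 j2 : Fin 4, j1 ≠ j2 → j1 ≠ i → j2 ≠ i →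
    ∃ j3 : Fin 4, j3 ≠ i ∧ j3 ≠ j1 ∧ j3 ≠ j2 := by
  decide

/-- room outside the spot -/
theorem glat_room (A lo hi : ℤ) (h : hi - lo ≤ 8) :
    ∃ t, A ≤ t ∧ t < A + 100 ∧ (t < lo ∨ hi ≤ t) := by
  by_cases h1 : A < lo
  · exact ⟨A, le_rfl, by omega, Or.inl h1⟩
  · exact ⟨A + 99, by omega, by omega, Or.inr (by omega)⟩

theorem glat_off {lo hi y : V} (l : Fin 4) (h : y l < lo l ∨ hi l ≤ y l) : y ∉ Box lo hi := by
  intro hb
  have := hb l
  omega

theorem glat_ex_off {lo hi y : V} (h : y ∉ Box lo hi) : ∃ l, y l < lo l ∨ hi l ≤ y l := by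
  by_contra hcon
  push Not at hcon
  exact h fun l => hcon l

/-- planes without cells of the spot -/
theorem glat_planeA (X : Set V) (K : ℕ) (Top : Set V) (F : Set V) (i : Fin 4) (c : ℤ)
    (k : ℕ) (hk : k < K) (j1 j2 j3 : Fin 4) (s1 s2 : Bool) (h12 : j1 ≠ j2) (h1i : j1 ≠ i)
    (h2i : j2 ≠ i) (h31 : j3 ≠ j1) (h32 : j3 ≠ j2)
    (ih : ∀ (y : V) (j1 j2 : Fin 4) (s1 s2 : Bool), j1 ≠ j2 → j1 ≠ i → j2 ≠ i →
      S X K Top k y → S X K Top k (y + uv j1 s1) → S X K Top k (y + uv j2 s2) →
      SF X K Top F i c k (y + uv j1 s1) → SF X K Top F i c k (y + uv j2 s2) →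
      SF X K Top F i c k y)
    (Y lo hi : V) (hlh : Spot (Bad X k) Y = Box lo hi)
    (hY : Y ∉ nextBad (Bad X k)) (hY1 : Y + uv j1 s1 ∉ nextBad (Bad X k))
    (hY2 : Y + uv j2 s2 ∉ nextBad (Bad X k)) (hS : S X K Top (k + 1) Y)
    (hS1 : S X K Top (k + 1) (Y + uv j1 s1)) (hS2 : S X K Top (k + 1) (Y + uv j2 s2))
    (hF1 : SF X K Top F i c (k + 1) (Y + uv j1 s1))
    (hF2 : SF X K Top F i c (k + 1) (Y + uv j2 s2)) :
    ∀ n : ℕ, ∀ y : V, par y = Y → (y j3 < lo j3 ∨ hi j3 ≤ y j3) →
      glat_d s1 (100 * Y j1) (y j1) + glat_d s2 (100 * Y j2) (y j2) < n →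
      SF X K Top F i c k y := by
  intro n
  induction n with
  | zero =>
    intro y hy _ hd
    rw [glat_par_iff] at hy
    have d1 := glat_d_nonneg s1 (100 * Y j1) (y j1) (hy j1).1 (hy j1).2
    have d2 := glat_d_nonneg s2 (100 * Y j2) (y j2) (hy j2).1 (hy j2).2
    push_cast at hd
    omega
  | succ n ihn =>
    intro y hy ho hd
    have off1 : y + uv j1 s1 ∉ Spot (Bad X k) Y := by
      rw [hlh]
      exact glat_off j3 (by rw [glat_uv_ne _ _ h31]; exact ho)
    have off2 : y + uv j2 s2 ∉ Spot (Bad X k) Y := by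
      rw [hlh]
      exact glat_off j3 (by rw [glat_uv_ne _ _ h32]; exact ho)
    have off0 : y ∉ Spot (Bad X k) Y := by
      rw [hlh]
      exact glat_off j3 ho
    have n1 := glat_near_uv y Y hy j1 s1
    have n2 := glat_near_uv y Y hy j2 s2
    have sy : S X K Top k y := (glat_sound X Top hk y Y Y hY hY hS hy (glat_near y Y hy)).2 off0
    have g1 : S X K Top k (y + uv j1 s1) ∧ SF X K Top F i c k (y + uv j1 s1) := by
      rcases glat_par_uv y Y hy j1 s1 with hp | hp
      · refine ⟨(glat_sound X Top hk _ Y Y hY hY hS hp n1).2 off1, ihn _ hp ?_ ?_⟩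
        · rw [glat_uv_ne _ _ h31]
          exact ho
        · rw [glat_uv_same, glat_d_add, glat_uv_ne _ _ h12.symm]
          push_cast at hd
          omega
      · exact ⟨(glat_sound X Top hk _ Y _ hY hY1 hS1 hp n1).2 off1,
          glat_SF_par X K Top F i c k _ _ hp hF1⟩
    have g2 : S X K Top k (y + uv j2 s2) ∧ SF X K Top F i c k (y + uv j2 s2) := by
      rcases glat_par_uv y Y hy j2 s2 with hp | hp
      · refine ⟨(glat_sound X Top hk _ Y Y hY hY hS hp n2).2 off2, ihn _ hp ?_ ?_⟩
        · rw [glat_uv_ne _ _ h32]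
          exact ho
        · rw [glat_uv_same, glat_d_add, glat_uv_ne _ _ h12]
          push_cast at hd
          omega
      · exact ⟨(glat_sound X Top hk _ Y _ hY hY2 hS2 hp n2).2 off2,
          glat_SF_par X K Top F i c k _ _ hp hF2⟩
    exact ih y j1 j2 s1 s2 h12 h1i h2i sy g1.1 g2.1 g1.2 g2.2

/-- from one plane to the next plane -/
theorem glat_planeB (X : Set V) (K : ℕ) (Top : Set V) (F : Set V) (i : Fin 4) (c : ℤ)
    (k : ℕ) (hk : k < K) (j1 j2 j3 : Fin 4) (s1 : Bool) (h12 : j1 ≠ j2) (h1i : j1 ≠ i)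
    (h2i : j2 ≠ i) (h3i : j3 ≠ i) (h31 : j3 ≠ j1) (h32 : j3 ≠ j2)
    (ih : ∀ (y : V) (j1 j2 : Fin 4) (s1 s2 : Bool), j1 ≠ j2 → j1 ≠ i → j2 ≠ i →
      S X K Top k y → S X K Top k (y + uv j1 s1) → S X K Top k (y + uv j2 s2) →
      SF X K Top F i c k (y + uv j1 s1) → SF X K Top F i c k (y + uv j2 s2) →
      SF X K Top F i c k y)
    (Y lo hi : V) (hlh : Spot (Bad X k) Y = Box lo hi) (h8 : ∀ l, hi l - lo l ≤ 8)
    (hY : Y ∉ nextBad (Bad X k)) (hY1 : Y + uv j1 s1 ∉ nextBad (Bad X k))
    (hS : S X K Top (k + 1) Y) (hS1 : S X K Top (k + 1) (Y + uv j1 s1))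
    (hF1 : SF X K Top F i c (k + 1) (Y + uv j1 s1)) (t : ℤ) (s3 : Bool)
    (ht : lo j3 ≤ t ∧ t < hi j3) (ht1 : 100 * Y j3 ≤ t + sg s3)
    (ht2 : t + sg s3 < 100 * Y j3 + 100)
    (hPF : ∀ y : V, par y = Y → y j3 = t + sg s3 → y ∉ Spot (Bad X k) Y →
      SF X K Top F i c k y) :
    ∀ y : V, par y = Y → y j3 = t → y ∉ Spot (Bad X k) Y → SF X K Top F i c k y := by
  intro y hy hyt hys
  have hyb := (glat_par_iff y Y).1 hy
  -- the neighbour in the previous plane
  have prev : ∀ z : V, par z = Y → z j3 = t → z ∉ Spot (Bad X k) Y →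
      S X K Top k (z + uv j3 s3) ∧ SF X K Top F i c k (z + uv j3 s3) := by
    intro z hz hzt hzs
    have hp : par (z + uv j3 s3) = Y := by
      rw [glat_par_iff] at hz ⊢
      intro l
      by_cases hl : l = j3
      · subst hl
        rw [glat_uv_same, hzt]
        exact ⟨ht1, ht2⟩
      · rw [glat_uv_ne _ _ hl]
        exact hz l
    have ho : z + uv j3 s3 ∉ Spot (Bad X k) Y := by
      rw [hlh] at hzs ⊢
      obtain ⟨l, hl⟩ := glat_ex_off hzs
      have hl3 : l ≠ j3 := by
        rintro rfl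
        omega
      exact glat_off l (by rw [glat_uv_ne _ _ hl3]; exact hl)
    refine ⟨(glat_sound X Top hk _ Y Y hY hY hS hp (glat_near _ Y hp)).2 ho, hPF _ hp ?_ ho⟩
    rw [glat_uv_same, hzt]
  choose p hp using fun j => glat_room (100 * Y j) (lo j) (hi j) (h8 j)
  -- the start
  obtain ⟨y0, hy0⟩ : ∃ y0 : V, y0 = Function.update (Function.update y j1
      (if s1 then 100 * Y j1 + 99 else 100 * Y j1)) j2 (p j2) := ⟨_, rfl⟩
  have y01 : y0 j1 = if s1 then 100 * Y j1 + 99 else 100 * Y j1 := by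
    rw [hy0, Function.update_of_ne h12, Function.update_self]
  have y02 : y0 j2 = p j2 := by rw [hy0, Function.update_self]
  have y0o : ∀ l, l ≠ j1 → l ≠ j2 → y0 l = y l := by
    intro l h1 h2
    rw [hy0, Function.update_of_ne h2, Function.update_of_ne h1]
  have py0 : par y0 = Y := by
    rw [glat_par_iff]
    intro l
    by_cases hl1 : l = j1
    · subst hl1
      rw [y01]
      split_ifs <;> omega
    · by_cases hl2 : l = j2
      · subst hl2
        rw [y02]
        exact ⟨(hp l).1, (hp l).2.1⟩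
      · rw [y0o l hl1 hl2]
        exact hyb l
  have s0 : y0 ∉ Spot (Bad X k) Y := by
    rw [hlh]
    exact glat_off j2 (by rw [y02]; exact (hp j2).2.2)
  have t0 : y0 j3 = t := by rw [y0o j3 h31 h32, hyt]
  have full0 : SF X K Top F i c k y0 := by
    have q := prev y0 py0 t0 s0
    have o1 : y0 + uv j1 s1 ∉ Spot (Bad X k) Y := by
      rw [hlh]
      exact glat_off j2 (by rw [glat_uv_ne _ _ h12.symm, y02]; exact (hp j2).2.2)
    have p1 : par (y0 + uv j1 s1) = Y + uv j1 s1 := by
      rcases glat_par_uv y0 Y py0 j1 s1 with h | h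
      · exfalso
        rw [glat_par_iff] at h
        have := h j1
        rw [glat_uv_same, y01] at this
        cases s1
        · simp [sg] at this
        · simp [sg] at this
          omega
      · exact h
    exact ih y0 j1 j3 s1 s3 h31.symm h1i h3i
      ((glat_sound X Top hk _ Y Y hY hY hS py0 (glat_near _ Y py0)).2 s0)
      ((glat_sound X Top hk _ Y _ hY hY1 hS1 p1 (glat_near_uv _ _ py0 j1 s1)).2 o1) q.1
      (glat_SF_par X K Top F i c k _ _ p1 hF1) q.2
  have hT : 2 ≤ ({j1, j2} : Finset (Fin 4)).card := by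
    rw [Finset.card_pair h12]
  refine co {j1, j2} hT (fun l => 100 * Y l) (fun l => 100 * Y l + 100) lo hi p
    (fun j _ => hp j) y0 y ((glat_par_iff y0 Y).1 py0) (hlh ▸ s0) hyb (hlh ▸ hys) ?_
    (fun z => SF X K Top F i c k z) ?_ full0
  · intro l hl
    simp only [Finset.mem_insert, Finset.mem_singleton, not_or] at hl
    exact y0o l hl.1 hl.2
  · rintro z z' hz hzs hz' hzs' hzl ⟨j, hj, s, rfl⟩ hfull
    have hj' : j = j1 ∨ j = j2 := by simpa using hj
    have pz : par z = Y := (glat_par_iff z Y).2 hz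
    have pz' : par (z + uv j s) = Y := (glat_par_iff _ Y).2 hz'
    have hzS : z ∉ Spot (Bad X k) Y := by rw [hlh]; exact hzs
    have hzS' : z + uv j s ∉ Spot (Bad X k) Y := by rw [hlh]; exact hzs'
    have hj3 : j3 ≠ j := by
      rcases hj' with rfl | rfl
      · exact h31
      · exact h32
    have hji : j ≠ i := by
      rcases hj' with rfl | rfl
      · exact h1i
      · exact h2i
    have tz : (z + uv j s) j3 = t := by
      rw [glat_uv_ne _ _ hj3, hzl j3 (by simp [h31, h32]), t0]
    have q := prev _ pz' tz hzS'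
    have b := glat_uv_back z j s
    refine ih (z + uv j s) j j3 (!s) s3 hj3.symm hji h3i
      ((glat_sound X Top hk _ Y Y hY hY hS pz' (glat_near _ Y pz')).2 hzS') ?_ q.1 ?_ q.2
    · rw [b]
      exact (glat_sound X Top hk _ Y Y hY hY hS pz (glat_near _ Y pz)).2 hzS
    · rw [b]
      exact hfull

/-- the induction step -/
theorem glat_step (X : Set V) (K : ℕ) (Top : Set V) (F : Set V) (i : Fin 4) (c : ℤ)
    (k : ℕ) (hk : k < K) (j1 j2 : Fin 4) (s1 s2 : Bool) (h12 : j1 ≠ j2) (h1i : j1 ≠ i)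
    (h2i : j2 ≠ i)
    (ih : ∀ (y : V) (j1 j2 : Fin 4) (s1 s2 : Bool), j1 ≠ j2 → j1 ≠ i → j2 ≠ i →
      S X K Top k y → S X K Top k (y + uv j1 s1) → S X K Top k (y + uv j2 s2) →
      SF X K Top F i c k (y + uv j1 s1) → SF X K Top F i c k (y + uv j2 s2) →
      SF X K Top F i c k y)
    (Y : V)
    (hY : Y ∉ nextBad (Bad X k)) (hY1 : Y + uv j1 s1 ∉ nextBad (Bad X k))
    (hY2 : Y + uv j2 s2 ∉ nextBad (Bad X k)) (hS : S X K Top (k + 1) Y)
    (hS1 : S X K Top (k + 1) (Y + uv j1 s1)) (hS2 : S X K Top (k + 1) (Y + uv j2 s2))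
    (hF1 : SF X K Top F i c (k + 1) (Y + uv j1 s1))
    (hF2 : SF X K Top F i c (k + 1) (Y + uv j2 s2)) :
    ∀ y : V, par y = Y → y ∉ Spot (Bad X k) Y → SF X K Top F i c k y := by
  obtain ⟨j3, h3i, h31, h32⟩ := glat_fourth i j1 j2 h12 h1i h2i
  obtain ⟨lo, hi, hlh, h8⟩ := spot_box hY
  have A : ∀ y : V, par y = Y → (y j3 < lo j3 ∨ hi j3 ≤ y j3) → SF X K Top F i c k y := by
    intro y hy ho
    refine glat_planeA X K Top F i c k hk j1 j2 j3 s1 s2 h12 h1i h2i h31 h32 ih Y lo hi hlh hY
      hY1 hY2 hS hS1 hS2 hF1 hF2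
      ((glat_d s1 (100 * Y j1) (y j1) + glat_d s2 (100 * Y j2) (y j2) + 1).toNat) y hy ho ?_
    have hyb := (glat_par_iff y Y).1 hy
    have d1 := glat_d_nonneg s1 (100 * Y j1) (y j1) (hyb j1).1 (hyb j1).2
    have d2 := glat_d_nonneg s2 (100 * Y j2) (y j2) (hyb j2).1 (hyb j2).2
    omega
  have B := fun t s3 => glat_planeB X K Top F i c k hk j1 j2 j3 s1 h12 h1i h2i h3i h31 h32 ih Y
    lo hi hlh h8 hY hY1 hS hS1 hF1 t s3
  intro y hy hys
  have hyb := (glat_par_iff y Y).1 hy
  by_cases ho : y j3 < lo j3 ∨ hi j3 ≤ y j3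
  · exact A y hy ho
  obtain ⟨p, hp1, hp2, hp3⟩ := glat_room (100 * Y j3) (lo j3) (hi j3) (h8 j3)
  rcases hp3 with hp3 | hp3
  · have up : ∀ m : ℕ, p + m < 100 * Y j3 + 100 → ∀ y : V, par y = Y → y j3 = p + m →
        y ∉ Spot (Bad X k) Y → SF X K Top F i c k y := by
      intro m
      induction m with
      | zero =>
        intro _ y hy hyt _
        exact A y hy (Or.inl (by rw [hyt]; push_cast; omega))
      | succ m ihm =>
        intro hm y hy hyt hys
        by_cases ho : y j3 < lo j3 ∨ hi j3 ≤ y j3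
        · exact A y hy ho
        · refine B (p + (m + 1 : ℕ)) false (by omega) (by rw [sg_false]; push_cast; omega)
            (by rw [sg_false]; push_cast at hm ⊢; omega) ?_ y hy hyt hys
          intro y' hy' hyt' hys'
          refine ihm (by push_cast at hm; omega) y' hy' ?_ hys'
          rw [hyt', sg_false]
          push_cast
          ring
    obtain ⟨m, hm⟩ := Int.le.dest (show p ≤ y j3 by omega)
    exact up m (by have := (hyb j3).2; omega) y hy hm.symm hys
  · have down : ∀ m : ℕ, 100 * Y j3 ≤ p - m → ∀ y : V, par y = Y → y j3 = p - m →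
        y ∉ Spot (Bad X k) Y → SF X K Top F i c k y := by
      intro m
      induction m with
      | zero =>
        intro _ y hy hyt _
        exact A y hy (Or.inr (by rw [hyt]; push_cast; omega))
      | succ m ihm =>
        intro hm y hy hyt hys
        by_cases ho : y j3 < lo j3 ∨ hi j3 ≤ y j3
        · exact A y hy ho
        · refine B (p - (m + 1 : ℕ)) true (by omega) (by rw [sg_true]; push_cast at hm ⊢; omega)
            (by rw [sg_true]; push_cast; omega) ?_ y hy hyt hys
          intro y' hy' hyt' hys'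
          refine ihm (by push_cast at hm; omega) y' hy' ?_ hys'
          rw [hyt', sg_true]
          push_cast
          ring
    obtain ⟨m, hm⟩ := Int.le.dest (show y j3 ≤ p by omega)
    exact down m (by have := (hyb j3).1; omega) y hy (by omega) hys

/-- Lateral rule in the slice `x i = c`: a sound cell of level `k` with two sound slice-full
lateral neighbours in different axes is slice-full. -/
theorem rulelat (X : Set V) (K : ℕ) (Top : Set V) (hTop : ∀ y ∈ Top, y ∉ Bad X K) (F : Set V)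
    (hF : Rule2 X K Top F) (i : Fin 4) (c : ℤ) :
    ∀ k, k ≤ K → ∀ (y : V) (j1 j2 : Fin 4) (s1 s2 : Bool), j1 ≠ j2 → j1 ≠ i → j2 ≠ i →
      S X K Top k y → S X K Top k (y + uv j1 s1) → S X K Top k (y + uv j2 s2) →
      SF X K Top F i c k (y + uv j1 s1) → SF X K Top F i c k (y + uv j2 s2) →
      SF X K Top F i c k y := by
  intro k
  induction k with
  | zero =>
    intro _ y j1 j2 s1 s2 h12 h1i h2i _ hS1 hS2 hF1 hF2 v hv hc hSv
    rw [anc_zero] at hv
    subst hv
    refine hF v j1 j2 s1 s2 h12 hSv hS1 hS2 ?_ ?_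
    · exact hF1 _ (anc_zero _) (by rw [glat_uv_ne _ _ h1i.symm]; exact hc) hS1
    · exact hF2 _ (anc_zero _) (by rw [glat_uv_ne _ _ h2i.symm]; exact hc) hS2
  | succ k ih =>
    intro hk Y j1 j2 s1 s2 h12 h1i h2i hS hS1 hS2 hF1 hF2 v hv hc hSv
    have hk' : k < K := hk
    have nb : ∀ Z : V, S X K Top (k + 1) Z → Z ∉ nextBad (Bad X k) := fun Z hZ =>
      S_not_bad hTop hk hZ
    have hp : par (anc k v) = Y := by rw [← anc_succ, hv]
    have hs : anc k v ∉ Spot (Bad X k) Y := by
      have h1 := S_anc0 X Top k hk'.le v hSv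
      rw [S_step X Top hk', hp] at h1
      exact h1.1
    exact glat_step X K Top F i c k hk' j1 j2 s1 s2 h12 h1i h2i (ih hk'.le) Y (nb _ hS)
      (nb _ hS1) (nb _ hS2) hS hS1 hS2 hF1 hF2 (anc k v) hp hs v rfl hc hSv

end Pool.LPG
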