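import Pool.Agent.LP.GAnnex
import Pool.Agent.LP.GHull

/-!
# LP, part III: lifting the cochain to the next level
-/

set_option autoImplicit false

namespace Pool.LPG

theorem GLift_ne1 : ∀ i : Fin 4, ∃ l0 : Fin 4, l0 ≠ i := by decide

theorem GLift_ne2 : ∀ i j : Fin 4, ∃ l0 : Fin 4, l0 ≠ i ∧ l0 ≠ j := by decide

theorem GLift_uv_cases (z z' : V) (j : Fin 4) (s : Bool) (h : z' = z + uv j s) :
    z' = z + e j ∨ z = z' + e j := by
  cases s with
  | true => left; rw [h, uv_true]
  | false => right; rw [h, uv_false]; abel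

/-- a point of the enlarged cell whose coordinates avoid the spot in every axis -/
theorem GLift_point {B : Set V} {Y : V} (hY : Y ∉ nextBad B) :
    ∃ c d p : V, Spot B Y = Box c d ∧ ∀ j, 100 * Y j - 1 ≤ p j ∧ p j < 100 * Y j + 101 ∧
      (p j < c j ∨ d j ≤ p j) := by
  obtain ⟨c, d, hcd, hl⟩ := spot_box hY
  refine ⟨c, d, fun j => if 100 * Y j - 1 < c j then 100 * Y j - 1 else 100 * Y j + 100, hcd, ?_⟩
  intro j
  have := hl j
  show 100 * Y j - 1 ≤ (if 100 * Y j - 1 < c j then 100 * Y j - 1 else 100 * Y j + 100) ∧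
    (if 100 * Y j - 1 < c j then 100 * Y j - 1 else 100 * Y j + 100) < 100 * Y j + 101 ∧
    ((if 100 * Y j - 1 < c j then 100 * Y j - 1 else 100 * Y j + 100) < c j ∨
      d j ≤ (if 100 * Y j - 1 < c j then 100 * Y j - 1 else 100 * Y j + 100))
  split_ifs with h1
  · exact ⟨le_rfl, by omega, Or.inl h1⟩
  · exact ⟨by omega, by omega, Or.inr (by omega)⟩

theorem GLift_pot (B : Set V) (κ : V → Fin 4 → ℤ) (h : Cocyc Bᶜ κ) (Y : V) :
    ∃ f : V → ℤ, Y ∉ nextBad B →
      ((∀ x i, x ∈ Near Y → x + e i ∈ Near Y → x ∉ Spot B Y →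
        x + e i ∉ Spot B Y → κ x i = f (x + e i) - f x) ∧
      ((∀ x i, x ∈ Near Y → x + e i ∈ Near Y → x ∉ Spot B Y →
        x + e i ∉ Spot B Y → κ x i = 0) → ∀ x ∈ Near Y, x ∉ Spot B Y → f x = 0)) := by
  by_cases hY : Y ∉ nextBad B
  · by_cases hz : ∀ x i, x ∈ Near Y → x + e i ∈ Near Y → x ∉ Spot B Y →
        x + e i ∉ Spot B Y → κ x i = 0
    · refine ⟨fun _ => 0, fun _ => ⟨fun x i h1 h2 h3 h4 => ?_, fun _ x _ _ => rfl⟩⟩
      rw [hz x i h1 h2 h3 h4]
      rfl
    · obtain ⟨c, d, p, hcd, hp⟩ := GLift_point hY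
      have hB : ∀ x : V, x ∈ Near Y → x ∉ Spot B Y → x ∈ Bᶜ := fun x h1 h2 h3 =>
        h2 (bad_mem_spot h3 (near_sub_big Y h1))
      have hco : Cocyc (Box (fun i => 100 * Y i - 1) (fun i => 100 * Y i + 101) \ Box c d) κ := by
        intro x i j hij h1 h2 h3 h4
        have g : ∀ v : V, v ∈ Box (fun i => 100 * Y i - 1) (fun i => 100 * Y i + 101) \ Box c d →
            v ∈ Bᶜ := by
          intro v hv
          exact hB v hv.1 (by rw [hcd]; exact hv.2)
        exact h x i j hij (g _ h1) (g _ h2) (g _ h3) (g _ h4)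
      obtain ⟨f, hf⟩ := annex (fun i => 100 * Y i - 1) (fun i => 100 * Y i + 101) c d p hp κ hco
      refine ⟨f, fun _ => ⟨fun x i h1 h2 h3 h4 => ?_, fun h5 => absurd h5 hz⟩⟩
      rw [hcd] at h3 h4
      exact hf x i ⟨h1, h3⟩ ⟨h2, h4⟩
  · exact ⟨fun _ => 0, fun h' => absurd h' hY⟩

theorem GLift_mem (Y : V) (i : Fin 4) (x : V) :
    (x ∈ Near Y ∧ x ∈ Near (Y + e i)) ↔
      x ∈ Box (fun l => if l = i then 100 * Y l + 99 else 100 * Y l - 1)
        (fun l => 100 * Y l + 101) := by
  constructor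
  · rintro ⟨h1, h2⟩ l
    have k1 := h1 l
    have k2 := h2 l
    simp only [Pi.add_apply] at k2
    show (if l = i then 100 * Y l + 99 else 100 * Y l - 1) ≤ x l ∧ x l < 100 * Y l + 101
    by_cases hl : l = i
    · subst hl
      rw [e_same] at k2
      rw [if_pos rfl]
      constructor <;> omega
    · rw [if_neg hl]
      exact k1
  · intro hx
    have hx' : ∀ l, (if l = i then 100 * Y l + 99 else 100 * Y l - 1) ≤ x l ∧
        x l < 100 * Y l + 101 := hx
    constructor
    · intro l
      have := hx' l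
      by_cases hl : l = i
      · rw [if_pos hl] at this
        constructor <;> omega
      · rw [if_neg hl] at this
        exact this
    · intro l
      have := hx' l
      simp only [Pi.add_apply]
      by_cases hl : l = i
      · subst hl
        rw [if_pos rfl] at this
        rw [e_same]
        constructor <;> omega
      · rw [if_neg hl] at this
        rw [e_ne hl, add_zero]
        exact this

theorem GLift_diff (B : Set V) (κ : V → Fin 4 → ℤ) (pot : V → V → ℤ)
    (hpot : ∀ Y, Y ∉ nextBad B → ∀ x i, x ∈ Near Y → x + e i ∈ Near Y → x ∉ Spot B Y →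
        x + e i ∉ Spot B Y → κ x i = pot Y (x + e i) - pot Y x) (Y : V) (i : Fin 4) :
    ∃ k : ℤ, Y ∉ nextBad B → Y + e i ∉ nextBad B → ∀ x, x ∈ Near Y → x ∈ Near (Y + e i) →
        x ∉ Spot B Y → k = pot Y x - pot (Y + e i) x := by
  by_cases hY : Y ∉ nextBad B
  swap
  · exact ⟨0, fun h => absurd h hY⟩
  by_cases hY' : Y + e i ∉ nextBad B
  swap
  · exact ⟨0, fun _ h => absurd h hY'⟩
  obtain ⟨c, d, p, hcd, hp⟩ := GLift_point hY
  set g : V → ℤ := fun x => pot Y x - pot (Y + e i) x with hg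
  set a : V := fun l => if l = i then 100 * Y l + 99 else 100 * Y l - 1 with ha
  set b : V := fun l => 100 * Y l + 101 with hb
  have hmem : ∀ x : V, x ∈ Box a b → x ∈ Near Y ∧ x ∈ Near (Y + e i) := fun x hx =>
    (GLift_mem Y i x).2 hx
  have hstep : ∀ x : V, ∀ l : Fin 4, x ∈ Box a b → x ∉ Box c d → x + e l ∈ Box a b →
      x + e l ∉ Box c d → g (x + e l) = g x := by
    intro x l h1 h2 h3 h4
    obtain ⟨m1, m2⟩ := hmem x h1
    obtain ⟨m3, m4⟩ := hmem _ h3
    rw [← hcd] at h2 h4
    have k1 := hpot Y hY x l m1 m3 h2 h4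
    have h2' : x ∉ Spot B (Y + e i) := fun h => h2 ((spot_iff hY hY' m1 m2).2 h)
    have h4' : x + e l ∉ Spot B (Y + e i) := fun h => h4 ((spot_iff hY hY' m3 m4).2 h)
    have k2 := hpot (Y + e i) hY' x l m2 m4 h2' h4'
    simp only [hg]
    omega
  -- constant on slices
  have hslice : ∀ x y : V, x ∈ Box a b → x ∉ Box c d → y ∈ Box a b → y ∉ Box c d → x i = y i →
      g y = g x := by
    intro x y hx hxS hy hyS hxy
    refine co (Finset.univ.erase i) (by rw [Finset.card_erase_of_mem (Finset.mem_univ i)]; decide)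
      a b c d p ?_ x y hx hxS hy hyS ?_ (fun z => g z = g x) ?_ rfl
    · intro j hj
      have hji : j ≠ i := Finset.ne_of_mem_erase hj
      have := hp j
      refine ⟨?_, this.2.1, this.2.2⟩
      show (if j = i then 100 * Y j + 99 else 100 * Y j - 1) ≤ p j
      rw [if_neg hji]
      exact this.1
    · intro l hl
      have : l = i := by
        by_contra hne
        exact hl (Finset.mem_erase.2 ⟨hne, Finset.mem_univ l⟩)
      rw [this]
      exact hxy
    · rintro z z' h1 h2 h3 h4 _ ⟨j, _, s, hs⟩ h5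
      rcases GLift_uv_cases z z' j s hs with h6 | h6
      · rw [h6] at h3 h4 ⊢
        rw [hstep z j h1 h2 h3 h4]
        exact h5
      · rw [h6] at h1 h2 h5
        rw [← hstep z' j h3 h4 h1 h2]
        exact h5
  -- the two base points
  obtain ⟨l0, hl0⟩ := GLift_ne1 i
  set w : V := fun l => if l = i then 100 * Y l + 99 else p l with hw
  have hw1 : w ∈ Box a b := by
    intro l
    show (if l = i then 100 * Y l + 99 else 100 * Y l - 1) ≤
      (if l = i then 100 * Y l + 99 else p l) ∧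
      (if l = i then 100 * Y l + 99 else p l) < 100 * Y l + 101
    have := hp l
    by_cases hl : l = i
    · rw [if_pos hl, if_pos hl]; constructor <;> omega
    · rw [if_neg hl, if_neg hl]; exact ⟨this.1, this.2.1⟩
  have hw2 : w ∉ Box c d := by
    intro h
    have h1 := h l0
    have h2 : w l0 = p l0 := by
      show (if l0 = i then 100 * Y l0 + 99 else p l0) = p l0
      rw [if_neg hl0]
    have h3 := (hp l0).2.2
    rw [h2] at h1
    omega
  have hw3 : w + e i ∈ Box a b := by
    intro l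
    have := hw1 l
    by_cases hl : l = i
    · subst hl
      rw [Pi.add_apply, e_same]
      have h2 : w l = 100 * Y l + 99 := by
        show (if l = l then 100 * Y l + 99 else p l) = _
        rw [if_pos rfl]
      have h3 : a l = 100 * Y l + 99 := by
        show (if l = l then 100 * Y l + 99 else 100 * Y l - 1) = _
        rw [if_pos rfl]
      have h4 : b l = 100 * Y l + 101 := rfl
      rw [h2, h3, h4]
      constructor <;> omega
    · rw [Pi.add_apply, e_ne hl, add_zero]
      exact this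
  have hw4 : w + e i ∉ Box c d := by
    intro h
    have h1 := h l0
    rw [Pi.add_apply, e_ne hl0, add_zero] at h1
    have h2 : w l0 = p l0 := by
      show (if l0 = i then 100 * Y l0 + 99 else p l0) = p l0
      rw [if_neg hl0]
    have h3 := (hp l0).2.2
    rw [h2] at h1
    omega
  have hww := hstep w i hw1 hw2 hw3 hw4
  refine ⟨g w, fun _ _ x hx hx' hxS => ?_⟩
  have hxb : x ∈ Box a b := (GLift_mem Y i x).1 ⟨hx, hx'⟩
  rw [hcd] at hxS
  have hwi : w i = 100 * Y i + 99 := by
    show (if i = i then 100 * Y i + 99 else p i) = _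
    rw [if_pos rfl]
  have hxi := hxb i
  have hai : a i = 100 * Y i + 99 := by
    show (if i = i then 100 * Y i + 99 else 100 * Y i - 1) = _
    rw [if_pos rfl]
  have hbi : b i = 100 * Y i + 101 := rfl
  rw [hai, hbi] at hxi
  show g w = g x
  by_cases hc : x i = 100 * Y i + 99
  · exact hslice x w hxb hxS hw1 hw2 (by rw [hc, hwi])
  · rw [← hww]
    apply hslice x (w + e i) hxb hxS hw3 hw4
    rw [Pi.add_apply, e_same, hwi]
    omega

/-- One level: potentials `pot Y` near every cell `Y` of the next level which is not bad, and the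
cochain `κ'` of the next level (difference of the potentials on the common face), again closed. -/
theorem lift (B : Set V) (κ : V → Fin 4 → ℤ) (h : Cocyc Bᶜ κ) :
    ∃ (κ' : V → Fin 4 → ℤ) (pot : V → V → ℤ), Cocyc (nextBad B)ᶜ κ' ∧
      (∀ Y x i, Y ∉ nextBad B → x ∈ Near Y → x + e i ∈ Near Y → x ∉ Spot B Y →
        x + e i ∉ Spot B Y → κ x i = pot Y (x + e i) - pot Y x) ∧
      (∀ Y i x, Y ∉ nextBad B → Y + e i ∉ nextBad B → x ∈ Near Y → x ∈ Near (Y + e i) →
        x ∉ Spot B Y → κ' Y i = pot Y x - pot (Y + e i) x) ∧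
      (∀ Y, Y ∉ nextBad B → (∀ x i, x ∈ Near Y → x + e i ∈ Near Y → x ∉ Spot B Y →
        x + e i ∉ Spot B Y → κ x i = 0) → ∀ x ∈ Near Y, x ∉ Spot B Y → pot Y x = 0) := by
  choose pot hpot using GLift_pot B κ h
  have hpot1 : ∀ Y, Y ∉ nextBad B → ∀ x i, x ∈ Near Y → x + e i ∈ Near Y → x ∉ Spot B Y →
        x + e i ∉ Spot B Y → κ x i = pot Y (x + e i) - pot Y x := fun Y hY => (hpot Y hY).1
  choose κ' hκ' using GLift_diff B κ pot hpot1
  refine ⟨κ', pot, ?_, fun Y x i hY => (hpot Y hY).1 x i,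
    fun Y i x hY hY' h1 h2 h3 => hκ' Y i hY hY' x h1 h2 h3, fun Y hY => (hpot Y hY).2⟩
  intro Y i j hij hY hYi hYj hYij
  obtain ⟨c, d, p, hcd, hp⟩ := GLift_point hY
  obtain ⟨l0, hl0i, hl0j⟩ := GLift_ne2 i j
  set x : V := fun l => if l = i ∨ l = j then 100 * Y l + 100 else p l with hx
  have hxv : ∀ l : Fin 4, 100 * Y l - 1 ≤ x l ∧ x l < 100 * Y l + 101 ∧
      (l = i ∨ l = j → x l = 100 * Y l + 100) := by
    intro l
    have := hp l
    show 100 * Y l - 1 ≤ (if l = i ∨ l = j then 100 * Y l + 100 else p l) ∧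
      (if l = i ∨ l = j then 100 * Y l + 100 else p l) < 100 * Y l + 101 ∧
      (l = i ∨ l = j → (if l = i ∨ l = j then 100 * Y l + 100 else p l) = 100 * Y l + 100)
    split_ifs with h1
    · exact ⟨by omega, by omega, fun _ => rfl⟩
    · exact ⟨this.1, this.2.1, fun h2 => absurd h2 h1⟩
  have n0 : x ∈ Near Y := fun l => ⟨(hxv l).1, (hxv l).2.1⟩
  have ni : x ∈ Near (Y + e i) := by
    intro l
    have h1 := hxv l
    rw [Pi.add_apply]
    by_cases hl : l = i
    · subst hl
      have h2 := h1.2.2 (Or.inl rfl)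
      rw [e_same]
      constructor <;> omega
    · rw [e_ne hl, add_zero]
      exact ⟨h1.1, h1.2.1⟩
  have nj : x ∈ Near (Y + e j) := by
    intro l
    have h1 := hxv l
    rw [Pi.add_apply]
    by_cases hl : l = j
    · subst hl
      have h2 := h1.2.2 (Or.inr rfl)
      rw [e_same]
      constructor <;> omega
    · rw [e_ne hl, add_zero]
      exact ⟨h1.1, h1.2.1⟩
  have nij : x ∈ Near (Y + e i + e j) := by
    intro l
    have h1 := hxv l
    rw [Pi.add_apply, Pi.add_apply]
    by_cases hl : l = i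
    · subst hl
      have h2 := h1.2.2 (Or.inl rfl)
      rw [e_same, e_ne hij]
      constructor <;> omega
    · by_cases hl' : l = j
      · subst hl'
        have h2 := h1.2.2 (Or.inr rfl)
        rw [e_same, e_ne hl]
        constructor <;> omega
      · rw [e_ne hl, e_ne hl', add_zero, add_zero]
        exact ⟨h1.1, h1.2.1⟩
  have hxS : x ∉ Spot B Y := by
    rw [hcd]
    intro h1
    have h2 := h1 l0
    have h3 : x l0 = p l0 := by
      show (if l0 = i ∨ l0 = j then 100 * Y l0 + 100 else p l0) = p l0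
      rw [if_neg (by tauto)]
    have h4 := (hp l0).2.2
    rw [h3] at h2
    omega
  have hxSi : x ∉ Spot B (Y + e i) := fun h1 => hxS ((spot_iff hY hYi n0 ni).2 h1)
  have hxSj : x ∉ Spot B (Y + e j) := fun h1 => hxS ((spot_iff hY hYj n0 nj).2 h1)
  have hcomm : Y + e j + e i = Y + e i + e j := by abel
  have k1 := hκ' Y i hY hYi x n0 ni hxS
  have k2 := hκ' (Y + e i) j hYi hYij x ni nij hxSi
  have k3 := hκ' Y j hY hYj x n0 nj hxS
  have k4 := hκ' (Y + e j) i hYj (by rw [hcomm]; exact hYij) x nj (by rw [hcomm]; exact nij) hxSj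
  rw [hcomm] at k4
  omega

end Pool.LPG
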