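import Pool.Agent.LP.GFill

/-!
# LP, part III: two-layer rule and upward rule at all levels

Proofs by induction on `k`.
`mr`, `k = 0`: `Rule2` with the neighbours `y - uv i s` (axis `i`) and `y + uv j t` (axis `j ≠ i`).
`k+1`: `Y`, `Y' = lev i (c - sg s) (k+1) Y`, `Y1 = Y + uv j t`.  Choose a coordinate value in a third
axis avoiding the spots of `Y`, `Y'`, `Y1` (`spot_avoid`); let `y` be a subcell of `Y` at height
`c / 100^k` adjacent to `Y1` with this coordinate; `y`, `lev i (c - sg s) k y` and `y + uv j t` are
sound; the rule at level `k` gives `SF` for `y`; then `fill`.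
`up`, `k = 0`: `y = u`, `SF` at level 0 is `u ∈ F`.  `k+1`: by induction the subcell `anc k u` is
slice-full; it is sound and so is the subcell below (`S_anc0`; the cell of level `k` of `u - uv i s`
is `lev i (c - sg s) k (anc k u)`); then `fill`.
-/

set_option autoImplicit false

namespace Pool.LPG

theorem gmr_uv_not (i : Fin 4) (s : Bool) : uv i (!s) = - uv i s := by
  cases s
  · simp [uv_true, uv_false]
  · simp [uv_true, uv_false]

/-- the cell of the vertex below -/
theorem gmr_anc_sub (i : Fin 4) (s : Bool) (c : ℤ) (k : ℕ) (u : V) (hu : u i = c) :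
    anc k (u - uv i s) = lev i (c - sg s) k (anc k u) := by
  funext j
  by_cases hj : j = i
  · subst hj
    rw [lev_same, anc_apply, Pi.sub_apply, uv_same, hu]
  · rw [lev_ne _ _ _ _ hj, anc_apply, anc_apply, Pi.sub_apply, uv_ne s hj, sub_zero]

/-- fullness passes to subcells -/
theorem gmr_SF_sub {X : Set V} {K : ℕ} {Top F : Set V} {i : Fin 4} {c : ℤ} {k : ℕ} {y : V}
    (h : SF X K Top F i c (k + 1) (par y)) : SF X K Top F i c k y := by
  intro v hv hvi hS
  refine h v ?_ hvi hS
  rw [anc_succ, hv]

theorem gmr_third : ∀ i j : Fin 4, ∃ m : Fin 4, m ≠ i ∧ m ≠ j := by decide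

theorem mr (X : Set V) (K : ℕ) (Top : Set V) (hTop : ∀ y ∈ Top, y ∉ Bad X K) (F : Set V)
    (hF : Rule2 X K Top F) (i : Fin 4) (s : Bool) (c : ℤ) :
    ∀ k, k ≤ K → MRst X K Top F i s c k := by
  intro k
  induction k with
  | zero =>
    intro _ y hyi hS hS' hlow j t hji hS1 hfull v hv hvi hvS
    rw [anc_zero] at hv
    subst hv
    have hlev : lev i (c - sg s) 0 v = v - uv i s := by
      have := gmr_anc_sub i s c 0 v hvi
      rw [anc_zero, anc_zero] at this
      exact this.symm
    rw [hlev] at hS' hlow
    have hin : v - uv i s ∈ F := by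
      refine hlow _ (anc_zero _) ?_ hS'
      rw [Pi.sub_apply, uv_same, hvi]
    have hin1 : v + uv j t ∈ F := by
      refine hfull _ (anc_zero _) ?_ hS1
      rw [Pi.add_apply, uv_ne t (Ne.symm hji), hvi, add_zero]
    have hneg : v + uv i (!s) = v - uv i s := by
      rw [gmr_uv_not, sub_eq_add_neg]
    refine hF v i j (!s) t (Ne.symm hji) hS ?_ hS1 ?_ hin1
    · rw [hneg]; exact hS'
    · rw [hneg]; exact hin
  | succ k ih =>
    intro hk Y hYi hS hS' hlow j t hji hS1 hfull
    have hkK : k < K := hk
    obtain ⟨m, hmi, hmj⟩ : ∃ m : Fin 4, m ≠ i ∧ m ≠ j := gmr_third i j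
    have hb := S_not_bad hTop hk hS
    have hb' := S_not_bad hTop hk hS'
    have hb1 := S_not_bad hTop hk hS1
    obtain ⟨τ, hτ1, hτ2, hτ⟩ := spot_avoid (B := Bad X k) (Y := Y) hb hb' hb1 hb m
    set y : V := fun l => if l = i then c / 100 ^ k else if l = j then
      (if t then 100 * Y j + 99 else 100 * Y j) else if l = m then τ else 100 * Y l with hy
    have hyi : y i = c / 100 ^ k := by simp [hy]
    have hyj : y j = (if t then 100 * Y j + 99 else 100 * Y j) := by simp [hy, hji]
    have hym : y m = τ := by simp [hy, hmi, hmj]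
    have hpar : par y = Y := by
      funext l
      rw [par_apply]
      by_cases hli : l = i
      · subst hli
        rw [hyi, hYi, pow_succ, Int.ediv_ediv_of_nonneg (by positivity)]
      · by_cases hlj : l = j
        · subst hlj
          rw [hyj]
          cases t <;> simp <;> omega
        · by_cases hlm : l = m
          · subst hlm
            rw [hym]
            omega
          · simp only [hy, if_neg hli, if_neg hlj, if_neg hlm]
            omega
    have hpar' : par (lev i (c - sg s) k y) = lev i (c - sg s) (k + 1) Y := by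
      rw [par_lev, hpar]
    have hpar1 : par (y + uv j t) = Y + uv j t := by
      funext l
      rw [par_apply, Pi.add_apply, Pi.add_apply]
      by_cases hlj : l = j
      · subst hlj
        rw [hyj, uv_same]
        cases t
        · simp only [sg_false]
          simp
          omega
        · simp only [sg_true]
          simp
          omega
      · rw [uv_ne t hlj, add_zero, add_zero]
        exact congrFun hpar l
    have hyS : S X K Top k y := by
      rw [S_step X Top hkK, hpar]
      exact ⟨(hτ y hym).1, hS⟩
    have hyS' : S X K Top k (lev i (c - sg s) k y) := by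
      rw [S_step X Top hkK, hpar']
      refine ⟨(hτ _ ?_).2.1, hS'⟩
      rw [lev_ne _ _ _ _ hmi, hym]
    have hyS1 : S X K Top k (y + uv j t) := by
      rw [S_step X Top hkK, hpar1]
      refine ⟨(hτ _ ?_).2.2.1, hS1⟩
      rw [Pi.add_apply, uv_ne t hmj, hym, add_zero]
    have hlow' : SF X K Top F i (c - sg s) k (lev i (c - sg s) k y) := by
      apply gmr_SF_sub
      rw [hpar']
      exact hlow
    have hfull1 : SF X K Top F i c k (y + uv j t) := by
      apply gmr_SF_sub
      rw [hpar1]
      exact hfull
    have hfy : SF X K Top F i c k y :=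
      ih hkK.le y hyi hyS hyS' hlow' j t hji hyS1 hfull1
    exact fill X K Top hTop F hF i s c k hkK (ih hkK.le) Y hYi hS hS' hlow y hpar hyi hyS hyS' hfy

/-- If the slice `c - sg s` is full under the cell `y` of level `k`, and one two-layer-sound vertex
`u` of `y` in the slice `c` is in `F`, then `y` is slice-full at `c`. -/
theorem up (X : Set V) (K : ℕ) (Top : Set V) (hTop : ∀ y ∈ Top, y ∉ Bad X K) (F : Set V)
    (hF : Rule2 X K Top F) (i : Fin 4) (s : Bool) (c : ℤ) :
    ∀ k, k ≤ K → ∀ (y u : V), anc k u = y → u i = c → S X K Top 0 u →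
      S X K Top 0 (u - uv i s) → SF X K Top F i (c - sg s) k (lev i (c - sg s) k y) → u ∈ F →
      SF X K Top F i c k y := by
  intro k
  induction k with
  | zero =>
    intro _ y u hu hui hS hS' hlow huF v hv hvi hvS
    rw [anc_zero] at hu hv
    rw [hv, ← hu]
    exact huF
  | succ k ih =>
    intro hk y u hu hui hS hS' hlow huF
    have hkK : k < K := hk
    have hpar : par (anc k u) = y := by rw [← anc_succ, hu]
    have hpar' : par (lev i (c - sg s) k (anc k u)) = lev i (c - sg s) (k + 1) y := by
      rw [par_lev, hpar]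
    have hlow' : SF X K Top F i (c - sg s) k (lev i (c - sg s) k (anc k u)) := by
      apply gmr_SF_sub
      rw [hpar']
      exact hlow
    have hfy := ih hkK.le (anc k u) u rfl hui hS hS' hlow' huF
    have hyS : S X K Top (k + 1) y := by
      rw [← hu]
      exact S_anc0 X Top (k + 1) hk u hS
    have hyS' : S X K Top (k + 1) (lev i (c - sg s) (k + 1) y) := by
      rw [← hu, ← gmr_anc_sub i s c (k + 1) u hui]
      exact S_anc0 X Top (k + 1) hk _ hS'
    have hkS : S X K Top k (anc k u) := S_anc0 X Top k hkK.le u hS
    have hkS' : S X K Top k (lev i (c - sg s) k (anc k u)) := by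
      rw [← gmr_anc_sub i s c k u hui]
      exact S_anc0 X Top k hkK.le _ hS'
    have hyi : y i = c / 100 ^ (k + 1) := by rw [← hu, anc_apply, hui]
    have hai : (anc k u) i = c / 100 ^ k := by rw [anc_apply, hui]
    exact fill X K Top hTop F hF i s c k hkK
      (mr X K Top hTop F hF i s c k hkK.le) y hyi hyS hyS' hlow (anc k u) hpar hai hkS hkS' hfy

end Pool.LPG
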