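import Pool.Agent.LP.GPrS

/-!
# LP, part III (probability): a flat patch of size `100^(2K)` is broken with overwhelming
probability

`patch_prob`: choose a lateral axis `j ≠ i` and for `a < 100^(K-1)` the vertex `v_a` with coordinate
`i` equal to `c`, coordinate `j` equal to `a * 100^(K+1)`, the others 0, and `Y_a = anc k v_a`.  The
events `E (Y_a) ∩ {S k Y_a} ∩ {S k (lev .. Y_a)}` have probability at least `l - l/4 - l/4` and are
local in pairwise disjoint regions (within `2 * 100^K + 4 * 100^k + ... < 100^(K+1) / 2` of `v_a`):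
`trials` with `q = l/2`.
-/

set_option autoImplicit false

open MeasureTheory

namespace Pool.LPG

variable {Ω : Type*} [m : MeasurableSpace Ω]

omit m in
theorem gpatch_meas (F : Set V → MeasurableSpace Ω) (hmono : ∀ U U', U ⊆ U' → F U ≤ F U')
    (A : ℕ) (U : ℕ → Set V) (E : ℕ → Set Ω) (hE : ∀ a, a < A → MeasurableSet[F (U a)] (E a)) :
    MeasurableSet[F (⋃ a ∈ Set.Iio A, U a)] {ω | ∀ a, a < A → ω ∉ E a} := by
  have h1 : {ω | ∀ a, a < A → ω ∉ E a} = ⋂ a ∈ Set.Iio A, (E a)ᶜ := by
    ext ω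
    simp
  rw [h1]
  refine MeasurableSet.biInter (Set.to_countable _) ?_
  intro a ha
  refine MeasurableSet.compl ?_
  exact hmono _ _ (Set.subset_biUnion_of_mem ha) _ (hE a ha)

/-- independent trials: events local in pairwise disjoint regions, each of probability at least
`q`; then all fail with probability at most `(1-q)^A` -/
theorem trials (μ : Measure Ω) [IsProbabilityMeasure μ]
    (F : Set V → MeasurableSpace Ω) (hF : Loc μ F) (A : ℕ) (U : ℕ → Set V) (E : ℕ → Set Ω) (q : ℝ)
    (hq0 : 0 ≤ q) (hq1 : q ≤ 1) (hU : ∀ a b, a < A → b < A → a ≠ b → Disjoint (U a) (U b))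
    (hE : ∀ a, a < A → MeasurableSet[F (U a)] (E a))
    (hE' : ∀ a, a < A → ENNReal.ofReal q ≤ μ (E a)) :
    μ {ω | ∀ a, a < A → ω ∉ E a} ≤ ENNReal.ofReal ((1 - q) ^ A) := by
  induction A with
  | zero =>
    simp only [pow_zero, ENNReal.ofReal_one]
    exact prob_le_one
  | succ A ih =>
    have ih' := ih (fun a b ha hb => hU a b (by omega) (by omega)) (fun a ha => hE a (by omega))
      (fun a ha => hE' a (by omega))
    have hset : {ω | ∀ a, a < A + 1 → ω ∉ E a} = {ω | ∀ a, a < A → ω ∉ E a} ∩ (E A)ᶜ := by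
      ext ω
      simp only [Set.mem_ofPred_eq, Set.mem_inter_iff, Set.mem_compl_iff]
      constructor
      · intro h
        exact ⟨fun a ha => h a (by omega), h A (by omega)⟩
      · rintro ⟨h1, h2⟩ a ha
        rcases Nat.lt_or_ge a A with h | h
        · exact h1 a h
        · have : a = A := by omega
          rw [this]
          exact h2
    have hdis : Disjoint (⋃ a ∈ Set.Iio A, U a) (U A) := by
      rw [Set.disjoint_iUnion₂_left]
      intro a ha
      have ha' : a < A := ha
      exact hU a A (by omega) (by omega) (by omega)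
    have hm1 := gpatch_meas F hF.mono A U E (fun a ha => hE a (by omega))
    have hm2 : MeasurableSet[F (U A)] (E A)ᶜ := (hE A (by omega)).compl
    rw [hset, hF.indep _ _ _ _ hdis hm1 hm2]
    have hEm : MeasurableSet (E A) := hF.le _ _ (hE A (by omega))
    have h3 : μ (E A)ᶜ ≤ ENNReal.ofReal (1 - q) := by
      rw [prob_compl_eq_one_sub hEm, ENNReal.ofReal_sub 1 hq0, ENNReal.ofReal_one]
      exact tsub_le_tsub_left (hE' A (by omega)) 1
    rw [pow_succ, ENNReal.ofReal_mul (pow_nonneg (by linarith) A)]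
    exact mul_le_mul' ih' h3

theorem patch_prob (μ : Measure Ω) [IsProbabilityMeasure μ]
    (F : Set V → MeasurableSpace Ω) (hF : Loc μ F) (X : V → Set Ω)
    (hX : ∀ z, MeasurableSet[F (Ball z 3)] (X z)) (K k : ℕ) (hk : k < K) (l : ℝ) (hl : 0 < l)
    (hl1 : l ≤ 1) (hS : ∀ y : V, μ {ω | ¬ S (XX X ω) K Set.univ k y} ≤ ENNReal.ofReal (l / 4))
    (i : Fin 4) (s : Bool) (c : ℤ) (E : V → Set Ω)
    (hE : ∀ Y, Y i = c / 100 ^ k → MeasurableSet[F (RegE k Y)] (E Y))
    (hEl : ∀ Y, Y i = c / 100 ^ k → ENNReal.ofReal l ≤ μ (E Y)) :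
    μ {ω | ∀ Y : V, Y i = c / 100 ^ k →
        (∀ j, j ≠ i → -100 ^ (2 * K - k) ≤ Y j ∧ Y j < 100 ^ (2 * K - k)) →
        ¬ (ω ∈ E Y ∧ S (XX X ω) K Set.univ k Y ∧
          S (XX X ω) K Set.univ k (lev i (c - sg s) k Y))} ≤
      ENNReal.ofReal ((1 - l / 2) ^ (100 ^ (K - 1))) := by
  classical
  obtain ⟨j, hj⟩ : ∃ j : Fin 4, j ≠ i := exists_ne i
  obtain ⟨Y, hYdef⟩ : ∃ Y : ℕ → V, Y = fun (a : ℕ) t =>
    if t = i then c / 100 ^ k else if t = j then (a : ℤ) * 100 ^ (K + 1 - k) else 0 := ⟨_, rfl⟩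
  have hYi : ∀ a, Y a i = c / 100 ^ k := by
    intro a
    rw [hYdef]
    simp
  have hYj : ∀ a, Y a j = (a : ℤ) * 100 ^ (K + 1 - k) := by
    intro a
    rw [hYdef]
    simp [hj]
  have hYt : ∀ a t, t ≠ i → t ≠ j → Y a t = 0 := by
    intro a t h1 h2
    rw [hYdef]
    simp [h1, h2]
  have hpow : (100 : ℤ) ^ k * 100 ^ (K + 1 - k) = 100 * 100 ^ K := by
    rw [← pow_add, show k + (K + 1 - k) = K + 1 by omega, pow_succ]
    ring
  have hkK : 4 * (100 : ℤ) ^ k ≤ 2 * 100 ^ K := by
    have h1 : (100 : ℤ) ^ (k + 1) ≤ 100 ^ K := pow_le_pow_right₀ (by norm_num) (by omega)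
    rw [pow_succ] at h1
    have h2 : (0 : ℤ) < 100 ^ k := by positivity
    linarith
  -- all points of the region are near `v_a` in the coordinate `j`
  have hreg : ∀ a : ℕ, ∀ x ∈ RegE k (Y a) ∪ RegS K k (Y a) ∪ RegS K k (lev i (c - sg s) k (Y a)),
      (a : ℤ) * (100 * 100 ^ K) - 2 * 100 ^ K ≤ x j ∧
      x j ≤ (a : ℤ) * (100 * 100 ^ K) + 2 * 100 ^ K := by
    intro a x hx
    have h0 : (100 : ℤ) ^ k * Y a j = (a : ℤ) * (100 * 100 ^ K) := by
      rw [hYj, ← hpow]
      ring
    have h00 : (0 : ℤ) < 100 ^ k := by positivity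
    rcases hx with (hx | hx) | hx
    · have h1 := hx j
      rw [h0] at h1
      constructor <;> linarith [h1.1, h1.2]
    · have h1 := hx j
      rw [h0] at h1
      exact h1
    · have h1 := hx j
      rw [lev_ne i (c - sg s) k (Y a) hj, h0] at h1
      exact h1
  have hdis : ∀ a b : ℕ, a < b → Disjoint
      (RegE k (Y a) ∪ RegS K k (Y a) ∪ RegS K k (lev i (c - sg s) k (Y a)))
      (RegE k (Y b) ∪ RegS K k (Y b) ∪ RegS K k (lev i (c - sg s) k (Y b))) := by
    intro a b hab
    rw [Set.disjoint_left]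
    intro x h1 h2
    have h3 := (hreg a x h1).2
    have h4 := (hreg b x h2).1
    have h5 : (a : ℤ) + 1 ≤ b := by exact_mod_cast hab
    have h6 : (0 : ℤ) < 100 ^ K := by positivity
    nlinarith
  have htr := trials μ F hF (100 ^ (K - 1))
    (fun a => RegE k (Y a) ∪ RegS K k (Y a) ∪ RegS K k (lev i (c - sg s) k (Y a)))
    (fun a => E (Y a) ∩ {ω | S (XX X ω) K Set.univ k (Y a)} ∩
      {ω | S (XX X ω) K Set.univ k (lev i (c - sg s) k (Y a))}) (l / 2) (by linarith)
    (by linarith)
    (by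
      intro a b _ _ hab
      rcases Nat.lt_or_gt_of_ne hab with h | h
      · exact hdis a b h
      · exact (hdis b a h).symm)
    (by
      intro a _
      refine MeasurableSet.inter (MeasurableSet.inter ?_ ?_) ?_
      · exact hF.mono _ _ (Set.subset_union_left.trans Set.subset_union_left) _ (hE (Y a) (hYi a))
      · exact hF.mono _ _ (Set.subset_union_right.trans Set.subset_union_left) _
          (meas_S μ F hF X hX K k hk.le (Y a))
      · exact hF.mono _ _ Set.subset_union_right _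
          (meas_S μ F hF X hX K k hk.le (lev i (c - sg s) k (Y a))))
    (by
      intro a _
      have h1 := hEl (Y a) (hYi a)
      have h2 : μ (E (Y a)) ≤ μ (E (Y a) ∩ {ω | S (XX X ω) K Set.univ k (Y a)} ∩
          {ω | S (XX X ω) K Set.univ k (lev i (c - sg s) k (Y a))}) +
          μ {ω | ¬ S (XX X ω) K Set.univ k (Y a)} +
          μ {ω | ¬ S (XX X ω) K Set.univ k (lev i (c - sg s) k (Y a))} := by
        refine (measure_mono ?_).trans ((measure_union_le _ _).trans
          (add_le_add (measure_union_le _ _) le_rfl))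
        intro ω hω
        by_cases hs1 : S (XX X ω) K Set.univ k (Y a)
        · by_cases hs2 : S (XX X ω) K Set.univ k (lev i (c - sg s) k (Y a))
          · exact Or.inl (Or.inl ⟨⟨hω, hs1⟩, hs2⟩)
          · exact Or.inr hs2
        · exact Or.inl (Or.inr hs1)
      have h3 : ENNReal.ofReal l = ENNReal.ofReal (l / 2) + ENNReal.ofReal (l / 4) +
          ENNReal.ofReal (l / 4) := by
        rw [← ENNReal.ofReal_add (by positivity) (by positivity),
          ← ENNReal.ofReal_add (by positivity) (by positivity)]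
        congr 1
        ring
      have h4 := h1.trans h2
      rw [h3] at h4
      have h5 : ENNReal.ofReal (l / 2) + ENNReal.ofReal (l / 4) + ENNReal.ofReal (l / 4) ≤
          μ (E (Y a) ∩ {ω | S (XX X ω) K Set.univ k (Y a)} ∩
          {ω | S (XX X ω) K Set.univ k (lev i (c - sg s) k (Y a))}) + ENNReal.ofReal (l / 4) +
            ENNReal.ofReal (l / 4) :=
        h4.trans (add_le_add (add_le_add le_rfl (hS _)) (hS _))
      rw [ENNReal.add_le_add_iff_right ENNReal.ofReal_ne_top,
        ENNReal.add_le_add_iff_right ENNReal.ofReal_ne_top] at h5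
      exact h5)
  refine (measure_mono ?_).trans htr
  intro ω hω a ha hω2
  refine hω (Y a) (hYi a) ?_ ⟨hω2.1.1, hω2.1.2, hω2.2⟩
  intro t ht
  have hP : (0 : ℤ) < 100 ^ (2 * K - k) := by positivity
  by_cases htj : t = j
  · subst htj
    rw [hYj]
    have h1 : (a : ℤ) < 100 ^ (K - 1) := by exact_mod_cast ha
    have h2 : (100 : ℤ) ^ (K - 1) * 100 ^ (K + 1 - k) = 100 ^ (2 * K - k) := by
      rw [← pow_add]
      congr 1
      omega
    have h3 : (0 : ℤ) < 100 ^ (K + 1 - k) := by positivity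
    have h4 : (0 : ℤ) ≤ a := Int.natCast_nonneg a
    constructor
    · have : 0 ≤ (a : ℤ) * 100 ^ (K + 1 - k) := by positivity
      linarith
    · rw [← h2]
      exact mul_lt_mul_of_pos_right h1 h3
  · rw [hYt a t ht htj]
    constructor
    · linarith
    · exact hP

end Pool.LPG
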