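import Pool.Agent.LP.GDet
import Pool.Agent.LP.GPatch

/-!
# LP, part III: main theorem of the geometry part

Proof.  WLOG `l ≤ 1`.  `prob_S` with `ε = l/4` gives `k ≥ k1, k'`.  Take `K0 > k` so large that
`μ (not GoodFrom K0) ≤ 1/4` and `sum_(K ≥ K0) 4 * 2 * (2 * 100^(2K+2)) * (1 - l/2)^(100^(K-1)) ≤ 1/4`.
If almost surely `Fn ω L` for all `L`, there is `ω` with `Fn ω (100^(2 K0))`, `GoodFrom`, and for all
`K ≥ K0`, `i, s, c` (`-100^(2K+2) ≤ c < 100^(2K+2)`) a cell `Y` of level `k` in the patch with `ω ∈ E Y`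
(chosen from `hL`), `Y` and the cell below sound up to `K` (`patch_prob`).  The vertex `u` given by
`hL` (for `L = 100^(2 K0)`) is two-layer-sound below level `k`, hence (`S_comp`;
`anc k (u - uv i s) = lev i (c - sg s) k Y`) two-layer-sound up to `K`, and `¬ C`; it lies in the
patch; so `det` applies: contradiction.
-/

set_option autoImplicit false

open MeasureTheory

namespace Pool.LPG

theorem gmain_series (l : ℝ) (hl : 0 < l) (hl1 : l ≤ 1) :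
    ∃ N : ℕ, ∀ n, N ≤ n → ∑' t : ℕ, ENNReal.ofReal
      (16 * 100 ^ 4 * (((100 ^ (n + t) : ℕ) : ℝ) ^ 2 * (1 - l / 2) ^ (100 ^ (n + t)))) ≤
        ENNReal.ofReal (1 / 4) := by
  set r : ℝ := 1 - l / 2 with hr
  have hr0 : 0 ≤ r := by rw [hr]; linarith
  have hr1 : ‖r‖ < 1 := by rw [Real.norm_of_nonneg hr0, hr]; linarith
  set f : ℕ → ℝ := fun m => 16 * 100 ^ 4 * ((m : ℝ) ^ 2 * r ^ m) with hf
  have hfs : Summable f := (summable_pow_mul_geometric_of_norm_lt_one 2 hr1).mul_left _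
  have hinj : Function.Injective (fun t : ℕ => 100 ^ t) := Nat.pow_right_injective (by norm_num)
  set g : ℕ → ℝ := fun t => f (100 ^ t) with hg
  have hgs : Summable g := hfs.comp_injective hinj
  have hg0 : ∀ t, 0 ≤ g t := fun t => by
    simp only [hg, hf]
    positivity
  have ht := (tendsto_sum_nat_add g).eventually (gt_mem_nhds (show (0 : ℝ) < 1 / 4 by norm_num))
  obtain ⟨N, hN⟩ := Filter.eventually_atTop.1 ht
  refine ⟨N, fun n hn => ?_⟩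
  have h1 := hN n hn
  have hs : Summable fun t => g (t + n) := (summable_nat_add_iff n).2 hgs
  have h2 := ENNReal.ofReal_tsum_of_nonneg (fun t => hg0 (t + n)) hs
  have h3 : ∑' t : ℕ, ENNReal.ofReal
      (16 * 100 ^ 4 * (((100 ^ (n + t) : ℕ) : ℝ) ^ 2 * r ^ (100 ^ (n + t)))) =
      ∑' t : ℕ, ENNReal.ofReal (g (t + n)) := by
    apply tsum_congr
    intro t
    rw [add_comm n t]
  rw [h3, ← h2]
  exact ENNReal.ofReal_le_ofReal h1.le

/-- union bound over the axes, signs and heights -/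
theorem gmain_union {Ω : Type*} [m : MeasurableSpace Ω] (μ : Measure Ω) (b : ℤ) (q : ℝ)
    (hb : 0 ≤ b) (B : Fin 4 → Bool → ℤ → Set Ω)
    (hB : ∀ i s c, -b ≤ c → c < b → μ (B i s c) ≤ ENNReal.ofReal q) :
    μ {ω | ∃ i s c, -b ≤ c ∧ c < b ∧ ω ∈ B i s c} ≤ ENNReal.ofReal (16 * b * q) := by
  set T : Finset ((Fin 4 × Bool) × ℤ) := (Finset.univ : Finset (Fin 4 × Bool)) ×ˢ Finset.Ico (-b) b
    with hT
  have h1 : {ω | ∃ i s c, -b ≤ c ∧ c < b ∧ ω ∈ B i s c} ⊆ ⋃ x ∈ T, B x.1.1 x.1.2 x.2 := by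
    rintro ω ⟨i, s, c, h1, h2, h3⟩
    rw [Set.mem_iUnion₂]
    refine ⟨((i, s), c), ?_, h3⟩
    rw [hT, Finset.mem_product, Finset.mem_Ico]
    exact ⟨Finset.mem_univ _, h1, h2⟩
  have h2 : ∀ x ∈ T, μ (B x.1.1 x.1.2 x.2) ≤ ENNReal.ofReal q := by
    intro x hx
    rw [hT, Finset.mem_product, Finset.mem_Ico] at hx
    exact hB _ _ _ hx.2.1 hx.2.2
  have hcard : (T.card : ℝ) = 16 * b := by
    rw [hT, Finset.card_product, Int.card_Ico, Finset.card_univ, Fintype.card_prod, Fintype.card_fin,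
      Fintype.card_bool]
    have h3 : (((b - -b).toNat : ℕ) : ℤ) = b - -b := Int.toNat_of_nonneg (by omega)
    have h4 : (((b - -b).toNat : ℕ) : ℝ) = 2 * b := by
      have : ((((b - -b).toNat : ℕ) : ℤ) : ℝ) = ((b - -b : ℤ) : ℝ) := by rw [h3]
      push_cast at this
      linarith
    push_cast
    rw [h4]
    ring
  calc μ {ω | ∃ i s c, -b ≤ c ∧ c < b ∧ ω ∈ B i s c} ≤ μ (⋃ x ∈ T, B x.1.1 x.1.2 x.2) :=
        measure_mono h1
    _ ≤ ∑ x ∈ T, μ (B x.1.1 x.1.2 x.2) := measure_biUnion_finset_le T _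
    _ ≤ ∑ x ∈ T, ENNReal.ofReal q := Finset.sum_le_sum h2
    _ = T.card * ENNReal.ofReal q := by rw [Finset.sum_const, nsmul_eq_mul]
    _ = ENNReal.ofReal (T.card : ℝ) * ENNReal.ofReal q := by rw [ENNReal.ofReal_natCast]
    _ = ENNReal.ofReal (16 * b * q) := by
        rw [← ENNReal.ofReal_mul (by positivity), hcard]

theorem gmain_anc (i : Fin 4) (s : Bool) (c : ℤ) (k : ℕ) (u Y : V) (hu : anc k u = Y)
    (hc : u i = c) : anc k (u - uv i s) = lev i (c - sg s) k Y := by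
  funext j
  by_cases hj : j = i
  · subst hj
    rw [anc_apply, lev_same, Pi.sub_apply, uv_same, hc]
  · rw [anc_apply, lev_ne _ _ _ _ hj, Pi.sub_apply, uv_ne _ hj, sub_zero, ← hu, anc_apply]

theorem gmain_lat {k K : ℕ} (hk : k ≤ 2 * K) {u Y : ℤ} (hu : u / 100 ^ k = Y)
    (h1 : -100 ^ (2 * K - k) ≤ Y) (h2 : Y < 100 ^ (2 * K - k)) :
    -100 ^ (2 * K) ≤ u ∧ u < 100 ^ (2 * K) := by
  have hp : (0 : ℤ) < 100 ^ k := by positivity
  have hq : (100 : ℤ) ^ (2 * K) = 100 ^ k * 100 ^ (2 * K - k) := by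
    rw [← pow_add, Nat.add_sub_cancel' hk]
  have h3 := Int.mul_ediv_add_emod u (100 ^ k)
  have h4 := Int.emod_nonneg u hp.ne'
  have h5 := Int.emod_lt_of_pos u hp
  rw [hu] at h3
  have h6 : (100 : ℤ) ^ k * (-100 ^ (2 * K - k)) ≤ 100 ^ k * Y := mul_le_mul_of_nonneg_left h1 hp.le
  have h7 : (100 : ℤ) ^ k * (Y + 1) ≤ 100 ^ k * 100 ^ (2 * K - k) :=
    mul_le_mul_of_nonneg_left (by omega) hp.le
  rw [hq]
  constructor
  · linarith
  · linarith

/-- Result of part III.  `Fn ω L`: all clusters of `ω` meeting the starting box of size `L` are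
finite.  `C ω L i s u`: closed flat wall between `u - uv i s` and `u`. -/
theorem geo_main {Ω : Type*} [m : MeasurableSpace Ω] (μ : Measure Ω) [IsProbabilityMeasure μ]
    (F : Set V → MeasurableSpace Ω) (hF : Loc μ F) (X : V → Set Ω)
    (hX : ∀ z, MeasurableSet[F (Ball z 3)] (X z))
    (hδ : ∀ z, μ (X z) ≤ ENNReal.ofReal (1 / 10 ^ 20))
    (Fn : Ω → ℤ → Prop) (C : Ω → ℤ → Fin 4 → Bool → V → Prop)
    (hD : ∀ ω L, Fn ω L → HData (XX X ω) L (C ω L))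
    (l : ℝ) (hl : 0 < l) (k1 : ℕ)
    (hL : ∀ k, k1 ≤ k → ∀ (i : Fin 4) (s : Bool) (c : ℤ) (Y : V), Y i = c / 100 ^ k →
      ∃ E : Set Ω, MeasurableSet[F (RegE k Y)] E ∧ ENNReal.ofReal l ≤ μ E ∧
        ∀ ω ∈ E, ∀ L, ∃ u, anc k u = Y ∧ u i = c ∧ S (XX X ω) k Set.univ 0 u ∧
          S (XX X ω) k Set.univ 0 (u - uv i s) ∧ ¬ C ω L i s u) :
    ¬ ∀ᵐ ω ∂μ, ∀ L : ℤ, Fn ω L := by
  classical
  intro hFn
  have hl1 : l ≤ 1 := by
    obtain ⟨E, _, h2, _⟩ := hL k1 le_rfl 0 true 0 0 (by simp)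
    have h3 : ENNReal.ofReal l ≤ ENNReal.ofReal 1 := by
      rw [ENNReal.ofReal_one]
      exact h2.trans prob_le_one
    exact (ENNReal.ofReal_le_ofReal_iff zero_le_one).1 h3
  obtain ⟨k', hk'⟩ := prob_S μ F hF X hX hδ (l / 4) (by positivity)
  obtain ⟨k'', hk''⟩ := prob_good μ F hF X hX hδ (1 / 4) (by norm_num)
  obtain ⟨N, hN⟩ := gmain_series l hl hl1
  set k : ℕ := max k1 k' with hk
  set n : ℕ := max (max k k'') N with hn
  have hkn : k ≤ n := le_trans (le_max_left _ _) (le_max_left _ _)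
  have hk''n : k'' ≤ n := le_trans (le_max_right _ _) (le_max_left _ _)
  have hNn : N ≤ n := le_max_right _ _
  have hL' := hL k (le_max_left _ _)
  choose! E hE1 hE2 hE3 using hL'
  set B : ℕ → Fin 4 → Bool → ℤ → Set Ω := fun K i s c => {ω | ∀ Y : V, Y i = c / 100 ^ k →
        (∀ j, j ≠ i → -100 ^ (2 * K - k) ≤ Y j ∧ Y j < 100 ^ (2 * K - k)) →
        ¬ (ω ∈ E i s c Y ∧ S (XX X ω) K Set.univ k Y ∧
          S (XX X ω) K Set.univ k (lev i (c - sg s) k Y))} with hB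
  have hBm : ∀ K, k < K → ∀ i s c, μ (B K i s c) ≤ ENNReal.ofReal ((1 - l / 2) ^ (100 ^ (K - 1))) := by
    intro K hK i s c
    exact patch_prob μ F hF X hX K k hK l hl hl1
      (fun y => hk' k (le_max_right _ _) K hK.le y) i s c (E i s c)
      (fun Y hY => hE1 i s c Y hY) (fun Y hY => hE2 i s c Y hY)
  set D : ℕ → Set Ω := fun t => {ω | ∃ i s c, -(100 ^ (2 * (n + 1 + t) + 2) : ℤ) ≤ c ∧
    c < 100 ^ (2 * (n + 1 + t) + 2) ∧ ω ∈ B (n + 1 + t) i s c} with hD'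
  have hDm : ∀ t, μ (D t) ≤ ENNReal.ofReal
      (16 * 100 ^ 4 * (((100 ^ (n + t) : ℕ) : ℝ) ^ 2 * (1 - l / 2) ^ (100 ^ (n + t)))) := by
    intro t
    have h1 := gmain_union μ (100 ^ (2 * (n + 1 + t) + 2)) ((1 - l / 2) ^ (100 ^ (n + t)))
      (by positivity) (B (n + 1 + t)) (by
        intro i s c _ _
        have h2 := hBm (n + 1 + t) (by omega) i s c
        rwa [show n + 1 + t - 1 = n + t by omega] at h2)
    refine h1.trans (le_of_eq ?_)
    congr 1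
    push_cast
    rw [show 2 * (n + 1 + t) + 2 = 4 + (n + t) * 2 by ring, pow_add, pow_mul]
    ring
  have hDu : μ (⋃ t, D t) ≤ ENNReal.ofReal (1 / 4) :=
    (measure_iUnion_le D).trans ((ENNReal.tsum_le_tsum hDm).trans (hN n hNn))
  have hgood := hk'' (n + 1) (by omega)
  have hFn0 : μ {ω | ¬ ∀ L : ℤ, Fn ω L} = 0 := ae_iff.1 hFn
  obtain ⟨ω, hω⟩ : ∃ ω, ω ∉ ({ω | ¬ ∀ L : ℤ, Fn ω L} ∪ {ω | ¬ GoodFrom (XX X ω) (n + 1)}) ∪ ⋃ t, D t := by
    by_contra hcon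
    have h1 : (({ω | ¬ ∀ L : ℤ, Fn ω L} ∪ {ω | ¬ GoodFrom (XX X ω) (n + 1)}) ∪ ⋃ t, D t) = Set.univ :=
      Set.eq_univ_of_forall fun x => by_contra fun hx => hcon ⟨x, hx⟩
    have h2 : μ (({ω | ¬ ∀ L : ℤ, Fn ω L} ∪ {ω | ¬ GoodFrom (XX X ω) (n + 1)}) ∪ ⋃ t, D t) ≤
        0 + ENNReal.ofReal (1 / 4) + ENNReal.ofReal (1 / 4) := by
      refine (measure_union_le _ _).trans (add_le_add ((measure_union_le _ _).trans ?_) hDu)
      rw [hFn0]
      exact add_le_add le_rfl hgood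
    rw [h1, measure_univ, zero_add, ← ENNReal.ofReal_add (by norm_num) (by norm_num),
      ← ENNReal.ofReal_one] at h2
    have h3 := (ENNReal.ofReal_le_ofReal_iff (by norm_num)).1 h2
    norm_num at h3
  have hω1 : ∀ L : ℤ, Fn ω L := by
    by_contra h
    exact hω (Or.inl (Or.inl h))
  have hω2 : GoodFrom (XX X ω) (n + 1) := by
    by_contra h
    exact hω (Or.inl (Or.inr h))
  have hω3 : ∀ t, ω ∉ D t := fun t h => hω (Or.inr (Set.mem_iUnion.2 ⟨t, h⟩))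
  refine det (XX X ω) (n + 1) hω2 (C ω (100 ^ (2 * (n + 1)))) (hD ω _ (hω1 _)) ?_
  intro K hK i s c hc1 hc2
  obtain ⟨t, rfl⟩ : ∃ t, K = n + 1 + t := ⟨K - (n + 1), by omega⟩
  have h1 : ω ∉ B (n + 1 + t) i s c := fun h => hω3 t ⟨i, s, c, hc1, hc2, h⟩
  have h2 : ∃ Y : V, Y i = c / 100 ^ k ∧
        (∀ j, j ≠ i → -100 ^ (2 * (n + 1 + t) - k) ≤ Y j ∧ Y j < 100 ^ (2 * (n + 1 + t) - k)) ∧
        (ω ∈ E i s c Y ∧ S (XX X ω) (n + 1 + t) Set.univ k Y ∧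
          S (XX X ω) (n + 1 + t) Set.univ k (lev i (c - sg s) k Y)) := by
    by_contra hcon
    apply h1
    intro Y hY1 hY2 hY3
    exact hcon ⟨Y, hY1, hY2, hY3⟩
  obtain ⟨Y, hY1, hY2, hY3, hY4, hY5⟩ := h2
  obtain ⟨u, hu1, hu2, hu3, hu4, hu5⟩ := hE3 i s c Y hY1 ω hY3 (100 ^ (2 * (n + 1)))
  refine ⟨u, hu2, ?_, ?_, ?_, hu5⟩
  · intro j hj
    have h3 := hY2 j hj
    have h4 : u j / 100 ^ k = Y j := by rw [← hu1, anc_apply]
    exact gmain_lat (by omega) h4 h3.1 h3.2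
  · rw [S_comp (XX X ω) Set.univ (show k ≤ n + 1 + t by omega) k 0 (by omega) u]
    refine ⟨hu3, ?_⟩
    rw [hu1]
    exact hY4
  · rw [S_comp (XX X ω) Set.univ (show k ≤ n + 1 + t by omega) k 0 (by omega) (u - uv i s)]
    refine ⟨hu4, ?_⟩
    rw [gmain_anc i s c k u Y hu1 hu2]
    exact hY5

end Pool.LPG
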