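import Pool.Agent.LP.GLoc

/-!
# LP, part III (probability): soundness has high probability and is local; the good event

`¬ S K univ k y` implies that for some `j` with `k ≤ j < K` the cell `anc (j+1-k) y` of level `j+1` has
a bad cell of level `j` in its enlarged region `Big` (at most `132^4` cells): probability at most
`sum_(j ≥ k) 132^4 * 10^(-17) * 1000^(-2^j)`.  `meas_S`: distances: a cell `z ∈ Big (par y_j)` is within
115 of `y_j` in every coordinate.  `prob_good`: `sum_(j ≥ K0) (2 * 100^(j+4))^4 * 10^(-17) *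
1000^(-2^j) → 0`.
-/

set_option autoImplicit false

open MeasureTheory

namespace Pool.LPG

variable {Ω : Type*} [m : MeasurableSpace Ω]

/-- the finite set of cells in the enlarged region -/
noncomputable def gprs_big (Y : V) : Finset V := Fintype.piFinset fun i => Finset.Ico (100 * Y i - 16) (100 * Y i + 116)

theorem gprs_mem_big (Y z : V) : z ∈ gprs_big Y ↔ z ∈ Big Y := by
  simp [gprs_big, Big, Fintype.mem_piFinset]

theorem gprs_card_big (Y : V) : (gprs_big Y).card = 132 ^ 4 := by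
  unfold gprs_big
  rw [Fintype.card_piFinset]
  have h : ∀ i, (Finset.Ico (100 * Y i - 16) (100 * Y i + 116)).card = 132 := by
    intro i
    rw [Int.card_Ico]
    have : 100 * Y i + 116 - (100 * Y i - 16) = 132 := by ring
    rw [this]
    rfl
  rw [Finset.prod_congr rfl (fun i _ => h i)]
  simp

/-- the finite set of sites in the centred cube -/
noncomputable def gprs_cube (r : ℤ) : Finset V := Fintype.piFinset fun _ => Finset.Ico (-r) r

theorem gprs_mem_cube (r : ℤ) (z : V) : z ∈ gprs_cube r ↔ z ∈ Cube r := by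
  simp [gprs_cube, Cube, Fintype.mem_piFinset]

theorem gprs_card_cube (n : ℕ) : (gprs_cube (100 ^ n : ℤ)).card = (2 * 100 ^ n) ^ 4 := by
  unfold gprs_cube
  rw [Fintype.card_piFinset]
  have h : (Finset.Ico (-(100 ^ n : ℤ)) (100 ^ n)).card = 2 * 100 ^ n := by
    rw [Int.card_Ico]
    have : (100 ^ n - -(100 ^ n) : ℤ) = ((2 * 100 ^ n : ℕ) : ℤ) := by push_cast; ring
    rw [this, Int.toNat_natCast]
  rw [Finset.prod_congr rfl (fun i _ => h)]
  simp

theorem gprs_fin (μ : Measure Ω) (T : Finset V) (A : V → Set Ω) (p : ℝ)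
    (h : ∀ z ∈ T, μ (A z) ≤ ENNReal.ofReal p) :
    μ {ω | ∃ z ∈ T, ω ∈ A z} ≤ ENNReal.ofReal (T.card * p) := by
  have h1 : {ω | ∃ z ∈ T, ω ∈ A z} = ⋃ z ∈ T, A z := by
    ext ω
    simp
  rw [h1]
  calc μ (⋃ z ∈ T, A z) ≤ ∑ z ∈ T, μ (A z) := measure_biUnion_finset_le _ _
    _ ≤ T.card • ENNReal.ofReal p := Finset.sum_le_card_nsmul _ _ _ h
    _ = ENNReal.ofReal (T.card * p) := by
      rw [nsmul_eq_mul, ENNReal.ofReal_mul (by positivity), ENNReal.ofReal_natCast]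

theorem gprs_union (μ : Measure Ω) (s : ℕ → Set Ω) (c r : ℝ) (hc : 0 ≤ c) (hr : 0 ≤ r) (hr1 : r < 1)
    (h : ∀ n, μ (s n) ≤ ENNReal.ofReal (c * r ^ n)) :
    μ (⋃ n, s n) ≤ ENNReal.ofReal (c * (1 - r)⁻¹) := by
  calc μ (⋃ n, s n) ≤ ∑' n, μ (s n) := measure_iUnion_le _
    _ ≤ ∑' n, ENNReal.ofReal (c * r ^ n) := ENNReal.tsum_le_tsum h
    _ = ENNReal.ofReal (∑' n, c * r ^ n) := by
      rw [ENNReal.ofReal_tsum_of_nonneg (fun n => by positivity)
        ((summable_geometric_of_lt_one hr hr1).mul_left c)]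
    _ = ENNReal.ofReal (c * (1 - r)⁻¹) := by
      rw [tsum_mul_left, tsum_geometric_of_lt_one hr hr1]

theorem gprs_two_pow (j : ℕ) : j + 1 ≤ 2 ^ j := Nat.lt_two_pow_self

theorem gprs_term (j : ℕ) : (1 / 10 ^ 17 * (1 / 1000) ^ (2 ^ j) : ℝ) ≤
    1 / 10 ^ 20 * (1 / 1000) ^ j := by
  have h1 : ((1 / 1000 : ℝ)) ^ (2 ^ j) ≤ (1 / 1000 : ℝ) ^ (j + 1) :=
    pow_le_pow_of_le_one (by norm_num) (by norm_num) (gprs_two_pow j)
  rw [pow_succ] at h1
  have h2 : (0 : ℝ) < 1 / 10 ^ 17 := by norm_num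
  calc (1 / 10 ^ 17 * (1 / 1000) ^ (2 ^ j) : ℝ) ≤ 1 / 10 ^ 17 * ((1 / 1000 : ℝ) ^ j * (1 / 1000)) :=
        mul_le_mul_of_nonneg_left h1 h2.le
    _ = 1 / 10 ^ 20 * (1 / 1000) ^ j := by ring

/-- unsound cells have an ancestor with a bad cell nearby -/
theorem gprs_unsound (X : Set V) (K : ℕ) : ∀ (n k : ℕ), k + n = K → ∀ y : V,
    ¬ S X K Set.univ k y → ∃ i, ∃ z, z ∈ Big (par (anc i y)) ∧ z ∈ Bad X (k + i) := by
  intro n
  induction n with
  | zero =>
    intro k hk y h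
    have : k = K := by omega
    subst this
    exact absurd ((S_top X k Set.univ y).2 (Set.mem_univ _)) h
  | succ n ih =>
    intro k hk y h
    rw [S_step X Set.univ (by omega : k < K)] at h
    by_cases h1 : y ∈ Spot (Bad X k) (par y)
    · obtain ⟨z, hz, hz', _⟩ := h1.1 0
      refine ⟨0, z, ?_, ?_⟩
      · rwa [anc_zero]
      · rwa [Nat.add_zero]
    · have h2 : ¬ S X K Set.univ (k + 1) (par y) := fun h3 => h ⟨h1, h3⟩
      obtain ⟨i, z, hz, hz'⟩ := ih (k + 1) (by omega) (par y) h2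
      refine ⟨i + 1, z, ?_, ?_⟩
      · rwa [anc_succ']
      · rwa [show k + (i + 1) = k + 1 + i by omega]

theorem gprs_prob (μ : Measure Ω) [IsProbabilityMeasure μ]
    (F : Set V → MeasurableSpace Ω) (hF : Loc μ F) (X : V → Set Ω)
    (hX : ∀ z, MeasurableSet[F (Ball z 3)] (X z))
    (hδ : ∀ z, μ (X z) ≤ ENNReal.ofReal (1 / 10 ^ 20)) (k K : ℕ) (hk : k ≤ K) (y : V) :
    μ {ω | ¬ S (XX X ω) K Set.univ k y} ≤
      ENNReal.ofReal (132 ^ 4 * (1 / 10 ^ 20) * (1 / 1000) ^ k * (1 - 1 / 1000)⁻¹) := by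
  have h1 : {ω | ¬ S (XX X ω) K Set.univ k y} ⊆
      ⋃ i : ℕ, {ω | ∃ z ∈ gprs_big (par (anc i y)), ω ∈ {ω | z ∈ Bad (XX X ω) (k + i)}} := by
    intro ω hω
    obtain ⟨i, z, hz, hz'⟩ := gprs_unsound (XX X ω) K (K - k) k (by omega) y hω
    exact Set.mem_iUnion.2 ⟨i, z, (gprs_mem_big _ _).2 hz, hz'⟩
  refine (measure_mono h1).trans ?_
  refine gprs_union μ _ (132 ^ 4 * (1 / 10 ^ 20) * (1 / 1000) ^ k) (1 / 1000) (by positivity)
    (by norm_num) (by norm_num) (fun i => ?_)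
  refine (gprs_fin μ _ (fun z => {ω | z ∈ Bad (XX X ω) (k + i)}) (1 / 10 ^ 20 * (1 / 1000) ^ (k + i))
    (fun z _ => ?_)).trans ?_
  · exact (prob_bad μ F hF X hX hδ (k + i) z).trans (ENNReal.ofReal_le_ofReal (gprs_term (k + i)))
  · apply ENNReal.ofReal_le_ofReal
    rw [gprs_card_big, pow_add]
    push_cast
    apply le_of_eq
    ring

theorem gprs_reg (k n : ℕ) (y : V) (K : ℕ) (hK : k + n < K) (z : V)
    (hz : z ∈ Big (par (anc n y))) : Reg (k + n) z ⊆ RegS K k y := by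
  intro x hx i
  have h1 := hx i
  have h2 := hz i
  simp only [par, anc] at h2
  have hk0 : (0 : ℤ) < 100 ^ k := by positivity
  have hn0 : (0 : ℤ) < 100 ^ n := by positivity
  have e1 := Int.mul_ediv_add_emod (y i) (100 ^ n)
  have e2 := Int.emod_nonneg (y i) hn0.ne'
  have e3 := Int.emod_lt_of_pos (y i) hn0
  have f1 := Int.mul_ediv_add_emod (y i / 100 ^ n) 100
  have f2 := Int.emod_nonneg (y i / 100 ^ n) (by norm_num : (100 : ℤ) ≠ 0)
  have f3 := Int.emod_lt_of_pos (y i / 100 ^ n) (by norm_num : (0 : ℤ) < 100)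
  have hKb : (100 : ℤ) ^ (k + n) * 100 ≤ 100 ^ K := by
    rw [← pow_succ]
    exact pow_le_pow_right₀ (by norm_num) (by omega)
  -- `100^n * z` is close to `y`
  have g1 : 100 ^ n * (z i) ≤ y i + 116 * 100 ^ n := by
    have : z i ≤ y i / 100 ^ n + 115 := by omega
    have : 100 ^ n * z i ≤ 100 ^ n * (y i / 100 ^ n + 115) := mul_le_mul_of_nonneg_left this hn0.le
    nlinarith
  have g2 : y i - 117 * 100 ^ n ≤ 100 ^ n * (z i) := by
    have : y i / 100 ^ n - 115 ≤ z i := by omega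
    have : 100 ^ n * (y i / 100 ^ n - 115) ≤ 100 ^ n * z i := mul_le_mul_of_nonneg_left this hn0.le
    nlinarith
  have g3 : 100 ^ (k + n) * z i ≤ 100 ^ k * y i + 116 * 100 ^ (k + n) := by
    have := mul_le_mul_of_nonneg_left g1 hk0.le
    rw [pow_add]
    nlinarith
  have g4 : 100 ^ k * y i - 117 * 100 ^ (k + n) ≤ 100 ^ (k + n) * z i := by
    have := mul_le_mul_of_nonneg_left g2 hk0.le
    rw [pow_add]
    nlinarith
  have hkn : (1 : ℤ) ≤ 100 ^ (k + n) := one_le_pow₀ (by norm_num)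
  constructor
  · have := h1.1
    linarith
  · have := h1.2
    linarith

theorem meas_S (μ : Measure Ω) [IsProbabilityMeasure μ]
    (F : Set V → MeasurableSpace Ω) (hF : Loc μ F) (X : V → Set Ω)
    (hX : ∀ z, MeasurableSet[F (Ball z 3)] (X z)) (K k : ℕ) (hk : k ≤ K) (y : V) :
    MeasurableSet[F (RegS K k y)] {ω | S (XX X ω) K Set.univ k y} := by
  -- badness of the cells near the ancestors
  have hB : ∀ n, k + n < K → ∀ z ∈ Big (par (anc n y)),
      MeasurableSet[F (RegS K k y)] {ω | z ∈ Bad (XX X ω) (k + n)} := by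
    intro n hn z hz
    exact hF.mono _ _ (gprs_reg k n y K hn z hz) _ (meas_bad μ F hF X hX (k + n) z)
  have hSp : ∀ n, k + n < K → ∀ x : V,
      MeasurableSet[F (RegS K k y)] {ω | x ∈ Spot (Bad (XX X ω) (k + n)) (par (anc n y))} := by
    intro n hn x
    have h1 : {ω | x ∈ Spot (Bad (XX X ω) (k + n)) (par (anc n y))} =
        (⋂ i : Fin 4, ⋃ z : V, ⋃ _ : z ∈ Big (par (anc n y)) ∧ z i ≤ x i,
          {ω | z ∈ Bad (XX X ω) (k + n)}) ∩
        (⋂ i : Fin 4, ⋃ z : V, ⋃ _ : z ∈ Big (par (anc n y)) ∧ x i ≤ z i,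
          {ω | z ∈ Bad (XX X ω) (k + n)}) := by
      ext ω
      simp only [Spot, Set.mem_ofPred_eq, Set.mem_inter_iff, Set.mem_iInter, Set.mem_iUnion,
        exists_prop]
      constructor
      · rintro ⟨ha, hb⟩
        refine ⟨fun i => ?_, fun i => ?_⟩
        · obtain ⟨z, hz1, hz2, hz3⟩ := ha i
          exact ⟨z, ⟨hz2, hz3⟩, hz1⟩
        · obtain ⟨z, hz1, hz2, hz3⟩ := hb i
          exact ⟨z, ⟨hz2, hz3⟩, hz1⟩
      · rintro ⟨ha, hb⟩
        refine ⟨fun i => ?_, fun i => ?_⟩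
        · obtain ⟨z, ⟨hz2, hz3⟩, hz1⟩ := ha i
          exact ⟨z, hz1, hz2, hz3⟩
        · obtain ⟨z, ⟨hz2, hz3⟩, hz1⟩ := hb i
          exact ⟨z, hz1, hz2, hz3⟩
    rw [h1]
    refine MeasurableSet.inter (MeasurableSet.iInter fun i => MeasurableSet.iUnion fun z =>
      MeasurableSet.iUnion fun hz => hB n hn z hz.1) (MeasurableSet.iInter fun i =>
      MeasurableSet.iUnion fun z => MeasurableSet.iUnion fun hz => hB n hn z hz.1)
  -- downward induction
  have key : ∀ d n, k + n + d = K →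
      MeasurableSet[F (RegS K k y)] {ω | S (XX X ω) K Set.univ (k + n) (anc n y)} := by
    intro d
    induction d with
    | zero =>
      intro n hn
      have : {ω | S (XX X ω) K Set.univ (k + n) (anc n y)} = Set.univ := by
        ext ω
        simp only [Set.mem_ofPred_eq, Set.mem_univ, iff_true]
        have h2 : k + n = K := by omega
        rw [h2, S_top]
        exact Set.mem_univ _
      rw [this]
      exact MeasurableSet.univ
    | succ d ih =>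
      intro n hn
      have h2 : {ω | S (XX X ω) K Set.univ (k + n) (anc n y)} =
          {ω | anc n y ∈ Spot (Bad (XX X ω) (k + n)) (par (anc n y))}ᶜ ∩
            {ω | S (XX X ω) K Set.univ (k + (n + 1)) (anc (n + 1) y)} := by
        ext ω
        simp only [Set.mem_ofPred_eq, Set.mem_inter_iff, Set.mem_compl_iff]
        rw [S_step (XX X ω) Set.univ (by omega : k + n < K), anc_succ]
        rfl
      rw [h2]
      exact MeasurableSet.inter (hSp n (by omega) _).compl (ih (n + 1) (by omega))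
  have := key (K - k) 0 (by omega)
  simpa [anc_zero] using this

/-- unsoundness above level `k` is unlikely, uniformly in the top level -/
theorem prob_S (μ : Measure Ω) [IsProbabilityMeasure μ]
    (F : Set V → MeasurableSpace Ω) (hF : Loc μ F) (X : V → Set Ω)
    (hX : ∀ z, MeasurableSet[F (Ball z 3)] (X z))
    (hδ : ∀ z, μ (X z) ≤ ENNReal.ofReal (1 / 10 ^ 20)) (ε : ℝ) (hε : 0 < ε) :
    ∃ k' : ℕ, ∀ k, k' ≤ k → ∀ K, k ≤ K → ∀ y : V,
      μ {ω | ¬ S (XX X ω) K Set.univ k y} ≤ ENNReal.ofReal ε := by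
  obtain ⟨k', hk'⟩ := exists_pow_lt_of_lt_one hε (by norm_num : (1 / 1000 : ℝ) < 1)
  refine ⟨k', fun k hk K hK y => (gprs_prob μ F hF X hX hδ k K hK y).trans ?_⟩
  apply ENNReal.ofReal_le_ofReal
  have h1 : (1 / 1000 : ℝ) ^ k ≤ (1 / 1000 : ℝ) ^ k' :=
    pow_le_pow_of_le_one (by norm_num) (by norm_num) hk
  have h2 : (0 : ℝ) ≤ (1 / 1000 : ℝ) ^ k := by positivity
  have h3 : (132 ^ 4 * (1 / 10 ^ 20) * (1 - 1 / 1000)⁻¹ : ℝ) ≤ 1 := by norm_num
  calc (132 ^ 4 * (1 / 10 ^ 20) * (1 / 1000) ^ k * (1 - 1 / 1000)⁻¹ : ℝ)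
      = (132 ^ 4 * (1 / 10 ^ 20) * (1 - 1 / 1000)⁻¹) * (1 / 1000) ^ k := by ring
    _ ≤ 1 * (1 / 1000) ^ k := mul_le_mul_of_nonneg_right h3 h2
    _ ≤ ε := by linarith

/-- a given vertex is sound with probability at least `1 - 10^(-11)`, uniformly in the top level -/
theorem prob_unsound (μ : Measure Ω) [IsProbabilityMeasure μ]
    (F : Set V → MeasurableSpace Ω) (hF : Loc μ F) (X : V → Set Ω)
    (hX : ∀ z, MeasurableSet[F (Ball z 3)] (X z))
    (hδ : ∀ z, μ (X z) ≤ ENNReal.ofReal (1 / 10 ^ 20)) (K : ℕ) (u : V) :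
    μ {ω | ¬ S (XX X ω) K Set.univ 0 u} ≤ ENNReal.ofReal (1 / 10 ^ 11) := by
  refine (gprs_prob μ F hF X hX hδ 0 K (Nat.zero_le _) u).trans ?_
  apply ENNReal.ofReal_le_ofReal
  norm_num

theorem gprs_nine (j : ℕ) (hj : 4 ≤ j) : 9 * j ≤ 3 * 2 ^ j := by
  induction j, hj using Nat.le_induction with
  | base => norm_num
  | succ j hj ih =>
    rw [pow_succ]
    omega

theorem gprs_term2 (j : ℕ) (hj : 4 ≤ j) :
    (((2 * 100 ^ (j + 4)) ^ 4 : ℕ) : ℝ) * (1 / 10 ^ 17 * (1 / 1000) ^ (2 ^ j)) ≤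
      16 * 10 ^ 15 * (1 / 10) ^ j := by
  have h1 : ((1 / 1000 : ℝ)) ^ (2 ^ j) ≤ (1 / 10 : ℝ) ^ (9 * j) := by
    have : (1 / 1000 : ℝ) = (1 / 10) ^ 3 := by norm_num
    rw [this, ← pow_mul]
    exact pow_le_pow_of_le_one (by norm_num) (by norm_num) (gprs_nine j hj)
  have h2 : (((2 * 100 ^ (j + 4)) ^ 4 : ℕ) : ℝ) = 16 * 10 ^ 32 * 10 ^ (8 * j) := by
    push_cast
    have h3 : (100 : ℝ) ^ (j + 4) = 10 ^ (2 * (j + 4)) := by
      rw [pow_mul]
      norm_num
    rw [h3]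
    ring
  rw [h2]
  calc 16 * 10 ^ 32 * 10 ^ (8 * j) * (1 / 10 ^ 17 * (1 / 1000 : ℝ) ^ (2 ^ j))
      ≤ 16 * 10 ^ 32 * 10 ^ (8 * j) * (1 / 10 ^ 17 * (1 / 10 : ℝ) ^ (9 * j)) := by
        apply mul_le_mul_of_nonneg_left _ (by positivity)
        exact mul_le_mul_of_nonneg_left h1 (by positivity)
    _ = 16 * 10 ^ 15 * (1 / 10) ^ j * (10 ^ (8 * j) * (1 / 10) ^ (8 * j)) := by
        rw [show 9 * j = j + 8 * j by ring, pow_add]
        ring
    _ = 16 * 10 ^ 15 * (1 / 10) ^ j := by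
        rw [← mul_pow]
        norm_num

theorem prob_good (μ : Measure Ω) [IsProbabilityMeasure μ]
    (F : Set V → MeasurableSpace Ω) (hF : Loc μ F) (X : V → Set Ω)
    (hX : ∀ z, MeasurableSet[F (Ball z 3)] (X z))
    (hδ : ∀ z, μ (X z) ≤ ENNReal.ofReal (1 / 10 ^ 20)) (ε : ℝ) (hε : 0 < ε) :
    ∃ k' : ℕ, ∀ K0, k' ≤ K0 → μ {ω | ¬ GoodFrom (XX X ω) K0} ≤ ENNReal.ofReal ε := by
  obtain ⟨k', hk'⟩ := exists_pow_lt_of_lt_one (by positivity : 0 < ε / (16 * 10 ^ 15 * (10 / 9)))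
    (by norm_num : (1 / 10 : ℝ) < 1)
  refine ⟨max k' 4, fun K0 hK0 => ?_⟩
  have hk4 : 4 ≤ K0 := (le_max_right _ _).trans hK0
  have hkk : k' ≤ K0 := (le_max_left _ _).trans hK0
  have h1 : {ω | ¬ GoodFrom (XX X ω) K0} ⊆ ⋃ n : ℕ,
      {ω | ∃ z ∈ gprs_cube (100 ^ (K0 + n + 4)), ω ∈ {ω | z ∈ Bad (XX X ω) (K0 + n)}} := by
    intro ω hω
    simp only [GoodFrom, Set.mem_ofPred_eq] at hω
    push Not at hω
    obtain ⟨j, hj, y, hy, hb⟩ := hω
    obtain ⟨n, rfl⟩ := Nat.exists_eq_add_of_le hj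
    exact Set.mem_iUnion.2 ⟨n, y, (gprs_mem_cube _ _).2 hy, hb⟩
  refine (measure_mono h1).trans ?_
  refine (gprs_union μ _ (16 * 10 ^ 15 * (1 / 10) ^ K0) (1 / 10) (by positivity)
    (by norm_num) (by norm_num) (fun n => ?_)).trans ?_
  · refine (gprs_fin μ _ (fun z => {ω | z ∈ Bad (XX X ω) (K0 + n)})
      (1 / 10 ^ 17 * (1 / 1000) ^ (2 ^ (K0 + n)))
      (fun z _ => prob_bad μ F hF X hX hδ (K0 + n) z)).trans ?_
    apply ENNReal.ofReal_le_ofReal
    rw [gprs_card_cube]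
    refine (gprs_term2 (K0 + n) (by omega)).trans (le_of_eq ?_)
    rw [pow_add]
    ring
  · apply ENNReal.ofReal_le_ofReal
    have h2 : (1 / 10 : ℝ) ^ K0 ≤ (1 / 10 : ℝ) ^ k' :=
      pow_le_pow_of_le_one (by norm_num) (by norm_num) hkk
    have h3 : (1 / 10 : ℝ) ^ K0 < ε / (16 * 10 ^ 15 * (10 / 9)) := h2.trans_lt hk'
    rw [lt_div_iff₀ (by norm_num)] at h3
    have h4 : (1 - 1 / 10 : ℝ)⁻¹ = 10 / 9 := by norm_num
    rw [h4]
    linarith

end Pool.LPG
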