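import Pool.Agent.LP.HDefs

/-!
# LP, part II (heights): fractions
-/

set_option autoImplicit false

open Finset Pool.Agent.OIP

namespace Pool.LPH

noncomputable section

section

variable {X Y Z : Type} [Fintype X] [Fintype Y] [Fintype Z]

theorem ind_or_le (P Q : Prop) : ind (P ∨ Q) ≤ ind P + ind Q := by
  unfold ind
  by_cases hP : P <;> by_cases hQ : Q <;> simp [hP, hQ]

theorem ind_not (P : Prop) : ind (¬ P) = 1 - ind P := by
  unfold ind
  by_cases hP : P <;> simp [hP]

theorem fr_nonneg (P : X → Prop) : 0 ≤ fr P := avg_nonneg fun _ => ind_nonneg _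

theorem fr_le_one (P : X → Prop) : fr P ≤ 1 := avg_le_of_le zero_le_one fun _ => ind_le_one _

theorem fr_mono {P Q : X → Prop} (h : ∀ x, P x → Q x) : fr P ≤ fr Q :=
  avg_mono fun x => ind_mono (h x)

theorem fr_congr {P Q : X → Prop} (h : ∀ x, P x ↔ Q x) : fr P = fr Q :=
  le_antisymm (fr_mono fun x => (h x).1) (fr_mono fun x => (h x).2)

theorem fr_or (P Q : X → Prop) : fr (fun x => P x ∨ Q x) ≤ fr P + fr Q := by
  unfold fr
  rw [← avg_add]
  exact avg_mono fun x => ind_or_le _ _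

theorem fr_le_add {P Q R : X → Prop} {a b : ℝ} (hQ : fr Q ≤ a) (hR : fr R ≤ b)
    (h : ∀ x, P x → Q x ∨ R x) : fr P ≤ a + b :=
  (fr_mono h).trans ((fr_or Q R).trans (add_le_add hQ hR))

theorem fr_le_add3 {P Q R S : X → Prop} {a b c : ℝ} (hQ : fr Q ≤ a) (hR : fr R ≤ b) (hS : fr S ≤ c)
    (h : ∀ x, P x → Q x ∨ R x ∨ S x) : fr P ≤ a + b + c := by
  have h1 : fr (fun x => R x ∨ S x) ≤ b + c := fr_le_add hR hS fun x hx => hx
  have := fr_le_add hQ h1 h
  linarith

theorem fr_le_add4 {P Q R S T : X → Prop} {a b c d : ℝ} (hQ : fr Q ≤ a) (hR : fr R ≤ b) (hS : fr S ≤ c)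
    (hT : fr T ≤ d) (h : ∀ x, P x → Q x ∨ R x ∨ S x ∨ T x) : fr P ≤ a + b + c + d := by
  have h1 : fr (fun x => R x ∨ S x ∨ T x) ≤ b + c + d := fr_le_add3 hR hS hT fun x hx => hx
  have := fr_le_add hQ h1 h
  linarith

theorem fr_not [Nonempty X] (P : X → Prop) : fr (fun x => ¬ P x) = 1 - fr P := by
  unfold fr
  have h : (fun x : X => (1 : ℝ)) = fun x => ind (¬ P x) + ind (P x) := by
    funext x
    rw [ind_not]
    ring
  have h2 := avg_add (fun x => ind (¬ P x)) (fun x => ind (P x))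
  rw [← h, avg_const] at h2
  linarith

/-- union bound -/
theorem fr_exists {n : ℕ} {P : ℕ → X → Prop} {c : ℝ} (h : ∀ i < n, fr (P i) ≤ c) :
    fr (fun x => ∃ i < n, P i x) ≤ n * c := by
  induction n with
  | zero =>
    have : fr (fun x : X => ∃ i < 0, P i x) ≤ fr (fun _ : X => False) :=
      fr_mono fun x ⟨i, hi, _⟩ => absurd hi (Nat.not_lt_zero _)
    refine this.trans ?_
    unfold fr
    simp [avg, ind]
  | succ n ih =>
    have h1 := ih fun i hi => h i (Nat.lt_succ_of_lt hi)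
    have h2 := h n (Nat.lt_succ_self n)
    have h3 : fr (fun x => ∃ i < n + 1, P i x) ≤ n * c + c := by
      refine fr_le_add h1 h2 ?_
      rintro x ⟨i, hi, hx⟩
      rcases Nat.lt_succ_iff_lt_or_eq.1 hi with h | h
      · exact Or.inl ⟨i, h, hx⟩
      · subst h
        exact Or.inr hx
    push_cast
    linarith

theorem exists_of_fr_lt_one [Nonempty X] {P : X → Prop} (h : fr P < 1) : ∃ x, ¬ P x := by
  by_contra hcon
  push Not at hcon
  have h1 : fr (fun _ : X => True) ≤ fr P := fr_mono fun x _ => hcon x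
  have h2 : fr (fun _ : X => True) = 1 := by
    unfold fr
    have : (fun _ : X => ind True) = fun _ => (1 : ℝ) := by
      funext x
      simp [ind]
    rw [this, avg_const]
  linarith

theorem fr_equiv (e : X ≃ Y) (P : Y → Prop) : fr (fun x => P (e x)) = fr P :=
  avg_equiv e fun y => ind (P y)

theorem fr_prod (P : X × Y → Prop) : fr P = avg (fun x => fr (fun y => P (x, y))) := by
  unfold fr
  rw [avg_prod]

theorem fr_prod' (P : X × Y → Prop) : fr P = avg (fun y => fr (fun x => P (x, y))) := by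
  unfold fr
  rw [avg_prod, avg_comm]

theorem fr_of_fst {P : X × Y → Prop} {c : ℝ} (hc : 0 ≤ c) (h : ∀ x, fr (fun y => P (x, y)) ≤ c) :
    fr P ≤ c := by
  rw [fr_prod]
  exact avg_le_of_le hc h

theorem fr_of_snd {P : X × Y → Prop} {c : ℝ} (hc : 0 ≤ c) (h : ∀ y, fr (fun x => P (x, y)) ≤ c) :
    fr P ≤ c := by
  rw [fr_prod']
  exact avg_le_of_le hc h

theorem fr_fst [Nonempty Y] (P : X → Prop) : fr (fun p : X × Y => P p.1) = fr P := by
  rw [fr_prod]
  have : (fun x : X => fr (fun _ : Y => P x)) = fun x => ind (P x) := by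
    funext x
    unfold fr
    rw [avg_const]
  rw [this]
  rfl

theorem fr_snd [Nonempty X] (P : Y → Prop) : fr (fun p : X × Y => P p.2) = fr P := by
  rw [fr_prod']
  have : (fun y : Y => fr (fun _ : X => P y)) = fun y => ind (P y) := by
    funext y
    unfold fr
    rw [avg_const]
  rw [this]
  rfl

/-- a function that is constant on most pairs has a typical value -/
theorem fr_modal [Nonempty X] {α : Type} (g : X → α) {c : ℝ}
    (h : fr (fun p : X × X => g p.1 ≠ g p.2) ≤ c) : ∃ x₀, fr (fun x => g x ≠ g x₀) ≤ c := by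
  rw [fr_prod'] at h
  obtain ⟨x₀, hx₀⟩ := exists_le_avg (fun y => fr (fun x => g x ≠ g y))
  exact ⟨x₀, hx₀.trans h⟩

/-- there is a good first coordinate -/
theorem fr_good_fst [Nonempty X] {P : X × Y → Prop} {c : ℝ} (h : fr P ≤ c) :
    ∃ x₀, fr (fun y => P (x₀, y)) ≤ c := by
  rw [fr_prod] at h
  obtain ⟨x₀, hx₀⟩ := exists_le_avg (fun x => fr (fun y => P (x, y)))
  exact ⟨x₀, hx₀.trans h⟩

end

section triple

variable {K : Type} [Fintype K]

/-- cyclic rotations of a triple relation, pair bound -/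
theorem fr3_pair {B : K → K → K → Prop} {c : ℝ} (hc : 0 ≤ c)
    (h : ∀ z, fr (fun p : K × K => B p.1 p.2 z) ≤ c) :
    fr (fun q : K × K × K => B q.1 q.2.1 q.2.2) ≤ c ∧
    fr (fun q : K × K × K => B q.2.1 q.2.2 q.1) ≤ c ∧
    fr (fun q : K × K × K => B q.2.2 q.1 q.2.1) ≤ c := by
  have h2 : fr (fun q : K × K × K => B q.2.1 q.2.2 q.1) ≤ c :=
    fr_of_fst hc fun x => h x
  have e1 : fr (fun q : K × K × K => B q.1 q.2.1 q.2.2) = fr (fun q : K × K × K => B q.2.1 q.2.2 q.1) := by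
    have e : K × K × K ≃ K × K × K :=
      { toFun := fun q => (q.2.2, q.1, q.2.1)
        invFun := fun q => (q.2.1, q.2.2, q.1)
        left_inv := fun q => rfl
        right_inv := fun q => rfl }
    exact fr_equiv (⟨fun q => (q.2.2, q.1, q.2.1), fun q => (q.2.1, q.2.2, q.1), fun q => rfl,
      fun q => rfl⟩ : K × K × K ≃ K × K × K) (fun q => B q.2.1 q.2.2 q.1)
  have e2 : fr (fun q : K × K × K => B q.2.2 q.1 q.2.1) = fr (fun q : K × K × K => B q.2.1 q.2.2 q.1) := by
    exact fr_equiv (⟨fun q => (q.2.1, q.2.2, q.1), fun q => (q.2.2, q.1, q.2.1), fun q => rfl,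
      fun q => rfl⟩ : K × K × K ≃ K × K × K) (fun q => B q.2.1 q.2.2 q.1)
  exact ⟨e1 ▸ h2, h2, e2 ▸ h2⟩

/-- cyclic rotations of a triple relation, bound for the first variable -/
theorem fr3_one {B : K → K → K → Prop} {c : ℝ} (hc : 0 ≤ c)
    (h : ∀ y z, fr (fun x : K => B x y z) ≤ c) :
    fr (fun q : K × K × K => B q.1 q.2.1 q.2.2) ≤ c ∧
    fr (fun q : K × K × K => B q.2.1 q.2.2 q.1) ≤ c ∧
    fr (fun q : K × K × K => B q.2.2 q.1 q.2.1) ≤ c :=
  fr3_pair hc fun z => fr_of_snd hc fun y => h y z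

end triple

end

end Pool.LPH
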