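import Pool.Agent.LP.HDefs

/-!
# LP, part II (heights): basic lemmas on steps and paths
-/

set_option autoImplicit false

open Finset Pool.LPG Pool.Agent.OIP

namespace Pool.LPH

variable {D : Type} [DecidableEq D]

theorem uv_not (i : Fin 4) (s : Bool) : uv i (!s) = - uv i s := by
  funext j
  by_cases h : j = i
  · subst h; cases s <;> simp [uv, sg]
  · simp [uv, h]

theorem opp_opp (x : Stp D) : opp (opp x) = x := by
  rcases x with ⟨i, s⟩ | d
  · simp [opp]
  · rfl

theorem mv_opp (O : Ct D) (x : Stp D) : mv (mv O x) (opp x) = O := by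
  rcases x with ⟨i, s⟩ | d
  · simp only [mv, opp, uv_not]
    ext1
    · simp
    · rfl
  · simp only [mv, opp]
    ext1
    · rfl
    · exact symmDiff_symmDiff_cancel_right _ _

theorem mv_opp' (O : Ct D) (x : Stp D) : mv (mv O (opp x)) x = O := by
  have := mv_opp O (opp x)
  rwa [opp_opp] at this

theorem mv_comm (O : Ct D) (x y : Stp D) : mv (mv O x) y = mv (mv O y) x := by
  rcases x with ⟨i, s⟩ | d <;> rcases y with ⟨j, t⟩ | d'
  · simp only [mv]
    ext1
    · exact add_right_comm _ _ _
    · rfl
  · rfl
  · rfl
  · simp only [mv]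
    ext1
    · rfl
    · exact symmDiff_right_comm _ _ _

theorem Ax.symm {x y : Stp D} (h : Ax x y) : Ax y x := by
  rcases x with ⟨i, s⟩ | d <;> rcases y with ⟨j, t⟩ | d'
  · exact fun h' => h h'.symm
  · trivial
  · trivial
  · exact fun h' => h h'.symm

theorem exists_ax (x : Stp D) : ∃ y : Stp D, Ax x y := by
  rcases x with ⟨i, s⟩ | d
  · refine ⟨Sum.inl (i + 1, true), ?_⟩
    show i ≠ i + 1
    fin_cases i <;> decide
  · exact ⟨Sum.inl (0, true), trivial⟩

theorem fl_nil (O : Ct D) : fl O [] = O := rfl

theorem fl_cons (O : Ct D) (d : D) (l : List D) : fl O (d :: l) = fl (mv O (Sum.inr d)) l := rfl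

theorem fl_append (O : Ct D) (l l' : List D) : fl O (l ++ l') = fl (fl O l) l' := by
  simp [fl, List.foldl_append]

theorem fl_mv (O : Ct D) (x : Stp D) (l : List D) : fl (mv O x) l = mv (fl O l) x := by
  induction l generalizing O with
  | nil => rfl
  | cons d l ih => rw [fl_cons, fl_cons, mv_comm, ih]

theorem fl_comm (O : Ct D) (l l' : List D) : fl (fl O l) l' = fl (fl O l') l := by
  induction l generalizing O with
  | nil => rfl
  | cons d l ih => rw [fl_cons, fl_cons, ih, fl_mv]

theorem fl_fst (O : Ct D) (l : List D) : (fl O l).1 = O.1 := by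
  induction l generalizing O with
  | nil => rfl
  | cons d l ih => rw [fl_cons, ih]; rfl

theorem fl_fl_self (O : Ct D) (l : List D) : fl (fl O l) l = O := by
  induction l generalizing O with
  | nil => rfl
  | cons d l ih =>
    rw [fl_cons, fl_cons, fl_mv, fl_mv, fl_mv, ih]
    exact mv_opp O (Sum.inr d)

theorem pth_append (f : Ct D → Stp D → ℤ) (O : Ct D) (l l' : List D) :
    pth f O (l ++ l') = pth f O l + pth f (fl O l) l' := by
  induction l generalizing O with
  | nil => simp [pth, fl]
  | cons d l ih => rw [List.cons_append, pth, pth, ih, fl_cons]; ring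

/-- a single step against a path -/
theorem strip1 (f : Ct D → Stp D → ℤ) (O : Ct D) (x : Stp D) (l : List D)
    (h : ∀ i (hi : i < l.length), Sq f (fl O (l.take i)) x (Sum.inr l[i])) :
    f O x + pth f (mv O x) l = pth f O l + f (fl O l) x := by
  induction l generalizing O with
  | nil => simp [pth, fl]
  | cons d l ih =>
    have h0 := h 0 (by simp)
    have h1 := ih (mv O (Sum.inr d)) (fun i hi => by
      have := h (i + 1) (by simpa using hi)
      simpa [fl_cons] using this)
    simp only [List.take_zero, fl_nil, List.getElem_cons_zero, Sq] at h0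
    rw [pth, pth, fl_cons, mv_comm O x (Sum.inr d)]
    linarith

/-- two paths against each other -/
theorem strip2 (f : Ct D → Stp D → ℤ) (O : Ct D) (l l' : List D)
    (h : ∀ i (hi : i < l.length) j (hj : j < l'.length),
      Sq f (fl (fl O (l.take i)) (l'.take j)) (Sum.inr l[i]) (Sum.inr l'[j])) :
    pth f O l + pth f (fl O l) l' = pth f O l' + pth f (fl O l') l := by
  induction l generalizing O with
  | nil => simp [pth, fl]
  | cons d l ih =>
    have h0 := strip1 f O (Sum.inr d) l' (fun j hj => by
      have := h 0 (by simp) j hj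
      simpa [fl_nil] using this)
    have h1 := ih (mv O (Sum.inr d)) (fun i hi j hj => by
      have := h (i + 1) (by simpa using hi) j hj
      simpa [fl_cons] using this)
    rw [pth, pth, fl_cons, ← fl_mv]
    linarith

theorem sq_self (f : Ct D → Stp D → ℤ) (O : Ct D) (x : Stp D) : Sq f O x x := rfl

theorem Sq.symm {f : Ct D → Stp D → ℤ} {O : Ct D} {x y : Stp D} (h : Sq f O x y) : Sq f O y x :=
  Eq.symm h

end Pool.LPH
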