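import Mathlib

/-!
# LP, part II (heights): closed cochains on the cube of subsets are exact
-/

set_option autoImplicit false

open Finset

namespace Pool.LPH

theorem cube_exact {D : Type} [DecidableEq D] [Fintype D] (c : Finset D → D → ℤ)
    (anti : ∀ S d, c (symmDiff S {d}) d = - c S d)
    (cl : ∀ S d d', d ≠ d' → c S d + c (symmDiff S {d}) d' = c S d' + c (symmDiff S {d'}) d) :
    ∃ u : Finset D → ℤ, (∀ S d, u (symmDiff S {d}) = u S + c S d) ∧ ((∀ S d, c S d = 0) → ∀ S, u S = 0) := by
  have key : ∀ T : Finset D, ∃ u : Finset D → ℤ,
      (∀ S d, S ⊆ T → d ∈ T → u (symmDiff S {d}) = u S + c S d) ∧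
      ((∀ S d, c S d = 0) → ∀ S, u S = 0) := by
    intro T
    induction T using Finset.induction_on with
    | empty => exact ⟨fun _ => 0, fun S d _ hd => absurd hd (Finset.notMem_empty d), fun _ _ => rfl⟩
    | insert x T hx ih =>
      obtain ⟨u, hu, hu0⟩ := ih
      refine ⟨fun S => u (S.erase x) + (if x ∈ S then c (S.erase x) x else 0), ?_, ?_⟩
      · intro S d hS hd
        have hE : S.erase x ⊆ T := by
          intro y hy
          rw [Finset.mem_erase] at hy
          rcases Finset.mem_insert.1 (hS hy.2) with h | h
          · exact absurd h hy.1
          · exact h
        by_cases hdx : d = x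
        · subst hdx
          have e1 : (symmDiff S {d}).erase d = S.erase d := by
            ext y
            simp only [Finset.mem_erase, Finset.mem_symmDiff, Finset.mem_singleton]
            tauto
          by_cases hdS : d ∈ S
          · have h1 : d ∉ symmDiff S {d} := by
              simp [Finset.mem_symmDiff, hdS]
            have h2 : symmDiff (S.erase d) {d} = S := by
              ext y
              simp only [Finset.mem_erase, Finset.mem_symmDiff, Finset.mem_singleton]
              by_cases hy : y = d
              · subst hy; simp [hdS]
              · simp [hy]
            have h3 := anti (S.erase d) d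
            rw [h2] at h3
            simp only [e1, hdS, h1, if_true, if_false]
            rw [h3]
            ring
          · have h1 : d ∈ symmDiff S {d} := by
              simp [Finset.mem_symmDiff, hdS]
            simp only [e1, hdS, h1, if_true, if_false]
            rw [Finset.erase_eq_of_notMem hdS]
            ring
        · have hdT : d ∈ T := (Finset.mem_insert.1 hd).resolve_left hdx
          have e1 : (symmDiff S {d}).erase x = symmDiff (S.erase x) {d} := by
            ext y
            simp only [Finset.mem_erase, Finset.mem_symmDiff, Finset.mem_singleton]
            by_cases hy : y = x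
            · subst hy
              simp [Ne.symm hdx]
            · simp [hy]
          have e2 : x ∈ symmDiff S {d} ↔ x ∈ S := by
            simp [Finset.mem_symmDiff, Ne.symm hdx]
          by_cases hxS : x ∈ S
          · have h2 : symmDiff (S.erase x) {x} = S := by
              ext y
              simp only [Finset.mem_erase, Finset.mem_symmDiff, Finset.mem_singleton]
              by_cases hy : y = x
              · subst hy; simp [hxS]
              · simp [hy]
            have h3 := cl (S.erase x) d x hdx
            rw [h2] at h3
            simp only [e1, e2, hxS, if_true]
            rw [hu _ _ hE hdT]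
            linarith
          · simp only [e1, e2, hxS, if_false]
            rw [hu _ _ hE hdT, Finset.erase_eq_of_notMem hxS]
            ring
      · intro h0 S
        simp [hu0 h0, h0]
  obtain ⟨u, hu, hu0⟩ := key Finset.univ
  exact ⟨u, fun S d => hu S d (Finset.subset_univ _) (Finset.mem_univ _), hu0⟩

end Pool.LPH
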