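import Pool.Agent.LP.GBas
import Pool.Agent.OIP.Avg

/-!
# LP, part II (heights): definitions

Centres `Ct D = V × Finset D` (base point and fibre point), steps `Stp D` (signed base unit steps and
fibre flips).  `K` is the finite set of the sites (stars) at a centre, `dir κ` the ordered list of the
directions of the star `κ`.  `a O κ` says that the majority cluster of the star `κ` at the centre `O`
belongs to the finite union of clusters `A`; `ψ O e κ ∈ {-1, 0, 1}` is the oriented boundary cochain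
(`+1`: the end at `O` is the pure end and the end at `mv O e` is the mixed end of a bad link).
-/

set_option autoImplicit false

open Finset Pool.LPG Pool.Agent.OIP

namespace Pool.LPH

/-- centres -/
abbrev Ct (D : Type) := V × Finset D

/-- steps: signed base unit steps and fibre flips -/
abbrev Stp (D : Type) := (Fin 4 × Bool) ⊕ D

section

variable {D : Type} [DecidableEq D]

/-- move -/
def mv (O : Ct D) : Stp D → Ct D
  | Sum.inl p => (O.1 + uv p.1 p.2, O.2)
  | Sum.inr d => (O.1, symmDiff O.2 {d})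

/-- opposite step -/
def opp : Stp D → Stp D
  | Sum.inl p => Sum.inl (p.1, !p.2)
  | Sum.inr d => Sum.inr d

/-- steps along different axes -/
def Ax : Stp D → Stp D → Prop
  | Sum.inl p, Sum.inl q => p.1 ≠ q.1
  | Sum.inr d, Sum.inr d' => d ≠ d'
  | _, _ => True

/-- flips along a list -/
def fl (O : Ct D) (l : List D) : Ct D := l.foldl (fun O d => mv O (Sum.inr d)) O

/-- sum of `f` along the path of flips `l` starting in `O` -/
def pth (f : Ct D → Stp D → ℤ) : Ct D → List D → ℤ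
  | _, [] => 0
  | O, d :: l => f O (Sum.inr d) + pth f (mv O (Sum.inr d)) l

/-- `f` is closed on the plaquette `O, e, e'` -/
def Sq (f : Ct D → Stp D → ℤ) (O : Ct D) (e e' : Stp D) : Prop :=
  f O e + f (mv O e) e' = f O e' + f (mv O e') e

end

/-- the data at one configuration -/
structure HSys (D K : Type) where
  dir : K → List D
  a : Ct D → K → Bool
  ψ : Ct D → Stp D → K → ℤ

namespace HSys

variable {D K : Type} [DecidableEq D] (H : HSys D K)

/-- the cochain of the star `κ` -/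
def f (κ : K) (O : Ct D) (e : Stp D) : ℤ := H.ψ O e κ

/-- integer indicator -/
def A (O : Ct D) (κ : K) : ℤ := if H.a O κ then 1 else 0

/-- the rules for the star `κ` at the centre `O` and the steps `e`, `e'` -/
structure Rule (O : Ct D) (e e' : Stp D) (κ : K) : Prop where
  anti : H.ψ (mv O e) (opp e) κ = - H.ψ O e κ
  sq : Sq (H.f κ) O e e'
  one : ¬ (0 < H.ψ O e κ ∧ 0 < H.ψ O e' κ)

/-- difference of the heights of `κ'` and `κ` at the centre `O` -/
def t (O : Ct D) (κ κ' : K) : ℤ := pth (H.f κ) O (H.dir κ') - pth (H.f κ') O (H.dir κ)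

end HSys

/-- all assumptions: `X` is the set of bad base sites -/
structure Good {D K : Type} [DecidableEq D] [Fintype D] [Fintype K] (H : HSys D K) (X : Set V) (n : ℕ)
    (θ : ℝ) : Prop where
  nn : 0 ≤ θ
  n1 : 1 ≤ n
  len : ∀ κ, (H.dir κ).length = n
  bd : ∀ O e κ, -1 ≤ H.ψ O e κ ∧ H.ψ O e κ ≤ 1
  zero : ∀ O e κ, H.ψ O e κ = 0 ↔ H.a O κ = H.a (mv O e) κ
  rule : ∀ O e e', O.1 ∉ X → Ax e e' → avg (fun κ => ind (¬ H.Rule O e e' κ)) ≤ θ
  swapA : ∀ O : Ct D, O.1 ∉ X → avg (fun κ => avg (fun κ' =>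
    ind (H.a (fl O (H.dir κ')) κ ≠ H.a (fl O (H.dir κ)) κ'))) ≤ θ
  swapP : ∀ (O : Ct D) (e : Stp D), O.1 ∉ X → avg (fun κ => avg (fun κ' =>
    ind (H.ψ (fl O (H.dir κ')) e κ ≠ H.ψ (fl O (H.dir κ)) e κ'))) ≤ θ
  unif : ∀ i < n, ∀ g : List D → ℝ, (∀ l, 0 ≤ g l) →
    avg (fun κ => g ((H.dir κ).take (i + 1))) ≤
      2 * avg (fun κ => avg (fun d : D => g ((H.dir κ).take i ++ [d])))

/-- fraction of the elements with property `P` -/
noncomputable def fr {X : Type} [Fintype X] (P : X → Prop) : ℝ := avg (fun x => ind (P x))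

/-- height functions: output of the first half -/
structure Hts {D K : Type} [DecidableEq D] [Fintype K] (H : HSys D K) (X : Set V) (δ : ℝ)
    (Φ : Ct D → K → ℤ) (k : V → Fin 4 → ℤ) : Prop where
  co : Cocyc Xᶜ k
  fib : ∀ (O : Ct D) (d : D), O.1 ∉ X →
    fr (fun κ => Φ (mv O (Sum.inr d)) κ ≠ Φ O κ + H.ψ O (Sum.inr d) κ) ≤ δ
  bas : ∀ (O : Ct D) (i : Fin 4) (s : Bool), O.1 ∉ X → O.1 + uv i s ∉ X →
    fr (fun κ => Φ (mv O (Sum.inl (i, s))) κ ≠ Φ O κ + H.ψ O (Sum.inl (i, s)) κ + 2 * sh k O.1 i s) ≤ δ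
  swp : ∀ O : Ct D, O.1 ∉ X →
    fr (fun p : K × K => Φ (fl O (H.dir p.2)) p.1 ≠ Φ (fl O (H.dir p.1)) p.2) ≤ δ
  par : ∀ O : Ct D, O.1 ∉ X → fr (fun κ => ¬ (2 ∣ Φ O κ - H.A O κ)) ≤ δ
  zero1 : ∀ z, z ∉ X → (∀ S κ, H.a (z, S) κ = false) → ∀ S κ, Φ (z, S) κ = 0
  zero2 : ∀ z i, (∀ S κ, H.a (z, S) κ = false) → (∀ S κ, H.a (z + e i, S) κ = false) → k z i = 0

end Pool.LPH
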