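import Pool.Agent.LP.HStep
import Pool.Agent.LP.HCube

/-!
# LP, part II (heights): global normalisation

`exists_kk` gives `Φ₀`, `c`; over a good base site `z` the fibre part of `c` is exact (`cube_exact`, `u z`);
`Φ (z, S) κ = Φ₀ (z, S) κ - 2 * u z S`, `k z i = c (z, ∅) (+e i)` (0 if `z` or `z + e i` is bad).
-/

set_option autoImplicit false

open Finset Pool.LPG Pool.Agent.OIP

namespace Pool.LPH

variable {D K : Type} [DecidableEq D] [Fintype D] [Fintype K] {H : HSys D K} {X : Set V} {n : ℕ} {θ : ℝ}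

theorem symmDiff_singleton_of_notMem {D : Type} [DecidableEq D] {S : Finset D} {d : D} (h : d ∉ S) :
    symmDiff S {d} = insert d S := by
  ext y
  simp only [Finset.mem_symmDiff, Finset.mem_singleton, Finset.mem_insert]
  by_cases hy : y = d
  · subst hy; simp [h]
  · simp [hy]

theorem exists_norm [Nonempty K] (h : Good H X n θ) (hθ : 100 * (n ^ 2 * θ) < 1) :
    ∃ (Φ : Ct D → K → ℤ) (k : V → Fin 4 → ℤ), Cocyc Xᶜ k ∧
      (∀ (O : Ct D) (d : D), O.1 ∉ X →
        fr (fun κ => Φ (mv O (Sum.inr d)) κ ≠ Φ O κ + H.ψ O (Sum.inr d) κ) ≤ 15 * (n ^ 2 * θ)) ∧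
      (∀ (O : Ct D) (i : Fin 4) (s : Bool), O.1 ∉ X → O.1 + uv i s ∉ X →
        fr (fun κ => Φ (mv O (Sum.inl (i, s))) κ ≠ Φ O κ + H.ψ O (Sum.inl (i, s)) κ + 2 * sh k O.1 i s)
          ≤ 15 * (n ^ 2 * θ)) ∧
      (∀ O : Ct D, O.1 ∉ X → Pt H n θ O (Φ O)) ∧
      (∀ z i, (z ∈ X ∨ z + e i ∈ X) → k z i = 0) ∧
      (∀ z i, (∀ S κ, H.a (z, S) κ = false) → (∀ S κ, H.a (z + e i, S) κ = false) → k z i = 0) := by
  classical
  obtain ⟨Φ₀, c, hpt, hstep, hanti, hcl, hzero⟩ := exists_kk h hθ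
  -- fibre potentials
  have hu : ∀ z : V, ∃ u : Finset D → ℤ, (z ∉ X → ∀ S d, u (symmDiff S {d}) = u S + c (z, S) (Sum.inr d)) ∧
      ((z ∉ X → ∀ S κ, H.a (z, S) κ = false) → ∀ S, u S = 0) := by
    intro z
    by_cases hz : z ∈ X
    · exact ⟨fun _ => 0, fun h' => absurd hz h', fun _ _ => rfl⟩
    · obtain ⟨u, hu1, hu2⟩ := cube_exact (fun S d => c (z, S) (Sum.inr d))
        (fun S d => hanti (z, S) (Sum.inr d) hz hz)
        (fun S d d' hdd => hcl (z, S) (Sum.inr d) (Sum.inr d') hdd hz hz hz hz)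
      refine ⟨u, fun _ => hu1, fun ha => hu2 fun S d => ?_⟩
      exact hzero (z, S) (Sum.inr d) hz hz (ha hz) (ha hz)
  choose u hu1 hu2 using hu
  -- corrected base cochain
  set c' : Ct D → Fin 4 × Bool → ℤ := fun O p => c O (Sum.inl p) - u (O.1 + uv p.1 p.2) O.2 + u O.1 O.2 with hc'
  have hconst : ∀ (z : V) (p : Fin 4 × Bool) (S : Finset D), z ∉ X → z + uv p.1 p.2 ∉ X →
      c' (z, S) p = c' (z, ∅) p := by
    intro z p S hz hz'
    induction S using Finset.induction_on with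
    | empty => rfl
    | insert d S hd ih =>
      rw [← ih, ← symmDiff_singleton_of_notMem hd]
      have h1 : Sq c (z, S) (Sum.inl p) (Sum.inr d) := hcl (z, S) (Sum.inl p) (Sum.inr d) trivial hz hz' hz hz'
      have h2 : c (z, S) (Sum.inl p) + c (z + uv p.1 p.2, S) (Sum.inr d) =
          c (z, S) (Sum.inr d) + c (z, symmDiff S {d}) (Sum.inl p) := h1
      have h3 := hu1 z hz S d
      have h4 := hu1 (z + uv p.1 p.2) hz' S d
      simp only [hc']
      linarith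
  set k : V → Fin 4 → ℤ := fun z i => if z ∉ X ∧ z + e i ∉ X then c' (z, ∅) (i, true) else 0 with hk
  have hk1 : ∀ z i, z ∉ X → z + e i ∉ X → k z i = c' (z, ∅) (i, true) := fun z i h1 h2 => if_pos ⟨h1, h2⟩
  have hsh : ∀ (z : V) (i : Fin 4) (s : Bool), z ∉ X → z + uv i s ∉ X → sh k z i s = c' (z, ∅) (i, s) := by
    intro z i s hz hz'
    cases s
    · have e1 : z + uv i false = z - e i := by rw [uv_false, sub_eq_add_neg]
      have e2 : z - e i + e i = z := sub_add_cancel _ _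
      have hz'' : z - e i ∉ X := by rw [← e1]; exact hz'
      have h1 : sh k z i false = - k (z - e i) i := by simp [sh]
      rw [h1, hk1 _ _ hz'' (by rw [e2]; exact hz)]
      have h2 := hanti (z, ∅) (Sum.inl (i, false)) hz hz'
      have h3 : c (z + uv i false, ∅) (Sum.inl (i, true)) = - c (z, ∅) (Sum.inl (i, false)) := h2
      simp only [hc', uv_true]
      rw [e1] at h3
      rw [h3, e1, e2]
      ring
    · have h1 : sh k z i true = k z i := by simp [sh]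
      rw [h1, hk1 _ _ hz (by rw [← uv_true]; exact hz')]
  refine ⟨fun O κ => Φ₀ O κ - 2 * u O.1 O.2, k, ?_, ?_, ?_, ?_, ?_, ?_⟩
  · -- closed
    intro x i j hij hx hxi hxj hxij
    have hx' : x ∉ X := hx
    have hxi' : x + e i ∉ X := hxi
    have hxj' : x + e j ∉ X := hxj
    have hxij' : x + e i + e j ∉ X := hxij
    have hxji : x + e j + e i ∉ X := by rw [add_right_comm]; exact hxij'
    rw [hk1 _ _ hx' hxi', hk1 _ _ hxi' hxij', hk1 _ _ hx' hxj', hk1 _ _ hxj' hxji]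
    have h1 : c (x, ∅) (Sum.inl (i, true)) + c (x + e i, ∅) (Sum.inl (j, true)) =
        c (x, ∅) (Sum.inl (j, true)) + c (x + e j, ∅) (Sum.inl (i, true)) :=
      hcl (x, ∅) (Sum.inl (i, true)) (Sum.inl (j, true)) hij hx' hxi' hxj' hxij'
    simp only [hc', uv_true]
    rw [add_right_comm x (e j) (e i)]
    linarith
  · -- fibre
    intro O d hO
    refine (fr_mono ?_).trans (hstep O (Sum.inr d) hO hO)
    intro κ hκ hcon
    refine hκ ?_
    have h1 := hu1 O.1 hO O.2 d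
    show Φ₀ (mv O (Sum.inr d)) κ - 2 * u O.1 (symmDiff O.2 {d}) = Φ₀ O κ - 2 * u O.1 O.2 + _
    rw [hcon, h1]
    ring
  · -- base
    intro O i s hO hO'
    refine (fr_mono ?_).trans (hstep O (Sum.inl (i, s)) hO hO')
    intro κ hκ hcon
    refine hκ ?_
    rw [hsh O.1 i s hO hO', ← hconst O.1 (i, s) O.2 hO hO']
    show Φ₀ (mv O (Sum.inl (i, s))) κ - 2 * u (O.1 + uv i s) O.2 = Φ₀ O κ - 2 * u O.1 O.2 + _ + _
    rw [hcon]
    simp only [hc']
    ring
  · -- potentials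
    intro O hO
    obtain ⟨p1, p2, p3⟩ := hpt O hO
    refine ⟨?_, ?_, ?_⟩
    · refine (fr_mono ?_).trans p1
      intro p hp hcon
      refine hp ?_
      show Φ₀ O p.2 - 2 * u O.1 O.2 - (Φ₀ O p.1 - 2 * u O.1 O.2) = _
      linarith
    · refine (fr_mono ?_).trans p2
      intro κ hκ hcon
      refine hκ ?_
      show (2 : ℤ) ∣ Φ₀ O κ - 2 * u O.1 O.2 - H.A O κ
      omega
    · intro ha κ
      have h1 := hu2 O.1 (fun _ => ha) O.2
      show Φ₀ O κ - 2 * u O.1 O.2 = 0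
      rw [h1, p3 ha]
      ring
  · intro z i hz
    refine if_neg ?_
    rintro ⟨h1, h2⟩
    rcases hz with h | h
    · exact h1 h
    · exact h2 h
  · intro z i ha ha'
    by_cases hz : z ∉ X ∧ z + e i ∉ X
    · rw [hk1 _ _ hz.1 hz.2]
      have h1 := hu2 z (fun _ => ha) ∅
      have h2 := hu2 (z + e i) (fun _ => ha') ∅
      have h3 := hzero (z, ∅) (Sum.inl (i, true)) hz.1 hz.2 ha ha'
      simp only [hc', uv_true]
      rw [h1, h2, h3]
      ring
    · exact if_neg hz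

/-- a path with the star `κ` -/
theorem path_of_fib (h : Good H X n θ) (Φ : Ct D → K → ℤ) {ρ : ℝ}
    (hfib : ∀ (O : Ct D) (d : D), O.1 ∉ X →
      fr (fun κ => Φ (mv O (Sum.inr d)) κ ≠ Φ O κ + H.ψ O (Sum.inr d) κ) ≤ ρ)
    (O : Ct D) (hO : O.1 ∉ X) (l : List D) :
    fr (fun κ => Φ (fl O l) κ ≠ Φ O κ + pth (H.f κ) O l) ≤ l.length * ρ := by
  induction l generalizing O with
  | nil =>
    refine (fr_mono (Q := fun _ => False) ?_).trans ?_
    · intro κ hκ
      exact hκ (by simp [fl, pth])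
    · simp [fr, avg, ind]
  | cons d l ih =>
    have h1 := ih (mv O (Sum.inr d)) hO
    have h2 := hfib O d hO
    refine (fr_le_add h1 h2 ?_).trans (le_of_eq ?_)
    · intro κ hκ
      by_contra hcon
      push Not at hcon
      obtain ⟨c1, c2⟩ := hcon
      refine hκ ?_
      rw [fl_cons, c1, c2, pth]
      have : H.f κ O (Sum.inr d) = H.ψ O (Sum.inr d) κ := rfl
      rw [this]
      ring
    · rw [List.length_cons]
      push_cast
      ring

/-- walking along the star `κ'` with the star `κ` and the swap relation -/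
theorem swp_of_pot [Nonempty K] (h : Good H X n θ) (Φ : Ct D → K → ℤ)
    (hfib : ∀ (O : Ct D) (d : D), O.1 ∉ X →
      fr (fun κ => Φ (mv O (Sum.inr d)) κ ≠ Φ O κ + H.ψ O (Sum.inr d) κ) ≤ 15 * (n ^ 2 * θ))
    (hpt : ∀ O : Ct D, O.1 ∉ X → Pt H n θ O (Φ O)) (O : Ct D) (hO : O.1 ∉ X) :
    fr (fun p : K × K => Φ (fl O (H.dir p.2)) p.1 ≠ Φ (fl O (H.dir p.1)) p.2) ≤ 36 * (n ^ 3 * θ) := by
  have hn : (1 : ℝ) ≤ n := by exact_mod_cast h.n1
  have h0 := h.nn
  have hnn : (0 : ℝ) ≤ n * (15 * (n ^ 2 * θ)) := by positivity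
  have h1 : fr (fun p : K × K => Φ (fl O (H.dir p.2)) p.1 ≠ Φ O p.1 + pth (H.f p.1) O (H.dir p.2)) ≤
      n * (15 * (n ^ 2 * θ)) := by
    refine fr_of_snd hnn fun κ' => ?_
    have := path_of_fib h Φ hfib O hO (H.dir κ')
    rwa [h.len κ'] at this
  have h2 : fr (fun p : K × K => Φ (fl O (H.dir p.1)) p.2 ≠ Φ O p.2 + pth (H.f p.2) O (H.dir p.1)) ≤
      n * (15 * (n ^ 2 * θ)) := by
    refine fr_of_fst hnn fun κ' => ?_
    have := path_of_fib h Φ hfib O hO (H.dir κ')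
    rwa [h.len κ'] at this
  refine (fr_le_add3 h1 h2 (hpt O hO).pot ?_).trans ?_
  · intro p hp
    by_contra hcon
    push Not at hcon
    obtain ⟨c1, c2, c3⟩ := hcon
    refine hp ?_
    rw [c1, c2]
    unfold HSys.t at c3
    linarith
  · have h3 : (n : ℝ) ^ 2 * θ ≤ n ^ 3 * θ := by
      have : (0 : ℝ) ≤ (n : ℝ) ^ 2 * θ := by positivity
      nlinarith
    nlinarith

theorem exists_heights [Nonempty K] (h : Good H X n θ) (hθ : 100 * (n ^ 2 * θ) < 1) :
    ∃ (Φ : Ct D → K → ℤ) (k : V → Fin 4 → ℤ), Hts H X (36 * (n ^ 3 * θ)) Φ k := by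
  obtain ⟨Φ, k, h1, h2, h3, h4, h5, h6⟩ := exists_norm h hθ
  have hn : (1 : ℝ) ≤ n := by exact_mod_cast h.n1
  have h0 := h.nn
  have hc : (n : ℝ) ^ 2 * θ ≤ n ^ 3 * θ := by
    have : (0 : ℝ) ≤ (n : ℝ) ^ 2 * θ := by positivity
    nlinarith
  have hc0 : (0 : ℝ) ≤ (n : ℝ) ^ 2 * θ := by positivity
  refine ⟨Φ, k, ⟨h1, fun O d hO => (h2 O d hO).trans (by linarith),
    fun O i s hO hO' => (h3 O i s hO hO').trans (by linarith),
    fun O hO => swp_of_pot h Φ h2 h4 O hO, fun O hO => (h4 O hO).par.trans (by linarith), ?_, h6⟩⟩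
  intro z hz ha S κ
  exact (h4 (z, S) hz).zero ha κ

end Pool.LPH
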