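import Pool.Agent.LP.HFull
import Pool.Agent.LP.HNorm

/-!
# LP, part II (heights): the height data for part III

`Full z j := ∀ S, fr (Φ (z, S) κ < j) ≤ η`, `Emp z j := ∀ S, 1 - η ≤ fr (Φ (z, S) κ < j)`.
-/

set_option autoImplicit false

open Finset Pool.LPG Pool.Agent.OIP

namespace Pool.LPH

variable {D K : Type} [DecidableEq D] [Fintype D] [Fintype K] {H : HSys D K} {X : Set V} {n : ℕ} {θ : ℝ}

/-- bound after self-improvement -/
noncomputable def rr (n N : ℕ) (θ : ℝ) : ℝ :=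
  4 / 3 * (n * (36 * (n ^ 3 * θ)) + n * (2 * Real.sqrt (1 / (N : ℝ) + θ)) + 36 * (n ^ 3 * θ))

/-- smallness assumption -/
structure Small (n N : ℕ) (θ η : ℝ) : Prop where
  h1 : 100 * (n ^ 2 * θ) < 1
  h2 : 100 * (2 * (n * (2 * (36 * (n ^ 3 * θ)) + rr n N θ + θ)) + 36 * (n ^ 3 * θ)) ≤ η
  h3 : η ≤ 1 / 64

theorem exists_small (n : ℕ) (η : ℝ) (hη : 0 < η) (hη1 : η ≤ 1 / 64) :
    ∃ θ : ℝ, 0 < θ ∧ ∃ N₀ : ℕ, ∀ N, N₀ ≤ N → ∀ θ', 0 ≤ θ' → θ' ≤ θ → Small n N θ' η := by
  have hn : (0 : ℝ) ≤ n := Nat.cast_nonneg n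
  set C : ℝ := 100 * (2 * (n * (2 * (36 * (n ^ 3 : ℝ)) +
    4 / 3 * (n * (36 * (n ^ 3 : ℝ)) + n * 2 + 36 * (n ^ 3 : ℝ)) + 1)) + 36 * (n ^ 3 : ℝ)) with hC
  have hC0 : 0 ≤ C := by positivity
  set d : ℝ := min 1 (min (η / (C + 1)) (1 / (100 * (n : ℝ) ^ 2 + 1))) with hd
  have hd0 : 0 < d := by
    rw [hd]
    refine lt_min one_pos (lt_min (by positivity) (by positivity))
  have hd1 : d ≤ 1 := min_le_left _ _
  have hd2 : d ≤ η / (C + 1) := (min_le_right _ _).trans (min_le_left _ _)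
  have hd3 : d ≤ 1 / (100 * (n : ℝ) ^ 2 + 1) := (min_le_right _ _).trans (min_le_right _ _)
  obtain ⟨N₀, hN₀⟩ := exists_nat_gt (2 / d ^ 2)
  refine ⟨d ^ 2 / 2, by positivity, N₀, fun N hN θ' h0 h1 => ?_⟩
  have hNpos : (0 : ℝ) < N := by
    have : (N₀ : ℝ) ≤ N := by exact_mod_cast hN
    have h2 : 0 < 2 / d ^ 2 := by positivity
    linarith
  have hθd : θ' ≤ d := by nlinarith
  have hsq : Real.sqrt (1 / (N : ℝ) + θ') ≤ d := by
    rw [Real.sqrt_le_left hd0.le]
    have h3 : 1 / (N : ℝ) ≤ d ^ 2 / 2 := by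
      rw [div_le_iff₀ hNpos]
      have : (N₀ : ℝ) ≤ N := by exact_mod_cast hN
      have h4 : 2 / d ^ 2 < N := by linarith
      rw [div_lt_iff₀ (by positivity)] at h4
      nlinarith
    linarith
  have hsq0 : 0 ≤ Real.sqrt (1 / (N : ℝ) + θ') := Real.sqrt_nonneg _
  have hn3 : (0 : ℝ) ≤ (n : ℝ) ^ 3 := by positivity
  have e1 : (n : ℝ) ^ 3 * θ' ≤ (n : ℝ) ^ 3 * d := mul_le_mul_of_nonneg_left hθd hn3
  have e1' : (n : ℝ) * (36 * ((n : ℝ) ^ 3 * θ')) ≤ n * (36 * ((n : ℝ) ^ 3 * d)) :=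
    mul_le_mul_of_nonneg_left (by linarith) hn
  have e2 : (n : ℝ) * (2 * Real.sqrt (1 / (N : ℝ) + θ')) ≤ n * (2 * d) :=
    mul_le_mul_of_nonneg_left (by linarith) hn
  have e3 : rr n N θ' ≤ 4 / 3 * (n * (36 * ((n : ℝ) ^ 3 * d)) + n * (2 * d) + 36 * ((n : ℝ) ^ 3 * d)) := by
    unfold rr
    linarith
  have e4 : (n : ℝ) * (2 * (36 * ((n : ℝ) ^ 3 * θ')) + rr n N θ' + θ') ≤
      n * (2 * (36 * ((n : ℝ) ^ 3 * d)) +
        4 / 3 * (n * (36 * ((n : ℝ) ^ 3 * d)) + n * (2 * d) + 36 * ((n : ℝ) ^ 3 * d)) + d) :=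
    mul_le_mul_of_nonneg_left (by linarith) hn
  refine ⟨?_, ?_, hη1⟩
  · have hn2 : (0 : ℝ) ≤ (n : ℝ) ^ 2 := by positivity
    have h5 : 100 * ((n : ℝ) ^ 2 * θ') ≤ 100 * ((n : ℝ) ^ 2 * d) := by
      have := mul_le_mul_of_nonneg_left hθd hn2
      linarith
    have h6 : d * (100 * (n : ℝ) ^ 2 + 1) ≤ 1 := by
      rwa [le_div_iff₀ (by positivity)] at hd3
    nlinarith
  · have h7 : 100 * (2 * (n * (2 * (36 * ((n : ℝ) ^ 3 * θ')) + rr n N θ' + θ')) +
        36 * ((n : ℝ) ^ 3 * θ')) ≤ C * d := by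
      rw [hC]
      nlinarith
    have h8 : d * (C + 1) ≤ η := by
      rwa [le_div_iff₀ (by positivity)] at hd2
    nlinarith

theorem fr_compl [Nonempty K] (P : K → Prop) : fr (fun x => ¬ P x) = 1 - fr P := fr_not P

theorem hdata [Nonempty K] (h : Good H X n θ) {η : ℝ} (hs : Small n (Fintype.card D) θ η)
    (L M₀ : ℤ) (C : Fin 4 → Bool → V → Prop)
    (hM : ∀ z, z ∉ Cube M₀ → ∀ S κ, H.a (z, S) κ = false)
    (hL : ∀ z ∈ Cube L, z ∉ X → ∀ S, fr (fun κ => H.a (z, S) κ = false) ≤ θ)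
    (hC : ∀ i s u, u ∉ X → u - uv i s ∉ X →
      (∀ S, fr (fun κ => ¬ (H.a (u - uv i s, S) κ = true ∧ H.a (u, S) κ = false ∧
        H.ψ (u - uv i s, S) (Sum.inl (i, s)) κ = -1)) ≤ 4 * η) → C i s u) :
    HData X L C := by
  obtain ⟨Φ, k, hH⟩ := exists_heights h hs.h1
  have hn1 : (1 : ℝ) ≤ n := by exact_mod_cast h.n1
  have hθ := h.nn
  obtain ⟨δ, hδ⟩ : ∃ δ : ℝ, δ = 36 * ((n : ℝ) ^ 3 * θ) := ⟨_, rfl⟩
  rw [← hδ] at hH
  have hδ0 : 0 ≤ δ := by rw [hδ]; positivity
  have hrr : rr n (Fintype.card D) θ = 4 / 3 * (n * δ +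
      n * (2 * Real.sqrt (1 / (Fintype.card D : ℝ) + θ)) + δ) := by
    rw [hδ]; rfl
  obtain ⟨ρ, hρ⟩ : ∃ ρ : ℝ, ρ = rr n (Fintype.card D) θ := ⟨_, rfl⟩
  have hρ0 : 0 ≤ ρ := by
    rw [hρ, hrr]
    positivity
  have h2 : 100 * (2 * (n * (2 * δ + ρ + θ)) + δ) ≤ η := by
    rw [hδ, hρ]
    exact hs.h2
  have h3 := hs.h3
  have hnb : 2 * δ + ρ + θ ≤ n * (2 * δ + ρ + θ) := by
    have : 0 ≤ 2 * δ + ρ + θ := by positivity
    nlinarith
  have hη0 : 0 ≤ η := by nlinarith
  have hρη : ρ ≤ η / 100 := by linarith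
  have hδη : δ ≤ η / 100 := by linarith
  have hθη : θ ≤ η / 100 := by linarith
  have himp : ∀ z, z ∉ X → ∀ j : ℤ, (∀ S, fr (fun κ => Φ (z, S) κ < j) ≤ 1 / 4) →
      ∀ S, fr (fun κ => Φ (z, S) κ < j) ≤ ρ := by
    intro z hz j hj S
    have := self_improve h hH hz j hj S
    rw [hρ, hrr]
    exact this
  have hpar := hH.par
  refine ⟨k, fun z j => ∀ S, fr (fun κ => Φ (z, S) κ < j) ≤ η,
    fun z j => ∀ S, 1 - η ≤ fr (fun κ => Φ (z, S) κ < j), M₀ + 1, hH.co, ?_, ?_, ?_, ?_, ?_, ?_⟩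
  · intro z i hz
    have hsub : z ∉ Cube M₀ ∧ z + e i ∉ Cube M₀ := by
      simp only [Cube, Set.mem_ofPred_eq, not_forall, not_and_or, not_le, not_lt] at hz ⊢
      obtain ⟨j, hj⟩ := hz
      have hb : 0 ≤ (e i : V) j ∧ (e i : V) j ≤ 1 := by
        unfold e
        by_cases hij : j = i
        · subst hij; simp
        · simp [Pi.single_eq_of_ne hij]
      constructor
      · refine ⟨j, ?_⟩
        rcases hj with hj | hj
        · left; omega
        · right; omega
      · refine ⟨j, ?_⟩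
        rw [Pi.add_apply]
        rcases hj with hj | hj
        · left; omega
        · right; omega
    exact hH.zero2 z i (hM z hsub.1) (hM _ hsub.2)
  · intro z hz hzM
    have hz0 : z ∉ Cube M₀ := by
      intro hmem
      apply hzM
      intro j
      have := hmem j
      constructor <;> omega
    have hzero := hH.zero1 z hz (hM z hz0)
    constructor
    · intro S
      have : fr (fun κ => Φ (z, S) κ < 0) ≤ fr (fun _ : K => False) :=
        fr_mono fun κ hκ => by rw [hzero S κ] at hκ; exact absurd hκ (lt_irrefl _)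
      have h0 : fr (fun _ : K => False) = 0 := by
        have h1 := fr_compl (K := K) (fun _ => True)
        have h4 : fr (fun _ : K => ¬ True) = fr (fun _ : K => False) := fr_congr fun _ => by simp
        have h5 : fr (fun _ : K => True) = 1 := by
          have := avg_const (X := K) (1 : ℝ)
          unfold fr
          simpa [ind] using this
        rw [h4, h5] at h1
        simpa using h1
      linarith
    · intro hf
      have hf1 := hf ∅
      have h5 : fr (fun κ : K => Φ (z, ∅) κ < 1) = 1 := by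
        have h6 : fr (fun κ : K => Φ (z, ∅) κ < 1) = fr (fun _ : K => True) :=
          fr_congr fun κ => by simp [hzero ∅ κ]
        rw [h6]
        have := avg_const (X := K) (1 : ℝ)
        unfold fr
        simpa [ind] using this
      rw [h5] at hf1
      linarith
  · intro z i j s t m hij hz h1 h4 hf1 hf2
    have h5 : ∀ S, fr (fun κ => Φ (z, S) κ < m) ≤ 1 / 4 := by
      intro S
      have := two_full h hH hz hij h1 h4 m hf1 hf2 S
      linarith
    intro S
    have := himp z hz m h5 S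
    linarith
  · intro z i s m hz h1 hf
    have hf' : ∀ S, fr (fun κ => Φ (z + uv i s, S) κ < m + 2 * sh k z i s) ≤ ρ :=
      himp _ h1 _ fun S => (hf S).trans (by linarith)
    rcases zero_one h hH hz h1 m hf' (by linarith) with h5 | h5
    · left
      intro S
      have := h5 S
      linarith
    · right
      intro S
      have := h5 S
      linarith
  · intro z m hzL hz hf
    have h5 : ∀ S, fr (fun κ => Φ (z, S) κ < 2 * m + 1) ≤ 1 / 4 := by
      intro S
      have h6 := fr_le_add3 (P := fun κ => Φ (z, S) κ < 2 * m + 1) (hf S) (hL z hzL hz S)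
        (hpar (z, S) hz) (fun κ hκ => by
          by_cases h7 : Φ (z, S) κ < 2 * m
          · exact Or.inl h7
          · right
            by_cases h8 : H.a (z, S) κ = false
            · exact Or.inl h8
            · right
              intro h9
              have h10 : H.a (z, S) κ = true := by simpa using h8
              unfold HSys.A at h9
              rw [if_pos h10] at h9
              omega)
      linarith
    intro S
    have := himp z hz _ h5 S
    linarith
  · intro z i s m hz h1 hf1 hf2 he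
    have hzz : z + uv i s - uv i s = z := by abel
    apply hC i s (z + uv i s) h1 (by rw [hzz]; exact hz)
    intro S
    rw [hzz]
    have hb := hH.bas (z, S) i s hz h1
    have hp := hpar (z, S) hz
    have he' : fr (fun κ => ¬ (Φ (z + uv i s, S) κ < 2 * (m + sh k z i s) + 1)) ≤ η := by
      rw [fr_compl]
      have := he S
      linarith
    have key : fr (fun κ => ¬ (H.a (z, S) κ = true ∧ H.a (z + uv i s, S) κ = false ∧
        H.ψ (z, S) (Sum.inl (i, s)) κ = -1)) ≤ η + η + η + (δ + δ) := by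
      refine fr_le_add4 (hf1 S) (hf2 S) he' (fr_le_add hb hp fun κ hκ => hκ) (fun κ hκ => ?_)
      by_contra hcon
      rw [not_or, not_or, not_or] at hcon
      obtain ⟨c1, c2, c3, c4⟩ := hcon
      rw [not_or] at c4
      obtain ⟨c4, c5⟩ := c4
      rw [not_not] at c3 c4 c5
      have hψ := h.bd (z, S) (Sum.inl (i, s)) κ
      have hmv : mv (z, S) (Sum.inl (i, s)) = (z + uv i s, S) := rfl
      rw [hmv] at c4
      have hψ1 : H.ψ (z, S) (Sum.inl (i, s)) κ = -1 := by
        dsimp only at c4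
        omega
      have hΦ : Φ (z, S) κ = 2 * m + 1 := by
        dsimp only at c4
        omega
      have ha : H.a (z, S) κ = true := by
        by_contra h8
        have h10 : H.a (z, S) κ = false := by simpa using h8
        unfold HSys.A at c5
        rw [h10] at c5
        simp only [Bool.false_eq_true, if_false, sub_zero] at c5
        omega
      have hne : H.a (z, S) κ ≠ H.a (mv (z, S) (Sum.inl (i, s))) κ := by
        intro heq
        have := (h.zero (z, S) (Sum.inl (i, s)) κ).2 heq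
        omega
      rw [hmv, ha] at hne
      have ha' : H.a (z + uv i s, S) κ = false := by
        cases hcase : H.a (z + uv i s, S) κ
        · rfl
        · exact absurd hcase.symm hne
      exact hκ ⟨ha, ha', hψ1⟩
    linarith

end Pool.LPH
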