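import Pool.Agent.LP.HT

/-!
# LP, part II (heights): agreement of two random stars when no fibre step is a boundary step (`A`-free form)

`a A O κ`: the star `κ` at the centre `O` belongs to the closed set `A` (`A` ranges over an arbitrary index type).
-/

set_option autoImplicit false

open Finset Pool.LPG Pool.Agent.OIP

namespace Pool.LPH

variable {D K I : Type} [DecidableEq D] [Fintype K]

theorem flat_walk (a : I → Ct D → K → Prop) (z : V) {ρ : ℝ}
    (hNB : ∀ (S : Finset D) (d : D),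
      fr (fun κ => ¬ ∀ A, (a A (z, S) κ ↔ a A (mv (z, S) (Sum.inr d)) κ)) ≤ ρ) (l : List D) (S : Finset D) :
    fr (fun κ => ¬ ∀ A, (a A (z, S) κ ↔ a A (fl (z, S) l) κ)) ≤ l.length * ρ := by
  induction l generalizing S with
  | nil =>
    refine (fr_mono (Q := fun _ => False) ?_).trans ?_
    · intro κ hκ
      exact hκ fun A => Iff.rfl
    · simp [fr, avg, ind]
  | cons d l ih =>
    have h1 := ih (symmDiff S {d})
    have h2 := hNB S d
    refine (fr_le_add h1 h2 ?_).trans (le_of_eq ?_)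
    · intro κ hκ
      by_contra hcon
      push Not at hcon
      obtain ⟨c1, c2⟩ := hcon
      exact hκ fun A => (c2 A).trans (c1 A)
    · rw [List.length_cons]
      push_cast
      ring

/-- two random stars at the same centre agree for all closed sets `A` -/
theorem flat_pair (a : I → Ct D → K → Prop) (dir : K → List D) {n : ℕ} (hlen : ∀ κ, (dir κ).length = n)
    (z : V) {ρ ρ' : ℝ} (hρ : 0 ≤ ρ)
    (hNB : ∀ (S : Finset D) (d : D),
      fr (fun κ => ¬ ∀ A, (a A (z, S) κ ↔ a A (mv (z, S) (Sum.inr d)) κ)) ≤ ρ)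
    (hSW : ∀ S : Finset D, fr (fun p : K × K =>
      ¬ ∀ A, (a A (fl (z, S) (dir p.2)) p.1 ↔ a A (fl (z, S) (dir p.1)) p.2)) ≤ ρ') (S : Finset D) :
    fr (fun p : K × K => ¬ ∀ A, (a A (z, S) p.1 ↔ a A (z, S) p.2)) ≤ 2 * (n * ρ) + ρ' := by
  have h0 : (0 : ℝ) ≤ n * ρ := mul_nonneg (Nat.cast_nonneg _) hρ
  have h1 : fr (fun p : K × K => ¬ ∀ A, (a A (z, S) p.1 ↔ a A (fl (z, S) (dir p.2)) p.1)) ≤ n * ρ := by
    refine fr_of_snd h0 fun κ' => ?_
    have := flat_walk a z hNB (dir κ') S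
    rwa [hlen κ'] at this
  have h2 : fr (fun p : K × K => ¬ ∀ A, (a A (z, S) p.2 ↔ a A (fl (z, S) (dir p.1)) p.2)) ≤ n * ρ := by
    refine fr_of_fst h0 fun κ' => ?_
    have := flat_walk a z hNB (dir κ') S
    rwa [hlen κ'] at this
  refine (fr_le_add3 h1 (hSW S) h2 ?_).trans (by linarith)
  intro p hp
  by_contra hcon
  push Not at hcon
  obtain ⟨c1, c2, c3⟩ := hcon
  exact hp fun A => (c1 A).trans ((c2 A).trans (c3 A).symm)

end Pool.LPH
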