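import Pool.Agent.LP.HWalk

/-!
# LP, part II (heights): the rules for full sites
-/

set_option autoImplicit false

open Finset Pool.LPG Pool.Agent.OIP

namespace Pool.LPH

variable {D K : Type} [DecidableEq D] [Fintype D] [Fintype K] {H : HSys D K} {X : Set V} {n : ℕ} {θ δ ρ : ℝ}
  {Φ : Ct D → K → ℤ} {k : V → Fin 4 → ℤ}

/-- two full neighbours in different axes -/
theorem two_full [Nonempty K] (h : Good H X n θ) (hH : Hts H X δ Φ k) {z : V} (hz : z ∉ X)
    {i i' : Fin 4} {s s' : Bool} (hi : i ≠ i') (h1 : z + uv i s ∉ X) (h2 : z + uv i' s' ∉ X) (j : ℤ)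
    (hf1 : ∀ S, fr (fun κ => Φ (z + uv i s, S) κ < j + 2 * sh k z i s) ≤ ρ)
    (hf2 : ∀ S, fr (fun κ => Φ (z + uv i' s', S) κ < j + 2 * sh k z i' s') ≤ ρ) (S : Finset D) :
    fr (fun κ => Φ (z, S) κ < j) ≤ 2 * ρ + 2 * δ + θ := by
  have b1 := hH.bas (z, S) i s hz h1
  have b2 := hH.bas (z, S) i' s' hz h2
  have hr : fr (fun κ => ¬ H.Rule (z, S) (Sum.inl (i, s)) (Sum.inl (i', s')) κ) ≤ θ :=
    h.rule' hz (show i ≠ i' from hi)
  have e1 := fr_le_add b1 (hf1 S) fun x hx => hx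
  have e2 := fr_le_add b2 (hf2 S) fun x hx => hx
  refine (fr_le_add3 e1 e2 hr ?_).trans (by linarith)
  intro κ hκ
  by_contra hcon
  simp only [not_or, not_not, not_lt] at hcon
  obtain ⟨⟨c1, c2⟩, ⟨c3, c4⟩, c5⟩ := hcon
  refine c5.one ⟨?_, ?_⟩
  · have c1' : Φ (z + uv i s, S) κ = Φ (z, S) κ + H.ψ (z, S) (Sum.inl (i, s)) κ + 2 * sh k z i s := c1
    linarith
  · have c3' : Φ (z + uv i' s', S) κ =
        Φ (z, S) κ + H.ψ (z, S) (Sum.inl (i', s')) κ + 2 * sh k z i' s' := c3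
    linarith

/-- one step next to a full base site: no crossing -/
theorem no_cross_step [Nonempty K] (h : Good H X n θ) (hH : Hts H X δ Φ k) {z : V} (hz : z ∉ X)
    {i : Fin 4} {s : Bool} (h1 : z + uv i s ∉ X) (j : ℤ)
    (hf : ∀ S, fr (fun κ => Φ (z + uv i s, S) κ < j + 2 * sh k z i s) ≤ ρ) (S : Finset D) (d : D) :
    fr (fun κ => Φ (z, S) κ < j ∧ j ≤ Φ (mv (z, S) (Sum.inr d)) κ) ≤ 2 * δ + ρ + θ := by
  have b1 := hH.bas (z, S) i s hz h1
  have b2 := hH.fib (z, S) d hz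
  have hr : fr (fun κ => ¬ H.Rule (z, S) (Sum.inl (i, s)) (Sum.inr d) κ) ≤ θ := h.rule' hz trivial
  refine (fr_le_add4 b1 b2 (hf S) hr ?_).trans (by linarith)
  rintro κ ⟨hκ1, hκ2⟩
  by_contra hcon
  simp only [not_or, not_not, not_lt] at hcon
  obtain ⟨c1, c2, c3, c4⟩ := hcon
  refine c4.one ⟨?_, ?_⟩
  · have c1' : Φ (z + uv i s, S) κ = Φ (z, S) κ + H.ψ (z, S) (Sum.inl (i, s)) κ + 2 * sh k z i s := c1
    linarith
  · linarith

/-- a walk next to a full base site: no crossing -/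
theorem no_cross_path [Nonempty K] (h : Good H X n θ) (hH : Hts H X δ Φ k) {z : V} (hz : z ∉ X)
    {i : Fin 4} {s : Bool} (h1 : z + uv i s ∉ X) (j : ℤ)
    (hf : ∀ S, fr (fun κ => Φ (z + uv i s, S) κ < j + 2 * sh k z i s) ≤ ρ) (O : Ct D) (hO : O.1 = z)
    (κ' : K) :
    fr (fun κ => Φ O κ < j ∧ j ≤ Φ (fl O (H.dir κ')) κ) ≤ n * (2 * δ + ρ + θ) := by
  refine le_trans (fr_mono ?_) (fr_exists (n := n) (c := 2 * δ + ρ + θ)
    (P := fun m κ => ∃ hm : m < (H.dir κ').length, Φ (fl O ((H.dir κ').take m)) κ < j ∧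
      j ≤ Φ (mv (fl O ((H.dir κ').take m)) (Sum.inr (H.dir κ')[m])) κ) ?_)
  · rintro κ ⟨hκ1, hκ2⟩
    obtain ⟨m, hm, c1, c2, _⟩ := exists_cross (fun C => Φ C κ) (fun _ _ => 0) O (H.dir κ') j hκ1 hκ2
    exact ⟨m, h.len κ' ▸ hm, hm, c1, c2⟩
  · intro m hm
    have hm' : m < (H.dir κ').length := by rw [h.len κ']; exact hm
    have hfst : (fl O ((H.dir κ').take m)).1 = z := by rw [fl_fst, hO]
    have heq : fl O ((H.dir κ').take m) = (z, (fl O ((H.dir κ').take m)).2) := by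
      rw [← hfst]
    have key := no_cross_step h hH hz h1 j hf (fl O ((H.dir κ').take m)).2 (H.dir κ')[m]
    rw [← heq] at key
    refine le_trans (fr_mono ?_) key
    rintro κ ⟨_, hκ⟩
    exact hκ

theorem no_cross_walk [Nonempty K] (h : Good H X n θ) (hH : Hts H X δ Φ k) {z : V} (hz : z ∉ X)
    {i : Fin 4} {s : Bool} (h1 : z + uv i s ∉ X) (j : ℤ)
    (hf : ∀ S, fr (fun κ => Φ (z + uv i s, S) κ < j + 2 * sh k z i s) ≤ ρ) (S : Finset D) (κ' : K) :
    fr (fun κ => Φ (z, S) κ < j ∧ j ≤ Φ (fl (z, S) (H.dir κ')) κ) ≤ n * (2 * δ + ρ + θ) :=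
  no_cross_path h hH hz h1 j hf (z, S) rfl κ'

/-- 0-1 law at one centre: pairs -/
theorem pair_law [Nonempty K] (h : Good H X n θ) (hH : Hts H X δ Φ k) {z : V} (hz : z ∉ X)
    {i : Fin 4} {s : Bool} (h1 : z + uv i s ∉ X) (j : ℤ)
    (hf : ∀ S, fr (fun κ => Φ (z + uv i s, S) κ < j + 2 * sh k z i s) ≤ ρ) (S : Finset D) :
    fr (fun p : K × K => Φ (z, S) p.1 < j ∧ j ≤ Φ (z, S) p.2) ≤ 2 * (n * (2 * δ + ρ + θ)) + δ := by
  obtain ⟨κ₁⟩ := (inferInstance : Nonempty K)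
  have hnn : 0 ≤ (n : ℝ) * (2 * δ + ρ + θ) :=
    (fr_nonneg _).trans (no_cross_walk h hH hz h1 j hf S κ₁)
  have e1 : fr (fun p : K × K => Φ (z, S) p.1 < j ∧ j ≤ Φ (fl (z, S) (H.dir p.2)) p.1) ≤
      n * (2 * δ + ρ + θ) :=
    fr_of_snd hnn fun κ' => no_cross_walk h hH hz h1 j hf S κ'
  have e2 := hH.swp (z, S) hz
  have e3 : fr (fun p : K × K => Φ (fl (z, S) (H.dir p.1)) p.2 < j ∧
      j ≤ Φ (fl (fl (z, S) (H.dir p.1)) (H.dir p.1)) p.2) ≤ n * (2 * δ + ρ + θ) :=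
    fr_of_fst hnn fun κ => no_cross_path h hH hz h1 j hf (fl (z, S) (H.dir κ)) (fl_fst _ _) κ
  refine (fr_le_add3 e1 e2 e3 ?_).trans (by linarith)
  rintro ⟨κ, κ'⟩ ⟨hκ1, hκ2⟩
  simp only at hκ1 hκ2 ⊢
  by_contra hcon
  simp only [not_or, not_and, not_not, not_le] at hcon
  obtain ⟨c1, c2, c3⟩ := hcon
  have d1 := c1 hκ1
  rw [c2] at d1
  have d2 := c3 d1
  rw [fl_fl_self] at d2
  linarith

/-- 0-1 law -/
theorem zero_one [Nonempty K] (h : Good H X n θ) (hH : Hts H X δ Φ k) {z : V} (hz : z ∉ X)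
    {i : Fin 4} {s : Bool} (h1 : z + uv i s ∉ X) (j : ℤ)
    (hf : ∀ S, fr (fun κ => Φ (z + uv i s, S) κ < j + 2 * sh k z i s) ≤ ρ)
    (hsmall : 2 * (n * (2 * δ + ρ + θ)) + δ ≤ 1 / 64) :
    (∀ S, fr (fun κ => Φ (z, S) κ < j) ≤ 2 * (2 * (n * (2 * δ + ρ + θ)) + δ)) ∨
    (∀ S, 1 - 2 * (2 * (n * (2 * δ + ρ + θ)) + δ) ≤ fr (fun κ => Φ (z, S) κ < j)) := by
  set c : ℝ := 2 * (n * (2 * δ + ρ + θ)) + δ with hc
  set β : Finset D → ℝ := fun S => fr (fun κ => Φ (z, S) κ < j) with hβ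
  have hδ : 0 ≤ δ := (fr_nonneg _).trans (hH.swp (z, ∅) hz)
  -- each centre
  have hdich : ∀ S, β S ≤ 2 * c ∨ 1 - 2 * c ≤ β S := by
    intro S
    have h2 := pair_law h hH hz h1 j hf S
    have h3 : fr (fun p : K × K => Φ (z, S) p.1 < j ∧ j ≤ Φ (z, S) p.2) = β S * (1 - β S) := by
      rw [fr_prod]
      have h4 : (fun κ : K => fr (fun κ' : K => Φ (z, S) κ < j ∧ j ≤ Φ (z, S) κ')) =
          fun κ => (1 - β S) * ind (Φ (z, S) κ < j) := by
        funext κ
        by_cases hκ : Φ (z, S) κ < j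
        · have h5 : fr (fun κ' : K => Φ (z, S) κ < j ∧ j ≤ Φ (z, S) κ') =
              fr (fun κ' : K => ¬ Φ (z, S) κ' < j) := fr_congr fun κ' => by
            simp [hκ]
          rw [h5, fr_not]
          simp [ind, hκ, hβ]
        · have h5 : fr (fun κ' : K => Φ (z, S) κ < j ∧ j ≤ Φ (z, S) κ') =
              fr (fun _ : K => False) := fr_congr fun κ' => by
            simp [hκ]
          rw [h5]
          simp [ind, hκ, fr, avg]
      simp only at h4 ⊢
      rw [h4, avg_const_mul]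
      show (1 - β S) * β S = _
      ring
    rw [h3] at h2
    have h6 : β S ≤ 1 := fr_le_one _
    have h7 : 0 ≤ β S := fr_nonneg _
    by_cases h8 : β S ≤ 1 / 2
    · left
      nlinarith
    · right
      push Not at h8
      nlinarith
  -- steps
  have hstep : ∀ S d, β S ≤ β (symmDiff S {d}) + (2 * δ + ρ + θ) := by
    intro S d
    have h2 := no_cross_step h hH hz h1 j hf S d
    have h3 : fr (fun κ => Φ (z, symmDiff S {d}) κ < j) ≤ β (symmDiff S {d}) := le_refl _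
    refine (fr_le_add h3 h2 ?_)
    intro κ hκ
    by_cases h4 : Φ (z, symmDiff S {d}) κ < j
    · exact Or.inl h4
    · right
      push Not at h4
      exact ⟨hκ, h4⟩
  have hn1 : (1 : ℝ) ≤ n := by exact_mod_cast h.n1
  have hmono : ∀ S d, β (symmDiff S {d}) ≤ 2 * c → β S ≤ 2 * c := by
    intro S d hS
    have h2 := hstep S d
    have h3 : 0 ≤ 2 * δ + ρ + θ := (fr_nonneg _).trans (no_cross_step h hH hz h1 j hf S d)
    have h4 : 2 * (2 * δ + ρ + θ) ≤ c := by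
      have : (2 * δ + ρ + θ) ≤ n * (2 * δ + ρ + θ) := by nlinarith
      linarith
    rcases hdich S with h5 | h5
    · exact h5
    · linarith
  have hmono' : ∀ S d, β S ≤ 2 * c → β (symmDiff S {d}) ≤ 2 * c := by
    intro S d hS
    refine hmono (symmDiff S {d}) d ?_
    rw [symmDiff_symmDiff_cancel_right]
    exact hS
  have hins : ∀ (S : Finset D) (d : D), d ∉ S → symmDiff S {d} = insert d S := by
    intro S d hd
    ext y
    simp only [Finset.mem_symmDiff, Finset.mem_singleton, Finset.mem_insert]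
    by_cases hy : y = d
    · subst hy
      simp [hd]
    · simp [hy]
  by_cases h0 : β ∅ ≤ 2 * c
  · left
    intro S
    show β S ≤ 2 * c
    induction S using Finset.induction_on with
    | empty => exact h0
    | insert d S hd ih =>
      rw [← hins S d hd]
      exact hmono' S d ih
  · right
    intro S
    show 1 - 2 * c ≤ β S
    have hS : ¬ β S ≤ 2 * c := by
      induction S using Finset.induction_on with
      | empty => exact h0
      | insert d S hd ih =>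
        intro hcon
        refine ih (hmono S d ?_)
        rw [hins S d hd]
        exact hcon
    exact (hdich S).resolve_left hS

end Pool.LPH
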