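import Pool.Agent.LP.HT

/-!
# LP, part II (heights): local potentials

From `hCyc` choose `κ₀` with `t κ₀ κ + t κ κ' + t κ' κ₀ = 0` for most pairs, `Φ κ = t κ₀ κ` (corrected by the
typical parity of `Φ κ - A κ`).
-/

set_option autoImplicit false

open Finset Pool.LPG Pool.Agent.OIP

namespace Pool.LPH

variable {D K : Type} [DecidableEq D] [Fintype D] [Fintype K] {H : HSys D K} {X : Set V} {n : ℕ} {θ : ℝ}

/-- local potential at the centre `O` -/
structure Pt (H : HSys D K) (n : ℕ) (θ : ℝ) (O : Ct D) (Φ : K → ℤ) : Prop where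
  pot : fr (fun p : K × K => Φ p.2 - Φ p.1 ≠ H.t O p.1 p.2) ≤ 6 * (n ^ 2 * θ)
  par : fr (fun κ => ¬ (2 ∣ Φ κ - H.A O κ)) ≤ 7 * (n ^ 2 * θ)
  zero : (∀ S κ, H.a (O.1, S) κ = false) → ∀ κ, Φ κ = 0

/-- parity of one step -/
theorem Good.step_parity (h : Good H X n θ) (O : Ct D) (x : Stp D) (κ : K) :
    (2 : ℤ) ∣ H.ψ O x κ - (H.A (mv O x) κ - H.A O κ) := by
  obtain ⟨h1, h2⟩ := h.bd O x κ
  have h3 := h.zero O x κ
  unfold HSys.A
  by_cases hψ : H.ψ O x κ = 0
  · rw [hψ, h3.1 hψ]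
    simp
  · have h4 : H.ψ O x κ = 1 ∨ H.ψ O x κ = -1 := by omega
    have h5 : ¬ H.a O κ = H.a (mv O x) κ := fun h' => hψ (h3.2 h')
    cases h6 : H.a O κ <;> cases h7 : H.a (mv O x) κ <;> simp_all <;> rcases h4 with h4 | h4 <;>
      rw [h4] <;> norm_num

/-- parity of a path -/
theorem Good.path_parity (h : Good H X n θ) (O : Ct D) (l : List D) (κ : K) :
    (2 : ℤ) ∣ pth (H.f κ) O l - (H.A (fl O l) κ - H.A O κ) := by
  induction l generalizing O with
  | nil => simp [pth, fl]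
  | cons d l ih =>
    have h1 := h.step_parity O (Sum.inr d) κ
    have h2 := ih (mv O (Sum.inr d))
    rw [pth, fl_cons]
    have h3 : H.f κ O (Sum.inr d) = H.ψ O (Sum.inr d) κ := rfl
    rw [h3]
    omega

/-- if `a` vanishes over the base point, all path sums vanish -/
theorem Good.path_zero (h : Good H X n θ) (O : Ct D) (l : List D) (κ : K)
    (hz : ∀ S κ, H.a (O.1, S) κ = false) : pth (H.f κ) O l = 0 := by
  induction l generalizing O with
  | nil => rfl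
  | cons d l ih =>
    rw [pth, ih (mv O (Sum.inr d)) hz]
    have h1 : H.ψ O (Sum.inr d) κ = 0 := by
      rw [h.zero]
      rw [show O = (O.1, O.2) from rfl, hz]
      exact (hz _ κ).symm
    show H.ψ O (Sum.inr d) κ + 0 = 0
    rw [h1, add_zero]

theorem Good.npow (h : Good H X n θ) : (n : ℝ) * θ ≤ n ^ 2 * θ ∧ θ ≤ n ^ 2 * θ ∧ 0 ≤ n ^ 2 * θ := by
  have h1 : (1 : ℝ) ≤ n := by exact_mod_cast h.n1
  have h0 := h.nn
  refine ⟨?_, ?_, by positivity⟩
  · nlinarith [mul_nonneg (sub_nonneg.2 h1) h0]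
  · nlinarith [mul_nonneg (sub_nonneg.2 h1) h0, mul_nonneg (mul_nonneg (sub_nonneg.2 h1) h0) (by linarith : (0 : ℝ) ≤ n)]

theorem exists_Pt [Nonempty K] (h : Good H X n θ) {O : Ct D} (hO : O.1 ∉ X) : ∃ Φ, Pt H n θ O Φ := by
  obtain ⟨hn1, hn2, hn3⟩ := h.npow
  obtain ⟨κ₀, hκ₀⟩ := fr_good_fst (hCyc h hO)
  simp only at hκ₀
  have hcy : (3 * (n * θ) + 3 * (n * (n * θ)) : ℝ) ≤ 6 * (n ^ 2 * θ) := by nlinarith
  have hpot : fr (fun p : K × K => H.t O κ₀ p.2 - H.t O κ₀ p.1 ≠ H.t O p.1 p.2) ≤ 6 * (n ^ 2 * θ) := by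
    refine (fr_mono ?_).trans (hκ₀.trans hcy)
    intro p hp hcon
    refine hp ?_
    have := t_antisymm H O κ₀ p.2
    linarith
  -- parity
  set g : K → ℤ := fun κ => (H.t O κ₀ κ - H.A O κ) % 2 with hg
  have hpar : fr (fun p : K × K => g p.1 ≠ g p.2) ≤ 7 * (n ^ 2 * θ) := by
    have h1 := fr_le_add hpot (h.swapA' hO) (P := fun p : K × K => g p.1 ≠ g p.2) ?_
    · linarith
    · intro p hp
      by_contra hcon
      push Not at hcon
      obtain ⟨c1, c2⟩ := hcon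
      refine hp ?_
      have p1 := h.path_parity O (H.dir p.2) p.1
      have p2 := h.path_parity O (H.dir p.1) p.2
      have c3 : H.A (fl O (H.dir p.2)) p.1 = H.A (fl O (H.dir p.1)) p.2 := by
        unfold HSys.A
        rw [c2]
      have c4 : H.t O p.1 p.2 = pth (H.f p.1) O (H.dir p.2) - pth (H.f p.2) O (H.dir p.1) := rfl
      simp only [hg]
      omega
  obtain ⟨κ₁, hκ₁⟩ := fr_modal g hpar
  refine ⟨fun κ => H.t O κ₀ κ - g κ₁, ⟨?_, ?_, ?_⟩⟩
  · refine (fr_mono ?_).trans hpot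
    intro p hp hcon
    refine hp ?_
    linarith
  · refine (fr_mono ?_).trans hκ₁
    intro κ hκ hcon
    refine hκ ?_
    rw [← hcon]
    simp only [hg]
    omega
  · intro hz κ
    have ht : ∀ κ, H.t O κ₀ κ = 0 := by
      intro κ
      unfold HSys.t
      rw [h.path_zero O _ _ hz, h.path_zero O _ _ hz, sub_zero]
    have hA : H.A O κ₁ = 0 := by
      unfold HSys.A
      rw [show O = (O.1, O.2) from rfl, hz]
      simp
    show H.t O κ₀ κ - (H.t O κ₀ κ₁ - H.A O κ₁) % 2 = 0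
    rw [ht, ht, hA]
    simp

end Pool.LPH
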