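import Pool.Agent.LP.HPot

/-!
# LP, part II (heights): the integer cochain on all centres
-/

set_option autoImplicit false

open Finset Pool.LPG Pool.Agent.OIP

namespace Pool.LPH

variable {D K : Type} [DecidableEq D] [Fintype D] [Fintype K] {H : HSys D K} {X : Set V} {n : ℕ} {θ : ℝ}

/-- `t` at neighbouring centres: `Good.strip1'` for both stars and the swap relation -/
theorem hT3 (h : Good H X n θ) {O : Ct D} (hO : O.1 ∉ X) (x : Stp D) :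
    fr (fun p : K × K => H.t (mv O x) p.1 p.2 - H.t O p.1 p.2 ≠ H.ψ O x p.2 - H.ψ O x p.1) ≤
      3 * (n ^ 2 * θ) := by
  obtain ⟨hn1, hn2, hn3⟩ := h.npow
  have h0 : (0 : ℝ) ≤ n * θ := mul_nonneg (Nat.cast_nonneg _) h.nn
  have h1 : fr (fun p : K × K => H.ψ O x p.1 + pth (H.f p.1) (mv O x) (H.dir p.2) ≠
      pth (H.f p.1) O (H.dir p.2) + H.ψ (fl O (H.dir p.2)) x p.1) ≤ n * θ :=
    fr_of_snd h0 fun κ' => h.strip1' hO x κ'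
  have h2 : fr (fun p : K × K => H.ψ O x p.2 + pth (H.f p.2) (mv O x) (H.dir p.1) ≠
      pth (H.f p.2) O (H.dir p.1) + H.ψ (fl O (H.dir p.1)) x p.2) ≤ n * θ :=
    fr_of_fst h0 fun κ' => h.strip1' hO x κ'
  refine (fr_le_add3 h1 h2 (h.swapP' hO x) ?_).trans (by linarith)
  intro p hp
  by_contra hcon
  push Not at hcon
  obtain ⟨c1, c2, c3⟩ := hcon
  refine hp ?_
  unfold HSys.t
  linarith

theorem exists_step' [Nonempty K] (h : Good H X n θ) {O : Ct D} (hO : O.1 ∉ X) (x : Stp D) {Φ Φ' : K → ℤ}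
    (hΦ : Pt H n θ O Φ) (hΦ' : Pt H n θ (mv O x) Φ') :
    ∃ c : ℤ, fr (fun κ => Φ' κ ≠ Φ κ + H.ψ O x κ + c) ≤ 15 * (n ^ 2 * θ) := by
  have h1 := fr_le_add3 (hT3 h hO x) hΦ.pot hΦ'.pot
    (P := fun p : K × K => Φ' p.1 - Φ p.1 - H.ψ O x p.1 ≠ Φ' p.2 - Φ p.2 - H.ψ O x p.2) (by
    intro p hp
    by_contra hcon
    push Not at hcon
    obtain ⟨c1, c2, c3⟩ := hcon
    refine hp ?_
    linarith)
  obtain ⟨κ₀, hκ₀⟩ := fr_modal (fun κ => Φ' κ - Φ κ - H.ψ O x κ) (h1.trans (by linarith))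
    (c := 15 * (n ^ 2 * θ))
  refine ⟨Φ' κ₀ - Φ κ₀ - H.ψ O x κ₀, (fr_mono ?_).trans hκ₀⟩
  intro κ hκ hcon
  refine hκ ?_
  linarith

theorem exists_step [Nonempty K] (h : Good H X n θ) {O : Ct D} (hO : O.1 ∉ X) (x : Stp D) {Φ Φ' : K → ℤ}
    (hΦ : Pt H n θ O Φ) (hΦ' : Pt H n θ (mv O x) Φ') (hθ : 100 * (n ^ 2 * θ) < 1) :
    ∃ c : ℤ, fr (fun κ => Φ' κ ≠ Φ κ + H.ψ O x κ + 2 * c) ≤ 15 * (n ^ 2 * θ) := by
  obtain ⟨c, hc⟩ := exists_step' h hO x hΦ hΦ'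
  have h1 := fr_le_add3 hc hΦ.par hΦ'.par (P := fun κ => (Φ' κ ≠ Φ κ + H.ψ O x κ + c) ∨
    (¬ (2 ∣ Φ κ - H.A O κ)) ∨ (¬ (2 ∣ Φ' κ - H.A (mv O x) κ))) fun κ hκ => hκ
  obtain ⟨hn1, hn2, hn3⟩ := h.npow
  obtain ⟨κ, hκ⟩ := exists_of_fr_lt_one (lt_of_le_of_lt h1 (by linarith))
  push Not at hκ
  obtain ⟨c1, c2, c3⟩ := hκ
  have c4 := h.step_parity O x κ
  have h2 : (2 : ℤ) ∣ c := by omega
  obtain ⟨c', rfl⟩ := h2
  exact ⟨c', hc⟩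

/-- the cochain on all centres: even, antisymmetric, closed -/
theorem exists_kk [Nonempty K] (h : Good H X n θ) (hθ : 100 * (n ^ 2 * θ) < 1) :
    ∃ (Φ : Ct D → K → ℤ) (c : Ct D → Stp D → ℤ),
      (∀ O, O.1 ∉ X → Pt H n θ O (Φ O)) ∧
      (∀ O x, O.1 ∉ X → (mv O x).1 ∉ X →
        fr (fun κ => Φ (mv O x) κ ≠ Φ O κ + H.ψ O x κ + 2 * c O x) ≤ 15 * (n ^ 2 * θ)) ∧
      (∀ O x, O.1 ∉ X → (mv O x).1 ∉ X → c (mv O x) (opp x) = - c O x) ∧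
      (∀ O x y, Ax x y → O.1 ∉ X → (mv O x).1 ∉ X → (mv O y).1 ∉ X → (mv (mv O x) y).1 ∉ X →
        Sq c O x y) ∧
      (∀ O x, O.1 ∉ X → (mv O x).1 ∉ X → (∀ S κ, H.a (O.1, S) κ = false) →
        (∀ S κ, H.a ((mv O x).1, S) κ = false) → c O x = 0) := by
  obtain ⟨hn1, hn2, hn3⟩ := h.npow
  have hex : ∀ O : Ct D, ∃ Φ : K → ℤ, O.1 ∉ X → Pt H n θ O Φ := by
    intro O
    by_cases hO : O.1 ∉ X
    · obtain ⟨Φ, hΦ⟩ := exists_Pt h hO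
      exact ⟨Φ, fun _ => hΦ⟩
    · exact ⟨0, fun h' => absurd h' hO⟩
  choose Φ hΦ using hex
  have hex2 : ∀ (O : Ct D) (x : Stp D), ∃ c : ℤ, O.1 ∉ X → (mv O x).1 ∉ X →
      fr (fun κ => Φ (mv O x) κ ≠ Φ O κ + H.ψ O x κ + 2 * c) ≤ 15 * (n ^ 2 * θ) := by
    intro O x
    by_cases hO : O.1 ∉ X ∧ (mv O x).1 ∉ X
    · obtain ⟨c, hc⟩ := exists_step h hO.1 x (hΦ O hO.1) (hΦ _ hO.2) hθ
      exact ⟨c, fun _ _ => hc⟩
    · exact ⟨0, fun h1 h2 => absurd ⟨h1, h2⟩ hO⟩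
  choose c hc using hex2
  refine ⟨Φ, c, hΦ, hc, ?_, ?_, ?_⟩
  · intro O x hO hO'
    obtain ⟨y, hy⟩ := exists_ax x
    have b1 := hc O x hO hO'
    have b2 := hc (mv O x) (opp x) hO' (by rw [mv_opp]; exact hO)
    have b3 := h.rule' hO hy
    have h1 := fr_le_add3 b1 b2 b3 fun κ hκ => hκ
    obtain ⟨κ, hκ⟩ := exists_of_fr_lt_one (lt_of_le_of_lt h1 (by linarith))
    push Not at hκ
    obtain ⟨c1, c2, c3⟩ := hκ
    rw [mv_opp] at c2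
    have c4 := c3.anti
    linarith
  · intro O x y hxy hO hx hy hxy'
    have hyx' : (mv (mv O y) x).1 ∉ X := by rw [mv_comm]; exact hxy'
    have b1 := hc O x hO hx
    have b2 := hc (mv O x) y hx hxy'
    have b3 := hc O y hO hy
    have b4 := hc (mv O y) x hy hyx'
    have b5 := h.rule' hO hxy
    have h1 := fr_le_add4 b1 b2 b3 b4 fun κ hκ => hκ
    have h2 := fr_le_add h1 b5 fun κ hκ => hκ
    obtain ⟨κ, hκ⟩ := exists_of_fr_lt_one (lt_of_le_of_lt h2 (by linarith))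
    push Not at hκ
    obtain ⟨⟨c1, c2, c3, c4⟩, c5⟩ := hκ
    have c6 : H.ψ O x κ + H.ψ (mv O x) y κ = H.ψ O y κ + H.ψ (mv O y) x κ := c5.sq
    rw [mv_comm O y x] at c4
    unfold Sq
    linarith
  · intro O x hO hx hz hz'
    have b1 := hc O x hO hx
    obtain ⟨κ, hκ⟩ := exists_of_fr_lt_one (lt_of_le_of_lt b1 (by linarith))
    push Not at hκ
    have e1 := (hΦ O hO).zero hz κ
    have e2 := (hΦ (mv O x) hx).zero hz' κ
    have e3 : H.ψ O x κ = 0 := by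
      rw [h.zero]
      have e4 := hz O.2 κ
      have e5 := hz' (mv O x).2 κ
      exact e4.trans e5.symm
    rw [e1, e2, e3] at hκ
    linarith

end Pool.LPH
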