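import Pool.Agent.LP.HBas
import Pool.Agent.LP.HAvg

/-!
# LP, part II (heights): the cyclic identity
-/

set_option autoImplicit false

open Finset Pool.LPG Pool.Agent.OIP

namespace Pool.LPH

variable {D K : Type} [DecidableEq D] [Fintype D] [Fintype K] {H : HSys D K} {X : Set V} {n : ℕ} {θ : ℝ}

theorem pth_congr (f f' : Ct D → Stp D → ℤ) (O O' : Ct D) (l : List D)
    (h : ∀ i (hi : i < l.length), f (fl O (l.take i)) (Sum.inr l[i]) = f' (fl O' (l.take i)) (Sum.inr l[i])) :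
    pth f O l = pth f' O' l := by
  induction l generalizing O O' with
  | nil => rfl
  | cons d l ih =>
    have h0 := h 0 (by simp)
    simp only [List.take_zero, fl_nil, List.getElem_cons_zero] at h0
    rw [pth, pth, h0, ih (mv O (Sum.inr d)) (mv O' (Sum.inr d)) (fun i hi => by
      have := h (i + 1) (by simpa using hi)
      simpa [fl_cons] using this)]

theorem Good.fl_notMem {O : Ct D} (hO : O.1 ∉ X) (l : List D) : (fl O l).1 ∉ X := by
  rw [fl_fst]
  exact hO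

theorem Good.rule' (h : Good H X n θ) {O : Ct D} {x y : Stp D} (hO : O.1 ∉ X) (hxy : Ax x y) :
    fr (fun κ => ¬ H.Rule O x y κ) ≤ θ := h.rule O x y hO hxy

/-- closedness against a fibre step -/
theorem Good.sqr (h : Good H X n θ) {O : Ct D} (hO : O.1 ∉ X) (x : Stp D) (d : D) :
    fr (fun κ => ¬ Sq (H.f κ) O x (Sum.inr d)) ≤ θ := by
  by_cases hx : x = Sum.inr d
  · subst hx
    refine le_trans (fr_mono (Q := fun _ => False) fun κ hκ => hκ (sq_self _ _ _)) ?_
    unfold fr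
    simpa [avg, ind] using h.nn
  · have hax : Ax x (Sum.inr d) := by
      rcases x with p | d'
      · trivial
      · exact fun h' => hx (by rw [h'])
    exact (fr_mono fun κ hκ hR => hκ hR.sq).trans (h.rule' hO hax)

theorem Good.swapA' (h : Good H X n θ) {O : Ct D} (hO : O.1 ∉ X) :
    fr (fun p : K × K => H.a (fl O (H.dir p.2)) p.1 ≠ H.a (fl O (H.dir p.1)) p.2) ≤ θ := by
  rw [fr_prod]
  exact h.swapA O hO

theorem Good.swapP' (h : Good H X n θ) {O : Ct D} (hO : O.1 ∉ X) (x : Stp D) :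
    fr (fun p : K × K => H.ψ (fl O (H.dir p.2)) x p.1 ≠ H.ψ (fl O (H.dir p.1)) x p.2) ≤ θ := by
  rw [fr_prod]
  exact h.swapP O x hO

/-- closedness of a step against a path -/
theorem Good.strip1' (h : Good H X n θ) {O : Ct D} (hO : O.1 ∉ X) (x : Stp D) (κ' : K) :
    fr (fun κ => H.ψ O x κ + pth (H.f κ) (mv O x) (H.dir κ') ≠
      pth (H.f κ) O (H.dir κ') + H.ψ (fl O (H.dir κ')) x κ) ≤ n * θ := by
  refine le_trans (fr_mono ?_) (fr_exists (n := n) (c := θ)
    (P := fun i κ => ∃ hi : i < (H.dir κ').length,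
      ¬ Sq (H.f κ) (fl O ((H.dir κ').take i)) x (Sum.inr (H.dir κ')[i])) ?_)
  · intro κ hκ
    by_contra hcon
    push Not at hcon
    refine hκ (strip1 (H.f κ) O x (H.dir κ') fun i hi => hcon i (h.len κ' ▸ hi) hi)
  · intro i hi
    have hi' : i < (H.dir κ').length := by rw [h.len κ']; exact hi
    refine le_trans (fr_mono ?_) (h.sqr (Good.fl_notMem hO ((H.dir κ').take i)) x (H.dir κ')[i])
    rintro κ ⟨_, hκ⟩
    exact hκ

theorem hT1 (h : Good H X n θ) {O : Ct D} (hO : O.1 ∉ X) (κ'' : K) :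
    fr (fun p : K × K => pth (H.f p.1) (fl O (H.dir p.2)) (H.dir κ'') ≠
      pth (H.f p.2) (fl O (H.dir p.1)) (H.dir κ'')) ≤ n * θ := by
  refine le_trans (fr_mono ?_) (fr_exists (n := n) (c := θ)
    (P := fun i (p : K × K) => ∃ hi : i < (H.dir κ'').length,
      H.ψ (fl (fl O ((H.dir κ'').take i)) (H.dir p.2)) (Sum.inr (H.dir κ'')[i]) p.1 ≠
      H.ψ (fl (fl O ((H.dir κ'').take i)) (H.dir p.1)) (Sum.inr (H.dir κ'')[i]) p.2) ?_)
  · intro p hp
    by_contra hcon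
    push Not at hcon
    refine hp (pth_congr _ _ _ _ _ fun i hi => ?_)
    have := hcon i (h.len κ'' ▸ hi) hi
    rw [fl_comm, fl_comm O (H.dir p.1)]
    exact this
  · intro i hi
    have hi' : i < (H.dir κ'').length := by rw [h.len κ'']; exact hi
    refine le_trans (fr_mono ?_) (h.swapP' (Good.fl_notMem hO ((H.dir κ'').take i))
      (Sum.inr (H.dir κ'')[i]))
    rintro p ⟨_, hp⟩
    exact hp

theorem hT2 (h : Good H X n θ) {O : Ct D} (hO : O.1 ∉ X) (κ' κ'' : K) :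
    fr (fun κ => ¬ (pth (H.f κ) O (H.dir κ') + pth (H.f κ) (fl O (H.dir κ')) (H.dir κ'') =
      pth (H.f κ) O (H.dir κ'') + pth (H.f κ) (fl O (H.dir κ'')) (H.dir κ'))) ≤ n * (n * θ) := by
  refine le_trans (fr_mono ?_) (fr_exists (n := n) (c := n * θ)
    (P := fun i κ => ∃ j < n, ∃ hi : i < (H.dir κ').length, ∃ hj : j < (H.dir κ'').length,
      ¬ Sq (H.f κ) (fl (fl O ((H.dir κ').take i)) ((H.dir κ'').take j)) (Sum.inr (H.dir κ')[i])
        (Sum.inr (H.dir κ'')[j])) ?_)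
  · intro κ hκ
    by_contra hcon
    push Not at hcon
    refine hκ (strip2 (H.f κ) O (H.dir κ') (H.dir κ'') fun i hi j hj => ?_)
    exact hcon i (h.len κ' ▸ hi) j (h.len κ'' ▸ hj) hi hj
  · intro i hi
    refine fr_exists fun j hj => ?_
    have hi' : i < (H.dir κ').length := by rw [h.len κ']; exact hi
    have hj' : j < (H.dir κ'').length := by rw [h.len κ'']; exact hj
    refine le_trans (fr_mono ?_) (h.sqr (Good.fl_notMem (Good.fl_notMem hO ((H.dir κ').take i))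
      ((H.dir κ'').take j)) (Sum.inr (H.dir κ')[i]) (H.dir κ'')[j])
    rintro κ ⟨_, _, hκ⟩
    exact hκ

theorem t_antisymm (H : HSys D K) (O : Ct D) (κ κ' : K) : H.t O κ' κ = - H.t O κ κ' := by
  unfold HSys.t
  ring

theorem hCyc (h : Good H X n θ) {O : Ct D} (hO : O.1 ∉ X) :
    fr (fun q : K × K × K => H.t O q.1 q.2.1 + H.t O q.2.1 q.2.2 + H.t O q.2.2 q.1 ≠ 0) ≤
      3 * (n * θ) + 3 * (n * (n * θ)) := by
  have h0 : (0 : ℝ) ≤ n * θ := mul_nonneg (Nat.cast_nonneg _) h.nn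
  have h00 : (0 : ℝ) ≤ n * (n * θ) := mul_nonneg (Nat.cast_nonneg _) h0
  obtain ⟨a1, a2, a3⟩ := fr3_pair (B := fun κ κ' κ'' => pth (H.f κ) (fl O (H.dir κ')) (H.dir κ'') ≠
    pth (H.f κ') (fl O (H.dir κ)) (H.dir κ'')) h0 (hT1 h hO)
  obtain ⟨b1, b2, b3⟩ := fr3_one (B := fun κ κ' κ'' => ¬ (pth (H.f κ) O (H.dir κ') +
    pth (H.f κ) (fl O (H.dir κ')) (H.dir κ'') =
      pth (H.f κ) O (H.dir κ'') + pth (H.f κ) (fl O (H.dir κ'')) (H.dir κ'))) h00 (hT2 h hO)
  have h1 := fr_le_add3 a1 a2 a3 fun x hx => hx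
  have h2 := fr_le_add3 b1 b2 b3 fun x hx => hx
  have h3 := fr_le_add h1 h2 fun x hx => hx
  refine (fr_mono ?_).trans (h3.trans (by linarith))
  rintro ⟨x, y, z⟩ hq
  by_contra hcon
  push Not at hcon
  simp only at hcon hq
  obtain ⟨⟨c1, c2, c3⟩, d1, d2, d3⟩ := hcon
  refine hq ?_
  unfold HSys.t
  linarith

end Pool.LPH
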