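import Pool.Agent.LP.HAvg

/-!
# LP, part II (heights): uniformity of the next direction of a random star
-/

set_option autoImplicit false

open Finset Pool.LPG Pool.Agent.OIP

namespace Pool.LPH

/-- list of the directions of the star `σ` -/
def pdir {D : Type} {n : ℕ} (ι : Fin n → D) (σ : Equiv.Perm D) : List D := List.ofFn (σ ∘ ι)

theorem pdir_length {D : Type} {n : ℕ} (ι : Fin n → D) (σ : Equiv.Perm D) : (pdir ι σ).length = n := by
  simp [pdir]

theorem pdir_take_succ {D : Type} {n : ℕ} (ι : Fin n → D) (σ : Equiv.Perm D) (i : ℕ) (hi : i < n) :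
    (pdir ι σ).take (i + 1) = (pdir ι σ).take i ++ [σ (ι ⟨i, hi⟩)] := by
  have h : i < (pdir ι σ).length := by rw [pdir_length]; exact hi
  rw [List.take_succ_eq_append_getElem h]
  simp [pdir]

theorem pdir_take_congr {D : Type} {n : ℕ} (ι : Fin n → D) (σ τ : Equiv.Perm D) (i : ℕ)
    (h : ∀ j : Fin n, (j : ℕ) < i → σ (ι j) = τ (ι j)) : (pdir ι σ).take i = (pdir ι τ).take i := by
  refine List.ext_getElem (by simp [pdir]) fun j h1 h2 => ?_
  rw [List.length_take, pdir_length] at h1
  simp only [List.getElem_take, pdir, List.getElem_ofFn, Function.comp]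
  exact h _ (by simp only; omega)

theorem perm_unif {D : Type} [Fintype D] [DecidableEq D] {n : ℕ} (ι : Fin n → D)
    (hι : Function.Injective ι) (hN : 2 * n ≤ Fintype.card D) (i : ℕ) (hi : i < n) (g : List D → ℝ)
    (hg : ∀ l, 0 ≤ g l) :
    avg (fun σ : Equiv.Perm D => g ((pdir ι σ).take (i + 1))) ≤
      2 * avg (fun σ : Equiv.Perm D => avg (fun d : D => g ((pdir ι σ).take i ++ [d]))) := by
  classical
  set N : ℝ := (Fintype.card D : ℝ) with hNdef
  have hNpos : 0 < N := by
    have : 0 < Fintype.card D := by omega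
    rw [hNdef]
    exact_mod_cast this
  set P : Finset D := (Finset.univ.filter (fun j : Fin n => (j : ℕ) < i)).image ι with hP
  have hPc : P.card ≤ i := by
    refine Finset.card_image_le.trans ?_
    have : (Finset.univ.filter (fun j : Fin n => (j : ℕ) < i)) ⊆
        (Finset.univ : Finset (Fin i)).image (fun j : Fin i => (⟨(j : ℕ), j.2.trans hi⟩ : Fin n)) := by
      intro j hj
      rw [Finset.mem_filter] at hj
      exact Finset.mem_image.2 ⟨⟨(j : ℕ), hj.2⟩, Finset.mem_univ _, rfl⟩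
    refine (Finset.card_le_card this).trans (Finset.card_image_le.trans ?_)
    simp
  set L : ℝ := avg (fun σ : Equiv.Perm D => g ((pdir ι σ).take (i + 1))) with hL
  have hsame : ∀ d₀ : D, d₀ ∉ P →
      L = avg (fun σ : Equiv.Perm D => g ((pdir ι σ).take i ++ [σ d₀])) := by
    intro d₀ hd₀
    have h1 := avg_perm_mul_right (Equiv.swap (ι ⟨i, hi⟩) d₀)
      (fun σ : Equiv.Perm D => g ((pdir ι σ).take (i + 1)))
    rw [hL, ← h1]
    congr 1
    funext σ
    rw [pdir_take_succ ι _ i hi]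
    congr 2
    · refine pdir_take_congr ι _ _ i fun j hj => ?_
      rw [Equiv.Perm.mul_apply, Equiv.swap_apply_of_ne_of_ne]
      · intro h
        have := hι h
        rw [this] at hj
        exact lt_irrefl _ hj
      · intro h
        exact hd₀ (h ▸ Finset.mem_image_of_mem ι (Finset.mem_filter.2 ⟨Finset.mem_univ j, hj⟩))
    · rw [Equiv.Perm.mul_apply, Equiv.swap_apply_left]
  have hsum : ((Pᶜ).card : ℝ) * L ≤ N * avg (fun σ : Equiv.Perm D => avg (fun d : D => g ((pdir ι σ).take i ++ [d]))) := by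
    have e1 : ((Pᶜ).card : ℝ) * L = ∑ d₀ ∈ Pᶜ, avg (fun σ : Equiv.Perm D => g ((pdir ι σ).take i ++ [σ d₀])) := by
      rw [← nsmul_eq_mul, ← Finset.sum_const]
      exact Finset.sum_congr rfl fun d₀ hd₀ => hsame d₀ (Finset.mem_compl.1 hd₀)
    rw [e1]
    have e2 : ∑ d₀ ∈ Pᶜ, avg (fun σ : Equiv.Perm D => g ((pdir ι σ).take i ++ [σ d₀])) ≤
        ∑ d₀, avg (fun σ : Equiv.Perm D => g ((pdir ι σ).take i ++ [σ d₀])) :=
      Finset.sum_le_sum_of_subset_of_nonneg (Finset.subset_univ _)
        (fun _ _ _ => avg_nonneg fun _ => hg _)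
    refine e2.trans (le_of_eq ?_)
    rw [← avg_sum, ← avg_const_mul]
    congr 1
    funext σ
    have e3 : ∑ d₀, g ((pdir ι σ).take i ++ [σ d₀]) = ∑ d, g ((pdir ι σ).take i ++ [d]) :=
      Equiv.sum_comp σ (fun d => g ((pdir ι σ).take i ++ [d]))
    rw [e3]
    unfold avg
    rw [mul_div_cancel₀ _ hNpos.ne']
  have hL0 : 0 ≤ L := avg_nonneg fun _ => hg _
  have hcard : N / 2 ≤ ((Pᶜ).card : ℝ) := by
    have h1 : P.card + (Pᶜ).card = Fintype.card D := Finset.card_add_card_compl P
    have h2 : Fintype.card D ≤ 2 * (Pᶜ).card := by omega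
    have h3 : N ≤ 2 * ((Pᶜ).card : ℝ) := by rw [hNdef]; exact_mod_cast h2
    linarith
  have h1 : N / 2 * L ≤ N * avg (fun σ : Equiv.Perm D => avg (fun d : D => g ((pdir ι σ).take i ++ [d]))) :=
    (mul_le_mul_of_nonneg_right hcard hL0).trans hsum
  have h2 : N * (L / 2) ≤ N * avg (fun σ : Equiv.Perm D => avg (fun d : D => g ((pdir ι σ).take i ++ [d]))) := by
    linarith
  have h3 := le_of_mul_le_mul_left h2 hNpos
  linarith

end Pool.LPH
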