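import Pool.Agent.LP.HT

/-!
# LP, part II (heights): crossings along walks

`Q C κ` = fraction of the directions `d` with `0 < ψ C (flip d) κ`.  By `Rule.one` for two different
directions `avg_κ (Q C κ)² ≤ 1/N + θ`, so `avg_κ Q C κ ≤ √(1/N + θ)`.  `unif` with
`g l = fraction of the κ with 0 < ψ (fl O l.dropLast) (flip (last of l)) κ`.
-/

set_option autoImplicit false

open Finset Pool.LPG Pool.Agent.OIP

namespace Pool.LPH

variable {D K : Type} [DecidableEq D] [Fintype D] [Fintype K] {H : HSys D K} {X : Set V} {n : ℕ} {θ δ : ℝ}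
  {Φ : Ct D → K → ℤ} {k : V → Fin 4 → ℤ}

theorem avg_sq_le {Y : Type} [Fintype Y] (F : Y → ℝ) : (avg F) ^ 2 ≤ avg (fun y => F y ^ 2) := by
  unfold avg
  rcases Nat.eq_zero_or_pos (Fintype.card Y) with h | h
  · simp [h]
  · have hpos : (0 : ℝ) < (Fintype.card Y : ℝ) := by exact_mod_cast h
    have h1 := sq_sum_le_card_mul_sum_sq (s := (Finset.univ : Finset Y)) (f := F)
    rw [Finset.card_univ] at h1
    rw [div_pow, div_le_div_iff₀ (by positivity) hpos]
    nlinarith

theorem fr_sq {Y : Type} [Fintype Y] (P : Y → Prop) : fr P ^ 2 = fr (fun p : Y × Y => P p.1 ∧ P p.2) := by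
  rw [fr_prod]
  unfold fr
  have h : ∀ x : Y, avg (fun y => ind (P x ∧ P y)) = ind (P x) * avg (fun y => ind (P y)) := by
    intro x
    rw [← avg_const_mul]
    congr 1
    funext y
    unfold ind
    by_cases h1 : P x <;> by_cases h2 : P y <;> simp [h1, h2]
  simp only [h]
  have h2 : (fun x => ind (P x) * avg (fun y => ind (P y))) = fun x => avg (fun y => ind (P y)) * ind (P x) := by
    funext x
    ring
  rw [h2, avg_const_mul]
  ring

theorem fr_diag {Y : Type} [Fintype Y] : fr (fun p : Y × Y => p.1 = p.2) ≤ 1 / (Fintype.card Y : ℝ) := by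
  classical
  rw [fr_prod]
  refine avg_le_of_le (by positivity) fun x => ?_
  unfold fr avg
  refine div_le_div_of_nonneg_right ?_ (Nat.cast_nonneg _)
  have : ∑ y, ind (x = y) = ∑ y, if x = y then (1 : ℝ) else 0 := by
    refine Finset.sum_congr rfl fun y _ => ?_
    unfold ind
    by_cases h : x = y <;> simp [h]
  rw [this]
  simp

/-- a star is the lower (pure) end of a crossing for few directions only -/
theorem dir_avg [Nonempty K] (h : Good H X n θ) {O : Ct D} (hO : O.1 ∉ X) :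
    avg (fun κ => fr (fun d : D => 0 < H.ψ O (Sum.inr d) κ)) ≤ Real.sqrt (1 / (Fintype.card D : ℝ) + θ) := by
  refine Real.le_sqrt_of_sq_le ((avg_sq_le _).trans ?_)
  have h1 : (fun κ => (fr (fun d : D => 0 < H.ψ O (Sum.inr d) κ)) ^ 2) =
      fun κ => fr (fun p : D × D => 0 < H.ψ O (Sum.inr p.1) κ ∧ 0 < H.ψ O (Sum.inr p.2) κ) := by
    funext κ
    exact fr_sq _
  rw [h1]
  have h2 : avg (fun κ => fr (fun p : D × D => 0 < H.ψ O (Sum.inr p.1) κ ∧ 0 < H.ψ O (Sum.inr p.2) κ)) =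
      fr (fun q : (D × D) × K => 0 < H.ψ O (Sum.inr q.1.1) q.2 ∧ 0 < H.ψ O (Sum.inr q.1.2) q.2) := by
    rw [fr_prod']
  rw [h2]
  have h3 : fr (fun q : (D × D) × K => q.1.1 = q.1.2) ≤ 1 / (Fintype.card D : ℝ) := by
    rw [fr_fst (fun p : D × D => p.1 = p.2)]
    exact fr_diag
  have h4 : fr (fun q : (D × D) × K => q.1.1 ≠ q.1.2 ∧ 0 < H.ψ O (Sum.inr q.1.1) q.2 ∧
      0 < H.ψ O (Sum.inr q.1.2) q.2) ≤ θ := by
    refine fr_of_fst h.nn fun p => ?_
    by_cases hp : p.1 = p.2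
    · refine (fr_mono (Q := fun _ => False) fun κ hκ => hκ.1 hp).trans ?_
      simpa [fr, avg, ind] using h.nn
    · refine (fr_mono ?_).trans (h.rule' (x := Sum.inr p.1) (y := Sum.inr p.2) hO hp)
      intro κ hκ hR
      exact hR.one hκ.2
  refine fr_le_add h3 h4 fun q hq => ?_
  by_cases hq' : q.1.1 = q.1.2
  · exact Or.inl hq'
  · exact Or.inr ⟨hq', hq⟩

/-- crossings along a random walk -/
theorem walk_psi [Nonempty K] (h : Good H X n θ) {O : Ct D} (hO : O.1 ∉ X) :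
    fr (fun p : K × K => ∃ i < n, ∃ hi : i < (H.dir p.2).length,
      0 < H.ψ (fl O ((H.dir p.2).take i)) (Sum.inr (H.dir p.2)[i]) p.1) ≤
      n * (2 * Real.sqrt (1 / (Fintype.card D : ℝ) + θ)) := by
  refine fr_exists fun i hi => ?_
  set g : List D → ℝ := fun l => match l.getLast? with
    | none => 0
    | some d => fr (fun κ => 0 < H.ψ (fl O l.dropLast) (Sum.inr d) κ) with hg
  have hg0 : ∀ l, 0 ≤ g l := by
    intro l
    simp only [hg]
    split
    · exact le_refl _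
    · exact fr_nonneg _
  have hg1 : ∀ (l : List D) (d : D), g (l ++ [d]) = fr (fun κ => 0 < H.ψ (fl O l) (Sum.inr d) κ) := by
    intro l d
    simp [hg]
  have h1 : fr (fun p : K × K => ∃ hi : i < (H.dir p.2).length,
      0 < H.ψ (fl O ((H.dir p.2).take i)) (Sum.inr (H.dir p.2)[i]) p.1) ≤
      avg (fun κ' => g ((H.dir κ').take (i + 1))) := by
    rw [fr_prod']
    refine avg_mono fun κ' => ?_
    have hi' : i < (H.dir κ').length := by rw [h.len]; exact hi
    rw [List.take_succ_eq_append_getElem hi', hg1]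
    refine fr_mono ?_
    rintro κ ⟨_, hκ⟩
    exact hκ
  refine h1.trans ((h.unif i hi g hg0).trans ?_)
  refine mul_le_mul_of_nonneg_left ?_ (by norm_num)
  refine avg_le_of_le (Real.sqrt_nonneg _) fun κ' => ?_
  have h2 : avg (fun d : D => g ((H.dir κ').take i ++ [d])) =
      avg (fun κ => fr (fun d : D => 0 < H.ψ (fl O ((H.dir κ').take i)) (Sum.inr d) κ)) := by
    simp only [hg1]
    unfold fr
    rw [avg_comm]
  rw [h2]
  exact dir_avg h (Good.fl_notMem hO _)

/-- deterministic: if the height passes the level `j` along a path, there is a crossing or a failure -/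
theorem exists_cross (g : Ct D → ℤ) (f : Ct D → Stp D → ℤ) (O : Ct D) (l : List D) (j : ℤ)
    (h0 : g O < j) (h1 : j ≤ g (fl O l)) :
    ∃ i, ∃ hi : i < l.length, g (fl O (l.take i)) < j ∧ j ≤ g (mv (fl O (l.take i)) (Sum.inr l[i])) ∧
      (g (mv (fl O (l.take i)) (Sum.inr l[i])) ≠ g (fl O (l.take i)) + f (fl O (l.take i)) (Sum.inr l[i]) ∨
        0 < f (fl O (l.take i)) (Sum.inr l[i])) := by
  induction l generalizing O with
  | nil =>
    rw [fl_nil] at h1
    omega
  | cons d l ih =>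
    by_cases h2 : g (mv O (Sum.inr d)) < j
    · obtain ⟨i, hi, h3⟩ := ih (mv O (Sum.inr d)) h2 (by rw [← fl_cons]; exact h1)
      refine ⟨i + 1, by simpa using hi, ?_⟩
      simpa [fl_cons] using h3
    · refine ⟨0, by simp, ?_⟩
      simp only [List.take_zero, fl_nil, List.getElem_cons_zero]
      refine ⟨h0, not_lt.1 h2, ?_⟩
      by_contra hcon
      push Not at hcon
      omega

theorem walk_up [Nonempty K] (h : Good H X n θ) (hH : Hts H X δ Φ k) {O : Ct D} (hO : O.1 ∉ X) (j : ℤ) :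
    fr (fun p : K × K => Φ O p.1 < j ∧ j ≤ Φ (fl O (H.dir p.2)) p.1) ≤
      n * δ + n * (2 * Real.sqrt (1 / (Fintype.card D : ℝ) + θ)) := by
  have hδ : 0 ≤ δ := (fr_nonneg _).trans (hH.par O hO)
  have h1 : fr (fun p : K × K => ∃ i < n, ∃ hi : i < (H.dir p.2).length,
      Φ (mv (fl O ((H.dir p.2).take i)) (Sum.inr (H.dir p.2)[i])) p.1 ≠
        Φ (fl O ((H.dir p.2).take i)) p.1 + H.ψ (fl O ((H.dir p.2).take i)) (Sum.inr (H.dir p.2)[i]) p.1) ≤
      n * δ := by
    refine fr_exists fun i hi => fr_of_snd hδ fun κ' => ?_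
    have hi' : i < (H.dir κ').length := by rw [h.len]; exact hi
    refine (fr_mono ?_).trans (hH.fib (fl O ((H.dir κ').take i)) (H.dir κ')[i] (Good.fl_notMem hO _))
    rintro κ ⟨_, hκ⟩
    exact hκ
  refine fr_le_add h1 (walk_psi h hO) ?_
  rintro ⟨κ, κ'⟩ ⟨h2, h3⟩
  obtain ⟨i, hi, _, _, h4⟩ := exists_cross (fun O => Φ O κ) (H.f κ) O (H.dir κ') j h2 h3
  rcases h4 with h4 | h4
  · exact Or.inl ⟨i, h.len κ' ▸ hi, hi, h4⟩
  · exact Or.inr ⟨i, h.len κ' ▸ hi, hi, h4⟩

/-- self-improvement -/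
theorem self_improve [Nonempty K] (h : Good H X n θ) (hH : Hts H X δ Φ k) {z : V} (hz : z ∉ X) (j : ℤ)
    (hβ : ∀ S, fr (fun κ => Φ (z, S) κ < j) ≤ 1 / 4) (S : Finset D) :
    fr (fun κ => Φ (z, S) κ < j) ≤
      4 / 3 * (n * δ + n * (2 * Real.sqrt (1 / (Fintype.card D : ℝ) + θ)) + δ) := by
  set O : Ct D := (z, S) with hO
  have hOX : O.1 ∉ X := hz
  have h1 : fr (fun p : K × K => Φ O p.1 < j ∧ j ≤ Φ (fl O (H.dir p.1)) p.2) ≤
      n * δ + n * (2 * Real.sqrt (1 / (Fintype.card D : ℝ) + θ)) + δ := by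
    refine fr_le_add (walk_up h hH hOX j) (hH.swp O hOX) ?_
    rintro ⟨κ, κ'⟩ ⟨h2, h3⟩
    by_cases h4 : Φ (fl O (H.dir κ')) κ = Φ (fl O (H.dir κ)) κ'
    · refine Or.inl ⟨h2, ?_⟩
      show j ≤ Φ (fl O (H.dir κ')) κ
      rw [h4]
      exact h3
    · exact Or.inr h4
  have h2 : 3 / 4 * fr (fun κ => Φ O κ < j) ≤
      fr (fun p : K × K => Φ O p.1 < j ∧ j ≤ Φ (fl O (H.dir p.1)) p.2) := by
    rw [fr_prod]
    unfold fr
    rw [← avg_const_mul]
    refine avg_mono fun κ => ?_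
    by_cases hκ : Φ O κ < j
    · have h3 := hβ (fl O (H.dir κ)).2
      have h4 : ((z, (fl O (H.dir κ)).2) : Ct D) = fl O (H.dir κ) := by
        ext1
        · exact (fl_fst O _).symm
        · rfl
      rw [h4] at h3
      have h5 := fr_not (X := K) (fun κ' => Φ (fl O (H.dir κ)) κ' < j)
      have h6 : fr (fun κ' => ¬ Φ (fl O (H.dir κ)) κ' < j) = avg (fun κ' => ind (Φ O κ < j ∧ j ≤ Φ (fl O (H.dir κ)) κ')) := by
        unfold fr
        congr 1
        funext κ'
        unfold ind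
        by_cases h7 : Φ (fl O (H.dir κ)) κ' < j
        · simp [h7, not_le.2 h7]
        · simp [hκ, not_lt.1 h7]
      show 3 / 4 * ind (Φ O κ < j) ≤ avg (fun κ' => ind (Φ O κ < j ∧ j ≤ Φ (fl O (H.dir κ)) κ'))
      rw [← h6, h5]
      have h8 := ind_le_one (Φ O κ < j)
      linarith
    · have h3 : ind (Φ O κ < j) = 0 := if_neg hκ
      rw [h3, mul_zero]
      exact avg_nonneg fun _ => ind_nonneg _
  linarith

end Pool.LPH
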