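import Pool.Agent.LP.LFiber
import Pool.Agent.OIP.Bridge

/-! LP: an open path leaf - hub - .. - hub - leaf connects its leaves through the far region, except with small
probability (port of OIP.FClique) -/

set_option autoImplicit false

open Finset
open scoped Classical

namespace Pool.Agent.LP

open Pool.Agent.OIP

/-- bad event: the path leaf - hub - (hub) - leaf is open but the two leaves are not connected through the
farL region -/
def badL {Λ D : Type} [Fintype D] [DecidableEq D] {n : ℕ} (G : SimpleGraph (Λ × Finset D)) (ι : Fin n → D)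
    (T : Finset D) (i i' : Λ) (j k : Fin n) : Prop :=
  G.Adj (xL ι (hub i)) (xL ι (leaf (i, j))) ∧ Cn G {u | u.2 = vsL ι} (i, vsL ι) (i', vsL ι) ∧
    G.Adj (xL ι (hub i')) (xL ι (leaf (i', k))) ∧
    ¬ Cn G (farL ι T ∪ {xL ι (leaf (i, j)), xL ι (leaf (i', k))}) (xL ι (leaf (i, j))) (xL ι (leaf (i', k)))

/-- positions of the vertices of the auxiliary bipartite graph -/
def lcliquePos {Λ D : Type} [DecidableEq D] (σ : Equiv.Perm D) (R A B : Finset D) (i i' : Λ) :
    (↥A ⊕ ↥B) → Λ × Finset D
  | Sum.inl a => (i, (insert (a : D) R).image σ)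
  | Sum.inr b => (i', (insert (b : D) R).image σ)

/-- the auxiliary bipartite graph -/
def lcliqueH {Λ D : Type} [DecidableEq D] (G : SimpleGraph (Λ × Finset D)) (σ : Equiv.Perm D)
    (R A B : Finset D) (i i' : Λ) (a : ↥A) (b : ↥B) : Prop :=
  G.Adj (i, (insert (a : D) R).image σ) (i, (insert (a : D) (insert (b : D) R)).image σ) ∧
  Cn G {u | u.2 = (insert (a : D) (insert (b : D) R)).image σ} (i, (insert (a : D) (insert (b : D) R)).image σ)
    (i', (insert (a : D) (insert (b : D) R)).image σ) ∧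
  G.Adj (i', (insert (a : D) (insert (b : D) R)).image σ) (i', (insert (b : D) R).image σ)

section

variable {Λ D : Type} [DecidableEq D] {n : ℕ}

theorem lclique_mem1 {ι' : Fin n → D} {T' R A B : Finset D} {σ : Equiv.Perm D} {c d x : D} (i0 : Λ)
    (hv : vsL ι' = (insert c (insert d R)).image σ)
    (hT : ∀ x ∈ A ∪ B, x ≠ c → x ≠ d → σ x ∈ T') (hR : Disjoint (A ∪ B) R) (hn : R.card + 2 = n)
    (hx : x ∈ A ∪ B) (hxc : x ≠ c) (hxd : x ≠ d) :
    ((i0, (insert x R).image σ) : Λ × Finset D) ∈ farL ι' T' := by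
  have hxR : x ∉ R := fun h => Finset.disjoint_left.1 hR hx h
  refine ⟨?_, ⟨σ x, hT x hx hxc hxd, ?_, ?_⟩, ?_⟩
  · show (insert x R).image σ ⊆ vsL ι' ∪ T'
    rw [hv]
    intro y hy
    rw [Finset.mem_image] at hy
    obtain ⟨z, hz, rfl⟩ := hy
    rcases Finset.mem_insert.1 hz with rfl | hz
    · exact Finset.mem_union_right _ (hT _ hx hxc hxd)
    · exact Finset.mem_union_left _ (Finset.mem_image_of_mem _
        (Finset.mem_insert_of_mem (Finset.mem_insert_of_mem hz)))
  · exact Finset.mem_image_of_mem _ (Finset.mem_insert_self _ _)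
  · rw [hv]
    intro h
    rw [Finset.mem_image] at h
    obtain ⟨z, hz, hzx⟩ := h
    have := σ.injective hzx
    subst this
    rcases Finset.mem_insert.1 hz with h | h
    · exact hxc h
    · rcases Finset.mem_insert.1 h with h | h
      · exact hxd h
      · exact hxR h
  · show n ≤ ((insert x R).image σ).card + 1
    rw [Finset.card_image_of_injective _ σ.injective, Finset.card_insert_of_notMem hxR]
    omega

theorem lclique_mem2 {ι' : Fin n → D} {T' R A B : Finset D} {σ : Equiv.Perm D} {c d a b : D} (i0 : Λ)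
    (hv : vsL ι' = (insert c (insert d R)).image σ)
    (hT : ∀ x ∈ A ∪ B, x ≠ c → x ≠ d → σ x ∈ T') (hR : Disjoint (A ∪ B) R) (hn : R.card + 2 = n)
    (hAB : Disjoint A B) (hc : c ∈ A) (hd : d ∈ B)
    (ha : a ∈ A) (hb : b ∈ B) (hab : a ≠ c ∨ b ≠ d) :
    ((i0, (insert a (insert b R)).image σ) : Λ × Finset D) ∈ farL ι' T' := by
  have haR : a ∉ R := fun h => Finset.disjoint_left.1 hR (Finset.mem_union_left _ ha) h
  have hbR : b ∉ R := fun h => Finset.disjoint_left.1 hR (Finset.mem_union_right _ hb) h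
  have habne : a ≠ b := fun h => Finset.disjoint_left.1 hAB ha (h ▸ hb)
  have had : a ≠ d := fun h => Finset.disjoint_left.1 hAB ha (h ▸ hd)
  have hbc : b ≠ c := fun h => Finset.disjoint_left.1 hAB hc (h ▸ hb)
  refine ⟨?_, ?_, ?_⟩
  · show (insert a (insert b R)).image σ ⊆ vsL ι' ∪ T'
    intro y hy
    rw [Finset.mem_image] at hy
    obtain ⟨z, hz, rfl⟩ := hy
    rcases Finset.mem_insert.1 hz with rfl | hz
    · by_cases h : z = c
      · subst h
        refine Finset.mem_union_left _ ?_
        rw [hv]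
        exact Finset.mem_image_of_mem _ (Finset.mem_insert_self _ _)
      · exact Finset.mem_union_right _ (hT _ (Finset.mem_union_left _ ha) h had)
    · rcases Finset.mem_insert.1 hz with rfl | hz
      · by_cases h : z = d
        · subst h
          refine Finset.mem_union_left _ ?_
          rw [hv]
          exact Finset.mem_image_of_mem _ (Finset.mem_insert_of_mem (Finset.mem_insert_self _ _))
        · exact Finset.mem_union_right _ (hT _ (Finset.mem_union_right _ hb) hbc h)
      · refine Finset.mem_union_left _ ?_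
        rw [hv]
        exact Finset.mem_image_of_mem _ (Finset.mem_insert_of_mem (Finset.mem_insert_of_mem hz))
  · rcases hab with h | h
    · refine ⟨σ a, hT _ (Finset.mem_union_left _ ha) h had, ?_, ?_⟩
      · exact Finset.mem_image_of_mem _ (Finset.mem_insert_self _ _)
      · rw [hv]
        intro h'
        rw [Finset.mem_image] at h'
        obtain ⟨z, hz, hzx⟩ := h'
        have := σ.injective hzx
        subst this
        rcases Finset.mem_insert.1 hz with h1 | h1
        · exact h h1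
        · rcases Finset.mem_insert.1 h1 with h1 | h1
          · exact had h1
          · exact haR h1
    · refine ⟨σ b, hT _ (Finset.mem_union_right _ hb) hbc h, ?_, ?_⟩
      · exact Finset.mem_image_of_mem _ (Finset.mem_insert_of_mem (Finset.mem_insert_self _ _))
      · rw [hv]
        intro h'
        rw [Finset.mem_image] at h'
        obtain ⟨z, hz, hzx⟩ := h'
        have := σ.injective hzx
        subst this
        rcases Finset.mem_insert.1 hz with h1 | h1
        · exact hbc h1
        · rcases Finset.mem_insert.1 h1 with h1 | h1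
          · exact h h1
          · exact hbR h1
  · show n ≤ ((insert a (insert b R)).image σ).card + 1
    rw [Finset.card_image_of_injective _ σ.injective, Finset.card_insert_of_notMem, 
      Finset.card_insert_of_notMem hbR]
    · omega
    · intro h
      rcases Finset.mem_insert.1 h with h | h
      · exact habne h
      · exact haR h

theorem lclique_bad [Fintype D] {G : SimpleGraph (Λ × Finset D)} {ι' : Fin n → D} {T' R A B : Finset D}
    {σ : Equiv.Perm D} {c : ↥A} {d : ↥B} {i i' : Λ} {j k : Fin n}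
    (hv : vsL ι' = (insert (c : D) (insert (d : D) R)).image σ) (hj : ι' j = σ d) (hk : ι' k = σ c)
    (hT : ∀ x ∈ A ∪ B, x ≠ c → x ≠ d → σ x ∈ T') (hR : Disjoint (A ∪ B) R) (hn : R.card + 2 = n)
    (hAB : Disjoint A B) (hbad : badL G ι' T' i i' j k) :
    lcliqueH G σ R A B i i' c d ∧
      ¬ Relation.ReflTransGen (bst (lcliqueH G σ R A B i i') (c, d)) (Sum.inl c) (Sum.inr d) := by
  have hcR : (c : D) ∉ R := fun h => Finset.disjoint_left.1 hR (Finset.mem_union_left _ c.2) h
  have hdR : (d : D) ∉ R := fun h => Finset.disjoint_left.1 hR (Finset.mem_union_right _ d.2) h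
  have hcd : (c : D) ≠ d := fun h => Finset.disjoint_left.1 hAB c.2 (h ▸ d.2)
  have e0 : ∀ i0 : Λ, xL ι' (hub i0) = (i0, (insert (c : D) (insert (d : D) R)).image σ) := by
    intro i0
    show ((i0, vsL ι') : Λ × Finset D) = _
    rw [hv]
  have e1 : ∀ i0 : Λ, xL ι' (leaf (i0, j)) = (i0, (insert (c : D) R).image σ) := by
    intro i0
    show ((i0, (vsL ι').erase (ι' j)) : Λ × Finset D) = _
    rw [hv, hj, ← Finset.image_erase σ.injective, Finset.erase_insert_of_ne hcd,
      Finset.erase_insert hdR]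
  have e2 : ∀ i0 : Λ, xL ι' (leaf (i0, k)) = (i0, (insert (d : D) R).image σ) := by
    intro i0
    show ((i0, (vsL ι').erase (ι' k)) : Λ × Finset D) = _
    rw [hv, hk, ← Finset.image_erase σ.injective, Finset.erase_insert]
    intro h
    rcases Finset.mem_insert.1 h with h | h
    · exact hcd h
    · exact hcR h
  obtain ⟨h1, h2, h3, h4⟩ := hbad
  rw [e0, e1] at h1
  rw [hv] at h2
  rw [e0, e2] at h3
  rw [e1, e2] at h4
  refine ⟨⟨h1.symm, h2, h3⟩, fun hpath => h4 ?_⟩
  set Reg : Set (Λ × Finset D) := farL ι' T' ∪ {(i, (insert (c : D) R).image σ), (i', (insert (d : D) R).image σ)}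
    with hReg
  have m1 : ∀ a : ↥A, ((i, (insert (a : D) R).image σ) : Λ × Finset D) ∈ Reg := by
    intro a
    by_cases h : (a : D) = c
    · rw [h]
      exact Or.inr (Or.inl rfl)
    · exact Or.inl (lclique_mem1 i hv hT hR hn (Finset.mem_union_left _ a.2) h
        (fun h' => Finset.disjoint_left.1 hAB a.2 (h' ▸ d.2)))
  have m2 : ∀ b : ↥B, ((i', (insert (b : D) R).image σ) : Λ × Finset D) ∈ Reg := by
    intro b
    by_cases h : (b : D) = d
    · rw [h]
      exact Or.inr (Or.inr rfl)
    · exact Or.inl (lclique_mem1 i' hv hT hR hn (Finset.mem_union_right _ b.2)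
        (fun h' => Finset.disjoint_left.1 hAB c.2 (h' ▸ b.2)) h)
  have m3 : ∀ (i0 : Λ) (a : ↥A) (b : ↥B), (a, b) ≠ (c, d) →
      ((i0, (insert (a : D) (insert (b : D) R)).image σ) : Λ × Finset D) ∈ Reg := by
    intro i0 a b h
    refine Or.inl (lclique_mem2 i0 hv hT hR hn hAB c.2 d.2 a.2 b.2 ?_)
    by_contra hcon
    push Not at hcon
    exact h (Prod.ext (Subtype.ext hcon.1) (Subtype.ext hcon.2))
  have step : ∀ (a : ↥A) (b : ↥B), lcliqueH G σ R A B i i' a b → (a, b) ≠ (c, d) →
      Cn G Reg (i, (insert (a : D) R).image σ) (i', (insert (b : D) R).image σ) := by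
    intro a b hH hne
    obtain ⟨g1, g2, g3⟩ := hH
    have s1 := Cn.of_adj g1 (m1 a) (m3 i a b hne)
    have s3 := Cn.of_adj g3 (m3 i' a b hne) (m2 b)
    refine (s1.trans (g2.mono ?_)).trans s3
    rintro ⟨l, S⟩ hS
    have hS' : S = (insert (a : D) (insert (b : D) R)).image σ := hS
    subst hS'
    exact m3 l a b hne
  have key : ∀ x : ↥A ⊕ ↥B, Relation.ReflTransGen (bst (lcliqueH G σ R A B i i') (c, d)) (Sum.inl c) x →
      Cn G Reg (lcliquePos σ R A B i i' (Sum.inl c)) (lcliquePos σ R A B i i' x) := by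
    intro x hx
    induction hx with
    | refl => exact Cn.refl _ _ _
    | @tail y z _ hyz ih =>
      refine ih.trans ?_
      rcases y with a | b <;> rcases z with a' | b'
      · exact hyz.elim
      · exact step a b' hyz.1 hyz.2
      · exact (step a' b hyz.1 hyz.2).symm
      · exact hyz.elim
  exact key _ hpath

end

theorem lclique_avg {Λ D : Type} [Fintype D] [DecidableEq D] {n : ℕ} (G : SimpleGraph (Λ × Finset D))
    {ι : Fin n → D} (hι : Function.Injective ι) (T : Finset D) (hT : Disjoint T (vsL ι)) (L : ℕ)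
    (hL : 2 * L ≤ T.card) (i i' : Λ) (j k : Fin n) (hjk : j ≠ k) :
    avg (fun σ : Equiv.Perm D => ind (badL G (σ ∘ ι) (T.image σ) i i' j k)) ≤ 2 / ((L : ℝ) + 1) := by
  obtain ⟨A0, hA0T, hA0⟩ := Finset.exists_subset_card_eq (s := T) (n := L) (by omega)
  obtain ⟨B0, hB0T, hB0⟩ := Finset.exists_subset_card_eq (s := T \ A0) (n := L) (by
    rw [Finset.card_sdiff_of_subset hA0T, hA0]
    omega)
  set α : D := ι k with hα
  set β : D := ι j with hβ
  have hαβ : α ≠ β := fun h => hjk (hι h).symm
  have hαv : α ∈ vsL ι := Finset.mem_image_of_mem _ (Finset.mem_univ _)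
  have hβv : β ∈ vsL ι := Finset.mem_image_of_mem _ (Finset.mem_univ _)
  have hTv : ∀ x ∈ T, x ∉ vsL ι := fun x hx => Finset.disjoint_left.1 hT hx
  have hαA : α ∉ A0 := fun h => hTv _ (hA0T h) hαv
  have hβA : β ∉ A0 := fun h => hTv _ (hA0T h) hβv
  have hαB : α ∉ B0 := fun h => hTv _ (Finset.mem_sdiff.1 (hB0T h)).1 hαv
  have hβB : β ∉ B0 := fun h => hTv _ (Finset.mem_sdiff.1 (hB0T h)).1 hβv
  have hAB0 : ∀ x ∈ A0, x ∉ B0 := fun x hx hx' => (Finset.mem_sdiff.1 (hB0T hx')).2 hx
  set A : Finset D := insert α A0 with hA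
  set B : Finset D := insert β B0 with hB
  have hcA : A.card = L + 1 := by rw [hA, Finset.card_insert_of_notMem hαA, hA0]
  have hcB : B.card = L + 1 := by rw [hB, Finset.card_insert_of_notMem hβB, hB0]
  have hAB : Disjoint A B := by
    rw [Finset.disjoint_left]
    intro x hx hx'
    rcases Finset.mem_insert.1 hx with rfl | hx
    · rcases Finset.mem_insert.1 hx' with h | h
      · exact hαβ h
      · exact hαB h
    · rcases Finset.mem_insert.1 hx' with rfl | h
      · exact hβA hx
      · exact hAB0 _ hx h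
  set R : Finset D := ((vsL ι).erase α).erase β with hR
  have hRv : ∀ x ∈ R, x ∈ vsL ι := fun x hx => Finset.mem_of_mem_erase (Finset.mem_of_mem_erase hx)
  have hRα : α ∉ R := fun h => Finset.notMem_erase _ _ (Finset.mem_of_mem_erase h)
  have hRβ : β ∉ R := fun h => Finset.notMem_erase _ _ h
  have hdR : Disjoint (A ∪ B) R := by
    rw [Finset.disjoint_left]
    intro x hx hx'
    rcases Finset.mem_union.1 hx with hx | hx
    · rcases Finset.mem_insert.1 hx with rfl | hx
      · exact hRα hx'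
      · exact hTv _ (hA0T hx) (hRv _ hx')
    · rcases Finset.mem_insert.1 hx with rfl | hx
      · exact hRβ hx'
      · exact hTv _ (Finset.mem_sdiff.1 (hB0T hx)).1 (hRv _ hx')
  have hcv : (vsL ι).card = n := by
    unfold vsL
    rw [Finset.card_image_of_injective _ hι, Finset.card_univ, Fintype.card_fin]
  have hvR : vsL ι = insert α (insert β R) := by
    rw [hR, Finset.insert_erase (Finset.mem_erase.2 ⟨hαβ.symm, hβv⟩), Finset.insert_erase hαv]
  have hn : R.card + 2 = n := by
    rw [← hcv, hvR, Finset.card_insert_of_notMem, Finset.card_insert_of_notMem hRβ]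
    intro h
    rcases Finset.mem_insert.1 h with h | h
    · exact hαβ h
    · exact hRα h
  set π : ↥A × ↥B → Equiv.Perm D := fun e => Equiv.swap α (e.1 : D) * Equiv.swap β (e.2 : D) with hπ
  -- basic values of the permutations
  have hTA : ∀ x ∈ A, x ∈ T ∨ x = α := by
    intro x hx
    rcases Finset.mem_insert.1 hx with rfl | hx
    · exact Or.inr rfl
    · exact Or.inl (hA0T hx)
  have hTB : ∀ x ∈ B, x ∈ T ∨ x = β := by
    intro x hx
    rcases Finset.mem_insert.1 hx with rfl | hx
    · exact Or.inr rfl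
    · exact Or.inl (Finset.mem_sdiff.1 (hB0T hx)).1
  have hne : ∀ (a : ↥A) (b : ↥B), (a : D) ≠ b := fun a b h => Finset.disjoint_left.1 hAB a.2 (h ▸ b.2)
  have hAα : α ∈ A := Finset.mem_insert_self _ _
  have hBβ : β ∈ B := Finset.mem_insert_self _ _
  have pα : ∀ e : ↥A × ↥B, π e α = e.1 := by
    intro e
    show Equiv.swap α (e.1 : D) (Equiv.swap β (e.2 : D) α) = e.1
    rw [Equiv.swap_apply_of_ne_of_ne hαβ (hne ⟨α, hAα⟩ e.2), Equiv.swap_apply_left]
  have pβ : ∀ e : ↥A × ↥B, π e β = e.2 := by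
    intro e
    show Equiv.swap α (e.1 : D) (Equiv.swap β (e.2 : D) β) = e.2
    rw [Equiv.swap_apply_left, Equiv.swap_apply_of_ne_of_ne (hne ⟨α, hAα⟩ e.2).symm (hne e.1 e.2).symm]
  have pR : ∀ (e : ↥A × ↥B), ∀ x ∈ R, π e x = x := by
    intro e x hx
    have h1 : x ≠ α := fun h => hRα (h ▸ hx)
    have h2 : x ≠ β := fun h => hRβ (h ▸ hx)
    have h3 : x ≠ e.1 := fun h => Finset.disjoint_left.1 hdR (Finset.mem_union_left _ e.1.2) (h ▸ hx)
    have h4 : x ≠ e.2 := fun h => Finset.disjoint_left.1 hdR (Finset.mem_union_right _ e.2.2) (h ▸ hx)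
    show Equiv.swap α (e.1 : D) (Equiv.swap β (e.2 : D) x) = x
    rw [Equiv.swap_apply_of_ne_of_ne h2 h4, Equiv.swap_apply_of_ne_of_ne h1 h3]
  have hvs : ∀ (e : ↥A × ↥B) (σ : Equiv.Perm D),
      vsL ((σ * π e : Equiv.Perm D) ∘ ι) = (insert (e.1 : D) (insert (e.2 : D) R)).image σ := by
    intro e σ
    rw [vsL_perm, hvR, Equiv.Perm.coe_mul, ← Finset.image_image]
    congr 1
    rw [Finset.image_insert, Finset.image_insert, pα, pβ]
    congr 2
    ext x
    rw [Finset.mem_image]
    constructor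
    · rintro ⟨y, hy, rfl⟩
      rw [pR e y hy]
      exact hy
    · intro hx
      exact ⟨x, hx, pR e x hx⟩
  have hTm : ∀ (e : ↥A × ↥B) (σ : Equiv.Perm D), ∀ x ∈ A ∪ B, x ≠ e.1 → x ≠ e.2 →
      σ x ∈ T.image (σ * π e : Equiv.Perm D) := by
    intro e σ x hx h1 h2
    rw [Finset.mem_image]
    have hmove : ∀ y, y ∈ T → π e y = x → ∃ a ∈ T, (σ * π e : Equiv.Perm D) a = σ x := by
      intro y hy hyx
      exact ⟨y, hy, by rw [Equiv.Perm.mul_apply, hyx]⟩
    by_cases hxα : x = α
    · subst hxα
      have h3 : (e.1 : D) ∈ T := (hTA _ e.1.2).resolve_right fun h => h1 h.symm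
      refine hmove e.1 h3 ?_
      show Equiv.swap α (e.1 : D) (Equiv.swap β (e.2 : D) e.1) = α
      have h4 : (e.1 : D) ≠ β := fun h => hTv _ h3 (h ▸ hβv)
      rw [Equiv.swap_apply_of_ne_of_ne h4 (hne e.1 e.2), Equiv.swap_apply_right]
    · by_cases hxβ : x = β
      · subst hxβ
        have h3 : (e.2 : D) ∈ T := (hTB _ e.2.2).resolve_right fun h => h2 h.symm
        refine hmove e.2 h3 ?_
        show Equiv.swap α (e.1 : D) (Equiv.swap β (e.2 : D) e.2) = β
        rw [Equiv.swap_apply_right, Equiv.swap_apply_of_ne_of_ne hαβ.symm h1]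
      · have h3 : x ∈ T := by
          rcases Finset.mem_union.1 hx with h | h
          · exact (hTA _ h).resolve_right hxα
          · exact (hTB _ h).resolve_right hxβ
        refine hmove x h3 ?_
        show Equiv.swap α (e.1 : D) (Equiv.swap β (e.2 : D) x) = x
        rw [Equiv.swap_apply_of_ne_of_ne hxβ h2, Equiv.swap_apply_of_ne_of_ne hxα h1]
  set F : Equiv.Perm D → ℝ := fun σ => ind (badL G (σ ∘ ι) (T.image σ) i i' j k) with hF
  have hpt : ∀ σ : Equiv.Perm D, ∑ e : ↥A × ↥B, F (σ * π e) ≤ 2 * ((L : ℝ) + 1) := by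
    intro σ
    have hb := bridges (lcliqueH G σ R A B i i')
    have h1 : ∑ e : ↥A × ↥B, F (σ * π e) ≤
        (((Finset.univ : Finset (↥A × ↥B)).filter (fun e => lcliqueH G σ R A B i i' e.1 e.2 ∧
      ¬ Relation.ReflTransGen (bst (lcliqueH G σ R A B i i') e) (Sum.inl e.1) (Sum.inr e.2))).card : ℝ) := by
      rw [Finset.card_filter]
      push_cast
      refine Finset.sum_le_sum fun e _ => ?_
      show ind (badL G ((σ * π e : Equiv.Perm D) ∘ ι) (T.image (σ * π e : Equiv.Perm D)) i i' j k) ≤ _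
      unfold ind
      split_ifs with h2 h3
      · exact le_rfl
      · have hj' : ((σ * π e : Equiv.Perm D) ∘ ι) j = σ (e.2 : D) := by
          show (σ * π e : Equiv.Perm D) (ι j) = _
          rw [Equiv.Perm.mul_apply, ← hβ, pβ]
        have hk' : ((σ * π e : Equiv.Perm D) ∘ ι) k = σ (e.1 : D) := by
          show (σ * π e : Equiv.Perm D) (ι k) = _
          rw [Equiv.Perm.mul_apply, ← hα, pα]
        exact absurd (lclique_bad (c := e.1) (d := e.2) (hvs e σ) hj' hk' (hTm e σ) hdR hn hAB h2) h3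
      · norm_num
      · norm_num
    refine h1.trans ?_
    have h2 : (((Finset.univ : Finset (↥A × ↥B)).filter (fun e => lcliqueH G σ R A B i i' e.1 e.2 ∧
      ¬ Relation.ReflTransGen (bst (lcliqueH G σ R A B i i') e) (Sum.inl e.1) (Sum.inr e.2))).card : ℝ) ≤
        ((Fintype.card ↥A + Fintype.card ↥B : ℕ) : ℝ) := by exact_mod_cast hb
    refine h2.trans ?_
    rw [Fintype.card_coe, Fintype.card_coe, hcA, hcB]
    push_cast
    linarith
  have hsum : ((L : ℝ) + 1) ^ 2 * avg F ≤ 2 * ((L : ℝ) + 1) := by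
    have h1 : ∑ e : ↥A × ↥B, avg (fun σ => F (σ * π e)) = ((L : ℝ) + 1) ^ 2 * avg F := by
      rw [Finset.sum_congr rfl (fun e _ => avg_perm_mul_right (π e) F), Finset.sum_const,
        Finset.card_univ, Fintype.card_prod, Fintype.card_coe, Fintype.card_coe, hcA, hcB, nsmul_eq_mul]
      push_cast
      ring
    rw [← h1, ← avg_sum]
    exact avg_le_of_le (by positivity) hpt
  have hL1 : (0 : ℝ) < (L : ℝ) + 1 := by positivity
  rw [le_div_iff₀ hL1]
  have : (avg F * ((L : ℝ) + 1)) * ((L : ℝ) + 1) ≤ 2 * ((L : ℝ) + 1) := by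
    calc (avg F * ((L : ℝ) + 1)) * ((L : ℝ) + 1) = ((L : ℝ) + 1) ^ 2 * avg F := by ring
      _ ≤ _ := hsum
  exact le_of_mul_le_mul_right this hL1

end Pool.Agent.LP
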