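import Pool.Agent.LP.Defs

/-! LP: derived star graphs for layer sets (port of OIP.Der) -/

set_option autoImplicit false

open Finset
open scoped Classical

namespace Pool.Agent.LP

open Pool.Agent.OIP

section der

variable {V : Type} {Λ κ : Type}

theorem derL_adj_leaf {x : LV Λ κ → V} {R : Set V} {G : SimpleGraph V} {a b : Λ × κ} (h : a.2 ≠ b.2) :
    (derL x R G).Adj (leaf a) (leaf b) ↔ Cn G (R ∪ {x (leaf a), x (leaf b)}) (x (leaf a)) (x (leaf b)) := by
  show derAdjL x R G (leaf a) (leaf b) ↔ _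
  simp [derAdjL, h]

theorem derL_adj_same {x : LV Λ κ → V} {R : Set V} {G : SimpleGraph V} {a b : Λ × κ} (h : a.2 = b.2) :
    (derL x R G).Adj (leaf a) (leaf b) ↔ G.Adj (x (leaf a)) (x (leaf b)) := by
  show derAdjL x R G (leaf a) (leaf b) ↔ _
  simp [derAdjL, h]

theorem derL_adj_hub {x : LV Λ κ → V} {R : Set V} {G : SimpleGraph V} {i : Λ} {a : Λ × κ} :
    (derL x R G).Adj (hub i) (leaf a) ↔ G.Adj (x (hub i)) (x (leaf a)) := Iff.rfl

theorem derL_adj_hubs {x : LV Λ κ → V} {R : Set V} {G : SimpleGraph V} {i j : Λ} :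
    (derL x R G).Adj (hub i) (hub j) ↔ G.Adj (x (hub i)) (x (hub j)) := Iff.rfl

theorem derL_mono {x : LV Λ κ → V} {R R' : Set V} (hR : R ⊆ R') (G : SimpleGraph V) :
    derL x R G ≤ derL x R' G := by
  intro s t h
  rcases s with a | i <;> rcases t with b | j
  · rcases h with ⟨h1, h2⟩ | ⟨h1, h2⟩
    · exact Or.inl ⟨h1, h2⟩
    · exact Or.inr ⟨h1, h2.mono (Set.union_subset_union_left _ hR)⟩
  · exact h
  · exact h
  · exact h

/-- events of the derived graph depend on the positions and the region -/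
theorem depOn_derL {x : LV Λ κ → V} {R : Set V} {A : Set (LV Λ κ)} {U : Set (SimpleGraph (LV Λ κ))} (hU : DepOn A U) :
    DepOn (R ∪ x '' A) {G : SimpleGraph V | derL x R G ∈ U} := by
  intro G H hGH
  refine hU _ _ ?_
  intro s hs t ht
  have hs' : x s ∈ R ∪ x '' A := Or.inr ⟨s, hs, rfl⟩
  have ht' : x t ∈ R ∪ x '' A := Or.inr ⟨t, ht, rfl⟩
  have hadj : G.Adj (x s) (x t) ↔ H.Adj (x s) (x t) := hGH _ hs' _ ht'
  rcases s with a | i <;> rcases t with b | j
  · have hsub : R ∪ {x (Sum.inl a), x (Sum.inl b)} ⊆ R ∪ x '' A := by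
      refine Set.union_subset Set.subset_union_left ?_
      intro v hv
      rcases hv with rfl | rfl
      · exact hs'
      · exact ht'
    have hcn : Cn G (R ∪ {x (Sum.inl a), x (Sum.inl b)}) (x (Sum.inl a)) (x (Sum.inl b)) ↔
        Cn H (R ∪ {x (Sum.inl a), x (Sum.inl b)}) (x (Sum.inl a)) (x (Sum.inl b)) :=
      depOn_Cn (R ∪ {x (Sum.inl a), x (Sum.inl b)}) (x (Sum.inl a)) (x (Sum.inl b)) G H
        fun u hu v hv => hGH u (hsub hu) v (hsub hv)
    exact or_congr (and_congr_right fun _ => hadj) (and_congr_right fun _ => hcn)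
  · exact hadj
  · exact hadj
  · exact hadj

variable {Ω : Type} [Fintype Ω]

/-- approximate independence of the derived graph: compare `derL x R0` with `derL x R1` for the event `U` and
with `derL x R2` for the event `U'`; the latter two are exactly independent. -/
theorem near_indepL {w : Ω → ℝ} (hw : IsLaw w) {W : Ω → SimpleGraph V} (P : Set V)
    (hW : ∀ A B : Set V, Disjoint A B → A ⊆ P → B ⊆ P → ∀ U U' : Set (SimpleGraph V), DepOn A U → DepOn B U' →
      pr w {ω | W ω ∈ U ∧ W ω ∈ U'} = pr w {ω | W ω ∈ U} * pr w {ω | W ω ∈ U'})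
    {x : LV Λ κ → V} (hx : Function.Injective x) {R0 R1 R2 : Set V} (h12 : Disjoint R1 R2)
    (h1 : Disjoint R1 (Set.range x)) (h2 : Disjoint R2 (Set.range x)) (hP1 : R1 ⊆ P) (hP2 : R2 ⊆ P)
    (hPx : ∀ s, x s ∈ P) {η : ℝ}
    (hη1 : pr w {ω | derL x R0 (W ω) ≠ derL x R1 (W ω)} ≤ η)
    (hη2 : pr w {ω | derL x R0 (W ω) ≠ derL x R2 (W ω)} ≤ η)
    {A B : Set (LV Λ κ)} (hAB : Disjoint A B) {U U' : Set (SimpleGraph (LV Λ κ))} (hU : DepOn A U)
    (hU' : DepOn B U') :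
    |pr w {ω | derL x R0 (W ω) ∈ U ∧ derL x R0 (W ω) ∈ U'} -
      pr w {ω | derL x R0 (W ω) ∈ U} * pr w {ω | derL x R0 (W ω) ∈ U'}| ≤ 4 * η := by
  have hd : Disjoint (R1 ∪ x '' A) (R2 ∪ x '' B) := by
    rw [Set.disjoint_left]
    rintro v (hv | ⟨s, hs, rfl⟩) (hv' | ⟨t, ht, hst⟩)
    · exact Set.disjoint_left.1 h12 hv hv'
    · exact Set.disjoint_left.1 h1 hv ⟨t, hst⟩
    · exact Set.disjoint_left.1 h2 hv' ⟨s, rfl⟩
    · have : s = t := hx hst.symm
      exact Set.disjoint_left.1 hAB hs (this ▸ ht)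
  have hpA : ∀ A : Set (LV Λ κ), x '' A ⊆ P := by
    rintro A _ ⟨s, -, rfl⟩
    exact hPx s
  have hind := hW (R1 ∪ x '' A) (R2 ∪ x '' B) hd (Set.union_subset hP1 (hpA A)) (Set.union_subset hP2 (hpA B)) _ _
    (depOn_derL (x := x) (R := R1) hU)
    (depOn_derL (x := x) (R := R2) hU')
  have e0 : |pr w {ω | derL x R0 (W ω) ∈ U ∧ derL x R0 (W ω) ∈ U'} -
      pr w {ω | W ω ∈ {G : SimpleGraph V | derL x R1 G ∈ U} ∧
        W ω ∈ {G : SimpleGraph V | derL x R2 G ∈ U'}}| ≤ 2 * η := by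
    refine le_trans (abs_pr_sub_le hw (B := {ω | derL x R0 (W ω) ≠ derL x R1 (W ω)} ∪
      {ω | derL x R0 (W ω) ≠ derL x R2 (W ω)}) ?_) ?_
    · intro ω hω
      have c1 : derL x R0 (W ω) = derL x R1 (W ω) := by
        by_contra hne
        exact hω (Or.inl hne)
      have c2 : derL x R0 (W ω) = derL x R2 (W ω) := by
        by_contra hne
        exact hω (Or.inr hne)
      show (derL x R0 (W ω) ∈ U ∧ derL x R0 (W ω) ∈ U') ↔ (derL x R1 (W ω) ∈ U ∧ derL x R2 (W ω) ∈ U')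
      rw [← c1, ← c2]
    · linarith [pr_union_le hw {ω | derL x R0 (W ω) ≠ derL x R1 (W ω)}
        {ω | derL x R0 (W ω) ≠ derL x R2 (W ω)}]
  have e1 : |pr w {ω | derL x R0 (W ω) ∈ U} -
      pr w {ω | W ω ∈ {G : SimpleGraph V | derL x R1 G ∈ U}}| ≤ η := by
    refine le_trans (abs_pr_sub_le hw (B := {ω | derL x R0 (W ω) ≠ derL x R1 (W ω)}) ?_) hη1
    intro ω hω
    have c1 : derL x R0 (W ω) = derL x R1 (W ω) := by
      by_contra hne
      exact hω hne
    show derL x R0 (W ω) ∈ U ↔ derL x R1 (W ω) ∈ U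
    rw [c1]
  have e2 : |pr w {ω | derL x R0 (W ω) ∈ U'} -
      pr w {ω | W ω ∈ {G : SimpleGraph V | derL x R2 G ∈ U'}}| ≤ η := by
    refine le_trans (abs_pr_sub_le hw (B := {ω | derL x R0 (W ω) ≠ derL x R2 (W ω)}) ?_) hη2
    intro ω hω
    have c1 : derL x R0 (W ω) = derL x R2 (W ω) := by
      by_contra hne
      exact hω hne
    show derL x R0 (W ω) ∈ U' ↔ derL x R2 (W ω) ∈ U'
    rw [c1]
  rw [hind] at e0
  set b := pr w {ω | derL x R0 (W ω) ∈ U}
  set c := pr w {ω | derL x R0 (W ω) ∈ U'}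
  set b' := pr w {ω | W ω ∈ {G : SimpleGraph V | derL x R1 G ∈ U}} with hb'
  set c' := pr w {ω | W ω ∈ {G : SimpleGraph V | derL x R2 G ∈ U'}}
  set a := pr w {ω | derL x R0 (W ω) ∈ U ∧ derL x R0 (W ω) ∈ U'}
  have hb0 : 0 ≤ b' := pr_nonneg hw _
  have hb1 : b' ≤ 1 := pr_le_one hw _
  have hc0 : 0 ≤ c := pr_nonneg hw _
  have hc1 : c ≤ 1 := pr_le_one hw _
  have e3 : |b * c - b' * c'| ≤ 2 * η := by
    have : b * c - b' * c' = (b - b') * c + b' * (c - c') := by ring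
    rw [this]
    refine le_trans (abs_add_le _ _) ?_
    rw [abs_mul, abs_mul, abs_of_nonneg hc0, abs_of_nonneg hb0]
    have f1 : |b - b'| * c ≤ |b - b'| * 1 := mul_le_mul_of_nonneg_left hc1 (abs_nonneg _)
    have f2 : b' * |c - c'| ≤ 1 * |c - c'| := mul_le_mul_of_nonneg_right hb1 (abs_nonneg _)
    linarith
  have : a - b * c = (a - b' * c') - (b * c - b' * c') := by ring
  rw [this]
  refine le_trans (abs_sub _ _) ?_
  linarith

/-- if the regions are nested, the derived graphs differ only if the larger one has an additional pair -/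
theorem pr_derL_ne_le [Fintype Λ] [Fintype κ] [DecidableEq κ] {w : Ω → ℝ} (hw : IsLaw w) (W : Ω → SimpleGraph V) {x : LV Λ κ → V}
    {R R' : Set V} (hR : R ⊆ R') :
    pr w {ω | derL x R (W ω) ≠ derL x R' (W ω)} ≤
      ∑ y ∈ (Finset.univ : Finset ((Λ × κ) × (Λ × κ))).filter (fun y => y.1.2 ≠ y.2.2),
        (pr w {ω | (derL x R' (W ω)).Adj (leaf y.1) (leaf y.2)} - pr w {ω | (derL x R (W ω)).Adj (leaf y.1) (leaf y.2)}) := by
  have hsub : {ω | derL x R (W ω) ≠ derL x R' (W ω)} ⊆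
      {ω | ∃ y ∈ (Finset.univ : Finset ((Λ × κ) × (Λ × κ))).filter (fun y => y.1.2 ≠ y.2.2),
        (derL x R' (W ω)).Adj (leaf y.1) (leaf y.2) ∧ ¬ (derL x R (W ω)).Adj (leaf y.1) (leaf y.2)} := by
    intro ω hω
    by_contra hcon
    refine hω (le_antisymm (derL_mono hR _) ?_)
    intro s t hst
    rcases s with a | i <;> rcases t with b | j
    · by_cases hab : a.2 = b.2
      · exact (derL_adj_same (R := R) hab).2 ((derL_adj_same (R := R') hab).1 hst)
      · by_contra hn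
        exact hcon ⟨(a, b), Finset.mem_filter.2 ⟨Finset.mem_univ _, hab⟩, hst, hn⟩
    · exact hst
    · exact hst
    · exact hst
  refine le_trans (pr_mono hw hsub) (le_trans (pr_exists_le hw _ _) ?_)
  refine Finset.sum_le_sum fun y _ => le_of_eq ?_
  have h1 := pr_inter_add_diff (w := w) {ω | (derL x R' (W ω)).Adj (leaf y.1) (leaf y.2)}
    {ω | (derL x R (W ω)).Adj (leaf y.1) (leaf y.2)}
  have h2 : {ω | (derL x R' (W ω)).Adj (leaf y.1) (leaf y.2)} ∩
      {ω | (derL x R (W ω)).Adj (leaf y.1) (leaf y.2)} = {ω | (derL x R (W ω)).Adj (leaf y.1) (leaf y.2)} :=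
    Set.inter_eq_right.2 fun ω (h : (derL x R (W ω)).Adj (leaf y.1) (leaf y.2)) =>
      (derL_mono hR (W ω) h : (derL x R' (W ω)).Adj (leaf y.1) (leaf y.2))
  rw [h2] at h1
  have h3 : {ω | (derL x R' (W ω)).Adj (leaf y.1) (leaf y.2)} \
      {ω | (derL x R (W ω)).Adj (leaf y.1) (leaf y.2)} =
      {ω | (derL x R' (W ω)).Adj (leaf y.1) (leaf y.2) ∧ ¬ (derL x R (W ω)).Adj (leaf y.1) (leaf y.2)} := rfl
  rw [h3] at h1
  linarith

end der

end Pool.Agent.LP
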