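import Pool.Agent.LP.LDer

/-! LP: stars in a layered cube (port of OIP.Fiber) -/

set_option autoImplicit false

open Finset
open scoped Classical

namespace Pool.Agent.LP

open Pool.Agent.OIP

section A

variable {Λ D : Type} [DecidableEq D] {n : ℕ}

theorem farL_mono (ι : Fin n → D) {T T' : Finset D} (h : T ⊆ T') :
    (farL ι T : Set (Λ × Finset D)) ⊆ farL ι T' := by
  rintro u ⟨h1, ⟨t, ht, h2⟩, h3⟩
  exact ⟨h1.trans (Finset.union_subset_union_right h), ⟨t, h ht, h2⟩, h3⟩

theorem mem_vsL (ι : Fin n → D) (k : Fin n) : ι k ∈ vsL ι :=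
  Finset.mem_image_of_mem ι (Finset.mem_univ k)

theorem xL_injective {ι : Fin n → D} (hι : Function.Injective ι) :
    Function.Injective (xL ι : LV Λ (Fin n) → Λ × Finset D) := by
  intro s t h
  rcases s with a | i <;> rcases t with b | j
  · have h1 : a.1 = b.1 := congrArg (fun u : Λ × Finset D => u.1) h
    have h2 : (vsL ι).erase (ι a.2) = (vsL ι).erase (ι b.2) :=
      congrArg (fun u : Λ × Finset D => u.2) h
    have h3 : a.2 = b.2 := by
      by_contra hne
      have h4 : ι a.2 ∈ (vsL ι).erase (ι b.2) :=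
        Finset.mem_erase.2 ⟨fun h5 => hne (hι h5), mem_vsL ι a.2⟩
      rw [← h2] at h4
      exact Finset.notMem_erase _ _ h4
    exact congrArg Sum.inl (Prod.ext h1 h3)
  · exfalso
    have h2 : (vsL ι).erase (ι a.2) = vsL ι := congrArg (fun u : Λ × Finset D => u.2) h
    have h4 := mem_vsL ι a.2
    rw [← h2] at h4
    exact Finset.notMem_erase _ _ h4
  · exfalso
    have h2 : vsL ι = (vsL ι).erase (ι b.2) := congrArg (fun u : Λ × Finset D => u.2) h
    have h4 := mem_vsL ι b.2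
    rw [h2] at h4
    exact Finset.notMem_erase _ _ h4
  · have h1 : i = j := congrArg (fun u : Λ × Finset D => u.1) h
    exact congrArg Sum.inr h1

theorem xL_sub (ι : Fin n → D) (s : LV Λ (Fin n)) : (xL ι s).2 ⊆ vsL ι := by
  rcases s with a | i
  · exact Finset.erase_subset _ _
  · exact Finset.Subset.refl _

theorem farL_disjoint_range (ι : Fin n → D) (T : Finset D) :
    Disjoint (farL ι T : Set (Λ × Finset D)) (Set.range (xL ι)) := by
  rw [Set.disjoint_left]
  rintro u ⟨_, ⟨t, _, h2, h3⟩, _⟩ ⟨s, rfl⟩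
  exact h3 (xL_sub ι s h2)

theorem farL_disjoint (ι : Fin n → D) {T T' : Finset D} (h : Disjoint T T') :
    Disjoint (farL ι T : Set (Λ × Finset D)) (farL ι T') := by
  rw [Set.disjoint_left]
  rintro u ⟨h1, _, _⟩ ⟨_, ⟨t, ht, h2, h3⟩, _⟩
  rcases Finset.mem_union.1 (h1 h2) with h4 | h4
  · exact h3 h4
  · exact Finset.disjoint_left.1 h h4 ht

theorem farL_sub (ι : Fin n → D) (T : Finset D) {D0 : Finset D} (h : vsL ι ∪ T ⊆ D0) :
    (farL ι T : Set (Λ × Finset D)) ⊆ {u | u.2 ⊆ D0} := fun _ hu => hu.1.trans h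

theorem vsL_perm (ι : Fin n → D) (σ : Equiv.Perm D) : vsL (σ ∘ ι) = (vsL ι).image σ := by
  unfold vsL
  rw [Finset.image_image]

theorem card_vsL {ι : Fin n → D} (hι : Function.Injective ι) : (vsL ι).card = n := by
  unfold vsL
  rw [Finset.card_image_of_injective _ hι, Finset.card_univ, Fintype.card_fin]

variable {Ω : Type} [Fintype Ω] {p : ℝ} {w : Ω → ℝ} {W : Ω → SimpleGraph (Λ × Finset D)}
  {L : SimpleGraph Λ} {D0 : Finset D}

theorem cube_hubEdge (h : LCube L D0 p w W) {ι : Fin n → D} (hD : vsL ι ⊆ D0) (R : Set (Λ × Finset D)) (i : Λ)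
    (k : Fin n) : p ≤ pr w {ω | (derL (xL ι) R (W ω)).Adj (hub i) (leaf (i, k))} := by
  have h1 := h.lay i ((vsL ι).erase (ι k)) (ι k) (by rw [Finset.insert_erase (mem_vsL ι k)]; exact hD)
    (Finset.notMem_erase _ _)
  rw [Finset.insert_erase (mem_vsL ι k)] at h1
  refine h1.trans (pr_mono h.law ?_)
  intro ω hω
  show (W ω).Adj (i, vsL ι) (i, (vsL ι).erase (ι k))
  exact (W ω).adj_symm hω

theorem cube_vert (h : LCube L D0 p w W) {ι : Fin n → D} (hD : vsL ι ⊆ D0) (R : Set (Λ × Finset D)) (i i' : Λ)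
    (k : Fin n) (hi : L.Adj i i') : p ≤ pr w {ω | (derL (xL ι) R (W ω)).Adj (leaf (i, k)) (leaf (i', k))} := by
  refine (h.ver i i' ((vsL ι).erase (ι k)) hi ((Finset.erase_subset _ _).trans hD)).trans (pr_mono h.law ?_)
  intro ω hω
  exact (derL_adj_same (x := xL ι) (R := R) (G := W ω) (a := (i, k)) (b := (i', k)) rfl).2 hω

theorem cube_hubVert (h : LCube L D0 p w W) {ι : Fin n → D} (hD : vsL ι ⊆ D0) (R : Set (Λ × Finset D)) (i i' : Λ)
    (hi : L.Adj i i') : p ≤ pr w {ω | (derL (xL ι) R (W ω)).Adj (hub i) (hub i')} := by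
  refine (h.ver i i' (vsL ι) hi hD).trans (pr_mono h.law ?_)
  intro ω hω
  exact hω

end A

end Pool.Agent.LP
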