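import Pool.Agent.OIP.Avg

/-!
# LP: random halving

`B`, `B'` disjoint with `n` elements each; fix a bijection `B ≃ B'` and for `c : Fin n → Bool` let `π c` be the product of
the transpositions of the pairs `r` with `c r = true`; `avg F = avg_σ avg_c F (σ * π c)` (`avg_perm_mul_right`).  The set
`(B ∪ B').image (σ * π c) = S` does not depend on `c`; with `u r, v r ∈ {0, 1}` the values of `X S` at the two images of
the pair `r` the count in `B.image (σ * π c)` is `∑ r, (if c r then v r else u r)`, with mean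
`∑ r, (u r + v r) / 2 ≥ β n` over `c`.  Hoeffding: with `λ = 4 γ`,
`avg_c exp (-λ (count - mean)) = ∏ r, cosh (λ (u r - v r) / 2) ≤ exp (n λ² / 8)` (`Real.cosh_le_exp_half_sq`), so
the proportion of the `c` with `count ≤ (β - γ) n` is at most `exp (-λ γ n + n λ² / 8) = exp (-2 γ² n)`.
-/

set_option autoImplicit false

open Finset
open scoped Classical

namespace Pool.Agent.LP

open Pool.Agent.OIP

/-- the average of a product over independent bits -/
theorem lhalf_avg_prod {n : ℕ} (g : Fin n → Bool → ℝ) :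
    avg (fun c : Fin n → Bool => ∏ r, g r (c r)) = ∏ r, ((g r false + g r true) / 2) := by
  unfold avg
  have h1 : ∑ c : Fin n → Bool, ∏ r, g r (c r) = ∏ r, ∑ b : Bool, g r b := by
    rw [Finset.prod_univ_sum, Fintype.piFinset_univ]
  rw [h1, Fintype.card_fun, Fintype.card_bool, Fintype.card_fin, Finset.prod_div_distrib,
    Finset.prod_const, Finset.card_univ, Fintype.card_fin]
  push_cast
  congr 1
  refine Finset.prod_congr rfl fun r _ => ?_
  rw [Fintype.sum_bool, add_comm]

theorem lhalf_cosh {x y l : ℝ} (hx : (x - y) ^ 2 ≤ 1) :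
    (Real.exp (-(l * x)) + Real.exp (-(l * y))) / 2 ≤ Real.exp (-(l * ((x + y) / 2)) + l ^ 2 / 8) := by
  have h1 : (Real.exp (-(l * x)) + Real.exp (-(l * y))) / 2 =
      Real.exp (-(l * ((x + y) / 2))) * Real.cosh (l * (x - y) / 2) := by
    rw [Real.cosh_eq, mul_div_assoc', mul_add, ← Real.exp_add, ← Real.exp_add]
    congr 1
    rw [add_comm]
    congr 1
    · congr 1
      ring
    · congr 1
      ring
  rw [h1, Real.exp_add]
  refine mul_le_mul_of_nonneg_left ?_ (Real.exp_pos _).le
  refine (Real.cosh_le_exp_half_sq _).trans ?_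
  refine Real.exp_le_exp.2 ?_
  have h2 : (l * (x - y) / 2) ^ 2 / 2 = l ^ 2 * (x - y) ^ 2 / 8 := by ring
  rw [h2]
  have h3 : l ^ 2 * (x - y) ^ 2 ≤ l ^ 2 * 1 := mul_le_mul_of_nonneg_left hx (sq_nonneg l)
  linarith

/-- Hoeffding for independent fair choices between numbers in `{0, 1}` -/
theorem lhalf_hoeffding {n : ℕ} (a : Fin n → Bool → ℝ) (ha : ∀ r b, a r b = 0 ∨ a r b = 1) (β γ : ℝ)
    (hγ : 0 ≤ γ) (ht : 2 * β * n ≤ ∑ r, (a r false + a r true)) :
    avg (fun c : Fin n → Bool => ind (∑ r, a r (c r) ≤ (β - γ) * n)) ≤ Real.exp (-(2 * γ ^ 2 * n)) := by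
  set l : ℝ := 4 * γ with hl
  have hl0 : 0 ≤ l := by positivity
  have h1 : ∀ c : Fin n → Bool, ind (∑ r, a r (c r) ≤ (β - γ) * n) ≤
      Real.exp (l * ((β - γ) * n)) * ∏ r, Real.exp (-(l * a r (c r))) := by
    intro c
    rw [← Real.exp_sum, ← Real.exp_add, Finset.sum_neg_distrib, ← Finset.mul_sum]
    unfold ind
    split_ifs with h
    · rw [← Real.exp_zero]
      refine Real.exp_le_exp.2 ?_
      have := mul_le_mul_of_nonneg_left h hl0
      linarith
    · exact (Real.exp_pos _).le
  refine (avg_mono h1).trans ?_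
  rw [avg_const_mul, lhalf_avg_prod (fun r b => Real.exp (-(l * a r b)))]
  have h2 : ∏ r, ((Real.exp (-(l * a r false)) + Real.exp (-(l * a r true))) / 2) ≤
      ∏ r, Real.exp (-(l * ((a r false + a r true) / 2)) + l ^ 2 / 8) := by
    refine Finset.prod_le_prod (fun r _ => by positivity) fun r _ => lhalf_cosh ?_
    rcases ha r false with h | h <;> rcases ha r true with h' | h' <;> rw [h, h'] <;> norm_num
  refine (mul_le_mul_of_nonneg_left h2 (Real.exp_pos _).le).trans ?_
  rw [← Real.exp_sum, ← Real.exp_add]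
  refine Real.exp_le_exp.2 ?_
  have h3 : ∑ r : Fin n, (-(l * ((a r false + a r true) / 2)) + l ^ 2 / 8) =
      -(l * ((∑ r, (a r false + a r true)) / 2)) + n * (l ^ 2 / 8) := by
    rw [Finset.sum_add_distrib, Finset.sum_neg_distrib, ← Finset.mul_sum, ← Finset.sum_div,
      Finset.sum_const, Finset.card_univ, Fintype.card_fin, nsmul_eq_mul]
  rw [h3]
  have h4 : l * (β * n) ≤ l * ((∑ r, (a r false + a r true)) / 2) :=
    mul_le_mul_of_nonneg_left (by linarith) hl0
  have h5 : l * ((β - γ) * n) + (-(l * (β * n)) + n * (l ^ 2 / 8)) = -(2 * γ ^ 2 * n) := by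
    rw [hl]
    ring
  linarith

/-- flip the second coordinate according to `c` -/
def lhalf_flip {n : ℕ} (c : Fin n → Bool) : Equiv.Perm (Fin n × Bool) where
  toFun x := (x.1, xor x.2 (c x.1))
  invFun x := (x.1, xor x.2 (c x.1))
  left_inv := by
    rintro ⟨r, b⟩
    show (r, xor (xor b (c r)) (c r)) = (r, b)
    cases b <;> cases c r <;> rfl
  right_inv := by
    rintro ⟨r, b⟩
    show (r, xor (xor b (c r)) (c r)) = (r, b)
    cases b <;> cases c r <;> rfl

theorem halving {D : Type} [Fintype D] [DecidableEq D] {n : ℕ} (B B' : Finset D) (hd : Disjoint B B')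
    (hB : B.card = n) (hB' : B'.card = n) (X : Finset D → D → Prop) (β γ : ℝ) (hγ : 0 ≤ γ) :
    avg (fun σ : Equiv.Perm D => ind (
      2 * β * n ≤ ((((B ∪ B').image σ).filter (fun x => X ((B ∪ B').image σ) x)).card : ℝ) ∧
      (((B.image σ).filter (fun x => X ((B ∪ B').image σ) x)).card : ℝ) ≤ (β - γ) * n)) ≤
      Real.exp (-(2 * γ ^ 2 * n)) := by
  -- enumerations
  have e : Fin n ≃ B := (Finset.equivFinOfCardEq hB).symm
  have e' : Fin n ≃ B' := (Finset.equivFinOfCardEq hB').symm
  set z : Fin n × Bool → D := fun x => if x.2 then (e' x.1 : D) else (e x.1 : D) with hz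
  have hz0 : ∀ r, z (r, false) = (e r : D) := fun r => by simp [hz]
  have hz1 : ∀ r, z (r, true) = (e' r : D) := fun r => by simp [hz]
  have hzi : Function.Injective z := by
    rintro ⟨r, b⟩ ⟨r', b'⟩ h
    cases b <;> cases b'
    · rw [hz0, hz0] at h
      rw [e.injective (Subtype.ext h)]
    · rw [hz0, hz1] at h
      exact absurd (h ▸ (e' r').2) (Finset.disjoint_left.1 hd (e r).2)
    · rw [hz1, hz0] at h
      exact absurd (h ▸ (e' r).2) (Finset.disjoint_left.1 hd (e r').2)
    · rw [hz1, hz1] at h
      rw [e'.injective (Subtype.ext h)]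
  have hBz : B = (Finset.univ : Finset (Fin n)).image (fun r => z (r, false)) := by
    ext x
    rw [Finset.mem_image]
    constructor
    · intro hx
      exact ⟨e.symm ⟨x, hx⟩, Finset.mem_univ _, by rw [hz0, Equiv.apply_symm_apply]⟩
    · rintro ⟨r, _, rfl⟩
      rw [hz0]
      exact (e r).2
  have hBBz : B ∪ B' = (Finset.univ : Finset (Fin n × Bool)).image z := by
    ext x
    rw [Finset.mem_image, Finset.mem_union]
    constructor
    · rintro (hx | hx)
      · exact ⟨(e.symm ⟨x, hx⟩, false), Finset.mem_univ _, by rw [hz0, Equiv.apply_symm_apply]⟩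
      · exact ⟨(e'.symm ⟨x, hx⟩, true), Finset.mem_univ _, by rw [hz1, Equiv.apply_symm_apply]⟩
    · rintro ⟨⟨r, b⟩, _, rfl⟩
      cases b
      · rw [hz0]
        exact Or.inl (e r).2
      · rw [hz1]
        exact Or.inr (e' r).2
  -- the permutations
  have hzp : ∀ x, z x ∈ B ∪ B' := fun x => by
    rw [hBBz]
    exact Finset.mem_image_of_mem _ (Finset.mem_univ _)
  let ψ : Fin n × Bool ≃ {x : D // x ∈ B ∪ B'} := Equiv.ofBijective (fun x => ⟨z x, hzp x⟩) (by
    constructor
    · intro x y h
      exact hzi (congrArg Subtype.val h)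
    · rintro ⟨y, hy⟩
      rw [hBBz, Finset.mem_image] at hy
      obtain ⟨x, _, hx⟩ := hy
      exact ⟨x, Subtype.ext hx⟩)
  have hψ : ∀ x, ((ψ x : {x : D // x ∈ B ∪ B'}) : D) = z x := fun x => rfl
  let π : (Fin n → Bool) → Equiv.Perm D := fun c => (lhalf_flip c).extendDomain ψ
  have hπ : ∀ c x, π c (z x) = z (lhalf_flip c x) := by
    intro c x
    have h1 := Equiv.Perm.extendDomain_apply_image (lhalf_flip c) ψ x
    rw [hψ, hψ] at h1
    exact h1
  -- symmetrization
  set F : Equiv.Perm D → ℝ := fun σ => ind (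
      2 * β * n ≤ ((((B ∪ B').image σ).filter (fun x => X ((B ∪ B').image σ) x)).card : ℝ) ∧
      (((B.image σ).filter (fun x => X ((B ∪ B').image σ) x)).card : ℝ) ≤ (β - γ) * n) with hF
  have hsym : avg F = avg (fun σ => avg (fun c => F (σ * π c))) := by
    rw [avg_comm]
    have h1 : (fun c : Fin n → Bool => avg (fun σ => F (σ * π c))) = fun _ => avg F := by
      funext c
      exact avg_perm_mul_right (π c) F
    rw [h1, avg_const]
  rw [hsym]
  refine avg_le_of_le (Real.exp_pos _).le fun σ => ?_
  -- fixed `σ`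
  set S : Finset D := (B ∪ B').image σ with hS
  have hSc : ∀ c, (B ∪ B').image (σ * π c : Equiv.Perm D) = S := by
    intro c
    have h1 : (B ∪ B').image (π c) = B ∪ B' := by
      refine Finset.eq_of_subset_of_card_le ?_ ?_
      · intro y hy
        rw [Finset.mem_image] at hy
        obtain ⟨x, hx, rfl⟩ := hy
        rw [hBBz, Finset.mem_image] at hx
        obtain ⟨w, _, rfl⟩ := hx
        rw [hπ]
        exact hzp _
      · rw [Finset.card_image_of_injective _ (π c).injective]
    rw [hS]
    conv_rhs => rw [← h1]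
    rw [Finset.image_image]
    rfl
  set a : Fin n → Bool → ℝ := fun r b => if X S (σ (z (r, b))) then 1 else 0 with ha
  have hcount : ∀ c, ((((B.image (σ * π c : Equiv.Perm D))).filter (fun x => X S x)).card : ℝ) =
      ∑ r, a r (c r) := by
    intro c
    have h1 : B.image (σ * π c : Equiv.Perm D) =
        (Finset.univ : Finset (Fin n)).image (fun r => σ (z (r, c r))) := by
      conv_lhs => rw [hBz]
      rw [Finset.image_image]
      refine Finset.image_congr fun r _ => ?_
      show σ (π c (z (r, false))) = σ (z (r, c r))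
      rw [hπ]
      congr 2
      show (r, xor false (c r)) = (r, c r)
      cases c r <;> rfl
    rw [h1, Finset.filter_image, Finset.card_image_of_injective]
    · rw [Finset.card_filter]
      push_cast
      rfl
    · intro r r' h
      have := hzi (σ.injective h)
      exact congrArg Prod.fst this
  have htot : ((S.filter (fun x => X S x)).card : ℝ) = ∑ r, (a r false + a r true) := by
    have h1 : S = (Finset.univ : Finset (Fin n × Bool)).image (fun x => σ (z x)) := by
      rw [hS, hBBz, Finset.image_image]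
      rfl
    have h2 : S.filter (fun x => X S x) =
        ((Finset.univ : Finset (Fin n × Bool)).image (fun x => σ (z x))).filter (fun x => X S x) := by
      rw [← h1]
    rw [h2, Finset.filter_image, Finset.card_image_of_injective _ (fun x y h => hzi (σ.injective h)),
      Finset.card_filter]
    push_cast
    rw [Fintype.sum_prod_type]
    refine Finset.sum_congr rfl fun r _ => ?_
    rw [Fintype.sum_bool, add_comm]
  have hFc : ∀ c, F (σ * π c) = ind (2 * β * n ≤ ((S.filter (fun x => X S x)).card : ℝ) ∧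
      ∑ r, a r (c r) ≤ (β - γ) * n) := by
    intro c
    rw [hF]
    simp only
    rw [hSc c, hcount c]
  by_cases ht : 2 * β * n ≤ ((S.filter (fun x => X S x)).card : ℝ)
  · have h1 : (fun c => F (σ * π c)) = fun c : Fin n → Bool => ind (∑ r, a r (c r) ≤ (β - γ) * n) := by
      funext c
      rw [hFc c]
      congr 1
      exact propext ⟨fun h => h.2, fun h => ⟨ht, h⟩⟩
    rw [h1]
    refine lhalf_hoeffding a ?_ β γ hγ (htot ▸ ht)
    intro r b
    rw [ha]
    simp only
    split_ifs
    · exact Or.inr rfl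
    · exact Or.inl rfl
  · refine avg_le_of_le (Real.exp_pos _).le fun c => ?_
    rw [hFc c]
    unfold ind
    rw [if_neg (fun h => ht h.1)]
    exact (Real.exp_pos _).le

end Pool.Agent.LP
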