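import Pool.Agent.LP.LOut
import Pool.Agent.LP.LFiber
import Pool.Agent.OIP.InfMarg

/-!
# LP: the model `Z^4 × {0,1}^D`, typical stars at a centre `O`

`phi (lam4 O e e')` maps the layered cube over the plaquette at `O` with the directions `e`, `e'` (different axes) to the
model; it is injective on `{(i, S) : S ⊆ D0 e e'}` (`D0` = all fibre directions except those of `e`, `e'`).

`phi_inj`: `(phi (lam4 O e e') (i, S)).1 = O.1 + [i.1] base e + [i.2] base e'` and the fibre part is
`O.2 ∆ [i.1] fdir e ∆ [i.2] fdir e' ∆ S`; intersect with `fdir e ∪ fdir e'` (disjoint from `S`) to recover `i.1`, `i.2`.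
`lcube_model`: `marg_law`, `marg_pr` for the law; independence: for `A`, `B` inside `{(i, S) : S ⊆ D0}` disjoint, the
images under `phi` are disjoint (`phi_inj`) and events `DepOn A` of the comap are measurable for `sigV W (phi '' A)`
(`measurableSet_of_depOn` for the comap and `sigV (comap) A ≤ sigV W (phi '' A)`, see `OneIndepM.comap`).
`lay`: `phi (i, insert d S) = mv (Sum.inr d) (phi (i, S))` for `d ∉ S`; `ver`: `lam4` of adjacent layers differ by one
step `mv e` or `mv e'` in one of the two orders, and flips commute with `mv`.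
`depOn_FailV`: `depOn_derL` and: if `vsL ι ∪ T ⊆ D0` (part of `TypV`) all vertices of `farL ι T` and all positions `xL ι s`
are mapped into `regV`; `Nice` depends only on the star graph.
`regV_disjoint`: a common vertex comes from `(i, S)`, `(i', S')` with `S = S'` by `phi_inj` (both inside `D0`), so
`S ⊆ (vsL ι ∪ T) ∩ (vsL ι' ∪ T')`, `n ≤ |S| + 1 ≤ 2`, a contradiction.
-/

set_option autoImplicit false

open MeasureTheory ProbabilityTheory
open scoped Classical

namespace Pool.Agent.LP

open Pool.Agent.OIP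

/-- the model: 1-independent random subgraph of the lattice `Z^4 × {0,1}^D`, all edges open with probability at least
`p` -/
structure MModel {Ω D : Type} [MeasurableSpace Ω] [DecidableEq D] (p : ℝ) (μ : Measure Ω)
    (W : Ω → SimpleGraph (V D)) : Prop where
  prob : IsProbabilityMeasure μ
  meas : ∀ a b, MeasurableSet {ω | (W ω).Adj a b}
  indep : OneIndepM μ W
  edge : ∀ (v : V D) (d : Dir D), p ≤ μ.real {ω | (W ω).Adj v (mv d v)}
  latt : ∀ ω u v, (W ω).Adj u v → ∃ d, v = mv d u

section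

variable {Ω D : Type} [MeasurableSpace Ω] [Fintype D] [DecidableEq D] {n : ℕ}

/-- `(O, ι, T)` is typical for the plaquette directions `e`, `e'` -/
def TypV (ε e₁ : ℝ) (μ : Measure Ω) (W : Ω → SimpleGraph (V D)) (O : V D) (e e' : Dir D) (ι : Fin n → D)
    (T : Finset D) (U : Bool × Bool → Bool × Bool → Prop) (P : Bool × Bool → Prop) : Prop :=
  Function.Injective ι ∧ vsL ι ∪ T ⊆ D0 e e' ∧
    Typ plaq ε e₁ (fun A => μ.real {ω | starV (lam4 O e e') ι T (W ω) ∈ A}) U P

/-- a relation `U` for which `(O, ι, T)` is typical (if there is one) -/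
noncomputable def UU (ε e₁ : ℝ) (μ : Measure Ω) (W : Ω → SimpleGraph (V D)) (O : V D) (e e' : Dir D) (ι : Fin n → D)
    (T : Finset D) : Bool × Bool → Bool × Bool → Prop :=
  if h : ∃ U P, TypV ε e₁ μ W O e e' ι T U P then h.choose else fun _ _ => False

/-- types belonging to `UU` -/
noncomputable def PP (ε e₁ : ℝ) (μ : Measure Ω) (W : Ω → SimpleGraph (V D)) (O : V D) (e e' : Dir D) (ι : Fin n → D)
    (T : Finset D) : Bool × Bool → Prop :=
  if h : ∃ U P, TypV ε e₁ μ W O e e' ι T U P then h.choose_spec.choose else fun _ => False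

/-- failure event of a typical star (empty if the star is not typical) -/
def FailV (ε e₁ : ℝ) (μ : Measure Ω) (W : Ω → SimpleGraph (V D)) (O : V D) (e e' : Dir D) (ι : Fin n → D)
    (T : Finset D) : Set (SimpleGraph (V D)) :=
  {G | (∃ U P, TypV ε e₁ μ W O e e' ι T U P) ∧
    ¬ Nice plaq (1 / 1000) (UU ε e₁ μ W O e e' ι T) (starV (lam4 O e e') ι T G)}

/-- region on which the failure event depends -/
def regV (O : V D) (e e' : Dir D) (ι : Fin n → D) (T : Finset D) : Set (V D) :=
  {v | vsL ι ∪ T ⊆ D0 e e' ∧ ∃ u : (Bool × Bool) × Finset D, u.2 ⊆ vsL ι ∪ T ∧ n ≤ u.2.card + 1 ∧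
    v = phi (lam4 O e e') u}

theorem typV_UU {ε e₁ : ℝ} {μ : Measure Ω} {W : Ω → SimpleGraph (V D)} {O : V D} {e e' : Dir D} {ι : Fin n → D}
    {T : Finset D} (h : ∃ U P, TypV ε e₁ μ W O e e' ι T U P) :
    TypV ε e₁ μ W O e e' ι T (UU ε e₁ μ W O e e' ι T) (PP ε e₁ μ W O e e' ι T) := by
  unfold UU PP
  rw [dif_pos h, dif_pos h]
  exact h.choose_spec.choose_spec

/-- base part of a direction -/
def lmodel_bs {D : Type} : Dir D → Fin 4 → ℤ
  | Sum.inl e => Pi.single e.1 (if e.2 then 1 else -1)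
  | Sum.inr _ => 0

theorem lmodel_sd {D : Type} [DecidableEq D] (A : Finset D) : symmDiff A ∅ = A := symmDiff_bot A

theorem lmodel_mv {D : Type} [DecidableEq D] (e : Dir D) (v : V D) :
    mv e v = (v.1 + lmodel_bs e, symmDiff v.2 (fdir e)) := by
  rcases e with ⟨i, b⟩ | d
  · simp [mv, lmodel_bs, fdir, lmodel_sd]
  · simp [mv, lmodel_bs, fdir, flip]

theorem lmodel_phi {D : Type} [DecidableEq D] (O : V D) (e e' : Dir D) (u : (Bool × Bool) × Finset D) :
    phi (lam4 O e e') u = (O.1 + (if u.1.1 then lmodel_bs e else 0) + (if u.1.2 then lmodel_bs e' else 0),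
      symmDiff (symmDiff (symmDiff O.2 (if u.1.1 then fdir e else ∅)) (if u.1.2 then fdir e' else ∅)) u.2) := by
  rcases u with ⟨⟨x, y⟩, S⟩
  cases x <;> cases y <;> simp [phi, lam4, flip, lmodel_mv, lmodel_sd]

theorem lmodel_flip_mv {D : Type} [DecidableEq D] (S : Finset D) (e : Dir D) (v : V D) :
    flip S (mv e v) = mv e (flip S v) := by
  rw [lmodel_mv, lmodel_mv]
  simp only [flip]
  rw [symmDiff_right_comm]

theorem lmodel_mv_mv {D : Type} [DecidableEq D] (e e' : Dir D) (v : V D) :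
    mv e (mv e' v) = mv e' (mv e v) := by
  rw [lmodel_mv, lmodel_mv, lmodel_mv, lmodel_mv]
  simp only []
  rw [symmDiff_right_comm, add_right_comm]

theorem lmodel_flip_insert {D : Type} [DecidableEq D] {S : Finset D} {d : D} (h : d ∉ S) (v : V D) :
    flip (insert d S) v = mv (Sum.inr d) (flip S v) := by
  show (v.1, symmDiff v.2 (insert d S)) = (v.1, symmDiff (symmDiff v.2 S) {d})
  rw [symmDiff_assoc]
  congr 2
  ext x
  simp only [Finset.mem_insert, Finset.mem_symmDiff, Finset.mem_singleton]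
  by_cases hx : x = d
  · subst hx
    simp [h]
  · simp [hx]

theorem lmodel_phi_mem {D : Type} [DecidableEq D] (O : V D) (e e' : Dir D) (u : (Bool × Bool) × Finset D) (x : D) :
    x ∈ (phi (lam4 O e e') u).2 ↔ ((x ∈ O.2 ↔ (u.1.1 = true ∧ x ∈ fdir e)) ↔
      ((u.1.2 = true ∧ x ∈ fdir e') ↔ x ∉ u.2)) := by
  rw [lmodel_phi]
  rcases u with ⟨⟨a, b⟩, S⟩
  cases a <;> cases b <;> simp only [Finset.mem_symmDiff] <;> simp <;> tauto

theorem lmodel_phi_fst {D : Type} [DecidableEq D] (O : V D) (e e' : Dir D) (u : (Bool × Bool) × Finset D)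
    (i : Fin 4) : (phi (lam4 O e e') u).1 i = O.1 i + (if u.1.1 then lmodel_bs e i else 0) +
      (if u.1.2 then lmodel_bs e' i else 0) := by
  rw [lmodel_phi]
  rcases u with ⟨⟨a, b⟩, S⟩
  cases a <;> cases b <;> simp

theorem lmodel_bs_ne {D : Type} {e : Dir D} {i : Fin 4} (h : ax e ≠ Sum.inl i) : lmodel_bs e i = 0 := by
  rcases e with ⟨j, b⟩ | d
  · have hne : i ≠ j := fun hh => h (by rw [hh]; rfl)
    simp [lmodel_bs, hne]
  · rfl

theorem lmodel_bs_self {D : Type} (i : Fin 4) (b : Bool) :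
    lmodel_bs (Sum.inl (i, b) : Dir D) i = if b then 1 else -1 := by
  simp [lmodel_bs]

theorem lmodel_bs_abs {D : Type} (e : Dir D) (i : Fin 4) : |lmodel_bs e i| ≤ 1 := by
  rcases e with ⟨j, b⟩ | d
  · by_cases h : i = j
    · subst h
      rw [lmodel_bs_self]
      cases b <;> simp
    · rw [lmodel_bs_ne]
      · simp
      · intro hh
        exact h (Sum.inl.inj hh).symm
  · simp [lmodel_bs]

theorem lmodel_fdir_ne {D : Type} {e : Dir D} {d : D} (h : ax e ≠ Sum.inr d) : d ∉ fdir e := by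
  rcases e with ⟨j, b⟩ | d'
  · simp [fdir]
  · intro hd
    have : d = d' := by simpa [fdir] using hd
    exact h (by rw [this]; rfl)

/-- the two layer coordinates are determined -/
theorem lmodel_fst_bit (O : V D) {e e' : Dir D} (he : ax e ≠ ax e') {u u' : (Bool × Bool) × Finset D}
    (hu : u.2 ⊆ D0 e e') (hu' : u'.2 ⊆ D0 e e') (h : phi (lam4 O e e') u = phi (lam4 O e e') u') :
    u.1.1 = u'.1.1 := by
  rcases e with ⟨i, b⟩ | d
  · have h1 : (phi (lam4 O (Sum.inl (i, b)) e') u).1 i = (phi (lam4 O (Sum.inl (i, b)) e') u').1 i := by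
      rw [h]
    have h0 : lmodel_bs e' i = 0 := lmodel_bs_ne (fun hh => he hh.symm)
    rw [lmodel_phi_fst, lmodel_phi_fst, h0, lmodel_bs_self] at h1
    rcases u with ⟨⟨x, y⟩, S⟩
    rcases u' with ⟨⟨x', y'⟩, S'⟩
    cases x <;> cases x' <;> cases b <;> simp at h1 ⊢
  · have h1 : d ∈ (phi (lam4 O (Sum.inr d) e') u).2 ↔ d ∈ (phi (lam4 O (Sum.inr d) e') u').2 := by
      rw [h]
    have h0 : d ∉ fdir e' := lmodel_fdir_ne (fun hh => he hh.symm)
    have h2 : d ∈ fdir (Sum.inr d : Dir D) := by simp [fdir]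
    have h3 : d ∉ u.2 := by
      intro hd
      have := hu hd
      simp only [D0, Finset.mem_compl, Finset.mem_union, not_or] at this
      exact this.1 h2
    have h4 : d ∉ u'.2 := by
      intro hd
      have := hu' hd
      simp only [D0, Finset.mem_compl, Finset.mem_union, not_or] at this
      exact this.1 h2
    rw [lmodel_phi_mem, lmodel_phi_mem] at h1
    rcases u with ⟨⟨x, y⟩, S⟩
    rcases u' with ⟨⟨x', y'⟩, S'⟩
    simp only at h3 h4
    cases x <;> cases x' <;> simp [h0, h2, h3, h4] at h1 ⊢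

theorem lmodel_snd_bit (O : V D) {e e' : Dir D} (he : ax e ≠ ax e') {u u' : (Bool × Bool) × Finset D}
    (hu : u.2 ⊆ D0 e e') (hu' : u'.2 ⊆ D0 e e') (h : phi (lam4 O e e') u = phi (lam4 O e e') u') :
    u.1.2 = u'.1.2 := by
  rcases e' with ⟨i, b⟩ | d
  · have h1 : (phi (lam4 O e (Sum.inl (i, b))) u).1 i = (phi (lam4 O e (Sum.inl (i, b))) u').1 i := by
      rw [h]
    have h0 : lmodel_bs e i = 0 := lmodel_bs_ne he
    rw [lmodel_phi_fst, lmodel_phi_fst, h0, lmodel_bs_self] at h1
    rcases u with ⟨⟨x, y⟩, S⟩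
    rcases u' with ⟨⟨x', y'⟩, S'⟩
    cases y <;> cases y' <;> cases b <;> simp at h1 ⊢
  · have h1 : d ∈ (phi (lam4 O e (Sum.inr d)) u).2 ↔ d ∈ (phi (lam4 O e (Sum.inr d)) u').2 := by
      rw [h]
    have h0 : d ∉ fdir e := lmodel_fdir_ne he
    have h2 : d ∈ fdir (Sum.inr d : Dir D) := by simp [fdir]
    have h3 : d ∉ u.2 := by
      intro hd
      have := hu hd
      simp only [D0, Finset.mem_compl, Finset.mem_union, not_or] at this
      exact this.2 h2
    have h4 : d ∉ u'.2 := by
      intro hd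
      have := hu' hd
      simp only [D0, Finset.mem_compl, Finset.mem_union, not_or] at this
      exact this.2 h2
    rw [lmodel_phi_mem, lmodel_phi_mem] at h1
    rcases u with ⟨⟨x, y⟩, S⟩
    rcases u' with ⟨⟨x', y'⟩, S'⟩
    simp only at h3 h4
    cases y <;> cases y' <;> simp [h0, h2, h3, h4] at h1 ⊢

/-- `phi` is injective on the part with fibre coordinates in `D0` -/
theorem phi_inj (O : V D) {e e' : Dir D} (he : ax e ≠ ax e') {u u' : (Bool × Bool) × Finset D}
    (hu : u.2 ⊆ D0 e e') (hu' : u'.2 ⊆ D0 e e') (h : phi (lam4 O e e') u = phi (lam4 O e e') u') : u = u' := by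
  have h1 := lmodel_fst_bit O he hu hu' h
  have h2 := lmodel_snd_bit O he hu hu' h
  have h3 : (phi (lam4 O e e') u).2 = (phi (lam4 O e e') u').2 := by rw [h]
  rw [lmodel_phi, lmodel_phi] at h3
  simp only [h1, h2] at h3
  have h4 := symmDiff_right_injective _ h3
  exact Prod.ext (Prod.ext h1 h2) h4

/-- the law of the layered cube -/
theorem lcube_model {p : ℝ} {μ : Measure Ω} {W : Ω → SimpleGraph (V D)} (hM : MModel p μ W) (O : V D) {e e' : Dir D}
    (he : ax e ≠ ax e') :
    LCube plaq (D0 e e') p (marg μ (fun ω => (W ω).comap (phi (lam4 O e e'))))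
      (fun G : SimpleGraph ((Bool × Bool) × Finset D) => G) := by
  have := hM.prob
  have hmeas : ∀ a b, MeasurableSet {ω | ((W ω).comap (phi (lam4 O e e'))).Adj a b} := by
    intro a b
    exact hM.meas _ _
  have hedge : ∀ (v : V D) (d : Dir D), p ≤ μ.real {ω | (W ω).Adj (mv d v) v} := by
    intro v d
    have h := hM.edge v d
    have h2 : {ω | (W ω).Adj (mv d v) v} = {ω | (W ω).Adj v (mv d v)} := by
      ext ω
      exact (W ω).adj_comm _ _
    rw [h2]
    exact h
  refine ⟨?_, ?_, ?_, ?_⟩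
  · exact marg_law μ _ hmeas
  · intro A B hAB hA hB U U' hU hU'
    have h1 := marg_pr μ _ hmeas {G | G ∈ U ∧ G ∈ U'}
    have h2 := marg_pr μ _ hmeas {G | G ∈ U}
    have h3 := marg_pr μ _ hmeas {G | G ∈ U'}
    rw [h1, h2, h3]
    have hle : ∀ C : Set ((Bool × Bool) × Finset D),
        sigV (fun ω => (W ω).comap (phi (lam4 O e e'))) C ≤ sigV W (phi (lam4 O e e') '' C) := by
      intro C
      refine MeasurableSpace.generateFrom_mono ?_
      rintro U ⟨a, ha, b, hb, rfl⟩
      exact ⟨_, ⟨a, ha, rfl⟩, _, ⟨b, hb, rfl⟩, rfl⟩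
    have hd : Disjoint (phi (lam4 O e e') '' A) (phi (lam4 O e e') '' B) := by
      rw [Set.disjoint_left]
      rintro v ⟨a, ha, rfl⟩ ⟨b, hb, hab⟩
      have := phi_inj O he (hB b hb) (hA a ha) hab
      exact Set.disjoint_left.1 hAB ha (this ▸ hb)
    have h4 := (Indep_iff _ _ μ).1 (hM.indep _ _ hd) _ _ (hle A _ (measurableSet_of_depOn _ hU))
      (hle B _ (measurableSet_of_depOn _ hU'))
    have h5 : {ω | (W ω).comap (phi (lam4 O e e')) ∈ {G | G ∈ U ∧ G ∈ U'}} =
        {ω | (W ω).comap (phi (lam4 O e e')) ∈ U} ∩ {ω | (W ω).comap (phi (lam4 O e e')) ∈ U'} := rfl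
    rw [h5]
    simp only [Measure.real, h4, ENNReal.toReal_mul]
    rfl
  · intro i S d _ hd
    rw [marg_pr μ _ hmeas {G | G.Adj (i, S) (i, insert d S)}]
    have h1 : phi (lam4 O e e') (i, insert d S) = mv (Sum.inr d) (phi (lam4 O e e') (i, S)) :=
      lmodel_flip_insert hd _
    have h2 : {ω | (W ω).comap (phi (lam4 O e e')) ∈
        {G : SimpleGraph ((Bool × Bool) × Finset D) | G.Adj (i, S) (i, insert d S)}} =
        {ω | (W ω).Adj (phi (lam4 O e e') (i, S)) (mv (Sum.inr d) (phi (lam4 O e e') (i, S)))} := by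
      ext ω
      show (W ω).Adj (phi (lam4 O e e') (i, S)) (phi (lam4 O e e') (i, insert d S)) ↔ _
      rw [h1]
      rfl
    rw [h2]
    exact hM.edge _ _
  · intro i i' S hii _
    rw [marg_pr μ _ hmeas {G | G.Adj (i, S) (i', S)}]
    have h1 : ∃ g : Dir D, phi (lam4 O e e') (i', S) = mv g (phi (lam4 O e e') (i, S)) ∨
        phi (lam4 O e e') (i, S) = mv g (phi (lam4 O e e') (i', S)) := by
      rcases i with ⟨x, y⟩
      rcases i' with ⟨x', y'⟩
      rcases hii with ⟨h1, h2⟩ | ⟨h1, h2⟩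
      · simp only at h1 h2
        subst h1
        refine ⟨e', ?_⟩
        cases y <;> cases y' <;> simp at h2
        · left
          simp only [phi, lam4]
          rw [← lmodel_flip_mv]
          simp
        · right
          simp only [phi, lam4]
          rw [← lmodel_flip_mv]
          simp
      · simp only at h1 h2
        subst h2
        refine ⟨e, ?_⟩
        cases x <;> cases x' <;> simp at h1
        · left
          simp only [phi, lam4]
          rw [← lmodel_flip_mv]
          cases y <;> simp [lmodel_mv_mv]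
        · right
          simp only [phi, lam4]
          rw [← lmodel_flip_mv]
          cases y <;> simp [lmodel_mv_mv]
    obtain ⟨g, h1 | h1⟩ := h1
    · have h2 : {ω | (W ω).comap (phi (lam4 O e e')) ∈
          {G : SimpleGraph ((Bool × Bool) × Finset D) | G.Adj (i, S) (i', S)}} =
          {ω | (W ω).Adj (phi (lam4 O e e') (i, S)) (mv g (phi (lam4 O e e') (i, S)))} := by
        ext ω
        show (W ω).Adj (phi (lam4 O e e') (i, S)) (phi (lam4 O e e') (i', S)) ↔ _
        rw [h1]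
        rfl
      rw [h2]
      exact hM.edge _ _
    · have h2 : {ω | (W ω).comap (phi (lam4 O e e')) ∈
          {G : SimpleGraph ((Bool × Bool) × Finset D) | G.Adj (i, S) (i', S)}} =
          {ω | (W ω).Adj (mv g (phi (lam4 O e e') (i', S))) (phi (lam4 O e e') (i', S))} := by
        ext ω
        show (W ω).Adj (phi (lam4 O e e') (i, S)) (phi (lam4 O e e') (i', S)) ↔ _
        rw [h1]
        rfl
      rw [h2]
      exact hedge _ _

/-- failure event: dependence, probability, region -/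
theorem depOn_FailV (ε e₁ : ℝ) (μ : Measure Ω) (W : Ω → SimpleGraph (V D)) (O : V D) (e e' : Dir D) (ι : Fin n → D)
    (T : Finset D) : DepOn (regV O e e' ι T) (FailV ε e₁ μ W O e e' ι T) := by
  by_cases h : ∃ U P, TypV ε e₁ μ W O e e' ι T U P
  · obtain ⟨hι, hsub, _⟩ := typV_UU h
    have hU : DepOn (Set.univ : Set (LV (Bool × Bool) (Fin n)))
        {G | ¬ Nice plaq (1 / 1000) (UU ε e₁ μ W O e e' ι T) G} := by
      intro G H hGH
      have : G = H := by
        ext a b
        exact hGH a (Set.mem_univ a) b (Set.mem_univ b)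
      rw [this]
    have h1 := depOn_derL (x := (xL ι : LV (Bool × Bool) (Fin n) → (Bool × Bool) × Finset D))
      (R := farL ι T) hU
    have h2 : ∀ u : (Bool × Bool) × Finset D, u ∈ farL ι T ∪
        (xL ι : LV (Bool × Bool) (Fin n) → (Bool × Bool) × Finset D) '' Set.univ →
        phi (lam4 O e e') u ∈ regV O e e' ι T := by
      rintro u (hu | ⟨s, _, rfl⟩)
      · exact ⟨hsub, u, hu.1, hu.2.2, rfl⟩
      · refine ⟨hsub, _, (xL_sub ι s).trans Finset.subset_union_left, ?_, rfl⟩
        rcases s with a | i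
        · show n ≤ ((vsL ι).erase (ι a.2)).card + 1
          rw [Finset.card_erase_of_mem (mem_vsL ι a.2), card_vsL hι]
          omega
        · show n ≤ (vsL ι).card + 1
          rw [card_vsL hι]
          omega
    intro G H hGH
    have h3 := h1 (G.comap (phi (lam4 O e e'))) (H.comap (phi (lam4 O e e')))
      (fun a ha b hb => hGH _ (h2 a ha) _ (h2 b hb))
    exact and_congr_right fun _ => h3
  · intro G H _
    exact ⟨fun hG => absurd hG.1 h, fun hH => absurd hH.1 h⟩

theorem prob_FailV {ε e₁ : ℝ} (he₁ : 0 ≤ e₁) (μ : Measure Ω) (W : Ω → SimpleGraph (V D)) (O : V D) (e e' : Dir D)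
    (ι : Fin n → D) (T : Finset D) : μ.real {ω | W ω ∈ FailV ε e₁ μ W O e e' ι T} ≤ e₁ := by
  by_cases h : ∃ U P, TypV ε e₁ μ W O e e' ι T U P
  · have h1 := (typV_UU h).2.2.nice
    have h2 : {ω | W ω ∈ FailV ε e₁ μ W O e e' ι T} = {ω | starV (lam4 O e e') ι T (W ω) ∈
        {G | ¬ Nice plaq (1 / 1000) (UU ε e₁ μ W O e e' ι T) G}} := by
      ext ω
      exact ⟨fun hω => hω.2, fun hω => ⟨h, hω⟩⟩
    rw [h2]
    exact h1
  · have h2 : {ω | W ω ∈ FailV ε e₁ μ W O e e' ι T} = ∅ := by
      ext ω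
      exact ⟨fun hω => absurd hω.1 h, fun hω => absurd hω (Set.notMem_empty ω)⟩
    rw [h2]
    simpa using he₁

theorem regV_finite (O : V D) (e e' : Dir D) (ι : Fin n → D) (T : Finset D) : (regV O e e' ι T).Finite := by
  refine (Set.finite_range (phi (lam4 O e e'))).subset ?_
  rintro v ⟨_, u, _, _, rfl⟩
  exact ⟨u, rfl⟩

theorem regV_near (O : V D) {e e' : Dir D} (he : ax e ≠ ax e') (ι : Fin n → D) (T : Finset D) {v : V D}
    (hv : v ∈ regV O e e' ι T) (i : Fin 4) : |v.1 i - O.1 i| ≤ 1 := by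
  obtain ⟨_, u, _, _, rfl⟩ := hv
  rw [lmodel_phi_fst]
  have h1 := lmodel_bs_abs e i
  have h2 := lmodel_bs_abs e' i
  have h3 : lmodel_bs e i = 0 ∨ lmodel_bs e' i = 0 := by
    by_cases h : ax e = Sum.inl i
    · right
      exact lmodel_bs_ne (fun hh => he (h.trans hh.symm))
    · left
      exact lmodel_bs_ne h
  rcases u with ⟨⟨x, y⟩, S⟩
  cases x <;> cases y <;> rcases h3 with h3 | h3 <;> simp [h3] <;> assumption

theorem regV_disjoint (O : V D) {e e' : Dir D} (he : ax e ≠ ax e') {ι ι' : Fin n → D} {T T' : Finset D} (hn : 3 ≤ n)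
    (h : ((vsL ι ∪ T) ∩ (vsL ι' ∪ T')).card ≤ 1) : Disjoint (regV O e e' ι T) (regV O e e' ι' T') := by
  rw [Set.disjoint_left]
  rintro v ⟨hs, u, hu, hn1, rfl⟩ ⟨hs', u', hu', hn2, huv⟩
  have h1 : u = u' := phi_inj O he (hu.trans hs) (hu'.trans hs') huv
  subst h1
  have h2 := Finset.card_le_card (Finset.subset_inter hu hu')
  omega

end

end Pool.Agent.LP
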