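import Pool.Agent.LP.LSat
import Pool.Agent.OIP.Samp

/-!
# LP: typical stars of the layered cube have near star laws

Port of `OIP.FNear` (`fiber_near`), with the average over the scales `t < I` instead of one good scale, general layers
`Λ`, and a layered cube law which is 1-independent only on `{(i, S) : S ⊆ D0}`, where `D0` misses at most two elements.

`lnear_point` (port of `fnear_point`; regions inside `D0`): if the far sets `T0, T1, T2 ⊆ T`, `T1`, `T2` disjoint,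
`vsL ι ∪ T ⊆ D0` and the total error is at most `η / 8`, then the derived star for `T0` is `NearL η`.

`near_typ`: for each `t < I` choose `T1 t`, `T2 t` with `2 L 4^t` elements such that `T0 t, T1 t, T2 t, vsL ι` are
disjoint; `S t = T0 t ∪ T1 t ∪ T2 t` has `3 * 2 L 4^t ≤ 2 L 4^(t+1)` elements.  The total error
`Err t σ = sum of the increments for T0, T1, T2 ⊆ S t + sum of the probabilities of badL for T0 t` has average (over
`t < I` and `σ`) at most `3 |Λ|² n² / I + |Λ|² n² * 2 / (L + 1)`; by Markov it is at most `η / 8` for all but a fraction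
`η / 2` of the `(t, σ)`.  The fraction of the `σ` with `vsL (σ ∘ ι) ∪ (S t).image σ ⊄ D0` is at most
`2 * (n + 2 L 4^I) / |D| ≤ η / 2` (for `d ∉ D0` and a position `x` the fraction of the `σ` with `σ x = d` is `1/|D|`).
-/

set_option autoImplicit false

open Finset
open scoped Classical

namespace Pool.Agent.LP

open Pool.Agent.OIP

theorem lnear_avg_sub {X : Type*} [Fintype X] (F F' : X → ℝ) :
    avg (fun x => F x - F' x) = avg F - avg F' := by
  unfold avg
  rw [Finset.sum_sub_distrib, sub_div]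

/-- total increase of the edge probabilities when the far region grows from `T` to `T'` -/
noncomputable def lnear_diff {Λ D : Type} [Fintype Λ] [Fintype D] [DecidableEq D] {Ω : Type} [Fintype Ω]
    {n : ℕ} (w : Ω → ℝ) (W : Ω → SimpleGraph (Λ × Finset D)) (ι : Fin n → D) (T T' : Finset D) : ℝ :=
  ∑ y ∈ (Finset.univ : Finset ((Λ × Fin n) × (Λ × Fin n))).filter (fun y => y.1.2 ≠ y.2.2),
    (pr w {ω | (starC ι T' (W ω)).Adj (leaf y.1) (leaf y.2)} -
      pr w {ω | (starC ι T (W ω)).Adj (leaf y.1) (leaf y.2)})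

/-- total probability of the bad events of `lclique_avg` -/
noncomputable def lnear_bad {Λ D : Type} [Fintype Λ] [Fintype D] [DecidableEq D] {Ω : Type} [Fintype Ω]
    {n : ℕ} (w : Ω → ℝ) (W : Ω → SimpleGraph (Λ × Finset D)) (ι : Fin n → D) (T : Finset D) : ℝ :=
  ∑ z ∈ (Finset.univ : Finset ((Λ × Λ) × (Fin n × Fin n))).filter (fun z => z.2.1 ≠ z.2.2),
    pr w {ω | badL (W ω) ι T z.1.1 z.1.2 z.2.1 z.2.2}

section point

variable {Λ D : Type} [Fintype Λ] [Fintype D] [DecidableEq D] {Ω : Type} [Fintype Ω] {n : ℕ}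
  {w : Ω → ℝ}

theorem lnear_diff_nonneg (hw : IsLaw w) (W : Ω → SimpleGraph (Λ × Finset D)) (ι : Fin n → D)
    {T T' : Finset D} (hT : T ⊆ T') : 0 ≤ lnear_diff w W ι T T' := by
  refine Finset.sum_nonneg fun y _ => ?_
  rw [sub_nonneg]
  refine pr_mono hw fun ω hω => ?_
  have h1 : (derL (xL ι) (farL ι T) (W ω)).Adj (leaf y.1) (leaf y.2) := hω
  have h2 : (derL (xL ι) (farL ι T') (W ω)).Adj (leaf y.1) (leaf y.2) :=
    derL_mono (farL_mono ι hT) (W ω) h1
  exact h2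

theorem lnear_bad_nonneg (hw : IsLaw w) (W : Ω → SimpleGraph (Λ × Finset D)) (ι : Fin n → D)
    (T : Finset D) : 0 ≤ lnear_bad w W ι T :=
  Finset.sum_nonneg fun _ _ => pr_nonneg hw _

theorem lnear_bad_le (hw : IsLaw w) (W : Ω → SimpleGraph (Λ × Finset D)) (ι : Fin n → D)
    (T : Finset D) (i i' : Λ) {j k : Fin n} (hjk : j ≠ k) :
    pr w {ω | badL (W ω) ι T i i' j k} ≤ lnear_bad w W ι T :=
  Finset.single_le_sum (f := fun z : (Λ × Λ) × (Fin n × Fin n) =>
      pr w {ω | badL (W ω) ι T z.1.1 z.1.2 z.2.1 z.2.2})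
    (fun _ _ => pr_nonneg hw _)
    (Finset.mem_filter.2 ⟨Finset.mem_univ ((i, i'), (j, k)), hjk⟩)

omit [Fintype Λ] [Fintype D] in
theorem lnear_hubs {ι : Fin n → D} {R : Set (Λ × Finset D)} {G : SimpleGraph (Λ × Finset D)}
    {i i' : Λ} (h : Cn (derL (xL ι) R G) (Set.range Sum.inr) (hub i) (hub i')) :
    Cn G {u | u.2 = vsL ι} (i, vsL ι) (i', vsL ι) := by
  have key : ∀ s : LV Λ (Fin n), Cn (derL (xL ι) R G) (Set.range Sum.inr) (hub i) s →
      s = hub i ∨ ∃ l, s = hub l ∧ Cn G {u | u.2 = vsL ι} (i, vsL ι) (l, vsL ι) := by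
    intro s hs
    unfold Cn at hs
    induction hs with
    | refl => exact Or.inl rfl
    | @tail b c _ hbc ih =>
      obtain ⟨hadj, hb, l, hl⟩ := hbc
      subst hl
      right
      refine ⟨l, rfl, ?_⟩
      have hcase : ∃ l', b = hub l' ∧ Cn G {u | u.2 = vsL ι} (i, vsL ι) (l', vsL ι) := by
        rcases ih with rfl | ih
        · exact ⟨i, rfl, Cn.refl _ _ _⟩
        · exact ih
      obtain ⟨l', rfl, hl'⟩ := hcase
      have h1 : G.Adj (l', vsL ι) (l, vsL ι) := hadj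
      exact hl'.trans (Cn.of_adj h1 rfl rfl)
  rcases key _ h with h1 | ⟨l, h1, h2⟩
  · have : i' = i := Sum.inr_injective h1
    rw [this]
    exact Cn.refl _ _ _
  · have : i' = l := Sum.inr_injective h1
    rw [this]
    exact h2

/-- small total error implies an approximate layered star law -/
theorem lnear_point {η : ℝ} (hη : 0 < η) {W : Ω → SimpleGraph (Λ × Finset D)} {L : SimpleGraph Λ}
    {D0 : Finset D} {p : ℝ} (h : LCube L D0 p w W) {ι : Fin n → D} (hι : Function.Injective ι)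
    {T0 T1 T2 T : Finset D} (h0 : T0 ⊆ T) (h1 : T1 ⊆ T) (h2 : T2 ⊆ T) (h12 : Disjoint T1 T2)
    (hD : vsL ι ∪ T ⊆ D0)
    (hE : lnear_diff w W ι T0 T + lnear_diff w W ι T1 T + lnear_diff w W ι T2 T + lnear_bad w W ι T0
      ≤ η / 8) : NearL L η p w (fun ω => starC ι T0 (W ω)) := by
  have hw := h.law
  have d0 := lnear_diff_nonneg hw W ι h0
  have d1 := lnear_diff_nonneg hw W ι h1
  have d2 := lnear_diff_nonneg hw W ι h2
  have b0 := lnear_bad_nonneg hw W ι T0
  have hv : vsL ι ⊆ D0 := Finset.subset_union_left.trans hD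
  have hsub : ∀ {T' : Finset D}, T' ⊆ T → vsL ι ∪ T' ⊆ D0 := fun hT' =>
    (Finset.union_subset_union_right hT').trans hD
  have e0 : pr w {ω | derL (xL ι) (farL ι T0) (W ω) ≠ derL (xL ι) (farL ι T) (W ω)} ≤
      lnear_diff w W ι T0 T := pr_derL_ne_le hw W (farL_mono ι h0)
  have e1 : pr w {ω | derL (xL ι) (farL ι T1) (W ω) ≠ derL (xL ι) (farL ι T) (W ω)} ≤
      lnear_diff w W ι T1 T := pr_derL_ne_le hw W (farL_mono ι h1)
  have e2 : pr w {ω | derL (xL ι) (farL ι T2) (W ω) ≠ derL (xL ι) (farL ι T) (W ω)} ≤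
      lnear_diff w W ι T2 T := pr_derL_ne_le hw W (farL_mono ι h2)
  have c1 : pr w {ω | derL (xL ι) (farL ι T0) (W ω) ≠ derL (xL ι) (farL ι T1) (W ω)} ≤ η / 8 := by
    have : pr w {ω | derL (xL ι) (farL ι T0) (W ω) ≠ derL (xL ι) (farL ι T1) (W ω)} ≤
        pr w ({ω | derL (xL ι) (farL ι T0) (W ω) ≠ derL (xL ι) (farL ι T) (W ω)} ∪
          {ω | derL (xL ι) (farL ι T1) (W ω) ≠ derL (xL ι) (farL ι T) (W ω)}) := by
      refine pr_mono hw fun ω hω => ?_
      by_contra hcon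
      rw [Set.mem_union, not_or] at hcon
      simp only [Set.mem_ofPred_eq, not_not] at hcon
      exact hω (hcon.1.trans hcon.2.symm)
    have h' := pr_union_le hw {ω | derL (xL ι) (farL ι T0) (W ω) ≠ derL (xL ι) (farL ι T) (W ω)}
      {ω | derL (xL ι) (farL ι T1) (W ω) ≠ derL (xL ι) (farL ι T) (W ω)}
    linarith
  have c2 : pr w {ω | derL (xL ι) (farL ι T0) (W ω) ≠ derL (xL ι) (farL ι T2) (W ω)} ≤ η / 8 := by
    have : pr w {ω | derL (xL ι) (farL ι T0) (W ω) ≠ derL (xL ι) (farL ι T2) (W ω)} ≤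
        pr w ({ω | derL (xL ι) (farL ι T0) (W ω) ≠ derL (xL ι) (farL ι T) (W ω)} ∪
          {ω | derL (xL ι) (farL ι T2) (W ω) ≠ derL (xL ι) (farL ι T) (W ω)}) := by
      refine pr_mono hw fun ω hω => ?_
      by_contra hcon
      rw [Set.mem_union, not_or] at hcon
      simp only [Set.mem_ofPred_eq, not_not] at hcon
      exact hω (hcon.1.trans hcon.2.symm)
    have h' := pr_union_le hw {ω | derL (xL ι) (farL ι T0) (W ω) ≠ derL (xL ι) (farL ι T) (W ω)}
      {ω | derL (xL ι) (farL ι T2) (W ω) ≠ derL (xL ι) (farL ι T) (W ω)}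
    linarith
  refine ⟨hw, ?_, ?_, ?_, ?_, ?_⟩
  · intro A B hAB U U' hU hU'
    have := near_indepL hw ({u | u.2 ⊆ D0} : Set (Λ × Finset D))
      (fun A B hAB hA hB U U' hU hU' => h.indep A B hAB (fun u hu => hA hu) (fun u hu => hB hu)
        U U' hU hU')
      (xL_injective hι) (R0 := farL ι T0) (farL_disjoint ι h12)
      (farL_disjoint_range ι T1) (farL_disjoint_range ι T2) (farL_sub ι T1 (hsub h1))
      (farL_sub ι T2 (hsub h2)) (fun s => (xL_sub ι s).trans hv) c1 c2 hAB hU hU'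
    refine this.trans ?_
    linarith
  · intro i k
    exact cube_hubEdge h hv _ i k
  · intro i i' hi k
    exact cube_vert h hv _ i i' k hi
  · intro i i' hi
    exact cube_hubVert h hv _ i i' hi
  · intro i i' j k hjk
    have hb := lnear_bad_le hw W ι T0 i i' hjk
    refine le_trans (pr_mono hw ?_) (hb.trans (by linarith))
    intro ω hω
    obtain ⟨g1, g2, g3, g4⟩ := hω
    have g4' : ¬ (derL (xL ι) (farL ι T0) (W ω)).Adj (leaf (i, j)) (leaf (i', k)) := g4
    rw [derL_adj_leaf (by exact hjk)] at g4'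
    exact ⟨g1, lnear_hubs g2, g3, g4'⟩

end point

theorem lnear_avg_diff {Λ : Type} [Fintype Λ] {n : ℕ} (M I : ℕ) (hM : 1 ≤ M) {D : Type} [Fintype D]
    [DecidableEq D] (hD : M * 4 ^ I + n ≤ Fintype.card D) {Ω : Type} [Fintype Ω] {w : Ω → ℝ}
    (hw : IsLaw w) (W : Ω → SimpleGraph (Λ × Finset D)) (ι : Fin n → D) (P S : ℕ → Finset D)
    (hP : ∀ t < I, Disjoint (P t) (vsL ι) ∧ (P t).card = M * 4 ^ t)
    (hS : ∀ t < I, Disjoint (S t) (vsL ι) ∧ (S t).card ≤ M * 4 ^ (t + 1)) :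
    ∑ t ∈ Finset.range I, avg (fun σ : Equiv.Perm D =>
      lnear_diff w W (σ ∘ ι) ((P t).image σ) ((S t).image σ)) ≤ (Fintype.card Λ : ℝ) ^ 2 * (n : ℝ) ^ 2 := by
  unfold lnear_diff
  have h1 : ∀ t ∈ Finset.range I, avg (fun σ : Equiv.Perm D =>
      ∑ y ∈ (Finset.univ : Finset ((Λ × Fin n) × (Λ × Fin n))).filter (fun y => y.1.2 ≠ y.2.2),
      (pr w {ω | (starC (σ ∘ ι) ((S t).image σ) (W ω)).Adj (leaf y.1) (leaf y.2)} -
      pr w {ω | (starC (σ ∘ ι) ((P t).image σ) (W ω)).Adj (leaf y.1) (leaf y.2)})) =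
      ∑ y ∈ (Finset.univ : Finset ((Λ × Fin n) × (Λ × Fin n))).filter (fun y => y.1.2 ≠ y.2.2),
        (avg (fun σ : Equiv.Perm D =>
          pr w {ω | (starC (σ ∘ ι) ((S t).image σ) (W ω)).Adj (leaf y.1) (leaf y.2)}) -
        avg (fun σ : Equiv.Perm D =>
          pr w {ω | (starC (σ ∘ ι) ((P t).image σ) (W ω)).Adj (leaf y.1) (leaf y.2)})) := by
    intro t _
    rw [avg_sum]
    exact Finset.sum_congr rfl fun y _ => lnear_avg_sub _ _
  rw [Finset.sum_congr rfl h1, Finset.sum_comm]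
  have h2 : ∀ y ∈ (Finset.univ : Finset ((Λ × Fin n) × (Λ × Fin n))).filter (fun y => y.1.2 ≠ y.2.2),
      ∑ t ∈ Finset.range I, (avg (fun σ : Equiv.Perm D =>
          pr w {ω | (starC (σ ∘ ι) ((S t).image σ) (W ω)).Adj (leaf y.1) (leaf y.2)}) -
        avg (fun σ : Equiv.Perm D =>
          pr w {ω | (starC (σ ∘ ι) ((P t).image σ) (W ω)).Adj (leaf y.1) (leaf y.2)})) ≤ 1 :=
    fun y _ => lsat M I hM hD hw W ι y.1 y.2 P S hP hS
  refine (Finset.sum_le_card_nsmul _ _ _ h2).trans ?_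
  rw [nsmul_eq_mul, mul_one]
  have h3 : ((Finset.univ : Finset ((Λ × Fin n) × (Λ × Fin n))).filter
      (fun y => y.1.2 ≠ y.2.2)).card ≤ Fintype.card Λ ^ 2 * n ^ 2 := by
    refine (Finset.card_filter_le _ _).trans (le_of_eq ?_)
    rw [Finset.card_univ, Fintype.card_prod, Fintype.card_prod, Fintype.card_fin]
    ring
  exact_mod_cast h3

theorem lnear_avg_bad {Λ : Type} [Fintype Λ] {n : ℕ} (Lc : ℕ) {D : Type} [Fintype D]
    [DecidableEq D] {Ω : Type} [Fintype Ω] {w : Ω → ℝ}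
    (hw : IsLaw w) (W : Ω → SimpleGraph (Λ × Finset D)) {ι : Fin n → D} (hι : Function.Injective ι)
    (T : Finset D) (hT : Disjoint T (vsL ι)) (hL : 2 * Lc ≤ T.card) :
    avg (fun σ : Equiv.Perm D => lnear_bad w W (σ ∘ ι) (T.image σ)) ≤
      (Fintype.card Λ : ℝ) ^ 2 * (n : ℝ) ^ 2 * (2 / ((Lc : ℝ) + 1)) := by
  unfold lnear_bad
  rw [avg_sum]
  have hterm : ∀ z ∈ (Finset.univ : Finset ((Λ × Λ) × (Fin n × Fin n))).filter
      (fun z => z.2.1 ≠ z.2.2), avg (fun σ : Equiv.Perm D =>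
        pr w {ω | badL (W ω) (σ ∘ ι) (T.image σ) z.1.1 z.1.2 z.2.1 z.2.2}) ≤ 2 / ((Lc : ℝ) + 1) := by
    intro z hz
    rw [Finset.mem_filter] at hz
    exact avg_pr_le hw (fun (σ : Equiv.Perm D) ω =>
      badL (W ω) (σ ∘ ι) (T.image σ) z.1.1 z.1.2 z.2.1 z.2.2) _
      fun ω => lclique_avg (W ω) hι T hT Lc hL z.1.1 z.1.2 z.2.1 z.2.2 hz.2
  refine (Finset.sum_le_card_nsmul _ _ _ hterm).trans ?_
  rw [nsmul_eq_mul]
  refine mul_le_mul_of_nonneg_right ?_ (by positivity)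
  have h3 : ((Finset.univ : Finset ((Λ × Λ) × (Fin n × Fin n))).filter
      (fun z => z.2.1 ≠ z.2.2)).card ≤ Fintype.card Λ ^ 2 * n ^ 2 := by
    refine (Finset.card_filter_le _ _).trans (le_of_eq ?_)
    rw [Finset.card_univ, Fintype.card_prod, Fintype.card_prod, Fintype.card_prod, Fintype.card_fin]
    ring
  exact_mod_cast h3

/-- a random image is rarely not contained in `D0` -/
theorem lnear_avg_out {D : Type} [Fintype D] [DecidableEq D] (D0 F : Finset D)
    (hD0 : D0ᶜ.card ≤ 2) :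
    avg (fun σ : Equiv.Perm D => ind (¬ F.image σ ⊆ D0)) ≤ F.card * (2 / (Fintype.card D : ℝ)) := by
  have h1 : ∀ σ : Equiv.Perm D, ind (¬ F.image σ ⊆ D0) ≤ ∑ x ∈ F, ind (σ x ∈ D0ᶜ) := by
    intro σ
    by_cases h : F.image σ ⊆ D0
    · have : ind (¬ F.image σ ⊆ D0) = 0 := by
        unfold ind
        rw [if_neg (not_not.2 h)]
      rw [this]
      exact Finset.sum_nonneg fun _ _ => ind_nonneg _
    · obtain ⟨y, hy, hy'⟩ := Finset.not_subset.1 h
      obtain ⟨x, hx, rfl⟩ := Finset.mem_image.1 hy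
      have h2 : ind (σ x ∈ D0ᶜ) ≤ ∑ x ∈ F, ind (σ x ∈ D0ᶜ) :=
        Finset.single_le_sum (f := fun x => ind (σ x ∈ D0ᶜ)) (fun _ _ => ind_nonneg _) hx
      have h3 : ind (σ x ∈ D0ᶜ) = 1 := by
        unfold ind
        rw [if_pos (Finset.mem_compl.2 hy')]
      rw [h3] at h2
      exact (ind_le_one _).trans h2
  refine (avg_mono h1).trans ?_
  rw [avg_sum]
  have h4 : ∀ x ∈ F, avg (fun σ : Equiv.Perm D => ind (σ x ∈ D0ᶜ)) ≤ 2 / (Fintype.card D : ℝ) := by
    intro x _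
    rw [avg_perm_one x (fun y => ind (y ∈ D0ᶜ))]
    refine div_le_div_of_nonneg_right ?_ (Nat.cast_nonneg _)
    have h5 : ∑ y : D, ind (y ∈ D0ᶜ) = (D0ᶜ.card : ℝ) := by
      have h6 : ∑ y ∈ D0ᶜ, ind (y ∈ D0ᶜ) = ∑ y : D, ind (y ∈ D0ᶜ) :=
        Finset.sum_subset (Finset.subset_univ _) fun y _ hy => by
          unfold ind
          rw [if_neg hy]
      have h7 : ∀ y ∈ D0ᶜ, ind (y ∈ D0ᶜ) = 1 := fun y hy => by
        unfold ind
        rw [if_pos hy]
      rw [← h6, Finset.sum_congr rfl h7, Finset.sum_const, nsmul_eq_mul, mul_one]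
    rw [h5]
    exact_mod_cast hD0
  refine (Finset.sum_le_card_nsmul _ _ _ h4).trans (le_of_eq ?_)
  rw [nsmul_eq_mul]

theorem near_typ (Λ : Type) [Fintype Λ] [DecidableEq Λ] (n : ℕ) (η : ℝ) (hη : 0 < η) :
    ∃ M I N₀ : ℕ, 1 ≤ M ∧ 1 ≤ I ∧ ∀ (D : Type) [Fintype D] [DecidableEq D], N₀ ≤ Fintype.card D →
    ∀ (D0 : Finset D), D0ᶜ.card ≤ 2 → ∀ (Ω : Type) [Fintype Ω] (w : Ω → ℝ) (W : Ω → SimpleGraph (Λ × Finset D))
      (L : SimpleGraph Λ) (p : ℝ), LCube L D0 p w W → ∀ ι : Fin n → D, Function.Injective ι →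
    ∀ T : ℕ → Finset D, (∀ t < I, Disjoint (T t) (vsL ι) ∧ (T t).card = M * 4 ^ t) →
    avg (fun t : Fin I => avg (fun σ : Equiv.Perm D => ind (¬ (vsL (σ ∘ ι) ∪ (T t).image σ ⊆ D0 ∧
      NearL L η p w (fun ω => starC (σ ∘ ι) ((T t).image σ) (W ω)))))) ≤ η := by
  obtain ⟨q, hq⟩ : ∃ q : ℝ, q = (Fintype.card Λ : ℝ) ^ 2 * (n : ℝ) ^ 2 := ⟨_, rfl⟩
  have hq0 : 0 ≤ q := by rw [hq]; positivity
  obtain ⟨I, hI⟩ := exists_nat_gt (max 1 (96 * q / η ^ 2))
  obtain ⟨Lc, hLc⟩ := exists_nat_gt (max 1 (64 * q / η ^ 2))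
  have hη2 : (0 : ℝ) < η ^ 2 := by positivity
  have hI1 : (1 : ℝ) < I := lt_of_le_of_lt (le_max_left _ _) hI
  have hL1 : (1 : ℝ) < Lc := lt_of_le_of_lt (le_max_left _ _) hLc
  have hI1' : 1 ≤ I := by
    have : (1 : ℕ) < I := by exact_mod_cast hI1
    omega
  have hL1' : 1 ≤ Lc := by
    have : (1 : ℕ) < Lc := by exact_mod_cast hL1
    omega
  have hIb : 3 * q / I ≤ η ^ 2 / 32 := by
    have h1 : 96 * q / η ^ 2 < I := lt_of_le_of_lt (le_max_right _ _) hI
    rw [div_lt_iff₀ hη2] at h1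
    rw [div_le_div_iff₀ (by linarith) (by norm_num)]
    linarith
  have hLb : q * (2 / ((Lc : ℝ) + 1)) ≤ η ^ 2 / 32 := by
    have h1 : 64 * q / η ^ 2 < Lc := lt_of_le_of_lt (le_max_right _ _) hLc
    rw [div_lt_iff₀ hη2] at h1
    rw [mul_div_assoc', div_le_div_iff₀ (by linarith) (by norm_num)]
    nlinarith
  obtain ⟨M, hM⟩ : ∃ M : ℕ, M = 2 * Lc := ⟨_, rfl⟩
  have hM1 : 1 ≤ M := by omega
  obtain ⟨N₀, hN₀⟩ := exists_nat_gt (max ((M * 4 ^ I + n : ℕ) : ℝ)
    (4 * ((M * 4 ^ I + n : ℕ) : ℝ) / η))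
  refine ⟨M, I, N₀, hM1, hI1', ?_⟩
  intro D _ _ hDN D0 hD0 Ω _ w W L p h ι hι T hT
  have hw := h.law
  have hDr : (N₀ : ℝ) ≤ (Fintype.card D : ℝ) := by exact_mod_cast hDN
  have hD : M * 4 ^ I + n ≤ Fintype.card D := by
    have h1 : ((M * 4 ^ I + n : ℕ) : ℝ) < (Fintype.card D : ℝ) :=
      (lt_of_le_of_lt (le_max_left _ _) hN₀).trans_le hDr
    have h2 : M * 4 ^ I + n < Fintype.card D := by exact_mod_cast h1
    omega
  have hDpos : (0 : ℝ) < (Fintype.card D : ℝ) := by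
    have h1 : ((M * 4 ^ I + n : ℕ) : ℝ) < (Fintype.card D : ℝ) :=
      (lt_of_le_of_lt (le_max_left _ _) hN₀).trans_le hDr
    have h2 : (0 : ℝ) ≤ ((M * 4 ^ I + n : ℕ) : ℝ) := Nat.cast_nonneg _
    linarith
  have hfrac : ((M * 4 ^ I + n : ℕ) : ℝ) * (2 / (Fintype.card D : ℝ)) ≤ η / 2 := by
    have h1 : 4 * ((M * 4 ^ I + n : ℕ) : ℝ) / η < (Fintype.card D : ℝ) :=
      (lt_of_le_of_lt (le_max_right _ _) hN₀).trans_le hDr
    rw [div_lt_iff₀ hη] at h1
    rw [mul_div_assoc', div_le_div_iff₀ hDpos (by norm_num)]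
    linarith
  have hpow : ∀ t, t < I → 4 * (M * 4 ^ t) ≤ M * 4 ^ I := by
    intro t ht
    have h1 : 4 ^ (t + 1) ≤ 4 ^ I := Nat.pow_le_pow_right (by norm_num) (by omega)
    calc 4 * (M * 4 ^ t) = M * 4 ^ (t + 1) := by ring
      _ ≤ M * 4 ^ I := Nat.mul_le_mul_left _ h1
  -- the second sets
  have hch : ∀ t, ∃ Q : Finset D, t < I → Disjoint Q (vsL ι) ∧ Disjoint (T t) Q ∧
      Q.card = M * 4 ^ t := by
    intro t
    by_cases ht : t < I
    · have h1 : M * 4 ^ t ≤ ((vsL ι ∪ T t)ᶜ).card := by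
        rw [Finset.card_compl]
        have h2 := Finset.card_union_le (vsL ι) (T t)
        rw [card_vsL hι, (hT t ht).2] at h2
        have h3 := hpow t ht
        omega
      obtain ⟨Q, hQ1, hQ2⟩ := Finset.exists_subset_card_eq h1
      refine ⟨Q, fun _ => ⟨?_, ?_, hQ2⟩⟩
      · rw [Finset.disjoint_left]
        intro x hx hx'
        exact (Finset.mem_compl.1 (hQ1 hx)) (Finset.mem_union_left _ hx')
      · rw [Finset.disjoint_left]
        intro x hx hx'
        exact (Finset.mem_compl.1 (hQ1 hx')) (Finset.mem_union_right _ hx)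
    · exact ⟨∅, fun h => absurd h ht⟩
  choose Q hQ using hch
  obtain ⟨S, hSdef⟩ : ∃ S : ℕ → Finset D, S = fun t => T t ∪ Q t := ⟨_, rfl⟩
  have hTS : ∀ t, T t ⊆ S t := fun t => by rw [hSdef]; exact Finset.subset_union_left
  have hQS : ∀ t, Q t ⊆ S t := fun t => by rw [hSdef]; exact Finset.subset_union_right
  have hScard : ∀ t, t < I → (S t).card ≤ 2 * (M * 4 ^ t) := by
    intro t ht
    rw [hSdef]
    refine (Finset.card_union_le _ _).trans ?_
    rw [(hT t ht).2, (hQ t ht).2.2]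
    omega
  have hS : ∀ t < I, Disjoint (S t) (vsL ι) ∧ (S t).card ≤ M * 4 ^ (t + 1) := by
    intro t ht
    refine ⟨?_, ?_⟩
    · rw [hSdef]
      exact Finset.disjoint_union_left.2 ⟨(hT t ht).1, (hQ t ht).1⟩
    · have h1 := hScard t ht
      have h2 : M * 4 ^ (t + 1) = 4 * (M * 4 ^ t) := by ring
      omega
  -- the error function
  obtain ⟨Err, hErr⟩ : ∃ Err : ℕ → Equiv.Perm D → ℝ, Err = fun (t : ℕ) (σ : Equiv.Perm D) =>
      lnear_diff w W (σ ∘ ι) ((T t).image σ) ((S t).image σ) +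
      lnear_diff w W (σ ∘ ι) ((T t).image σ) ((S t).image σ) +
      lnear_diff w W (σ ∘ ι) ((Q t).image σ) ((S t).image σ) +
      lnear_bad w W (σ ∘ ι) ((T t).image σ) := ⟨_, rfl⟩
  have hErr0 : ∀ t σ, 0 ≤ Err t σ := by
    intro t σ
    have a0 := lnear_diff_nonneg hw W (σ ∘ ι) (Finset.image_subset_image (f := σ) (hTS t))
    have a2 := lnear_diff_nonneg hw W (σ ∘ ι) (Finset.image_subset_image (f := σ) (hQS t))
    have a3 := lnear_bad_nonneg hw W (σ ∘ ι) ((T t).image σ)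
    rw [hErr]
    show 0 ≤ _ + _ + _ + _
    linarith
  have hpoint : ∀ t, t < I → ∀ σ : Equiv.Perm D,
      ind (¬ (vsL (σ ∘ ι) ∪ (T t).image σ ⊆ D0 ∧
        NearL L η p w (fun ω => starC (σ ∘ ι) ((T t).image σ) (W ω)))) ≤
      ind (η / 8 < Err t σ) + ind (¬ (vsL ι ∪ S t).image σ ⊆ D0) := by
    intro t ht σ
    by_cases h1 : (vsL ι ∪ S t).image σ ⊆ D0
    · have h1' : vsL (σ ∘ ι) ∪ (S t).image σ ⊆ D0 := by
        rw [vsL_perm, ← Finset.image_union]
        exact h1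
      by_cases h2 : η / 8 < Err t σ
      · have h3 : ind (η / 8 < Err t σ) = 1 := by
          unfold ind
          rw [if_pos h2]
        rw [h3]
        have h4 := ind_nonneg (¬ (vsL ι ∪ S t).image σ ⊆ D0)
        have h5 := ind_le_one (¬ (vsL (σ ∘ ι) ∪ (T t).image σ ⊆ D0 ∧
          NearL L η p w (fun ω => starC (σ ∘ ι) ((T t).image σ) (W ω))))
        linarith
      · have hgood : vsL (σ ∘ ι) ∪ (T t).image σ ⊆ D0 ∧
            NearL L η p w (fun ω => starC (σ ∘ ι) ((T t).image σ) (W ω)) := by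
          refine ⟨(Finset.union_subset_union_right
            (Finset.image_subset_image (f := σ) (hTS t))).trans h1', ?_⟩
          rw [not_lt, hErr] at h2
          refine lnear_point hη h (σ.injective.comp hι)
            (Finset.image_subset_image (f := σ) (hTS t))
            (Finset.image_subset_image (f := σ) (hTS t))
            (Finset.image_subset_image (f := σ) (hQS t)) ?_ h1' h2
          exact (Finset.disjoint_image σ.injective).2 (hQ t ht).2.1
        have h3 : ind (¬ (vsL (σ ∘ ι) ∪ (T t).image σ ⊆ D0 ∧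
            NearL L η p w (fun ω => starC (σ ∘ ι) ((T t).image σ) (W ω)))) = 0 := by
          unfold ind
          rw [if_neg (not_not.2 hgood)]
        rw [h3]
        exact add_nonneg (ind_nonneg _) (ind_nonneg _)
    · have h3 : ind (¬ (vsL ι ∪ S t).image σ ⊆ D0) = 1 := by
        unfold ind
        rw [if_pos h1]
      rw [h3]
      have h4 := ind_nonneg (η / 8 < Err t σ)
      have h5 := ind_le_one (¬ (vsL (σ ∘ ι) ∪ (T t).image σ ⊆ D0 ∧
        NearL L η p w (fun ω => starC (σ ∘ ι) ((T t).image σ) (W ω))))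
      linarith
  -- bound for a single scale
  have hscale : ∀ t, t < I → avg (fun σ : Equiv.Perm D =>
      ind (¬ (vsL (σ ∘ ι) ∪ (T t).image σ ⊆ D0 ∧
        NearL L η p w (fun ω => starC (σ ∘ ι) ((T t).image σ) (W ω))))) ≤
      avg (Err t) / (η / 8) + η / 2 := by
    intro t ht
    refine (avg_mono (hpoint t ht)).trans ?_
    rw [avg_add]
    refine add_le_add (avg_ind_lt_le (hErr0 t) (by positivity)) ?_
    refine (lnear_avg_out D0 (vsL ι ∪ S t) hD0).trans (le_trans ?_ hfrac)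
    refine mul_le_mul_of_nonneg_right ?_ (by positivity)
    have h1 := Finset.card_union_le (vsL ι) (S t)
    rw [card_vsL hι] at h1
    have h2 := hScard t ht
    have h3 := hpow t ht
    have h4 : (vsL ι ∪ S t).card ≤ M * 4 ^ I + n := by omega
    exact_mod_cast h4
  -- the sum of the errors
  have hsum : ∑ t ∈ Finset.range I, avg (Err t) ≤ 3 * q + I * (q * (2 / ((Lc : ℝ) + 1))) := by
    have e1 : ∀ t ∈ Finset.range I, avg (Err t) =
        avg (fun σ : Equiv.Perm D => lnear_diff w W (σ ∘ ι) ((T t).image σ) ((S t).image σ)) +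
        avg (fun σ : Equiv.Perm D => lnear_diff w W (σ ∘ ι) ((T t).image σ) ((S t).image σ)) +
        avg (fun σ : Equiv.Perm D => lnear_diff w W (σ ∘ ι) ((Q t).image σ) ((S t).image σ)) +
        avg (fun σ : Equiv.Perm D => lnear_bad w W (σ ∘ ι) ((T t).image σ)) := by
      intro t _
      rw [← avg_add, ← avg_add, ← avg_add, hErr]
    rw [Finset.sum_congr rfl e1, Finset.sum_add_distrib, Finset.sum_add_distrib,
      Finset.sum_add_distrib]
    have a1 := lnear_avg_diff M I hM1 hD hw W ι T S hT hS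
    have a2 := lnear_avg_diff M I hM1 hD hw W ι Q S
      (fun t ht => ⟨(hQ t ht).1, (hQ t ht).2.2⟩) hS
    have a3 : ∑ t ∈ Finset.range I, avg (fun σ : Equiv.Perm D =>
        lnear_bad w W (σ ∘ ι) ((T t).image σ)) ≤ I * (q * (2 / ((Lc : ℝ) + 1))) := by
      have h1 : ∀ t ∈ Finset.range I, avg (fun σ : Equiv.Perm D =>
          lnear_bad w W (σ ∘ ι) ((T t).image σ)) ≤ q * (2 / ((Lc : ℝ) + 1)) := by
        intro t ht
        have ht' : t < I := Finset.mem_range.1 ht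
        rw [hq]
        refine lnear_avg_bad Lc hw W hι (T t) (hT t ht').1 ?_
        rw [(hT t ht').2, hM]
        exact Nat.le_mul_of_pos_right _ (Nat.pow_pos (by norm_num))
      refine (Finset.sum_le_card_nsmul _ _ _ h1).trans (le_of_eq ?_)
      rw [Finset.card_range, nsmul_eq_mul]
    rw [← hq] at a1 a2
    linarith
  -- conclusion
  have hI0 : (0 : ℝ) < I := by linarith
  have hfin : ∑ t ∈ Finset.range I, avg (fun σ : Equiv.Perm D =>
      ind (¬ (vsL (σ ∘ ι) ∪ (T t).image σ ⊆ D0 ∧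
        NearL L η p w (fun ω => starC (σ ∘ ι) ((T t).image σ) (W ω))))) ≤ η * I := by
    have h1 : ∑ t ∈ Finset.range I, avg (fun σ : Equiv.Perm D =>
        ind (¬ (vsL (σ ∘ ι) ∪ (T t).image σ ⊆ D0 ∧
          NearL L η p w (fun ω => starC (σ ∘ ι) ((T t).image σ) (W ω))))) ≤
        ∑ t ∈ Finset.range I, (avg (Err t) / (η / 8) + η / 2) :=
      Finset.sum_le_sum fun t ht => hscale t (Finset.mem_range.1 ht)
    rw [Finset.sum_add_distrib, ← Finset.sum_div, Finset.sum_const, Finset.card_range,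
      nsmul_eq_mul] at h1
    have h2 : (∑ t ∈ Finset.range I, avg (Err t)) / (η / 8) ≤ η / 2 * I := by
      rw [div_le_iff₀ (by positivity)]
      have h3 : 3 * q ≤ η ^ 2 / 32 * I := by
        rw [div_le_iff₀ hI0] at hIb
        exact hIb
      have h4 : (I : ℝ) * (q * (2 / ((Lc : ℝ) + 1))) ≤ I * (η ^ 2 / 32) :=
        mul_le_mul_of_nonneg_left hLb hI0.le
      have h5 : η / 2 * I * (η / 8) = η ^ 2 / 16 * I := by ring
      rw [h5]
      linarith
    linarith
  show (∑ t : Fin I, _) / _ ≤ η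
  rw [Fintype.card_fin, div_le_iff₀ hI0]
  refine le_trans (le_of_eq ?_) hfin
  exact Fin.sum_univ_eq_sum_range (fun t : ℕ => avg (fun σ : Equiv.Perm D =>
    ind (¬ (vsL (σ ∘ ι) ∪ (T t).image σ ⊆ D0 ∧
      NearL L η p w (fun ω => starC (σ ∘ ι) ((T t).image σ) (W ω)))))) I

end Pool.Agent.LP
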