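import Pool.Agent.LP.SSType

/-!
# LP, Part I.a: the numbers of an M end

`UN i i'`, not `PN i`: by `ss_type` and `exists_rep` there is `σ` with `TS`, `US σ i i'`, `¬ PS σ i`,
`pr (¬ Rep_σ) ≤ 20 ρ`.  Take `j, j'` from `mnum` of the sample law and the leaves `σ (e j)`, `σ (e j')` of the star.
Outside `¬ NiceS` (probability `≤ ρ`) and `¬ Rep` : `InS b l` implies `InMaj (b.1, σ (e b.2)) l` (`rep_in`; `MajS1 (1/500)`
is part of `NiceS`).  So `EvS` implies `EvA` (for `a1`, `b`, `c`).  If `EvA` holds and not `SameMaj i i'`, then `¬ InS (i, j) i'` (otherwise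
`InMaj .. i'`, together with `InMaj .. i` this gives `SameMaj`) and `¬ InS (i, j') i` (for `a2`, `d`).  The edges of the hubs are the same in the sample.  Errors: at most
`3 ρ + 21 ρ + ρ ≤ 100 ρ`.
-/

set_option autoImplicit false

open Finset
open scoped Classical

namespace Pool.Agent.LP.SS

open Pool.Agent.OIP

theorem ss_mnum {Λ : Type} [Fintype Λ] [DecidableEq Λ] {κ : Type} [Fintype κ] [DecidableEq κ] {n : ℕ} {Ω : Type}
    [Fintype Ω] {L : SimpleGraph Λ} {ρ : ℝ} {w : Ω → ℝ} {W : Ω → SimpleGraph (LV Λ (Fin n))} {e : κ → Fin n}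
    {P0 : Finset (Fin n)} (h : SetS L ρ w W e P0) (i i' : Λ) (hU : UN L ρ w W e P0 i i') (hP : ¬ PN w W i) :
    ∃ j j' : Fin n, MNum (100 * ρ) (fun A => pr w {ω | W ω ∈ A}) i i' j j' := by
  classical
  rcases ss_type h i i' hU with ⟨hPN, _⟩ | ⟨_, _, h8⟩
  · exact absurd hPN hP
  obtain ⟨σ, ⟨hTS, hUS, hPS⟩, hRep⟩ := exists_rep h
    (fun σ => TS L ρ w W e P0 σ ∧ US L ρ w W e P0 σ i i' ∧ ¬ PS L ρ w W e P0 σ i) (by linarith)
  have hT := typS_US hTS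
  obtain ⟨j, j', hS⟩ := hT.mnum i i' hUS hPS
  have hw := h.star.law
  have hκ := h.k1
  have hpos := h.pos
  have hn : 1 ≤ n := by
    have h1 : Fintype.card κ ≤ Fintype.card (Fin n) := Fintype.card_le_of_injective e h.inj
    rw [Fintype.card_fin] at h1
    omega
  have hNice := hT.nice
  set H : Ω → SimpleGraph (LV Λ κ) := fun ω => sampG σ e P0 (W ω) with hH
  set B : Set Ω := {ω | ¬ NiceS L (1 / 500) (US L ρ w W e P0 σ) (H ω)} ∪
    {ω | ¬ Rep (1 / 1000) e σ (W ω)} with hBdef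
  have hB : pr w B ≤ 21 * ρ := by
    refine (pr_union_le hw _ _).trans ?_
    have h1 : pr w {ω | ¬ NiceS L (1 / 500) (US L ρ w W e P0 σ) (H ω)} ≤ ρ := hNice
    linarith
  have hgood : ∀ ω, ω ∉ B → ∀ (b : Λ × κ) (l : Λ), InS (H ω) b l →
      InMaj (W ω) (b.1, σ (e b.2)) l := by
    intro ω hω b l hb
    rw [hBdef, Set.mem_union, not_or] at hω
    obtain ⟨h1, h2⟩ := hω
    have h1' : NiceS L (1 / 500) (US L ρ w W e P0 σ) (H ω) := not_not.1 h1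
    have h2' : Rep (1 / 1000) e σ (W ω) := not_not.1 h2
    have h3 : MajS1 (2 * (1 / 1000)) (sampG σ e P0 (W ω)) l := by
      have h4 := h1'.1 l
      rw [show (2 * (1 / 1000) : ℝ) = 1 / 500 by norm_num]
      exact h4
    exact rep_in P0 (by norm_num) hn hκ h2' h3 hb
  have hEv : ∀ ω, ω ∉ B → EvS i i' j j' (H ω) → EvA i i' (σ (e j)) (σ (e j')) (W ω) := by
    intro ω hω hE
    exact ⟨hgood ω hω (i, j) i hE.1, hgood ω hω (i, j') i' hE.2⟩
  have hNot : ∀ ω, ω ∉ B → EvA i i' (σ (e j)) (σ (e j')) (W ω) →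
      ¬ SameMaj (W ω) i i' → ¬ InS (H ω) (i, j) i' ∧ ¬ InS (H ω) (i, j') i := by
    intro ω hω hE hne
    constructor
    · intro h4
      exact hne ⟨(i, σ (e j)), hE.1, hgood ω hω (i, j) i' h4⟩
    · intro h4
      exact hne ⟨(i, σ (e j')), hgood ω hω (i, j') i h4, hE.2⟩
  have hU2 : ∀ A : Set Ω, pr w (A ∪ B) ≤ pr w A + 21 * ρ := by
    intro A
    have h1 := pr_union_le hw A B
    linarith
  refine ⟨σ (e j), σ (e j'), ?_, ?_, ?_, ?_, ?_, ?_⟩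
  · intro heq
    exact hS.ne (h.inj (σ.injective heq))
  · have h1 : sc * (1 - sc) - ρ ≤ pr w {ω | EvS i i' j j' (H ω)} := hS.a1
    have h2 : pr w {ω | EvS i i' j j' (H ω)} ≤
        pr w ({ω | EvA i i' (σ (e j)) (σ (e j')) (W ω)} ∪ B) := by
      apply pr_mono hw
      intro ω hω
      by_cases hb : ω ∈ B
      · exact Or.inr hb
      · exact Or.inl (hEv ω hb hω)
    have h3 := hU2 {ω | EvA i i' (σ (e j)) (σ (e j')) (W ω)}
    show sc * (1 - sc) - 100 * ρ ≤ pr w {ω | EvA i i' (σ (e j)) (σ (e j')) (W ω)}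
    linarith
  · have h1 : pr w {ω | ¬ InS (H ω) (i, j) i' ∧ ¬ InS (H ω) (i, j') i} ≤ sc * (1 - sc) + ρ := hS.a2
    have h2 : pr w {ω | EvA i i' (σ (e j)) (σ (e j')) (W ω) ∧ ¬ SameMaj (W ω) i i'} ≤
        pr w ({ω | ¬ InS (H ω) (i, j) i' ∧ ¬ InS (H ω) (i, j') i} ∪ B) := by
      apply pr_mono hw
      intro ω hω
      by_cases hb : ω ∈ B
      · exact Or.inr hb
      · exact Or.inl (hNot ω hb hω.1 hω.2)
    have h3 := hU2 {ω | ¬ InS (H ω) (i, j) i' ∧ ¬ InS (H ω) (i, j') i}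
    show pr w {ω | EvA i i' (σ (e j)) (σ (e j')) (W ω) ∧ ¬ SameMaj (W ω) i i'} ≤
      sc * (1 - sc) + 100 * ρ
    linarith
  · have h1 : sc * (sc * (1 - sc)) - ρ ≤
        pr w {ω | EvS i i' j j' (H ω) ∧ (H ω).Adj (hub i) (leaf (i, j))} := hS.b
    have h2 : pr w {ω | EvS i i' j j' (H ω) ∧ (H ω).Adj (hub i) (leaf (i, j))} ≤
        pr w ({ω | EvA i i' (σ (e j)) (σ (e j')) (W ω) ∧ (W ω).Adj (hub i) (leaf (i, σ (e j)))} ∪ B) := by
      apply pr_mono hw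
      intro ω hω
      by_cases hb : ω ∈ B
      · exact Or.inr hb
      · exact Or.inl ⟨hEv ω hb hω.1, hω.2⟩
    have h3 := hU2 {ω | EvA i i' (σ (e j)) (σ (e j')) (W ω) ∧ (W ω).Adj (hub i) (leaf (i, σ (e j)))}
    show sc * (sc * (1 - sc)) - 100 * ρ ≤
      pr w {ω | EvA i i' (σ (e j)) (σ (e j')) (W ω) ∧ (W ω).Adj (hub i) (leaf (i, σ (e j)))}
    linarith
  · have h1 : (1 - sc) * (sc * (1 - sc)) - ρ ≤
        pr w {ω | EvS i i' j j' (H ω) ∧ (H ω).Adj (hub i) (leaf (i, j'))} := hS.c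
    have h2 : pr w {ω | EvS i i' j j' (H ω) ∧ (H ω).Adj (hub i) (leaf (i, j'))} ≤
        pr w ({ω | EvA i i' (σ (e j)) (σ (e j')) (W ω) ∧ (W ω).Adj (hub i) (leaf (i, σ (e j')))} ∪ B) := by
      apply pr_mono hw
      intro ω hω
      by_cases hb : ω ∈ B
      · exact Or.inr hb
      · exact Or.inl ⟨hEv ω hb hω.1, hω.2⟩
    have h3 := hU2 {ω | EvA i i' (σ (e j)) (σ (e j')) (W ω) ∧ (W ω).Adj (hub i) (leaf (i, σ (e j')))}
    show (1 - sc) * (sc * (1 - sc)) - 100 * ρ ≤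
      pr w {ω | EvA i i' (σ (e j)) (σ (e j')) (W ω) ∧ (W ω).Adj (hub i) (leaf (i, σ (e j')))}
    linarith
  · have h1 : pr w {ω | ¬ InS (H ω) (i, j') i ∧ (H ω).Adj (hub i) (leaf (i, j')) ∧
        ¬ (H ω).Adj (hub i) (hub i')} ≤ ρ := hS.d
    have h2 : pr w {ω | EvA i i' (σ (e j)) (σ (e j')) (W ω) ∧ ¬ SameMaj (W ω) i i' ∧
        (W ω).Adj (hub i) (leaf (i, σ (e j'))) ∧ ¬ (W ω).Adj (hub i) (hub i')} ≤
        pr w ({ω | ¬ InS (H ω) (i, j') i ∧ (H ω).Adj (hub i) (leaf (i, j')) ∧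
          ¬ (H ω).Adj (hub i) (hub i')} ∪ B) := by
      apply pr_mono hw
      intro ω hω
      by_cases hb : ω ∈ B
      · exact Or.inr hb
      · exact Or.inl ⟨(hNot ω hb hω.1 hω.2.1).2, hω.2.2.1, hω.2.2.2⟩
    have h3 := hU2 {ω | ¬ InS (H ω) (i, j') i ∧ (H ω).Adj (hub i) (leaf (i, j')) ∧
          ¬ (H ω).Adj (hub i) (hub i')}
    show pr w {ω | EvA i i' (σ (e j)) (σ (e j')) (W ω) ∧ ¬ SameMaj (W ω) i i' ∧
        (W ω).Adj (hub i) (leaf (i, σ (e j'))) ∧ ¬ (W ω).Adj (hub i) (hub i')} ≤ 100 * ρ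
    linarith

end Pool.Agent.LP.SS
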