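import Pool.Agent.LP.SXDefs

/-!
# LP, samples of a star: concentration over disjoint samples

Like `conc_perm` (helper88, /team-store/lp_Conc.lean), but with the simple packing: for a set `S` of positions with
`|S| * M ≤ n` there are permutations `π j` (`j : Fin M`) of `Fin n` with pairwise disjoint images `S.image (π j)`.
`avg_σ ind (F σ) = avg_σ (1/M) ∑_j ind (F (σ * π j))`; Jensen (`exp_avg_le`) and independence of the events for fixed `σ`
(disjoint regions) give `E exp (M avg) ≤ (1 + (e - 1) ε)^M ≤ exp (2 M ε)`, so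
`P (avg ≥ 3 ε) ≤ exp (2 M ε - 3 M ε)`.
-/

set_option autoImplicit false

open Finset
open scoped Classical

namespace Pool.Agent.LP.SS

open Pool.Agent.OIP

section indep

variable {Ω V : Type*} [Fintype Ω] {w : Ω → ℝ} {W : Ω → SimpleGraph V}

theorem ssconc_depOn_forall_mem {ι : Type*} (J : Finset ι) (A : ι → Set V) (U : ι → Set (SimpleGraph V))
    (hU : ∀ j ∈ J, DepOn (A j) (U j)) :
    DepOn (⋃ j ∈ J, A j) {G : SimpleGraph V | ∀ j ∈ J, G ∈ U j} := by
  intro G H hGH
  refine forall_congr' fun j => forall_congr' fun hj => ?_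
  refine hU j hj G H fun a ha b hb => hGH a ?_ b ?_
  · exact Set.mem_biUnion hj ha
  · exact Set.mem_biUnion hj hb

/-- events depending on pairwise disjoint regions are mutually independent -/
theorem ssconc_pr_forall_eq_prod (hw : IsLaw w) (hW : OneIndep w W) {ι : Type*} (J : Finset ι) (A : ι → Set V)
    (hA : ∀ i ∈ J, ∀ j ∈ J, i ≠ j → Disjoint (A i) (A j)) (U : ι → Set (SimpleGraph V))
    (hU : ∀ j ∈ J, DepOn (A j) (U j)) :
    pr w {ω | ∀ j ∈ J, W ω ∈ U j} = ∏ j ∈ J, pr w {ω | W ω ∈ U j} := by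
  induction J using Finset.induction_on with
  | empty =>
    have : {ω : Ω | ∀ j ∈ (∅ : Finset ι), W ω ∈ U j} = Set.univ := by
      ext ω
      simp
    rw [this, pr_univ hw, Finset.prod_empty]
  | insert a s ha ih =>
    rw [Finset.prod_insert ha]
    have ih' := ih (fun i hi j hj => hA i (Finset.mem_insert_of_mem hi) j (Finset.mem_insert_of_mem hj))
      (fun j hj => hU j (Finset.mem_insert_of_mem hj))
    rw [← ih']
    have hd : Disjoint (A a) (⋃ j ∈ s, A j) := by
      rw [Set.disjoint_iUnion₂_right]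
      intro j hj
      exact hA a (Finset.mem_insert_self a s) j (Finset.mem_insert_of_mem hj)
        (fun h => ha (h ▸ hj))
    have key := hW (A a) (⋃ j ∈ s, A j) hd (U a) {G | ∀ j ∈ s, G ∈ U j}
      (hU a (Finset.mem_insert_self a s))
      (ssconc_depOn_forall_mem s A U fun j hj => hU j (Finset.mem_insert_of_mem hj))
    have e1 : {ω : Ω | ∀ j ∈ insert a s, W ω ∈ U j}
        = {ω | W ω ∈ U a ∧ W ω ∈ {G : SimpleGraph V | ∀ j ∈ s, G ∈ U j}} := by
      ext ω
      exact ⟨fun h => ⟨h a (Finset.mem_insert_self a s), fun j hj => h j (Finset.mem_insert_of_mem hj)⟩,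
        fun h j hj => (Finset.mem_insert.1 hj).elim (fun e => e ▸ h.1) (h.2 j)⟩
    rw [e1, key]
    rfl

/-- product of `1 + c · ind` over independent events -/
theorem ssconc_sum_prod_one_add (hw : IsLaw w) (hW : OneIndep w W) {ι : Type*} (J : Finset ι) (A : ι → Set V)
    (hA : ∀ i ∈ J, ∀ j ∈ J, i ≠ j → Disjoint (A i) (A j)) (U : ι → Set (SimpleGraph V))
    (hU : ∀ j ∈ J, DepOn (A j) (U j)) (c : ℝ) :
    ∑ ω, w ω * ∏ j ∈ J, (1 + c * ind (W ω ∈ U j)) = ∏ j ∈ J, (1 + c * pr w {ω | W ω ∈ U j}) := by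
  have hexp : ∀ x : ι → ℝ, ∏ j ∈ J, (1 + c * x j) = ∑ t ∈ J.powerset, c ^ t.card * ∏ j ∈ t, x j := by
    intro x
    rw [Finset.prod_one_add]
    refine Finset.sum_congr rfl fun t _ => ?_
    rw [Finset.prod_mul_distrib, Finset.prod_const]
  simp_rw [hexp]
  have h1 : ∀ ω, w ω * ∑ t ∈ J.powerset, c ^ t.card * ∏ j ∈ t, ind (W ω ∈ U j)
      = ∑ t ∈ J.powerset, c ^ t.card * (w ω * ind (∀ j ∈ t, W ω ∈ U j)) := by
    intro ω
    rw [Finset.mul_sum]
    refine Finset.sum_congr rfl fun t _ => ?_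
    have : ∏ j ∈ t, ind (W ω ∈ U j) = ind (∀ j ∈ t, W ω ∈ U j) := by
      by_cases h : ∀ j ∈ t, W ω ∈ U j
      · rw [Finset.prod_congr rfl fun j hj => (by unfold ind; rw [if_pos (h j hj)] :
          ind (W ω ∈ U j) = 1), Finset.prod_const_one]
        unfold ind
        rw [if_pos h]
      · push Not at h
        obtain ⟨j, hj, hj'⟩ := h
        rw [Finset.prod_eq_zero hj (by unfold ind; rw [if_neg hj'])]
        unfold ind
        rw [if_neg]
        intro h
        exact hj' (h j hj)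
    rw [this]
    ring
  simp_rw [h1]
  rw [Finset.sum_comm]
  refine Finset.sum_congr rfl fun t ht => ?_
  rw [← Finset.mul_sum]
  congr 1
  have hts : t ⊆ J := Finset.mem_powerset.1 ht
  rw [← ssconc_pr_forall_eq_prod hw hW t A (fun i hi j hj => hA i (hts hi) j (hts hj)) U
    (fun j hj => hU j (hts hj)), pr_eq_sum_ind]
  rfl

end indep

/-- Jensen for the exponential function and a uniform average -/
theorem ssconc_exp_avg_le {X : Type*} [Fintype X] [Nonempty X] (F : X → ℝ) :
    Real.exp (avg F) ≤ avg (fun x => Real.exp (F x)) := by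
  obtain ⟨m, hm⟩ : ∃ m, m = avg F := ⟨_, rfl⟩
  rw [← hm]
  have h1 : ∀ x, Real.exp m * (1 + (F x - m)) ≤ Real.exp (F x) := by
    intro x
    have h2 : Real.exp (F x) = Real.exp m * Real.exp (F x - m) := by
      rw [← Real.exp_add]
      congr 1
      ring
    rw [h2]
    refine mul_le_mul_of_nonneg_left ?_ (Real.exp_pos m).le
    linarith [Real.add_one_le_exp (F x - m)]
  have h2 := avg_mono h1
  have h3 : avg (fun x => Real.exp m * (1 + (F x - m))) = Real.exp m := by
    rw [avg_const_mul]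
    have : (fun x => 1 + (F x - m)) = fun x => (1 - m) + F x := by
      funext x
      ring
    rw [this, avg_add, avg_const, ← hm]
    ring
  linarith

theorem ssconc_exists_packing {n : ℕ} (S : Finset (Fin n)) (M : ℕ) (hM : S.card * M ≤ n) :
    ∃ π : Fin M → Equiv.Perm (Fin n), ∀ i j, i ≠ j → ∀ σ : Equiv.Perm (Fin n),
      Disjoint (S.image (σ * π i)) (S.image (σ * π j)) := by
  obtain ⟨g⟩ : Nonempty ((Fin S.card × Fin M) ↪ Fin n) := by
    refine Function.Embedding.nonempty_of_card_le ?_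
    rw [Fintype.card_prod, Fintype.card_fin, Fintype.card_fin, Fintype.card_fin]
    exact hM
  obtain ⟨f, hf0⟩ : ∃ f : Fin M → S → Fin n, f = fun j s => g (S.equivFin s, j) := ⟨_, rfl⟩
  have hf : ∀ j, Function.Injective (f j) := by
    intro j s t h
    rw [hf0] at h
    have h1 := g.injective h
    exact S.equivFin.injective (Prod.ext_iff.1 h1).1
  have hext : ∀ j, ∃ π : Equiv.Perm (Fin n), ∀ s : S, π s.1 = f j s := by
    intro j
    let e : {x // x ∈ S} ≃ {x // x ∈ Set.range (f j)} := Equiv.ofInjective (f j) (hf j)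
    refine ⟨Equiv.extendSubtype e, fun s => ?_⟩
    rw [Equiv.extendSubtype_apply_of_mem e s.1 s.2]
    rfl
  choose π hπ using hext
  refine ⟨π, fun i j hij σ => ?_⟩
  rw [Finset.disjoint_left]
  intro x hx hy
  rw [Finset.mem_image] at hx hy
  obtain ⟨s, hs, hs'⟩ := hx
  obtain ⟨t, ht, ht'⟩ := hy
  rw [Equiv.Perm.mul_apply, hπ i ⟨s, hs⟩] at hs'
  rw [Equiv.Perm.mul_apply, hπ j ⟨t, ht⟩] at ht'
  have h1 : f i ⟨s, hs⟩ = f j ⟨t, ht⟩ := σ.injective (hs'.trans ht'.symm)
  rw [hf0] at h1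
  have h2 := g.injective h1
  exact hij (Prod.ext_iff.1 h2).2

theorem ssconc_exp_one : Real.exp 1 - 1 < 2 := by
  have := Real.exp_one_lt_d9
  linarith

theorem conc_disj {V : Type} {Ω : Type} [Fintype Ω] {w : Ω → ℝ} {W : Ω → SimpleGraph V} (hw : IsLaw w)
    (hW : OneIndep w W) {n : ℕ} (S : Finset (Fin n)) (M : ℕ) (hM : S.card * M ≤ n)
    (F : Equiv.Perm (Fin n) → Set (SimpleGraph V)) (Reg : Equiv.Perm (Fin n) → Set V)
    (hF : ∀ σ, DepOn (Reg σ) (F σ))
    (hReg : ∀ σ τ : Equiv.Perm (Fin n), Disjoint (S.image σ) (S.image τ) → Disjoint (Reg σ) (Reg τ))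
    (ε : ℝ) (hε : ∀ σ, pr w {ω | W ω ∈ F σ} ≤ ε) :
    pr w {ω | 3 * ε ≤ avg (fun σ => ind (W ω ∈ F σ))} ≤ Real.exp (-(M * ε)) := by
  obtain ⟨π, hπ⟩ := ssconc_exists_packing S M hM
  have he0 : 0 ≤ ε := (pr_nonneg hw _).trans (hε 1)
  have hZ : ∀ ω, Real.exp ((M : ℝ) * avg (fun σ => ind (W ω ∈ F σ))) ≤
      avg (fun σ : Equiv.Perm (Fin n) =>
      ∏ j : Fin M, (1 + (Real.exp 1 - 1) * ind (W ω ∈ F (σ * π j)))) := by
    intro ω
    have h1 : (M : ℝ) * avg (fun σ => ind (W ω ∈ F σ))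
        = avg (fun σ : Equiv.Perm (Fin n) => ∑ j : Fin M, ind (W ω ∈ F (σ * π j))) := by
      rw [avg_sum]
      have : ∀ j ∈ (Finset.univ : Finset (Fin M)),
          avg (fun σ : Equiv.Perm (Fin n) => ind (W ω ∈ F (σ * π j))) =
            avg (fun σ => ind (W ω ∈ F σ)) :=
        fun j _ => avg_perm_mul_right (π j) (fun σ => ind (W ω ∈ F σ))
      rw [Finset.sum_congr rfl this, Finset.sum_const, Finset.card_univ, Fintype.card_fin,
        nsmul_eq_mul]
    rw [h1]
    refine (ssconc_exp_avg_le _).trans (avg_mono fun σ => ?_)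
    rw [Real.exp_sum]
    refine le_of_eq (Finset.prod_congr rfl fun j _ => ?_)
    unfold ind
    split_ifs
    · ring
    · rw [Real.exp_zero]
      ring
  have h7 : 0 ≤ Real.exp 1 - 1 := by linarith [Real.add_one_le_exp (1 : ℝ)]
  have hmom : ∑ ω, w ω * Real.exp ((M : ℝ) * avg (fun σ => ind (W ω ∈ F σ))) ≤
      Real.exp (2 * ((M : ℝ) * ε)) := by
    calc ∑ ω, w ω * Real.exp ((M : ℝ) * avg (fun σ => ind (W ω ∈ F σ)))
        ≤ ∑ ω, w ω * avg (fun σ : Equiv.Perm (Fin n) =>
          ∏ j : Fin M, (1 + (Real.exp 1 - 1) * ind (W ω ∈ F (σ * π j)))) :=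
          Finset.sum_le_sum fun ω _ => mul_le_mul_of_nonneg_left (hZ ω) (hw.nonneg ω)
      _ = avg (fun σ : Equiv.Perm (Fin n) => ∑ ω, w ω *
            ∏ j : Fin M, (1 + (Real.exp 1 - 1) * ind (W ω ∈ F (σ * π j)))) := by
          rw [avg_sum]
          refine Finset.sum_congr rfl fun ω _ => ?_
          rw [avg_const_mul]
      _ = avg (fun σ : Equiv.Perm (Fin n) =>
            ∏ j : Fin M, (1 + (Real.exp 1 - 1) * pr w {ω | W ω ∈ F (σ * π j)})) := by
          congr 1
          funext σ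
          refine ssconc_sum_prod_one_add hw hW Finset.univ (fun j => Reg (σ * π j)) ?_
            (fun j => F (σ * π j)) (fun j _ => hF _) _
          intro i _ j _ hij
          exact hReg _ _ (hπ i j hij σ)
      _ ≤ avg (fun _ : Equiv.Perm (Fin n) => Real.exp (2 * ((M : ℝ) * ε))) := by
          refine avg_mono fun σ => ?_
          have h2 : ∀ j : Fin M, 1 + (Real.exp 1 - 1) * pr w {ω | W ω ∈ F (σ * π j)}
              ≤ Real.exp (2 * ε) := by
            intro j
            have h3 := pr_nonneg hw {ω | W ω ∈ F (σ * π j)}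
            have h4 := hε (σ * π j)
            have h5 := ssconc_exp_one
            have h6 : (Real.exp 1 - 1) * pr w {ω | W ω ∈ F (σ * π j)} ≤ 2 * ε := by
              calc (Real.exp 1 - 1) * pr w {ω | W ω ∈ F (σ * π j)}
                  ≤ 2 * pr w {ω | W ω ∈ F (σ * π j)} := mul_le_mul_of_nonneg_right h5.le h3
                _ ≤ 2 * ε := by linarith
            linarith [Real.add_one_le_exp (2 * ε)]
          calc ∏ j : Fin M, (1 + (Real.exp 1 - 1) * pr w {ω | W ω ∈ F (σ * π j)})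
              ≤ ∏ _j : Fin M, Real.exp (2 * ε) := by
                refine Finset.prod_le_prod (fun j _ => ?_) (fun j _ => h2 j)
                have h3 := pr_nonneg hw {ω | W ω ∈ F (σ * π j)}
                have := mul_nonneg h7 h3
                linarith
            _ = Real.exp (2 * ((M : ℝ) * ε)) := by
                rw [Finset.prod_const, Finset.card_univ, Fintype.card_fin, ← Real.exp_nat_mul]
                congr 1
                ring
      _ = Real.exp (2 * ((M : ℝ) * ε)) := avg_const _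
  have hmark : pr w {ω | 3 * ε ≤ avg (fun σ => ind (W ω ∈ F σ))} * Real.exp (3 * ((M : ℝ) * ε))
      ≤ ∑ ω, w ω * Real.exp ((M : ℝ) * avg (fun σ => ind (W ω ∈ F σ))) := by
    rw [pr_eq_sum_ind, Finset.sum_mul]
    refine Finset.sum_le_sum fun ω _ => ?_
    rw [mul_assoc]
    refine mul_le_mul_of_nonneg_left ?_ (hw.nonneg ω)
    by_cases h : ω ∈ {ω | 3 * ε ≤ avg (fun σ => ind (W ω ∈ F σ))}
    · have e1 : ind (ω ∈ {ω | 3 * ε ≤ avg (fun σ => ind (W ω ∈ F σ))}) = 1 := by
        unfold ind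
        exact if_pos h
      rw [e1, one_mul]
      refine Real.exp_le_exp.2 ?_
      have h8 : 3 * ε ≤ avg (fun σ => ind (W ω ∈ F σ)) := h
      have := mul_le_mul_of_nonneg_left h8 (Nat.cast_nonneg (α := ℝ) M)
      linarith
    · have e1 : ind (ω ∈ {ω | 3 * ε ≤ avg (fun σ => ind (W ω ∈ F σ))}) = 0 := by
        unfold ind
        exact if_neg h
      rw [e1, zero_mul]
      exact (Real.exp_pos _).le
  have hpos := Real.exp_pos (3 * ((M : ℝ) * ε))
  have h9 : pr w {ω | 3 * ε ≤ avg (fun σ => ind (W ω ∈ F σ))}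
      ≤ Real.exp (2 * ((M : ℝ) * ε)) / Real.exp (3 * ((M : ℝ) * ε)) := by
    rw [le_div_iff₀ hpos]
    exact hmark.trans hmom
  refine h9.trans (le_of_eq ?_)
  rw [← Real.exp_sub]
  congr 1
  ring

end Pool.Agent.LP.SS
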