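import Pool.Agent.LP.SSFinDefs
import Pool.Agent.LP.SSConc

/-!
# LP, Part I.a: the star is nice except with exponentially small probability

`F σ := {G | TS σ ∧ ¬ NiceS L (1/500) (US σ) (sampG σ e P0 G)}` has probability at most `ρ` (`nice` of `SampOut`) and is
`DepOn (leafRL σ (image e ∪ P0))` (`NiceS` uses only adjacencies between sampled leaves; `depOn_derL` with the set of the
leaves).  By `conc_disj` with `S = image e ∪ P0`, `M = n / (|κ| + R)`: outside an event of probability at most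
`exp (- M ρ)` the fraction of the `σ` with `F σ` is less than `3 ρ`.  Then `TS`, `NiceS`, `Rep (1/1000)` hold together for
a fraction at least `1 - 5 ρ` of the `σ` (`rep_avg`, `rep`, `typ`), which gives `MajOK (1/1000)` for every layer (`rep_maj`)
and, for adjacent `i, i'` not in `UN`, a `σ` with `¬ US σ i i'` (more than a fraction `1/10 - ρ > 5 ρ` of the typical `σ`),
so `LkOK (1/1000)` (`rep_lk`).
-/

set_option autoImplicit false

open Finset
open scoped Classical

namespace Pool.Agent.LP.SS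

open Pool.Agent.OIP

private theorem ssnice_acnt {Λ κ : Type} [Fintype κ] {G H : SimpleGraph (LV Λ κ)}
    (hGH : ∀ a ∈ Set.range (Sum.inl : Λ × κ → LV Λ κ), ∀ b ∈ Set.range (Sum.inl : Λ × κ → LV Λ κ),
      (G.Adj a b ↔ H.Adj a b)) (a : Λ × κ) (i : Λ) : acnt G a i = acnt H a i := by
  unfold acnt
  congr 1
  refine Finset.filter_congr fun k _ => ?_
  rw [hGH (leaf a) ⟨a, rfl⟩ (leaf (i, k)) ⟨(i, k), rfl⟩]

/-- `NiceS` depends only on the leaves -/
private theorem ssnice_dep {Λ κ : Type} [Fintype κ] (L : SimpleGraph Λ) (δ : ℝ) (U : Λ → Λ → Prop) :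
    DepOn (Set.range (Sum.inl : Λ × κ → LV Λ κ)) {H : SimpleGraph (LV Λ κ) | ¬ NiceS L δ U H} := by
  intro G H hGH
  have h1 := ssnice_acnt hGH
  simp only [Set.mem_ofPred_eq, NiceS, MajS1, LkS1, h1]

private theorem ssnice_reg {Λ κ : Type} [Fintype κ] {n : ℕ} (σ : Equiv.Perm (Fin n)) (e : κ → Fin n)
    (P0 : Finset (Fin n)) :
    (leafRL σ P0 ∪ posS σ e '' (Set.range (Sum.inl : Λ × κ → LV Λ κ)) : Set (LV Λ (Fin n))) ⊆
      leafRL σ (Finset.univ.image e ∪ P0) := by
  rintro v (⟨i, q, hq, rfl⟩ | ⟨_, ⟨a, rfl⟩, rfl⟩)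
  · exact ⟨i, q, Finset.mem_union_right _ hq, rfl⟩
  · exact ⟨a.1, e a.2, Finset.mem_union_left _ (Finset.mem_image_of_mem _ (Finset.mem_univ _)), rfl⟩

private theorem ssnice_disj {Λ : Type} {n : ℕ} (S : Finset (Fin n)) (σ τ : Equiv.Perm (Fin n))
    (h : Disjoint (S.image σ) (S.image τ)) :
    Disjoint (leafRL σ S : Set (LV Λ (Fin n))) (leafRL τ S) := by
  rw [Set.disjoint_left]
  rintro v ⟨i, q, hq, rfl⟩ ⟨i', q', hq', he⟩
  have h1 : (i, σ q) = (i', τ q') := Sum.inl.inj he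
  have h2 : σ q = τ q' := (Prod.mk.inj h1).2
  refine Finset.disjoint_left.1 h (Finset.mem_image_of_mem _ hq) ?_
  rw [h2]
  exact Finset.mem_image_of_mem _ hq'

private theorem ssnice_exists {X : Type} [Fintype X] [Nonempty X] (A B C D : X → Prop) {a b c d : ℝ}
    (hA : avg (fun x => ind (A x)) ≤ a) (hB : avg (fun x => ind (B x)) ≤ b)
    (hC : avg (fun x => ind (C x)) ≤ c) (hD : avg (fun x => ind (D x)) ≤ d) (h : a + b + c + d < 1) :
    ∃ x, ¬ A x ∧ ¬ B x ∧ ¬ C x ∧ ¬ D x := by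
  obtain ⟨x, hx⟩ := exists_le_avg (fun x => ((ind (A x) + ind (B x)) + ind (C x)) + ind (D x))
  rw [avg_add, avg_add, avg_add] at hx
  have hlt : ((ind (A x) + ind (B x)) + ind (C x)) + ind (D x) < 1 := by linarith
  have hA0 := ind_nonneg (A x)
  have hB0 := ind_nonneg (B x)
  have hC0 := ind_nonneg (C x)
  have hD0 := ind_nonneg (D x)
  have key : ∀ P : Prop, ind P < 1 → ¬ P := by
    intro P hP hp
    unfold ind at hP
    rw [if_pos hp] at hP
    exact lt_irrefl _ hP
  exact ⟨x, key _ (by linarith), key _ (by linarith), key _ (by linarith), key _ (by linarith)⟩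

theorem ss_nice {Λ : Type} [Fintype Λ] [DecidableEq Λ] {κ : Type} [Fintype κ] [DecidableEq κ] {n : ℕ} {Ω : Type}
    [Fintype Ω] {L : SimpleGraph Λ} {ρ : ℝ} {w : Ω → ℝ} {W : Ω → SimpleGraph (LV Λ (Fin n))} {e : κ → Fin n}
    {P0 : Finset (Fin n)} (h : SetS L ρ w W e P0) (R : ℕ) (hR : P0.card ≤ R) :
    pr w {ω | ¬ Nice L (1 / 1000) (UN L ρ w W e P0) (W ω)} ≤
      Real.exp (-(((n / (Fintype.card κ + R) : ℕ) : ℝ) * ρ)) := by
  have hκn : Fintype.card κ ≤ n := by
    simpa using Fintype.card_le_of_injective e h.inj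
  have hn : 1 ≤ n := h.k1.trans hκn
  have hcard : (Finset.univ.image e ∪ P0).card ≤ Fintype.card κ + R := by
    refine (Finset.card_union_le _ _).trans (add_le_add ?_ hR)
    exact Finset.card_image_le.trans (by simp)
  have hM : (Finset.univ.image e ∪ P0).card * (n / (Fintype.card κ + R)) ≤ n :=
    (Nat.mul_le_mul_right _ hcard).trans (Nat.mul_div_le n _)
  have hconc := conc_disj h.star.law h.star.indep (Finset.univ.image e ∪ P0)
    (n / (Fintype.card κ + R)) hM
    (fun σ => {G : SimpleGraph (LV Λ (Fin n)) | TS L ρ w W e P0 σ ∧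
      ¬ NiceS L (1 / 500) (US L ρ w W e P0 σ) (sampG σ e P0 G)})
    (fun σ => leafRL σ (Finset.univ.image e ∪ P0)) ?_ (fun σ τ => ssnice_disj _ σ τ) ρ ?_
  · refine le_trans (pr_mono h.star.law ?_) hconc
    intro ω hω
    by_contra hcon
    apply hω
    have hlt : avg (fun σ : Equiv.Perm (Fin n) => ind (W ω ∈
        {G : SimpleGraph (LV Λ (Fin n)) | TS L ρ w W e P0 σ ∧
          ¬ NiceS L (1 / 500) (US L ρ w W e P0 σ) (sampG σ e P0 G)})) < 3 * ρ := not_le.1 hcon
    have hrep : avg (fun σ : Equiv.Perm (Fin n) => ind (¬ Rep (1 / 1000) e σ (W ω))) ≤ ρ :=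
      (rep_avg e h.inj (W ω) (1 / 1000) (by norm_num) h.k1).trans h.rep
    have hsm := h.small
    have hpos := h.pos
    have h500 : (2 : ℝ) * (1 / 1000) = 1 / 500 := by norm_num
    constructor
    · intro i
      obtain ⟨σ, h1, h2, h3, -⟩ := ssnice_exists (fun σ : Equiv.Perm (Fin n) => ¬ TS L ρ w W e P0 σ)
        (fun σ => W ω ∈ {G : SimpleGraph (LV Λ (Fin n)) | TS L ρ w W e P0 σ ∧
          ¬ NiceS L (1 / 500) (US L ρ w W e P0 σ) (sampG σ e P0 G)})
        (fun σ => ¬ Rep (1 / 1000) e σ (W ω)) (fun _ => False) (a := ρ) (b := 3 * ρ) (c := ρ)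
        (d := 0) h.typ hlt.le hrep (by simp [avg, ind]) (by linarith)
      have hTS : TS L ρ w W e P0 σ := not_not.1 h1
      have hN : NiceS L (1 / 500) (US L ρ w W e P0 σ) (sampG σ e P0 (W ω)) := by
        by_contra hc
        exact h2 ⟨hTS, hc⟩
      have hmaj := hN.1 i
      rw [← h500] at hmaj
      exact rep_maj P0 hn h.k1 (not_not.1 h3) hmaj
    · intro i i' hadj hU
      have hUN : avg (fun σ : Equiv.Perm (Fin n) =>
          ind (TS L ρ w W e P0 σ ∧ US L ρ w W e P0 σ i i')) ≤ 9 / 10 := by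
        by_contra hc
        exact hU ⟨hadj, (not_le.1 hc).le⟩
      obtain ⟨σ, h1, h2, h3, h4⟩ := ssnice_exists
        (fun σ : Equiv.Perm (Fin n) => ¬ TS L ρ w W e P0 σ)
        (fun σ => W ω ∈ {G : SimpleGraph (LV Λ (Fin n)) | TS L ρ w W e P0 σ ∧
          ¬ NiceS L (1 / 500) (US L ρ w W e P0 σ) (sampG σ e P0 G)})
        (fun σ => ¬ Rep (1 / 1000) e σ (W ω))
        (fun σ => TS L ρ w W e P0 σ ∧ US L ρ w W e P0 σ i i') (a := ρ) (b := 3 * ρ) (c := ρ)
        (d := 9 / 10) h.typ hlt.le hrep hUN (by linarith)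
      have hTS : TS L ρ w W e P0 σ := not_not.1 h1
      have hN : NiceS L (1 / 500) (US L ρ w W e P0 σ) (sampG σ e P0 (W ω)) := by
        by_contra hc
        exact h2 ⟨hTS, hc⟩
      have hlk := hN.2 i i' hadj (fun hu => h4 ⟨hTS, hu⟩)
      rw [← h500] at hlk
      exact rep_lk P0 hn h.k1 (not_not.1 h3) hlk
  · intro σ
    have h1 := depOn_derL (x := posS σ e) (R := leafRL σ P0)
      (ssnice_dep (κ := κ) L (1 / 500) (US L ρ w W e P0 σ))
    have h2 := h1.mono (ssnice_reg (Λ := Λ) σ e P0)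
    intro G H hGH
    exact and_congr_right fun _ => h2 G H hGH
  · intro σ
    by_cases hTS : TS L ρ w W e P0 σ
    · have h1 := (typS_US hTS).nice
      refine le_trans (pr_mono h.star.law ?_) h1
      intro ω hω
      exact hω.2
    · refine le_trans (pr_mono h.star.law (U' := ∅) ?_) ?_
      · intro ω hω
        exact hTS hω.1
      · rw [pr_empty]
        exact h.pos.le

end Pool.Agent.LP.SS
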