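import Pool.Agent.LP.SSOut
import Pool.Agent.LP.SSNice
import Pool.Agent.LP.SSMnum

/-!
# LP, Part I.a: exact star laws, assembly

`star_law'` (the statement of `star_law` in SDefs): `ρ = min (1/10^5) (ε / 100)`; `samples` with `ε = ρ`, `ρ` gives `m, R, n₀`;
for `n ≥ max n₀ (5 m)` fix an injection `e : I5 m → Fin n` and `P0`; then `SetS` holds.  `U = UN`, `P = PN`: `ss_rules`,
`ss_nice` (for `n ≥ 2 (5 m + R)` one has `n / (5 m + R) ≥ n / (2 (5 m + R))`, so `c = ρ / (2 (5 m + R))`), `pend` is the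
definition of `PN`, `mend` from `ss_type`, `mnum` from `ss_mnum` and monotonicity of `MNum` in the error.
-/

set_option autoImplicit false

open Finset
open scoped Classical

namespace Pool.Agent.LP.SS

open Pool.Agent.OIP

theorem ssfin_mono {Λ κ : Type} [Fintype κ] {ε ε' : ℝ} (hε : ε ≤ ε')
    {Q : Set (SimpleGraph (LV Λ κ)) → ℝ} {i i' : Λ} {j j' : κ} (h : MNum ε Q i i' j j') :
    MNum ε' Q i i' j j' where
  ne := h.ne
  a1 := by linarith [h.a1]
  a2 := by linarith [h.a2]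
  b := by linarith [h.b]
  c := by linarith [h.c]
  d := by linarith [h.d]

theorem ssfin_div (n K : ℕ) (hK : 1 ≤ K) (hn : 2 * K ≤ n) :
    (n : ℝ) / (2 * (K : ℝ)) ≤ ((n / K : ℕ) : ℝ) := by
  have hK0 : (0 : ℝ) < K := by exact_mod_cast hK
  have h1 : n < K * (n / K + 1) := Nat.lt_mul_div_succ n hK
  have h2 : (n : ℝ) < K * (((n / K : ℕ) : ℝ) + 1) := by exact_mod_cast h1
  have h3 : (2 : ℝ) * K ≤ n := by exact_mod_cast hn
  rw [div_le_iff₀ (by positivity)]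
  nlinarith

theorem star_law' {Λ : Type} [Fintype Λ] [DecidableEq Λ] (L : SimpleGraph Λ) (hL : ∀ i, ∃ i', L.Adj i i')
    (ε : ℝ) (hε : 0 < ε) :
    ∃ (c : ℝ) (n₀ : ℕ), 0 < c ∧ ∀ n : ℕ, n₀ ≤ n → ∀ (Ω : Type) [Fintype Ω] (w : Ω → ℝ)
      (W : Ω → SimpleGraph (LV Λ (Fin n))), LStar L pc w W →
      ∃ (U : Λ → Λ → Prop) (P : Λ → Prop),
        StarOut L (1 / 1000) ε (Real.exp (-c * n)) (fun A => pr w {ω | W ω ∈ A}) U P := by
  obtain ⟨ρ, hρd⟩ : ∃ ρ : ℝ, ρ = min (1 / 100000) (ε / 100) := ⟨_, rfl⟩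
  have hρ : 0 < ρ := by
    rw [hρd]
    exact lt_min (by norm_num) (by positivity)
  have hρ1 : ρ ≤ 1 / 100000 := by
    rw [hρd]
    exact min_le_left _ _
  have hρ2 : 100 * ρ ≤ ε := by
    have h1 : ρ ≤ ε / 100 := by
      rw [hρd]
      exact min_le_right _ _
    linarith
  obtain ⟨m, R, n₀, hm, hrep, hs⟩ := samples L hL ρ ρ hρ hρ
  have hcard : Fintype.card (I5 m) = 5 * m := by simp [I5]
  have hK1 : 1 ≤ Fintype.card (I5 m) := by rw [hcard]; omega
  obtain ⟨K, hKd⟩ : ∃ K : ℕ, K = Fintype.card (I5 m) + R := ⟨_, rfl⟩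
  have hKpos : 1 ≤ K := by omega
  have hK0 : (0 : ℝ) < K := by exact_mod_cast hKpos
  refine ⟨ρ / (2 * K), max n₀ (2 * K), by positivity, ?_⟩
  intro n hn Ω _ w W hW
  have hn0 : n₀ ≤ n := le_trans (le_max_left _ _) hn
  have hn2 : 2 * K ≤ n := le_trans (le_max_right _ _) hn
  have hle : Fintype.card (I5 m) ≤ Fintype.card (Fin n) := by
    rw [Fintype.card_fin]
    omega
  obtain ⟨e⟩ := Function.Embedding.nonempty_of_card_le hle
  obtain ⟨P0, _, hPR, htyp⟩ := hs n hn0 e e.injective Ω w W hW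
  have hset : SetS L ρ w W (⇑e) P0 := by
    refine ⟨hW, e.injective, hK1, hrep, ?_, hρ, hρ1⟩
    exact htyp
  refine ⟨UN L ρ w W (⇑e) P0, PN w W, ?_⟩
  refine ⟨ss_rules hset, ?_, ?_, ?_, ?_⟩
  · have h1 := ss_nice hset R hPR
    refine le_trans h1 ?_
    apply Real.exp_le_exp.2
    rw [← hKd]
    have h2 := ssfin_div n K hKpos hn2
    have h3 : ρ / (2 * (K : ℝ)) * n = (n : ℝ) / (2 * (K : ℝ)) * ρ := by ring
    have h4 := mul_le_mul_of_nonneg_right h2 hρ.le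
    linarith
  · intro i i' _ hP
    exact hP
  · intro i i' hU hP
    rcases ss_type hset i i' hU with h | h
    · exact absurd h.1 hP
    · exact h.2.1
  · intro i i' hU hP
    obtain ⟨j, j', h⟩ := ss_mnum hset i i' hU hP
    exact ⟨j, j', ssfin_mono hρ2 h⟩

end Pool.Agent.LP.SS
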