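import Pool.Agent.LP.LTV
import Pool.Agent.LP.SSFin

/-!
# LP: output for near star laws

`near_out` : combine `star_law` (with `ε / 2`) and `near_tv` (with `η' = min (ε / 2) (min (exp (-c n)) (1/100))`); all
fields of `StarOut` are inequalities between probabilities of events of the star graph, and each probability changes by
at most `η'`.
-/

set_option autoImplicit false

open Finset
open scoped Classical

namespace Pool.Agent.LP

open Pool.Agent.OIP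

/-- output for near laws (`StarOut` with slightly weaker constants) -/
structure Typ {Λ : Type} {n : ℕ} (L : SimpleGraph Λ) (ε e₁ : ℝ)
    (Q : Set (SimpleGraph (LV Λ (Fin n))) → ℝ) (U : Λ → Λ → Prop) (P : Λ → Prop) : Prop where
  rules : Rules L U P
  nice : Q {G | ¬ Nice L (1 / 1000) U G} ≤ e₁
  pend : ∀ i i', U i i' → P i → 1 / 6 ≤ Q {G | 100 * hdeg G i ≤ n}
  mend : ∀ i i', U i i' → ¬ P i → Q {G | 5 * hdeg G i ≤ n} ≤ 1 / 50
  mnum : ∀ i i', U i i' → ¬ P i → ∃ j j', MNum ε Q i i' j j'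

theorem lout_mnum {Λ : Type} {n : ℕ} (ε : ℝ) {Q Q' : Set (SimpleGraph (LV Λ (Fin n))) → ℝ}
    (h : ∀ A, |Q A - Q' A| ≤ ε / 2) {i i' : Λ} {j j' : Fin n} (hM : MNum (ε / 2) Q' i i' j j') :
    MNum ε Q i i' j j' where
  ne := hM.ne
  a1 := by
    have h1 := (abs_le.1 (h {G | EvA i i' j j' G})).1
    have h2 := hM.a1
    linarith
  a2 := by
    have h1 := (abs_le.1 (h {G | EvA i i' j j' G ∧ ¬ SameMaj G i i'})).2
    have h2 := hM.a2
    linarith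
  b := by
    have h1 := (abs_le.1 (h {G | EvA i i' j j' G ∧ G.Adj (hub i) (leaf (i, j))})).1
    have h2 := hM.b
    linarith
  c := by
    have h1 := (abs_le.1 (h {G | EvA i i' j j' G ∧ G.Adj (hub i) (leaf (i, j'))})).1
    have h2 := hM.c
    linarith
  d := by
    have h1 := (abs_le.1 (h {G | EvA i i' j j' G ∧ ¬ SameMaj G i i' ∧
      G.Adj (hub i) (leaf (i, j')) ∧ ¬ G.Adj (hub i) (hub i')})).2
    have h2 := hM.d
    linarith

theorem near_out {Λ : Type} [Fintype Λ] [DecidableEq Λ] (L : SimpleGraph Λ) (hL : ∀ i, ∃ i', L.Adj i i')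
    (ε : ℝ) (hε : 0 < ε) :
    ∃ (c : ℝ) (n₀ : ℕ), 0 < c ∧ ∀ n : ℕ, n₀ ≤ n → ∃ η : ℝ, 0 < η ∧ ∀ (Ω : Type) [Fintype Ω] (w : Ω → ℝ)
      (W : Ω → SimpleGraph (LV Λ (Fin n))), NearL L η pc w W →
      ∃ (U : Λ → Λ → Prop) (P : Λ → Prop),
        Typ L ε (2 * Real.exp (-c * n)) (fun A => pr w {ω | W ω ∈ A}) U P := by
  obtain ⟨c, n₀, hc, hstar⟩ := SS.star_law' L hL (ε / 2) (by linarith)
  refine ⟨c, n₀, hc, fun n hn => ?_⟩
  have hη' : 0 < min (ε / 2) (min (Real.exp (-c * n)) (1 / 100)) :=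
    lt_min (by linarith) (lt_min (Real.exp_pos _) (by norm_num))
  obtain ⟨η, hη, hnear⟩ := near_tv (κ := Fin n) L pc _ hη'
  refine ⟨η, hη, fun Ω _ w W hW => ?_⟩
  obtain ⟨Ω', hF, w', W', hL, htv⟩ := hnear Ω w W hW
  obtain ⟨U, P, hS⟩ := hstar n hn Ω' w' W' hL
  have t1 : ∀ A : Set (SimpleGraph (LV Λ (Fin n))),
      |pr w {ω | W ω ∈ A} - pr w' {ω | W' ω ∈ A}| ≤ ε / 2 := fun A =>
    (htv A).trans (min_le_left _ _)
  have t2 : ∀ A : Set (SimpleGraph (LV Λ (Fin n))),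
      |pr w {ω | W ω ∈ A} - pr w' {ω | W' ω ∈ A}| ≤ Real.exp (-c * n) := fun A =>
    (htv A).trans ((min_le_right _ _).trans (min_le_left _ _))
  have t3 : ∀ A : Set (SimpleGraph (LV Λ (Fin n))),
      |pr w {ω | W ω ∈ A} - pr w' {ω | W' ω ∈ A}| ≤ 1 / 100 := fun A =>
    (htv A).trans ((min_le_right _ _).trans (min_le_right _ _))
  refine ⟨U, P, ?_⟩
  refine ⟨hS.rules, ?_, ?_, ?_, ?_⟩
  · have h1 := (abs_le.1 (t2 {G | ¬ Nice L (1 / 1000) U G})).2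
    have h2 := hS.nice
    show pr w {ω | W ω ∈ {G | ¬ Nice L (1 / 1000) U G}} ≤ 2 * Real.exp (-c * n)
    have h2' : pr w' {ω | W' ω ∈ {G | ¬ Nice L (1 / 1000) U G}} ≤ Real.exp (-c * n) := h2
    linarith
  · intro i i' hU hP
    have h1 := (abs_le.1 (t3 {G | 100 * hdeg G i ≤ n})).1
    have h2 : 1 / 5 ≤ pr w' {ω | W' ω ∈ {G | 100 * hdeg G i ≤ n}} := hS.pend i i' hU hP
    show 1 / 6 ≤ pr w {ω | W ω ∈ {G | 100 * hdeg G i ≤ n}}
    linarith
  · intro i i' hU hP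
    have h1 := (abs_le.1 (t3 {G | 5 * hdeg G i ≤ n})).2
    have h2 : pr w' {ω | W' ω ∈ {G | 5 * hdeg G i ≤ n}} ≤ 1 / 100 := hS.mend i i' hU hP
    show pr w {ω | W ω ∈ {G | 5 * hdeg G i ≤ n}} ≤ 1 / 50
    linarith
  · intro i i' hU hP
    obtain ⟨j, j', hM⟩ := hS.mnum i i' hU hP
    exact ⟨j, j', lout_mnum ε t1 hM⟩

end Pool.Agent.LP
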