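import Pool.Agent.LP.LModel

/-!
# LP: rules for the sites `(O, K)`

`A` is a union of clusters of `G` (at least inside the windows).  `aa A O K` : the majority of the leaves of the site `(O, K)` lies in `A`.
`Pty μ W O K` : the site `(O, K)` is a P end (a function of the law only).

`aa_of_cluster`: if in the star graph `starV lam ι T G` the leaf `a` is connected (through leaves) with at least
`(1/2 + δ) n` leaves of layer `i`, then `aa A (lam i) (vsL ι)` holds iff the position of `a` lies in `A`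
(a connection in the star graph gives a connection in `G`, since connections of `G.comap φ` map to connections of `G`,
and `A` is closed).

`rules_model`: let `G` be nice.  If `aa` differs at adjacent layers `i`, `j` then they are not `LkOK`, hence `U i j`.
For `U i j` : `P i` implies `Pty` at `i` (`pend`, `1/6 ≥ 1/8`, `100 hdeg ≤ n` implies `50 degV ≤ |K|`), `¬ P i` implies
`¬ Pty` at `i` (`mend`, `50 degV ≤ |K|` implies `5 hdeg ≤ n`, and `1/50 < 1/8`); `hdeg = degV` (reindex by `ι`).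
Then `u1`, `u2`, `u3` of `Rules` give the three parts of `PRule`; for the last part (closedness) go through the
patterns of `aa` on the 4-cycle: two adjacent boundary links (common end not P, both other ends P), two opposite ones
(`u3`), four (impossible by `u1`, `u2`).
-/

set_option autoImplicit false

open MeasureTheory ProbabilityTheory
open scoped Classical

namespace Pool.Agent.LP

open Pool.Agent.OIP

section

variable {Ω D : Type} [MeasurableSpace Ω] [Fintype D] [DecidableEq D] {n : ℕ}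

/-- inside `R` the set `A` is a union of clusters of `G` -/
def ClosedOn (G : SimpleGraph (V D)) (R A : Set (V D)) : Prop := ∀ u ∈ R, ∀ v ∈ R, G.Adj u v → (u ∈ A ↔ v ∈ A)

/-- `A` is a union of clusters of `G` -/
def ClosedA (G : SimpleGraph (V D)) (A : Set (V D)) : Prop := ∀ u v, G.Adj u v → (u ∈ A ↔ v ∈ A)

/-- the window of a star without the hubs -/
def winV {Λ : Type} (lam : Λ → V D) (ι : Fin n → D) (T : Finset D) : Set (V D) :=
  {v | ∃ u : Λ × Finset D, u.2 ⊆ vsL ι ∪ T ∧ n ≤ u.2.card + 1 ∧ u.2 ≠ vsL ι ∧ v = phi lam u}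

theorem ClosedA.on {G : SimpleGraph (V D)} {A : Set (V D)} (h : ClosedA G A) (R : Set (V D)) : ClosedOn G R A :=
  fun u _ v _ => h u v

/-- number of open edges between the hub and the leaves of the site `(O, K)` -/
noncomputable def degV (G : SimpleGraph (V D)) (O : V D) (K : Finset D) : ℕ :=
  (K.filter (fun k => G.Adj (flip K O) (flip (K.erase k) O))).card

/-- the site `(O, K)` is a P end -/
def Pty (μ : Measure Ω) (W : Ω → SimpleGraph (V D)) (O : V D) (K : Finset D) : Prop :=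
  1 / 8 ≤ μ.real {ω | 50 * degV (W ω) O K ≤ K.card}

/-- height difference from `u` to `v` seen by `K`: `1` if `u` is the P end of a boundary link, `-1` if it is the M end -/
noncomputable def psi (A : Set (V D)) (Pt : V D → Finset D → Prop) (K : Finset D) (u v : V D) : ℤ :=
  if (aa A u K ↔ aa A v K) then 0 else if Pt u K then 1 else -1

/-- the rules of the plaquette at `O` with the directions `e`, `e'`, seen by `K` -/
def PRule (A : Set (V D)) (Pt : V D → Finset D → Prop) (O : V D) (e e' : Dir D) (K : Finset D) : Prop :=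
  (∀ i j, plaq.Adj i j → ¬ (aa A (lam4 O e e' i) K ↔ aa A (lam4 O e e' j) K) →
    (Pt (lam4 O e e' i) K ↔ ¬ Pt (lam4 O e e' j) K)) ∧
  (∀ i j j', plaq.Adj i j → plaq.Adj i j' → j ≠ j' → ¬ (aa A (lam4 O e e' i) K ↔ aa A (lam4 O e e' j) K) →
    ¬ (aa A (lam4 O e e' i) K ↔ aa A (lam4 O e e' j') K) → ¬ Pt (lam4 O e e' i) K) ∧
  psi A Pt K O (mv e O) + psi A Pt K (mv e O) (mv e' (mv e O)) =
    psi A Pt K O (mv e' O) + psi A Pt K (mv e' O) (mv e' (mv e O))

/-- the window of the star is bad for `G`: not typical, or the failure event occurs -/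
def WBad (ε e₁ : ℝ) (μ : Measure Ω) (W : Ω → SimpleGraph (V D)) (O : V D) (e e' : Dir D) (ι : Fin n → D)
    (T : Finset D) (G : SimpleGraph (V D)) : Prop :=
  (¬ ∃ U P, TypV ε e₁ μ W O e e' ι T U P) ∨ G ∈ FailV ε e₁ μ W O e e' ι T

theorem lrules_starV_hub {Λ : Type} (lam : Λ → V D) (ι : Fin n → D) (T : Finset D)
    (G : SimpleGraph (V D)) (i : Λ) (k : Fin n) : (starV lam ι T G).Adj (hub i) (leaf (i, k)) ↔
      G.Adj (flip (vsL ι) (lam i)) (flip ((vsL ι).erase (ι k)) (lam i)) := Iff.rfl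

theorem degV_eq {Λ : Type} (lam : Λ → V D) {ι : Fin n → D} (hι : Function.Injective ι) (T : Finset D)
    (G : SimpleGraph (V D)) (i : Λ) : hdeg (starV lam ι T G) i = degV G (lam i) (vsL ι) := by
  unfold hdeg degV
  have h1 : (vsL ι).filter (fun k => G.Adj (flip (vsL ι) (lam i)) (flip ((vsL ι).erase k) (lam i))) =
      (Finset.univ.filter (fun k : Fin n => (starV lam ι T G).Adj (hub i) (leaf (i, k)))).image ι := by
    ext d
    simp only [Finset.mem_filter, Finset.mem_image, Finset.mem_univ, true_and]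
    constructor
    · rintro ⟨hd, hadj⟩
      unfold vsL at hd
      obtain ⟨k, -, rfl⟩ := Finset.mem_image.1 hd
      exact ⟨k, (lrules_starV_hub lam ι T G i k).2 hadj, rfl⟩
    · rintro ⟨k, hk, rfl⟩
      exact ⟨mem_vsL ι k, (lrules_starV_hub lam ι T G i k).1 hk⟩
  rw [h1, Finset.card_image_of_injective _ hι]

theorem lrules_far {Λ : Type} (lam : Λ → V D) (ι : Fin n → D) (T : Finset D) {u : Λ × Finset D}
    (hu : u ∈ (farL ι T : Set (Λ × Finset D))) : phi lam u ∈ winV lam ι T := by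
  obtain ⟨h1, ⟨t, _, h2, h3⟩, h4⟩ := hu
  exact ⟨u, h1, h4, fun h => h3 (h ▸ h2), rfl⟩

theorem lrules_leaf {Λ : Type} (lam : Λ → V D) {ι : Fin n → D} (hι : Function.Injective ι) (T : Finset D)
    (a : Λ × Fin n) : phi lam (xL ι (leaf a)) ∈ winV lam ι T := by
  refine ⟨xL ι (leaf a), (Finset.erase_subset _ _).trans Finset.subset_union_left, ?_, ?_, rfl⟩
  · show n ≤ ((vsL ι).erase (ι a.2)).card + 1
    rw [Finset.card_erase_of_mem (mem_vsL ι a.2), card_vsL hι]
    omega
  · intro h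
    have h4 := mem_vsL ι a.2
    rw [← h] at h4
    exact Finset.notMem_erase _ _ h4

/-- connections in `G` respect `A` -/
theorem lrules_cn {G : SimpleGraph (V D)} {Rg A : Set (V D)} (hA : ClosedOn G Rg A) {Λ : Type} (lam : Λ → V D)
    {R : Set (Λ × Finset D)} (hR : ∀ u ∈ R, phi lam u ∈ Rg) {u v : Λ × Finset D}
    (h : Cn (G.comap (phi lam)) R u v) : phi lam u ∈ A ↔ phi lam v ∈ A := by
  unfold Cn at h
  induction h with
  | refl => exact Iff.rfl
  | tail _ hbc ih => exact ih.trans (hA _ (hR _ hbc.2.1) _ (hR _ hbc.2.2) hbc.1)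

/-- connections among the leaves of the star respect `A` -/
theorem lrules_cnStar {G : SimpleGraph (V D)} {A : Set (V D)} {Λ : Type} (lam : Λ → V D)
    {ι : Fin n → D} (hι : Function.Injective ι) (T : Finset D) (hA : ClosedOn G (winV lam ι T) A)
    {s t : LV Λ (Fin n)} (h : Cn (starV lam ι T G) (Set.range Sum.inl) s t) :
    phi lam (xL ι s) ∈ A ↔ phi lam (xL ι t) ∈ A := by
  unfold Cn at h
  induction h with
  | refl => exact Iff.rfl
  | tail _ hbc ih =>
    refine ih.trans ?_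
    obtain ⟨hadj, ⟨b, rfl⟩, ⟨c, rfl⟩⟩ := hbc
    by_cases hbc : b.2 = c.2
    · have h1 : (G.comap (phi lam)).Adj (xL ι (leaf b)) (xL ι (leaf c)) :=
        (derL_adj_same (x := xL ι) (R := farL ι T) (G := G.comap (phi lam)) hbc).1 hadj
      exact hA _ (lrules_leaf lam hι T b) _ (lrules_leaf lam hι T c) h1
    · have h1 := (derL_adj_leaf (x := xL ι) (R := farL ι T) (G := G.comap (phi lam)) hbc).1 hadj
      refine lrules_cn hA lam ?_ h1
      rintro u (hu | rfl | rfl)
      · exact lrules_far lam ι T hu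
      · exact lrules_leaf lam hι T b
      · exact lrules_leaf lam hι T c

theorem aa_of_cluster {Λ : Type} (lam : Λ → V D) {ι : Fin n → D} (hι : Function.Injective ι) (T : Finset D)
    {G : SimpleGraph (V D)} {A : Set (V D)} (hA : ClosedOn G (winV lam ι T) A) {a : Λ × Fin n} {i : Λ}
    (ha : n < 2 * lcnt (starV lam ι T G) a i) :
    aa A (lam i) (vsL ι) ↔ phi lam (xL ι (leaf a)) ∈ A := by
  have hcard : ((vsL ι).filter (fun k => flip ((vsL ι).erase k) (lam i) ∈ A)).card =
      (Finset.univ.filter (fun k : Fin n => phi lam (xL ι (leaf (i, k))) ∈ A)).card := by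
    have h1 : (vsL ι).filter (fun k => flip ((vsL ι).erase k) (lam i) ∈ A) =
        (Finset.univ.filter (fun k : Fin n => phi lam (xL ι (leaf (i, k))) ∈ A)).image ι := by
      ext d
      simp only [Finset.mem_filter, Finset.mem_image, Finset.mem_univ, true_and]
      constructor
      · rintro ⟨hd, hadj⟩
        unfold vsL at hd
        obtain ⟨k, -, rfl⟩ := Finset.mem_image.1 hd
        exact ⟨k, hadj, rfl⟩
      · rintro ⟨k, hk, rfl⟩
        exact ⟨mem_vsL ι k, hk⟩
    rw [h1, Finset.card_image_of_injective _ hι]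
  have hcl : ∀ k : Fin n, Cn (starV lam ι T G) (Set.range Sum.inl) (leaf a) (leaf (i, k)) →
      (phi lam (xL ι (leaf a)) ∈ A ↔ phi lam (xL ι (leaf (i, k))) ∈ A) := fun k hk =>
    lrules_cnStar lam hι T hA hk
  unfold aa
  rw [hcard, card_vsL hι]
  unfold lcnt at ha
  constructor
  · intro h
    by_contra hna
    have hdis : Disjoint (Finset.univ.filter (fun k : Fin n => phi lam (xL ι (leaf (i, k))) ∈ A))
        (Finset.univ.filter (fun k : Fin n =>
          Cn (starV lam ι T G) (Set.range Sum.inl) (leaf a) (leaf (i, k)))) := by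
      rw [Finset.disjoint_left]
      intro k hk hk'
      exact hna ((hcl k (Finset.mem_filter.1 hk').2).2 (Finset.mem_filter.1 hk).2)
    have h2 := Finset.card_le_univ ((Finset.univ.filter (fun k : Fin n => phi lam (xL ι (leaf (i, k))) ∈ A)) ∪
        (Finset.univ.filter (fun k : Fin n =>
          Cn (starV lam ι T G) (Set.range Sum.inl) (leaf a) (leaf (i, k)))))
    rw [Finset.card_union_of_disjoint hdis, Fintype.card_fin] at h2
    omega
  · intro h
    have h2 : (Finset.univ.filter (fun k : Fin n =>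
          Cn (starV lam ι T G) (Set.range Sum.inl) (leaf a) (leaf (i, k)))).card ≤
        (Finset.univ.filter (fun k : Fin n => phi lam (xL ι (leaf (i, k))) ∈ A)).card := by
      apply Finset.card_le_card
      intro k hk
      rw [Finset.mem_filter] at hk ⊢
      exact ⟨hk.1, (hcl k hk.2).1 h⟩
    omega

theorem lrules_majority {κ Λ : Type} [Fintype κ] {m : ℕ} (hm : Fintype.card κ = m) (hm1 : 1 ≤ m)
    {G : SimpleGraph (LV Λ κ)} {a : Λ × κ} {i : Λ}
    (h : (1 / 2 + 1 / 1000 : ℝ) * (Fintype.card κ : ℝ) ≤ (lcnt G a i : ℝ)) : m < 2 * lcnt G a i := by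
  rw [hm] at h
  have h1 : (1 : ℝ) ≤ (m : ℝ) := by exact_mod_cast hm1
  have h2 : (m : ℝ) < 2 * (lcnt G a i : ℝ) := by linarith
  exact_mod_cast h2

/-- the combinatorial part of closedness -/
theorem lrules_closed (A : Set (V D)) (Pt : V D → Finset D → Prop) (K : Finset D) (v0 v1 v2 v3 : V D)
    (h01 : ¬ (aa A v0 K ↔ aa A v1 K) → (Pt v0 K ↔ ¬ Pt v1 K))
    (h13 : ¬ (aa A v1 K ↔ aa A v3 K) → (Pt v1 K ↔ ¬ Pt v3 K))
    (h02 : ¬ (aa A v0 K ↔ aa A v2 K) → (Pt v0 K ↔ ¬ Pt v2 K))
    (h23 : ¬ (aa A v2 K ↔ aa A v3 K) → (Pt v2 K ↔ ¬ Pt v3 K))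
    (k0 : ¬ (aa A v0 K ↔ aa A v1 K) → ¬ (aa A v0 K ↔ aa A v2 K) → ¬ Pt v0 K)
    (k1 : ¬ (aa A v0 K ↔ aa A v1 K) → ¬ (aa A v1 K ↔ aa A v3 K) → ¬ Pt v1 K)
    (k2 : ¬ (aa A v0 K ↔ aa A v2 K) → ¬ (aa A v2 K ↔ aa A v3 K) → ¬ Pt v2 K)
    (k3 : ¬ (aa A v1 K ↔ aa A v3 K) → ¬ (aa A v2 K ↔ aa A v3 K) → ¬ Pt v3 K)
    (l1 : ¬ (aa A v0 K ↔ aa A v1 K) → ¬ (aa A v2 K ↔ aa A v3 K) → (Pt v0 K ↔ Pt v2 K))
    (l2 : ¬ (aa A v1 K ↔ aa A v3 K) → ¬ (aa A v0 K ↔ aa A v2 K) → (Pt v1 K ↔ Pt v0 K)) :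
    psi A Pt K v0 v1 + psi A Pt K v1 v3 = psi A Pt K v0 v2 + psi A Pt K v2 v3 := by
  unfold psi
  by_cases a0 : aa A v0 K <;> by_cases a1 : aa A v1 K <;> by_cases a2 : aa A v2 K <;>
    by_cases a3 : aa A v3 K <;> by_cases p0 : Pt v0 K <;> by_cases p1 : Pt v1 K <;>
    by_cases p2 : Pt v2 K <;> by_cases p3 : Pt v3 K <;> simp_all

theorem rules_model {ε e₁ : ℝ} {μ : Measure Ω} {W : Ω → SimpleGraph (V D)} (hM : IsProbabilityMeasure μ)
    (hn : 1 ≤ n) {O : V D} {e e' : Dir D} {ι : Fin n → D} {T : Finset D} {G : SimpleGraph (V D)}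
    (h : ¬ WBad ε e₁ μ W O e e' ι T G) {A : Set (V D)} (hA : ClosedOn G (winV (lam4 O e e') ι T) A) :
    PRule A (Pty μ W) O e e' (vsL ι) := by
  unfold WBad at h
  push Not at h
  obtain ⟨hex, hFV⟩ := h
  have hT := typV_UU hex
  set U := UU ε e₁ μ W O e e' ι T with hU
  set P := PP ε e₁ μ W O e e' ι T with hP
  obtain ⟨hι, hsub, hTyp⟩ := hT
  have hnice : Nice plaq (1 / 1000) U (starV (lam4 O e e') ι T G) := by
    by_contra hcon
    exact hFV ⟨hex, hcon⟩
  obtain ⟨hmaj, hlk⟩ := hnice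
  have hR := hTyp.rules
  have hcard : Fintype.card (Fin n) = n := Fintype.card_fin n
  -- boundary links are unlinked
  have hbd : ∀ i j, plaq.Adj i j →
      ¬ (aa A (lam4 O e e' i) (vsL ι) ↔ aa A (lam4 O e e' j) (vsL ι)) → U i j := by
    intro i j hij hne
    by_contra hU'
    obtain ⟨a, ha1, ha2⟩ := hlk i j hij hU'
    have h1 := aa_of_cluster (lam4 O e e') hι T hA (lrules_majority hcard hn ha1)
    have h2 := aa_of_cluster (lam4 O e e') hι T hA (lrules_majority hcard hn ha2)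
    exact hne (h1.trans h2.symm)
  -- types
  have hPt : ∀ i j, U i j → (Pty μ W (lam4 O e e' i) (vsL ι) ↔ P i) := by
    intro i j hij
    unfold Pty
    rw [card_vsL hι]
    constructor
    · intro h1
      by_contra hPi
      have h2 := hTyp.mend i j hij hPi
      have h3 : μ.real {ω | 50 * degV (W ω) (lam4 O e e' i) (vsL ι) ≤ n} ≤
          μ.real {ω | starV (lam4 O e e') ι T (W ω) ∈
            {G : SimpleGraph (LV (Bool × Bool) (Fin n)) | 5 * hdeg G i ≤ n}} := by
        apply measureReal_mono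
        · intro ω hω
          have hω' : 50 * degV (W ω) (lam4 O e e' i) (vsL ι) ≤ n := hω
          show 5 * hdeg (starV (lam4 O e e') ι T (W ω)) i ≤ n
          rw [degV_eq (lam4 O e e') hι T (W ω) i]
          omega
        · exact measure_ne_top _ _
      have h4 := h1.trans (h3.trans h2)
      norm_num at h4
    · intro hPi
      have h2 := hTyp.pend i j hij hPi
      have h3 : μ.real {ω | starV (lam4 O e e') ι T (W ω) ∈
            {G : SimpleGraph (LV (Bool × Bool) (Fin n)) | 100 * hdeg G i ≤ n}} ≤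
          μ.real {ω | 50 * degV (W ω) (lam4 O e e' i) (vsL ι) ≤ n} := by
        apply measureReal_mono
        · intro ω hω
          have hω' : 100 * hdeg (starV (lam4 O e e') ι T (W ω)) i ≤ n := hω
          rw [degV_eq (lam4 O e e') hι T (W ω) i] at hω'
          show 50 * degV (W ω) (lam4 O e e' i) (vsL ι) ≤ n
          omega
        · exact measure_ne_top _ _
      have h4 : (1 / 6 : ℝ) ≤ μ.real {ω | 50 * degV (W ω) (lam4 O e e' i) (vsL ι) ≤ n} := h2.trans h3
      linarith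
  have hPt' : ∀ i j, U i j → (Pty μ W (lam4 O e e' j) (vsL ι) ↔ P j) := fun i j hij =>
    hPt j i (hR.symm i j hij)
  have H1 : ∀ i j, plaq.Adj i j →
      ¬ (aa A (lam4 O e e' i) (vsL ι) ↔ aa A (lam4 O e e' j) (vsL ι)) →
      (Pty μ W (lam4 O e e' i) (vsL ι) ↔ ¬ Pty μ W (lam4 O e e' j) (vsL ι)) := by
    intro i j hij hne
    have hu := hbd i j hij hne
    rw [hPt i j hu, hPt' i j hu]
    exact hR.u1 i j hu
  have H2 : ∀ i j j', plaq.Adj i j → plaq.Adj i j' → j ≠ j' →
      ¬ (aa A (lam4 O e e' i) (vsL ι) ↔ aa A (lam4 O e e' j) (vsL ι)) →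
      ¬ (aa A (lam4 O e e' i) (vsL ι) ↔ aa A (lam4 O e e' j') (vsL ι)) →
      ¬ Pty μ W (lam4 O e e' i) (vsL ι) := by
    intro i j j' hij hij' hjj' hne hne'
    have hu := hbd i j hij hne
    have hu' := hbd i j' hij' hne'
    rw [hPt i j hu]
    exact hR.u2 i j j' hu hu' hjj'
  have H3 : ∀ i i' j j', plaq.Adj i i' → plaq.Adj j j' → plaq.Adj i j → i' ≠ j → j' ≠ i →
      ¬ (aa A (lam4 O e e' i) (vsL ι) ↔ aa A (lam4 O e e' i') (vsL ι)) →
      ¬ (aa A (lam4 O e e' j) (vsL ι) ↔ aa A (lam4 O e e' j') (vsL ι)) →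
      (Pty μ W (lam4 O e e' i) (vsL ι) ↔ Pty μ W (lam4 O e e' j) (vsL ι)) := by
    intro i i' j j' hii' hjj' hij hn1 hn2 hne hne'
    have hu := hbd i i' hii' hne
    have hu' := hbd j j' hjj' hne'
    rw [hPt i i' hu, hPt j j' hu']
    exact hR.u3 i i' j j' hu hu' hij hn1 hn2
  refine ⟨H1, H2, ?_⟩
  have sy : ∀ p q : Prop, ¬ (p ↔ q) → ¬ (q ↔ p) := fun p q h h' => h h'.symm
  have e01 : plaq.Adj (false, false) (true, false) := Or.inr ⟨by simp, rfl⟩
  have e10 : plaq.Adj (true, false) (false, false) := Or.inr ⟨by simp, rfl⟩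
  have e13 : plaq.Adj (true, false) (true, true) := Or.inl ⟨rfl, by simp⟩
  have e31 : plaq.Adj (true, true) (true, false) := Or.inl ⟨rfl, by simp⟩
  have e02 : plaq.Adj (false, false) (false, true) := Or.inl ⟨rfl, by simp⟩
  have e20 : plaq.Adj (false, true) (false, false) := Or.inl ⟨rfl, by simp⟩
  have e23 : plaq.Adj (false, true) (true, true) := Or.inr ⟨by simp, rfl⟩
  have e32 : plaq.Adj (true, true) (false, true) := Or.inr ⟨by simp, rfl⟩
  exact lrules_closed A (Pty μ W) (vsL ι) (lam4 O e e' (false, false)) (lam4 O e e' (true, false))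
    (lam4 O e e' (false, true)) (lam4 O e e' (true, true))
    (H1 _ _ e01) (H1 _ _ e13) (H1 _ _ e02) (H1 _ _ e23)
    (fun a b => H2 _ _ _ e01 e02 (by simp) a b)
    (fun a b => H2 _ _ _ e10 e13 (by simp) (sy _ _ a) b)
    (fun a b => H2 _ _ _ e20 e23 (by simp) (sy _ _ a) b)
    (fun a b => H2 _ _ _ e31 e32 (by simp) (sy _ _ a) (sy _ _ b))
    (fun a b => H3 _ _ _ _ e01 e23 e02 (by simp) (by simp) a b)
    (fun a b => H3 _ _ _ _ e13 e02 e10 (by simp) (by simp) a b)

theorem lrules_perm {B C : Finset D} (h : B.card = C.card) : ∃ τ : Equiv.Perm D, B = C.image τ := by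
  let f : {x // x ∈ C} ≃ {x // x ∈ B} := Finset.equivOfCardEq h.symm
  refine ⟨f.extendSubtype, ?_⟩
  symm
  apply Finset.eq_of_subset_of_card_le
  · intro d hd
    obtain ⟨c, hc, rfl⟩ := Finset.mem_image.1 hd
    rw [Equiv.extendSubtype_apply_of_mem f c hc]
    exact (f ⟨c, hc⟩).2
  · rw [Finset.card_image_of_injective _ (Equiv.injective _), h]

/-- the fraction of the `K` for which the plaquette rule fails -/
theorem rules_avg {ε e₁ : ℝ} {μ : Measure Ω} {W : Ω → SimpleGraph (V D)} (hM : IsProbabilityMeasure μ)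
    (hn : 1 ≤ n) {O : V D} {e e' : Dir D} {ι : Fin n → D} (hι : Function.Injective ι) {I : ℕ} (hI : 1 ≤ I)
    (T : ℕ → Finset D) {G : SimpleGraph (V D)} {A : Set (V D)}
    (hA : ∀ (σ : Equiv.Perm D) (t : ℕ), ClosedOn G (winV (lam4 O e e') (σ ∘ ι) ((T t).image σ)) A)
    {B : Finset D} (hB : B.card = n) :
    avg (fun σ : Equiv.Perm D => ind (¬ PRule A (Pty μ W) O e e' (B.image σ))) ≤
      avg (fun t : Fin I => avg (fun σ : Equiv.Perm D =>
        ind (WBad ε e₁ μ W O e e' (σ ∘ ι) ((T t).image σ) G))) := by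
  obtain ⟨τ, hτ⟩ := lrules_perm (B := B) (C := vsL ι) (by rw [hB, card_vsL hι])
  have h1 : avg (fun σ : Equiv.Perm D => ind (¬ PRule A (Pty μ W) O e e' (B.image σ))) =
      avg (fun σ : Equiv.Perm D => ind (¬ PRule A (Pty μ W) O e e' (vsL (σ ∘ ι)))) := by
    rw [← avg_perm_mul_right τ (fun σ : Equiv.Perm D => ind (¬ PRule A (Pty μ W) O e e' (vsL (σ ∘ ι))))]
    congr 1
    funext σ
    have h2 : B.image σ = vsL ((σ * τ : Equiv.Perm D) ∘ ι) := by
      rw [vsL_perm, hτ, Finset.image_image]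
      rfl
    rw [h2]
  rw [h1]
  have : Nonempty (Fin I) := ⟨⟨0, hI⟩⟩
  rw [← avg_const (X := Fin I) (avg (fun σ : Equiv.Perm D => ind (¬ PRule A (Pty μ W) O e e' (vsL (σ ∘ ι)))))]
  refine avg_mono fun t => avg_mono fun σ => ind_mono fun hP => ?_
  by_contra hW
  exact hP (rules_model hM hn hW (hA σ t))

end

end Pool.Agent.LP
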