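import Pool.Agent.LP.LClique
import Pool.Agent.OIP.Sat

/-!
# LP: saturation, summed over the scales

Compare `OIP.saturation`: with reference sets `Q t`, `|Q t| = M 4^t`, disjoint from `F`, the averages
`φ t = avg_σ f σ (Q t)` satisfy `avg f (P t) = φ t`, `avg f (P' t) ≤ φ (t + 1)`, so the sum telescopes.
-/

set_option autoImplicit false

open Finset
open scoped Classical

namespace Pool.Agent.LP

open Pool.Agent.OIP

theorem sat_sum {X : Type} [Fintype X] [DecidableEq X] (F : Finset X) (f : Equiv.Perm X → Finset X → ℝ)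
    (hmono : ∀ σ (P P' : Finset X), P ⊆ P' → f σ P ≤ f σ P') (h0 : ∀ σ P, 0 ≤ f σ P) (h1 : ∀ σ P, f σ P ≤ 1)
    (hequiv : ∀ (σ π : Equiv.Perm X) (P : Finset X), (∀ x ∈ F, π x = x) → f (σ * π) P = f σ (P.image π))
    (M I : ℕ) (hM : 1 ≤ M) (hcard : M * 4 ^ I + F.card ≤ Fintype.card X) (P P' : ℕ → Finset X)
    (hP : ∀ t < I, Disjoint (P t) F ∧ (P t).card = M * 4 ^ t)
    (hP' : ∀ t < I, Disjoint (P' t) F ∧ (P' t).card ≤ M * 4 ^ (t + 1)) :
    ∑ t ∈ Finset.range I, (avg (fun σ => f σ (P' t)) - avg (fun σ => f σ (P t))) ≤ 1 := by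
  have hsame : ∀ (P P' : Finset X), Disjoint P F → Disjoint P' F → P.card = P'.card →
      avg (fun σ => f σ P) = avg (fun σ => f σ P') := by
    intro P P' hP hP' hc
    obtain ⟨π, hπF, hπ⟩ := sat_exists_perm F P P' hP hP' hc
    have h2 := avg_perm_mul_right π (fun σ => f σ P)
    rw [← h2]
    congr 1
    funext σ
    show f (σ * π) P = f σ P'
    rw [hequiv σ π P hπF, hπ]
  have hex : ∀ (n : ℕ), n ≤ M * 4 ^ I → ∃ P : Finset X, Disjoint P F ∧ P.card = n := by
    intro n hn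
    have hcc : n ≤ (Fᶜ).card := by
      rw [Finset.card_compl]
      omega
    obtain ⟨P, hPs, hPc⟩ := Finset.exists_subset_card_eq hcc
    refine ⟨P, ?_, hPc⟩
    rw [Finset.disjoint_left]
    intro x hx hxF
    exact (Finset.mem_compl.1 (hPs hx)) hxF
  have hle : ∀ (P P' : Finset X), Disjoint P F → Disjoint P' F → P.card ≤ P'.card →
      avg (fun σ => f σ P) ≤ avg (fun σ => f σ P') := by
    intro P P' hP hP' hc
    obtain ⟨P1, hP1s, hP1c⟩ := Finset.exists_subset_card_eq hc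
    have hP1 : Disjoint P1 F := Finset.disjoint_of_subset_left hP1s hP'
    rw [hsame P P1 hP hP1 hP1c.symm]
    exact avg_mono fun σ => hmono σ P1 P' hP1s
  have hpow : ∀ t, t ≤ I → M * 4 ^ t ≤ M * 4 ^ I := fun t ht =>
    Nat.mul_le_mul_left _ (Nat.pow_le_pow_right (by norm_num) ht)
  choose! Q hQd hQc using hex
  set φ : ℕ → ℝ := fun t => avg (fun σ => f σ (Q (M * 4 ^ t))) with hφ
  have hstep : ∀ t ∈ Finset.range I,
      avg (fun σ => f σ (P' t)) - avg (fun σ => f σ (P t)) ≤ φ (t + 1) - φ t := by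
    intro t ht
    have htI : t < I := Finset.mem_range.1 ht
    obtain ⟨hPd, hPc⟩ := hP t htI
    obtain ⟨hPd', hPc'⟩ := hP' t htI
    have e1 : avg (fun σ => f σ (P t)) = φ t :=
      hsame _ _ hPd (hQd _ (hpow t htI.le)) (by rw [hPc, hQc _ (hpow t htI.le)])
    have e2 : avg (fun σ => f σ (P' t)) ≤ φ (t + 1) :=
      hle _ _ hPd' (hQd _ (hpow (t + 1) htI)) (by rw [hQc _ (hpow (t + 1) htI)]; exact hPc')
    linarith
  refine (Finset.sum_le_sum hstep).trans ?_
  rw [Finset.sum_range_sub]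
  have g1 : φ I ≤ 1 := avg_le_of_le zero_le_one fun σ => h1 σ _
  have g0 : 0 ≤ φ 0 := avg_nonneg fun σ => h0 σ _
  linarith

/-- saturation for the edges of the derived star of the layered cube -/
theorem lsat {Λ : Type} {n : ℕ} (M I : ℕ) (hM : 1 ≤ M) {D : Type} [Fintype D] [DecidableEq D]
    (hD : M * 4 ^ I + n ≤ Fintype.card D) {Ω : Type} [Fintype Ω] {w : Ω → ℝ} (hw : IsLaw w)
    (W : Ω → SimpleGraph (Λ × Finset D)) (ι : Fin n → D) (a b : Λ × Fin n) (P P' : ℕ → Finset D)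
    (hP : ∀ t < I, Disjoint (P t) (vsL ι) ∧ (P t).card = M * 4 ^ t)
    (hP' : ∀ t < I, Disjoint (P' t) (vsL ι) ∧ (P' t).card ≤ M * 4 ^ (t + 1)) :
    ∑ t ∈ Finset.range I,
      (avg (fun σ : Equiv.Perm D => pr w {ω | (starC (σ ∘ ι) ((P' t).image σ) (W ω)).Adj (leaf a) (leaf b)}) -
      avg (fun σ : Equiv.Perm D => pr w {ω | (starC (σ ∘ ι) ((P t).image σ) (W ω)).Adj (leaf a) (leaf b)})) ≤ 1 := by
  refine sat_sum (vsL ι)
    (fun (σ : Equiv.Perm D) (T : Finset D) =>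
      pr w {ω | (starC (σ ∘ ι) (T.image σ) (W ω)).Adj (leaf a) (leaf b)})
    ?_ (fun σ P => pr_nonneg hw _) (fun σ P => pr_le_one hw _) ?_ M I hM ?_ P P' hP hP'
  · intro σ P P' hPP
    refine pr_mono hw fun ω hω => ?_
    have h1 : (derL (xL (σ ∘ ι)) (farL (σ ∘ ι) (P.image σ)) (W ω)).Adj (leaf a) (leaf b) := hω
    exact derL_mono (farL_mono (σ ∘ ι) (Finset.image_subset_image hPP)) (W ω) h1
  · intro σ π P hπ
    have h1 : (⇑(σ * π) ∘ ι) = ⇑σ ∘ ι := by
      funext j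
      show σ (π (ι j)) = σ (ι j)
      rw [hπ (ι j) (mem_vsL ι j)]
    have h2 : P.image ⇑(σ * π) = (P.image ⇑π).image ⇑σ := by
      rw [Finset.image_image]
      rfl
    simp only [h1, h2]
  · have h1 : (vsL ι).card ≤ n := by
      refine le_trans Finset.card_image_le ?_
      rw [Finset.card_univ, Fintype.card_fin]
    omega

end Pool.Agent.LP
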