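import Pool.Agent.LP.VDefs
import Pool.Agent.LP.HUnif
import Pool.Agent.LP.HBas
import Pool.Agent.OIP.Sat

/-!
# LP: the system of sites (bridge from the rules of Part I to the heights of Part II)

`sysH`: stars `σ : Perm D` with the directions `σ ∘ ι`; `good_of`: the structure `Good` of `HDefs` from the averages of
`PRule` and `SwapRule`.
-/

set_option autoImplicit false

open MeasureTheory ProbabilityTheory
open scoped Classical

namespace Pool.Agent.LP

open Pool.Agent.OIP

section

variable {D : Type} [DecidableEq D]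

theorem mv_eq (O : V D) (x : Dir D) : Pool.LPH.mv O x = mv x O := by
  rcases x with ⟨i, s⟩ | d
  · rfl
  · rfl

theorem ax_iff (x y : Dir D) : Pool.LPH.Ax x y ↔ ax x ≠ ax y := by
  rcases x with ⟨i, s⟩ | d <;> rcases y with ⟨j, t⟩ | d'
  · show i ≠ j ↔ (Sum.inl i : Fin 4 ⊕ D) ≠ Sum.inl j
    rw [ne_eq, ne_eq, Sum.inl.injEq]
  · show True ↔ (Sum.inl i : Fin 4 ⊕ D) ≠ Sum.inr d'
    simp
  · show True ↔ (Sum.inr d : Fin 4 ⊕ D) ≠ Sum.inl j
    simp
  · show d ≠ d' ↔ (Sum.inr d : Fin 4 ⊕ D) ≠ Sum.inr d'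
    rw [ne_eq, ne_eq, Sum.inr.injEq]

theorem fl_flip (O : V D) (l : List D) (hl : l.Nodup) : Pool.LPH.fl O l = flip l.toFinset O := by
  induction l generalizing O with
  | nil =>
    show O = flip ∅ O
    unfold flip
    rw [show symmDiff O.2 (∅ : Finset D) = O.2 from symmDiff_bot _]
  | cons d l ih =>
    rw [List.nodup_cons] at hl
    rw [Pool.LPH.fl_cons, ih _ hl.2]
    show flip l.toFinset (O.1, symmDiff O.2 {d}) = flip (d :: l).toFinset O
    unfold flip
    refine Prod.ext rfl ?_
    show symmDiff (symmDiff O.2 {d}) l.toFinset = symmDiff O.2 (d :: l).toFinset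
    rw [symmDiff_assoc, List.toFinset_cons]
    congr 1
    ext x
    have hd : d ∉ l.toFinset := by rw [List.mem_toFinset]; exact hl.1
    simp only [Finset.mem_symmDiff, Finset.mem_singleton, Finset.mem_insert]
    by_cases hx : x = d
    · subst hx
      simp [hd]
    · simp [hx]

theorem pdir_nodup {n : ℕ} {ι : Fin n → D} (hι : Function.Injective ι) (σ : Equiv.Perm D) :
    (Pool.LPH.pdir ι σ).Nodup := List.nodup_ofFn.2 (σ.injective.comp hι)

theorem pdir_toFinset {n : ℕ} (ι : Fin n → D) (σ : Equiv.Perm D) :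
    (Pool.LPH.pdir ι σ).toFinset = (vsL ι).image σ := by
  ext x
  unfold Pool.LPH.pdir vsL
  simp [List.mem_ofFn]

theorem fl_pdir {n : ℕ} {ι : Fin n → D} (hι : Function.Injective ι) (σ : Equiv.Perm D) (O : V D) :
    Pool.LPH.fl O (Pool.LPH.pdir ι σ) = flip ((vsL ι).image σ) O := by
  rw [fl_flip _ _ (pdir_nodup hι σ), pdir_toFinset]

end

section pair

variable {D : Type} [Fintype D] [DecidableEq D]

theorem avg_image_mem (b : D) (B : Finset D) :
    avg (fun σ : Equiv.Perm D => ind (σ b ∈ B)) = (B.card : ℝ) / (Fintype.card D : ℝ) := by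
  have hne : Nonempty D := ⟨b⟩
  have hN : (0 : ℝ) < (Fintype.card D : ℝ) := by exact_mod_cast Fintype.card_pos
  have h1 : ∀ x : D, avg (fun σ : Equiv.Perm D => ind (σ x ∈ B)) =
      avg (fun σ : Equiv.Perm D => ind (σ b ∈ B)) := by
    intro x
    have h := avg_perm_mul_right (Equiv.swap x b) (fun σ : Equiv.Perm D => ind (σ x ∈ B))
    rw [← h]
    congr 1
    funext σ
    rw [Equiv.Perm.mul_apply, Equiv.swap_apply_left]
  have h2 : avg (fun x : D => avg (fun σ : Equiv.Perm D => ind (σ x ∈ B))) =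
      avg (fun σ : Equiv.Perm D => ind (σ b ∈ B)) := by
    rw [funext h1, avg_const]
  rw [← h2, avg_comm]
  have h3 : ∀ σ : Equiv.Perm D, avg (fun x : D => ind (σ x ∈ B)) = (B.card : ℝ) / (Fintype.card D : ℝ) := by
    intro σ
    rw [avg_equiv σ (fun y => ind (y ∈ B))]
    unfold avg
    congr 1
    rw [← Finset.sum_subset (Finset.subset_univ B) (fun x _ hx => by
      show ind (x ∈ B) = 0
      unfold ind
      rw [if_neg hx])]
    have h4 : ∀ x ∈ B, ind (x ∈ B) = 1 := fun x hx => by
      unfold ind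
      rw [if_pos hx]
    rw [Finset.sum_congr rfl h4, Finset.sum_const, nsmul_eq_mul, mul_one]
  rw [funext h3, avg_const]

/-- two independent stars: up to `n²/N` they are the two halves of a big star -/
theorem pair_avg {B B' : Finset D} (hd : Disjoint B B') (hc : B.card = B'.card)
    (Q : Finset D → Finset D → Prop) :
    avg (fun σ : Equiv.Perm D => avg (fun τ : Equiv.Perm D => ind (Q (B.image σ) (B.image τ)))) ≤
      (B.card : ℝ) ^ 2 / (Fintype.card D : ℝ) +
        avg (fun σ : Equiv.Perm D => ind (Q (B.image σ) (B'.image σ))) := by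
  have h1 : avg (fun σ : Equiv.Perm D => avg (fun τ : Equiv.Perm D => ind (Q (B.image σ) (B.image τ)))) =
      avg (fun ρ : Equiv.Perm D => avg (fun σ : Equiv.Perm D =>
        ind (Q (B.image σ) (B.image (σ * ρ : Equiv.Perm D))))) := by
    rw [avg_comm (fun ρ σ : Equiv.Perm D => ind (Q (B.image σ) (B.image (σ * ρ : Equiv.Perm D))))]
    congr 1
    funext σ
    exact (avg_equiv (Equiv.mulLeft σ) (fun τ : Equiv.Perm D => ind (Q (B.image σ) (B.image τ)))).symm
  have h2 : ∀ ρ : Equiv.Perm D, avg (fun σ : Equiv.Perm D =>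
        ind (Q (B.image σ) (B.image (σ * ρ : Equiv.Perm D)))) ≤
      ind (¬ Disjoint (B.image ρ) B) + avg (fun σ : Equiv.Perm D => ind (Q (B.image σ) (B'.image σ))) := by
    intro ρ
    by_cases hρ : Disjoint (B.image ρ) B
    · obtain ⟨π, hπ1, hπ2⟩ := sat_exists_perm B B' (B.image ρ) hd.symm hρ (by
        rw [Finset.card_image_of_injective _ ρ.injective, hc])
      have h3 : avg (fun σ : Equiv.Perm D => ind (Q (B.image σ) (B.image (σ * ρ : Equiv.Perm D)))) =
          avg (fun σ : Equiv.Perm D => ind (Q (B.image σ) (B'.image σ))) := by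
        rw [← avg_perm_mul_right π (fun σ : Equiv.Perm D => ind (Q (B.image σ) (B'.image σ)))]
        congr 1
        funext σ
        have e1 : B.image (σ * π : Equiv.Perm D) = B.image σ := by
          refine Finset.image_congr fun x hx => ?_
          show σ (π x) = σ x
          rw [hπ1 x hx]
        have e2 : B'.image (σ * π : Equiv.Perm D) = B.image (σ * ρ : Equiv.Perm D) := by
          have e3 : B'.image (σ * π : Equiv.Perm D) = (B'.image π).image σ := by
            rw [Finset.image_image]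
            rfl
          rw [e3, hπ2, Finset.image_image]
          rfl
        rw [e1, e2]
      rw [h3]
      have := ind_nonneg (¬ Disjoint (B.image ρ) B)
      linarith
    · have h3 : avg (fun σ : Equiv.Perm D => ind (Q (B.image σ) (B.image (σ * ρ : Equiv.Perm D)))) ≤ 1 :=
        avg_le_of_le zero_le_one fun σ => ind_le_one _
      have h4 : ind (¬ Disjoint (B.image ρ) B) = 1 := by
        unfold ind
        rw [if_pos hρ]
      have h5 : 0 ≤ avg (fun σ : Equiv.Perm D => ind (Q (B.image σ) (B'.image σ))) :=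
        avg_nonneg fun σ => ind_nonneg _
      rw [h4]
      linarith
  have h6 : avg (fun ρ : Equiv.Perm D => ind (¬ Disjoint (B.image ρ) B)) ≤
      (B.card : ℝ) ^ 2 / (Fintype.card D : ℝ) := by
    calc avg (fun ρ : Equiv.Perm D => ind (¬ Disjoint (B.image ρ) B))
        ≤ avg (fun ρ : Equiv.Perm D => ∑ b ∈ B, ind (ρ b ∈ B)) := by
          refine avg_mono fun ρ => ?_
          by_cases h : Disjoint (B.image ρ) B
          · have : ind (¬ Disjoint (B.image ρ) B) = 0 := by
              unfold ind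
              rw [if_neg (by simpa using h)]
            rw [this]
            exact Finset.sum_nonneg fun b _ => ind_nonneg _
          · rw [Finset.not_disjoint_iff] at h
            obtain ⟨x, hx, hxB⟩ := h
            obtain ⟨b, hb, rfl⟩ := Finset.mem_image.1 hx
            have h7 : ind (ρ b ∈ B) = 1 := by
              unfold ind
              rw [if_pos hxB]
            calc ind (¬ Disjoint (B.image ρ) B) ≤ 1 := ind_le_one _
              _ = ind (ρ b ∈ B) := h7.symm
              _ ≤ ∑ b ∈ B, ind (ρ b ∈ B) :=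
                Finset.single_le_sum (f := fun b => ind (ρ b ∈ B)) (fun b _ => ind_nonneg _) hb
      _ = ∑ b ∈ B, avg (fun ρ : Equiv.Perm D => ind (ρ b ∈ B)) := avg_sum _ _
      _ = ∑ _b ∈ B, (B.card : ℝ) / (Fintype.card D : ℝ) :=
          Finset.sum_congr rfl fun b _ => avg_image_mem b B
      _ = (B.card : ℝ) ^ 2 / (Fintype.card D : ℝ) := by
          rw [Finset.sum_const, nsmul_eq_mul]
          ring
  rw [h1]
  refine (avg_mono h2).trans ?_
  rw [avg_add, avg_const]
  linarith

end pair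

section sys

variable {Ω D : Type} [MeasurableSpace Ω] [Fintype D] [DecidableEq D] {n : ℕ}

theorem KK_eq (ι : Fin n → D) (σ : Equiv.Perm D) : KK ι σ = (vsL ι).image σ := by
  unfold KK vsL
  rw [Finset.image_image]
  rfl

theorem psi_bd (A : Set (V D)) (Pt : V D → Finset D → Prop) (K : Finset D) (u v : V D) :
    -1 ≤ psi A Pt K u v ∧ psi A Pt K u v ≤ 1 := by
  unfold psi
  split_ifs <;> norm_num

theorem psi_zero (A : Set (V D)) (Pt : V D → Finset D → Prop) (K : Finset D) (u v : V D) :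
    psi A Pt K u v = 0 ↔ (aa A u K ↔ aa A v K) := by
  unfold psi
  split_ifs with h1 h2
  · simp [h1]
  · simp [h1]
  · simp [h1]

theorem psi_pos {A : Set (V D)} {Pt : V D → Finset D → Prop} {K : Finset D} {u v : V D}
    (h : 0 < psi A Pt K u v) : ¬ (aa A u K ↔ aa A v K) ∧ Pt u K := by
  unfold psi at h
  split_ifs at h with h1 h2
  · exact absurd h (lt_irrefl 0)
  · exact ⟨h1, h2⟩
  · exact absurd h (by norm_num)

theorem psi_anti {A : Set (V D)} {Pt : V D → Finset D → Prop} {K : Finset D} {u v : V D}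
    (h : ¬ (aa A u K ↔ aa A v K) → (Pt u K ↔ ¬ Pt v K)) : psi A Pt K v u = - psi A Pt K u v := by
  unfold psi
  by_cases h1 : aa A u K ↔ aa A v K
  · rw [if_pos h1, if_pos h1.symm]
    rfl
  · have h2 : ¬ (aa A v K ↔ aa A u K) := fun h3 => h1 h3.symm
    have h3 := h h1
    rw [if_neg h1, if_neg h2]
    by_cases h4 : Pt u K
    · rw [if_pos h4, if_neg (h3.1 h4)]
    · have h5 : Pt v K := by
        by_contra h6
        exact h4 (h3.2 h6)
      rw [if_neg h4, if_pos h5]
      rfl

/-- the rule of the heights from the rule of the plaquette -/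
theorem rule_of_PRule (μ : Measure Ω) (W : Ω → SimpleGraph (V D)) (ι : Fin n → D) (A : Set (V D)) (O : V D)
    (e e' : Dir D) (σ : Equiv.Perm D) (h : PRule A (Pty μ W) O e e' ((vsL ι).image σ)) :
    (hsys μ W ι A).Rule O e e' σ := by
  obtain ⟨h1, h2, h3⟩ := h
  rw [← KK_eq] at h1 h2 h3
  set K : Finset D := KK ι σ with hK
  refine ⟨?_, ?_, ?_⟩
  · show psi A (Pty μ W) K (Pool.LPH.mv O e) (mv (Pool.LPH.opp e) (Pool.LPH.mv O e)) =
      - psi A (Pty μ W) K O (mv e O)
    rw [← mv_eq (Pool.LPH.mv O e), Pool.LPH.mv_opp, mv_eq]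
    exact psi_anti (h1 (false, false) (true, false) (Or.inr ⟨Bool.false_ne_true, rfl⟩))
  · show psi A (Pty μ W) K O (mv e O) + psi A (Pty μ W) K (Pool.LPH.mv O e) (mv e' (Pool.LPH.mv O e)) =
      psi A (Pty μ W) K O (mv e' O) + psi A (Pty μ W) K (Pool.LPH.mv O e') (mv e (Pool.LPH.mv O e'))
    rw [mv_eq, mv_eq, lmodel_mv_mv e e' O]
    exact h3
  · rintro ⟨h4, h5⟩
    have h6 := psi_pos h4
    have h7 := psi_pos h5
    exact h2 (false, false) (true, false) (false, true) (Or.inr ⟨Bool.false_ne_true, rfl⟩)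
      (Or.inl ⟨rfl, Bool.false_ne_true⟩) (by decide) h6.1 h7.1 h6.2

/-- **The structure `Good` from the averages of the rules.** -/
theorem good_of (μ : Measure Ω) (W : Ω → SimpleGraph (V D)) {ι : Fin n → D} (hι : Function.Injective ι)
    (hn : 1 ≤ n) (hN : 2 * n ≤ Fintype.card D) {B' : Finset D} (hd : Disjoint (vsL ι) B') (hB' : B'.card = n)
    (A : Set (V D)) (X : Set Pool.LPG.V) {θ θ₁ : ℝ} (hθ : 0 ≤ θ)
    (hrule : ∀ (O : V D) (e e' : Dir D), O.1 ∉ X → ax e ≠ ax e' →
      avg (fun σ : Equiv.Perm D => ind (¬ PRule A (Pty μ W) O e e' ((vsL ι).image σ))) ≤ θ)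
    (hswap : ∀ (O : V D) (e : Dir D), O.1 ∉ X →
      avg (fun σ : Equiv.Perm D => ind (¬ SwapRule A (Pty μ W) O e ((vsL ι).image σ) (B'.image σ))) ≤ θ₁)
    (hθ₁ : (n : ℝ) ^ 2 / (Fintype.card D : ℝ) + θ₁ ≤ θ) :
    Pool.LPH.Good (hsys μ W ι A) X n θ := by
  have hcard : (vsL ι).card = n := card_vsL hι
  have key : ∀ (O : V D) (e : Dir D), O.1 ∉ X →
      avg (fun σ : Equiv.Perm D => avg (fun τ : Equiv.Perm D =>
        ind (¬ SwapRule A (Pty μ W) O e ((vsL ι).image σ) ((vsL ι).image τ)))) ≤ θ := by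
    intro O e hO
    refine (pair_avg hd (hcard.trans hB'.symm) (fun K K' => ¬ SwapRule A (Pty μ W) O e K K')).trans ?_
    rw [hcard]
    have := hswap O e hO
    linarith
  refine ⟨hθ, hn, fun κ => Pool.LPH.pdir_length ι κ, fun O e κ => psi_bd _ _ _ _ _, ?_, ?_, ?_, ?_, ?_⟩
  · intro O e κ
    show psi A (Pty μ W) (KK ι κ) O (mv e O) = 0 ↔
      decide (aa A O (KK ι κ)) = decide (aa A (Pool.LPH.mv O e) (KK ι κ))
    rw [psi_zero, mv_eq, decide_eq_decide]
  · intro O e e' hO hax
    refine (avg_mono fun κ => ind_mono fun hn' hr => ?_).trans (hrule O e e' hO ((ax_iff e e').1 hax))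
    exact hn' (rule_of_PRule μ W ι A O e e' κ hr)
  · intro O hO
    refine le_trans (avg_mono fun κ => avg_mono fun κ' => ind_mono ?_) (key O (Sum.inl (0, true)) hO)
    intro hne hs
    apply hne
    show decide (aa A (Pool.LPH.fl O (Pool.LPH.pdir ι κ')) (KK ι κ)) =
      decide (aa A (Pool.LPH.fl O (Pool.LPH.pdir ι κ)) (KK ι κ'))
    rw [fl_pdir hι, fl_pdir hι, decide_eq_decide, KK_eq, KK_eq]
    exact hs.1
  · intro O e hO
    refine le_trans (avg_mono fun κ => avg_mono fun κ' => ind_mono ?_) (key O e hO)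
    intro hne hs
    apply hne
    show psi A (Pty μ W) (KK ι κ) (Pool.LPH.fl O (Pool.LPH.pdir ι κ'))
        (mv e (Pool.LPH.fl O (Pool.LPH.pdir ι κ'))) =
      psi A (Pty μ W) (KK ι κ') (Pool.LPH.fl O (Pool.LPH.pdir ι κ))
        (mv e (Pool.LPH.fl O (Pool.LPH.pdir ι κ)))
    rw [fl_pdir hι, fl_pdir hι, ← lmodel_flip_mv, ← lmodel_flip_mv, KK_eq, KK_eq]
    exact hs.2
  · intro i hi g hg
    exact Pool.LPH.perm_unif ι hι hN i hi g hg

end sys

end Pool.Agent.LP
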