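import Pool.Agent.LP.LRules
import Pool.Agent.LP.LHalf

/-!
# LP: the swap `(O + K', K) <-> (O + K, K')`

Star of size `2 n` at `O` with the directions `Fin.append ι ι'` (`K = σ (vsL ι)`, `K' = σ (vsL ι')`, `S = K ∪ K'`).
The leaf `k ∈ K` of the site `(O_i + K', K)` is the leaf `k` of the site `(O_i, S)` (`O_i = lam4 O e e' i`):
`flip (K.erase k) (flip K' O_i) = flip (S.erase k) O_i`, and both have the same hub `flip S O_i`.

If the window of the big star is not bad, every layer `i` has a cluster with at least `(1/2 + 1/1000) 2 n` leaves; by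
`halving` (`X S x := flip (S.erase x) O_i ∈ A` or its negation, `β = 1/2 + 1/1000`, `γ = 1/1000`) both halves have more
than `n / 2` leaves with the same `A`-status, except for a fraction `exp (- 2 n / 10^6)` of the `σ` for each of the
2 layers `O`, `O + e`, 2 halves, 2 statuses.  Then `aa A (flip K' O_i) K ↔ aa A O_i S ↔ aa A (flip K O_i) K'`.
If `aa` differs at the layers `O`, `O + e`, then `U` holds for this pair and one is `P`, the other one not `P` (for the
star of size `2 n`).  P end: `100 degV ≤ 2 n` has probability at least `1/6` and implies `50 degV ≤ n` for both halves: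
`Pty` for both halves.  M end: `μ (5 degV ≤ 2 n) ≤ 1/50`; the average over `σ` of
`μ (2 n ≤ 5 degV (size 2 n) and 50 degV (half) ≤ n)` is at most `exp (-2 (18/100)² n)` by `halving` (for every `ω`,
`X S x := (W ω).Adj (flip S O_i) (flip (S.erase x) O_i)`, `β = 1/5`, `γ = 18/100`), so for all but a fraction
`20 exp (- 6 n / 100)` of the `σ` it is at most `1/20` and then `μ (50 degV (half) ≤ n) ≤ 1/50 + 1/20 < 1/8`
(2 layers, 2 halves).  Total error `8 exp (-n / 500000) + 80 exp (- 6 n / 100) ≤ 100 exp (-n / 500000)`.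
-/

set_option autoImplicit false

open MeasureTheory ProbabilityTheory
open scoped Classical

namespace Pool.Agent.LP

open Pool.Agent.OIP

section

variable {Ω D : Type} [MeasurableSpace Ω] [Fintype D] [DecidableEq D] {n : ℕ}

/-- the swap rule -/
def SwapRule (A : Set (V D)) (Pt : V D → Finset D → Prop) (O : V D) (e : Dir D) (K K' : Finset D) : Prop :=
  (aa A (flip K' O) K ↔ aa A (flip K O) K') ∧
  psi A Pt K (flip K' O) (flip K' (mv e O)) = psi A Pt K' (flip K O) (flip K (mv e O))

theorem lswap_hub {K K' : Finset D} (h : Disjoint K K') (O : V D) :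
    flip K (flip K' O) = flip (K ∪ K') O := by
  unfold flip
  refine Prod.ext rfl ?_
  show symmDiff (symmDiff O.2 K') K = symmDiff O.2 (K ∪ K')
  rw [symmDiff_assoc]
  congr 1
  rw [symmDiff_comm]
  exact h.symmDiff_eq_sup

theorem lswap_leaf {K K' : Finset D} (h : Disjoint K K') (O : V D) {k : D} (hk : k ∈ K) :
    flip (K.erase k) (flip K' O) = flip ((K ∪ K').erase k) O := by
  have h1 : (K ∪ K').erase k = K.erase k ∪ K' := by
    rw [Finset.erase_union_distrib, Finset.erase_eq_of_notMem (Finset.disjoint_left.1 h hk)]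
  rw [h1]
  exact lswap_hub (Finset.disjoint_of_subset_left (Finset.erase_subset _ _) h) O

/-- the status of a leaf of the layer `v` -/
def lswap_X (A : Set (V D)) (v : V D) (q : Prop) : Finset D → D → Prop :=
  fun S x => (flip (S.erase x) v ∈ A) ↔ q

/-- the edge from the hub of the layer `v` to a leaf -/
def lswap_Y (G : SimpleGraph (V D)) (v : V D) : Finset D → D → Prop :=
  fun S x => G.Adj (flip S v) (flip (S.erase x) v)

/-- failure of the halving -/
def lswap_E (X : Finset D → D → Prop) (β γ : ℝ) (m : ℕ) (S K : Finset D) : Prop :=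
  2 * β * m ≤ ((S.filter (fun x => X S x)).card : ℝ) ∧
    ((K.filter (fun x => X S x)).card : ℝ) ≤ (β - γ) * m

/-- the leaves in the majority cluster -/
theorem lswap_count {Λ : Type} (lam : Λ → V D) {ι : Fin n → D} (hι : Function.Injective ι) (T : Finset D)
    {G : SimpleGraph (V D)} {A : Set (V D)} (hA : ClosedOn G (winV lam ι T) A) (hn : 1 ≤ n) {δ : ℝ}
    (hδ : 0 < δ) {i : Λ}
    (h : MajOK δ (starV lam ι T G) i) :
    (1 / 2 + δ) * (n : ℝ) ≤ (((vsL ι).filter (fun x =>
      lswap_X A (lam i) (aa A (lam i) (vsL ι)) (vsL ι) x)).card : ℝ) := by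
  obtain ⟨a, ha⟩ := h
  rw [Fintype.card_fin] at ha
  refine ha.trans ?_
  have hn' : (0 : ℝ) < (n : ℝ) := by exact_mod_cast hn
  have h2 : n < 2 * lcnt (starV lam ι T G) a i := by
    have h3 : (n : ℝ) < 2 * (lcnt (starV lam ι T G) a i : ℝ) := by nlinarith
    exact_mod_cast h3
  have h4 : ∀ k : Fin n, Cn (starV lam ι T G) (Set.range Sum.inl) (leaf a) (leaf (i, k)) →
      lcnt (starV lam ι T G) (i, k) i = lcnt (starV lam ι T G) a i := by
    intro k hk
    unfold lcnt
    congr 1
    refine Finset.filter_congr fun l _ => ?_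
    exact ⟨fun h5 => hk.trans h5, fun h5 => hk.symm.trans h5⟩
  have h5 : lcnt (starV lam ι T G) a i ≤ ((vsL ι).filter (fun x =>
      lswap_X A (lam i) (aa A (lam i) (vsL ι)) (vsL ι) x)).card := by
    unfold lcnt
    refine Finset.card_le_card_of_injOn ι ?_ (fun x _ y _ hxy => hι hxy)
    intro k hk
    have hk' := (Finset.mem_filter.1 (Finset.mem_coe.1 hk)).2
    refine Finset.mem_coe.2 (Finset.mem_filter.2 ⟨mem_vsL ι k, ?_⟩)
    have h6 := aa_of_cluster lam hι T (a := (i, k)) (i := i) hA (by rw [h4 k hk']; exact h2)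
    exact h6.symm
  exact_mod_cast h5

theorem lswap_lk {Λ : Type} (lam : Λ → V D) {ι : Fin n → D} (hι : Function.Injective ι) (T : Finset D)
    {G : SimpleGraph (V D)} {A : Set (V D)} (hA : ClosedOn G (winV lam ι T) A) (hn : 1 ≤ n) {δ : ℝ}
    (hδ : 0 < δ) {i j : Λ}
    (h : LkOK δ (starV lam ι T G) i j) : aa A (lam i) (vsL ι) ↔ aa A (lam j) (vsL ι) := by
  obtain ⟨a, ha, ha'⟩ := h
  rw [Fintype.card_fin] at ha ha'
  have hn' : (0 : ℝ) < (n : ℝ) := by exact_mod_cast hn
  have h2 : n < 2 * lcnt (starV lam ι T G) a i := by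
    have h3 : (n : ℝ) < 2 * (lcnt (starV lam ι T G) a i : ℝ) := by nlinarith
    exact_mod_cast h3
  have h2' : n < 2 * lcnt (starV lam ι T G) a j := by
    have h3 : (n : ℝ) < 2 * (lcnt (starV lam ι T G) a j : ℝ) := by nlinarith
    exact_mod_cast h3
  exact (aa_of_cluster lam hι T hA h2).trans (aa_of_cluster lam hι T hA h2').symm

/-- the majority of a half -/
theorem lswap_half {A : Set (V D)} {v : V D} {m : ℕ} {K K' S : Finset D} (hS : S = K ∪ K')
    (hd : Disjoint K K') (hK : K.card = m)
    (h : 2 * (1 / 2 + 1 / 1000 : ℝ) * m ≤ ((S.filter (fun x =>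
      lswap_X A v (aa A v S) S x)).card : ℝ))
    (h1 : ¬ lswap_E (lswap_X A v True) (1 / 2 + 1 / 1000) (1 / 1000) m S K)
    (h2 : ¬ lswap_E (lswap_X A v False) (1 / 2 + 1 / 1000) (1 / 1000) m S K) :
    aa A (flip K' v) K ↔ aa A v S := by
  subst hS
  have hfil : K.filter (fun k => flip (K.erase k) (flip K' v) ∈ A) =
      K.filter (fun k => flip ((K ∪ K').erase k) v ∈ A) := by
    refine Finset.filter_congr fun k hk => ?_
    rw [lswap_leaf hd v hk]
  have haa : aa A (flip K' v) K ↔ m < 2 * (K.filter (fun k => flip ((K ∪ K').erase k) v ∈ A)).card := by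
    unfold aa
    rw [hK, hfil]
  have hsum := Finset.card_filter_add_card_filter_not (s := K) (fun k => flip ((K ∪ K').erase k) v ∈ A)
  rw [hK] at hsum
  rw [haa]
  by_cases hq : aa A v (K ∪ K')
  · have hq' : aa A v (K ∪ K') = True := eq_true hq
    rw [hq'] at h
    have h3 : ¬ (((K.filter (fun x => lswap_X A v True (K ∪ K') x)).card : ℝ) ≤
        ((1 / 2 + 1 / 1000) - 1 / 1000 : ℝ) * m) := fun h4 => h1 ⟨h, h4⟩
    have h6 : K.filter (fun x => lswap_X A v True (K ∪ K') x) =
        K.filter (fun x => flip ((K ∪ K').erase x) v ∈ A) :=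
      Finset.filter_congr fun x _ => by unfold lswap_X; simp
    rw [h6] at h3
    push Not at h3
    refine ⟨fun _ => hq, fun _ => ?_⟩
    have h5 : (m : ℝ) < 2 * ((K.filter (fun x => flip ((K ∪ K').erase x) v ∈ A)).card : ℝ) := by linarith
    exact_mod_cast h5
  · have hq' : aa A v (K ∪ K') = False := eq_false hq
    rw [hq'] at h
    have h3 : ¬ (((K.filter (fun x => lswap_X A v False (K ∪ K') x)).card : ℝ) ≤
        ((1 / 2 + 1 / 1000) - 1 / 1000 : ℝ) * m) := fun h4 => h2 ⟨h, h4⟩
    have h6 : K.filter (fun x => lswap_X A v False (K ∪ K') x) =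
        K.filter (fun x => ¬ flip ((K ∪ K').erase x) v ∈ A) :=
      Finset.filter_congr fun x _ => by unfold lswap_X; simp
    rw [h6] at h3
    push Not at h3
    refine ⟨fun h6 => ?_, fun h6 => absurd h6 hq⟩
    exfalso
    have h5 : (m : ℝ) < 2 * ((K.filter (fun x => ¬ flip ((K ∪ K').erase x) v ∈ A)).card : ℝ) := by linarith
    have h5' : m < 2 * (K.filter (fun x => ¬ flip ((K ∪ K').erase x) v ∈ A)).card := by exact_mod_cast h5
    omega

theorem lswap_degV {K K' S : Finset D} (hS : S = K ∪ K') (hd : Disjoint K K') (G : SimpleGraph (V D))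
    (v : V D) : degV G (flip K' v) K = (K.filter (fun x => lswap_Y G v S x)).card := by
  subst hS
  unfold degV
  congr 1
  refine Finset.filter_congr fun k hk => ?_
  rw [lswap_leaf hd v hk, lswap_hub hd v]
  rfl

theorem lswap_degV_full (S : Finset D) (G : SimpleGraph (V D)) (v : V D) :
    degV G v S = (S.filter (fun x => lswap_Y G v S x)).card := by
  unfold degV
  congr 1

theorem lswap_measCard {K : Finset D} {p : D → Ω → Prop} (h : ∀ k, MeasurableSet {ω | p k ω}) :
    Measurable (fun ω => (K.filter (fun k => p k ω)).card) := by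
  have h1 : (fun ω => (K.filter (fun k => p k ω)).card) = fun ω => ∑ k ∈ K, if p k ω then 1 else 0 := by
    funext ω
    rw [Finset.card_filter]
  rw [h1]
  refine Finset.measurable_sum _ fun k _ => ?_
  exact Measurable.ite (h k) measurable_const measurable_const

theorem lswap_measE {W : Ω → SimpleGraph (V D)} (hmeas : ∀ a b, MeasurableSet {ω | (W ω).Adj a b})
    (v : V D) (β γ : ℝ) (m : ℕ) (S K : Finset D) :
    MeasurableSet {ω | lswap_E (lswap_Y (W ω) v) β γ m S K} := by
  have h1 : ∀ K : Finset D, Measurable (fun ω => ((K.filter (fun x => lswap_Y (W ω) v S x)).card : ℝ)) :=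
    fun K => measurable_from_nat.comp (lswap_measCard (p := fun x ω => lswap_Y (W ω) v S x)
      (fun k => hmeas _ _))
  exact (measurableSet_le measurable_const (h1 S)).inter (measurableSet_le (h1 K) measurable_const)

/-- averaging an event over a random parameter -/
theorem lswap_avg_meas {X : Type} [Fintype X] {μ : Measure Ω} (hM : IsProbabilityMeasure μ)
    {P : X → Ω → Prop} (hP : ∀ x, MeasurableSet {ω | P x ω}) {c : ℝ}
    (h : ∀ ω, avg (fun x => ind (P x ω)) ≤ c) : avg (fun x => μ.real {ω | P x ω}) ≤ c := by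
  have h1 : ∀ x, μ.real {ω | P x ω} = ∫ ω, ind (P x ω) ∂μ := by
    intro x
    rw [← integral_indicator_one (hP x)]
    refine integral_congr_ae (Filter.Eventually.of_forall fun ω => ?_)
    unfold ind
    by_cases hx : P x ω
    · simp [Set.indicator, hx]
    · simp [Set.indicator, hx]
  have hint : ∀ x, Integrable (fun ω => ind (P x ω)) μ := by
    intro x
    have h2 : (fun ω => ind (P x ω)) = ({ω | P x ω} : Set Ω).indicator (fun _ => (1 : ℝ)) := by
      funext ω
      unfold ind
      by_cases hx : P x ω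
      · simp [Set.indicator, hx]
      · simp [Set.indicator, hx]
    rw [h2]
    exact (integrable_const _).indicator (hP x)
  have h3 : avg (fun x => μ.real {ω | P x ω}) = ∫ ω, avg (fun x => ind (P x ω)) ∂μ := by
    unfold avg
    rw [integral_div, integral_finsetSum _ fun x _ => hint x]
    congr 1
    exact Finset.sum_congr rfl fun x _ => h1 x
  rw [h3]
  have h4 : Integrable (fun ω => avg (fun x => ind (P x ω))) μ := by
    unfold avg
    exact (integrable_finsetSum _ fun x _ => hint x).div_const _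
  calc ∫ ω, avg (fun x => ind (P x ω)) ∂μ ≤ ∫ _ω, c ∂μ :=
        integral_mono h4 (integrable_const _) h
    _ = c := by simp

/-- the types of the two halves -/
theorem lswap_pty {μ : Measure Ω} (hM : IsProbabilityMeasure μ) {W : Ω → SimpleGraph (V D)} {v : V D} {m : ℕ}
    {K K' S : Finset D} (hS : S = K ∪ K') (hd : Disjoint K K') (hK : K.card = m) (P : Prop)
    (h1 : P → 1 / 6 ≤ μ.real {ω | 100 * degV (W ω) v S ≤ m + m})
    (h2 : ¬ P → μ.real {ω | 5 * degV (W ω) v S ≤ m + m} ≤ 1 / 50)
    (h3 : μ.real {ω | lswap_E (lswap_Y (W ω) v) (1 / 5) (18 / 100) m S K} ≤ 1 / 20) :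
    Pty μ W (flip K' v) K ↔ P := by
  unfold Pty
  have hsub : K ⊆ S := hS ▸ Finset.subset_union_left
  have hle : ∀ ω, degV (W ω) (flip K' v) K ≤ degV (W ω) v S := by
    intro ω
    rw [lswap_degV hS hd, lswap_degV_full]
    exact Finset.card_le_card (Finset.filter_subset_filter _ hsub)
  constructor
  · intro h
    by_contra hP
    have h4 := h2 hP
    have h5 : {ω | 50 * degV (W ω) (flip K' v) K ≤ K.card} ⊆
        {ω | 5 * degV (W ω) v S ≤ m + m} ∪
          {ω | lswap_E (lswap_Y (W ω) v) (1 / 5) (18 / 100) m S K} := by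
      intro ω hω
      have hω' : 50 * degV (W ω) (flip K' v) K ≤ K.card := hω
      rw [hK] at hω'
      by_cases h6 : 5 * degV (W ω) v S ≤ m + m
      · exact Or.inl h6
      · refine Or.inr ?_
        push Not at h6
        show lswap_E (lswap_Y (W ω) v) (1 / 5) (18 / 100) m S K
        rw [lswap_degV hS hd] at hω'
        rw [lswap_degV_full] at h6
        have h7 : (50 : ℝ) * ((K.filter (fun x => lswap_Y (W ω) v S x)).card : ℝ) ≤ m := by
          exact_mod_cast hω'
        have h8 : (m : ℝ) + m < 5 * ((S.filter (fun x => lswap_Y (W ω) v S x)).card : ℝ) := by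
          exact_mod_cast h6
        constructor
        · linarith
        · linarith
    have h6 := (measureReal_mono (μ := μ) h5 (measure_ne_top μ _)).trans (measureReal_union_le _ _)
    linarith
  · intro hP
    have h4 := h1 hP
    have h5 : {ω | 100 * degV (W ω) v S ≤ m + m} ⊆ {ω | 50 * degV (W ω) (flip K' v) K ≤ K.card} := by
      intro ω hω
      have hω' : 100 * degV (W ω) v S ≤ m + m := hω
      have := hle ω
      show 50 * degV (W ω) (flip K' v) K ≤ K.card
      omega
    have h6 := measureReal_mono (μ := μ) h5 (measure_ne_top μ _)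
    linarith

/-- the deterministic part -/
theorem lswap_det {ε e₁ : ℝ} {μ : Measure Ω} {W : Ω → SimpleGraph (V D)} (hM : IsProbabilityMeasure μ)
    {m : ℕ} (hm : 1 ≤ m) {O : V D} {e e' : Dir D} {ι : Fin (m + m) → D} {T : Finset D}
    {G : SimpleGraph (V D)} {A : Set (V D)} (hA : ClosedOn G (winV (lam4 O e e') ι T) A)
    {K K' S : Finset D} (hS : S = K ∪ K')
    (hι : vsL ι = S) (hd : Disjoint K K') (hK : K.card = m) (hK' : K'.card = m)
    (hbad : ¬ WBad ε e₁ μ W O e e' ι T G)
    (hX : ∀ v, v = O ∨ v = mv e O → ∀ q, q = True ∨ q = False → ∀ C, C = K ∨ C = K' →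
      ¬ lswap_E (lswap_X A v q) (1 / 2 + 1 / 1000) (1 / 1000) m S C)
    (hY : ∀ C, C = K ∨ C = K' →
      μ.real {ω | lswap_E (lswap_Y (W ω) O) (1 / 5) (18 / 100) m S C} ≤ 1 / 20) :
    SwapRule A (Pty μ W) O e K K' := by
  unfold WBad at hbad
  push Not at hbad
  obtain ⟨htyp, hfail⟩ := hbad
  have ht := typV_UU htyp
  have hinj : Function.Injective ι := ht.1
  have hnice : Nice plaq (1 / 1000) (UU ε e₁ μ W O e e' ι T) (starV (lam4 O e e') ι T G) := by
    by_contra h
    exact hfail ⟨htyp, h⟩
  have hl0 : lam4 O e e' (false, false) = O := by simp [lam4]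
  have hl1 : lam4 O e e' (true, false) = mv e O := by simp [lam4]
  have hmaj : ∀ v, v = O ∨ v = mv e O → 2 * (1 / 2 + 1 / 1000 : ℝ) * m ≤ ((S.filter (fun x =>
      lswap_X A v (aa A v S) S x)).card : ℝ) := by
    intro v hv
    obtain ⟨i, hi⟩ : ∃ i, lam4 O e e' i = v := by
      rcases hv with rfl | rfl
      · exact ⟨_, hl0⟩
      · exact ⟨_, hl1⟩
    have h1 := lswap_count (lam4 O e e') hinj T hA (by omega) (by norm_num : (0 : ℝ) < 1 / 1000) (hnice.1 i)
    rw [hi, hι] at h1
    push_cast at h1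
    linarith
  have hSs : S = K' ∪ K := by rw [hS, Finset.union_comm]
  have haK : ∀ v, v = O ∨ v = mv e O → (aa A (flip K' v) K ↔ aa A v S) := fun v hv =>
    lswap_half hS hd hK (hmaj v hv) (hX v hv _ (Or.inl rfl) _ (Or.inl rfl))
      (hX v hv _ (Or.inr rfl) _ (Or.inl rfl))
  have haK' : ∀ v, v = O ∨ v = mv e O → (aa A (flip K v) K' ↔ aa A v S) := fun v hv =>
    lswap_half hSs hd.symm hK' (hmaj v hv) (hX v hv _ (Or.inl rfl) _ (Or.inr rfl))
      (hX v hv _ (Or.inr rfl) _ (Or.inr rfl))
  have hO : O = O ∨ O = mv e O := Or.inl rfl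
  have hE : mv e O = O ∨ mv e O = mv e O := Or.inr rfl
  refine ⟨(haK O hO).trans (haK' O hO).symm, ?_⟩
  unfold psi
  by_cases hq : (aa A O S ↔ aa A (mv e O) S)
  · rw [if_pos, if_pos]
    · exact (haK' O hO).trans (hq.trans (haK' _ hE).symm)
    · exact (haK O hO).trans (hq.trans (haK _ hE).symm)
  · rw [if_neg (c := (aa A (flip K' O) K ↔ aa A (flip K' (mv e O)) K)),
      if_neg (c := (aa A (flip K O) K' ↔ aa A (flip K (mv e O)) K'))]
    rotate_left
    · intro h
      exact hq ((haK' O hO).symm.trans (h.trans (haK' _ hE)))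
    · intro h
      exact hq ((haK O hO).symm.trans (h.trans (haK _ hE)))
    have hU : UU ε e₁ μ W O e e' ι T (false, false) (true, false) := by
      by_contra hU
      have h1 := hnice.2 (false, false) (true, false) (Or.inr ⟨by simp, rfl⟩) hU
      have h2 := lswap_lk (lam4 O e e') hinj T hA (by omega) (by norm_num : (0 : ℝ) < 1 / 1000) h1
      rw [hl0, hl1, hι] at h2
      exact hq h2
    have hdg : ∀ ω, hdeg (starV (lam4 O e e') ι T (W ω)) (false, false) = degV (W ω) O S := by
      intro ω
      rw [degV_eq (lam4 O e e') hinj T (W ω) (false, false), hl0, hι]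
    have h1 : PP ε e₁ μ W O e e' ι T (false, false) →
        1 / 6 ≤ μ.real {ω | 100 * degV (W ω) O S ≤ m + m} := by
      intro hP
      have h2 := ht.2.2.pend _ _ hU hP
      have h3 : {ω | starV (lam4 O e e') ι T (W ω) ∈
          {G : SimpleGraph (LV (Bool × Bool) (Fin (m + m))) | 100 * hdeg G (false, false) ≤ m + m}} =
          {ω | 100 * degV (W ω) O S ≤ m + m} := by
        ext ω
        show 100 * hdeg (starV (lam4 O e e') ι T (W ω)) (false, false) ≤ m + m ↔ _
        rw [hdg ω]
        exact Iff.rfl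
      rw [← h3]
      exact h2
    have h1' : ¬ PP ε e₁ μ W O e e' ι T (false, false) →
        μ.real {ω | 5 * degV (W ω) O S ≤ m + m} ≤ 1 / 50 := by
      intro hP
      have h2 := ht.2.2.mend _ _ hU hP
      have h3 : {ω | starV (lam4 O e e') ι T (W ω) ∈
          {G : SimpleGraph (LV (Bool × Bool) (Fin (m + m))) | 5 * hdeg G (false, false) ≤ m + m}} =
          {ω | 5 * degV (W ω) O S ≤ m + m} := by
        ext ω
        show 5 * hdeg (starV (lam4 O e e') ι T (W ω)) (false, false) ≤ m + m ↔ _
        rw [hdg ω]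
        exact Iff.rfl
      rw [← h3]
      exact h2
    have hpK := lswap_pty hM hS hd hK _ h1 h1' (hY K (Or.inl rfl))
    have hpK' := lswap_pty hM hSs hd.symm hK' _ h1 h1' (hY K' (Or.inr rfl))
    by_cases hP : PP ε e₁ μ W O e e' ι T (false, false)
    · rw [if_pos (hpK.2 hP), if_pos (hpK'.2 hP)]
    · rw [if_neg (fun h => hP (hpK.1 h)), if_neg (fun h => hP (hpK'.1 h))]

theorem lswap_ind_or (P Q : Prop) : ind (P ∨ Q) ≤ ind P + ind Q := by
  unfold ind
  by_cases hP : P <;> by_cases hQ : Q <;> simp [hP, hQ]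

theorem lswap_union {X Y : Type} [Fintype X] [Fintype Y] (P : X → Y → Prop) :
    avg (fun y => ind (∃ x, P x y)) ≤ ∑ x, avg (fun y => ind (P x y)) := by
  rw [← avg_sum]
  refine avg_mono fun y => ?_
  unfold ind
  split_ifs with h
  · obtain ⟨x, hx⟩ := h
    have h1 : (if P x y then (1 : ℝ) else 0) ≤ ∑ x, if P x y then (1 : ℝ) else 0 :=
      Finset.single_le_sum (f := fun x => if P x y then (1 : ℝ) else 0)
        (fun x _ => by split_ifs <;> norm_num) (Finset.mem_univ x)
    rwa [if_pos hx] at h1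
  · exact Finset.sum_nonneg fun x _ => by split_ifs <;> norm_num

theorem lswap_perm {S S' : Finset D} (h : S.card = S'.card) : ∃ τ : Equiv.Perm D, S.image τ = S' := by
  have e : {x // x ∈ S} ≃ {x // x ∈ S'} := Finset.equivOfCardEq h
  refine ⟨e.extendSubtype, ?_⟩
  refine Finset.eq_of_subset_of_card_le ?_ ?_
  · intro y hy
    obtain ⟨x, hx, rfl⟩ := Finset.mem_image.1 hy
    exact e.extendSubtype_mem x hx
  · rw [Finset.card_image_of_injective _ e.extendSubtype.injective, h]

/-- both halves -/
theorem lswap_halving {B B' : Finset D} (hd : Disjoint B B') (hB : B.card = n) (hB' : B'.card = n)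
    (X : Finset D → D → Prop) (β γ : ℝ) (hγ : 0 ≤ γ) (C : Finset D) (hC : C = B ∨ C = B') :
    avg (fun σ : Equiv.Perm D => ind (lswap_E X β γ n ((B ∪ B').image σ) (C.image σ))) ≤
      Real.exp (-(2 * γ ^ 2 * n)) := by
  rcases hC with rfl | rfl
  · exact halving C B' hd hB hB' X β γ hγ
  · have h := halving C B hd.symm hB' hB X β γ hγ
    rw [Finset.union_comm C B] at h
    exact h

theorem swap_avg {ε e₁ : ℝ} {μ : Measure Ω} {W : Ω → SimpleGraph (V D)} (hM : IsProbabilityMeasure μ)
    (hmeas : ∀ a b, MeasurableSet {ω | (W ω).Adj a b}) (hn : 1 ≤ n) {O : V D} {e e' : Dir D}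
    {ι : Fin (n + n) → D} (hι : Function.Injective ι) {I : ℕ} (hI : 1 ≤ I)
    (T : ℕ → Finset D) {G : SimpleGraph (V D)} {A : Set (V D)}
    (hA : ∀ (σ : Equiv.Perm D) (t : ℕ), ClosedOn G (winV (lam4 O e e') (σ ∘ ι) ((T t).image σ)) A) {B B' : Finset D}
    (hd : Disjoint B B') (hB : B.card = n) (hB' : B'.card = n) :
    avg (fun σ : Equiv.Perm D => ind (¬ SwapRule A (Pty μ W) O e (B.image σ) (B'.image σ))) ≤
      avg (fun t : Fin I => avg (fun σ : Equiv.Perm D =>
        ind (WBad ε e₁ μ W O e e' (σ ∘ ι) ((T t).image σ) G))) + 100 * Real.exp (-((n : ℝ) / 500000)) := by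
  have key : ∀ t : Fin I,
      avg (fun σ : Equiv.Perm D => ind (¬ SwapRule A (Pty μ W) O e (B.image σ) (B'.image σ))) ≤
      avg (fun σ : Equiv.Perm D => ind (WBad ε e₁ μ W O e e' (σ ∘ ι) ((T t).image σ) G)) +
        100 * Real.exp (-((n : ℝ) / 500000)) := by
    intro t
    have hcard : (vsL ι).card = (B ∪ B').card := by
      rw [card_vsL hι, Finset.card_union_of_disjoint hd, hB, hB']
    obtain ⟨τ, hτ⟩ := lswap_perm hcard
    have h1 := avg_perm_mul_right τ (fun σ : Equiv.Perm D =>
      ind (WBad ε e₁ μ W O e e' (σ ∘ ι) ((T t).image σ) G))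
    rw [← h1]
    set vv : Bool → V D := fun b => if b then O else mv e O with hvv
    set qq : Bool → Prop := fun b => if b then True else False with hqq
    set CC : Bool → Finset D := fun b => if b then B else B' with hCC
    have hCCm : ∀ b, CC b = B ∨ CC b = B' := by
      intro b
      cases b
      · exact Or.inr rfl
      · exact Or.inl rfl
    set E1 : Bool × Bool × Bool → Equiv.Perm D → Prop := fun x σ =>
      lswap_E (lswap_X A (vv x.1) (qq x.2.1)) (1 / 2 + 1 / 1000) (1 / 1000) n ((B ∪ B').image σ)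
        ((CC x.2.2).image σ) with hE1
    set E2 : Bool → Equiv.Perm D → Prop := fun b σ => (1 / 20 : ℝ) <
      μ.real {ω | lswap_E (lswap_Y (W ω) O) (1 / 5) (18 / 100) n ((B ∪ B').image σ) ((CC b).image σ)}
      with hE2
    have himp : ∀ σ : Equiv.Perm D, ¬ SwapRule A (Pty μ W) O e (B.image σ) (B'.image σ) →
        (WBad ε e₁ μ W O e e' ((σ * τ : Equiv.Perm D) ∘ ι) ((T t).image (σ * τ : Equiv.Perm D)) G) ∨
          ((∃ x, E1 x σ) ∨ ∃ b, E2 b σ) := by
      intro σ hσ
      by_contra hcon
      push Not at hcon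
      obtain ⟨hw, hc1, hc2⟩ := hcon
      apply hσ
      refine lswap_det hM hn (m := n) (ι := (σ * τ : Equiv.Perm D) ∘ ι) (S := (B ∪ B').image σ)
        (hA (σ * τ) t)
        (Finset.image_union _ _) ?_ ?_ ?_ ?_ hw ?_ ?_
      · rw [vsL_perm, ← hτ, Finset.image_image]
        rfl
      · exact (Finset.disjoint_image σ.injective).2 hd
      · rw [Finset.card_image_of_injective _ σ.injective, hB]
      · rw [Finset.card_image_of_injective _ σ.injective, hB']
      · rintro v hv q hq C hC
        obtain ⟨x, hx⟩ : ∃ x, vv x = v := by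
          rcases hv with rfl | rfl
          · exact ⟨true, rfl⟩
          · exact ⟨false, rfl⟩
        obtain ⟨y, hy⟩ : ∃ y, qq y = q := by
          rcases hq with rfl | rfl
          · exact ⟨true, rfl⟩
          · exact ⟨false, rfl⟩
        obtain ⟨z, hz⟩ : ∃ z, (CC z).image σ = C := by
          rcases hC with rfl | rfl
          · exact ⟨true, rfl⟩
          · exact ⟨false, rfl⟩
        have h2 := hc1 (x, y, z)
        rw [hE1] at h2
        simp only at h2
        rw [hx, hy, hz] at h2
        exact h2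
      · rintro C hC
        obtain ⟨z, hz⟩ : ∃ z, (CC z).image σ = C := by
          rcases hC with rfl | rfl
          · exact ⟨true, rfl⟩
          · exact ⟨false, rfl⟩
        have h2 := hc2 z
        rw [hE2] at h2
        simp only at h2
        rw [hz] at h2
        exact not_lt.1 h2
    have hn0 : (0 : ℝ) ≤ n := Nat.cast_nonneg _
    have hE1le : ∀ x, avg (fun σ => ind (E1 x σ)) ≤ Real.exp (-((n : ℝ) / 500000)) := by
      intro x
      refine (lswap_halving hd hB hB' _ _ _ (by norm_num) _ (hCCm x.2.2)).trans (le_of_eq ?_)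
      congr 1
      ring
    have hE2le : ∀ b, avg (fun σ => ind (E2 b σ)) ≤ 20 * Real.exp (-((n : ℝ) / 500000)) := by
      intro b
      have h2 : avg (fun σ : Equiv.Perm D => μ.real {ω | lswap_E (lswap_Y (W ω) O) (1 / 5) (18 / 100) n
          ((B ∪ B').image σ) ((CC b).image σ)}) ≤ Real.exp (-((n : ℝ) / 500000)) := by
        refine lswap_avg_meas hM (fun σ => lswap_measE hmeas _ _ _ _ _ _) fun ω => ?_
        refine (lswap_halving hd hB hB' (lswap_Y (W ω) O) (1 / 5) (18 / 100) (by norm_num) _
          (hCCm b)).trans (Real.exp_le_exp.2 ?_)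
        nlinarith
      have h3 := avg_ind_lt_le (F := fun σ : Equiv.Perm D => μ.real {ω | lswap_E (lswap_Y (W ω) O)
        (1 / 5) (18 / 100) n ((B ∪ B').image σ) ((CC b).image σ)})
        (fun σ => measureReal_nonneg) (show (0 : ℝ) < 1 / 20 by norm_num)
      refine h3.trans ?_
      rw [div_le_iff₀ (by norm_num)]
      linarith
    have h4 : avg (fun σ : Equiv.Perm D => ind (¬ SwapRule A (Pty μ W) O e (B.image σ) (B'.image σ))) ≤
        avg (fun σ : Equiv.Perm D => ind (WBad ε e₁ μ W O e e' ((σ * τ : Equiv.Perm D) ∘ ι)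
          ((T t).image (σ * τ : Equiv.Perm D)) G) + (ind (∃ x, E1 x σ) + ind (∃ b, E2 b σ))) := by
      refine avg_mono fun σ => (ind_mono (himp σ)).trans ?_
      refine (lswap_ind_or _ _).trans ?_
      have := lswap_ind_or (∃ x, E1 x σ) (∃ b, E2 b σ)
      linarith
    rw [avg_add, avg_add] at h4
    have h5 := lswap_union E1
    have h6 := lswap_union E2
    have h7 : ∑ x, avg (fun σ => ind (E1 x σ)) ≤ 8 * Real.exp (-((n : ℝ) / 500000)) := by
      refine (Finset.sum_le_sum fun x _ => hE1le x).trans (le_of_eq ?_)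
      simp
    have h8 : ∑ b, avg (fun σ => ind (E2 b σ)) ≤ 40 * Real.exp (-((n : ℝ) / 500000)) := by
      refine (Finset.sum_le_sum fun b _ => hE2le b).trans (le_of_eq ?_)
      simp
      ring
    have h9 := (Real.exp_pos (-((n : ℝ) / 500000))).le
    linarith
  have : Nonempty (Fin I) := ⟨⟨0, hI⟩⟩
  have h1 := avg_mono (X := Fin I) (F := fun _ => avg (fun σ : Equiv.Perm D =>
    ind (¬ SwapRule A (Pty μ W) O e (B.image σ) (B'.image σ)))) key
  rw [avg_const, avg_add, avg_const] at h1
  exact h1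

end

end Pool.Agent.LP
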