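import Pool.Agent.LP.Defs
import Pool.Agent.OIP.CompactGen

/-!
# LP: near star laws are close to exact star laws (compactness)

Port of `OIP.star_compact`: as there, work with the push forward weights `q` on the finite type
`X = SimpleGraph (LV Λ κ)` and the finitely many continuous functions `g j q ≥ 0` with
(`∀ j, g j q ≤ 0` iff `q` is an exact law).  Apply `compact_gen` with
`F q = - inf {∑ x, |q x - q' x| : q' exact}` or (simpler) argue directly: if no `η` works, there are `q_k` with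
`g j q_k ≤ 1/(k+1)` and `q_k` not within `η'` of an exact law; a subsequence converges to some `q`, which is exact
(as in `star_compact`, via `pr_support`), and `∑ x, |q_k x - q x| < η'` for some `k`, a contradiction.
-/

set_option autoImplicit false

open Finset
open scoped Classical

namespace Pool.Agent.LP

open Pool.Agent.OIP

theorem ltv_cont {X : Type} [Fintype X] (U : Set X) : Continuous fun q : X → ℝ => pr q U := by
  unfold pr
  refine continuous_finsetSum _ fun x _ => ?_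
  by_cases hx : x ∈ U
  · simp only [Set.indicator_of_mem hx]
    exact continuous_apply x
  · simp only [Set.indicator_of_notMem hx]
    exact continuous_const

theorem ltv_null {X : Type} [Fintype X] {q : X → ℝ} (hq : IsLaw q) {U : Set X}
    (hU : pr q U ≤ 0) {x : X} (hx : q x ≠ 0) : x ∉ U := by
  intro hxU
  have h1 : q x ≤ pr q U := by
    unfold pr
    have h2 := Finset.single_le_sum (f := fun y => U.indicator q y)
      (fun y _ => Set.indicator_nonneg (fun z _ => hq.nonneg z) y) (Finset.mem_univ x)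
    simp only [Set.indicator_of_mem hxU] at h2
    exact h2
  exact hx (le_antisymm (h1.trans hU) (hq.nonneg x))

theorem ltv_diff {X : Type} [Fintype X] (q y : X → ℝ) (U : Set X) :
    |pr q U - pr y U| ≤ ∑ x, |q x - y x| := by
  unfold pr
  rw [← Finset.sum_sub_distrib]
  refine (Finset.abs_sum_le_sum_abs _ _).trans (Finset.sum_le_sum fun x _ => ?_)
  by_cases hx : x ∈ U
  · rw [Set.indicator_of_mem hx, Set.indicator_of_mem hx]
  · rw [Set.indicator_of_notMem hx, Set.indicator_of_notMem hx, sub_zero, abs_zero]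
    exact abs_nonneg _

theorem ltv_push {Λ κ : Type} [Fintype (SimpleGraph (LV Λ κ))] (L : SimpleGraph Λ) (η p : ℝ)
    (Ω : Type) [Fintype Ω] (w : Ω → ℝ) (W : Ω → SimpleGraph (LV Λ κ)) (h : NearL L η p w W) :
    NearL L η p (push w W) (fun G => G) := by
  have e := fun U : Set (SimpleGraph (LV Λ κ)) => pr_push w W U
  refine ⟨isLaw_push h.law W, ?_, ?_, ?_, ?_, ?_⟩
  · intro A B hAB U U' hU hU'
    have h1 := h.indep A B hAB U U' hU hU'
    have e1 := e {G | G ∈ U ∧ G ∈ U'}
    have e2 := e U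
    have e3 := e U'
    have h2 : |pr (push w W) {G | G ∈ U ∧ G ∈ U'} - pr (push w W) U * pr (push w W) U'| ≤ η := by
      rw [e1, e2, e3]
      exact h1
    exact h2
  · intro i k
    rw [e {G | G.Adj (hub i) (leaf (i, k))}]
    exact h.hubEdge i k
  · intro i i' hii k
    rw [e {G | G.Adj (leaf (i, k)) (leaf (i', k))}]
    exact h.vert i i' hii k
  · intro i i' hii
    rw [e {G | G.Adj (hub i) (hub i')}]
    exact h.hubVert i i' hii
  · intro i i' j k hjk
    rw [e {G | G.Adj (hub i) (leaf (i, j)) ∧ Cn G (Set.range Sum.inr) (hub i) (hub i') ∧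
      G.Adj (hub i') (leaf (i', k)) ∧ ¬ G.Adj (leaf (i, j)) (leaf (i', k))}]
    exact h.cross i i' j k hjk

theorem ltv_limit {Λ κ : Type} [Fintype (SimpleGraph (LV Λ κ))] (L : SimpleGraph Λ) (p : ℝ)
    (q : ℕ → SimpleGraph (LV Λ κ) → ℝ) (e : ℕ → ℝ) (he : Filter.Tendsto e Filter.atTop (nhds 0))
    (h : ∀ k, NearL L (e k) p (q k) (fun G => G)) (y : SimpleGraph (LV Λ κ) → ℝ) (hy : IsLaw y)
    (hlim : Filter.Tendsto q Filter.atTop (nhds y)) : NearL L 0 p y (fun G => G) := by
  have c := fun U : Set (SimpleGraph (LV Λ κ)) => ((ltv_cont U).tendsto y).comp hlim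
  refine ⟨hy, ?_, ?_, ?_, ?_, ?_⟩
  · intro A B hAB U U' hU hU'
    have c1 := (c {G | G ∈ U ∧ G ∈ U'}).sub ((c U).mul (c U'))
    exact le_of_tendsto_of_tendsto' c1.abs he fun k => (h k).indep A B hAB U U' hU hU'
  · intro i k
    exact le_of_tendsto_of_tendsto' tendsto_const_nhds (c {G | G.Adj (hub i) (leaf (i, k))})
      fun m => (h m).hubEdge i k
  · intro i i' hii k
    exact le_of_tendsto_of_tendsto' tendsto_const_nhds
      (c {G | G.Adj (leaf (i, k)) (leaf (i', k))}) fun m => (h m).vert i i' hii k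
  · intro i i' hii
    exact le_of_tendsto_of_tendsto' tendsto_const_nhds (c {G | G.Adj (hub i) (hub i')})
      fun m => (h m).hubVert i i' hii
  · intro i i' j k hjk
    exact le_of_tendsto_of_tendsto' (c {G | G.Adj (hub i) (leaf (i, j)) ∧
      Cn G (Set.range Sum.inr) (hub i) (hub i') ∧ G.Adj (hub i') (leaf (i', k)) ∧
      ¬ G.Adj (leaf (i, j)) (leaf (i', k))}) he fun m => (h m).cross i i' j k hjk

theorem ltv_exact {Λ κ : Type} [Fintype (SimpleGraph (LV Λ κ))] (L : SimpleGraph Λ) (p : ℝ)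
    (y : SimpleGraph (LV Λ κ) → ℝ) (h : NearL L 0 p y (fun G => G)) :
    LStar L p (fun G : {G : SimpleGraph (LV Λ κ) // y G ≠ 0} => y G.1) (fun G => G.1) := by
  have e := fun U : Set (SimpleGraph (LV Λ κ)) => pr_support y U
  refine ⟨isLaw_support h.law, ?_, ?_, ?_, ?_, ?_⟩
  · intro A B hAB U U' hU hU'
    have h1 := h.indep A B hAB U U' hU hU'
    have h2 := sub_eq_zero.1 (abs_eq_zero.1 (le_antisymm h1 (abs_nonneg _)))
    have e1 := e {G | G ∈ U ∧ G ∈ U'}
    have e2 := e U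
    have e3 := e U'
    have h3 : pr y {G | G ∈ U ∧ G ∈ U'} = pr y U * pr y U' := h2
    rw [← e1, ← e2, ← e3] at h3
    exact h3
  · intro i k
    have e1 := e {G | G.Adj (hub i) (leaf (i, k))}
    exact (h.hubEdge i k).trans e1.symm.le
  · intro i i' hii k
    have e1 := e {G | G.Adj (leaf (i, k)) (leaf (i', k))}
    exact (h.vert i i' hii k).trans e1.symm.le
  · intro i i' hii
    have e1 := e {G | G.Adj (hub i) (hub i')}
    exact (h.hubVert i i' hii).trans e1.symm.le
  · intro G i i' j k hjk h1 h2 h3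
    by_contra h4
    exact ltv_null h.law (h.cross i i' j k hjk) G.2 ⟨h1, h2, h3, h4⟩

theorem near_tv {Λ κ : Type} [Fintype Λ] [DecidableEq Λ] [Fintype κ] [DecidableEq κ] (L : SimpleGraph Λ)
    (p η' : ℝ) (hη' : 0 < η') :
    ∃ η : ℝ, 0 < η ∧ ∀ (Ω : Type) [Fintype Ω] (w : Ω → ℝ) (W : Ω → SimpleGraph (LV Λ κ)), NearL L η p w W →
      ∃ (Ω' : Type) (_ : Fintype Ω') (w' : Ω' → ℝ) (W' : Ω' → SimpleGraph (LV Λ κ)), LStar L p w' W' ∧
        ∀ U : Set (SimpleGraph (LV Λ κ)), |pr w {ω | W ω ∈ U} - pr w' {ω | W' ω ∈ U}| ≤ η' := by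
  let _ : Fintype (SimpleGraph (LV Λ κ)) := Fintype.ofFinite _
  by_contra hcon
  push Not at hcon
  have key : ∀ k : ℕ, ∃ q : SimpleGraph (LV Λ κ) → ℝ, NearL L (1 / ((k : ℝ) + 1)) p q (fun G => G) ∧
      ∀ (Ω' : Type) (_ : Fintype Ω') (w' : Ω' → ℝ) (W' : Ω' → SimpleGraph (LV Λ κ)), LStar L p w' W' →
        ∃ U : Set (SimpleGraph (LV Λ κ)), η' < |pr q U - pr w' {ω | W' ω ∈ U}| := by
    intro k
    obtain ⟨Ω, hΩ, w, W, h1, h2⟩ := hcon (1 / ((k : ℝ) + 1)) Nat.one_div_pos_of_nat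
    refine ⟨push w W, ltv_push L _ p Ω w W h1, ?_⟩
    intro Ω' hΩ' w' W' h3
    obtain ⟨U, hU⟩ := h2 Ω' hΩ' w' W' h3
    refine ⟨U, ?_⟩
    rw [pr_push w W U]
    exact hU
  choose q hq hq' using key
  have hmem : ∀ k, q k ∈ stdSimplex ℝ (SimpleGraph (LV Λ κ)) :=
    fun k => ⟨(hq k).law.nonneg, (hq k).law.total⟩
  obtain ⟨y, hy, φ, hφ, hlim⟩ := (isCompact_stdSimplex ℝ (SimpleGraph (LV Λ κ))).tendsto_subseq hmem
  have hlaw : IsLaw y := ⟨hy.1, hy.2⟩
  have ht : Filter.Tendsto (fun k : ℕ => 1 / ((φ k : ℝ) + 1)) Filter.atTop (nhds 0) :=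
    (tendsto_one_div_add_atTop_nhds_zero_nat (𝕜 := ℝ)).comp hφ.tendsto_atTop
  have hN := ltv_limit L p (fun k => q (φ k)) (fun k => 1 / ((φ k : ℝ) + 1)) ht
    (fun k => hq (φ k)) y hlaw hlim
  have hE := ltv_exact L p y hN
  have hc : Continuous fun q : SimpleGraph (LV Λ κ) → ℝ => ∑ x, |q x - y x| :=
    continuous_finsetSum _ fun x _ => ((continuous_apply x).sub continuous_const).abs
  have h0 : Filter.Tendsto (fun k => ∑ x, |q (φ k) x - y x|) Filter.atTop (nhds 0) := by
    have h1 := (hc.tendsto y).comp hlim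
    simp only [sub_self, abs_zero, Finset.sum_const_zero] at h1
    exact h1
  obtain ⟨k, hk⟩ := (h0.eventually (gt_mem_nhds hη')).exists
  obtain ⟨U, hU⟩ := hq' (φ k) _ _ _ _ hE
  have e := pr_support y U
  rw [e] at hU
  exact absurd ((ltv_diff (q (φ k)) y U).trans hk.le) (not_le.2 hU)

end Pool.Agent.LP
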