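import Pool.Agent.LP.LModel
import Pool.Agent.LP.LNear

/-!
# LP: typical stars at every centre

`near_out` gives `c`, `n₀` and for `n ≥ n₀` some `η₀`; apply `near_typ (Bool × Bool) n (min η η₀)` to the law
`lcube_model` (`D0ᶜ = fdir e ∪ fdir e'` has at most two elements).  If the star is `NearL` then `near_out` gives `U`, `P`
with `Typ` for the functional `A ↦ pr (marg ..) {G | starC (σ ∘ ι) (T.image σ) G ∈ A}`, which equals
`μ.real {ω | starV (lam4 O e e') .. (W ω) ∈ A}` by `marg_pr`.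
-/

set_option autoImplicit false

open MeasureTheory ProbabilityTheory
open scoped Classical

namespace Pool.Agent.LP

open Pool.Agent.OIP

theorem ltyp_near_mono {Ω : Type} [Fintype Ω] {Λ κ : Type} {L : SimpleGraph Λ} {η η' p : ℝ} {w : Ω → ℝ}
    {W : Ω → SimpleGraph (LV Λ κ)} (h : NearL L η p w W) (hη : η ≤ η') : NearL L η' p w W where
  law := h.law
  indep := fun A B hAB U U' hU hU' => (h.indep A B hAB U U' hU hU').trans hη
  hubEdge := h.hubEdge
  vert := h.vert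
  hubVert := h.hubVert
  cross := fun i i' j k hjk => (h.cross i i' j k hjk).trans hη

theorem ltyp_card {D : Type} [Fintype D] [DecidableEq D] (e e' : Dir D) : (D0 e e')ᶜ.card ≤ 2 := by
  unfold D0
  rw [compl_compl]
  have h1 : ∀ d : Dir D, (fdir d).card ≤ 1 := by
    intro d
    rcases d with d | d
    · exact Nat.zero_le _
    · exact (Finset.card_singleton d).le
  exact (Finset.card_union_le _ _).trans (Nat.add_le_add (h1 e) (h1 e'))

theorem ltyp_plaq : ∀ i, ∃ i', plaq.Adj i i' := fun i =>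
  ⟨(!i.1, i.2), Or.inr ⟨by cases i.1 <;> simp, rfl⟩⟩

/-- typical stars at every centre -/
theorem typ_model (ε : ℝ) (hε : 0 < ε) : ∃ (c : ℝ) (n₀ : ℕ), 0 < c ∧ ∀ n : ℕ, n₀ ≤ n → ∀ η : ℝ, 0 < η →
    ∃ M I N₀ : ℕ, 1 ≤ M ∧ 1 ≤ I ∧ ∀ (D : Type) [Fintype D] [DecidableEq D], N₀ ≤ Fintype.card D →
    ∀ (Ω : Type) [MeasurableSpace Ω] (μ : Measure Ω) (W : Ω → SimpleGraph (V D)), MModel pc μ W →
    ∀ (O : V D) (e e' : Dir D), ax e ≠ ax e' → ∀ ι : Fin n → D, Function.Injective ι →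
    ∀ T : ℕ → Finset D, (∀ t < I, Disjoint (T t) (vsL ι) ∧ (T t).card = M * 4 ^ t) →
    avg (fun t : Fin I => avg (fun σ : Equiv.Perm D => ind (¬ ∃ U P,
      TypV ε (2 * Real.exp (-c * n)) μ W O e e' (σ ∘ ι) ((T t).image σ) U P))) ≤ η := by
  obtain ⟨c, n₀, hc, hout⟩ := near_out plaq ltyp_plaq ε hε
  refine ⟨c, n₀, hc, fun n hn η hη => ?_⟩
  obtain ⟨η₀, hη₀, hout'⟩ := hout n hn
  obtain ⟨M, I, N₀, hM, hI, hnear⟩ := near_typ (Bool × Bool) n (min η η₀) (lt_min hη hη₀)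
  refine ⟨M, I, N₀, hM, hI, ?_⟩
  intro D _ _ hD Ω _ μ W hMod O e e' he ι hι T hT
  haveI := hMod.prob
  have hcube := lcube_model hMod O he
  have h := hnear D hD (D0 e e') (ltyp_card e e') _ _ _ plaq pc hcube ι hι T hT
  refine le_trans (avg_mono fun t => avg_mono fun σ => ind_mono ?_) (h.trans (min_le_left _ _))
  intro hno hyes
  apply hno
  obtain ⟨U, P, hUP⟩ := hout' _ _ _ (ltyp_near_mono hyes.2 (min_le_right _ _))
  refine ⟨U, P, σ.injective.comp hι, hyes.1, ?_⟩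
  have hfun : (fun A : Set (SimpleGraph (LV (Bool × Bool) (Fin n))) =>
      μ.real {ω | starV (lam4 O e e') (σ ∘ ι) ((T t).image σ) (W ω) ∈ A}) =
      fun A => pr (marg μ (fun ω => (W ω).comap (phi (lam4 O e e'))))
        {G | starC (σ ∘ ι) ((T t).image σ) G ∈ A} := by
    funext A
    rw [marg_pr μ (fun ω => (W ω).comap (phi (lam4 O e e'))) (fun a b => hMod.meas _ _)]
    rfl
  rw [hfun]
  exact hUP

end Pool.Agent.LP
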