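import Pool.Agent.LP.SAlgEx
import Pool.Agent.LP.ALNear

/-!
# LP: near equality case (from `AL_near`)
-/

set_option autoImplicit false

namespace Pool.Agent.LP

open Pool.Agent.OIP

/-- near DFH values, layer `false` is the P end -/
structure NearNum (ε a a' e b b' e' al al' n1 be be' n2 : ℝ) : Prop where
  a : |a - rc| ≤ ε
  a' : a' ≤ ε
  e : e ≤ ε
  b : |b - sc| ≤ ε
  b' : |b' - (1 - sc)| ≤ ε
  e' : e' ≤ ε
  al : |al - rc| ≤ ε
  al' : al' ≤ ε
  n1 : n1 ≤ ε
  be : |be - sc| ≤ ε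
  be' : |be' - (1 - sc)| ≤ ε
  n2 : n2 ≤ ε

theorem nearNum_of {ε a a' e b b' e' al al' n1 be be' n2 : ℝ}
    (h : NearPM ε a a' e b b' e' al al' n1 be be' n2) : NearNum ε a a' e b b' e' al al' n1 be be' n2 := by
  obtain ⟨h1, h2, h3, h4, h5, h6, h7, h8, h9, h10, h11, h12, h13, h14, h15, h16, h17, h18⟩ := h
  constructor
  all_goals first
    | (rw [abs_le]; unfold rc; constructor <;> linarith)
    | (rw [abs_le]; unfold sc; constructor <;> linarith)
    | assumption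

theorem al_near (ε : ℝ) (hε : 0 < ε) :
    ∃ t : ℝ, 0 < t ∧ ∀ a a' e b b' e' al al' n1 be be' n2 : ℝ,
      ALSys pc t a a' e b b' e' al al' n1 be be' n2 →
      NearNum ε a a' e b b' e' al al' n1 be be' n2 ∨ NearNum ε b b' e' a a' e be be' n2 al al' n1 := by
  obtain ⟨t, ht, h⟩ := AL_near ε hε
  refine ⟨t, ht, fun a a' e b b' e' al al' n1 be be' n2 hs => ?_⟩
  rcases (h pc a a' e b b' e' al al' n1 be be' n2 le_rfl hs).2 with h1 | h1
  · exact Or.inl (nearNum_of h1)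
  · exact Or.inr (nearNum_of h1)

end Pool.Agent.LP
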