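import Pool.Agent.LP.SSDefs
import Pool.Agent.OIP.ALExact

/-!
# LP: the numbers `rc`, `sc`, `pc`
-/

set_option autoImplicit false

namespace Pool.Agent.LP

open Pool.Agent.OIP

theorem rc_sq : rc ^ 2 = pc := by
  unfold rc pc
  have h : Real.sqrt 3 ^ 2 = 3 := Real.sq_sqrt (by norm_num)
  nlinarith

theorem rc_mul_sc : rc * sc = 1 - pc := by
  unfold rc sc pc
  have h : Real.sqrt 3 ^ 2 = 3 := Real.sq_sqrt (by norm_num)
  nlinarith

theorem sc_sq_add : sc ^ 2 + (1 - sc) ^ 2 = pc := by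
  unfold sc pc
  have h : Real.sqrt 3 ^ 2 = 3 := Real.sq_sqrt (by norm_num)
  nlinarith

end Pool.Agent.LP
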