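import Pool.Agent.LP.SDer

/-!
# LP: sample laws and samples of a layered star

`e : κ → Fin n` injective, `σ` a permutation of `Fin n`: the sample consists of the leaves `(i, σ (e k))`.
Region `lleafR σ P`: the leaves with index in `σ P`.
-/

set_option autoImplicit false

open Finset
open scoped Classical

namespace Pool.Agent.LP

open Pool.Agent.OIP

noncomputable section

/-- the two transitivity properties of a sampled star -/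
def LTr {Λ κ : Type} (G : SimpleGraph (LV Λ κ)) : Prop :=
  (∀ a b c : Λ × κ, a.2 ≠ b.2 → b.2 ≠ c.2 → a.2 ≠ c.2 → G.Adj (leaf a) (leaf b) →
    G.Adj (leaf b) (leaf c) → G.Adj (leaf a) (leaf c)) ∧
  (∀ (a b : Λ × κ) (i i' : Λ) (k : κ), a.2 ≠ k → b.2 ≠ k → a.2 ≠ b.2 → G.Adj (leaf a) (leaf (i, k)) →
    G.Adj (leaf (i, k)) (leaf (i', k)) → G.Adj (leaf (i', k)) (leaf b) → G.Adj (leaf a) (leaf b))

/-- exact layered sample law -/
structure LSample {Ω : Type} [Fintype Ω] {Λ κ : Type} (L : SimpleGraph Λ) (p : ℝ) (w : Ω → ℝ)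
    (W : Ω → SimpleGraph (LV Λ κ)) : Prop extends LStar L p w W where
  tr : ∀ ω, LTr (W ω)

/-- approximate layered sample law -/
structure NearLSample {Ω : Type} [Fintype Ω] {Λ κ : Type} (L : SimpleGraph Λ) (η p : ℝ) (w : Ω → ℝ)
    (W : Ω → SimpleGraph (LV Λ κ)) : Prop where
  law : IsLaw w
  indep : ∀ A B : Set (LV Λ κ), Disjoint A B → ∀ U U' : Set (SimpleGraph (LV Λ κ)), DepOn A U → DepOn B U' →
    |pr w {ω | W ω ∈ U ∧ W ω ∈ U'} - pr w {ω | W ω ∈ U} * pr w {ω | W ω ∈ U'}| ≤ η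
  hubEdge : ∀ (i : Λ) (k : κ), p ≤ pr w {ω | (W ω).Adj (hub i) (leaf (i, k))}
  vert : ∀ i i' : Λ, L.Adj i i' → ∀ k : κ, p ≤ pr w {ω | (W ω).Adj (leaf (i, k)) (leaf (i', k))}
  hubVert : ∀ i i' : Λ, L.Adj i i' → p ≤ pr w {ω | (W ω).Adj (hub i) (hub i')}
  cross : ∀ (i i' : Λ) (j k : κ), j ≠ k → pr w {ω | (W ω).Adj (hub i) (leaf (i, j)) ∧
    Cn (W ω) (Set.range Sum.inr) (hub i) (hub i') ∧ (W ω).Adj (hub i') (leaf (i', k)) ∧
    ¬ (W ω).Adj (leaf (i, j)) (leaf (i', k))} ≤ η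
  tr1 : ∀ a b c : Λ × κ, a.2 ≠ b.2 → b.2 ≠ c.2 → a.2 ≠ c.2 →
    pr w {ω | (W ω).Adj (leaf a) (leaf b) ∧ (W ω).Adj (leaf b) (leaf c) ∧ ¬ (W ω).Adj (leaf a) (leaf c)} ≤ η
  tr2 : ∀ (a b : Λ × κ) (i i' : Λ) (k : κ), a.2 ≠ k → b.2 ≠ k → a.2 ≠ b.2 →
    pr w {ω | (W ω).Adj (leaf a) (leaf (i, k)) ∧ (W ω).Adj (leaf (i, k)) (leaf (i', k)) ∧
      (W ω).Adj (leaf (i', k)) (leaf b) ∧ ¬ (W ω).Adj (leaf a) (leaf b)} ≤ η

section B

variable {n : ℕ} {Λ κ : Type}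

/-- positions of the sampled star -/
def lxB (σ : Equiv.Perm (Fin n)) (e : κ → Fin n) : LV Λ κ → LV Λ (Fin n)
  | Sum.inl a => leaf (a.1, σ (e a.2))
  | Sum.inr i => hub i

def lleafR (Λ : Type) {n : ℕ} (σ : Equiv.Perm (Fin n)) (P : Finset (Fin n)) : Set (LV Λ (Fin n)) :=
  {v | ∃ i : Λ, ∃ q ∈ P, v = leaf (i, σ q)}

/-- saturation fails: some pair of sampled leaves is connected with the help of `P0 ∪ P1 ∪ P2` and at most one
further sampled index, but not with the help of one of `P0`, `P1`, `P2` alone -/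
def lbadB (σ : Equiv.Perm (Fin n)) (e : κ → Fin n) (P0 P1 P2 : Finset (Fin n)) (G : SimpleGraph (LV Λ (Fin n))) :
    Prop :=
  ∃ P : Finset (Fin n), (P = P0 ∨ P = P1 ∨ P = P2) ∧ ∃ a b : Λ × κ, a.2 ≠ b.2 ∧
    ((lder (lxB σ e) (lleafR Λ σ (P0 ∪ P1 ∪ P2)) G).Adj (leaf a) (leaf b) ∨
      ∃ k : κ, k ≠ a.2 ∧ k ≠ b.2 ∧ (lder (lxB σ e) (lleafR Λ σ (P0 ∪ P1 ∪ P2 ∪ {e k})) G).Adj (leaf a) (leaf b)) ∧
    ¬ (lder (lxB σ e) (lleafR Λ σ P) G).Adj (leaf a) (leaf b)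

/-- the sampled graph -/
def smpG (σ : Equiv.Perm (Fin n)) (e : κ → Fin n) (P : Finset (Fin n)) (G : SimpleGraph (LV Λ (Fin n))) :
    SimpleGraph (LV Λ κ) := lder (lxB σ e) (lleafR Λ σ P) G

end B

end

end Pool.Agent.LP
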