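import Pool.Agent.LP.SPM

/-!
# LP: rule D1, a P end has only one unlinked neighbour

Blocks: hub `i` block 0, hub `i'` block 1, hub `i''` block 2, block 3 for reference.
The events `A0 = {W ∉ hAtt σ i i 0}`, `A1 = {W ∈ hOth σ i' i 1}`, `A2 = {W ∈ hAtt σ i'' i'' 2}` are independent
(disjoint vertex sets) with product at least `(1 - rc - ε) (1 - sc - ε) (sc - ε) ≥ 0.061`.
Outside the events of `closed` (for `(i, i')` with `u = 0, u' = 1`, for `(i, i'')` with `u = 0, u' = 1`) both hub edges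
`i - i'`, `i - i''` are open on `A0`.  Then the leaf `(i', k)` (`k` in block 1, open to hub `i'`, attached to the
majority of layer `i`) and the leaf `(i'', l)` (`l` in block 2, open to hub `i''`, own) are adjacent by `cross`
(path hub i' - hub i - hub i''), so `(i'', l)` is attached to the majority of layer `i` too (`smj_of_adj`, block 3),
and the pair `i, i''` is linked (`L3` of OIP).  Hence `0.061 ≤ 2 * ε + ... `, a contradiction.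
-/

set_option autoImplicit false

open Finset
open scoped Classical

namespace Pool.Agent.LP

open Pool.Agent.OIP

private theorem sd1_blk_disj {m : ℕ} (σ : Equiv.Perm (I5 m)) {u v : Fin 5} (huv : u ≠ v) {x : I5 m}
    (hx : x ∈ blk σ u) (hy : x ∈ blk σ v) : False := by
  unfold blk at hx hy
  simp only [Finset.mem_map, Finset.mem_image, Finset.mem_filter, Finset.mem_univ, true_and] at hx hy
  obtain ⟨a, ha⟩ := hx
  obtain ⟨b, hb⟩ := hy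
  have := σ.injective (ha.trans hb.symm)
  exact huv (congrArg Prod.fst this)

private theorem sd1_disj {Λ : Type} {m : ℕ} (σ : Equiv.Perm (I5 m)) {u v : Fin 5} (huv : u ≠ v) {i j : Λ}
    (hij : i ≠ j) :
    Disjoint (VSL Λ (blk σ u) ∪ {(hub i : LV Λ (I5 m))}) (VSL Λ (blk σ v) ∪ {(hub j : LV Λ (I5 m))}) := by
  rw [Set.disjoint_left]
  rintro x (⟨c, k, hk, rfl⟩ | hx) (⟨c', k', hk', h⟩ | hy)
  · have h1 : (c, k) = (c', k') := Sum.inl_injective h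
    have h2 : k = k' := congrArg Prod.snd h1
    exact sd1_blk_disj σ huv hk (h2 ▸ hk')
  · exact absurd hy (by simp)
  · rw [Set.mem_singleton_iff] at hx
    rw [hx] at h
    exact absurd h (by simp)
  · rw [Set.mem_singleton_iff] at hx hy
    rw [hx] at hy
    exact hij (Sum.inr_injective hy)

/-- deterministic part -/
private theorem sd1_det {Λ : Type} {m : ℕ} (hm : 4 ≤ m) {G : SimpleGraph (LV Λ (I5 m))} (hT : LTr G)
    {σ : Equiv.Perm (I5 m)} {i i' i'' : Λ}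
    (hcross : ∀ (i i' : Λ) (j k : I5 m), j ≠ k → G.Adj (hub i) (leaf (i, j)) →
      Cn G (Set.range Sum.inr) (hub i) (hub i') → G.Adj (hub i') (leaf (i', k)) →
      G.Adj (leaf (i, j)) (leaf (i', k)))
    (hG : GoodG (dl pc) σ (prG i i' G)) (hG' : GoodG (dl pc) σ (prG i i'' G))
    (h1 : G ∈ hOth σ i' i 1) (h2 : G ∈ hAtt σ i'' i'' 2) (e1 : G.Adj (hub i) (hub i'))
    (e2 : G.Adj (hub i) (hub i'')) : G ∈ LkL σ i i'' 0 := by
  obtain ⟨⟨k, hk, hka, hkm⟩, -⟩ := h1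
  obtain ⟨l, hl, hla, hlm⟩ := h2
  have hkl : k ≠ l := by
    rintro rfl
    exact sd1_blk_disj σ (by decide) hk hl
  have hl3 : l ∉ blk σ 3 := fun h => sd1_blk_disj σ (by decide) hl h
  have hcn : Cn G (Set.range Sum.inr) (hub i') (hub i'') := by
    refine Relation.ReflTransGen.tail (Relation.ReflTransGen.single
      ⟨e1.symm, ⟨i', rfl⟩, ⟨i, rfl⟩⟩) ⟨e2, ⟨i, rfl⟩, ⟨i'', rfl⟩⟩
  have hadj : G.Adj (leaf (i', k)) (leaf (i'', l)) := hcross i' i'' k l hkl hka hcn hla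
  have hk3 : SMj G (i', k) i (blk σ 3) :=
    (smj_blk hG (Or.inr rfl) (Or.inl rfl) 1 3).1 hkm
  have hl3i : SMj G (i'', l) i (blk σ 3) :=
    smj_of_adj hT (a := (i'', l)) (b := (i', k)) hkl.symm hadj.symm hl3 hk3
  have hl2i : SMj G (i'', l) i (blk σ 2) :=
    (smj_blk hG' (Or.inr rfl) (Or.inl rfl) 3 2).1 hl3i
  have hlk : G ∈ LkL σ i'' i 2 := ⟨l, hl, hlm, hl2i⟩
  exact lkL_swap σ hm hT (good_swap.1 hG') 2 hlk 0

theorem sample_D1 {Λ : Type} {m : ℕ} (hm : 4 ≤ m) {L : SimpleGraph Λ} {Ω : Type} [Fintype Ω] {w : Ω → ℝ}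
    {W : Ω → SimpleGraph (LV Λ (I5 m))} (h : LSample L pc w W) {σ : Equiv.Perm (I5 m)} {ε : ℝ}
    (hε0 : 0 < ε) (hε : ε ≤ 1 / 1000) (hσ : GoodSig L ε w W σ) {i i' i'' : Λ} (hL : L.Adj i i') (hL' : L.Adj i i'')
    (hne : i' ≠ i'') (hlk : pr w {ω | W ω ∈ LkL σ i i' 0} ≤ ε) (hlk' : pr w {ω | W ω ∈ LkL σ i i'' 0} ≤ ε)
    (hPM : PM ε w W σ i i') (hPM' : PM ε w W σ i i'') : False := by
  have hw := h.law
  have hii' : i ≠ i' := hL.ne
  have hii'' : i ≠ i'' := hL'.ne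
  -- numbers
  have s1 : 1.732 < Real.sqrt 3 := by
    rw [Real.lt_sqrt (by norm_num)]
    norm_num
  have s2 : Real.sqrt 3 < 1.7321 := by
    rw [Real.sqrt_lt' (by norm_num)]
    norm_num
  have r1 : rc < 0.7321 := by unfold rc; linarith
  have c1 : 0.6339 < sc := by unfold sc; linarith
  have c2 : sc < 0.634 := by unfold sc; linarith
  -- the three events
  set A0 : Set (SimpleGraph (LV Λ (I5 m))) := (hAtt σ i i 0)ᶜ with hA0
  set A1 : Set (SimpleGraph (LV Λ (I5 m))) := hOth σ i' i 1 with hA1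
  set A2 : Set (SimpleGraph (LV Λ (I5 m))) := hAtt σ i'' i'' 2 with hA2
  have d0 : DepOn (VSL Λ (blk σ 0) ∪ {(hub i : LV Λ (I5 m))}) A0 := (depOn_hAtt σ i i 0).compl
  have d1 : DepOn (VSL Λ (blk σ 1) ∪ {(hub i' : LV Λ (I5 m))}) A1 := depOn_hOth σ i' i 1
  have d2 : DepOn (VSL Λ (blk σ 2) ∪ {(hub i'' : LV Λ (I5 m))}) A2 := depOn_hAtt σ i'' i'' 2
  have p0 : 0.26 ≤ pr w {ω | W ω ∈ A0} := by
    have h1 := pr_compl hw {ω | W ω ∈ hAtt σ i i 0}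
    have h2 := (abs_le.1 (hPM.own 0)).2
    have h3 : pr w {ω | W ω ∈ A0} = pr w ({ω | W ω ∈ hAtt σ i i 0}ᶜ) := rfl
    rw [h3, h1]
    linarith
  have p1 : 0.36 ≤ pr w {ω | W ω ∈ A1} := by
    have h2 := (abs_le.1 (hPM.oth' 1)).1
    linarith
  have p2 : 0.63 ≤ pr w {ω | W ω ∈ A2} := by
    have h2 := (abs_le.1 (hPM'.own' 2)).1
    linarith
  have ind01 : pr w {ω | W ω ∈ A0 ∧ W ω ∈ A1} = pr w {ω | W ω ∈ A0} * pr w {ω | W ω ∈ A1} :=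
    h.indep _ _ (sd1_disj σ (by decide) hii') _ _ d0 d1
  have ind012 : pr w {ω | W ω ∈ A0 ∩ A1 ∧ W ω ∈ A2} = pr w {ω | W ω ∈ A0 ∩ A1} * pr w {ω | W ω ∈ A2} := by
    refine h.indep ((VSL Λ (blk σ 0) ∪ {(hub i : LV Λ (I5 m))}) ∪
      (VSL Λ (blk σ 1) ∪ {(hub i' : LV Λ (I5 m))})) _ ?_ _ _
      ((d0.mono Set.subset_union_left).inter (d1.mono Set.subset_union_right)) d2
    exact Set.disjoint_union_left.2
      ⟨sd1_disj σ (by decide) hii'', sd1_disj σ (by decide) hne⟩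
  have hprod : 0.26 * 0.36 * 0.63 ≤ pr w {ω | W ω ∈ A0 ∩ A1 ∧ W ω ∈ A2} := by
    have e1 : pr w {ω | W ω ∈ A0 ∩ A1} = pr w {ω | W ω ∈ A0} * pr w {ω | W ω ∈ A1} := ind01
    rw [ind012, e1]
    have h3 : (0.26 : ℝ) * 0.36 ≤ pr w {ω | W ω ∈ A0} * pr w {ω | W ω ∈ A1} :=
      mul_le_mul p0 p1 (by norm_num) (by linarith)
    exact mul_le_mul h3 p2 (by norm_num) (by nlinarith)
  -- the exceptional events
  have b1 := hPM.closed 0 1 (by decide)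
  have b2 := hPM'.closed 0 1 (by decide)
  have g1 := hσ.good i i' hL
  have g2 := hσ.good i i'' hL'
  have hsub : {ω | W ω ∈ A0 ∩ A1 ∧ W ω ∈ A2} ⊆
      {ω | W ω ∈ LkL σ i i'' 0} ∪
      (({ω | ¬ (W ω).Adj (hub i) (hub i') ∧ ¬ (W ω ∈ hAtt σ i i 0 ∧ W ω ∈ hAtt σ i' i' 1)} ∪
        {ω | ¬ (W ω).Adj (hub i) (hub i'') ∧ ¬ (W ω ∈ hAtt σ i i 0 ∧ W ω ∈ hAtt σ i'' i'' 1)}) ∪
      ({ω | ¬ GoodG (dl pc) σ (prG i i' (W ω))} ∪ {ω | ¬ GoodG (dl pc) σ (prG i i'' (W ω))})) := by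
    rintro ω ⟨⟨h0, h1⟩, h2⟩
    by_cases e1 : (W ω).Adj (hub i) (hub i')
    · by_cases e2 : (W ω).Adj (hub i) (hub i'')
      · by_cases q1 : GoodG (dl pc) σ (prG i i' (W ω))
        · by_cases q2 : GoodG (dl pc) σ (prG i i'' (W ω))
          · exact Or.inl (sd1_det hm (h.tr ω) (h.cross ω) q1 q2 h1 h2 e1 e2)
          · exact Or.inr (Or.inr (Or.inr q2))
        · exact Or.inr (Or.inr (Or.inl q1))
      · exact Or.inr (Or.inl (Or.inr ⟨e2, fun hc => h0 hc.1⟩))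
    · exact Or.inr (Or.inl (Or.inl ⟨e1, fun hc => h0 hc.1⟩))
  have hle := pr_mono hw hsub
  have u1 := pr_union_le hw {ω | W ω ∈ LkL σ i i'' 0}
      (({ω | ¬ (W ω).Adj (hub i) (hub i') ∧ ¬ (W ω ∈ hAtt σ i i 0 ∧ W ω ∈ hAtt σ i' i' 1)} ∪
        {ω | ¬ (W ω).Adj (hub i) (hub i'') ∧ ¬ (W ω ∈ hAtt σ i i 0 ∧ W ω ∈ hAtt σ i'' i'' 1)}) ∪
      ({ω | ¬ GoodG (dl pc) σ (prG i i' (W ω))} ∪ {ω | ¬ GoodG (dl pc) σ (prG i i'' (W ω))}))
  have u2 := pr_union_le hw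
      ({ω | ¬ (W ω).Adj (hub i) (hub i') ∧ ¬ (W ω ∈ hAtt σ i i 0 ∧ W ω ∈ hAtt σ i' i' 1)} ∪
        {ω | ¬ (W ω).Adj (hub i) (hub i'') ∧ ¬ (W ω ∈ hAtt σ i i 0 ∧ W ω ∈ hAtt σ i'' i'' 1)})
      ({ω | ¬ GoodG (dl pc) σ (prG i i' (W ω))} ∪ {ω | ¬ GoodG (dl pc) σ (prG i i'' (W ω))})
  have u3 := pr_union_le hw
      {ω | ¬ (W ω).Adj (hub i) (hub i') ∧ ¬ (W ω ∈ hAtt σ i i 0 ∧ W ω ∈ hAtt σ i' i' 1)}
      {ω | ¬ (W ω).Adj (hub i) (hub i'') ∧ ¬ (W ω ∈ hAtt σ i i 0 ∧ W ω ∈ hAtt σ i'' i'' 1)}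
  have u4 := pr_union_le hw {ω | ¬ GoodG (dl pc) σ (prG i i' (W ω))}
      {ω | ¬ GoodG (dl pc) σ (prG i i'' (W ω))}
  linarith

end Pool.Agent.LP
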