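import Pool.Agent.LP.SPM

/-!
# LP: rule D2, a P end is not linked to an M end

`i` is the P end of the unlinked pair `i, i'`; `j` is the M end of the unlinked pair `j', j` (P end `j'`); `i, j` adjacent
and linked; `i' ≠ j`, `j' ≠ i` (`i' = j'` is not excluded).  Blocks: hub `i` block 0, hub `j` block 1, hub `i'` block 2,
reference block 3.  Claim: `pr {hub i - hub j open} ≤ rc * sc + small = 1 - pc + small < pc`.
-/

set_option autoImplicit false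

open Finset
open scoped Classical

namespace Pool.Agent.LP

open Pool.Agent.OIP

private theorem sd2_not_mem_blk {m : ℕ} (σ : Equiv.Perm (I5 m)) {x : I5 m} {u v : Fin 5} (huv : u ≠ v)
    (hu : x ∈ blk σ u) : x ∉ blk σ v := fun hv => huv (scoreL_blk_unique σ hu hv)

private theorem sd2_ne {m : ℕ} (σ : Equiv.Perm (I5 m)) {x y : I5 m} {u v : Fin 5} (huv : u ≠ v)
    (hx : x ∈ blk σ u) (hy : y ∈ blk σ v) : x ≠ y := by
  rintro rfl
  exact sd2_not_mem_blk σ huv hx hy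

private theorem sd2_leaf_dis {Λ : Type} {m : ℕ} (σ : Equiv.Perm (I5 m)) {u v : Fin 5} (huv : u ≠ v)
    {x : LV Λ (I5 m)} (hx : x ∈ VSL Λ (blk σ u)) : x ∉ VSL Λ (blk σ v) := by
  rintro ⟨c, l, hl, h⟩
  obtain ⟨b, k, hk, rfl⟩ := hx
  have h1 : (b, k) = (c, l) := Sum.inl.inj h
  exact sd2_ne σ huv hk hl (congrArg Prod.snd h1)

private theorem sd2_hub_not {Λ : Type} {m : ℕ} (S : Finset (I5 m)) (i : Λ) :
    (hub i : LV Λ (I5 m)) ∉ VSL Λ S := by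
  rintro ⟨b, k, _, h⟩
  exact absurd h (by simp [hub, leaf])

private theorem sd2_num : rc * sc = 1 - pc ∧ (0.73 : ℝ) < rc ∧ rc < 0.7321 ∧ (0.633 : ℝ) < sc ∧ sc < 0.6341 ∧
    (0.5358 : ℝ) < pc := by
  have h3 : Real.sqrt 3 * Real.sqrt 3 = 3 := Real.mul_self_sqrt (by norm_num)
  have h1 : (1.7320 : ℝ) < Real.sqrt 3 := Real.lt_sqrt_of_sq_lt (by norm_num)
  have h2 : Real.sqrt 3 < 1.7321 := by
    rw [Real.sqrt_lt' (by norm_num)]
    norm_num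
  unfold rc sc pc
  refine ⟨?_, ?_, ?_, ?_, ?_, ?_⟩
  · nlinarith
  all_goals linarith

theorem sample_D2 {Λ : Type} {m : ℕ} (hm : 4 ≤ m) {L : SimpleGraph Λ} {Ω : Type} [Fintype Ω] {w : Ω → ℝ}
    {W : Ω → SimpleGraph (LV Λ (I5 m))} (h : LSample L pc w W) {σ : Equiv.Perm (I5 m)} {ε : ℝ}
    (hε0 : 0 < ε) (hε : ε ≤ 1 / 10000) (hσ : GoodSig L ε w W σ) {i i' j j' : Λ} (hi : L.Adj i i')
    (hj : L.Adj j' j) (hij : L.Adj i j) (hne : i' ≠ j) (hne' : j' ≠ i)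
    (hlki : pr w {ω | W ω ∈ LkL σ i i' 0} ≤ ε) (hlkj : pr w {ω | W ω ∈ LkL σ j' j 0} ≤ ε)
    (hlk : 1 - ε ≤ pr w {ω | W ω ∈ LkL σ i j 0}) (hPi : PM ε w W σ i i') (hPj : PM ε w W σ j' j) : False := by
  have hlaw := h.law
  obtain ⟨hrs, hr1, hr2, hs1, hs2, hp⟩ := sd2_num
  have h01 : (0 : Fin 5) ≠ 1 := by decide
  have h02 : (0 : Fin 5) ≠ 2 := by decide
  have h12 : (1 : Fin 5) ≠ 2 := by decide
  have hii' : i ≠ i' := hi.ne
  have hijne : i ≠ j := hij.ne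
  -- bad events
  set B1 : Set Ω := {ω | ¬ GoodG (dl pc) σ (prG i i' (W ω))} with hB1
  set B2 : Set Ω := {ω | ¬ GoodG (dl pc) σ (prG j' j (W ω))} with hB2
  set B3 : Set Ω := {ω | ¬ GoodG (dl pc) σ (prG i j (W ω))} with hB3
  set K1 : Set Ω := {ω | W ω ∈ LkL σ i i' 0} with hK1
  set K3 : Set Ω := {ω | W ω ∈ LkL σ i j 0}ᶜ with hK3
  set N1 : Set Ω := {ω | ¬ (W ω).Adj (hub i) (hub i') ∧
    ¬ (W ω ∈ hAtt σ i i 0 ∧ W ω ∈ hAtt σ i' i' 2)} with hN1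
  have pB1 : pr w B1 ≤ ε := hσ.good i i' hi
  have pB2 : pr w B2 ≤ ε := hσ.good j' j hj
  have pB3 : pr w B3 ≤ ε := hσ.good i j hij
  have pK1 : pr w K1 ≤ ε := hlki
  have pK3 : pr w K3 ≤ ε := by
    rw [hK3, pr_compl hlaw]
    linarith
  have pN1 : pr w N1 ≤ ε := hPi.closed 0 2 h02
  -- step (2)
  have hcross : ∀ ω, (W ω).Adj (hub i) (hub j) → W ω ∈ hAtt σ i i 0 → W ω ∈ hOth σ j j' 1 →
      ω ∈ B2 ∪ K3 := by
    intro ω hO h0 h1
    by_contra hcon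
    rw [Set.mem_union, not_or] at hcon
    obtain ⟨c2, c3⟩ := hcon
    have c2' : GoodG (dl pc) σ (prG j' j (W ω)) := by
      by_contra hc
      exact c2 hc
    have c3' : W ω ∈ LkL σ i j 0 := by
      by_contra hc
      exact c3 hc
    obtain ⟨k, hk, hk1, hk2⟩ := h0
    obtain ⟨⟨l, hl, hl1, hl2⟩, hnot⟩ := h1
    obtain ⟨k', hk', hk'1, hk'2⟩ := c3'
    have hT := h.tr ω
    have hkl : k ≠ l := sd2_ne σ h01 hk hl
    have hlk' : l ≠ k' := (sd2_ne σ h01 hk' hl).symm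
    have hl0 : l ∉ blk σ 0 := sd2_not_mem_blk σ h01.symm hl
    have hcn : Cn (W ω) (Set.range Sum.inr) (hub i) (hub j) :=
      Cn.of_adj hO ⟨i, rfl⟩ ⟨j, rfl⟩
    have hadj := h.cross ω i j k l hkl hk1 hcn hl1
    have hs := smj_of_adj hT (a := (j, l)) (b := (i, k)) hkl.symm hadj.symm hl0 hk2
    have hadj2 := adj_of_smj hT (a := (j, l)) (b := (i, k')) hlk' hs hk'1
    have hs2 := smj_of_adj hT (a := (j, l)) (b := (i, k')) hlk' hadj2 hl0 hk'2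
    have hs3 := (smj_blk c2' (a := (j, l)) (Or.inr rfl) (c := j) (Or.inr rfl) 0 1).1 hs2
    exact hnot ⟨l, hl, hl1, hs3⟩
  -- step (4)
  have hE : ∀ ω, (W ω).Adj (hub i) (hub j) → W ω ∉ hAtt σ i i 0 → W ω ∈ hAtt σ j j 1 →
      W ω ∈ hAtt σ i' i' 2 → ω ∈ N1 ∪ (B1 ∪ (B3 ∪ (K3 ∪ K1))) := by
    intro ω hO h0 h1 h2
    by_contra hcon
    simp only [Set.mem_union, not_or] at hcon
    obtain ⟨cN, cB1, cB3, cK3, cK1⟩ := hcon
    have cB1' : GoodG (dl pc) σ (prG i i' (W ω)) := by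
      by_contra hc
      exact cB1 hc
    have cB3' : GoodG (dl pc) σ (prG i j (W ω)) := by
      by_contra hc
      exact cB3 hc
    have cK3' : W ω ∈ LkL σ i j 0 := by
      by_contra hc
      exact cK3 hc
    have hopen : (W ω).Adj (hub i) (hub i') := by
      by_contra hc
      exact cN ⟨hc, fun hh => h0 hh.1⟩
    obtain ⟨k1, hk1, hk1a, hk1b⟩ := h1
    obtain ⟨k2, hk2, hk2a, hk2b⟩ := h2
    obtain ⟨k', hk', hk'1, hk'2⟩ := cK3'
    have hT := h.tr ω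
    have n21 : k2 ≠ k1 := (sd2_ne σ h12 hk1 hk2).symm
    have n1' : k1 ≠ k' := (sd2_ne σ h01 hk' hk1).symm
    have n2' : k2 ≠ k' := (sd2_ne σ h02 hk' hk2).symm
    have hcn1 : Cn (W ω) (Set.range Sum.inr) (hub i') (hub i) :=
      Cn.of_adj hopen.symm ⟨i', rfl⟩ ⟨i, rfl⟩
    have hcn2 : Cn (W ω) (Set.range Sum.inr) (hub i) (hub j) :=
      Cn.of_adj hO ⟨i, rfl⟩ ⟨j, rfl⟩
    have hcn : Cn (W ω) (Set.range Sum.inr) (hub i') (hub j) := hcn1.trans hcn2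
    have hadj := h.cross ω i' j k2 k1 n21 hk2a hcn hk1a
    have e1 := (smj_blk cB3' (a := (j, k1)) (Or.inr rfl) (c := j) (Or.inr rfl) 1 0).1 hk1b
    have e2 := adj_of_smj hT (a := (j, k1)) (b := (i, k')) n1' e1 hk'2
    have e3 : (W ω).Adj (leaf (i', k2)) (leaf (i, k')) :=
      hT.1 (i', k2) (j, k1) (i, k') n21 n1' n2' hadj e2
    have e4 := smj_of_adj hT (a := (i', k2)) (b := (i, k')) n2' e3
      (sd2_not_mem_blk σ h02.symm hk2) hk'1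
    have e5 := (smj_blk cB1' (a := (i', k2)) (Or.inr rfl) (c := i) (Or.inl rfl) 0 2).1 e4
    have e6 : W ω ∈ LkL σ i' i 2 := ⟨k2, hk2, hk2b, e5⟩
    exact cK1 (lkL_swap σ hm hT (good_swap.1 cB1') 2 e6 0)
  -- step (5)
  have hE' : ∀ ω, (W ω).Adj (hub i) (hub j) → W ω ∉ hAtt σ i i 0 → W ω ∈ hOth σ j j' 1 →
      W ω ∈ hOth σ i' i 2 → ω ∈ N1 ∪ (B1 ∪ (B3 ∪ K3)) := by
    intro ω hO h0 h1 h2
    by_contra hcon
    simp only [Set.mem_union, not_or] at hcon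
    obtain ⟨cN, cB1, cB3, cK3⟩ := hcon
    have cB1' : GoodG (dl pc) σ (prG i i' (W ω)) := by
      by_contra hc
      exact cB1 hc
    have cB3' : GoodG (dl pc) σ (prG i j (W ω)) := by
      by_contra hc
      exact cB3 hc
    have cK3' : W ω ∈ LkL σ i j 0 := by
      by_contra hc
      exact cK3 hc
    have hopen : (W ω).Adj (hub i) (hub i') := by
      by_contra hc
      exact cN ⟨hc, fun hh => h0 hh.1⟩
    obtain ⟨⟨k1, hk1, hk1a, hk1b⟩, hnot⟩ := h1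
    obtain ⟨⟨k2, hk2, hk2a, hk2b⟩, _⟩ := h2
    obtain ⟨k', hk', hk'1, hk'2⟩ := cK3'
    have hT := h.tr ω
    have n21 : k2 ≠ k1 := (sd2_ne σ h12 hk1 hk2).symm
    have n1' : k1 ≠ k' := (sd2_ne σ h01 hk' hk1).symm
    have n2' : k2 ≠ k' := (sd2_ne σ h02 hk' hk2).symm
    have hcn1 : Cn (W ω) (Set.range Sum.inr) (hub i') (hub i) :=
      Cn.of_adj hopen.symm ⟨i', rfl⟩ ⟨i, rfl⟩
    have hcn2 : Cn (W ω) (Set.range Sum.inr) (hub i) (hub j) :=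
      Cn.of_adj hO ⟨i, rfl⟩ ⟨j, rfl⟩
    have hcn : Cn (W ω) (Set.range Sum.inr) (hub i') (hub j) := hcn1.trans hcn2
    have hadj := h.cross ω i' j k2 k1 n21 hk2a hcn hk1a
    have e1 := (smj_blk cB1' (a := (i', k2)) (Or.inr rfl) (c := i) (Or.inl rfl) 2 0).1 hk2b
    have e2 := adj_of_smj hT (a := (i', k2)) (b := (i, k')) n2' e1 hk'1
    have e3 : (W ω).Adj (leaf (j, k1)) (leaf (i, k')) :=
      hT.1 (j, k1) (i', k2) (i, k') n21.symm n2' n1' hadj.symm e2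
    have e4 := smj_of_adj hT (a := (j, k1)) (b := (i, k')) n1' e3
      (sd2_not_mem_blk σ h01.symm hk1) hk'2
    have e5 := (smj_blk cB3' (a := (j, k1)) (Or.inr rfl) (c := j) (Or.inr rfl) 0 1).1 e4
    exact hnot ⟨k1, hk1, hk1a, e5⟩
  -- probabilities
  set O' : Set (SimpleGraph (LV Λ (I5 m))) := {G | G.Adj (hub i) (hub j)} with hO'
  set A01 : Set (LV Λ (I5 m)) := (VSL Λ (blk σ 0) ∪ {hub i}) ∪ (VSL Λ (blk σ 1) ∪ {hub j}) with hA01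
  set A2 : Set (LV Λ (I5 m)) := VSL Λ (blk σ 2) ∪ {hub i'} with hA2
  have hdep0 : DepOn A01 (hAtt σ i i 0) := (depOn_hAtt σ i i 0).mono Set.subset_union_left
  have hdepO : DepOn A01 O' := depOn_adj (Or.inl (Or.inr rfl)) (Or.inr (Or.inr rfl))
  have hdis : Disjoint A01 A2 := by
    rw [Set.disjoint_left]
    rintro x (( hx | hx) | (hx | hx)) (hy | hy)
    · exact sd2_leaf_dis σ h02 hx hy
    · rw [Set.mem_singleton_iff] at hy
      subst hy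
      exact sd2_hub_not _ _ hx
    · rw [Set.mem_singleton_iff] at hx
      subst hx
      exact sd2_hub_not _ _ hy
    · rw [Set.mem_singleton_iff] at hx hy
      rw [hx] at hy
      exact hii' (Sum.inr.inj hy)
    · exact sd2_leaf_dis σ h12 hx hy
    · rw [Set.mem_singleton_iff] at hy
      subst hy
      exact sd2_hub_not _ _ hx
    · rw [Set.mem_singleton_iff] at hx
      subst hx
      exact sd2_hub_not _ _ hy
    · rw [Set.mem_singleton_iff] at hx hy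
      rw [hx] at hy
      exact hne (Sum.inr.inj hy).symm
  have hdis01 : Disjoint (VSL Λ (blk σ 0) ∪ {hub i}) (VSL Λ (blk σ 1) ∪ {(hub j : LV Λ (I5 m))}) := by
    rw [Set.disjoint_left]
    rintro x (hx | hx) (hy | hy)
    · exact sd2_leaf_dis σ h01 hx hy
    · rw [Set.mem_singleton_iff] at hy
      subst hy
      exact sd2_hub_not _ _ hx
    · rw [Set.mem_singleton_iff] at hx
      subst hx
      exact sd2_hub_not _ _ hy
    · rw [Set.mem_singleton_iff] at hx hy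
      rw [hx] at hy
      exact hijne (Sum.inr.inj hy)
  set EE : Set (SimpleGraph (LV Λ (I5 m))) := (O' ∩ (hAtt σ i i 0)ᶜ) ∩ hAtt σ j j 1 with hEE
  set EE' : Set (SimpleGraph (LV Λ (I5 m))) := (O' ∩ (hAtt σ i i 0)ᶜ) ∩ hOth σ j j' 1 with hEE'
  have hdE : DepOn A01 EE :=
    (hdepO.inter hdep0.compl).inter ((depOn_hAtt σ j j 1).mono Set.subset_union_right)
  have hdE' : DepOn A01 EE' :=
    (hdepO.inter hdep0.compl).inter ((depOn_hOth σ j j' 1).mono Set.subset_union_right)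
  have q1 := h.indep _ _ hdis01 _ _ (depOn_hAtt σ i i 0) (depOn_hAtt σ j j 1)
  have q2 := h.indep _ _ hdis _ _ hdE (depOn_hAtt σ i' i' 2)
  have q3 := h.indep _ _ hdis _ _ hdE' (depOn_hOth σ i' i 2)
  have o1 := abs_le.1 (hPi.own 0)
  have o2 := abs_le.1 (hPj.own' 1)
  have o3 := abs_le.1 (hPj.oth' 1)
  have o4 := abs_le.1 (hPi.own' 2)
  have o5 := abs_le.1 (hPi.oth' 2)
  have u4 : pr w {ω | W ω ∈ EE ∧ W ω ∈ hAtt σ i' i' 2} ≤ 5 * ε := by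
    refine (pr_mono hlaw (fun ω hω => ?_)).trans ((pr_union_le hlaw N1 (B1 ∪ (B3 ∪ (K3 ∪ K1)))).trans ?_)
    · exact hE ω hω.1.1.1 hω.1.1.2 hω.1.2 hω.2
    · have a1 := pr_union_le hlaw B1 (B3 ∪ (K3 ∪ K1))
      have a2 := pr_union_le hlaw B3 (K3 ∪ K1)
      have a3 := pr_union_le hlaw K3 K1
      linarith
  have u5 : pr w {ω | W ω ∈ EE' ∧ W ω ∈ hOth σ i' i 2} ≤ 4 * ε := by
    refine (pr_mono hlaw (fun ω hω => ?_)).trans ((pr_union_le hlaw N1 (B1 ∪ (B3 ∪ K3))).trans ?_)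
    · exact hE' ω hω.1.1.1 hω.1.1.2 hω.1.2 hω.2
    · have a1 := pr_union_le hlaw B1 (B3 ∪ K3)
      have a2 := pr_union_le hlaw B3 K3
      linarith
  have v4 : pr w {ω | W ω ∈ EE} ≤ 8 * ε := by
    rw [q2] at u4
    have h0 := pr_nonneg hlaw {ω | W ω ∈ EE}
    have : (0.632 : ℝ) ≤ pr w {ω | W ω ∈ hAtt σ i' i' 2} := by linarith [o4.1]
    nlinarith only [hε, hs1, o4, u4]
  have v5 : pr w {ω | W ω ∈ EE'} ≤ 11 * ε := by
    rw [q3] at u5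
    have h0 := pr_nonneg hlaw {ω | W ω ∈ EE'}
    have : (0.3657 : ℝ) ≤ pr w {ω | W ω ∈ hOth σ i' i 2} := by linarith [o5.1]
    nlinarith only [hε, hs2, o5, u5]
  have v1 : pr w {ω | W ω ∈ hAtt σ i i 0 ∧ W ω ∈ hAtt σ j j 1} ≤ (rc + ε) * (sc + ε) := by
    rw [q1]
    exact mul_le_mul (by linarith [o1.2]) (by linarith [o2.2]) (pr_nonneg hlaw _) (by linarith)
  have v3 : pr w {ω | ¬ W ω ∈ hAtt σ j j 1 ∧ ¬ W ω ∈ hOth σ j j' 1} ≤ 2 * ε := by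
    have hd : Disjoint {ω | W ω ∈ hAtt σ j j 1} {ω | W ω ∈ hOth σ j j' 1} := by
      rw [Set.disjoint_left]
      intro ω h1 h2
      exact h2.2 h1
    have e1 : {ω | ¬ W ω ∈ hAtt σ j j 1 ∧ ¬ W ω ∈ hOth σ j j' 1} =
        ({ω | W ω ∈ hAtt σ j j 1} ∪ {ω | W ω ∈ hOth σ j j' 1})ᶜ := by
      ext ω
      simp [not_or]
    rw [e1, pr_compl hlaw, pr_union_disjoint hd]
    linarith [o2.1, o3.1]
  have hO : pc ≤ pr w {ω | (W ω).Adj (hub i) (hub j)} := h.hubVert i j hij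
  have hsub : {ω | (W ω).Adj (hub i) (hub j)} ⊆
      {ω | W ω ∈ hAtt σ i i 0 ∧ W ω ∈ hAtt σ j j 1} ∪ ((B2 ∪ K3) ∪
        ({ω | ¬ W ω ∈ hAtt σ j j 1 ∧ ¬ W ω ∈ hOth σ j j' 1} ∪ ({ω | W ω ∈ EE} ∪ {ω | W ω ∈ EE'}))) := by
    intro ω hω
    by_cases c0 : W ω ∈ hAtt σ i i 0
    · by_cases c1 : W ω ∈ hAtt σ j j 1
      · exact Or.inl ⟨c0, c1⟩
      · by_cases c2 : W ω ∈ hOth σ j j' 1
        · exact Or.inr (Or.inl (hcross ω hω c0 c2))
        · exact Or.inr (Or.inr (Or.inl ⟨c1, c2⟩))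
    · by_cases c1 : W ω ∈ hAtt σ j j 1
      · exact Or.inr (Or.inr (Or.inr (Or.inl ⟨⟨hω, c0⟩, c1⟩)))
      · by_cases c2 : W ω ∈ hOth σ j j' 1
        · exact Or.inr (Or.inr (Or.inr (Or.inr ⟨⟨hω, c0⟩, c2⟩)))
        · exact Or.inr (Or.inr (Or.inl ⟨c1, c2⟩))
  have t := hO.trans (pr_mono hlaw hsub)
  have t1 := pr_union_le hlaw {ω | W ω ∈ hAtt σ i i 0 ∧ W ω ∈ hAtt σ j j 1} ((B2 ∪ K3) ∪
        ({ω | ¬ W ω ∈ hAtt σ j j 1 ∧ ¬ W ω ∈ hOth σ j j' 1} ∪ ({ω | W ω ∈ EE} ∪ {ω | W ω ∈ EE'})))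
  have t2 := pr_union_le hlaw (B2 ∪ K3)
        ({ω | ¬ W ω ∈ hAtt σ j j 1 ∧ ¬ W ω ∈ hOth σ j j' 1} ∪ ({ω | W ω ∈ EE} ∪ {ω | W ω ∈ EE'}))
  have t3 := pr_union_le hlaw {ω | ¬ W ω ∈ hAtt σ j j 1 ∧ ¬ W ω ∈ hOth σ j j' 1}
    ({ω | W ω ∈ EE} ∪ {ω | W ω ∈ EE'})
  have t4 := pr_union_le hlaw {ω | W ω ∈ EE} {ω | W ω ∈ EE'}
  have t5 := pr_union_le hlaw B2 K3
  nlinarith

end Pool.Agent.LP
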