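import Pool.Agent.LP.SMass

/-!
# LP: hub degrees at the two ends of an unlinked pair

P end `i` : on `{W ∉ hAtt σ i i 0}` (probability `≥ 1 - rc - ε`) the expected number of open leaves in the blocks
`x ≠ 0` is at most `4 ε m` (`open0`) and there is no open leaf in block 0 outside an event of probability `ε` (`non`);
Markov.
M end `i'` : `W ∈ hAtt σ i' i' 0` or `W ∈ hOth σ i' i 0` up to `2 ε` (`own'`, `oth'`).  In the first case all but few of
the own leaves of block `x ∈ {1,2,3,4}` are open (`open1` with `u = 0`, `v ∉ {0, x}`, Markov), and there are at least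
`(1/2 + 2 dl pc) m` of them (`GoodG`); in the second case the same with `open2` and `oth_mass`
(`(1 - sc - 1/50) m ≥ 0.34 m` leaves per block).  So `hdeg ≥ 4 * 0.33 m > 5 m / 4`.
-/

set_option autoImplicit false

open Finset
open scoped Classical

namespace Pool.Agent.LP

open Pool.Agent.OIP

private theorem sdeg_markov {Ω : Type} [Fintype Ω] {w : Ω → ℝ} (hw : IsLaw w) {m : ℕ} (hm : 0 < m)
    (P : Fin m → Ω → Prop) {inst : ∀ ω, DecidablePred (fun t => P t ω)} {ε c : ℝ} (hc : 0 < c)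
    (h : avg (fun t => pr w {ω | P t ω}) ≤ ε) :
    pr w {ω | c * (m : ℝ) < ((Finset.univ.filter (fun t => P t ω)).card : ℝ)} ≤ ε / c := by
  have hinst : inst = fun ω t => Classical.propDecidable _ := Subsingleton.elim _ _
  subst hinst
  have hm' : (0 : ℝ) < (m : ℝ) := by exact_mod_cast hm
  have h1 : ∑ t : Fin m, pr w {ω | P t ω} ≤ ε * m := by
    unfold avg at h
    rw [Fintype.card_fin, div_le_iff₀ hm'] at h
    exact h
  rw [sum_pr_eq] at h1
  rw [le_div_iff₀ hc]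
  have h2 : pr w {ω | c * (m : ℝ) < ((Finset.univ.filter (fun t => P t ω)).card : ℝ)} * (c * m) ≤ ε * m := by
    refine le_trans ?_ h1
    rw [pr_eq_sum_ind, Finset.sum_mul]
    refine Finset.sum_le_sum fun ω _ => ?_
    rw [mul_assoc]
    refine mul_le_mul_of_nonneg_left ?_ (hw.nonneg ω)
    unfold ind
    split_ifs with hh
    · rw [one_mul]
      exact le_of_lt hh
    · rw [zero_mul]
      positivity
  have h3 : pr w {ω | c * (m : ℝ) < ((Finset.univ.filter (fun t => P t ω)).card : ℝ)} * c * m ≤ ε * m := by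
    rw [mul_assoc]
    exact h2
  exact le_of_mul_le_mul_right h3 hm'

private theorem sdeg_blocks {Λ : Type} {m : ℕ} (σ : Equiv.Perm (I5 m)) (G : SimpleGraph (LV Λ (I5 m))) (i : Λ) :
    hdeg G i = ∑ x : Fin 5, (Finset.univ.filter
      (fun t : Fin m => G.Adj (hub i) (leaf (i, σ (x, t))))).card := by
  unfold hdeg
  rw [Finset.card_filter, ← Equiv.sum_comp σ, Fintype.sum_prod_type]
  refine Finset.sum_congr rfl fun x _ => ?_
  rw [Finset.card_filter]

private theorem sdeg_card (m : ℕ) : Fintype.card (I5 m) = 5 * m := by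
  rw [Fintype.card_prod, Fintype.card_fin, Fintype.card_fin]

private theorem sdeg_mem_blk {m : ℕ} (σ : Equiv.Perm (I5 m)) (x : Fin 5) (t : Fin m) : σ (x, t) ∈ blk σ x :=
  Finset.mem_image_of_mem _ (Finset.mem_univ t)

theorem deg_P (ε' : ℝ) (hε' : 0 < ε') : ∃ ε : ℝ, 0 < ε ∧ ∀ (Λ : Type) (m : ℕ), 4 ≤ m →
    ∀ (Ω : Type) [Fintype Ω] (w : Ω → ℝ) (W : Ω → SimpleGraph (LV Λ (I5 m))),
      IsLaw w → ∀ σ : Equiv.Perm (I5 m), ∀ i i' : Λ, PM ε w W σ i i' →
      1 - rc - ε' ≤ pr w {ω | 200 * hdeg (W ω) i ≤ Fintype.card (I5 m)} := by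
  refine ⟨ε' / 1000, by positivity, ?_⟩
  intro Λ m hm Ω _ w W hw σ i i' hPM
  set ε : ℝ := ε' / 1000 with hεdef
  have hm0 : 0 < m := by omega
  have hm' : (0 : ℝ) < (m : ℝ) := by exact_mod_cast hm0
  have hown : 1 - rc - ε ≤ pr w {ω | W ω ∉ hAtt σ i i 0} := by
    have h1 := (abs_le.1 (hPM.own 0)).2
    have h2 := pr_compl hw {ω | W ω ∈ hAtt σ i i 0}
    have h3 : ({ω | W ω ∈ hAtt σ i i 0} : Set Ω)ᶜ = {ω | W ω ∉ hAtt σ i i 0} := rfl
    rw [h3] at h2
    linarith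
  have hmk : ∀ x : Fin 5, 0 ≠ x → pr w {ω | (1 / 160 : ℝ) * (m : ℝ) < ((Finset.univ.filter (fun t : Fin m =>
      (W ω).Adj (hub i) (leaf (i, σ (x, t))) ∧ W ω ∉ hAtt σ i i 0)).card : ℝ)} ≤ 160 * ε := by
    intro x hx
    refine (sdeg_markov hw hm0 (fun t ω => (W ω).Adj (hub i) (leaf (i, σ (x, t))) ∧ W ω ∉ hAtt σ i i 0)
      (by norm_num : (0 : ℝ) < 1 / 160) (hPM.open0 0 x hx)).trans (le_of_eq ?_)
    ring
  have hU : pr w {ω | ∃ x ∈ (Finset.univ.filter (fun x : Fin 5 => 0 ≠ x)),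
      (1 / 160 : ℝ) * (m : ℝ) < ((Finset.univ.filter (fun t : Fin m =>
      (W ω).Adj (hub i) (leaf (i, σ (x, t))) ∧ W ω ∉ hAtt σ i i 0)).card : ℝ)} ≤ 640 * ε := by
    refine (pr_exists_le hw _ (fun (x : Fin 5) ω => (1 / 160 : ℝ) * (m : ℝ) < ((Finset.univ.filter (fun t : Fin m =>
      (W ω).Adj (hub i) (leaf (i, σ (x, t))) ∧ W ω ∉ hAtt σ i i 0)).card : ℝ))).trans ?_
    calc _ ≤ ∑ x ∈ (Finset.univ.filter (fun x : Fin 5 => 0 ≠ x)), 160 * ε :=
          Finset.sum_le_sum fun x hx => hmk x (Finset.mem_filter.1 hx).2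
      _ = 640 * ε := by
          rw [Finset.sum_const]
          have : (Finset.univ.filter (fun x : Fin 5 => 0 ≠ x)).card = 4 := by decide
          rw [this, nsmul_eq_mul]
          push_cast
          ring
  have hcov : {ω | W ω ∉ hAtt σ i i 0} ⊆ ({ω | 200 * hdeg (W ω) i ≤ Fintype.card (I5 m)} ∪
      {ω | W ω ∈ hAny σ i 0 ∧ W ω ∉ hAtt σ i i 0}) ∪
      {ω | ∃ x ∈ (Finset.univ.filter (fun x : Fin 5 => 0 ≠ x)),
      (1 / 160 : ℝ) * (m : ℝ) < ((Finset.univ.filter (fun t : Fin m =>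
      (W ω).Adj (hub i) (leaf (i, σ (x, t))) ∧ W ω ∉ hAtt σ i i 0)).card : ℝ)} := by
    intro ω hω
    by_contra hcon
    simp only [Set.mem_union, not_or] at hcon
    obtain ⟨⟨hc1, hc2⟩, hc3⟩ := hcon
    apply hc1
    change W ω ∉ hAtt σ i i 0 at hω
    have hno : W ω ∉ hAny σ i 0 := fun h => hc2 ⟨h, hω⟩
    have hblk : ∀ x : Fin 5, 0 ≠ x → ((Finset.univ.filter (fun t : Fin m =>
        (W ω).Adj (hub i) (leaf (i, σ (x, t))))).card : ℝ) ≤ 1 / 160 * (m : ℝ) := by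
      intro x hx
      by_contra hlt
      push Not at hlt
      apply hc3
      refine ⟨x, Finset.mem_filter.2 ⟨Finset.mem_univ _, hx⟩, hlt.trans_le ?_⟩
      have : (Finset.univ.filter (fun t : Fin m => (W ω).Adj (hub i) (leaf (i, σ (x, t))))).card ≤
          (Finset.univ.filter (fun t : Fin m =>
            (W ω).Adj (hub i) (leaf (i, σ (x, t))) ∧ W ω ∉ hAtt σ i i 0)).card := by
        refine Finset.card_le_card ?_
        intro t ht
        rw [Finset.mem_filter] at ht ⊢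
        exact ⟨ht.1, ht.2, hω⟩
      exact_mod_cast this
    have hblk0 : (Finset.univ.filter (fun t : Fin m =>
        (W ω).Adj (hub i) (leaf (i, σ ((0 : Fin 5), t))))).card = 0 := by
      rw [Finset.card_eq_zero, Finset.filter_eq_empty_iff]
      intro t _ hadj
      exact hno ⟨σ (0, t), sdeg_mem_blk σ 0 t, hadj⟩
    have hsum : (hdeg (W ω) i : ℝ) ≤ 1 / 40 * (m : ℝ) := by
      rw [sdeg_blocks σ (W ω) i, Fin.sum_univ_five, hblk0]
      push_cast
      have e1 := hblk 1 (by decide)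
      have e2 := hblk 2 (by decide)
      have e3 := hblk 3 (by decide)
      have e4 := hblk 4 (by decide)
      linarith
    change 200 * hdeg (W ω) i ≤ Fintype.card (I5 m)
    rw [sdeg_card]
    have : ((200 * hdeg (W ω) i : ℕ) : ℝ) ≤ ((5 * m : ℕ) : ℝ) := by
      push_cast
      linarith
    exact_mod_cast this
  have h1 := pr_mono hw hcov
  have h2 := pr_union_le hw ({ω | 200 * hdeg (W ω) i ≤ Fintype.card (I5 m)} ∪
      {ω | W ω ∈ hAny σ i 0 ∧ W ω ∉ hAtt σ i i 0})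
      {ω | ∃ x ∈ (Finset.univ.filter (fun x : Fin 5 => 0 ≠ x)),
      (1 / 160 : ℝ) * (m : ℝ) < ((Finset.univ.filter (fun t : Fin m =>
      (W ω).Adj (hub i) (leaf (i, σ (x, t))) ∧ W ω ∉ hAtt σ i i 0)).card : ℝ)}
  have h3 := pr_union_le hw {ω | 200 * hdeg (W ω) i ≤ Fintype.card (I5 m)}
      {ω | W ω ∈ hAny σ i 0 ∧ W ω ∉ hAtt σ i i 0}
  have h4 := hPM.non 0
  linarith

private theorem goodSig_mono {Λ : Type} {m : ℕ} {Ω : Type} [Fintype Ω] {L : SimpleGraph Λ} {η η' : ℝ}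
    {w : Ω → ℝ} {W : Ω → SimpleGraph (LV Λ (I5 m))} {σ : Equiv.Perm (I5 m)} (h : GoodSig L η w W σ)
    (hη : η ≤ η') : GoodSig L η' w W σ :=
  ⟨fun i i' hL => (h.good i i' hL).trans hη, fun i i' hL => (h.dev i i' hL).trans hη,
    fun τ i i' hL u hu => (h.herr τ i i' hL u hu).trans hη⟩

private theorem pm_mono {Λ : Type} {m : ℕ} {Ω : Type} [Fintype Ω] {ε ε' : ℝ}
    {w : Ω → ℝ} {W : Ω → SimpleGraph (LV Λ (I5 m))} {σ : Equiv.Perm (I5 m)} {i i' : Λ} (h : PM ε w W σ i i')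
    (hη : ε ≤ ε') : PM ε' w W σ i i' :=
  ⟨fun u => (h.own u).trans hη, fun u => (h.non u).trans hη, fun u => (h.own' u).trans hη,
    fun u => (h.oth' u).trans hη, fun v x hvx => (h.lown v x hvx).trans hη,
    fun v x hvx => (h.lown' v x hvx).trans hη, fun v x hvx => (h.loth' v x hvx).trans hη,
    fun u u' huu => (h.closed u u' huu).trans hη, fun u x hux => (h.open0 u x hux).trans hη,
    fun u v x h1 h2 h3 => (h.open1 u v x h1 h2 h3).trans hη,
    fun u v x h1 h2 h3 => (h.open2 u v x h1 h2 h3).trans hη⟩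

/-- number of leaves of block `x` attached to the own majority class -/
private theorem sdeg_own_count {Λ : Type} {m : ℕ} {σ : Equiv.Perm (I5 m)} {i i' : Λ}
    {G : SimpleGraph (LV Λ (I5 m))} (hG : GoodG (dl pc) σ (prG i i' G)) (v x : Fin 5) :
    (1 / 2 + 2 * dl pc) * (m : ℝ) ≤
      ((Finset.univ.filter (fun t : Fin m => G ∈ lAtt σ i' i' v (σ (x, t)))).card : ℝ) := by
  refine (hG.2 true x).trans ?_
  have : ((blk σ x).filter (fun k => Mj (prG i i' G) (true, k) true (blk σ x))).card ≤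
      (Finset.univ.filter (fun t : Fin m => G ∈ lAtt σ i' i' v (σ (x, t)))).card := by
    have hsub : (blk σ x).filter (fun k => Mj (prG i i' G) (true, k) true (blk σ x)) ⊆
        (Finset.univ.filter (fun t : Fin m => G ∈ lAtt σ i' i' v (σ (x, t)))).image (fun t => σ (x, t)) := by
      intro k hk
      rw [Finset.mem_filter] at hk
      obtain ⟨hk1, hk2⟩ := hk
      unfold blk at hk1
      rw [Finset.mem_image] at hk1
      obtain ⟨t, _, rfl⟩ := hk1
      refine Finset.mem_image.2 ⟨t, Finset.mem_filter.2 ⟨Finset.mem_univ _, ?_⟩, rfl⟩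
      exact (hG.1 (true, σ (x, t)) true x v).1 hk2
    exact (Finset.card_le_card hsub).trans Finset.card_image_le
  exact_mod_cast this

/-- many attached leaves, few closed ones: many open ones -/
private theorem sdeg_open_count {m : ℕ} (A B D : Fin m → Prop) {i1 : DecidablePred A} {i2 : DecidablePred B}
    {i3 : DecidablePred D} {a d : ℝ}
    (hA : a ≤ ((Finset.univ.filter (fun t => A t)).card : ℝ))
    (hD : ((Finset.univ.filter (fun t => D t)).card : ℝ) ≤ d)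
    (hAD : ∀ t, A t → ¬ B t → D t) : a - d ≤ ((Finset.univ.filter (fun t => B t)).card : ℝ) := by
  have : (Finset.univ.filter (fun t => A t)).card ≤
      (Finset.univ.filter (fun t => B t)).card + (Finset.univ.filter (fun t => D t)).card := by
    refine (Finset.card_le_card ?_).trans (Finset.card_union_le _ _)
    intro t ht
    rw [Finset.mem_filter] at ht
    rw [Finset.mem_union, Finset.mem_filter, Finset.mem_filter]
    by_cases hB : B t
    · exact Or.inl ⟨Finset.mem_univ _, hB⟩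
    · exact Or.inr ⟨Finset.mem_univ _, hAD t ht.2 hB⟩
  have h' : ((Finset.univ.filter (fun t => A t)).card : ℝ) ≤
      ((Finset.univ.filter (fun t => B t)).card : ℝ) + ((Finset.univ.filter (fun t => D t)).card : ℝ) := by
    exact_mod_cast this
  linarith

private theorem sdeg_sc : 1 - sc - 1 / 25 > 5 / 16 := by
  unfold sc
  have h1 : Real.sqrt 3 < 1.7321 := by
    rw [Real.sqrt_lt' (by norm_num)]
    norm_num
  have h2 : 1.732 < Real.sqrt 3 := by
    refine Real.lt_sqrt_of_sq_lt ?_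
    norm_num
  linarith

private theorem sdeg_dl : 0 ≤ dl pc := by
  unfold dl pc
  have h1 : Real.sqrt 3 < 1.7321 := by
    rw [Real.sqrt_lt' (by norm_num)]
    norm_num
  linarith

/-- reference block for the leaves of block `x` -/
private def vOf (x : Fin 5) : Fin 5 := if x = 1 then 2 else 1

private theorem vOf_zero (x : Fin 5) : (0 : Fin 5) ≠ vOf x := by
  unfold vOf
  split_ifs <;> decide

private theorem vOf_ne (x : Fin 5) : vOf x ≠ x := by
  unfold vOf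
  split_ifs with h
  · rw [h]
    decide
  · exact fun h' => h h'.symm

theorem deg_M (ε' : ℝ) (hε' : 0 < ε') : ∃ ε : ℝ, 0 < ε ∧ ∀ (Λ : Type) (m : ℕ), 4 ≤ m →
    ∀ (L : SimpleGraph Λ) (Ω : Type) [Fintype Ω] (w : Ω → ℝ) (W : Ω → SimpleGraph (LV Λ (I5 m))),
      LSample L pc w W → ∀ σ : Equiv.Perm (I5 m), GoodSig L ε w W σ → ∀ i i' : Λ, L.Adj i i' →
      PM ε w W σ i i' → pr w {ω | 4 * hdeg (W ω) i' ≤ Fintype.card (I5 m)} ≤ ε' := by
  obtain ⟨ε₁, hε₁, hmass⟩ := oth_mass (ε' / 20) (by positivity)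
  refine ⟨min ε₁ (ε' / 1000), lt_min hε₁ (by positivity), ?_⟩
  intro Λ m hm L Ω _ w W h σ hσ i i' hL hPM
  set ε : ℝ := min ε₁ (ε' / 1000) with hεdef
  have hw := h.law
  have hε1 : ε ≤ ε₁ := min_le_left _ _
  have hε2 : ε ≤ ε' / 1000 := min_le_right _ _
  have hm0 : 0 < m := by omega
  have hm' : (0 : ℝ) < (m : ℝ) := by exact_mod_cast hm0
  have hms := hmass Λ m hm L Ω w W h σ (goodSig_mono hσ hε1) i i' hL (pm_mono hPM hε1)
  -- the exceptional events
  let S : Finset (Fin 5) := Finset.univ.filter (fun x : Fin 5 => 0 ≠ x)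
  have hS : S.card = 4 := by decide
  let D1 : Fin 5 → Ω → Prop := fun x ω => (1 / 50 : ℝ) * (m : ℝ) < ((Finset.univ.filter (fun t : Fin m =>
      W ω ∈ hAtt σ i' i' 0 ∧ W ω ∈ lAtt σ i' i' (vOf x) (σ (x, t)) ∧
      ¬ (W ω).Adj (hub i') (leaf (i', σ (x, t))))).card : ℝ)
  let D2 : Fin 5 → Ω → Prop := fun x ω => (1 / 50 : ℝ) * (m : ℝ) < ((Finset.univ.filter (fun t : Fin m =>
      W ω ∈ hOth σ i' i 0 ∧ W ω ∈ lOth σ i' i (vOf x) (σ (x, t)) ∧
      ¬ (W ω).Adj (hub i') (leaf (i', σ (x, t))))).card : ℝ)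
  let D3 : Fin 5 → Ω → Prop := fun x ω =>
    ((Finset.univ.filter (fun t : Fin m => W ω ∈ lOth σ i' i (vOf x) (σ (x, t)))).card : ℝ) <
        (1 - sc - 1 / 50) * m
  have hD1 : ∀ x ∈ S, pr w {ω | D1 x ω} ≤ 50 * ε := by
    intro x hx
    refine (sdeg_markov hw hm0 (fun t ω => W ω ∈ hAtt σ i' i' 0 ∧ W ω ∈ lAtt σ i' i' (vOf x) (σ (x, t)) ∧
      ¬ (W ω).Adj (hub i') (leaf (i', σ (x, t)))) (by norm_num : (0 : ℝ) < 1 / 50)
      (hPM.open1 0 (vOf x) x (vOf_zero x) (Finset.mem_filter.1 hx).2 (vOf_ne x))).trans (le_of_eq ?_)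
    ring
  have hD2 : ∀ x ∈ S, pr w {ω | D2 x ω} ≤ 50 * ε := by
    intro x hx
    refine (sdeg_markov hw hm0 (fun t ω => W ω ∈ hOth σ i' i 0 ∧ W ω ∈ lOth σ i' i (vOf x) (σ (x, t)) ∧
      ¬ (W ω).Adj (hub i') (leaf (i', σ (x, t)))) (by norm_num : (0 : ℝ) < 1 / 50)
      (hPM.open2 0 (vOf x) x (vOf_zero x) (Finset.mem_filter.1 hx).2 (vOf_ne x))).trans (le_of_eq ?_)
    ring
  have hD3 : ∀ x ∈ S, pr w {ω | D3 x ω} ≤ ε' / 20 := fun x _ => hms (vOf x) x (vOf_ne x)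
  have hsum : ∀ (D : Fin 5 → Ω → Prop) (c : ℝ), (∀ x ∈ S, pr w {ω | D x ω} ≤ c) →
      pr w {ω | ∃ x ∈ S, D x ω} ≤ 4 * c := by
    intro D c hD
    refine (pr_exists_le hw S D).trans ((Finset.sum_le_sum hD).trans (le_of_eq ?_))
    rw [Finset.sum_const, hS, nsmul_eq_mul]
    push_cast
    ring
  have hE1 := hsum D1 _ hD1
  have hE2 := hsum D2 _ hD2
  have hE3 := hsum D3 _ hD3
  have hG := hσ.good i i' hL
  have hR : pr w {ω | W ω ∉ hAtt σ i' i' 0 ∧ W ω ∉ hOth σ i' i 0} ≤ 2 * ε := by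
    have hdisj : Disjoint {ω | W ω ∈ hAtt σ i' i' 0} {ω | W ω ∈ hOth σ i' i 0} := by
      rw [Set.disjoint_left]
      intro ω h1 h2
      exact h2.2 h1
    have h1 := pr_union_disjoint (w := w) hdisj
    have h2 := pr_compl hw ({ω | W ω ∈ hAtt σ i' i' 0} ∪ {ω | W ω ∈ hOth σ i' i 0})
    have h3 : ({ω | W ω ∈ hAtt σ i' i' 0} ∪ {ω | W ω ∈ hOth σ i' i 0} : Set Ω)ᶜ =
        {ω | W ω ∉ hAtt σ i' i' 0 ∧ W ω ∉ hOth σ i' i 0} := by
      ext ω
      simp only [Set.mem_compl_iff, Set.mem_union, not_or]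
      exact Iff.rfl
    rw [h3] at h2
    have h4 := (abs_le.1 (hPM.own' 0)).1
    have h5 := (abs_le.1 (hPM.oth' 0)).1
    linarith
  have hcov : {ω | 4 * hdeg (W ω) i' ≤ Fintype.card (I5 m)} ⊆
      ((({ω | ¬ GoodG (dl pc) σ (prG i i' (W ω))} ∪ {ω | W ω ∉ hAtt σ i' i' 0 ∧ W ω ∉ hOth σ i' i 0}) ∪
        {ω | ∃ x ∈ S, D1 x ω}) ∪ {ω | ∃ x ∈ S, D2 x ω}) ∪ {ω | ∃ x ∈ S, D3 x ω} := by
    intro ω hω
    by_contra hcon
    simp only [Set.mem_union, not_or] at hcon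
    obtain ⟨⟨⟨⟨hc1, hc2⟩, hc3⟩, hc4⟩, hc5⟩ := hcon
    have hGG : GoodG (dl pc) σ (prG i i' (W ω)) := by
      by_contra hh
      exact hc1 hh
    have hdeg_ge : ∀ a : ℝ, 5 / 16 < a → (∀ x ∈ S, a * (m : ℝ) ≤ ((Finset.univ.filter
        (fun t : Fin m => (W ω).Adj (hub i') (leaf (i', σ (x, t))))).card : ℝ)) → False := by
      intro a ha hx
      have hcast : ((4 * hdeg (W ω) i' : ℕ) : ℝ) ≤ ((5 * m : ℕ) : ℝ) := by
        have : 4 * hdeg (W ω) i' ≤ 5 * m := by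
          rw [← sdeg_card]
          exact hω
        exact_mod_cast this
      rw [sdeg_blocks σ (W ω) i', Fin.sum_univ_five] at hcast
      push_cast at hcast
      have e0 : (0 : ℝ) ≤ ((Finset.univ.filter
        (fun t : Fin m => (W ω).Adj (hub i') (leaf (i', σ ((0 : Fin 5), t))))).card : ℝ) := Nat.cast_nonneg _
      have e1 := hx 1 (by decide)
      have e2 := hx 2 (by decide)
      have e3 := hx 3 (by decide)
      have e4 := hx 4 (by decide)
      have e5 := mul_lt_mul_of_pos_right ha hm'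
      linarith
    by_cases hA : W ω ∈ hAtt σ i' i' 0
    · refine hdeg_ge (1 / 2 - 1 / 50) (by norm_num) ?_
      intro x hx
      have h1 : (1 / 2 : ℝ) * (m : ℝ) ≤
          ((Finset.univ.filter (fun t : Fin m => W ω ∈ lAtt σ i' i' (vOf x) (σ (x, t)))).card : ℝ) := by
        refine le_trans ?_ (sdeg_own_count hGG (vOf x) x)
        have := mul_nonneg sdeg_dl hm'.le
        linarith
      have h2 : ((Finset.univ.filter (fun t : Fin m =>
          W ω ∈ hAtt σ i' i' 0 ∧ W ω ∈ lAtt σ i' i' (vOf x) (σ (x, t)) ∧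
          ¬ (W ω).Adj (hub i') (leaf (i', σ (x, t))))).card : ℝ) ≤ 1 / 50 * (m : ℝ) := by
        by_contra hlt
        push Not at hlt
        exact hc3 ⟨x, hx, hlt⟩
      refine le_trans (le_of_eq ?_) (sdeg_open_count (fun t : Fin m => W ω ∈ lAtt σ i' i' (vOf x) (σ (x, t)))
        (fun t : Fin m => (W ω).Adj (hub i') (leaf (i', σ (x, t)))) _ h1 h2
        (fun t ht1 ht2 => ⟨hA, ht1, ht2⟩))
      ring
    · have hO : W ω ∈ hOth σ i' i 0 := by
        by_contra hh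
        exact hc2 ⟨hA, hh⟩
      refine hdeg_ge (1 - sc - 1 / 25) sdeg_sc ?_
      intro x hx
      have h1 : (1 - sc - 1 / 50) * (m : ℝ) ≤
          ((Finset.univ.filter (fun t : Fin m => W ω ∈ lOth σ i' i (vOf x) (σ (x, t)))).card : ℝ) := by
        by_contra hlt
        push Not at hlt
        exact hc5 ⟨x, hx, hlt⟩
      have h2 : ((Finset.univ.filter (fun t : Fin m =>
          W ω ∈ hOth σ i' i 0 ∧ W ω ∈ lOth σ i' i (vOf x) (σ (x, t)) ∧
          ¬ (W ω).Adj (hub i') (leaf (i', σ (x, t))))).card : ℝ) ≤ 1 / 50 * (m : ℝ) := by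
        by_contra hlt
        push Not at hlt
        exact hc4 ⟨x, hx, hlt⟩
      refine le_trans (le_of_eq ?_) (sdeg_open_count (fun t : Fin m => W ω ∈ lOth σ i' i (vOf x) (σ (x, t)))
        (fun t : Fin m => (W ω).Adj (hub i') (leaf (i', σ (x, t)))) _ h1 h2
        (fun t ht1 ht2 => ⟨hO, ht1, ht2⟩))
      ring
  have h1 := pr_mono hw hcov
  have h2 := pr_union_le hw ((({ω | ¬ GoodG (dl pc) σ (prG i i' (W ω))} ∪
        {ω | W ω ∉ hAtt σ i' i' 0 ∧ W ω ∉ hOth σ i' i 0}) ∪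
        {ω | ∃ x ∈ S, D1 x ω}) ∪ {ω | ∃ x ∈ S, D2 x ω}) {ω | ∃ x ∈ S, D3 x ω}
  have h3 := pr_union_le hw (({ω | ¬ GoodG (dl pc) σ (prG i i' (W ω))} ∪
        {ω | W ω ∉ hAtt σ i' i' 0 ∧ W ω ∉ hOth σ i' i 0}) ∪
        {ω | ∃ x ∈ S, D1 x ω}) {ω | ∃ x ∈ S, D2 x ω}
  have h4 := pr_union_le hw ({ω | ¬ GoodG (dl pc) σ (prG i i' (W ω))} ∪
        {ω | W ω ∉ hAtt σ i' i' 0 ∧ W ω ∉ hOth σ i' i 0}) {ω | ∃ x ∈ S, D1 x ω}
  have h5 := pr_union_le hw {ω | ¬ GoodG (dl pc) σ (prG i i' (W ω))}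
        {ω | W ω ∉ hAtt σ i' i' 0 ∧ W ω ∉ hOth σ i' i 0}
  linarith

end Pool.Agent.LP
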