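import Pool.Agent.LP.SPair
import Pool.Agent.OIP.SDich

/-!
# LP: dichotomy linked / unlinked

On `GoodG` the events `LkL σ i i' u`, `u : Fin 5`, coincide (`L3` of OIP for `prG i i'`), so their probabilities
`x u` differ by at most `η²`; `dichotomy` of OIP gives `x 0 * (1 - x 1) ≤ η²`.
-/

set_option autoImplicit false

open Finset
open scoped Classical

namespace Pool.Agent.LP

open Pool.Agent.OIP

private theorem sDichL_dl : 0 ≤ dl pc := by
  unfold dl pc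
  have h : Real.sqrt 3 ≤ 7 / 4 := by
    rw [Real.sqrt_le_left (by norm_num)]
    norm_num
  linarith

theorem lkL_all {Λ : Type} {m : ℕ} (hm : 4 ≤ m) {L : SimpleGraph Λ} {η : ℝ} {Ω : Type} [Fintype Ω] {w : Ω → ℝ}
    {W : Ω → SimpleGraph (LV Λ (I5 m))} (h : LSample L pc w W) {σ : Equiv.Perm (I5 m)}
    (hσ : GoodSig L η w W σ) {i i' : Λ} (hL : L.Adj i i') (u v : Fin 5) :
    pr w {ω | W ω ∈ LkL σ i i' u} ≤ pr w {ω | W ω ∈ LkL σ i i' v} + η := by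
  have hw := h.law
  have h1 : pr w {ω | W ω ∈ LkL σ i i' u} ≤
      pr w ({ω | W ω ∈ LkL σ i i' v} ∪ {ω | ¬ GoodG (dl pc) σ (prG i i' (W ω))}) := by
    refine pr_mono hw ?_
    intro ω hω
    by_cases hg : GoodG (dl pc) σ (prG i i' (W ω))
    · refine Or.inl ?_
      obtain ⟨k, _, hk0, hk1⟩ := hω
      exact L3 sDichL_dl hm ((sampleLaw_prG h hL).tr ω) hg (false, k) u hk0 hk1 v
    · exact Or.inr hg
  exact h1.trans ((pr_union_le hw _ _).trans (add_le_add le_rfl (hσ.good i i' hL)))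

theorem lkL_symm {Λ : Type} {m : ℕ} (hm : 4 ≤ m) {L : SimpleGraph Λ} {η : ℝ} {Ω : Type} [Fintype Ω] {w : Ω → ℝ}
    {W : Ω → SimpleGraph (LV Λ (I5 m))} (h : LSample L pc w W) {σ : Equiv.Perm (I5 m)}
    (hσ : GoodSig L η w W σ) {i i' : Λ} (hL : L.Adj i i') (u v : Fin 5) :
    pr w {ω | W ω ∈ LkL σ i' i u} ≤ pr w {ω | W ω ∈ LkL σ i i' v} + η := by
  have hw := h.law
  have h1 : pr w {ω | W ω ∈ LkL σ i' i u} ≤
      pr w ({ω | W ω ∈ LkL σ i i' v} ∪ {ω | ¬ GoodG (dl pc) σ (prG i i' (W ω))}) := by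
    refine pr_mono hw ?_
    intro ω hω
    by_cases hg : GoodG (dl pc) σ (prG i i' (W ω))
    · refine Or.inl ?_
      exact lkL_swap σ hm (h.tr ω) (good_swap.1 hg) u hω v
    · exact Or.inr hg
  exact h1.trans ((pr_union_le hw _ _).trans (add_le_add le_rfl (hσ.good i i' hL)))

theorem dich_sample {Λ : Type} {m : ℕ} (hm : 4 ≤ m) {L : SimpleGraph Λ} {η : ℝ} (hη : 0 < η) (hη1 : η ≤ 1)
    {Ω : Type} [Fintype Ω] {w : Ω → ℝ} {W : Ω → SimpleGraph (LV Λ (I5 m))} (h : LSample L pc w W)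
    {σ : Equiv.Perm (I5 m)} (hσ : GoodSig L (η ^ 2) w W σ) {i i' : Λ} (hL : L.Adj i i') :
    pr w {ω | W ω ∈ LkL σ i i' 0} ≤ η ∨ ∀ u : Fin 5, 1 - 2 * η ≤ pr w {ω | W ω ∈ LkL σ i i' u} := by
  have hw := h.law
  have h1 := dichotomy hm sDichL_dl (sampleLaw_prG h hL) σ
  have h2 : pr w {ω | W ω ∈ LkL σ i i' 0} * (1 - pr w {ω | W ω ∈ LkL σ i i' 1}) ≤ η ^ 2 :=
    h1.trans (hσ.good i i' hL)
  by_cases hx : pr w {ω | W ω ∈ LkL σ i i' 0} ≤ η
  · exact Or.inl hx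
  · refine Or.inr fun u => ?_
    push Not at hx
    have h3 : 0 ≤ 1 - pr w {ω | W ω ∈ LkL σ i i' 1} := by
      have := pr_le_one hw {ω | W ω ∈ LkL σ i i' 1}
      linarith
    have h4 : 1 - pr w {ω | W ω ∈ LkL σ i i' 1} ≤ η := by
      by_contra hcon
      push Not at hcon
      nlinarith
    have h5 := lkL_all hm h hσ hL 1 u
    have h6 : η ^ 2 ≤ η := by nlinarith
    linarith

end Pool.Agent.LP
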