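import Pool.Agent.LP.SPair
import Pool.Agent.OIP.SGoodAvg
import Pool.Agent.OIP.SDevAvg
import Pool.Agent.OIP.SHub

/-!
# LP: good relabellings exist

`good_avg`, `dev_avg`, `hub_avg` of OIP for all ordered pairs of adjacent layers (`sampleLaw_prG`) and all block
permutations `τ` (`avg_perm_mul_right` : the average over `σ` of `hubErr .. (σ * bp τ) ..` does not depend on `τ`);
all averages tend to `0` as `m → ∞`, so some `σ` (`exists_le_avg` for the sum of all terms) is good.
-/

set_option autoImplicit false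

open Finset
open scoped Classical

namespace Pool.Agent.LP

open Pool.Agent.OIP

theorem half_lt_pc : 1 / 2 < pc := by
  unfold pc
  have h : Real.sqrt 3 < 7 / 4 := by
    rw [Real.sqrt_lt' (by norm_num)]
    norm_num
  linarith

private theorem pc_le_one : pc ≤ 1 := by
  unfold pc
  have h : 3 / 2 < Real.sqrt 3 := by
    rw [Real.lt_sqrt (by norm_num)]
    norm_num
  linarith

/-- finitely many nonnegative quantities with small averages are small together -/
private theorem exists_all_le {X T : Type} [Fintype X] [Nonempty X] [Fintype T] (f : T → X → ℝ)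
    (h0 : ∀ t x, 0 ≤ f t x) (c : ℝ) (h : ∀ t, avg (f t) ≤ c) :
    ∃ x, ∀ t, f t x ≤ (Fintype.card T : ℝ) * c := by
  obtain ⟨x, hx⟩ := exists_le_avg (fun x => ∑ t : T, f t x)
  refine ⟨x, fun t => ?_⟩
  have h1 : f t x ≤ ∑ t : T, f t x := Finset.single_le_sum (fun t _ => h0 t x) (Finset.mem_univ t)
  have h2 : avg (fun x => ∑ t : T, f t x) ≤ (Fintype.card T : ℝ) * c := by
    rw [avg_sum]
    refine le_trans (Finset.sum_le_sum fun t _ => h t) ?_
    rw [Finset.sum_const, Finset.card_univ, nsmul_eq_mul]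
  exact h1.trans (hx.trans h2)

theorem goodSig_exists {Λ : Type} [Fintype Λ] [DecidableEq Λ] (L : SimpleGraph Λ) (η : ℝ) (hη : 0 < η) :
    ∃ m₀ : ℕ, ∀ m : ℕ, m₀ ≤ m → ∀ (Ω : Type) [Fintype Ω] (w : Ω → ℝ) (W : Ω → SimpleGraph (LV Λ (I5 m))),
      LSample L pc w W → ∃ σ : Equiv.Perm (I5 m), GoodSig L η w W σ := by
  have hδ : 0 < dl pc := by
    unfold dl
    have := half_lt_pc
    linarith
  set δ := dl pc with hδdef
  set K : ℝ := 12 / δ ^ 3 + 10 / δ ^ 2 + 1 with hK
  have hK0 : 0 < K := by positivity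
  set T := (Λ × Λ) ⊕ (Λ × Λ) ⊕ (Equiv.Perm (Fin 5) × (Λ × Λ) × Fin 5) with hT
  set N : ℝ := (Fintype.card T : ℝ) with hN
  have hN0 : 0 ≤ N := Nat.cast_nonneg _
  obtain ⟨m₀, hm₀⟩ := exists_nat_gt (N * K / η + 2 / δ + 1)
  refine ⟨m₀, fun m hm Ω _ w W hW => ?_⟩
  have hmr : N * K / η + 2 / δ + 1 < (m : ℝ) := lt_of_lt_of_le hm₀ (by exact_mod_cast hm)
  have h1 : 0 ≤ N * K / η := by positivity
  have h2 : 0 < 2 / δ := by positivity
  have hmpos : (0 : ℝ) < m := by linarith
  have hm2 : 2 ≤ dl pc * (m : ℝ) := by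
    have : 2 / δ ≤ (m : ℝ) := by linarith
    rw [div_le_iff₀ hδ] at this
    linarith [mul_comm (m : ℝ) δ]
  have hmη : N * (K / m) ≤ η := by
    have : N * K / η ≤ (m : ℝ) := by linarith
    rw [div_le_iff₀ hη] at this
    rw [mul_div_assoc', div_le_iff₀ hmpos]
    linarith [mul_comm (m : ℝ) η]
  have hw := hW.law
  let f : T → Equiv.Perm (I5 m) → ℝ := fun t σ =>
    match t with
    | Sum.inl a => if L.Adj a.1 a.2 then pr w {ω | ¬ GoodG (dl pc) σ (prG a.1 a.2 (W ω))} else 0
    | Sum.inr (Sum.inl a) => if L.Adj a.1 a.2 then pr w {ω | Dv (dl pc) σ (prG a.1 a.2 (W ω))} else 0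
    | Sum.inr (Sum.inr b) => if L.Adj b.2.1.1 b.2.1.2 ∧ b.2.2 ≠ 4 then
        avg (fun t : Fin m => hubErr w (fun ω => prG b.2.1.1 b.2.1.2 (W ω)) (σ * bp b.1) false b.2.2 t) else 0
  have hf0 : ∀ t σ, 0 ≤ f t σ := by
    rintro (a | a | b) σ
    · simp only [f]
      split_ifs
      · exact pr_nonneg hw _
      · exact le_rfl
    · simp only [f]
      split_ifs
      · exact pr_nonneg hw _
      · exact le_rfl
    · simp only [f]
      split_ifs
      · exact avg_nonneg fun t => pr_nonneg hw _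
      · exact le_rfl
  have hKm : 0 ≤ K / m := by positivity
  have e1 : 12 / (δ ^ 3 * (m : ℝ)) ≤ K / m := by
    rw [← div_div]
    refine div_le_div_of_nonneg_right ?_ hmpos.le
    have h3 : 0 < 12 / δ ^ 3 := by positivity
    have h4 : 0 < 10 / δ ^ 2 := by positivity
    linarith
  have e2 : 10 / (δ ^ 2 * (m : ℝ)) ≤ K / m := by
    rw [← div_div]
    refine div_le_div_of_nonneg_right ?_ hmpos.le
    have h3 : 0 < 12 / δ ^ 3 := by positivity
    have h4 : 0 < 10 / δ ^ 2 := by positivity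
    linarith
  have e3 : 1 / ((m : ℝ) + 1) ≤ K / m := by
    have h3 : 0 < 12 / δ ^ 3 := by positivity
    have h4 : 0 < 10 / δ ^ 2 := by positivity
    have h5 : 1 / ((m : ℝ) + 1) ≤ 1 / m := one_div_le_one_div_of_le hmpos (by linarith)
    refine h5.trans (div_le_div_of_nonneg_right ?_ hmpos.le)
    linarith
  have hfa : ∀ t, avg (f t) ≤ K / m := by
    rintro (a | a | b)
    · by_cases hL : L.Adj a.1 a.2
      · have hg := good_avg half_lt_pc pc_le_one hm2 (sampleLaw_prG hW hL)
        have : f (Sum.inl a) = fun σ => pr w {ω | ¬ GoodG (dl pc) σ (prG a.1 a.2 (W ω))} := by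
          funext σ
          simp only [f, if_pos hL]
        rw [this]
        exact hg.trans e1
      · have : f (Sum.inl a) = fun _ => 0 := by
          funext σ
          simp only [f, if_neg hL]
        rw [this]
        exact avg_le_of_le hKm fun _ => hKm
    · by_cases hL : L.Adj a.1 a.2
      · have hg := dev_avg hδ (sampleLaw_prG hW hL)
        have : f (Sum.inr (Sum.inl a)) = fun σ => pr w {ω | Dv (dl pc) σ (prG a.1 a.2 (W ω))} := by
          funext σ
          simp only [f, if_pos hL]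
        rw [this]
        exact hg.trans e2
      · have : f (Sum.inr (Sum.inl a)) = fun _ => 0 := by
          funext σ
          simp only [f, if_neg hL]
        rw [this]
        exact avg_le_of_le hKm fun _ => hKm
    · by_cases hL : L.Adj b.2.1.1 b.2.1.2 ∧ b.2.2 ≠ 4
      · have : f (Sum.inr (Sum.inr b)) = fun σ => avg (fun t : Fin m =>
            hubErr w (fun ω => prG b.2.1.1 b.2.1.2 (W ω)) (σ * bp b.1) false b.2.2 t) := by
          funext σ
          simp only [f, if_pos hL]
        rw [this, avg_comm]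
        refine avg_le_of_le hKm fun t => ?_
        have h3 := avg_perm_mul_right (bp b.1 : Equiv.Perm (I5 m)) (fun σ =>
          hubErr w (fun ω => prG b.2.1.1 b.2.1.2 (W ω)) σ false b.2.2 t)
        have h4 := hub_avg hw (fun ω => prG b.2.1.1 b.2.1.2 (W ω)) false b.2.2 hL.2 t
        have h5 : avg (fun σ : Equiv.Perm (I5 m) =>
          hubErr w (fun ω => prG b.2.1.1 b.2.1.2 (W ω)) (σ * bp b.1) false b.2.2 t) ≤ 1 / ((m : ℝ) + 1) := by
          rw [h3]
          exact h4
        exact h5.trans e3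
      · have : f (Sum.inr (Sum.inr b)) = fun _ => 0 := by
          funext σ
          simp only [f, if_neg hL]
        rw [this]
        exact avg_le_of_le hKm fun _ => hKm
  obtain ⟨σ, hσ⟩ := exists_all_le f hf0 (K / m) hfa
  refine ⟨σ, ⟨fun i i' hL => ?_, fun i i' hL => ?_, fun τ i i' hL u hu => ?_⟩⟩
  · have h3 := (hσ (Sum.inl (i, i'))).trans hmη
    simp only [f, if_pos hL] at h3
    exact h3
  · have h3 := (hσ (Sum.inr (Sum.inl (i, i')))).trans hmη
    simp only [f, if_pos hL] at h3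
    exact h3
  · have h3 := (hσ (Sum.inr (Sum.inr (τ, (i, i'), u)))).trans hmη
    have h4 : L.Adj i i' ∧ u ≠ 4 := ⟨hL, hu⟩
    simp only [f, if_pos h4] at h3
    exact h3

theorem goodSig_bp {Λ : Type} {m : ℕ} {L : SimpleGraph Λ} {η : ℝ} {Ω : Type} [Fintype Ω] {w : Ω → ℝ}
    {W : Ω → SimpleGraph (LV Λ (I5 m))} (hw : IsLaw w) {σ : Equiv.Perm (I5 m)} (h : GoodSig L η w W σ)
    (τ : Equiv.Perm (Fin 5)) : GoodSig L η w W (σ * bp τ) := by
  refine ⟨fun i i' hL => ?_, fun i i' hL => ?_, fun τ' i i' hL u hu => ?_⟩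
  · refine le_trans (pr_mono hw ?_) (h.good i i' hL)
    intro ω hω hG
    exact hω (good_bp τ hG)
  · refine le_trans (pr_mono hw ?_) (h.dev i i' hL)
    intro ω hω
    exact dv_bp τ hω
  · have e : (σ * bp τ) * bp τ' = σ * bp (τ * τ') := by
      rw [mul_assoc]
      rfl
    rw [e]
    exact h.herr (τ * τ') i i' hL u hu

end Pool.Agent.LP
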