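import Pool.Agent.LP.SPM

/-!
# LP: the other class has density about `1 - sc` in every block (M end)

`q x ω` := number of `k ∈ blk σ x` such that `(i', k)` is attached to the majority of layer `i` but not to that of layer
`i'`, both seen from block `x` itself.  It depends only on the leaves of block `x`.  On `GoodG` it does not matter from
which block majorities are seen.  The leaves counted by `q` form one class of `Rl (prG i i' G) true` (if nonempty:
`adj_of_smj`; a leaf adjacent to a counted one is counted), so outside `Dv (dl pc)` (and `¬ GoodG`)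
`|q x - q y| ≤ 2 dl pc m ≤ 0.005 m`.
`A = {q 0 < (1 - sc - 1/50) m}`, `A' = {q 1 ≥ (1 - sc - 1/100) m}` are independent (disjoint blocks) and
`A ∩ A' ⊆ Dv ∪ ¬ GoodG`; and `E q 1 ≥ (1 - sc - ε - η) m` (`loth'` with test block `x = 1`).  If `pr A ≥ ε'` then
`pr A' ≤ 2 η / ε'`, so `E q 1 ≤ (1 - sc - 1/100 + 2 η / ε') m`, a contradiction for small `ε`, `η`.  The same for every
block instead of `0`.
-/

set_option autoImplicit false

open Finset
open scoped Classical

namespace Pool.Agent.LP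

open Pool.Agent.OIP

section aux

variable {Λ : Type} {m : ℕ}

/-- number of the leaves `(i', k)`, `k` in block `x`, in the other class seen from block `v` -/
private noncomputable def smQ (σ : Equiv.Perm (I5 m)) (i i' : Λ) (v x : Fin 5) (G : SimpleGraph (LV Λ (I5 m))) : ℕ :=
  (Finset.univ.filter (fun t : Fin m => G ∈ lOth σ i' i v (σ (x, t)))).card

private theorem sm_mem {σ : Equiv.Perm (I5 m)} {i i' : Λ} {v : Fin 5} {j : I5 m}
    {G : SimpleGraph (LV Λ (I5 m))} :
    G ∈ lOth σ i' i v j ↔ SMj G (i', j) i (blk σ v) ∧ ¬ SMj G (i', j) i' (blk σ v) := Iff.rfl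

private theorem sm_oth_blk {σ : Equiv.Perm (I5 m)} {i i' : Λ} {G : SimpleGraph (LV Λ (I5 m))}
    (hG : GoodG (dl pc) σ (prG i i' G)) (u v : Fin 5) (j : I5 m) :
    G ∈ lOth σ i' i u j ↔ G ∈ lOth σ i' i v j := by
  rw [sm_mem, sm_mem, smj_blk hG (a := (i', j)) (Or.inr rfl) (c := i) (Or.inl rfl) u v,
    smj_blk hG (a := (i', j)) (Or.inr rfl) (c := i') (Or.inr rfl) u v]

private theorem sm_same {σ : Equiv.Perm (I5 m)} {i i' : Λ} {G : SimpleGraph (LV Λ (I5 m))}
    (hG : GoodG (dl pc) σ (prG i i' G)) (u v x : Fin 5) : smQ σ i i' u x G = smQ σ i i' v x G := by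
  unfold smQ
  congr 1
  ext t
  simp only [Finset.mem_filter, Finset.mem_univ, true_and]
  exact sm_oth_blk hG u v _

private theorem sm_card (σ : Equiv.Perm (I5 m)) (x : Fin 5) (P : I5 m → Prop) :
    (Finset.univ.filter (fun t : Fin m => P (σ (x, t)))).card = ((blk σ x).filter P).card := by
  unfold blk
  rw [Finset.filter_image, Finset.card_image_of_injective]
  intro s t hst
  exact (Prod.mk.inj (σ.injective hst)).2

private theorem sm_not_mem (σ : Equiv.Perm (I5 m)) {x y : Fin 5} (h : x ≠ y) {k : I5 m} (hk : k ∈ blk σ x) :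
    k ∉ blk σ y := fun h' => (Finset.disjoint_left.1 (blk_disjoint σ h)) hk h'

private theorem sm_le {σ : Equiv.Perm (I5 m)} {i i' : Λ} {G : SimpleGraph (LV Λ (I5 m))} (hT : LTr G)
    (hG : GoodG (dl pc) σ (prG i i' G)) (hD : ¬ Dv (dl pc) σ (prG i i' G)) (hdl : 0 ≤ dl pc) {x y : Fin 5}
    (hxy : x ≠ y) :
    (smQ σ i i' y y G : ℝ) ≤ (smQ σ i i' x x G : ℝ) + 2 * dl pc * m := by
  by_cases h0 : ∃ t0 : Fin m, G ∈ lOth σ i' i y (σ (y, t0))
  · obtain ⟨t0, ht0⟩ := h0
    set k0 : I5 m := σ (y, t0) with hk0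
    have hk0y : k0 ∈ blk σ y := by
      unfold blk
      exact Finset.mem_image.2 ⟨t0, Finset.mem_univ _, rfl⟩
    have hk0x : k0 ∉ blk σ x := sm_not_mem σ hxy.symm hk0y
    have hm1 : SMj G (i', k0) i (blk σ y) := (sm_mem.1 ht0).1
    have hm2 : ¬ SMj G (i', k0) i' (blk σ y) := (sm_mem.1 ht0).2
    have h1 : smQ σ i i' y y G ≤
        ((blk σ y).filter (fun k => Rl (prG i i' G) true k0 k)).card := by
      unfold smQ
      rw [sm_card σ y (fun k => G ∈ lOth σ i' i y k)]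
      refine Finset.card_le_card ?_
      intro k hk
      rw [Finset.mem_filter] at hk ⊢
      refine ⟨hk.1, ?_⟩
      by_cases hkk : k0 = k
      · exact Or.inl hkk
      · right
        exact adj_of_smj (a := (i', k0)) (b := (i', k)) hT hkk hm1 (sm_mem.1 hk.2).1
    have h2 : ((blk σ x).filter (fun k => Rl (prG i i' G) true k0 k)).card ≤ smQ σ i i' x x G := by
      unfold smQ
      rw [sm_card σ x (fun k => G ∈ lOth σ i' i x k)]
      refine Finset.card_le_card ?_
      intro k hk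
      rw [Finset.mem_filter] at hk ⊢
      refine ⟨hk.1, ?_⟩
      have hkk : k0 ≠ k := by
        rintro rfl
        exact hk0x hk.1
      have hadj : G.Adj (leaf (i', k0)) (leaf (i', k)) := by
        rcases hk.2 with h | h
        · exact absurd h hkk
        · exact h
      rw [sm_mem]
      constructor
      · rw [smj_blk hG (a := (i', k)) (Or.inr rfl) (c := i) (Or.inl rfl) x y]
        exact smj_of_adj (a := (i', k)) (b := (i', k0)) hT hkk.symm hadj.symm (sm_not_mem σ hxy hk.1) hm1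
      · intro hcon
        have h3 : SMj G (i', k0) i' (blk σ x) :=
          smj_of_adj (a := (i', k0)) (b := (i', k)) hT hkk hadj hk0x hcon
        rw [smj_blk hG (a := (i', k0)) (Or.inr rfl) (c := i') (Or.inr rfl) x y] at h3
        exact hm2 h3
    have h3 : (((blk σ y).filter (fun k => Rl (prG i i' G) true k0 k)).card : ℝ) ≤
        (((blk σ x).filter (fun k => Rl (prG i i' G) true k0 k)).card : ℝ) + 2 * dl pc * m := by
      by_contra hcon
      push Not at hcon
      exact hD ⟨true, k0, y, x, hcon⟩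
    have h1' : (smQ σ i i' y y G : ℝ) ≤
        (((blk σ y).filter (fun k => Rl (prG i i' G) true k0 k)).card : ℝ) := by exact_mod_cast h1
    have h2' : (((blk σ x).filter (fun k => Rl (prG i i' G) true k0 k)).card : ℝ) ≤
        (smQ σ i i' x x G : ℝ) := by exact_mod_cast h2
    linarith
  · have h1 : smQ σ i i' y y G = 0 := by
      unfold smQ
      rw [Finset.card_eq_zero, Finset.filter_eq_empty_iff]
      intro t _ ht
      exact h0 ⟨t, ht⟩
    rw [h1]
    have : (0 : ℝ) ≤ 2 * dl pc * m := by positivity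
    have h2 : (0 : ℝ) ≤ (smQ σ i i' x x G : ℝ) := Nat.cast_nonneg _
    push_cast
    linarith

private theorem sm_dep_congr (σ : Equiv.Perm (I5 m)) (i i' : Λ) (x : Fin 5) {G H : SimpleGraph (LV Λ (I5 m))}
    (hGH : ∀ a ∈ VSL Λ (blk σ x), ∀ b ∈ VSL Λ (blk σ x), (G.Adj a b ↔ H.Adj a b)) :
    smQ σ i i' x x G = smQ σ i i' x x H := by
  unfold smQ
  congr 1
  ext t
  simp only [Finset.mem_filter, Finset.mem_univ, true_and]
  refine ((depOn_lOth σ i' i x (σ (x, t))).mono ?_) G H hGH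
  rintro a (ha | ha)
  · exact ha
  · rw [Set.mem_singleton_iff] at ha
    subst ha
    refine ⟨i', σ (x, t), ?_, rfl⟩
    unfold blk
    exact Finset.mem_image.2 ⟨t, Finset.mem_univ _, rfl⟩

private theorem sm_disj (Λ : Type) (σ : Equiv.Perm (I5 m)) {x y : Fin 5} (h : x ≠ y) :
    Disjoint (VSL Λ (blk σ x)) (VSL Λ (blk σ y)) := by
  rw [Set.disjoint_left]
  rintro a ⟨i, k, hk, rfl⟩ ⟨i', k', hk', h'⟩
  have h1 : (i, k) = (i', k') := Sum.inl.inj h'
  have h2 : k = k' := (Prod.mk.inj h1).2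
  subst h2
  exact sm_not_mem σ h hk hk'

private theorem sm_sqrt3 : (1.732 : ℝ) < Real.sqrt 3 ∧ Real.sqrt 3 < 1.7321 := by
  constructor
  · apply Real.lt_sqrt_of_sq_lt
    norm_num
  · rw [Real.sqrt_lt' (by norm_num)]
    norm_num

private theorem sm_dl : 0 ≤ dl pc ∧ 2 * dl pc ≤ 0.0045 := by
  have h := sm_sqrt3
  unfold dl pc
  constructor <;> linarith [h.1, h.2]

private theorem sm_sc : 0.36 ≤ 1 - sc := by
  have h := sm_sqrt3
  unfold sc
  linarith [h.1, h.2]

private theorem smQ_le (σ : Equiv.Perm (I5 m)) (i i' : Λ) (v x : Fin 5) (G : SimpleGraph (LV Λ (I5 m))) :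
    (smQ σ i i' v x G : ℝ) ≤ m := by
  unfold smQ
  have : (Finset.univ.filter (fun t : Fin m => G ∈ lOth σ i' i v (σ (x, t)))).card ≤ m := by
    refine (Finset.card_le_univ _).trans ?_
    simp
  exact_mod_cast this

end aux

theorem oth_mass (ε' : ℝ) (hε' : 0 < ε') : ∃ ε : ℝ, 0 < ε ∧ ∀ (Λ : Type) (m : ℕ), 4 ≤ m →
    ∀ (L : SimpleGraph Λ) (Ω : Type) [Fintype Ω] (w : Ω → ℝ) (W : Ω → SimpleGraph (LV Λ (I5 m))),
      LSample L pc w W → ∀ σ : Equiv.Perm (I5 m), GoodSig L ε w W σ → ∀ i i' : Λ, L.Adj i i' →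
      PM ε w W σ i i' → ∀ v x : Fin 5, v ≠ x →
      pr w {ω | ((Finset.univ.filter (fun t : Fin m => W ω ∈ lOth σ i' i v (σ (x, t)))).card : ℝ) <
        (1 - sc - 1 / 50) * m} ≤ ε' := by
  have hmin : 0 < min ε' 1 := lt_min hε' one_pos
  refine ⟨min ε' 1 / 2000, by positivity, ?_⟩
  intro Λ m hm L Ω _ w W hS σ hG i i' hL hP v x hvx
  obtain ⟨ε, hεdef⟩ : ∃ ε : ℝ, ε = min ε' 1 / 2000 := ⟨_, rfl⟩
  rw [← hεdef] at hG hP
  have hε0 : 0 < ε := by
    rw [hεdef]
    positivity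
  have hε1 : ε ≤ ε' / 2000 := by
    rw [hεdef]
    exact div_le_div_of_nonneg_right (min_le_left _ _) (by norm_num)
  have hε2 : ε ≤ 1 / 2000 := by
    rw [hεdef]
    exact div_le_div_of_nonneg_right (min_le_right _ _) (by norm_num)
  have hlaw : IsLaw w := hS.law
  have hm0 : (0 : ℝ) < m := by
    have : 0 < m := by omega
    exact_mod_cast this
  have hdl := sm_dl
  have hsc := sm_sc
  have hB : pr w {ω | ¬ GoodG (dl pc) σ (prG i i' (W ω))} ≤ ε := hG.good i i' hL
  have hD : pr w {ω | Dv (dl pc) σ (prG i i' (W ω))} ≤ ε := hG.dev i i' hL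
  obtain ⟨c, hc⟩ : ∃ c : ℝ, c = (1 - sc - 1 / 50) * m := ⟨_, rfl⟩
  obtain ⟨c', hc'⟩ : ∃ c' : ℝ, c' = (1 - sc - 1 / 100) * m := ⟨_, rfl⟩
  have hc'0 : 0 ≤ c' := by
    rw [hc']
    exact mul_nonneg (by linarith) hm0.le
  -- the mean in block `v`
  have hmean : 1 / 100 - 2 * ε ≤ pr w {ω | c' ≤ (smQ σ i i' v v (W ω) : ℝ)} := by
    have h1 := hP.loth' x v hvx.symm
    have h2 : (1 - sc - ε) * (m : ℝ) ≤
        ∑ t : Fin m, pr w {ω | W ω ∈ lOth σ i' i x (σ (v, t))} := by
      unfold avg at h1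
      rw [Fintype.card_fin, div_le_iff₀ hm0] at h1
      have h3 : ∑ t : Fin m, ((1 - sc) - pr w {ω | W ω ∈ lOth σ i' i x (σ (v, t))}) ≤
          ∑ t : Fin m, |pr w {ω | W ω ∈ lOth σ i' i x (σ (v, t))} - (1 - sc)| := by
        refine Finset.sum_le_sum fun t _ => ?_
        have := neg_abs_le (pr w {ω | W ω ∈ lOth σ i' i x (σ (v, t))} - (1 - sc))
        linarith
      rw [Finset.sum_sub_distrib, Finset.sum_const, Finset.card_univ, Fintype.card_fin, nsmul_eq_mul] at h3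
      linarith
    rw [sum_pr_eq Finset.univ (fun t ω => W ω ∈ lOth σ i' i x (σ (v, t)))] at h2
    have h4 : ∑ ω, w ω * ((Finset.univ.filter
          (fun t : Fin m => W ω ∈ lOth σ i' i x (σ (v, t)))).card : ℝ) ≤
        ∑ ω, (w ω * c' + (m * (w ω * ind (ω ∈ {ω | c' ≤ (smQ σ i i' v v (W ω) : ℝ)})) +
          m * (w ω * ind (ω ∈ {ω | ¬ GoodG (dl pc) σ (prG i i' (W ω))})))) := by
      refine Finset.sum_le_sum fun ω _ => ?_
      have h5 : ((Finset.univ.filter
          (fun t : Fin m => W ω ∈ lOth σ i' i x (σ (v, t)))).card : ℝ) ≤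
          c' + (m * ind (ω ∈ {ω | c' ≤ (smQ σ i i' v v (W ω) : ℝ)}) +
            m * ind (ω ∈ {ω | ¬ GoodG (dl pc) σ (prG i i' (W ω))})) := by
        have h6 : (smQ σ i i' x v (W ω) : ℝ) = ((Finset.univ.filter
          (fun t : Fin m => W ω ∈ lOth σ i' i x (σ (v, t)))).card : ℝ) := rfl
        rw [← h6]
        have h7 := smQ_le σ i i' x v (W ω)
        have hi1 : 0 ≤ (m : ℝ) * ind (ω ∈ {ω | c' ≤ (smQ σ i i' v v (W ω) : ℝ)}) :=
          mul_nonneg hm0.le (ind_nonneg _)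
        have hi2 : 0 ≤ (m : ℝ) * ind (ω ∈ {ω | ¬ GoodG (dl pc) σ (prG i i' (W ω))}) :=
          mul_nonneg hm0.le (ind_nonneg _)
        by_cases hgd : GoodG (dl pc) σ (prG i i' (W ω))
        · rw [sm_same hgd x v v]
          by_cases hA : c' ≤ (smQ σ i i' v v (W ω) : ℝ)
          · have h8 : ind (ω ∈ {ω | c' ≤ (smQ σ i i' v v (W ω) : ℝ)}) = 1 := by
              unfold ind
              exact if_pos hA
            have h9 := smQ_le σ i i' v v (W ω)
            rw [h8] at hi1 ⊢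
            linarith
          · push Not at hA
            linarith
        · have h8 : ind (ω ∈ {ω | ¬ GoodG (dl pc) σ (prG i i' (W ω))}) = 1 := by
            unfold ind
            exact if_pos hgd
          rw [h8] at hi2 ⊢
          linarith
      have h10 := mul_le_mul_of_nonneg_left h5 (hlaw.nonneg ω)
      linarith
    rw [Finset.sum_add_distrib, Finset.sum_add_distrib, ← Finset.sum_mul, hlaw.total, ← Finset.mul_sum,
      ← Finset.mul_sum, ← pr_eq_sum_ind, ← pr_eq_sum_ind] at h4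
    have h11 : (m : ℝ) * pr w {ω | ¬ GoodG (dl pc) σ (prG i i' (W ω))} ≤ m * ε :=
      mul_le_mul_of_nonneg_left hB hm0.le
    have h12 : (m : ℝ) * (1 / 100 - 2 * ε) ≤ m * pr w {ω | c' ≤ (smQ σ i i' v v (W ω) : ℝ)} := by
      rw [hc'] at h4 ⊢
      linarith
    exact le_of_mul_le_mul_left h12 hm0
  -- independence
  have hind : pr w {ω | W ω ∈ {G | (smQ σ i i' x x G : ℝ) < c} ∧ W ω ∈ {G | c' ≤ (smQ σ i i' v v G : ℝ)}} =
      pr w {ω | W ω ∈ {G | (smQ σ i i' x x G : ℝ) < c}} *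
        pr w {ω | W ω ∈ {G | c' ≤ (smQ σ i i' v v G : ℝ)}} := by
    refine hS.indep (VSL Λ (blk σ x)) (VSL Λ (blk σ v)) (sm_disj Λ σ hvx.symm) _ _ ?_ ?_
    · intro G H hGH
      show (smQ σ i i' x x G : ℝ) < c ↔ (smQ σ i i' x x H : ℝ) < c
      rw [sm_dep_congr σ i i' x hGH]
    · intro G H hGH
      show c' ≤ (smQ σ i i' v v G : ℝ) ↔ c' ≤ (smQ σ i i' v v H : ℝ)
      rw [sm_dep_congr σ i i' v hGH]
  have hsub : pr w {ω | W ω ∈ {G | (smQ σ i i' x x G : ℝ) < c} ∧
      W ω ∈ {G | c' ≤ (smQ σ i i' v v G : ℝ)}} ≤ 2 * ε := by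
    have h1 : pr w {ω | W ω ∈ {G | (smQ σ i i' x x G : ℝ) < c} ∧
        W ω ∈ {G | c' ≤ (smQ σ i i' v v G : ℝ)}} ≤
        pr w ({ω | ¬ GoodG (dl pc) σ (prG i i' (W ω))} ∪ {ω | Dv (dl pc) σ (prG i i' (W ω))}) := by
      refine pr_mono hlaw ?_
      rintro ω ⟨h1, h2⟩
      have h1 : (smQ σ i i' x x (W ω) : ℝ) < c := h1
      have h2 : c' ≤ (smQ σ i i' v v (W ω) : ℝ) := h2
      by_contra hcon
      rw [Set.mem_union, not_or] at hcon
      have hg : GoodG (dl pc) σ (prG i i' (W ω)) := by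
        by_contra hh
        exact hcon.1 hh
      have h3 := sm_le (hS.tr ω) hg hcon.2 hdl.1 hvx.symm
      have h4 : 2 * dl pc * m ≤ 0.0045 * m := mul_le_mul_of_nonneg_right hdl.2 hm0.le
      rw [hc] at h1
      rw [hc'] at h2
      nlinarith
    have h2 := pr_union_le hlaw {ω | ¬ GoodG (dl pc) σ (prG i i' (W ω))}
      {ω | Dv (dl pc) σ (prG i i' (W ω))}
    linarith
  have hA : pr w {ω | (smQ σ i i' x x (W ω) : ℝ) < c} ≤ 250 * ε := by
    have h1 : pr w {ω | (smQ σ i i' x x (W ω) : ℝ) < c} *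
        pr w {ω | c' ≤ (smQ σ i i' v v (W ω) : ℝ)} ≤ 2 * ε := hind.symm.le.trans hsub
    have h2 : (0.008 : ℝ) ≤ pr w {ω | c' ≤ (smQ σ i i' v v (W ω) : ℝ)} := by linarith
    have h3 := pr_nonneg hlaw {ω | (smQ σ i i' x x (W ω) : ℝ) < c}
    nlinarith [mul_le_mul_of_nonneg_left h2 h3]
  have hfin : pr w {ω | ((Finset.univ.filter
      (fun t : Fin m => W ω ∈ lOth σ i' i v (σ (x, t)))).card : ℝ) < (1 - sc - 1 / 50) * m} ≤
      pr w ({ω | (smQ σ i i' x x (W ω) : ℝ) < c} ∪ {ω | ¬ GoodG (dl pc) σ (prG i i' (W ω))}) := by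
    refine pr_mono hlaw ?_
    intro ω hω
    by_cases hg : GoodG (dl pc) σ (prG i i' (W ω))
    · left
      show (smQ σ i i' x x (W ω) : ℝ) < c
      rw [sm_same hg x v x, hc]
      exact hω
    · exact Or.inr hg
  have hun := pr_union_le hlaw {ω | (smQ σ i i' x x (W ω) : ℝ) < c}
    {ω | ¬ GoodG (dl pc) σ (prG i i' (W ω))}
  linarith

end Pool.Agent.LP
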