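import Pool.Agent.LP.SAlg
import Pool.Agent.OIP.SCoreFin

/-!
# LP: near DFH numbers for a two-layer sample law at `p = pc`

`half_lt` (needs `1/2 < pc ≤ 1`, `η ≤ dl pc`), `core_sys`, `sCoreFin_mono` and `al_near`, exactly as in the proof of
`core` (OIP/SCoreFin.lean).
-/

set_option autoImplicit false

open Finset
open scoped Classical

namespace Pool.Agent.LP

open Pool.Agent.OIP

theorem near_bool (ε : ℝ) (hε : 0 < ε) : ∃ η : ℝ, 0 < η ∧ ∀ (m : ℕ), 4 ≤ m →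
    ∀ (Ω : Type) [Fintype Ω] (w : Ω → ℝ) (W : Ω → SimpleGraph (SV (I5 m))), SampleLaw pc w W →
    ∀ σ : Equiv.Perm (I5 m), pr w {ω | ¬ GoodG (dl pc) σ (W ω)} ≤ η → pr w {ω | W ω ∈ LkE σ 0} ≤ η →
      avg (fun t : Fin m => hubErr w W σ false 0 t) ≤ η → avg (fun t : Fin m => hubErr w W σ true 1 t) ≤ η →
    ∀ t : Fin m, hubErr w W σ false 0 t ≤ η → hubErr w W σ true 1 t ≤ η →
    NearNum ε
      (pr w {ω | W ω ∈ leafOwn σ false 2 (σ (4, t))}) (pr w {ω | W ω ∈ leafOth σ false 2 (σ (4, t))})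
      (pr w {ω | W ω ∈ leafNon σ false 2 (σ (4, t)) ∧ W ω ∈ leafOwn σ true 3 (σ (4, t)) ∧
        ¬ (W ω).Adj (lf (false, σ (4, t))) (lf (true, σ (4, t)))})
      (pr w {ω | W ω ∈ leafOwn σ true 3 (σ (4, t))}) (pr w {ω | W ω ∈ leafOth σ true 3 (σ (4, t))})
      (pr w {ω | W ω ∈ leafNon σ true 3 (σ (4, t)) ∧ W ω ∈ leafOwn σ false 2 (σ (4, t)) ∧
        ¬ (W ω).Adj (lf (false, σ (4, t))) (lf (true, σ (4, t)))})
      (pr w {ω | W ω ∈ hubOwn σ false 0}) (pr w {ω | W ω ∈ hubOth σ false 0}) (pr w {ω | W ω ∈ hubNon σ false 0})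
      (pr w {ω | W ω ∈ hubOwn σ true 1}) (pr w {ω | W ω ∈ hubOth σ true 1}) (pr w {ω | W ω ∈ hubNon σ true 1}) ∨
    NearNum ε
      (pr w {ω | W ω ∈ leafOwn σ true 3 (σ (4, t))}) (pr w {ω | W ω ∈ leafOth σ true 3 (σ (4, t))})
      (pr w {ω | W ω ∈ leafNon σ true 3 (σ (4, t)) ∧ W ω ∈ leafOwn σ false 2 (σ (4, t)) ∧
        ¬ (W ω).Adj (lf (false, σ (4, t))) (lf (true, σ (4, t)))})
      (pr w {ω | W ω ∈ leafOwn σ false 2 (σ (4, t))}) (pr w {ω | W ω ∈ leafOth σ false 2 (σ (4, t))})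
      (pr w {ω | W ω ∈ leafNon σ false 2 (σ (4, t)) ∧ W ω ∈ leafOwn σ true 3 (σ (4, t)) ∧
        ¬ (W ω).Adj (lf (false, σ (4, t))) (lf (true, σ (4, t)))})
      (pr w {ω | W ω ∈ hubOwn σ true 1}) (pr w {ω | W ω ∈ hubOth σ true 1}) (pr w {ω | W ω ∈ hubNon σ true 1})
      (pr w {ω | W ω ∈ hubOwn σ false 0}) (pr w {ω | W ω ∈ hubOth σ false 0}) (pr w {ω | W ω ∈ hubNon σ false 0}) := by
  have hhalf : 1 / 2 < pc := by
    unfold pc
    have h3 : Real.sqrt 3 < 7 / 4 := by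
      rw [Real.sqrt_lt' (by norm_num)]
      norm_num
    linarith
  have hpc1 : pc ≤ 1 := by
    unfold pc
    have h3 : (3 : ℝ) / 2 ≤ Real.sqrt 3 := by
      rw [Real.le_sqrt (by norm_num) (by norm_num)]
      norm_num
    linarith
  obtain ⟨t0, ht0, hAL⟩ := al_near ε hε
  have hdl : 0 < dl pc := by
    unfold dl
    linarith
  refine ⟨min (dl pc) (t0 / 5), lt_min hdl (by positivity), ?_⟩
  intro m hm Ω _ w W h σ hgood hlk hA0 hA1 t he0 he1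
  set η : ℝ := min (dl pc) (t0 / 5) with hη
  have hη1 : η ≤ dl pc := min_le_left _ _
  have hη2 : 5 * η ≤ t0 := by
    have : η ≤ t0 / 5 := min_le_right _ _
    linarith
  have hm1 : 1 ≤ m := by omega
  have hF := half_lt hhalf hpc1 hm1 h σ false 0 2 (by decide) (by decide) (by decide) hη1 hgood hA0
  have hT := half_lt hhalf hpc1 hm1 h σ true 1 3 (by decide) (by decide) (by decide) hη1 hgood hA1
  have key := core_sys hdl.le hm h σ t hgood hlk he0 he1 (hF.2 t he0) (hT.2 t he1) hF.1 hT.1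
  exact hAL _ _ _ _ _ _ _ _ _ _ _ _ (sCoreFin_mono hη2 key)

end Pool.Agent.LP
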