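import Pool.Agent.LP.SPair
import Pool.Agent.OIP.SDich

/-!
# LP: majorities seen from one block and from all leaves

On `GoodG` (for `prG i i'`), for a leaf `a` of layer `i` or `i'` and `c = i` or `i'` : `SMj G a c (blk σ u)` for one (all)
`u` iff `SMj G a c univ` (`sdich_cnt_univ` : the count over `univ` is the sum over the five blocks; each block has `m`
elements and `card univ = 5 m`).
`niceS_layer`, `niceS_link` : as `maj_of_good` of OIP.
-/

set_option autoImplicit false

open Finset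
open scoped Classical

namespace Pool.Agent.LP

open Pool.Agent.OIP

variable {Λ : Type} {m : ℕ} {σ : Equiv.Perm (I5 m)} {i i' : Λ} {G : SimpleGraph (LV Λ (I5 m))}

private theorem suniv_card (m : ℕ) : Fintype.card (I5 m) = 5 * m := by
  simp [I5, Fintype.card_prod]

private theorem suniv_dl : 0 < dl pc := by
  have h2 : Real.sqrt 3 < 1.7321 := by
    rw [Real.sqrt_lt' (by norm_num)]
    norm_num
  unfold dl pc
  linarith

private theorem suniv_scnt (σ : Equiv.Perm (I5 m)) (G : SimpleGraph (LV Λ (I5 m))) (a : Λ × I5 m) (c : Λ) :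
    scnt G a c Finset.univ = ∑ v : Fin 5, scnt G a c (blk σ v) := by
  have h := sdich_cnt_univ σ (prG a.1 c G) (false, a.2) true
  exact h

theorem smj_univ (hm : 1 ≤ m) (hG : GoodG (dl pc) σ (prG i i' G)) {a : Λ × I5 m} (ha : a.1 = i ∨ a.1 = i')
    {c : Λ} (hc : c = i ∨ c = i') (u : Fin 5) :
    SMj G a c Finset.univ ↔ SMj G a c (blk σ u) := by
  have hall : ∀ v, SMj G a c (blk σ v) ↔ SMj G a c (blk σ u) := fun v => smj_blk hG ha hc v u
  have hsum := suniv_scnt σ G a c
  rw [Fin.sum_univ_five] at hsum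
  have hcard : (Finset.univ : Finset (I5 m)).card = 5 * m := by
    rw [Finset.card_univ]
    exact suniv_card m
  constructor
  · intro h
    by_contra hu
    have hn : ∀ v, 2 * scnt G a c (blk σ v) ≤ m := by
      intro v
      have h1 : ¬ SMj G a c (blk σ v) := fun h' => hu ((hall v).1 h')
      unfold SMj at h1
      rw [blk_card] at h1
      omega
    unfold SMj at h
    rw [hcard] at h
    have h0 := hn 0
    have h1 := hn 1
    have h2 := hn 2
    have h3 := hn 3
    have h4 := hn 4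
    omega
  · intro h
    have hn : ∀ v, m < 2 * scnt G a c (blk σ v) := by
      intro v
      have h1 : SMj G a c (blk σ v) := (hall v).2 h
      unfold SMj at h1
      rw [blk_card] at h1
      exact h1
    unfold SMj
    rw [hcard]
    have h0 := hn 0
    have h1 := hn 1
    have h2 := hn 2
    have h3 := hn 3
    have h4 := hn 4
    omega

/-- the majority of layer `c` seen from a block -/
private theorem suniv_block (hG : GoodG (dl pc) σ (prG i i' G)) {c : Λ} (hc : c = i ∨ c = i') (v : Fin 5) :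
    (1 / 2 + 2 * dl pc) * (m : ℝ) ≤
      (((blk σ v).filter (fun k => SMj G (c, k) c (blk σ v))).card : ℝ) := by
  rcases hc with rfl | rfl
  · exact hG.2 false v
  · exact hG.2 true v

/-- every leaf attached to the majority of layer `c` has many neighbours in layer `c` -/
theorem scnt_of_smj (hm : 2 ≤ dl pc * (m : ℝ)) (hT : LTr G) (hG : GoodG (dl pc) σ (prG i i' G)) {a : Λ × I5 m}
    (ha : a.1 = i ∨ a.1 = i') {c : Λ} (hc : c = i ∨ c = i') (u : Fin 5) (h : SMj G a c (blk σ u)) :
    (1 / 2 + dl pc) * (Fintype.card (I5 m) : ℝ) ≤ (scnt G a c Finset.univ : ℝ) := by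
  have hb : ∀ v : Fin 5, (1 / 2 + dl pc) * (m : ℝ) ≤ (scnt G a c (blk σ v) : ℝ) := by
    intro v
    have hv : SMj G a c (blk σ v) := (smj_blk hG ha hc v u).2 h
    have h1 := suniv_block hG hc v
    have h2 : ((blk σ v).filter (fun k => SMj G (c, k) c (blk σ v))).card ≤ scnt G a c (blk σ v) + 1 := by
      have h3 := sdich_cnt_gen (prG a.1 c G) (false, a.2) true (blk σ v)
        ((blk σ v).filter (fun k => SMj G (c, k) c (blk σ v))) (fun k hk => by
          rw [Finset.mem_filter] at hk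
          exact ⟨hk.1, fun hka => adj_of_smj hT (a := a) (b := (c, k)) (fun e => hka e.symm) hv hk.2⟩)
      exact h3
    have h4 : ((((blk σ v).filter (fun k => SMj G (c, k) c (blk σ v))).card : ℕ) : ℝ) ≤
        (scnt G a c (blk σ v) : ℝ) + 1 := by exact_mod_cast h2
    nlinarith
  have hcard : (Fintype.card (I5 m) : ℝ) = 5 * (m : ℝ) := by
    rw [suniv_card]
    push_cast
    ring
  rw [hcard, suniv_scnt σ]
  push_cast
  have hsum : ∑ _v : Fin 5, (1 / 2 + dl pc) * (m : ℝ) ≤ ∑ v : Fin 5, (scnt G a c (blk σ v) : ℝ) :=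
    Finset.sum_le_sum fun v _ => hb v
  rw [Finset.sum_const, Finset.card_univ, Fintype.card_fin, nsmul_eq_mul] at hsum
  push_cast at hsum
  linarith

theorem niceS_layer (hm : 2 ≤ dl pc * (m : ℝ)) (hT : LTr G) (hG : GoodG (dl pc) σ (prG i i' G)) :
    ∃ a : Λ × I5 m, (1 / 2 + dl pc) * (Fintype.card (I5 m) : ℝ) ≤ (scnt G a i Finset.univ : ℝ) := by
  have h1 := suniv_block hG (Or.inl rfl : i = i ∨ i = i') 0
  have hpos : 0 < (((blk σ 0).filter (fun k => SMj G (i, k) i (blk σ 0))).card : ℝ) := by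
    refine lt_of_lt_of_le ?_ h1
    have h2 := suniv_dl
    have h3 : 0 ≤ (m : ℝ) := Nat.cast_nonneg m
    have h4 : 0 < (m : ℝ) := by
      rcases h3.lt_or_eq with h | h
      · exact h
      · rw [← h] at hm
        norm_num at hm
    positivity
  have hpos' : 0 < ((blk σ 0).filter (fun k => SMj G (i, k) i (blk σ 0))).card := by exact_mod_cast hpos
  obtain ⟨k, hk⟩ := Finset.card_pos.1 hpos'
  rw [Finset.mem_filter] at hk
  exact ⟨(i, k), scnt_of_smj hm hT hG (Or.inl rfl) (Or.inl rfl) 0 hk.2⟩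

theorem niceS_link (hm : 2 ≤ dl pc * (m : ℝ)) (hT : LTr G) (hG : GoodG (dl pc) σ (prG i i' G)) {u : Fin 5}
    (h : G ∈ LkL σ i i' u) :
    ∃ a : Λ × I5 m, (1 / 2 + dl pc) * (Fintype.card (I5 m) : ℝ) ≤ (scnt G a i Finset.univ : ℝ) ∧
      (1 / 2 + dl pc) * (Fintype.card (I5 m) : ℝ) ≤ (scnt G a i' Finset.univ : ℝ) := by
  obtain ⟨k, _, h0, h1⟩ := h
  exact ⟨(i, k), scnt_of_smj hm hT hG (Or.inl rfl) (Or.inl rfl) u h0,
    scnt_of_smj hm hT hG (Or.inl rfl) (Or.inr rfl) u h1⟩

end Pool.Agent.LP
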