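import Pool.Agent.LP.SPM
import Pool.Agent.LP.SUniv

/-!
# LP: the numbers `SNum` for the M end

`iP` = P end, `iM` = M end.  Choose `j = σ (3, t)`, `j' = σ (4, t')` with small deviations in `lown'` (for `j`, seen
from block 1, and for `j'`, seen from block 2), `loth'` (for `j` seen from block 1, for `j'` seen from block 2), and in
`open1` (hub block 0, leaf block 1, test `j`), `open2` (hub block 0, leaf block 2, test `j'`): Markov / averaging
(`exists_le_avg` for the sum of the finitely many averages).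
On `GoodG`, `SMj G (iM, j) c univ ↔ SMj G (iM, j) c (blk σ 1)` and the same for `j'` and block 2 (`smj_univ`), and
`SMj .. iP` and `SMj .. iM` exclude each other outside `LkL`.
The events seen from the blocks are independent (blocks 0, 1, 2 and different leaves):
a1: `pr (own_j ∧ oth_j') ≈ sc (1 - sc)`; a2: `pr (¬ att_j iP ∧ ¬ own_j') ≈ (1 - (1 - sc)) (1 - sc)`;
b: intersect with `hAtt σ iM iM 0` (probability `≈ sc`), on which the edge hub - `j` is open up to `open1`;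
c: intersect with `hOth σ iM iP 0` (probability `≈ 1 - sc`), on which the edge hub - `j'` is open up to `open2`;
d: `¬ own_j'`, hub - `j'` open: then the hub is not `hAtt σ iM iM 0` (`cross` with `i = i'`, `smj_of_adj`), so
`closed` (hub `iP` block 1, hub `iM` block 0) bounds the probability.
-/

set_option autoImplicit false

open Finset
open scoped Classical

namespace Pool.Agent.LP

open Pool.Agent.OIP

section aux

variable {Λ : Type} {m : ℕ}

private theorem snum_mem_blk (σ : Equiv.Perm (I5 m)) (x u : Fin 5) (t : Fin m) (hx : x ≠ u) :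
    σ (x, t) ∉ blk σ u := by
  intro h
  have h2 : σ (x, t) ∈ blk σ x := by
    unfold blk
    exact Finset.mem_image_of_mem _ (Finset.mem_univ t)
  exact hx (scoreL_blk_unique σ h2 h)

/-- blocks with one more leaf are disjoint -/
private theorem snum_disj (σ : Equiv.Perm (I5 m)) (i i' : Λ) {u v x y : Fin 5} (t s : Fin m) (huv : u ≠ v)
    (huy : u ≠ y) (hvx : v ≠ x) (hxy : x ≠ y) :
    Disjoint (VSL Λ (blk σ u) ∪ {(leaf (i, σ (x, t)) : LV Λ (I5 m))})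
      (VSL Λ (blk σ v) ∪ {(leaf (i', σ (y, s)) : LV Λ (I5 m))}) := by
  rw [Set.disjoint_left]
  rintro z (⟨j, k, hk, rfl⟩ | hz) (⟨j', k', hk', hz'⟩ | hz')
  · have h1 : (j, k) = (j', k') := Sum.inl.inj hz'
    rw [Prod.mk.injEq] at h1
    obtain ⟨_, rfl⟩ := h1
    exact huv (scoreL_blk_unique σ hk hk')
  · rw [Set.mem_singleton_iff] at hz'
    have h1 : (j, k) = (i', σ (y, s)) := Sum.inl.inj hz'
    rw [Prod.mk.injEq] at h1
    obtain ⟨_, rfl⟩ := h1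
    exact snum_mem_blk σ y u s huy.symm hk
  · rw [Set.mem_singleton_iff] at hz
    rw [hz] at hz'
    have h1 : (i, σ (x, t)) = (j', k') := Sum.inl.inj hz'
    rw [Prod.mk.injEq] at h1
    obtain ⟨_, rfl⟩ := h1
    exact snum_mem_blk σ x v t hvx.symm hk'
  · rw [Set.mem_singleton_iff] at hz hz'
    rw [hz] at hz'
    have h1 : (i, σ (x, t)) = (i', σ (y, s)) := Sum.inl.inj hz'
    rw [Prod.mk.injEq] at h1
    have h2 := σ.injective h1.2
    rw [Prod.mk.injEq] at h2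
    exact hxy h2.1

/-- the hub part is disjoint from the two leaf parts -/
private theorem snum_disj_hub (σ : Equiv.Perm (I5 m)) (i₀ i i' : Λ) (t s : Fin m) :
    Disjoint (VSL Λ (blk σ 0) ∪ {(hub i₀ : LV Λ (I5 m))})
      ((VSL Λ (blk σ 1) ∪ {(leaf (i, σ (3, t)) : LV Λ (I5 m))}) ∪
        (VSL Λ (blk σ 2) ∪ {(leaf (i', σ (4, s)) : LV Λ (I5 m))})) := by
  rw [Set.disjoint_left]
  rintro z (⟨j, k, hk, rfl⟩ | hz)
  · rintro ((⟨j', k', hk', hz'⟩ | hz') | (⟨j', k', hk', hz'⟩ | hz'))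
    · have h1 : (j, k) = (j', k') := Sum.inl.inj hz'
      rw [Prod.mk.injEq] at h1
      obtain ⟨_, rfl⟩ := h1
      exact absurd (scoreL_blk_unique σ hk hk') (by decide)
    · rw [Set.mem_singleton_iff] at hz'
      have h1 : (j, k) = (i, σ (3, t)) := Sum.inl.inj hz'
      rw [Prod.mk.injEq] at h1
      obtain ⟨_, rfl⟩ := h1
      exact snum_mem_blk σ 3 0 t (by decide) hk
    · have h1 : (j, k) = (j', k') := Sum.inl.inj hz'
      rw [Prod.mk.injEq] at h1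
      obtain ⟨_, rfl⟩ := h1
      exact absurd (scoreL_blk_unique σ hk hk') (by decide)
    · rw [Set.mem_singleton_iff] at hz'
      have h1 : (j, k) = (i', σ (4, s)) := Sum.inl.inj hz'
      rw [Prod.mk.injEq] at h1
      obtain ⟨_, rfl⟩ := h1
      exact snum_mem_blk σ 4 0 s (by decide) hk
  · rw [Set.mem_singleton_iff] at hz
    subst hz
    rintro ((⟨j', k', hk', hz'⟩ | hz') | (⟨j', k', hk', hz'⟩ | hz'))
    · exact absurd hz' (by simp)
    · exact absurd hz' (by simp)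
    · exact absurd hz' (by simp)
    · exact absurd hz' (by simp)

end aux

private theorem snum_mul2 {a b x y e : ℝ} (he : 0 ≤ e) (ha : 0 ≤ a) (ha1 : a ≤ 1) (hx0 : 0 ≤ x) (hy0 : 0 ≤ y)
    (hy1 : y ≤ 1) (hx : a - e ≤ x) (hy : b - e ≤ y) : a * b - 2 * e ≤ x * y := by
  have h1 : x * y - a * b = (x - a) * y + a * (y - b) := by ring
  have h2 : -e ≤ (x - a) * y := by
    have : -e * y ≤ (x - a) * y := mul_le_mul_of_nonneg_right (by linarith) hy0
    have h3 : -e ≤ -e * y := by nlinarith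
    linarith
  have h4 : -e ≤ a * (y - b) := by
    have : a * (-e) ≤ a * (y - b) := mul_le_mul_of_nonneg_left (by linarith) ha
    have h5 : -e ≤ a * (-e) := by nlinarith
    linarith
  linarith

private theorem snum_mul2' {a b x y e : ℝ} (he : 0 ≤ e) (ha : 0 ≤ a) (ha1 : a ≤ 1) (hx0 : 0 ≤ x) (hy0 : 0 ≤ y)
    (hy1 : y ≤ 1) (hx : x ≤ a + e) (hy : y ≤ b + e) : x * y ≤ a * b + 2 * e := by
  have h1 : x * y - a * b = (x - a) * y + a * (y - b) := by ring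
  have h2 : (x - a) * y ≤ e := by
    have : (x - a) * y ≤ e * y := mul_le_mul_of_nonneg_right (by linarith) hy0
    have h3 : e * y ≤ e := by nlinarith
    linarith
  have h4 : a * (y - b) ≤ e := by
    have : a * (y - b) ≤ a * e := mul_le_mul_of_nonneg_left (by linarith) ha
    have h5 : a * e ≤ e := by nlinarith
    linarith
  linarith

private theorem snum_sc : 0 ≤ sc ∧ sc ≤ 1 := by
  have h1 : (17320 / 10000 : ℝ) < Real.sqrt 3 := by
    rw [Real.lt_sqrt (by norm_num)]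
    norm_num
  have h2 : Real.sqrt 3 < 17321 / 10000 := by
    rw [Real.sqrt_lt' (by norm_num)]
    norm_num
  unfold sc
  constructor <;> linarith

/-- an index that is good for three averages at once -/
private theorem snum_three {m : ℕ} (hm : 4 ≤ m) {F₁ F₂ F₃ : Fin m → ℝ} {ε : ℝ} (h₁ : ∀ t, 0 ≤ F₁ t)
    (h₂ : ∀ t, 0 ≤ F₂ t) (h₃ : ∀ t, 0 ≤ F₃ t) (a₁ : avg F₁ ≤ ε) (a₂ : avg F₂ ≤ ε) (a₃ : avg F₃ ≤ ε) :
    ∃ t, F₁ t ≤ 3 * ε ∧ F₂ t ≤ 3 * ε ∧ F₃ t ≤ 3 * ε := by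
  have : Nonempty (Fin m) := ⟨⟨0, by omega⟩⟩
  obtain ⟨t, ht⟩ := exists_le_avg (fun t => (F₁ t + F₂ t) + F₃ t)
  have h4 : avg (fun t => (F₁ t + F₂ t) + F₃ t) = avg F₁ + avg F₂ + avg F₃ := by
    rw [avg_add, avg_add]
  rw [h4] at ht
  have b1 := h₁ t
  have b2 := h₂ t
  have b3 := h₃ t
  exact ⟨t, by linarith, by linarith, by linarith⟩

theorem snum_of_pm (ε' : ℝ) (hε' : 0 < ε') : ∃ ε : ℝ, 0 < ε ∧ ∀ (Λ : Type) (m : ℕ), 4 ≤ m →
    ∀ (L : SimpleGraph Λ) (Ω : Type) [Fintype Ω] (w : Ω → ℝ) (W : Ω → SimpleGraph (LV Λ (I5 m))),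
      LSample L pc w W → ∀ σ : Equiv.Perm (I5 m), GoodSig L ε w W σ → ∀ iP iM : Λ, L.Adj iP iM →
      pr w {ω | W ω ∈ LkL σ iP iM 0} ≤ ε → PM ε w W σ iP iM →
      ∃ j j' : I5 m, SNum ε' (fun A => pr w {ω | W ω ∈ A}) iM iP j j' := by
  refine ⟨ε' / 20, by positivity, ?_⟩
  intro Λ m hm L Ω _ w W h σ hσ iP iM hL hlk hPM
  set ε : ℝ := ε' / 20 with hεd
  have hε0 : 0 < ε := by rw [hεd]; positivity
  have hlaw : IsLaw w := h.law
  obtain ⟨hsc0, hsc1⟩ := snum_sc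
  obtain ⟨t, t1, t2, t3⟩ := snum_three hm (fun t => abs_nonneg _) (fun t => abs_nonneg _)
    (fun t => pr_nonneg hlaw _) (hPM.lown' 1 3 (by decide)) (hPM.loth' 1 3 (by decide))
    (hPM.open1 0 1 3 (by decide) (by decide) (by decide))
  obtain ⟨s, s1, s2, s3⟩ := snum_three hm (fun t => abs_nonneg _) (fun t => abs_nonneg _)
    (fun t => pr_nonneg hlaw _) (hPM.lown' 2 4 (by decide)) (hPM.loth' 2 4 (by decide))
    (hPM.open2 0 2 4 (by decide) (by decide) (by decide))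
  have hgood := hσ.good iP iM hL
  -- names of the events
  obtain ⟨Γ, hΓ⟩ : ∃ Γ : Set Ω, Γ = {ω | GoodG (dl pc) σ (prG iP iM (W ω))} := ⟨_, rfl⟩
  have hΓc : pr w {ω | ¬ GoodG (dl pc) σ (prG iP iM (W ω))} ≤ ε := hgood
  have hm1 : 1 ≤ m := by omega
  have univ : ∀ ω, GoodG (dl pc) σ (prG iP iM (W ω)) → ∀ (a : Λ × I5 m), a.1 = iP ∨ a.1 = iM →
      ∀ c : Λ, c = iP ∨ c = iM → ∀ u : Fin 5, SMj (W ω) a c Finset.univ ↔ SMj (W ω) a c (blk σ u) :=
    fun ω hω a ha c hc u => smj_univ hm1 hω ha hc u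
  have hind := h.indep
  -- dependence sets
  have dJ := depOn_lAtt (Λ := Λ) σ iM iM 1 (σ (3, t))
  have dJo := depOn_lAtt (Λ := Λ) σ iM iP 1 (σ (3, t))
  have dJ' := depOn_lOth (Λ := Λ) σ iM iP 2 (σ (4, s))
  have dJ'a := depOn_lAtt (Λ := Λ) σ iM iM 2 (σ (4, s))
  have dH := depOn_hAtt (Λ := Λ) σ iM iM 0
  have dHo := depOn_hOth (Λ := Λ) σ iM iP 0
  have disj := snum_disj (Λ := Λ) σ iM iM (u := 1) (v := 2) (x := 3) (y := 4) t s (by decide) (by decide)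
    (by decide) (by decide)
  have disjH := snum_disj_hub (Λ := Λ) σ iM iM iM t s
  -- probabilities
  have pJ := abs_le.1 t1
  have pJo := abs_le.1 t2
  have pJ'a := abs_le.1 s1
  have pJ' := abs_le.1 s2
  have hJJ : sc * (1 - sc) - 2 * (3 * ε) ≤
      pr w {ω | W ω ∈ lAtt σ iM iM 1 (σ (3, t)) ∧ W ω ∈ lOth σ iM iP 2 (σ (4, s))} := by
    rw [hind _ _ disj _ _ dJ dJ']
    exact snum_mul2 (by linarith) hsc0 hsc1 (pr_nonneg hlaw _) (pr_nonneg hlaw _) (pr_le_one hlaw _)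
      (by linarith [pJ.1]) (by linarith [pJ'.1])
  have hsc2 : 0 ≤ sc * (1 - sc) := mul_nonneg hsc0 (by linarith)
  have hsc3 : sc * (1 - sc) ≤ 1 := by nlinarith
  have hHJ : sc * (sc * (1 - sc)) - 2 * (2 * (3 * ε)) ≤
      pr w {ω | W ω ∈ hAtt σ iM iM 0 ∧ W ω ∈ lAtt σ iM iM 1 (σ (3, t)) ∩ lOth σ iM iP 2 (σ (4, s))} := by
    rw [hind _ _ disjH _ _ dH ((dJ.mono Set.subset_union_left).inter (dJ'.mono Set.subset_union_right))]
    exact snum_mul2 (by linarith) hsc0 hsc1 (pr_nonneg hlaw _) (pr_nonneg hlaw _) (pr_le_one hlaw _)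
      (by linarith [(abs_le.1 (hPM.own' 0)).1]) hJJ
  have hHoJ : (1 - sc) * (sc * (1 - sc)) - 2 * (2 * (3 * ε)) ≤
      pr w {ω | W ω ∈ hOth σ iM iP 0 ∧ W ω ∈ lAtt σ iM iM 1 (σ (3, t)) ∩ lOth σ iM iP 2 (σ (4, s))} := by
    rw [hind _ _ disjH _ _ dHo ((dJ.mono Set.subset_union_left).inter (dJ'.mono Set.subset_union_right))]
    exact snum_mul2 (by linarith) (by linarith) (by linarith) (pr_nonneg hlaw _) (pr_nonneg hlaw _)
      (pr_le_one hlaw _) (by linarith [(abs_le.1 (hPM.oth' 0)).1]) hJJ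
  have key : ∀ U U' : Set Ω, U ⊆ U' → pr w U ≤ pr w U' := fun U U' hU => pr_mono hlaw hU
  refine ⟨σ (3, t), σ (4, s), ?_, ?_, ?_, ?_, ?_, ?_⟩
  · intro heq
    have := σ.injective heq
    rw [Prod.mk.injEq] at this
    exact absurd this.1 (by decide)
  · -- a1
    have h1 : pr w {ω | W ω ∈ lAtt σ iM iM 1 (σ (3, t)) ∧ W ω ∈ lOth σ iM iP 2 (σ (4, s))} ≤
        pr w {ω | W ω ∈ {G | SMj G (iM, σ (3, t)) iM Finset.univ ∧ SMj G (iM, σ (4, s)) iP Finset.univ}} +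
          pr w {ω | ¬ GoodG (dl pc) σ (prG iP iM (W ω))} := by
      refine (key _ _ ?_).trans (pr_union_le hlaw _ _)
      rintro ω ⟨h1, h2⟩
      by_cases hg : GoodG (dl pc) σ (prG iP iM (W ω))
      · left
        refine ⟨(univ ω hg _ (Or.inr rfl) _ (Or.inr rfl) 1).2 h1, ?_⟩
        exact (univ ω hg _ (Or.inr rfl) _ (Or.inl rfl) 2).2 h2.1
      · exact Or.inr hg
    linarith
  · -- a2
    have h1 : pr w {ω | W ω ∈ {G | ¬ SMj G (iM, σ (3, t)) iP Finset.univ ∧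
          ¬ SMj G (iM, σ (4, s)) iM Finset.univ}} ≤
        pr w {ω | W ω ∈ (lAtt σ iM iP 1 (σ (3, t)))ᶜ ∧ W ω ∈ (lAtt σ iM iM 2 (σ (4, s)))ᶜ} +
          pr w {ω | ¬ GoodG (dl pc) σ (prG iP iM (W ω))} := by
      refine (key _ _ ?_).trans (pr_union_le hlaw _ _)
      rintro ω ⟨h1, h2⟩
      by_cases hg : GoodG (dl pc) σ (prG iP iM (W ω))
      · left
        refine ⟨fun h3 => h1 ((univ ω hg _ (Or.inr rfl) _ (Or.inl rfl) 1).2 h3), fun h3 => h2 ?_⟩
        exact (univ ω hg _ (Or.inr rfl) _ (Or.inr rfl) 2).2 h3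
      · exact Or.inr hg
    have h2 := hind _ _ disj _ _ dJo.compl dJ'a.compl
    have h3 : pr w {ω | W ω ∈ (lAtt σ iM iP 1 (σ (3, t)))ᶜ} ≤ sc + 3 * ε := by
      have e1 : {ω | W ω ∈ (lAtt σ iM iP 1 (σ (3, t)))ᶜ} = {ω | W ω ∈ lAtt σ iM iP 1 (σ (3, t))}ᶜ := rfl
      rw [e1, pr_compl hlaw]
      have e2 : pr w {ω | W ω ∈ lOth σ iM iP 1 (σ (3, t))} ≤ pr w {ω | W ω ∈ lAtt σ iM iP 1 (σ (3, t))} :=
        key _ _ fun ω hω => hω.1
      linarith [pJo.1]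
    have h4 : pr w {ω | W ω ∈ (lAtt σ iM iM 2 (σ (4, s)))ᶜ} ≤ (1 - sc) + 3 * ε := by
      have e1 : {ω | W ω ∈ (lAtt σ iM iM 2 (σ (4, s)))ᶜ} = {ω | W ω ∈ lAtt σ iM iM 2 (σ (4, s))}ᶜ := rfl
      rw [e1, pr_compl hlaw]
      linarith [pJ'a.1]
    have h5 := snum_mul2' (by linarith : (0 : ℝ) ≤ 3 * ε) hsc0 hsc1
      (pr_nonneg hlaw {ω | W ω ∈ (lAtt σ iM iP 1 (σ (3, t)))ᶜ})
      (pr_nonneg hlaw {ω | W ω ∈ (lAtt σ iM iM 2 (σ (4, s)))ᶜ}) (pr_le_one hlaw _) h3 h4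
    rw [h2] at h1
    linarith
  · -- b
    have h1 : pr w {ω | W ω ∈ hAtt σ iM iM 0 ∧ W ω ∈ lAtt σ iM iM 1 (σ (3, t)) ∩ lOth σ iM iP 2 (σ (4, s))} ≤
        pr w {ω | W ω ∈ {G | SMj G (iM, σ (3, t)) iM Finset.univ ∧ SMj G (iM, σ (4, s)) iP Finset.univ ∧
          G.Adj (hub iM) (leaf (iM, σ (3, t)))}} +
          (pr w {ω | ¬ GoodG (dl pc) σ (prG iP iM (W ω))} +
          pr w {ω | W ω ∈ hAtt σ iM iM 0 ∧ W ω ∈ lAtt σ iM iM 1 (σ (3, t)) ∧
            ¬ (W ω).Adj (hub iM) (leaf (iM, σ (3, t)))}) := by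
      refine (key _ _ ?_).trans ((pr_union_le hlaw _ _).trans (add_le_add le_rfl (pr_union_le hlaw _ _)))
      rintro ω ⟨h1, h2, h3⟩
      by_cases hg : GoodG (dl pc) σ (prG iP iM (W ω))
      · by_cases ha : (W ω).Adj (hub iM) (leaf (iM, σ (3, t)))
        · left
          exact ⟨(univ ω hg _ (Or.inr rfl) _ (Or.inr rfl) 1).2 h2,
            (univ ω hg _ (Or.inr rfl) _ (Or.inl rfl) 2).2 h3.1, ha⟩
        · exact Or.inr (Or.inr ⟨h1, h2, ha⟩)
      · exact Or.inr (Or.inl hg)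
    linarith
  · -- c
    have h1 : pr w {ω | W ω ∈ hOth σ iM iP 0 ∧ W ω ∈ lAtt σ iM iM 1 (σ (3, t)) ∩ lOth σ iM iP 2 (σ (4, s))} ≤
        pr w {ω | W ω ∈ {G | SMj G (iM, σ (3, t)) iM Finset.univ ∧ SMj G (iM, σ (4, s)) iP Finset.univ ∧
          G.Adj (hub iM) (leaf (iM, σ (4, s)))}} +
          (pr w {ω | ¬ GoodG (dl pc) σ (prG iP iM (W ω))} +
          pr w {ω | W ω ∈ hOth σ iM iP 0 ∧ W ω ∈ lOth σ iM iP 2 (σ (4, s)) ∧
            ¬ (W ω).Adj (hub iM) (leaf (iM, σ (4, s)))}) := by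
      refine (key _ _ ?_).trans ((pr_union_le hlaw _ _).trans (add_le_add le_rfl (pr_union_le hlaw _ _)))
      rintro ω ⟨h1, h2, h3⟩
      by_cases hg : GoodG (dl pc) σ (prG iP iM (W ω))
      · by_cases ha : (W ω).Adj (hub iM) (leaf (iM, σ (4, s)))
        · left
          exact ⟨(univ ω hg _ (Or.inr rfl) _ (Or.inr rfl) 1).2 h2,
            (univ ω hg _ (Or.inr rfl) _ (Or.inl rfl) 2).2 h3.1, ha⟩
        · exact Or.inr (Or.inr ⟨h1, h3, ha⟩)
      · exact Or.inr (Or.inl hg)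
    linarith
  · -- d
    have h1 : pr w {ω | W ω ∈ {G | ¬ SMj G (iM, σ (4, s)) iM Finset.univ ∧
          G.Adj (hub iM) (leaf (iM, σ (4, s))) ∧ ¬ G.Adj (hub iM) (hub iP)}} ≤
        pr w {ω | ¬ GoodG (dl pc) σ (prG iP iM (W ω))} +
          pr w {ω | ¬ (W ω).Adj (hub iP) (hub iM) ∧
            ¬ (W ω ∈ hAtt σ iP iP 1 ∧ W ω ∈ hAtt σ iM iM 0)} := by
      refine (key _ _ ?_).trans (pr_union_le hlaw _ _)
      rintro ω ⟨h1, h2, h3⟩
      by_cases hg : GoodG (dl pc) σ (prG iP iM (W ω))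
      · right
        refine ⟨fun h4 => h3 h4.symm, ?_⟩
        rintro ⟨_, k, hk, hadj, hMk⟩
        have hkj : k ≠ σ (4, s) := by
          rintro rfl
          exact snum_mem_blk σ 4 0 s (by decide) hk
        have hcr : (W ω).Adj (leaf (iM, k)) (leaf (iM, σ (4, s))) :=
          h.cross ω iM iM k (σ (4, s)) hkj hadj (Cn.refl _ _ _) h2
        have h5 : SMj (W ω) (iM, σ (4, s)) iM (blk σ 0) :=
          smj_of_adj (h.tr ω) (a := (iM, σ (4, s))) (b := (iM, k)) (fun h6 => hkj h6.symm) hcr.symm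
            (snum_mem_blk σ 4 0 s (by decide)) hMk
        exact h1 ((univ ω hg _ (Or.inr rfl) _ (Or.inr rfl) 0).2 h5)
      · exact Or.inl hg
    have h2 := hPM.closed 1 0 (by decide)
    linarith

end Pool.Agent.LP
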