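import Pool.Agent.LP.SPM0

/-!
# LP: open edges between a hub and its leaves

See the docstrings; `pm_open12`: the events (own, own), (oth, oth) have total probability `pc` up to small errors, and the
open edge hub - leaf is contained in their union up to small errors.
-/

set_option autoImplicit false

open Finset
open scoped Classical

namespace Pool.Agent.LP

open Pool.Agent.OIP

variable {Λ : Type} {m : ℕ} {L : SimpleGraph Λ} {Ω : Type} [Fintype Ω] {w : Ω → ℝ}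
  {W : Ω → SimpleGraph (LV Λ (I5 m))} {σ : Equiv.Perm (I5 m)} {ε η : ℝ} {i i' : Λ}

private theorem spmopen_perm (i j v x : Fin 5) (hij : i ≠ j) (hvx : v ≠ x) :
    ∃ τ : Equiv.Perm (Fin 5), τ i = v ∧ τ j = x := by
  have hy : Equiv.swap i v j ≠ v := by
    intro h
    have h1 : Equiv.swap i v i = v := Equiv.swap_apply_left i v
    exact hij ((Equiv.swap i v).injective (h1.trans h.symm))
  refine ⟨Equiv.swap (Equiv.swap i v j) x * Equiv.swap i v, ?_, ?_⟩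
  · rw [Equiv.Perm.mul_apply, Equiv.swap_apply_left, Equiv.swap_apply_of_ne_of_ne hy.symm hvx]
  · rw [Equiv.Perm.mul_apply, Equiv.swap_apply_left]

/-- `hubErr` for a general test block `x` and reference block `u` -/
theorem herr_gen (hσ : GoodSig L η w W σ) (hL : L.Adj i i') {u x : Fin 5} (hux : u ≠ x) :
    avg (fun t : Fin m => pr w {ω | (W ω).Adj (hub i) (leaf (i, σ (x, t))) ∧
      ∀ k ∈ blk σ u, ¬ (W ω).Adj (hub i) (leaf (i, k))}) ≤ η := by
  obtain ⟨τ, hτ, hτ'⟩ := spmopen_perm 0 4 u x (by decide) hux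
  have h1 := hσ.herr τ i i' hL 0 (by decide)
  have e : (fun t : Fin m => hubErr w (fun ω => prG i i' (W ω)) (σ * bp τ) false 0 t) =
      fun t : Fin m => pr w {ω | (W ω).Adj (hub i) (leaf (i, σ (x, t))) ∧
      ∀ k ∈ blk σ u, ¬ (W ω).Adj (hub i) (leaf (i, k))} := by
    funext t
    rw [← hτ, ← hτ']
    rfl
  rwa [e] at h1

theorem pm_open0 (hm : 4 ≤ m) (h : LSample L pc w W) (hσ : GoodSig L η w W σ) (hL : L.Adj i i')
    (hPM : PM0 ε w W σ i i') {u x : Fin 5} (hux : u ≠ x) :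
    avg (fun t : Fin m => pr w {ω | (W ω).Adj (hub i) (leaf (i, σ (x, t))) ∧ W ω ∉ hAtt σ i i u}) ≤ ε + η := by
  have : Nonempty (Fin m) := ⟨⟨0, by omega⟩⟩
  have hw : IsLaw w := h.law
  calc avg (fun t : Fin m => pr w {ω | (W ω).Adj (hub i) (leaf (i, σ (x, t))) ∧ W ω ∉ hAtt σ i i u})
      ≤ avg (fun t : Fin m => ε + pr w {ω | (W ω).Adj (hub i) (leaf (i, σ (x, t))) ∧
      ∀ k ∈ blk σ u, ¬ (W ω).Adj (hub i) (leaf (i, k))}) := by
        refine avg_mono fun t => ?_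
        refine (pr_mono hw (U' := {ω | W ω ∈ hAny σ i u ∧ W ω ∉ hAtt σ i i u} ∪
          {ω | (W ω).Adj (hub i) (leaf (i, σ (x, t))) ∧
            ∀ k ∈ blk σ u, ¬ (W ω).Adj (hub i) (leaf (i, k))}) ?_).trans
          ((pr_union_le hw _ _).trans (add_le_add (hPM.non u) le_rfl))
        rintro ω ⟨h1, h2⟩
        by_cases h3 : W ω ∈ hAny σ i u
        · exact Or.inl ⟨h3, h2⟩
        · refine Or.inr ⟨h1, fun k hk hadj => h3 ⟨k, hk, hadj⟩⟩
    _ ≤ ε + η := by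
        rw [avg_add, avg_const]
        linarith [herr_gen hσ hL hux]

/-- deterministic part -/
theorem pmopen_det {Λ : Type} {m : ℕ} (hm : 4 ≤ m) {L : SimpleGraph Λ} {Ω : Type} [Fintype Ω] {w : Ω → ℝ}
    {W : Ω → SimpleGraph (LV Λ (I5 m))} (h : LSample L pc w W) (σ : Equiv.Perm (I5 m)) (ω : Ω) {i i' : Λ}
    (hG : GoodG (dl pc) σ (prG i i' (W ω))) (hlk : W ω ∉ LkL σ i i' 0) {u v x : Fin 5} (hux : u ≠ x) (t : Fin m)
    (hadj : (W ω).Adj (hub i') (leaf (i', σ (x, t)))) (hany : W ω ∈ hAny σ i' u) :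
    (W ω ∈ hAtt σ i' i' u ∧ W ω ∈ lAtt σ i' i' v (σ (x, t))) ∨
    (W ω ∈ hOth σ i' i u ∧ W ω ∈ lOth σ i' i v (σ (x, t))) ∨
    (W ω ∉ hAtt σ i' i' u ∧ W ω ∉ hOth σ i' i u) := by
  have hT := h.tr ω
  have hδ : 0 ≤ dl pc := by
    have := half_lt_pc
    unfold dl
    linarith
  have key : ∀ k ∈ blk σ u, (W ω).Adj (hub i') (leaf (i', k)) → ∀ c : Λ, (c = i ∨ c = i') →
      SMj (W ω) (i', k) c (blk σ u) → SMj (W ω) (i', σ (x, t)) c (blk σ v) := by
    intro k hk hadjk c hc hM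
    have hne : k ≠ σ (x, t) := by
      rintro rfl
      have hx : σ (x, t) ∈ blk σ x := by
        unfold blk
        exact Finset.mem_image.2 ⟨t, Finset.mem_univ _, rfl⟩
      exact hux (scoreL_blk_unique σ hk hx)
    have hcl : (W ω).Adj (leaf (i', k)) (leaf (i', σ (x, t))) :=
      h.cross ω i' i' k (σ (x, t)) hne hadjk (Cn.refl _ _ _) hadj
    obtain ⟨v', hv1, hv2⟩ := scoreL_exists_blk σ k (σ (x, t))
    have hM' : SMj (W ω) (i', k) c (blk σ v') := (smj_blk hG (Or.inr rfl) hc u v').1 hM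
    have hM2 : SMj (W ω) (i', σ (x, t)) c (blk σ v') :=
      smj_of_adj hT (a := (i', σ (x, t))) (b := (i', k)) hne.symm hcl.symm hv2 hM'
    exact (smj_blk hG (Or.inr rfl) hc v' v).1 hM2
  by_cases h1 : W ω ∈ hAtt σ i' i' u
  · obtain ⟨k, hk, hadjk, hM⟩ := h1
    exact Or.inl ⟨⟨k, hk, hadjk, hM⟩, key k hk hadjk i' (Or.inr rfl) hM⟩
  · by_cases h2 : W ω ∈ hOth σ i' i u
    · right
      left
      refine ⟨h2, ?_⟩
      obtain ⟨⟨k, hk, hadjk, hM⟩, _⟩ := h2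
      have h3 : SMj (W ω) (i', σ (x, t)) i (blk σ v) := key k hk hadjk i (Or.inl rfl) hM
      refine ⟨h3, fun h4 => hlk ?_⟩
      have h4' : SMj (W ω) (i', σ (x, t)) i' (blk σ v) := h4
      have hTr : Tr (prG i i' (W ω)) := by
        refine ⟨?_, ?_⟩
        · intro a b c hab hbc hac e1 e2
          exact hT.1 (cond a.1 i' i, a.2) (cond b.1 i' i, b.2) (cond c.1 i' i, c.2) hab hbc hac e1 e2
        · intro a b k hak hbk hab e1 e2 e3
          exact hT.2 (cond a.1 i' i, a.2) (cond b.1 i' i, b.2) i i' k hak hbk hab e1 e2 e3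
      exact (lkE_iff σ i i' 0 (W ω)).1 (L3 hδ hm hTr hG (true, σ (x, t)) v h3 h4' 0)
    · exact Or.inr (Or.inr ⟨h1, h2⟩)

theorem pm_open12 (hm : 4 ≤ m) (h : LSample L pc w W) (hε : 0 < ε) (hσ : GoodSig L η w W σ) (hL : L.Adj i i')
    (hlk : pr w {ω | W ω ∈ LkL σ i i' 0} ≤ η) (hPM : PM0 ε w W σ i i') {u v x : Fin 5} (huv : u ≠ v)
    (hux : u ≠ x) (hvx : v ≠ x) :
    avg (fun t : Fin m => pr w {ω | W ω ∈ hAtt σ i' i' u ∧ W ω ∈ lAtt σ i' i' v (σ (x, t)) ∧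
        ¬ (W ω).Adj (hub i') (leaf (i', σ (x, t)))} +
      pr w {ω | W ω ∈ hOth σ i' i u ∧ W ω ∈ lOth σ i' i v (σ (x, t)) ∧
        ¬ (W ω).Adj (hub i') (leaf (i', σ (x, t)))}) ≤ 10 * ε + 10 * η := by
  have : Nonempty (Fin m) := ⟨⟨0, by omega⟩⟩
  have hw : IsLaw w := h.law
  have hη : 0 ≤ η := (pr_nonneg hw _).trans hlk
  have h1 : (17320 / 10000 : ℝ) < Real.sqrt 3 := by
    rw [Real.lt_sqrt (by norm_num)]
    norm_num
  have h2 : Real.sqrt 3 < 17321 / 10000 := by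
    rw [Real.sqrt_lt' (by norm_num)]
    norm_num
  have hsc0 : 0 ≤ sc := by unfold sc; linarith
  have hsc1 : sc ≤ 1 := by unfold sc; linarith
  have hscs : sc * sc + (1 - sc) * (1 - sc) = pc := by
    have h3 : Real.sqrt 3 ^ 2 = 3 := Real.sq_sqrt (by norm_num)
    unfold sc pc
    nlinarith
  have hdisj : Disjoint {ω | W ω ∈ hAtt σ i' i' u} {ω | W ω ∈ hOth σ i' i u} :=
    Set.disjoint_left.2 fun ω e1 e2 => e2.2 e1
  -- one index
  have one : ∀ t : Fin m, pr w {ω | W ω ∈ hAtt σ i' i' u ∧ W ω ∈ lAtt σ i' i' v (σ (x, t)) ∧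
        ¬ (W ω).Adj (hub i') (leaf (i', σ (x, t)))} +
      pr w {ω | W ω ∈ hOth σ i' i u ∧ W ω ∈ lOth σ i' i v (σ (x, t)) ∧
        ¬ (W ω).Adj (hub i') (leaf (i', σ (x, t)))} ≤
      (4 * ε + 2 * η) + (|pr w {ω | W ω ∈ lAtt σ i' i' v (σ (x, t))} - sc| +
        (|pr w {ω | W ω ∈ lOth σ i' i v (σ (x, t))} - (1 - sc)| +
        pr w {ω | (W ω).Adj (hub i') (leaf (i', σ (x, t))) ∧
          ∀ k ∈ blk σ u, ¬ (W ω).Adj (hub i') (leaf (i', k))})) := by
    intro t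
    obtain ⟨j, hj⟩ : ∃ j, j = σ (x, t) := ⟨_, rfl⟩
    have hjx : j ∈ blk σ x := by
      rw [hj]
      unfold blk
      exact Finset.mem_image.2 ⟨t, Finset.mem_univ _, rfl⟩
    have hvd : Disjoint (VSL Λ (blk σ u) ∪ {hub i'}) (VSL Λ (blk σ v) ∪ {leaf (i', j)}) := by
      rw [Set.disjoint_left]
      rintro y (⟨a, k, hk, rfl⟩ | hy) (⟨b, k', hk', hy'⟩ | hy')
      · have e1 : (a, k) = (b, k') := Sum.inl.inj hy'
        rw [Prod.mk.injEq] at e1
        obtain ⟨_, rfl⟩ := e1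
        exact huv (scoreL_blk_unique σ hk hk')
      · rw [Set.mem_singleton_iff] at hy'
        have e1 : (a, k) = (i', j) := Sum.inl.inj hy'
        rw [Prod.mk.injEq] at e1
        obtain ⟨_, rfl⟩ := e1
        exact hux (scoreL_blk_unique σ hk hjx)
      · rw [Set.mem_singleton_iff] at hy
        rw [hy] at hy'
        exact absurd hy' (by simp)
      · rw [Set.mem_singleton_iff] at hy hy'
        rw [hy] at hy'
        exact absurd hy' (by simp)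
    have i1 : pr w {ω | W ω ∈ hAtt σ i' i' u ∧ W ω ∈ lAtt σ i' i' v j} =
        pr w {ω | W ω ∈ hAtt σ i' i' u} * pr w {ω | W ω ∈ lAtt σ i' i' v j} :=
      h.indep _ _ hvd _ _ (depOn_hAtt σ i' i' u) (depOn_lAtt σ i' i' v j)
    have i2 : pr w {ω | W ω ∈ hOth σ i' i u ∧ W ω ∈ lOth σ i' i v j} =
        pr w {ω | W ω ∈ hOth σ i' i u} * pr w {ω | W ω ∈ lOth σ i' i v j} :=
      h.indep _ _ hvd _ _ (depOn_hOth σ i' i u) (depOn_lOth σ i' i v j)
    have b1 := abs_le.1 (hPM.own' u)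
    have b2 := abs_le.1 (hPM.oth' u)
    have q1 : pr w {ω | W ω ∈ lAtt σ i' i' v j} ≤ sc + |pr w {ω | W ω ∈ lAtt σ i' i' v j} - sc| := by
      linarith [le_abs_self (pr w {ω | W ω ∈ lAtt σ i' i' v j} - sc)]
    have q2 : pr w {ω | W ω ∈ lOth σ i' i v j} ≤ (1 - sc) + |pr w {ω | W ω ∈ lOth σ i' i v j} - (1 - sc)| := by
      linarith [le_abs_self (pr w {ω | W ω ∈ lOth σ i' i v j} - (1 - sc))]
    have gen : ∀ s A q d : ℝ, 0 ≤ s → s ≤ 1 → A ≤ s + ε → 0 ≤ q → q ≤ 1 → q ≤ s + d → 0 ≤ d →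
        A * q ≤ s * s + d + ε := by
      intro s A q d hs0 hs1 hA hq0 hq1 hqd hd
      have e1 : A * q ≤ (s + ε) * q := mul_le_mul_of_nonneg_right hA hq0
      have e2 : s * q ≤ s * (s + d) := mul_le_mul_of_nonneg_left hqd hs0
      have e3 : ε * q ≤ ε * 1 := mul_le_mul_of_nonneg_left hq1 hε.le
      have e4 : s * d ≤ 1 * d := mul_le_mul_of_nonneg_right hs1 hd
      nlinarith
    have p1 : pr w {ω | W ω ∈ hAtt σ i' i' u ∧ W ω ∈ lAtt σ i' i' v j} ≤
        sc * sc + |pr w {ω | W ω ∈ lAtt σ i' i' v j} - sc| + ε := by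
      rw [i1]
      exact gen sc _ _ _ hsc0 hsc1 (by linarith [b1.2]) (pr_nonneg hw _) (pr_le_one hw _) q1 (abs_nonneg _)
    have p2 : pr w {ω | W ω ∈ hOth σ i' i u ∧ W ω ∈ lOth σ i' i v j} ≤
        (1 - sc) * (1 - sc) + |pr w {ω | W ω ∈ lOth σ i' i v j} - (1 - sc)| + ε := by
      rw [i2]
      exact gen (1 - sc) _ _ _ (by linarith) (by linarith) (by linarith [b2.2]) (pr_nonneg hw _)
        (pr_le_one hw _) q2 (abs_nonneg _)
    -- the rest
    have c0 : pr w ({ω | W ω ∈ hAtt σ i' i' u} ∪ {ω | W ω ∈ hOth σ i' i u})ᶜ ≤ 2 * ε := by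
      rw [pr_compl hw, pr_union_disjoint hdisj]
      linarith [b1.1, b2.1]
    have c1 : pc ≤ pr w {ω | (W ω).Adj (hub i') (leaf (i', j))} := h.hubEdge i' j
    have c2 : pr w {ω | (W ω).Adj (hub i') (leaf (i', j))} ≤
        pr w ({ω | W ω ∈ hAtt σ i' i' u ∧ W ω ∈ lAtt σ i' i' v j} ∩ {ω | (W ω).Adj (hub i') (leaf (i', j))}) +
        (pr w ({ω | W ω ∈ hOth σ i' i u ∧ W ω ∈ lOth σ i' i v j} ∩ {ω | (W ω).Adj (hub i') (leaf (i', j))}) +
        (2 * ε + (pr w {ω | (W ω).Adj (hub i') (leaf (i', j)) ∧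
          ∀ k ∈ blk σ u, ¬ (W ω).Adj (hub i') (leaf (i', k))} + (η + η)))) := by
      refine (pr_mono hw (U' :=
        ({ω | W ω ∈ hAtt σ i' i' u ∧ W ω ∈ lAtt σ i' i' v j} ∩ {ω | (W ω).Adj (hub i') (leaf (i', j))}) ∪
        (({ω | W ω ∈ hOth σ i' i u ∧ W ω ∈ lOth σ i' i v j} ∩ {ω | (W ω).Adj (hub i') (leaf (i', j))}) ∪
        (({ω | W ω ∈ hAtt σ i' i' u} ∪ {ω | W ω ∈ hOth σ i' i u})ᶜ ∪
        ({ω | (W ω).Adj (hub i') (leaf (i', j)) ∧ ∀ k ∈ blk σ u, ¬ (W ω).Adj (hub i') (leaf (i', k))} ∪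
        ({ω | ¬ GoodG (dl pc) σ (prG i i' (W ω))} ∪ {ω | W ω ∈ LkL σ i i' 0}))))) ?_).trans ?_
      · intro ω hω
        by_cases g1 : GoodG (dl pc) σ (prG i i' (W ω))
        · by_cases g2 : W ω ∈ LkL σ i i' 0
          · exact Or.inr (Or.inr (Or.inr (Or.inr (Or.inr g2))))
          · by_cases g3 : W ω ∈ hAny σ i' u
            · have hω' : (W ω).Adj (hub i') (leaf (i', σ (x, t))) := by
                rw [← hj]
                exact hω
              rcases pmopen_det hm h σ ω g1 g2 (v := v) hux t hω' g3 with k | k | k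
              · rw [← hj] at k
                exact Or.inl ⟨k, hω⟩
              · rw [← hj] at k
                exact Or.inr (Or.inl ⟨k, hω⟩)
              · exact Or.inr (Or.inr (Or.inl (fun k' => k'.elim k.1 k.2)))
            · exact Or.inr (Or.inr (Or.inr (Or.inl ⟨hω, fun k hk hadj => g3 ⟨k, hk, hadj⟩⟩)))
        · exact Or.inr (Or.inr (Or.inr (Or.inr (Or.inl g1))))
      · refine (pr_union_le hw _ _).trans (add_le_add le_rfl ?_)
        refine (pr_union_le hw _ _).trans (add_le_add le_rfl ?_)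
        refine (pr_union_le hw _ _).trans (add_le_add c0 ?_)
        refine (pr_union_le hw _ _).trans (add_le_add le_rfl ?_)
        exact (pr_union_le hw _ _).trans (add_le_add (hσ.good i i' hL) hlk)
    have d1 := pr_inter_add_diff (w := w) {ω | W ω ∈ hAtt σ i' i' u ∧ W ω ∈ lAtt σ i' i' v j}
      {ω | (W ω).Adj (hub i') (leaf (i', j))}
    have d2 := pr_inter_add_diff (w := w) {ω | W ω ∈ hOth σ i' i u ∧ W ω ∈ lOth σ i' i v j}
      {ω | (W ω).Adj (hub i') (leaf (i', j))}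
    have d3 : {ω | W ω ∈ hAtt σ i' i' u ∧ W ω ∈ lAtt σ i' i' v j ∧ ¬ (W ω).Adj (hub i') (leaf (i', j))} =
        {ω | W ω ∈ hAtt σ i' i' u ∧ W ω ∈ lAtt σ i' i' v j} \ {ω | (W ω).Adj (hub i') (leaf (i', j))} := by
      ext ω
      exact ⟨fun k => ⟨⟨k.1, k.2.1⟩, k.2.2⟩, fun k => ⟨k.1.1, k.1.2, k.2⟩⟩
    have d4 : {ω | W ω ∈ hOth σ i' i u ∧ W ω ∈ lOth σ i' i v j ∧ ¬ (W ω).Adj (hub i') (leaf (i', j))} =
        {ω | W ω ∈ hOth σ i' i u ∧ W ω ∈ lOth σ i' i v j} \ {ω | (W ω).Adj (hub i') (leaf (i', j))} := by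
      ext ω
      exact ⟨fun k => ⟨⟨k.1, k.2.1⟩, k.2.2⟩, fun k => ⟨k.1.1, k.1.2, k.2⟩⟩
    rw [← hj, d3, d4]
    linarith
  refine (avg_mono one).trans ?_
  rw [avg_add, avg_const, avg_add, avg_add]
  have a1 := hPM.lown' v x hvx
  have a2 := hPM.loth' v x hvx
  have a3 := herr_gen (i := i') (i' := i) hσ hL.symm hux
  linarith

end Pool.Agent.LP
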