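import Pool.Agent.LP.SPMclosed
import Pool.Agent.LP.SPMopen

/-! LP: all near DFH statements together (`pm0_of_good`, `pm_closed`, `pm_open0`, `pm_open12`) -/

set_option autoImplicit false

open Finset
open scoped Classical

namespace Pool.Agent.LP

open Pool.Agent.OIP

private theorem spm_mono {Λ : Type} {m : ℕ} {L : SimpleGraph Λ} {η η' : ℝ} {Ω : Type} [Fintype Ω] {w : Ω → ℝ}
    {W : Ω → SimpleGraph (LV Λ (I5 m))} {σ : Equiv.Perm (I5 m)} (h : GoodSig L η w W σ) (hη : η ≤ η') :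
    GoodSig L η' w W σ where
  good := fun i i' hL => (h.good i i' hL).trans hη
  dev := fun i i' hL => (h.dev i i' hL).trans hη
  herr := fun τ i i' hL u hu => (h.herr τ i i' hL u hu).trans hη

private theorem spm_case {Λ : Type} {m : ℕ} (hm : 4 ≤ m) {L : SimpleGraph Λ} {Ω : Type} [Fintype Ω] {w : Ω → ℝ}
    {W : Ω → SimpleGraph (LV Λ (I5 m))} (h : LSample L pc w W) {σ : Equiv.Perm (I5 m)} {ε ε' η : ℝ}
    (hε' : 0 < ε') (h1 : ε' ≤ 1 / 100) (h2 : 40 * ε' ≤ ε) (h3 : η ≤ ε') (hσ : GoodSig L η w W σ) {i i' : Λ}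
    (hL : L.Adj i i') (hlk : pr w {ω | W ω ∈ LkL σ i i' 0} ≤ η) (hPM : PM0 ε' w W σ i i') : PM ε w W σ i i' := by
  have hle : ε' ≤ ε := by linarith
  have hw := h.law
  refine ⟨fun u => (hPM.own u).trans hle, fun u => (hPM.non u).trans hle, fun u => (hPM.own' u).trans hle,
    fun u => (hPM.oth' u).trans hle, fun v x hvx => (hPM.lown v x hvx).trans hle,
    fun v x hvx => (hPM.lown' v x hvx).trans hle, fun v x hvx => (hPM.loth' v x hvx).trans hle, ?_, ?_, ?_, ?_⟩
  · intro u u' huu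
    have := pm_closed hm h h1 hσ hL (hlk.trans h3) hPM huu
    linarith
  · intro u x hux
    have := pm_open0 hm h hσ hL hPM hux
    linarith
  · intro u v x huv hux hvx
    have h4 := pm_open12 hm h hε' hσ hL hlk hPM huv hux hvx
    refine le_trans (avg_mono fun t => ?_) (h4.trans (by linarith))
    exact le_add_of_nonneg_right (pr_nonneg hw _)
  · intro u v x huv hux hvx
    have h4 := pm_open12 hm h hε' hσ hL hlk hPM huv hux hvx
    refine le_trans (avg_mono fun t => ?_) (h4.trans (by linarith))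
    exact le_add_of_nonneg_left (pr_nonneg hw _)

theorem pm_of_good (ε : ℝ) (hε : 0 < ε) : ∃ η : ℝ, 0 < η ∧ ∀ (Λ : Type) (m : ℕ), 4 ≤ m →
    ∀ (L : SimpleGraph Λ) (Ω : Type) [Fintype Ω] (w : Ω → ℝ) (W : Ω → SimpleGraph (LV Λ (I5 m))),
      LSample L pc w W → ∀ σ : Equiv.Perm (I5 m), GoodSig L η w W σ → ∀ i i' : Λ, L.Adj i i' →
      pr w {ω | W ω ∈ LkL σ i i' 0} ≤ η → PM ε w W σ i i' ∨ PM ε w W σ i' i := by
  set ε' : ℝ := min (ε / 40) (1 / 100) with hε'
  have hpos : 0 < ε' := lt_min (by positivity) (by norm_num)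
  have h1 : ε' ≤ 1 / 100 := min_le_right _ _
  have h2 : 40 * ε' ≤ ε := by
    have := min_le_left (ε / 40) (1 / 100 : ℝ)
    rw [← hε'] at this
    linarith
  obtain ⟨η₀, hη₀, hpm⟩ := pm0_of_good ε' hpos
  set η : ℝ := min η₀ ε' / 2 with hη
  have hηpos : 0 < η := by
    have : 0 < min η₀ ε' := lt_min hη₀ hpos
    rw [hη]
    positivity
  have h2η : 2 * η = min η₀ ε' := by
    rw [hη]
    ring
  have h3 : 2 * η ≤ ε' := by
    rw [h2η]
    exact min_le_right _ _
  have h4 : 2 * η ≤ η₀ := by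
    rw [h2η]
    exact min_le_left _ _
  refine ⟨η, hηpos, ?_⟩
  intro Λ m hm L Ω _ w W h σ hσ i i' hL hlk
  have hσ2 : GoodSig L (2 * η) w W σ := spm_mono hσ (by linarith)
  have hσ0 : GoodSig L η₀ w W σ := spm_mono hσ (by linarith)
  rcases hpm Λ m hm L Ω w W h σ hσ0 i i' hL (by linarith) with hPM | hPM
  · exact Or.inl (spm_case hm h hpos h1 h2 h3 hσ2 hL (by linarith) hPM)
  · have h5 := lkL_symm hm h hσ hL 0 0
    exact Or.inr (spm_case hm h hpos h1 h2 h3 hσ2 hL.symm (by linarith) hPM)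

end Pool.Agent.LP
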