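import Pool.Agent.LP.SPair
import Pool.Agent.LP.SNearB
import Pool.Agent.LP.SDichL
import Pool.Agent.LP.SGoodEx

/-!
# LP: near DFH numbers for an unlinked pair of layers

Apply `near_bool` (with a smaller `ε'`) to `prG i i' ∘ W` and `σ * bp τ` for all permutations `τ` of the blocks
(`goodSig_bp`, `lkL_all`, `lkL_bp`, `hubErr_swap`, `hAtt_bp`, ...).  The number `al` (resp. `be`) depends only on
`τ 0` (resp. `τ 1`) and not on `t`, and `rc - sc > 2 ε'`, so the same alternative holds for all `t` and all `τ`.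
The indices `t` with `hubErr .. t > η'` form at most a fraction `η / η'` (Markov, `avg_ind_lt_le`); for them the
deviations are at most `1`.
`non`: `hAny \ hAtt = hubOth ∪ hubNon`.
-/

set_option autoImplicit false

open Finset
open scoped Classical

namespace Pool.Agent.LP

open Pool.Agent.OIP

/-- the numbers of `PM` -/
structure PM0 {Λ : Type} {m : ℕ} {Ω : Type} [Fintype Ω] (ε : ℝ) (w : Ω → ℝ)
    (W : Ω → SimpleGraph (LV Λ (I5 m))) (σ : Equiv.Perm (I5 m)) (i i' : Λ) : Prop where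
  own : ∀ u, |pr w {ω | W ω ∈ hAtt σ i i u} - rc| ≤ ε
  non : ∀ u, pr w {ω | W ω ∈ hAny σ i u ∧ W ω ∉ hAtt σ i i u} ≤ ε
  own' : ∀ u, |pr w {ω | W ω ∈ hAtt σ i' i' u} - sc| ≤ ε
  oth' : ∀ u, |pr w {ω | W ω ∈ hOth σ i' i u} - (1 - sc)| ≤ ε
  lown : ∀ v x : Fin 5, v ≠ x → avg (fun t : Fin m => |pr w {ω | W ω ∈ lAtt σ i i v (σ (x, t))} - rc|) ≤ ε
  lown' : ∀ v x : Fin 5, v ≠ x → avg (fun t : Fin m => |pr w {ω | W ω ∈ lAtt σ i' i' v (σ (x, t))} - sc|) ≤ ε
  loth' : ∀ v x : Fin 5, v ≠ x →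
    avg (fun t : Fin m => |pr w {ω | W ω ∈ lOth σ i' i v (σ (x, t))} - (1 - sc)|) ≤ ε

private theorem spm0_perm (i j v x : Fin 5) (hij : i ≠ j) (hvx : v ≠ x) :
    ∃ τ : Equiv.Perm (Fin 5), τ i = v ∧ τ j = x := by
  have hy : Equiv.swap i v j ≠ v := by
    intro h
    have h1 : Equiv.swap i v i = v := Equiv.swap_apply_left i v
    exact hij ((Equiv.swap i v).injective (h1.trans h.symm))
  refine ⟨Equiv.swap (Equiv.swap i v j) x * Equiv.swap i v, ?_, ?_⟩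
  · rw [Equiv.Perm.mul_apply, Equiv.swap_apply_left, Equiv.swap_apply_of_ne_of_ne hy.symm hvx]
  · rw [Equiv.Perm.mul_apply, Equiv.swap_apply_left]

/-- the numbers for one permutation of the blocks and one index -/
private structure NA {Λ : Type} {m : ℕ} {Ω : Type} [Fintype Ω] (ε : ℝ) (w : Ω → ℝ)
    (W : Ω → SimpleGraph (LV Λ (I5 m))) (σ : Equiv.Perm (I5 m)) (i i' : Λ) (τ : Equiv.Perm (Fin 5))
    (t : Fin m) : Prop where
  la : |pr w {ω | W ω ∈ lAtt σ i i (τ 2) (σ (τ 4, t))} - rc| ≤ ε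
  lb : |pr w {ω | W ω ∈ lAtt σ i' i' (τ 3) (σ (τ 4, t))} - sc| ≤ ε
  lb' : |pr w {ω | W ω ∈ lOth σ i' i (τ 3) (σ (τ 4, t))} - (1 - sc)| ≤ ε
  ha : |pr w {ω | W ω ∈ hAtt σ i i (τ 0)} - rc| ≤ ε
  hn : pr w {ω | W ω ∈ hAny σ i (τ 0) ∧ W ω ∉ hAtt σ i i (τ 0)} ≤ 2 * ε
  hb : |pr w {ω | W ω ∈ hAtt σ i' i' (τ 1)} - sc| ≤ ε
  hb' : |pr w {ω | W ω ∈ hOth σ i' i (τ 1)} - (1 - sc)| ≤ ε

private theorem spm0_gap : 49 / 1000 < (rc - sc) / 2 := by
  unfold rc sc
  have h : (17320 / 10000 : ℝ) < Real.sqrt 3 := by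
    rw [Real.lt_sqrt (by norm_num)]
    norm_num
  linarith

private theorem spm0_rc : 0 ≤ rc ∧ rc ≤ 1 ∧ 0 ≤ sc ∧ sc ≤ 1 := by
  have h1 : (17320 / 10000 : ℝ) < Real.sqrt 3 := by
    rw [Real.lt_sqrt (by norm_num)]
    norm_num
  have h2 : Real.sqrt 3 < 17321 / 10000 := by
    rw [Real.sqrt_lt' (by norm_num)]
    norm_num
  unfold rc sc
  refine ⟨?_, ?_, ?_, ?_⟩ <;> linarith

/-- average of a quantity that is small for most indices -/
private theorem spm0_avg {m : ℕ} (hm : 4 ≤ m) {B : Fin m → Prop} {F : Fin m → ℝ} {e b : ℝ} (he : 0 ≤ e)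
    (hB : avg (fun t => ind (B t)) ≤ b) (hF1 : ∀ t, F t ≤ 1) (hF : ∀ t, ¬ B t → F t ≤ e) :
    avg F ≤ e + b := by
  have : Nonempty (Fin m) := ⟨⟨0, by omega⟩⟩
  calc avg F ≤ avg (fun t => e + ind (B t)) := by
        refine avg_mono fun t => ?_
        by_cases hBt : B t
        · have h1 : ind (B t) = 1 := by
            unfold ind
            rw [if_pos hBt]
          rw [h1]
          linarith [hF1 t]
        · have := hF t hBt
          have h0 := ind_nonneg (B t)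
          linarith
    _ = e + avg (fun t => ind (B t)) := by rw [avg_add, avg_const]
    _ ≤ e + b := by linarith

private theorem spm0_abs {x y : ℝ} (hx : 0 ≤ x) (hx1 : x ≤ 1) (hy : 0 ≤ y) (hy1 : y ≤ 1) : |x - y| ≤ 1 := by
  rw [abs_le]
  constructor <;> linarith

theorem pm0_of_good (ε : ℝ) (hε : 0 < ε) : ∃ η : ℝ, 0 < η ∧ ∀ (Λ : Type) (m : ℕ), 4 ≤ m →
    ∀ (L : SimpleGraph Λ) (Ω : Type) [Fintype Ω] (w : Ω → ℝ) (W : Ω → SimpleGraph (LV Λ (I5 m))),
      LSample L pc w W → ∀ σ : Equiv.Perm (I5 m), GoodSig L η w W σ → ∀ i i' : Λ, L.Adj i i' →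
      pr w {ω | W ω ∈ LkL σ i i' 0} ≤ η → PM0 ε w W σ i i' ∨ PM0 ε w W σ i' i := by
  obtain ⟨ε', hε'0, hε'1, hε'2⟩ : ∃ ε' : ℝ, 0 < ε' ∧ ε' ≤ ε / 2 ∧ ε' ≤ 1 / 100 :=
    ⟨min (ε / 2) (1 / 100), lt_min (by linarith) (by norm_num), min_le_left _ _, min_le_right _ _⟩
  obtain ⟨η0, hη0, hnb⟩ := near_bool ε' hε'0
  obtain ⟨η, hη, hη1, hη2⟩ : ∃ η : ℝ, 0 < η ∧ η ≤ η0 / 4 ∧ η ≤ ε * η0 / 4 :=
    ⟨min (η0 / 4) (ε * η0 / 4), lt_min (by linarith) (by positivity), min_le_left _ _, min_le_right _ _⟩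
  refine ⟨η, hη, ?_⟩
  intro Λ m hm L Ω _ w W h σ hσ i₀ i₀' hL₀ hlk₀
  have hlaw : IsLaw w := h.law
  have hne : Nonempty (Fin m) := ⟨⟨0, by omega⟩⟩
  have hgap := spm0_gap
  obtain ⟨hrc0, hrc1, hsc0, hsc1⟩ := spm0_rc
  have hfrac1 : 2 * η / η0 ≤ 1 / 2 := by
    rw [div_le_iff₀ hη0]
    linarith
  have hfrac2 : 2 * η / η0 ≤ ε / 2 := by
    rw [div_le_iff₀ hη0]
    linarith
  -- the alternatives
  have alt : ∀ i i' : Λ, L.Adj i i' → pr w {ω | W ω ∈ LkL σ i i' 0} ≤ 2 * η → ∀ τ : Equiv.Perm (Fin 5),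
      ∃ B : Fin m → Prop, avg (fun t => ind (B t)) ≤ 2 * η / η0 ∧ ∀ t, ¬ B t →
        NA ε' w W σ i i' τ t ∨ (|pr w {ω | W ω ∈ hAtt σ i' i' (τ 1)} - rc| ≤ ε' ∧
          |pr w {ω | W ω ∈ hAtt σ i i (τ 0)} - sc| ≤ ε') := by
    intro i i' hL hlk τ
    have hg := goodSig_bp hlaw hσ τ
    have e1 : pr w {ω | ¬ GoodG (dl pc) (σ * bp τ) (prG i i' (W ω))} ≤ η0 :=
      (hg.good i i' hL).trans (by linarith)
    have e2 : pr w {ω | prG i i' (W ω) ∈ LkE (σ * bp τ) 0} ≤ η0 := by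
      have h1 := lkL_all hm h hσ hL (τ 0) 0
      have h2 : pr w {ω | prG i i' (W ω) ∈ LkE (σ * bp τ) 0} = pr w {ω | W ω ∈ LkL σ i i' (τ 0)} := by
        rw [← lkL_bp]
        rfl
      rw [h2]
      linarith
    have e3' : avg (fun t : Fin m => hubErr w (fun ω => prG i i' (W ω)) (σ * bp τ) false 0 t) ≤ η :=
      hσ.herr τ i i' hL 0 (by decide)
    have e4' : avg (fun t : Fin m => hubErr w (fun ω => prG i i' (W ω)) (σ * bp τ) true 1 t) ≤ η := by
      have := hσ.herr τ i' i hL.symm 1 (by decide)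
      simpa only [hubErr_swap] using this
    have hnn : ∀ (b : Bool) (u : Fin 5) (t : Fin m),
        0 ≤ hubErr w (fun ω => prG i i' (W ω)) (σ * bp τ) b u t := fun b u t => pr_nonneg hlaw _
    refine ⟨fun t => η0 < hubErr w (fun ω => prG i i' (W ω)) (σ * bp τ) false 0 t ∨
      η0 < hubErr w (fun ω => prG i i' (W ω)) (σ * bp τ) true 1 t, ?_, ?_⟩
    · have b1 := avg_ind_lt_le (hnn false 0) hη0
      have b2 := avg_ind_lt_le (hnn true 1) hη0
      have b3 : avg (fun t => ind (η0 < hubErr w (fun ω => prG i i' (W ω)) (σ * bp τ) false 0 t ∨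
          η0 < hubErr w (fun ω => prG i i' (W ω)) (σ * bp τ) true 1 t)) ≤
          avg (fun t => ind (η0 < hubErr w (fun ω => prG i i' (W ω)) (σ * bp τ) false 0 t) +
            ind (η0 < hubErr w (fun ω => prG i i' (W ω)) (σ * bp τ) true 1 t)) := by
        refine avg_mono fun t => ?_
        unfold ind
        split_ifs with c1 c2 c3 c4 c5 <;> simp_all
      rw [avg_add] at b3
      have b4 : avg (fun t : Fin m => hubErr w (fun ω => prG i i' (W ω)) (σ * bp τ) false 0 t) / η0 ≤ η / η0 :=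
        div_le_div_of_nonneg_right e3' hη0.le
      have b5 : avg (fun t : Fin m => hubErr w (fun ω => prG i i' (W ω)) (σ * bp τ) true 1 t) / η0 ≤ η / η0 :=
        div_le_div_of_nonneg_right e4' hη0.le
      have b6 : 2 * η / η0 = η / η0 + η / η0 := by ring
      rw [b6]
      linarith
    · intro t ht
      push Not at ht
      have key := hnb m hm Ω w (fun ω => prG i i' (W ω)) (sampleLaw_prG h hL) (σ * bp τ) e1 e2
        (e3'.trans (by linarith)) (e4'.trans (by linarith)) t ht.1 ht.2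
      have s1 : {ω | prG i i' (W ω) ∈ leafOwn (σ * bp τ) false 2 ((σ * bp τ : Equiv.Perm (I5 m)) (4, t))} =
          {ω | W ω ∈ lAtt σ i i (τ 2) (σ (τ 4, t))} := by
        ext ω
        show prG i i' (W ω) ∈ leafOwn (σ * bp τ) false 2 ((σ * bp τ : Equiv.Perm (I5 m)) (4, t)) ↔ _
        rw [leafOwn_false, lAtt_bp, bp_apply]
        rfl
      have s2 : {ω | prG i i' (W ω) ∈ leafOwn (σ * bp τ) true 3 ((σ * bp τ : Equiv.Perm (I5 m)) (4, t))} =
          {ω | W ω ∈ lAtt σ i' i' (τ 3) (σ (τ 4, t))} := by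
        ext ω
        show prG i i' (W ω) ∈ leafOwn (σ * bp τ) true 3 ((σ * bp τ : Equiv.Perm (I5 m)) (4, t)) ↔ _
        rw [leafOwn_true, lAtt_bp, bp_apply]
        rfl
      have s3 : {ω | prG i i' (W ω) ∈ leafOth (σ * bp τ) true 3 ((σ * bp τ : Equiv.Perm (I5 m)) (4, t))} =
          {ω | W ω ∈ lOth σ i' i (τ 3) (σ (τ 4, t))} := by
        ext ω
        show prG i i' (W ω) ∈ leafOth (σ * bp τ) true 3 ((σ * bp τ : Equiv.Perm (I5 m)) (4, t)) ↔ _
        rw [leafOth_true, lOth_bp, bp_apply]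
        rfl
      have s4 : {ω | prG i i' (W ω) ∈ hubOwn (σ * bp τ) false 0} = {ω | W ω ∈ hAtt σ i i (τ 0)} := by
        ext ω
        show prG i i' (W ω) ∈ hubOwn (σ * bp τ) false 0 ↔ _
        rw [hubOwn_false, hAtt_bp]
        rfl
      have s5 : {ω | prG i i' (W ω) ∈ hubOwn (σ * bp τ) true 1} = {ω | W ω ∈ hAtt σ i' i' (τ 1)} := by
        ext ω
        show prG i i' (W ω) ∈ hubOwn (σ * bp τ) true 1 ↔ _
        rw [hubOwn_true, hAtt_bp]
        rfl
      have s6 : {ω | prG i i' (W ω) ∈ hubOth (σ * bp τ) true 1} = {ω | W ω ∈ hOth σ i' i (τ 1)} := by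
        ext ω
        show prG i i' (W ω) ∈ hubOth (σ * bp τ) true 1 ↔ _
        rw [hubOth_true, hOth_bp]
        rfl
      have s7 : {ω | W ω ∈ hAny σ i (τ 0) ∧ W ω ∉ hAtt σ i i (τ 0)} ⊆
          {ω | prG i i' (W ω) ∈ hubOth (σ * bp τ) false 0} ∪ {ω | prG i i' (W ω) ∈ hubNon (σ * bp τ) false 0} := by
        rintro ω ⟨h1, h2⟩
        rw [← hAny_bp] at h1
        rw [← hAtt_bp, ← hubOwn_false (σ * bp τ) i i' 0] at h2
        by_cases h3 : prG i i' (W ω) ∈ hubOth (σ * bp τ) false 0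
        · exact Or.inl h3
        · exact Or.inr ⟨h1, fun h4 => h4.elim h2 h3⟩
      rcases key with k | k
      · left
        refine ⟨s1 ▸ k.a, s2 ▸ k.b, s3 ▸ k.b', s4 ▸ k.al, ?_, s5 ▸ k.be, s6 ▸ k.be'⟩
        refine (pr_mono hlaw s7).trans ((pr_union_le hlaw _ _).trans ?_)
        have k1 := k.al'
        have k2 := k.n1
        linarith
      · right
        exact ⟨s5 ▸ k.al, s4 ▸ k.be⟩
  -- good indices exist
  have ex : ∀ B : Fin m → Prop, avg (fun t => ind (B t)) ≤ 2 * η / η0 → ∃ t, ¬ B t := by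
    intro B hB
    by_contra hcon
    push Not at hcon
    have h1 : avg (fun t => ind (B t)) = 1 := by
      have : (fun t => ind (B t)) = fun _ => (1 : ℝ) := by
        funext t
        unfold ind
        rw [if_pos (hcon t)]
      rw [this, avg_const]
    rw [h1] at hB
    linarith
  -- from the value of the hub numbers to `PM0`
  have fin : ∀ i i' : Λ, L.Adj i i' → pr w {ω | W ω ∈ LkL σ i i' 0} ≤ 2 * η →
      (∀ u, |pr w {ω | W ω ∈ hAtt σ i i u} - rc| ≤ ε') → PM0 ε w W σ i i' := by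
    intro i i' hL hlk hown
    have alt' : ∀ τ : Equiv.Perm (Fin 5), ∃ B : Fin m → Prop, avg (fun t => ind (B t)) ≤ 2 * η / η0 ∧
        ∀ t, ¬ B t → NA ε' w W σ i i' τ t := by
      intro τ
      obtain ⟨B, hB, hBt⟩ := alt i i' hL hlk τ
      refine ⟨B, hB, fun t ht => ?_⟩
      rcases hBt t ht with k | ⟨_, k⟩
      · exact k
      · exfalso
        have h1 := abs_le.1 (hown (τ 0))
        have h2 := abs_le.1 k
        linarith [h1.1, h1.2, h2.1, h2.2]
    refine ⟨fun u => (hown u).trans (by linarith), ?_, ?_, ?_, ?_, ?_, ?_⟩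
    · intro u
      obtain ⟨τ, hτ, _⟩ := spm0_perm 0 1 u (u + 1) (by decide) (by fin_cases u <;> decide)
      obtain ⟨B, hB, hBt⟩ := alt' τ
      obtain ⟨t, ht⟩ := ex B hB
      have := (hBt t ht).hn
      rw [hτ] at this
      linarith
    · intro u
      obtain ⟨τ, _, hτ⟩ := spm0_perm 0 1 (u + 1) u (by decide) (by fin_cases u <;> decide)
      obtain ⟨B, hB, hBt⟩ := alt' τ
      obtain ⟨t, ht⟩ := ex B hB
      have := (hBt t ht).hb
      rw [hτ] at this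
      linarith
    · intro u
      obtain ⟨τ, _, hτ⟩ := spm0_perm 0 1 (u + 1) u (by decide) (by fin_cases u <;> decide)
      obtain ⟨B, hB, hBt⟩ := alt' τ
      obtain ⟨t, ht⟩ := ex B hB
      have := (hBt t ht).hb'
      rw [hτ] at this
      linarith
    · intro v x hvx
      obtain ⟨τ, hτ, hτ'⟩ := spm0_perm 2 4 v x (by decide) hvx
      obtain ⟨B, hB, hBt⟩ := alt' τ
      refine (spm0_avg hm hε'0.le hB (fun t => spm0_abs (pr_nonneg hlaw _) (pr_le_one hlaw _) hrc0 hrc1)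
        fun t ht => ?_).trans (by linarith)
      have := (hBt t ht).la
      rwa [hτ, hτ'] at this
    · intro v x hvx
      obtain ⟨τ, hτ, hτ'⟩ := spm0_perm 3 4 v x (by decide) hvx
      obtain ⟨B, hB, hBt⟩ := alt' τ
      refine (spm0_avg hm hε'0.le hB (fun t => spm0_abs (pr_nonneg hlaw _) (pr_le_one hlaw _) hsc0 hsc1)
        fun t ht => ?_).trans (by linarith)
      have := (hBt t ht).lb
      rwa [hτ, hτ'] at this
    · intro v x hvx
      obtain ⟨τ, hτ, hτ'⟩ := spm0_perm 3 4 v x (by decide) hvx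
      obtain ⟨B, hB, hBt⟩ := alt' τ
      refine (spm0_avg hm hε'0.le hB (fun t => spm0_abs (pr_nonneg hlaw _) (pr_le_one hlaw _)
        (by linarith) (by linarith)) fun t ht => ?_).trans (by linarith)
      have := (hBt t ht).lb'
      rwa [hτ, hτ'] at this
  -- the dichotomy
  have hlk1 : pr w {ω | W ω ∈ LkL σ i₀ i₀' 0} ≤ 2 * η := by linarith
  have hlk2 : pr w {ω | W ω ∈ LkL σ i₀' i₀ 0} ≤ 2 * η := by
    have := lkL_symm hm h hσ hL₀ 0 0
    linarith
  have dich : ∀ u v : Fin 5, u ≠ v →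
      (|pr w {ω | W ω ∈ hAtt σ i₀ i₀ u} - rc| ≤ ε' ∧ |pr w {ω | W ω ∈ hAtt σ i₀' i₀' v} - sc| ≤ ε') ∨
      (|pr w {ω | W ω ∈ hAtt σ i₀' i₀' v} - rc| ≤ ε' ∧ |pr w {ω | W ω ∈ hAtt σ i₀ i₀ u} - sc| ≤ ε') := by
    intro u v huv
    obtain ⟨τ, hτ, hτ'⟩ := spm0_perm 0 1 u v (by decide) huv
    obtain ⟨B, hB, hBt⟩ := alt i₀ i₀' hL₀ hlk1 τ
    obtain ⟨t, ht⟩ := ex B hB
    rcases hBt t ht with k | k
    · left
      have k1 := k.ha
      have k2 := k.hb
      rw [hτ] at k1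
      rw [hτ'] at k2
      exact ⟨k1, k2⟩
    · right
      rw [hτ, hτ'] at k
      exact k
  have no : ∀ x : ℝ, |x - rc| ≤ ε' → |x - sc| ≤ ε' → False := by
    intro x h1 h2
    have h3 := abs_le.1 h1
    have h4 := abs_le.1 h2
    linarith [h3.1, h3.2, h4.1, h4.2]
  rcases dich 0 1 (by decide) with ⟨a1, a2⟩ | ⟨a1, a2⟩
  · left
    refine fin i₀ i₀' hL₀ hlk1 ?_
    have b1 : ∀ v : Fin 5, v ≠ 0 → |pr w {ω | W ω ∈ hAtt σ i₀' i₀' v} - sc| ≤ ε' := by
      intro v hv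
      rcases dich 0 v hv.symm with k | k
      · exact k.2
      · exact absurd k.2 (fun hk => no _ a1 hk)
    intro u
    obtain ⟨v, hv0, hvu⟩ : ∃ v : Fin 5, v ≠ 0 ∧ u ≠ v := by
      revert u
      decide
    rcases dich u v hvu with k | k
    · exact k.1
    · exact absurd (b1 v hv0) (fun hk => no _ k.1 hk)
  · right
    refine fin i₀' i₀ hL₀.symm hlk2 ?_
    have b1 : ∀ u : Fin 5, u ≠ 1 → |pr w {ω | W ω ∈ hAtt σ i₀ i₀ u} - sc| ≤ ε' := by
      intro u hu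
      rcases dich u 1 hu with k | k
      · exact absurd k.2 (fun hk => no _ a1 hk)
      · exact k.2
    intro v
    obtain ⟨u, hu1, huv⟩ : ∃ u : Fin 5, u ≠ 1 ∧ u ≠ v := by
      revert v
      decide
    rcases dich u v huv with k | k
    · exact absurd (b1 u hu1) (fun hk => no _ k.1 hk)
    · exact k.1

end Pool.Agent.LP
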