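import Pool.Agent.LP.SPM0

/-!
# LP: the closed mass of the hub edge of an unlinked pair is exhausted by (own, own)

`{hAtt σ i i u} ∩ {hAtt σ i' i' u'}` (`u ≠ u'`) has probability (independence, disjoint vertex sets)
`≥ (rc - ε) (sc - ε) ≥ 1 - pc - 2 ε` and outside `¬ GoodG`, `LkL` it is contained in `{hub edge closed}`
(otherwise `cross` and `GoodG` give a link, see `impl_hub_closed`, `L3`); and
`pr {hub edge closed} ≤ 1 - pc`.
-/

set_option autoImplicit false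

open Finset
open scoped Classical

namespace Pool.Agent.LP

open Pool.Agent.OIP

private theorem spmclosed_tr {Λ κ : Type} {G : SimpleGraph (LV Λ κ)} (h : LTr G) (i i' : Λ) :
    Tr (prG i i' G) := by
  refine ⟨?_, ?_⟩
  · intro a b c hab hbc hac h1 h2
    exact h.1 (cond a.1 i' i, a.2) (cond b.1 i' i, b.2) (cond c.1 i' i, c.2) hab hbc hac h1 h2
  · intro a b k hak hbk hab h1 h2 h3
    exact h.2 (cond a.1 i' i, a.2) (cond b.1 i' i, b.2) i i' k hak hbk hab h1 h2 h3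

/-- deterministic part: two hubs attached to their own majority classes and joined to each other give a link -/
theorem lk_of_hubs {Λ : Type} {m : ℕ} (hm : 4 ≤ m) {L : SimpleGraph Λ} {Ω : Type} [Fintype Ω] {w : Ω → ℝ}
    {W : Ω → SimpleGraph (LV Λ (I5 m))} (h : LSample L pc w W) (σ : Equiv.Perm (I5 m)) (ω : Ω) {i i' : Λ}
    (hG : GoodG (dl pc) σ (prG i i' (W ω))) {u u' : Fin 5} (huu : u ≠ u')
    (hi : W ω ∈ hAtt σ i i u) (hi' : W ω ∈ hAtt σ i' i' u') (hadj : (W ω).Adj (hub i) (hub i')) (v : Fin 5) :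
    W ω ∈ LkL σ i i' v := by
  have hT := spmclosed_tr (h.tr ω) i i'
  have hδ : 0 ≤ dl pc := by
    have := half_lt_pc
    unfold dl
    linarith
  obtain ⟨k, hk, hadjk, hMk⟩ := hi
  obtain ⟨l, hl, hadjl, hMl⟩ := hi'
  have hkl : k ≠ l := by
    rintro rfl
    exact huu (scoreL_blk_unique σ hk hl)
  have hcn : Cn (W ω) (Set.range Sum.inr) (hub i) (hub i') :=
    Relation.ReflTransGen.single ⟨hadj, ⟨i, rfl⟩, ⟨i', rfl⟩⟩
  have he : (W ω).Adj (leaf (i, k)) (leaf (i', l)) := h.cross ω i i' k l hkl hadjk hcn hadjl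
  have he' : (prG i i' (W ω)).Adj (lf (false, k)) (lf (true, l)) := he
  have hMl' : Mj (prG i i' (W ω)) (true, l) true (blk σ u') := hMl
  have hMk' : Mj (prG i i' (W ω)) (false, k) false (blk σ u) := hMk
  have h1 : Mj (prG i i' (W ω)) (false, k) true (blk σ u') :=
    L1 hT hG (a := (false, k)) (b := (true, l)) hkl he' hMl'
  rw [hG.1 (false, k) true u' u] at h1
  exact (lkE_iff σ i i' v (W ω)).1 (L3 hδ hm hT hG (false, k) u hMk' h1 v)


theorem pm_closed {Λ : Type} {m : ℕ} (hm : 4 ≤ m) {L : SimpleGraph Λ} {Ω : Type} [Fintype Ω] {w : Ω → ℝ}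
    {W : Ω → SimpleGraph (LV Λ (I5 m))} (h : LSample L pc w W) {σ : Equiv.Perm (I5 m)} {ε η : ℝ}
    (hε : ε ≤ 1 / 100) (hσ : GoodSig L η w W σ) {i i' : Λ} (hL : L.Adj i i')
    (hlk : pr w {ω | W ω ∈ LkL σ i i' 0} ≤ ε) (hPM : PM0 ε w W σ i i') {u u' : Fin 5} (huu : u ≠ u') :
    pr w {ω | ¬ (W ω).Adj (hub i) (hub i') ∧ ¬ (W ω ∈ hAtt σ i i u ∧ W ω ∈ hAtt σ i' i' u')} ≤ 3 * ε + η := by
  classical
  have hw := h.law
  have hne : i ≠ i' := hL.ne
  have hε0 : 0 ≤ ε := (abs_nonneg _).trans (hPM.own 0)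
  have hown := abs_le.1 (hPM.own u)
  have hown' := abs_le.1 (hPM.own' u')
  -- numbers
  have hs0 : 0 ≤ Real.sqrt 3 := Real.sqrt_nonneg 3
  have hs3 : Real.sqrt 3 * Real.sqrt 3 = 3 := Real.mul_self_sqrt (by norm_num)
  have hs1 : Real.sqrt 3 < 1.8 := by
    rw [Real.sqrt_lt' (by norm_num)]
    norm_num
  have hs2 : 1.7 < Real.sqrt 3 := by
    rw [Real.lt_sqrt (by norm_num)]
    norm_num
  have hprod : rc * sc = 1 - pc := by
    unfold rc sc pc
    nlinarith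
  have hsum : rc + sc ≤ 2 := by
    unfold rc sc
    linarith
  have hrc : 0.7 ≤ rc := by unfold rc; linarith
  have hsc : 0.5 ≤ sc := by unfold sc; linarith
  -- independence
  have hind : pr w {ω | W ω ∈ hAtt σ i i u ∧ W ω ∈ hAtt σ i' i' u'} =
      pr w {ω | W ω ∈ hAtt σ i i u} * pr w {ω | W ω ∈ hAtt σ i' i' u'} := by
    refine h.indep (VSL Λ (blk σ u) ∪ {hub i}) (VSL Λ (blk σ u') ∪ {hub i'}) ?_ _ _
      (depOn_hAtt σ i i u) (depOn_hAtt σ i' i' u')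
    rw [Set.disjoint_left]
    rintro x (⟨j, k, hk, rfl⟩ | hx) (⟨j', k', hk', hx'⟩ | hx')
    · have : (j, k) = (j', k') := Sum.inl.inj hx'
      rw [Prod.mk.injEq] at this
      obtain ⟨_, rfl⟩ := this
      exact huu (scoreL_blk_unique σ hk hk')
    · exact absurd hx' (by simp)
    · rw [Set.mem_singleton_iff] at hx
      rw [hx] at hx'
      exact absurd hx' (by simp)
    · rw [Set.mem_singleton_iff] at hx hx'
      rw [hx] at hx'
      exact hne (Sum.inr.inj hx')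
  have hAB : 1 - pc - 2 * ε ≤ pr w {ω | W ω ∈ hAtt σ i i u ∧ W ω ∈ hAtt σ i' i' u'} := by
    rw [hind]
    have h1 : rc - ε ≤ pr w {ω | W ω ∈ hAtt σ i i u} := by linarith [hown.1]
    have h2 : sc - ε ≤ pr w {ω | W ω ∈ hAtt σ i' i' u'} := by linarith [hown'.1]
    have h3 : (rc - ε) * (sc - ε) ≤ pr w {ω | W ω ∈ hAtt σ i i u} *
        pr w {ω | W ω ∈ hAtt σ i' i' u'} :=
      mul_le_mul h1 h2 (by linarith) (by linarith)
    have h4 : (rc - ε) * (sc - ε) = rc * sc - ε * (rc + sc) + ε * ε := by ring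
    have h5 : ε * (rc + sc) ≤ ε * 2 := mul_le_mul_of_nonneg_left hsum hε0
    have h6 : 0 ≤ ε * ε := mul_nonneg hε0 hε0
    linarith
  -- the closed hub edge
  have hC : pr w {ω | ¬ (W ω).Adj (hub i) (hub i')} ≤ 1 - pc := by
    have h1 := pr_compl hw {ω | (W ω).Adj (hub i) (hub i')}
    have h2 := h.hubVert i i' hL
    have h3 : {ω | (W ω).Adj (hub i) (hub i')}ᶜ = {ω | ¬ (W ω).Adj (hub i) (hub i')} := rfl
    rw [h3] at h1
    linarith
  -- open hub edge with both attached is rare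
  have hopen : pr w {ω | (W ω ∈ hAtt σ i i u ∧ W ω ∈ hAtt σ i' i' u') ∧
      (W ω).Adj (hub i) (hub i')} ≤ η + ε := by
    refine le_trans (pr_mono hw (U' := {ω | ¬ GoodG (dl pc) σ (prG i i' (W ω))} ∪
      {ω | W ω ∈ LkL σ i i' 0}) ?_) ((pr_union_le hw _ _).trans (add_le_add (hσ.good i i' hL) hlk))
    rintro ω ⟨⟨h1, h2⟩, h3⟩
    by_cases hg : GoodG (dl pc) σ (prG i i' (W ω))
    · exact Or.inr (lk_of_hubs hm h σ ω hg huu h1 h2 h3 0)
    · exact Or.inl hg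
  have e1 := pr_inter_add_diff (w := w) {ω | W ω ∈ hAtt σ i i u ∧ W ω ∈ hAtt σ i' i' u'}
    {ω | (W ω).Adj (hub i) (hub i')}
  have e2 := pr_inter_add_diff (w := w) {ω | ¬ (W ω).Adj (hub i) (hub i')}
    {ω | W ω ∈ hAtt σ i i u ∧ W ω ∈ hAtt σ i' i' u'}
  have e3 : pr w ({ω | W ω ∈ hAtt σ i i u ∧ W ω ∈ hAtt σ i' i' u'} \
      {ω | (W ω).Adj (hub i) (hub i')}) ≤ pr w ({ω | ¬ (W ω).Adj (hub i) (hub i')} ∩
      {ω | W ω ∈ hAtt σ i i u ∧ W ω ∈ hAtt σ i' i' u'}) :=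
    pr_mono hw (fun ω hω => ⟨hω.2, hω.1⟩)
  have e4 : pr w ({ω | W ω ∈ hAtt σ i i u ∧ W ω ∈ hAtt σ i' i' u'} ∩
      {ω | (W ω).Adj (hub i) (hub i')}) ≤ η + ε := hopen
  have e5 : pr w {ω | ¬ (W ω).Adj (hub i) (hub i') ∧
      ¬ (W ω ∈ hAtt σ i i u ∧ W ω ∈ hAtt σ i' i' u')} =
      pr w ({ω | ¬ (W ω).Adj (hub i) (hub i')} \
        {ω | W ω ∈ hAtt σ i i u ∧ W ω ∈ hAtt σ i' i' u'}) := rfl
  rw [e5]
  linarith


end Pool.Agent.LP
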