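import Pool.Agent.LP.SSDefs
import Pool.Agent.OIP.SCoreL
import Pool.Agent.OIP.SCoreDep

/-!
# LP: pairs of layers of a layered sample law

Translation between the two-layer notions of OIP for `prG i i' G` and the layered notions, dependence sets of the
layered events, and the basic deterministic facts (see OIP/SCoreL.lean, OIP/SCoreDep.lean for the two-layer proofs).
-/

set_option autoImplicit false

open Finset
open scoped Classical

namespace Pool.Agent.LP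

open Pool.Agent.OIP

section pair

variable {Λ κ : Type}

theorem prMap_injective {i i' : Λ} (h : i ≠ i') : Function.Injective (prMap (κ := κ) i i') := by
  have hc : ∀ b c : Bool, cond b i' i = cond c i' i → b = c := by
    intro b c hbc
    cases b <;> cases c
    · rfl
    · exact absurd hbc h
    · exact absurd hbc.symm h
    · rfl
  rintro (a | b) (a' | b') hab
  · have h1 := Sum.inl.inj hab
    have h2 := congrArg Prod.fst h1
    have h3 := congrArg Prod.snd h1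
    have h4 : a = a' := Prod.ext (hc _ _ h2) h3
    rw [h4]
  · exact absurd hab (by rintro ⟨⟩)
  · exact absurd hab (by rintro ⟨⟩)
  · have h1 := Sum.inr.inj hab
    rw [hc _ _ h1]

private theorem spair_tr {G : SimpleGraph (LV Λ κ)} (hT : LTr G) (i i' : Λ) : Tr (prG i i' G) :=
  ⟨fun a b c hab hbc hac h1 h2 => hT.1 (cond a.1 i' i, a.2) (cond b.1 i' i, b.2) (cond c.1 i' i, c.2)
      hab hbc hac h1 h2,
    fun a b k hak hbk hab h1 h2 h3 => hT.2 (cond a.1 i' i, a.2) (cond b.1 i' i, b.2) i i' k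
      hak hbk hab h1 h2 h3⟩

private theorem spair_scnt {G H : SimpleGraph (LV Λ κ)} {a : Λ × κ} {i : Λ}
    {S : Finset κ} (h : ∀ k ∈ S, (G.Adj (leaf a) (leaf (i, k)) ↔ H.Adj (leaf a) (leaf (i, k)))) :
    scnt G a i S = scnt H a i S := by
  unfold scnt
  exact congrArg Finset.card (Finset.filter_congr fun k hk => and_congr_right fun _ => h k hk)

private theorem spair_dep {i i' : Λ} {A : Set (SV κ)} {U : Set (SimpleGraph (SV κ))} (hU : DepOn A U) :
    DepOn (prMap i i' '' A) {G : SimpleGraph (LV Λ κ) | prG i i' G ∈ U} :=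
  fun _ _ hGH => hU _ _ fun a ha b hb => hGH _ ⟨a, ha, rfl⟩ _ ⟨b, hb, rfl⟩

/-- two adjacent layers of a layered sample law form a two-layer sample law -/
theorem sampleLaw_prG {Ω : Type} [Fintype Ω] {L : SimpleGraph Λ} {p : ℝ} {w : Ω → ℝ}
    {W : Ω → SimpleGraph (LV Λ κ)} (h : LSample L p w W) {i i' : Λ} (hL : L.Adj i i') :
    SampleLaw p w (fun ω => prG i i' (W ω)) := by
  have hne : i ≠ i' := hL.ne
  refine ⟨⟨h.law, ?_, ?_, ?_, ?_, ?_, ?_⟩, fun ω => spair_tr (h.tr ω) i i'⟩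
  · intro A B hAB U U' hU hU'
    exact h.indep (prMap i i' '' A) (prMap i i' '' B)
      (Set.disjoint_image_of_injective (prMap_injective hne) hAB) _ _ (spair_dep hU) (spair_dep hU')
  · intro c k
    exact h.hubEdge (cond c i' i) k
  · intro k
    exact h.vert i i' hL k
  · exact h.hubVert i i' hL
  · intro ω c j k hjk h1 h2
    exact h.cross ω (cond c i' i) (cond c i' i) j k hjk h1 (Cn.refl _ _ _) h2
  · intro ω j k hjk h1 h2 h3
    exact h.cross ω i i' j k hjk h1 (Cn.of_adj h2 ⟨i, rfl⟩ ⟨i', rfl⟩) h3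

theorem cnt_prG (i i' : Λ) (G : SimpleGraph (LV Λ κ)) (a : Bool × κ) (c : Bool) (S : Finset κ) :
    cnt (prG i i' G) a c S = scnt G (cond a.1 i' i, a.2) (cond c i' i) S := rfl

theorem mj_prG (i i' : Λ) (G : SimpleGraph (LV Λ κ)) (a : Bool × κ) (c : Bool) (S : Finset κ) :
    Mj (prG i i' G) a c S ↔ SMj G (cond a.1 i' i, a.2) (cond c i' i) S := Iff.rfl

theorem smj_common {G : SimpleGraph (LV Λ κ)} {a b : Λ × κ} {i : Λ} {S : Finset κ} (ha : SMj G a i S)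
    (hb : SMj G b i S) :
    ∃ k ∈ S, (k ≠ a.2 ∧ G.Adj (leaf a) (leaf (i, k))) ∧ (k ≠ b.2 ∧ G.Adj (leaf b) (leaf (i, k))) := by
  by_contra hcon
  push Not at hcon
  unfold SMj scnt at ha hb
  have hdis : Disjoint (S.filter (fun k => k ≠ a.2 ∧ G.Adj (leaf a) (leaf (i, k))))
      (S.filter (fun k => k ≠ b.2 ∧ G.Adj (leaf b) (leaf (i, k)))) := by
    rw [Finset.disjoint_left]
    intro k hk hk'
    rw [Finset.mem_filter] at hk hk'
    exact hcon k hk.1 hk.2 hk'.2.1 hk'.2.2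
  have h2 : ((S.filter (fun k => k ≠ a.2 ∧ G.Adj (leaf a) (leaf (i, k)))) ∪
      (S.filter (fun k => k ≠ b.2 ∧ G.Adj (leaf b) (leaf (i, k))))).card ≤ S.card :=
    Finset.card_le_card (Finset.union_subset (Finset.filter_subset _ _) (Finset.filter_subset _ _))
  rw [Finset.card_union_of_disjoint hdis] at h2
  omega

theorem smj_of_adj {G : SimpleGraph (LV Λ κ)} (hT : LTr G) {a b : Λ × κ} (hab : a.2 ≠ b.2)
    (h : G.Adj (leaf a) (leaf b)) {i : Λ} {S : Finset κ} (haS : a.2 ∉ S) (hb : SMj G b i S) : SMj G a i S := by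
  unfold SMj scnt at hb ⊢
  refine lt_of_lt_of_le hb (Nat.mul_le_mul_left 2 (Finset.card_le_card ?_))
  intro k hk
  rw [Finset.mem_filter] at hk ⊢
  have hka : k ≠ a.2 := fun e => haS (e ▸ hk.1)
  exact ⟨hk.1, hka, hT.1 a b (i, k) hab (Ne.symm hk.2.1) hka.symm h hk.2.2⟩

theorem adj_of_smj {G : SimpleGraph (LV Λ κ)} (hT : LTr G) {a b : Λ × κ} (hab : a.2 ≠ b.2) {i : Λ}
    {S : Finset κ} (ha : SMj G a i S) (hb : SMj G b i S) : G.Adj (leaf a) (leaf b) := by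
  obtain ⟨k, _, ⟨hka, hadja⟩, ⟨hkb, hadjb⟩⟩ := smj_common ha hb
  exact hT.1 a (i, k) b hka.symm hkb hab hadja hadjb.symm

end pair

section blocks

variable {Λ : Type} {m : ℕ}

theorem hubOwn_false (σ : Equiv.Perm (I5 m)) (i i' : Λ) (u : Fin 5) (G : SimpleGraph (LV Λ (I5 m))) :
    prG i i' G ∈ hubOwn σ false u ↔ G ∈ hAtt σ i i u := Iff.rfl

theorem hubOwn_true (σ : Equiv.Perm (I5 m)) (i i' : Λ) (u : Fin 5) (G : SimpleGraph (LV Λ (I5 m))) :
    prG i i' G ∈ hubOwn σ true u ↔ G ∈ hAtt σ i' i' u := Iff.rfl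

theorem hubOth_false (σ : Equiv.Perm (I5 m)) (i i' : Λ) (u : Fin 5) (G : SimpleGraph (LV Λ (I5 m))) :
    prG i i' G ∈ hubOth σ false u ↔ G ∈ hOth σ i i' u := Iff.rfl

theorem hubOth_true (σ : Equiv.Perm (I5 m)) (i i' : Λ) (u : Fin 5) (G : SimpleGraph (LV Λ (I5 m))) :
    prG i i' G ∈ hubOth σ true u ↔ G ∈ hOth σ i' i u := Iff.rfl

theorem leafOwn_false (σ : Equiv.Perm (I5 m)) (i i' : Λ) (u : Fin 5) (j : I5 m) (G : SimpleGraph (LV Λ (I5 m))) :
    prG i i' G ∈ leafOwn σ false u j ↔ G ∈ lAtt σ i i u j := Iff.rfl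

theorem leafOwn_true (σ : Equiv.Perm (I5 m)) (i i' : Λ) (u : Fin 5) (j : I5 m) (G : SimpleGraph (LV Λ (I5 m))) :
    prG i i' G ∈ leafOwn σ true u j ↔ G ∈ lAtt σ i' i' u j := Iff.rfl

theorem leafOth_false (σ : Equiv.Perm (I5 m)) (i i' : Λ) (u : Fin 5) (j : I5 m) (G : SimpleGraph (LV Λ (I5 m))) :
    prG i i' G ∈ leafOth σ false u j ↔ G ∈ lOth σ i i' u j := Iff.rfl

theorem leafOth_true (σ : Equiv.Perm (I5 m)) (i i' : Λ) (u : Fin 5) (j : I5 m) (G : SimpleGraph (LV Λ (I5 m))) :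
    prG i i' G ∈ leafOth σ true u j ↔ G ∈ lOth σ i' i u j := Iff.rfl

theorem lkE_iff (σ : Equiv.Perm (I5 m)) (i i' : Λ) (u : Fin 5) (G : SimpleGraph (LV Λ (I5 m))) :
    prG i i' G ∈ LkE σ u ↔ G ∈ LkL σ i i' u := Iff.rfl

theorem hubErr_swap {Ω : Type} [Fintype Ω] (w : Ω → ℝ) (W : Ω → SimpleGraph (LV Λ (I5 m)))
    (σ : Equiv.Perm (I5 m)) (i i' : Λ) (u : Fin 5) (t : Fin m) :
    hubErr w (fun ω => prG i i' (W ω)) σ true u t = hubErr w (fun ω => prG i' i (W ω)) σ false u t := rfl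

theorem blk_bp (σ : Equiv.Perm (I5 m)) (τ : Equiv.Perm (Fin 5)) (u : Fin 5) :
    blk (σ * bp τ) u = blk σ (τ u) := rfl

theorem bp_apply (σ : Equiv.Perm (I5 m)) (τ : Equiv.Perm (Fin 5)) (u : Fin 5) (t : Fin m) :
    (σ * bp τ : Equiv.Perm (I5 m)) (u, t) = σ (τ u, t) := rfl

theorem hAny_bp (σ : Equiv.Perm (I5 m)) (τ : Equiv.Perm (Fin 5)) (i : Λ) (u : Fin 5) :
    hAny (σ * bp τ) i u = hAny σ i (τ u) := by
  unfold hAny
  rw [blk_bp]

theorem hAtt_bp (σ : Equiv.Perm (I5 m)) (τ : Equiv.Perm (Fin 5)) (i i' : Λ) (u : Fin 5) :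
    hAtt (σ * bp τ) i i' u = hAtt σ i i' (τ u) := by
  unfold hAtt
  rw [blk_bp]

theorem hOth_bp (σ : Equiv.Perm (I5 m)) (τ : Equiv.Perm (Fin 5)) (i i' : Λ) (u : Fin 5) :
    hOth (σ * bp τ) i i' u = hOth σ i i' (τ u) := by
  unfold hOth
  rw [hAtt_bp, hAtt_bp]

theorem lAtt_bp (σ : Equiv.Perm (I5 m)) (τ : Equiv.Perm (Fin 5)) (i i' : Λ) (u : Fin 5) (j : I5 m) :
    lAtt (σ * bp τ) i i' u j = lAtt σ i i' (τ u) j := by
  unfold lAtt
  rw [blk_bp]

theorem lOth_bp (σ : Equiv.Perm (I5 m)) (τ : Equiv.Perm (Fin 5)) (i i' : Λ) (u : Fin 5) (j : I5 m) :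
    lOth (σ * bp τ) i i' u j = lOth σ i i' (τ u) j := by
  unfold lOth
  rw [lAtt_bp, lAtt_bp]

theorem lkL_bp (σ : Equiv.Perm (I5 m)) (τ : Equiv.Perm (Fin 5)) (i i' : Λ) (u : Fin 5) :
    LkL (σ * bp τ) i i' u = LkL σ i i' (τ u) := by
  unfold LkL
  rw [blk_bp]

/-- blocks may be exchanged for leaves of the two layers -/
theorem smj_blk {σ : Equiv.Perm (I5 m)} {i i' : Λ} {G : SimpleGraph (LV Λ (I5 m))}
    (hG : GoodG (dl pc) σ (prG i i' G)) {a : Λ × I5 m} (ha : a.1 = i ∨ a.1 = i') {c : Λ} (hc : c = i ∨ c = i')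
    (u v : Fin 5) : SMj G a c (blk σ u) ↔ SMj G a c (blk σ v) := by
  obtain ⟨x, j⟩ := a
  simp only at ha
  rcases ha with rfl | rfl <;> rcases hc with rfl | rfl
  · exact hG.1 (false, j) false u v
  · exact hG.1 (false, j) true u v
  · exact hG.1 (true, j) false u v
  · exact hG.1 (true, j) true u v

private theorem spair_swap {σ : Equiv.Perm (I5 m)} {i i' : Λ} {G : SimpleGraph (LV Λ (I5 m))} {δ : ℝ}
    (h : GoodG δ σ (prG i i' G)) : GoodG δ σ (prG i' i G) := by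
  refine ⟨?_, ?_⟩
  · rintro ⟨x, j⟩ c u v
    cases x <;> cases c
    · exact h.1 (true, j) true u v
    · exact h.1 (true, j) false u v
    · exact h.1 (false, j) true u v
    · exact h.1 (false, j) false u v
  · intro c u
    cases c
    · exact h.2 true u
    · exact h.2 false u

theorem good_swap {σ : Equiv.Perm (I5 m)} {i i' : Λ} {G : SimpleGraph (LV Λ (I5 m))} {δ : ℝ} :
    GoodG δ σ (prG i i' G) ↔ GoodG δ σ (prG i' i G) := ⟨spair_swap, spair_swap⟩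

theorem good_bp {σ : Equiv.Perm (I5 m)} (τ : Equiv.Perm (Fin 5)) {G : SimpleGraph (SV (I5 m))} {δ : ℝ}
    (hG : GoodG δ σ G) : GoodG δ (σ * bp τ) G :=
  ⟨fun a i u v => hG.1 a i (τ u) (τ v), fun i u => hG.2 i (τ u)⟩

theorem dv_bp {σ : Equiv.Perm (I5 m)} (τ : Equiv.Perm (Fin 5)) {G : SimpleGraph (SV (I5 m))} {δ : ℝ}
    (hG : Dv δ (σ * bp τ) G) : Dv δ σ G := by
  obtain ⟨i, j, u, v, h⟩ := hG
  exact ⟨i, j, τ u, τ v, h⟩

theorem lkL_swap (σ : Equiv.Perm (I5 m)) {i i' : Λ} {G : SimpleGraph (LV Λ (I5 m))} (hm : 4 ≤ m) (hT : LTr G)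
    (hG : GoodG (dl pc) σ (prG i i' G)) (u : Fin 5) (h : G ∈ LkL σ i i' u) (v : Fin 5) : G ∈ LkL σ i' i v := by
  have hδ : 0 ≤ dl pc := by
    unfold dl pc
    have h3 : Real.sqrt 3 < 7 / 4 := by
      rw [Real.sqrt_lt' (by norm_num)]
      norm_num
    linarith
  obtain ⟨k, _, h1, h2⟩ := h
  exact L3 hδ hm (spair_tr hT i' i) (good_swap.1 hG) (true, k) u h2 h1 v

private theorem spair_diff {V : Type*} {A : Set V} {U U' : Set (SimpleGraph V)}
    (h : DepOn A U) (h' : DepOn A U') : DepOn A (U \ U') :=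
  fun G H hGH => and_congr (h G H hGH) (not_congr (h' G H hGH))

private theorem spair_ex {V ι : Type*} {A : Set V} {S : Finset ι}
    {U : ι → Set (SimpleGraph V)} (h : ∀ k ∈ S, DepOn A (U k)) :
    DepOn A {G | ∃ k ∈ S, G ∈ U k} :=
  fun G H hGH => exists_congr fun k => and_congr_right fun hk => h k hk G H hGH

private theorem spair_mem {S : Finset (I5 m)} {k : I5 m} (hk : k ∈ S) (i : Λ) :
    (leaf (i, k) : LV Λ (I5 m)) ∈ VSL Λ S := ⟨i, k, hk, rfl⟩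

theorem depOn_SMj (a : Λ × I5 m) (i : Λ) (S : Finset (I5 m)) :
    DepOn (VSL Λ S ∪ {leaf a}) {G : SimpleGraph (LV Λ (I5 m)) | SMj G a i S} := by
  intro G H hGH
  have h : scnt G a i S = scnt H a i S := spair_scnt fun k hk =>
    hGH (leaf a) (Or.inr rfl) (leaf (i, k)) (Or.inl (spair_mem hk i))
  change S.card < 2 * scnt G a i S ↔ S.card < 2 * scnt H a i S
  rw [h]

private theorem spair_SMjIn {S : Finset (I5 m)} {k : I5 m} (hk : k ∈ S) (i i' : Λ) :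
    DepOn (VSL Λ S) {G : SimpleGraph (LV Λ (I5 m)) | SMj G (i, k) i' S} := by
  refine (depOn_SMj (i, k) i' S).mono ?_
  rintro v (hv | hv)
  · exact hv
  · rw [Set.mem_singleton_iff] at hv
    rw [hv]
    exact spair_mem hk i

private theorem spair_hub {S : Finset (I5 m)} {k : I5 m} (hk : k ∈ S) (i : Λ) :
    DepOn (VSL Λ S ∪ {hub i}) {G : SimpleGraph (LV Λ (I5 m)) | G.Adj (hub i) (leaf (i, k))} :=
  depOn_adj (Or.inr rfl) (Or.inl (spair_mem hk i))

theorem depOn_hAny (σ : Equiv.Perm (I5 m)) (i : Λ) (u : Fin 5) :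
    DepOn (VSL Λ (blk σ u) ∪ {hub i}) (hAny σ i u) :=
  spair_ex fun _ hk => spair_hub hk i

theorem depOn_hAtt (σ : Equiv.Perm (I5 m)) (i i' : Λ) (u : Fin 5) :
    DepOn (VSL Λ (blk σ u) ∪ {hub i}) (hAtt σ i i' u) :=
  spair_ex fun _ hk => (spair_hub hk i).inter ((spair_SMjIn hk i i').mono Set.subset_union_left)

theorem depOn_hOth (σ : Equiv.Perm (I5 m)) (i i' : Λ) (u : Fin 5) :
    DepOn (VSL Λ (blk σ u) ∪ {hub i}) (hOth σ i i' u) :=
  spair_diff (depOn_hAtt σ i i' u) (depOn_hAtt σ i i u)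

theorem depOn_lAtt (σ : Equiv.Perm (I5 m)) (i i' : Λ) (u : Fin 5) (j : I5 m) :
    DepOn (VSL Λ (blk σ u) ∪ {leaf (i, j)}) (lAtt σ i i' u j) :=
  depOn_SMj (i, j) i' (blk σ u)

theorem depOn_lOth (σ : Equiv.Perm (I5 m)) (i i' : Λ) (u : Fin 5) (j : I5 m) :
    DepOn (VSL Λ (blk σ u) ∪ {leaf (i, j)}) (lOth σ i i' u j) :=
  spair_diff (depOn_lAtt σ i i' u j) (depOn_lAtt σ i i u j)

theorem depOn_LkL (σ : Equiv.Perm (I5 m)) (i i' : Λ) (u : Fin 5) :
    DepOn (VSL Λ (blk σ u)) (LkL σ i i' u) :=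
  spair_ex fun _ hk => (spair_SMjIn hk i i).inter (spair_SMjIn hk i i')

end blocks

end Pool.Agent.LP
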