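import Pool.Agent.LP.SBDefs
import Pool.Agent.OIP.SCoreDefs

/-!
# LP: layered sample laws, definitions

Index set `I5 m = Fin 5 × Fin m`, relabelling `σ`, blocks `blk σ u` as in OIP.  `prG i i' G` is the two-layer graph
of the layers `i` (= `false`) and `i'` (= `true`).
-/

set_option autoImplicit false

open Finset
open scoped Classical

namespace Pool.Agent.LP

open Pool.Agent.OIP

noncomputable section

/-- `√pc = √3 - 1` -/
def rc : ℝ := Real.sqrt 3 - 1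

section

variable {Λ κ : Type}

/-- embedding of the two-layer star of the layers `i`, `i'` -/
def prMap (i i' : Λ) : SV κ → LV Λ κ
  | Sum.inl a => leaf (cond a.1 i' i, a.2)
  | Sum.inr b => hub (cond b i' i)

def prG (i i' : Λ) (G : SimpleGraph (LV Λ κ)) : SimpleGraph (SV κ) := G.comap (prMap i i')

/-- number of `k ∈ S`, `k ≠ a.2`, such that `a` is adjacent to the leaf `(i, k)` -/
def scnt (G : SimpleGraph (LV Λ κ)) (a : Λ × κ) (i : Λ) (S : Finset κ) : ℕ :=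
  (S.filter (fun k => k ≠ a.2 ∧ G.Adj (leaf a) (leaf (i, k)))).card

/-- the leaf `a` is adjacent to the majority of the leaves of layer `i` with index in `S` -/
def SMj (G : SimpleGraph (LV Λ κ)) (a : Λ × κ) (i : Λ) (S : Finset κ) : Prop :=
  S.card < 2 * scnt G a i S

variable [Fintype κ]

/-- sample version of `Nice` -/
def NiceS (L : SimpleGraph Λ) (δ : ℝ) (U : Λ → Λ → Prop) (G : SimpleGraph (LV Λ κ)) : Prop :=
  (∀ i, ∃ a : Λ × κ, (1 / 2 + δ) * (Fintype.card κ : ℝ) ≤ (scnt G a i Finset.univ : ℝ)) ∧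
  ∀ i i', L.Adj i i' → ¬ U i i' → ∃ a : Λ × κ,
    (1 / 2 + δ) * (Fintype.card κ : ℝ) ≤ (scnt G a i Finset.univ : ℝ) ∧
    (1 / 2 + δ) * (Fintype.card κ : ℝ) ≤ (scnt G a i' Finset.univ : ℝ)

/-- sample version of `MNum` -/
structure SNum (ε : ℝ) (Q : Set (SimpleGraph (LV Λ κ)) → ℝ) (i i' : Λ) (j j' : κ) : Prop where
  ne : j ≠ j'
  a1 : sc * (1 - sc) - ε ≤ Q {G | SMj G (i, j) i Finset.univ ∧ SMj G (i, j') i' Finset.univ}
  a2 : Q {G | ¬ SMj G (i, j) i' Finset.univ ∧ ¬ SMj G (i, j') i Finset.univ} ≤ sc * (1 - sc) + ε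
  b : sc * (sc * (1 - sc)) - ε ≤ Q {G | SMj G (i, j) i Finset.univ ∧ SMj G (i, j') i' Finset.univ ∧
    G.Adj (hub i) (leaf (i, j))}
  c : (1 - sc) * (sc * (1 - sc)) - ε ≤ Q {G | SMj G (i, j) i Finset.univ ∧ SMj G (i, j') i' Finset.univ ∧
    G.Adj (hub i) (leaf (i, j'))}
  d : Q {G | ¬ SMj G (i, j') i Finset.univ ∧ G.Adj (hub i) (leaf (i, j')) ∧ ¬ G.Adj (hub i) (hub i')} ≤ ε

/-- output of the theory of sample laws -/
structure SampOut (L : SimpleGraph Λ) (δ ε : ℝ) (Q : Set (SimpleGraph (LV Λ κ)) → ℝ) (U : Λ → Λ → Prop)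
    (P : Λ → Prop) : Prop where
  rules : Rules L U P
  nice : Q {G | ¬ NiceS L δ U G} ≤ ε
  pend : ∀ i i', U i i' → P i → 1 - rc - ε ≤ Q {G | 200 * hdeg G i ≤ Fintype.card κ}
  mend : ∀ i i', U i i' → ¬ P i → Q {G | 4 * hdeg G i ≤ Fintype.card κ} ≤ ε
  mnum : ∀ i i', U i i' → ¬ P i → ∃ j j', SNum ε Q i i' j j'

end

section

variable {Λ : Type} {m : ℕ}

/-- permutation of the blocks -/
def bp (τ : Equiv.Perm (Fin 5)) : Equiv.Perm (I5 m) := Equiv.prodCongr τ (Equiv.refl _)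

/-- the hub `i` is joined to some leaf of block `u` -/
def hAny (σ : Equiv.Perm (I5 m)) (i : Λ) (u : Fin 5) : Set (SimpleGraph (LV Λ (I5 m))) :=
  {G | ∃ k ∈ blk σ u, G.Adj (hub i) (leaf (i, k))}

/-- the hub `i` is joined to a leaf of block `u` which is attached to the majority class of layer `i'` -/
def hAtt (σ : Equiv.Perm (I5 m)) (i i' : Λ) (u : Fin 5) : Set (SimpleGraph (LV Λ (I5 m))) :=
  {G | ∃ k ∈ blk σ u, G.Adj (hub i) (leaf (i, k)) ∧ SMj G (i, k) i' (blk σ u)}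

/-- the leaf `(i, j)` is attached to the majority class of layer `i'`, seen from block `u` -/
def lAtt (σ : Equiv.Perm (I5 m)) (i i' : Λ) (u : Fin 5) (j : I5 m) : Set (SimpleGraph (LV Λ (I5 m))) :=
  {G | SMj G (i, j) i' (blk σ u)}

/-- attached to the majority class of `i'` but not to that of `i` -/
def hOth (σ : Equiv.Perm (I5 m)) (i i' : Λ) (u : Fin 5) : Set (SimpleGraph (LV Λ (I5 m))) :=
  hAtt σ i i' u \ hAtt σ i i u

def lOth (σ : Equiv.Perm (I5 m)) (i i' : Λ) (u : Fin 5) (j : I5 m) : Set (SimpleGraph (LV Λ (I5 m))) :=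
  lAtt σ i i' u j \ lAtt σ i i u j

/-- the majority classes of layers `i` and `i'` are joined, seen inside block `u` -/
def LkL (σ : Equiv.Perm (I5 m)) (i i' : Λ) (u : Fin 5) : Set (SimpleGraph (LV Λ (I5 m))) :=
  {G | ∃ k ∈ blk σ u, SMj G (i, k) i (blk σ u) ∧ SMj G (i, k) i' (blk σ u)}

/-- all leaves with index in `S` -/
def VSL (Λ : Type) {κ : Type} (S : Finset κ) : Set (LV Λ κ) := {v | ∃ i : Λ, ∃ k ∈ S, v = leaf (i, k)}

variable {Ω : Type} [Fintype Ω]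

/-- the relabelling `σ` is good up to `η` for the law -/
structure GoodSig (L : SimpleGraph Λ) (η : ℝ) (w : Ω → ℝ) (W : Ω → SimpleGraph (LV Λ (I5 m)))
    (σ : Equiv.Perm (I5 m)) : Prop where
  good : ∀ i i', L.Adj i i' → pr w {ω | ¬ GoodG (dl pc) σ (prG i i' (W ω))} ≤ η
  dev : ∀ i i', L.Adj i i' → pr w {ω | Dv (dl pc) σ (prG i i' (W ω))} ≤ η
  herr : ∀ (τ : Equiv.Perm (Fin 5)) (i i' : Λ), L.Adj i i' → ∀ u : Fin 5, u ≠ 4 →
    avg (fun t : Fin m => hubErr w (fun ω => prG i i' (W ω)) (σ * bp τ) false u t) ≤ η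

/-- near DFH: layer `i` is the P end, layer `i'` the M end of the unlinked pair `i, i'` -/
structure PM (ε : ℝ) (w : Ω → ℝ) (W : Ω → SimpleGraph (LV Λ (I5 m))) (σ : Equiv.Perm (I5 m)) (i i' : Λ) :
    Prop where
  own : ∀ u, |pr w {ω | W ω ∈ hAtt σ i i u} - rc| ≤ ε
  non : ∀ u, pr w {ω | W ω ∈ hAny σ i u ∧ W ω ∉ hAtt σ i i u} ≤ ε
  own' : ∀ u, |pr w {ω | W ω ∈ hAtt σ i' i' u} - sc| ≤ ε
  oth' : ∀ u, |pr w {ω | W ω ∈ hOth σ i' i u} - (1 - sc)| ≤ ε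
  lown : ∀ v x : Fin 5, v ≠ x → avg (fun t : Fin m => |pr w {ω | W ω ∈ lAtt σ i i v (σ (x, t))} - rc|) ≤ ε
  lown' : ∀ v x : Fin 5, v ≠ x → avg (fun t : Fin m => |pr w {ω | W ω ∈ lAtt σ i' i' v (σ (x, t))} - sc|) ≤ ε
  loth' : ∀ v x : Fin 5, v ≠ x →
    avg (fun t : Fin m => |pr w {ω | W ω ∈ lOth σ i' i v (σ (x, t))} - (1 - sc)|) ≤ ε
  closed : ∀ u u' : Fin 5, u ≠ u' → pr w {ω | ¬ (W ω).Adj (hub i) (hub i') ∧
    ¬ (W ω ∈ hAtt σ i i u ∧ W ω ∈ hAtt σ i' i' u')} ≤ ε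
  open0 : ∀ u x : Fin 5, u ≠ x → avg (fun t : Fin m => pr w {ω | (W ω).Adj (hub i) (leaf (i, σ (x, t))) ∧
    W ω ∉ hAtt σ i i u}) ≤ ε
  open1 : ∀ u v x : Fin 5, u ≠ v → u ≠ x → v ≠ x → avg (fun t : Fin m =>
    pr w {ω | W ω ∈ hAtt σ i' i' u ∧ W ω ∈ lAtt σ i' i' v (σ (x, t)) ∧
      ¬ (W ω).Adj (hub i') (leaf (i', σ (x, t)))}) ≤ ε
  open2 : ∀ u v x : Fin 5, u ≠ v → u ≠ x → v ≠ x → avg (fun t : Fin m =>
    pr w {ω | W ω ∈ hOth σ i' i u ∧ W ω ∈ lOth σ i' i v (σ (x, t)) ∧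
      ¬ (W ω).Adj (hub i') (leaf (i', σ (x, t)))}) ≤ ε

end

end

end Pool.Agent.LP
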