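import Pool.Agent.LP.SSSamp

/-!
# LP, Part I.a: assembly, definitions

`TypS` : the sample `σ` is typical (its law has an output `U`, `P`); `US σ`, `PS σ` : chosen output; `UN`, `PN` : relation
and types of the star; `SetS` : the standing assumptions.
-/

set_option autoImplicit false

open Finset
open scoped Classical

namespace Pool.Agent.LP.SS

open Pool.Agent.OIP

noncomputable section

section

variable {Λ : Type} [Fintype Λ] [DecidableEq Λ] {κ : Type} [Fintype κ] {n : ℕ} {Ω : Type} [Fintype Ω]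

/-- the law of the sample `σ` has the output `U`, `P` -/
def TypS (L : SimpleGraph Λ) (ρ : ℝ) (w : Ω → ℝ) (W : Ω → SimpleGraph (LV Λ (Fin n))) (e : κ → Fin n)
    (P0 : Finset (Fin n)) (σ : Equiv.Perm (Fin n)) (U : Λ → Λ → Prop) (P : Λ → Prop) : Prop :=
  SampOut L (1 / 500) (1 / 4) ρ (fun A => pr w {ω | sampG σ e P0 (W ω) ∈ A}) U P

/-- the sample is typical -/
def TS (L : SimpleGraph Λ) (ρ : ℝ) (w : Ω → ℝ) (W : Ω → SimpleGraph (LV Λ (Fin n))) (e : κ → Fin n)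
    (P0 : Finset (Fin n)) (σ : Equiv.Perm (Fin n)) : Prop := ∃ U P, TypS L ρ w W e P0 σ U P

def US (L : SimpleGraph Λ) (ρ : ℝ) (w : Ω → ℝ) (W : Ω → SimpleGraph (LV Λ (Fin n))) (e : κ → Fin n)
    (P0 : Finset (Fin n)) (σ : Equiv.Perm (Fin n)) : Λ → Λ → Prop :=
  if h : TS L ρ w W e P0 σ then h.choose else fun _ _ => False

def PS (L : SimpleGraph Λ) (ρ : ℝ) (w : Ω → ℝ) (W : Ω → SimpleGraph (LV Λ (Fin n))) (e : κ → Fin n)
    (P0 : Finset (Fin n)) (σ : Equiv.Perm (Fin n)) : Λ → Prop :=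
  if h : TS L ρ w W e P0 σ then h.choose_spec.choose else fun _ => False

theorem typS_US {L : SimpleGraph Λ} {ρ : ℝ} {w : Ω → ℝ} {W : Ω → SimpleGraph (LV Λ (Fin n))} {e : κ → Fin n}
    {P0 : Finset (Fin n)} {σ : Equiv.Perm (Fin n)} (h : TS L ρ w W e P0 σ) :
    TypS L ρ w W e P0 σ (US L ρ w W e P0 σ) (PS L ρ w W e P0 σ) := by
  unfold US PS
  rw [dif_pos h, dif_pos h]
  exact h.choose_spec.choose_spec

/-- unlinked pairs of the star: unlinked in at least 9/10 of the samples -/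
def UN (L : SimpleGraph Λ) (ρ : ℝ) (w : Ω → ℝ) (W : Ω → SimpleGraph (LV Λ (Fin n))) (e : κ → Fin n)
    (P0 : Finset (Fin n)) (i i' : Λ) : Prop :=
  L.Adj i i' ∧ 9 / 10 ≤ avg (fun σ : Equiv.Perm (Fin n) =>
    ind (TS L ρ w W e P0 σ ∧ US L ρ w W e P0 σ i i'))

/-- types of the star -/
def PN (w : Ω → ℝ) (W : Ω → SimpleGraph (LV Λ (Fin n))) (i : Λ) : Prop :=
  1 / 5 ≤ pr w {ω | 100 * hdeg (W ω) i ≤ n}

/-- standing assumptions -/
structure SetS [DecidableEq κ] (L : SimpleGraph Λ) (ρ : ℝ) (w : Ω → ℝ) (W : Ω → SimpleGraph (LV Λ (Fin n)))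
    (e : κ → Fin n) (P0 : Finset (Fin n)) : Prop where
  star : LStar L pc w W
  inj : Function.Injective e
  k1 : 1 ≤ Fintype.card κ
  rep : 2 * (Fintype.card Λ : ℝ) / ((1 / 1000) ^ 2 * (Fintype.card κ : ℝ)) ≤ ρ
  typ : avg (fun σ : Equiv.Perm (Fin n) => ind (¬ TS L ρ w W e P0 σ)) ≤ ρ
  pos : 0 < ρ
  small : ρ ≤ 1 / 100000

end

end

end Pool.Agent.LP.SS
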