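import Pool.Agent.LP.SXDefs

/-!
# LP, samples of a star: near sample laws

Port of `OIP.BNear` (`nearSample_of`) to layered stars: outside `badS` the sampled graphs for `P0`, `P1`, `P2` coincide,
those for `P1`, `P2` depend on disjoint sets of leaves (`near_indepL` with `P = Set.univ`); hub edges and vertical edges
are those of the star; `cross` is exact (a path leaf - hubs - leaf gives an edge between the leaves, hence adjacency in
the sample; the hub column of the sample is the hub column of the star); transitivity holds outside `badS` (the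
connection through the leaf `(i, k)`, resp. through `(i, k)`, `(i', k)`, uses only `P0 ∪ P1 ∪ P2 ∪ {e k}`).
-/

set_option autoImplicit false

open Finset
open scoped Classical

namespace Pool.Agent.LP.SS

open Pool.Agent.OIP

theorem ssnear_leafRL_mono {Λ : Type} {n : ℕ} (σ : Equiv.Perm (Fin n)) {P Q : Finset (Fin n)} (h : P ⊆ Q) :
    (leafRL σ P : Set (LV Λ (Fin n))) ⊆ leafRL σ Q := by
  rintro v ⟨i, q, hq, rfl⟩
  exact ⟨i, q, h hq, rfl⟩

theorem ssnear_leafRL_disjoint {Λ : Type} {n : ℕ} (σ : Equiv.Perm (Fin n)) {P Q : Finset (Fin n)}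
    (h : Disjoint P Q) : Disjoint (leafRL σ P : Set (LV Λ (Fin n))) (leafRL σ Q) := by
  rw [Set.disjoint_left]
  rintro v ⟨i, q, hq, rfl⟩ ⟨j, r, hr, hv⟩
  have h1 : (i, σ q) = (j, σ r) := Sum.inl.inj hv
  have h2 : σ q = σ r := congrArg Prod.snd h1
  have h3 : q = r := σ.injective h2
  subst h3
  exact Finset.disjoint_left.1 h hq hr

theorem ssnear_disjoint_range {Λ κ : Type} [Fintype κ] [DecidableEq κ] {n : ℕ} (e : κ → Fin n)
    (σ : Equiv.Perm (Fin n)) {P : Finset (Fin n)} (h : Disjoint P (Finset.univ.image e)) :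
    Disjoint (leafRL σ P : Set (LV Λ (Fin n))) (Set.range (posS σ e)) := by
  rw [Set.disjoint_left]
  rintro v ⟨i, q, hq, rfl⟩ ⟨s, hs⟩
  rcases s with a | j
  · have h1 : (a.1, σ (e a.2)) = (i, σ q) := Sum.inl.inj hs
    have h2 : σ (e a.2) = σ q := congrArg Prod.snd h1
    have h3 : e a.2 = q := σ.injective h2
    subst h3
    exact Finset.disjoint_left.1 h hq (Finset.mem_image_of_mem _ (Finset.mem_univ _))
  · exact absurd hs (by simp [posS, hub, leaf])

theorem ssnear_posS_injective {Λ κ : Type} {n : ℕ} (e : κ → Fin n) (he : Function.Injective e)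
    (σ : Equiv.Perm (Fin n)) : Function.Injective (posS (Λ := Λ) σ e) := by
  intro s t hst
  rcases s with a | i <;> rcases t with b | j
  · have h1 : (a.1, σ (e a.2)) = (b.1, σ (e b.2)) := Sum.inl.inj hst
    have h2 : a.1 = b.1 := (Prod.ext_iff.1 h1).1
    have h3 : a.2 = b.2 := he (σ.injective (Prod.ext_iff.1 h1).2)
    exact congrArg Sum.inl (Prod.ext h2 h3)
  · exact absurd hst (by simp [posS, hub, leaf])
  · exact absurd hst (by simp [posS, hub, leaf])
  · exact congrArg Sum.inr (Sum.inr.inj hst)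

/-- outside the bad event the sampled graphs for `P0 ∪ P1 ∪ P2` and for `P` have the same leaf pairs -/
theorem ssnear_sat {Λ κ : Type} {n : ℕ} {e : κ → Fin n} {σ : Equiv.Perm (Fin n)} {P0 P1 P2 : Finset (Fin n)}
    {G : SimpleGraph (LV Λ (Fin n))} (hG : ¬ badS σ e P0 P1 P2 G) {P : Finset (Fin n)}
    (hP : P = P0 ∨ P = P1 ∨ P = P2) {a b : Λ × κ} (hab : a.2 ≠ b.2) :
    (sampG σ e P G).Adj (leaf a) (leaf b) ↔ (sampG σ e (P0 ∪ P1 ∪ P2) G).Adj (leaf a) (leaf b) := by
  constructor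
  · intro h
    refine derL_mono (ssnear_leafRL_mono σ ?_) G h
    rcases hP with rfl | rfl | rfl
    · exact Finset.subset_union_left.trans Finset.subset_union_left
    · exact Finset.subset_union_right.trans Finset.subset_union_left
    · exact Finset.subset_union_right
  · intro h
    by_contra hn
    exact hG ⟨P, hP, a, b, hab, Or.inl h, hn⟩

theorem ssnear_eq {Λ κ : Type} {n : ℕ} {e : κ → Fin n} {σ : Equiv.Perm (Fin n)} {P0 P1 P2 : Finset (Fin n)}
    {G : SimpleGraph (LV Λ (Fin n))} (hG : ¬ badS σ e P0 P1 P2 G) {P Q : Finset (Fin n)}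
    (hP : P = P0 ∨ P = P1 ∨ P = P2) (hQ : Q = P0 ∨ Q = P1 ∨ Q = P2) :
    sampG σ e P G = sampG σ e Q G := by
  ext s t
  rcases s with a | i <;> rcases t with b | j
  · by_cases hab : a.2 = b.2
    · have h1 := derL_adj_same (x := posS σ e) (R := leafRL σ P) (G := G) (a := a) (b := b) hab
      have h2 := derL_adj_same (x := posS σ e) (R := leafRL σ Q) (G := G) (a := a) (b := b) hab
      exact h1.trans h2.symm
    · rw [ssnear_sat hG hP hab, ssnear_sat hG hQ hab]
  · exact Iff.rfl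
  · exact Iff.rfl
  · exact Iff.rfl

theorem ssnear_mem_single {Λ κ : Type} {n : ℕ} (e : κ → Fin n) (σ : Equiv.Perm (Fin n)) (P : Finset (Fin n))
    (i : Λ) (k : κ) : posS σ e (leaf (i, k)) ∈ leafRL σ (P ∪ {e k}) :=
  ⟨i, e k, Finset.mem_union_right _ (Finset.mem_singleton_self _), rfl⟩

/-- a connection inside the hubs of the sample is a connection inside the hubs of the star -/
theorem ssnear_hubs {Λ κ : Type} {n : ℕ} (σ : Equiv.Perm (Fin n)) (e : κ → Fin n) (P : Finset (Fin n))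
    (G : SimpleGraph (LV Λ (Fin n))) (i : Λ) {t : LV Λ κ}
    (h : Cn (sampG σ e P G) (Set.range Sum.inr) (hub i) t) :
    Cn G (Set.range Sum.inr) (hub i) (posS σ e t) := by
  induction h with
  | refl => exact Cn.refl _ _ _
  | tail _ hbc ih =>
    obtain ⟨hadj, ⟨j, rfl⟩, ⟨k, rfl⟩⟩ := hbc
    exact Cn.trans ih (Cn.of_adj hadj ⟨j, rfl⟩ ⟨k, rfl⟩)

theorem nearS_of {Λ κ : Type} [Fintype Λ] [DecidableEq Λ] [Fintype κ] [DecidableEq κ] {n : ℕ} (e : κ → Fin n)
    (he : Function.Injective e) {Ω : Type} [Fintype Ω] {w : Ω → ℝ} {W : Ω → SimpleGraph (LV Λ (Fin n))}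
    {L : SimpleGraph Λ} {p : ℝ} (h : LStar L p w W) {P0 P1 P2 : Finset (Fin n)} (h01 : Disjoint P0 P1)
    (h02 : Disjoint P0 P2) (h12 : Disjoint P1 P2) (h0 : Disjoint P0 (Finset.univ.image e))
    (h1 : Disjoint P1 (Finset.univ.image e)) (h2 : Disjoint P2 (Finset.univ.image e))
    (σ : Equiv.Perm (Fin n)) {η : ℝ} (hbad : pr w {ω | badS σ e P0 P1 P2 (W ω)} ≤ η) :
    NearS L (4 * η) p w (fun ω => sampG σ e P0 (W ω)) := by
  have hη : 0 ≤ η := (pr_nonneg h.law _).trans hbad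
  have hη4 : η ≤ 4 * η := by linarith
  have hzero : ∀ Q : Ω → Prop, (∀ ω, ¬ Q ω) → pr w {ω | Q ω} ≤ 4 * η := by
    intro Q hQ
    have : {ω | Q ω} = (∅ : Set Ω) := by
      ext ω
      simp [hQ ω]
    rw [this, pr_empty]
    linarith
  have hsub : ∀ Q : Ω → Prop, (∀ ω, Q ω → badS σ e P0 P1 P2 (W ω)) → pr w {ω | Q ω} ≤ η := by
    intro Q hQ
    exact (pr_mono h.law (fun ω hω => hQ ω hω)).trans hbad
  have hsub4 : ∀ Q : Ω → Prop, (∀ ω, Q ω → badS σ e P0 P1 P2 (W ω)) → pr w {ω | Q ω} ≤ 4 * η :=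
    fun Q hQ => (hsub Q hQ).trans hη4
  have hne : ∀ j k : κ, j ≠ k → σ (e j) ≠ σ (e k) := fun j k hjk heq => hjk (he (σ.injective heq))
  have hR0 : ∀ k : κ, (leafRL σ P0 : Set (LV Λ (Fin n))) ⊆ leafRL σ (P0 ∪ P1 ∪ P2 ∪ {e k}) := fun k =>
    ssnear_leafRL_mono σ ((Finset.subset_union_left.trans Finset.subset_union_left).trans
      Finset.subset_union_left)
  refine ⟨⟨h.law, ?_, ?_, ?_, ?_, ?_⟩, ?_, ?_⟩
  · -- independence
    intro A B hAB U U' hU hU'
    refine near_indepL (x := posS σ e) (R0 := leafRL σ P0) (R1 := leafRL σ P1) (R2 := leafRL σ P2) h.law Set.univ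
      (fun A B hAB _ _ U U' hU hU' => h.indep A B hAB U U' hU hU') (ssnear_posS_injective e he σ)
      (ssnear_leafRL_disjoint σ h12) (ssnear_disjoint_range e σ h1) (ssnear_disjoint_range e σ h2)
      (Set.subset_univ _) (Set.subset_univ _) (fun _ => Set.mem_univ _) ?_ ?_ hAB hU hU'
    · refine hsub (fun ω => sampG σ e P0 (W ω) ≠ sampG σ e P1 (W ω)) ?_
      intro ω hω
      by_contra hb
      exact hω (ssnear_eq hb (Or.inl rfl) (Or.inr (Or.inl rfl)))
    · refine hsub (fun ω => sampG σ e P0 (W ω) ≠ sampG σ e P2 (W ω)) ?_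
      intro ω hω
      by_contra hb
      exact hω (ssnear_eq hb (Or.inl rfl) (Or.inr (Or.inr rfl)))
  · intro i k
    exact h.hubEdge i (σ (e k))
  · intro i i' hii k
    have := h.vert i i' hii (σ (e k))
    refine this.trans (le_of_eq ?_)
    congr 1
    ext ω
    exact (derL_adj_same (x := posS σ e) (R := leafRL σ P0) (G := W ω) (a := (i, k)) (b := (i', k)) rfl).symm
  · exact h.hubVert
  · intro i i' j k hjk
    refine hzero (fun ω => (sampG σ e P0 (W ω)).Adj (hub i) (leaf (i, j)) ∧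
      Cn (sampG σ e P0 (W ω)) (Set.range Sum.inr) (hub i) (hub i') ∧
      (sampG σ e P0 (W ω)).Adj (hub i') (leaf (i', k)) ∧
      ¬ (sampG σ e P0 (W ω)).Adj (leaf (i, j)) (leaf (i', k))) ?_
    rintro ω ⟨ha, hb', hc, hd⟩
    refine hd ((derL_adj_leaf (x := posS σ e) (R := leafRL σ P0) (G := W ω) (a := (i, j)) (b := (i', k)) hjk).2 ?_)
    refine Cn.of_adj (h.cross ω i i' (σ (e j)) (σ (e k)) (hne j k hjk) ha
      (ssnear_hubs σ e P0 (W ω) i hb') hc) ?_ ?_
    · exact Or.inr (Or.inl rfl)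
    · exact Or.inr (Or.inr rfl)
  · intro a b c hab hbc hac
    refine hsub4 (fun ω => (sampG σ e P0 (W ω)).Adj (leaf a) (leaf b) ∧
      (sampG σ e P0 (W ω)).Adj (leaf b) (leaf c) ∧
      ¬ (sampG σ e P0 (W ω)).Adj (leaf a) (leaf c)) ?_
    rintro ω ⟨h1', h2', h3'⟩
    refine ⟨P0, Or.inl rfl, a, c, hac, Or.inr ⟨b.2, hab.symm, hbc, ?_⟩, h3'⟩
    rw [sampG, derL_adj_leaf hab] at h1'
    rw [sampG, derL_adj_leaf hbc] at h2'
    rw [sampG, derL_adj_leaf hac]
    have hb0 : posS σ e (leaf b) ∈ leafRL σ (P0 ∪ P1 ∪ P2 ∪ {e b.2}) := ssnear_mem_single e σ _ b.1 b.2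
    refine Cn.trans (h1'.mono ?_) (h2'.mono ?_)
    · rintro v (hv | hv | hv)
      · exact Or.inl (hR0 _ hv)
      · exact Or.inr (Or.inl hv)
      · rw [Set.mem_singleton_iff] at hv
        rw [hv]
        exact Or.inl hb0
    · rintro v (hv | hv | hv)
      · exact Or.inl (hR0 _ hv)
      · rw [hv]
        exact Or.inl hb0
      · exact Or.inr (Or.inr hv)
  · intro a b i i' k hak hbk hab
    refine hsub4 (fun ω => (sampG σ e P0 (W ω)).Adj (leaf a) (leaf (i, k)) ∧
      (sampG σ e P0 (W ω)).Adj (leaf (i, k)) (leaf (i', k)) ∧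
      (sampG σ e P0 (W ω)).Adj (leaf (i', k)) (leaf b) ∧
      ¬ (sampG σ e P0 (W ω)).Adj (leaf a) (leaf b)) ?_
    rintro ω ⟨h1', h2', h3', h4'⟩
    refine ⟨P0, Or.inl rfl, a, b, hab, Or.inr ⟨k, hak.symm, hbk.symm, ?_⟩, h4'⟩
    rw [sampG, derL_adj_leaf (a := a) (b := (i, k)) hak] at h1'
    rw [sampG, derL_adj_same (a := (i, k)) (b := (i', k)) rfl] at h2'
    rw [sampG, derL_adj_leaf (a := (i', k)) (b := b) hbk.symm] at h3'
    rw [sampG, derL_adj_leaf hab]
    have hk0 : ∀ i : Λ, posS σ e (leaf (i, k)) ∈ leafRL σ (P0 ∪ P1 ∪ P2 ∪ {e k}) := fun i =>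
      ssnear_mem_single e σ _ i k
    refine Cn.trans (h1'.mono ?_) (Cn.trans (Cn.of_adj h2' (Or.inl (hk0 i)) (Or.inl (hk0 i')))
      (h3'.mono ?_))
    · rintro v (hv | hv | hv)
      · exact Or.inl (hR0 _ hv)
      · exact Or.inr (Or.inl hv)
      · rw [Set.mem_singleton_iff] at hv
        rw [hv]
        exact Or.inl (hk0 i)
    · rintro v (hv | hv | hv)
      · exact Or.inl (hR0 _ hv)
      · rw [hv]
        exact Or.inl (hk0 i')
      · exact Or.inr (Or.inr hv)

end Pool.Agent.LP.SS
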