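import Pool.Agent.LP.SD1
import Pool.Agent.LP.SD2
import Pool.Agent.LP.SDeg
import Pool.Agent.LP.SNumS

/-!
# LP: main theorem for layered sample laws

Choose `ε₁ ≤ 1/10000` so small that `deg_P`, `deg_M`, `snum_of_pm` (for `ε`) work for it, then `η` by `pm_of_good ε₁`
(also `η ≤ ε₁`), then `m₀` by `goodSig_exists` for `(η/4)²` (so that `dich_sample` can be used with `η/4`), `m ≥ 4`,
`2 ≤ dl pc * m`.
`U i i' := L.Adj i i' ∧ (pr {LkL σ i i' 0} ≤ η / 4 ∨ pr {LkL σ i' i 0} ≤ η / 4)` (symmetric; by `lkL_symm` both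
probabilities are `≤ η`), `P i := 0.68 ≤ pr {W ∈ hAtt σ i i 0}` (`rc = .732.., sc = .634..`).
For `U i i'` : `PM i i'` and `P i`, `¬ P i'`, or `PM i' i` and `¬ P i`, `P i'` (`pm_of_good`).
Rules: `u2` by `sample_D1`; `u3`: if `U i j` then `sample_D1`, otherwise `i, j` are linked (`dich_sample`) and
`sample_D2`.
`nice`: `GoodG` for all adjacent pairs (every layer has a neighbour) and `LkL` for all adjacent pairs not in `U`
(`niceS_layer`, `niceS_link`), union bound over the pairs.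
-/

set_option autoImplicit false

open Finset
open scoped Classical

namespace Pool.Agent.LP

open Pool.Agent.OIP

private theorem ssampout_pm_mono {Λ : Type} {m : ℕ} {Ω : Type} [Fintype Ω] {w : Ω → ℝ}
    {W : Ω → SimpleGraph (LV Λ (I5 m))} {σ : Equiv.Perm (I5 m)} {i i' : Λ} {ε ε' : ℝ} (h : ε ≤ ε')
    (hP : PM ε w W σ i i') : PM ε' w W σ i i' where
  own u := (hP.own u).trans h
  non u := (hP.non u).trans h
  own' u := (hP.own' u).trans h
  oth' u := (hP.oth' u).trans h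
  lown v x hvx := (hP.lown v x hvx).trans h
  lown' v x hvx := (hP.lown' v x hvx).trans h
  loth' v x hvx := (hP.loth' v x hvx).trans h
  closed u u' huu := (hP.closed u u' huu).trans h
  open0 u x hux := (hP.open0 u x hux).trans h
  open1 u v x h1 h2 h3 := (hP.open1 u v x h1 h2 h3).trans h
  open2 u v x h1 h2 h3 := (hP.open2 u v x h1 h2 h3).trans h

private theorem ssampout_good_mono {Λ : Type} {m : ℕ} {L : SimpleGraph Λ} {Ω : Type} [Fintype Ω] {w : Ω → ℝ}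
    {W : Ω → SimpleGraph (LV Λ (I5 m))} {σ : Equiv.Perm (I5 m)} {η η' : ℝ} (h : η ≤ η')
    (hG : GoodSig L η w W σ) : GoodSig L η' w W σ where
  good i i' hL := (hG.good i i' hL).trans h
  dev i i' hL := (hG.dev i i' hL).trans h
  herr τ i i' hL u hu := (hG.herr τ i i' hL u hu).trans h

private theorem ssampout_num : 0.73 < rc ∧ sc < 0.64 := by
  have h1 : 1.73 < Real.sqrt 3 := by
    rw [Real.lt_sqrt (by norm_num)]
    norm_num
  unfold rc sc
  constructor <;> linarith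

/-- the rules from the statements about pairs -/
private theorem ssampout_rules {Λ : Type} {m : ℕ} (hm : 4 ≤ m) {L : SimpleGraph Λ} {Ω : Type} [Fintype Ω]
    {w : Ω → ℝ} {W : Ω → SimpleGraph (LV Λ (I5 m))} (h : LSample L pc w W) {σ : Equiv.Perm (I5 m)} {ε₁ : ℝ}
    (hε0 : 0 < ε₁) (hε1 : ε₁ ≤ 1 / 10000) (hσ : GoodSig L ε₁ w W σ) (U : Λ → Λ → Prop) (P : Λ → Prop)
    (hsymm : ∀ i i', U i i' → U i' i) (hadj : ∀ i i', U i i' → L.Adj i i')
    (hlk : ∀ i i', U i i' → pr w {ω | W ω ∈ LkL σ i i' 0} ≤ ε₁)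
    (hlk' : ∀ i i', L.Adj i i' → ¬ U i i' → 1 - ε₁ ≤ pr w {ω | W ω ∈ LkL σ i i' 0})
    (hP : ∀ i i', U i i' → P i → PM ε₁ w W σ i i') (hnP : ∀ i i', U i i' → ¬ P i → PM ε₁ w W σ i' i)
    (hu1 : ∀ i i', U i i' → (P i ↔ ¬ P i')) : Rules L U P := by
  have hu2 : ∀ i i' i'', U i i' → U i i'' → i' ≠ i'' → ¬ P i := by
    intro i i' i'' h1 h2 hne hPi
    exact sample_D1 hm h hε0 (by linarith) hσ (hadj _ _ h1) (hadj _ _ h2) hne (hlk _ _ h1) (hlk _ _ h2)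
      (hP _ _ h1 hPi) (hP _ _ h2 hPi)
  have key : ∀ i i' j j', U i i' → U j j' → L.Adj i j → i' ≠ j → j' ≠ i → P i → P j := by
    intro i i' j j' h1 h2 hij hne hne' hPi
    by_contra hPj
    by_cases hU : U i j
    · exact hu2 i i' j h1 hU hne hPi
    · exact sample_D2 hm h hε0 hε1 hσ (hadj _ _ h1) (hadj _ _ (hsymm _ _ h2)) hij hne hne' (hlk _ _ h1)
        (hlk _ _ (hsymm _ _ h2)) (hlk' _ _ hij hU) (hP _ _ h1 hPi) (hnP _ _ h2 hPj)
  exact ⟨hsymm, hadj, hu1, hu2, fun i i' j j' h1 h2 hij hne hne' =>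
    ⟨key i i' j j' h1 h2 hij hne hne', key j j' i i' h2 h1 hij.symm hne' hne⟩⟩

/-- the event `Nice` from the good events of the pairs -/
private theorem ssampout_nice {Λ : Type} [Fintype Λ] {m : ℕ} (hm : 2 ≤ dl pc * (m : ℝ)) {L : SimpleGraph Λ}
    (hL : ∀ i, ∃ i', L.Adj i i') {Ω : Type} [Fintype Ω]
    {w : Ω → ℝ} {W : Ω → SimpleGraph (LV Λ (I5 m))} (h : LSample L pc w W) {σ : Equiv.Perm (I5 m)} {η : ℝ}
    (hη : 0 ≤ η) (hσ : GoodSig L (η / 2) w W σ) (U : Λ → Λ → Prop)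
    (hlk' : ∀ i i', L.Adj i i' → ¬ U i i' → 1 - η / 2 ≤ pr w {ω | W ω ∈ LkL σ i i' 0}) :
    pr w {ω | ¬ NiceS L (dl pc) U (W ω)} ≤ (Fintype.card (Λ × Λ) : ℝ) * η := by
  classical
  have hw := h.law
  have hsub : {ω | ¬ NiceS L (dl pc) U (W ω)} ⊆ {ω | ∃ q ∈ (Finset.univ : Finset (Λ × Λ)),
      (L.Adj q.1 q.2 ∧ (¬ GoodG (dl pc) σ (prG q.1 q.2 (W ω)) ∨ (¬ U q.1 q.2 ∧ W ω ∉ LkL σ q.1 q.2 0)))} := by
    intro ω hω
    by_contra hcon
    apply hω
    have hgood : ∀ i i', L.Adj i i' → GoodG (dl pc) σ (prG i i' (W ω)) := by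
      intro i i' hii
      by_contra hg
      exact hcon ⟨(i, i'), Finset.mem_univ _, hii, Or.inl hg⟩
    refine ⟨fun i => ?_, fun i i' hii hU => ?_⟩
    · obtain ⟨i', hii⟩ := hL i
      exact niceS_layer hm (h.tr ω) (hgood i i' hii)
    · have hl : W ω ∈ LkL σ i i' 0 := by
        by_contra hl
        exact hcon ⟨(i, i'), Finset.mem_univ _, hii, Or.inr ⟨hU, hl⟩⟩
      exact niceS_link hm (h.tr ω) (hgood i i' hii) hl
  refine (pr_mono hw hsub).trans ((pr_exists_le hw Finset.univ (fun (q : Λ × Λ) ω => (L.Adj q.1 q.2 ∧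
    (¬ GoodG (dl pc) σ (prG q.1 q.2 (W ω)) ∨ (¬ U q.1 q.2 ∧ W ω ∉ LkL σ q.1 q.2 0))))).trans ?_)
  have hq : ∀ q ∈ (Finset.univ : Finset (Λ × Λ)), pr w {ω | (L.Adj q.1 q.2 ∧
    (¬ GoodG (dl pc) σ (prG q.1 q.2 (W ω)) ∨ (¬ U q.1 q.2 ∧ W ω ∉ LkL σ q.1 q.2 0)))} ≤ η := by
    intro q _
    by_cases hA : L.Adj q.1 q.2
    · have h1 := hσ.good q.1 q.2 hA
      by_cases hU : U q.1 q.2
      · refine (pr_mono hw ?_).trans (h1.trans (by linarith))
        rintro ω ⟨_, h2 | h2⟩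
        · exact h2
        · exact absurd hU h2.1
      · have h2 := hlk' q.1 q.2 hA hU
        have h3 := pr_compl hw {ω | W ω ∈ LkL σ q.1 q.2 0}
        have h4 : {ω | W ω ∈ LkL σ q.1 q.2 0}ᶜ = {ω | W ω ∉ LkL σ q.1 q.2 0} := rfl
        rw [h4] at h3
        refine (pr_mono hw (U' := {ω | ¬ GoodG (dl pc) σ (prG q.1 q.2 (W ω))} ∪
          {ω | W ω ∉ LkL σ q.1 q.2 0}) ?_).trans ((pr_union_le hw _ _).trans (by linarith))
        rintro ω ⟨_, h5 | h5⟩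
        · exact Or.inl h5
        · exact Or.inr h5.2
    · have : {ω | (L.Adj q.1 q.2 ∧ (¬ GoodG (dl pc) σ (prG q.1 q.2 (W ω)) ∨
          (¬ U q.1 q.2 ∧ W ω ∉ LkL σ q.1 q.2 0)))} = ∅ := by
        ext ω
        constructor
        · rintro ⟨h1, _⟩
          exact absurd h1 hA
        · intro h1
          exact absurd h1 (by simp)
      rw [this, pr_empty]
      exact hη
  refine (Finset.sum_le_sum hq).trans ?_
  rw [Finset.sum_const, nsmul_eq_mul, Finset.card_univ]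

theorem samp_out {Λ : Type} [Fintype Λ] [DecidableEq Λ] (L : SimpleGraph Λ) (hL : ∀ i, ∃ i', L.Adj i i')
    (ε : ℝ) (hε : 0 < ε) :
    ∃ m₀ : ℕ, ∀ m : ℕ, m₀ ≤ m → ∀ (Ω : Type) [Fintype Ω] (w : Ω → ℝ) (W : Ω → SimpleGraph (LV Λ (I5 m))),
      LSample L pc w W → ∃ (U : Λ → Λ → Prop) (P : Λ → Prop),
        SampOut L (dl pc) ε (fun A => pr w {ω | W ω ∈ A}) U P := by
  classical
  obtain ⟨εP, hεP0, hεP⟩ := deg_P ε hε
  obtain ⟨εM, hεM0, hεM⟩ := deg_M ε hε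
  obtain ⟨εS, hεS0, hεS⟩ := snum_of_pm ε hε
  obtain ⟨ε₁, hε0, hε1, hεP1, hεM1, hεS1⟩ : ∃ ε₁ : ℝ, 0 < ε₁ ∧ ε₁ ≤ 1 / 10000 ∧ ε₁ ≤ εP ∧ ε₁ ≤ εM ∧ ε₁ ≤ εS :=
    ⟨min (1 / 10000) (min εP (min εM εS)), by positivity, min_le_left _ _,
      (min_le_right _ _).trans (min_le_left _ _),
      (min_le_right _ _).trans ((min_le_right _ _).trans (min_le_left _ _)),
      (min_le_right _ _).trans ((min_le_right _ _).trans (min_le_right _ _))⟩
  obtain ⟨η₀, hη₀, hpm⟩ := pm_of_good ε₁ hε0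
  have hcard : (0:ℝ) < (Fintype.card (Λ × Λ) : ℝ) + 1 := by positivity
  obtain ⟨η, hη0, hη1, hη2, hη3⟩ : ∃ η : ℝ, 0 < η ∧ η ≤ η₀ ∧ η ≤ ε₁ ∧
      η ≤ ε / ((Fintype.card (Λ × Λ) : ℝ) + 1) :=
    ⟨min η₀ (min ε₁ (ε / ((Fintype.card (Λ × Λ) : ℝ) + 1))), by positivity, min_le_left _ _,
      (min_le_right _ _).trans (min_le_left _ _), (min_le_right _ _).trans (min_le_right _ _)⟩
  have hηs : η ≤ 1 / 10000 := hη2.trans hε1
  have hsq : (η / 4) ^ 2 ≤ η / 4 := by nlinarith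
  obtain ⟨m₁, hm₁⟩ := goodSig_exists L ((η / 4) ^ 2) (by positivity)
  have hdl : 0 < dl pc := by
    have := half_lt_pc
    unfold dl
    linarith
  refine ⟨max m₁ (max 4 (Nat.ceil (2 / dl pc))), fun m hm Ω _ w W h => ?_⟩
  have hmm : m₁ ≤ m := (le_max_left _ _).trans hm
  have hm4 : 4 ≤ m := (le_max_left _ _).trans ((le_max_right _ _).trans hm)
  have hmc : Nat.ceil (2 / dl pc) ≤ m := (le_max_right _ _).trans ((le_max_right _ _).trans hm)
  have hmd : 2 ≤ dl pc * (m : ℝ) := by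
    have h1 : 2 / dl pc ≤ (m : ℝ) := (Nat.le_ceil _).trans (by exact_mod_cast hmc)
    rw [div_le_iff₀ hdl] at h1
    linarith
  obtain ⟨σ, hσ⟩ := hm₁ m hmm Ω w W h
  have hση : GoodSig L (η / 2) w W σ := ssampout_good_mono (by linarith) hσ
  have hσ0 : GoodSig L η₀ w W σ := ssampout_good_mono (by linarith) hσ
  have hσ1 : GoodSig L ε₁ w W σ := ssampout_good_mono (by linarith) hσ
  obtain ⟨hrc, hsc⟩ := ssampout_num
  -- the relation and the types
  set U : Λ → Λ → Prop := fun i i' => L.Adj i i' ∧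
    (pr w {ω | W ω ∈ LkL σ i i' 0} ≤ η / 4 ∨ pr w {ω | W ω ∈ LkL σ i' i 0} ≤ η / 4) with hU
  set P : Λ → Prop := fun i => 0.68 ≤ pr w {ω | W ω ∈ hAtt σ i i 0} with hPdef
  have hsymm : ∀ i i', U i i' → U i' i := fun i i' hu => ⟨hu.1.symm, hu.2.symm⟩
  have hadj : ∀ i i', U i i' → L.Adj i i' := fun i i' hu => hu.1
  have hlkη : ∀ i i', U i i' → pr w {ω | W ω ∈ LkL σ i i' 0} ≤ η := by
    rintro i i' ⟨h1, h2 | h2⟩
    · linarith
    · have h3 := lkL_symm hm4 h hσ h1.symm (0 : Fin 5) 0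
      linarith
  have hPMof : ∀ i i', PM ε₁ w W σ i i' → P i ∧ ¬ P i' := by
    intro i i' hpm'
    have h1 := abs_le.1 (hpm'.own 0)
    have h2 := abs_le.1 (hpm'.own' 0)
    simp only [hPdef]
    constructor
    · linarith [h1.1]
    · intro h3
      linarith [h2.2]
  have halt : ∀ i i', U i i' → PM ε₁ w W σ i i' ∨ PM ε₁ w W σ i' i := fun i i' hu =>
    hpm Λ m hm4 L Ω w W h σ hσ0 i i' hu.1 ((hlkη i i' hu).trans hη1)
  have hP1 : ∀ i i', U i i' → P i → PM ε₁ w W σ i i' := by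
    intro i i' hu hPi
    rcases halt i i' hu with h1 | h1
    · exact h1
    · exact absurd hPi (hPMof i' i h1).2
  have hnP1 : ∀ i i', U i i' → ¬ P i → PM ε₁ w W σ i' i := by
    intro i i' hu hPi
    rcases halt i i' hu with h1 | h1
    · exact absurd (hPMof i i' h1).1 hPi
    · exact h1
  have hu1 : ∀ i i', U i i' → (P i ↔ ¬ P i') := by
    intro i i' hu
    rcases halt i i' hu with h1 | h1
    · exact ⟨fun _ => (hPMof i i' h1).2, fun _ => (hPMof i i' h1).1⟩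
    · exact ⟨fun h2 => absurd h2 (hPMof i' i h1).2, fun h2 => absurd (hPMof i' i h1).1 h2⟩
  have hlk2 : ∀ i i', L.Adj i i' → ¬ U i i' → 1 - η / 2 ≤ pr w {ω | W ω ∈ LkL σ i i' 0} := by
    intro i i' hii hnu
    rcases dich_sample hm4 (η := η / 4) (by linarith) (by linarith) h hσ hii with h1 | h1
    · exact absurd ⟨hii, Or.inl h1⟩ hnu
    · have := h1 0
      linarith
  refine ⟨U, P, ?_, ?_, ?_, ?_, ?_⟩
  · exact ssampout_rules hm4 h hε0 hε1 hσ1 U P hsymm hadj (fun i i' hu => (hlkη i i' hu).trans hη2)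
      (fun i i' hii hnu => by have := hlk2 i i' hii hnu; linarith) hP1 hnP1 hu1
  · have h1 := ssampout_nice hmd hL h hη0.le hση U hlk2
    refine h1.trans ?_
    rw [le_div_iff₀ hcard] at hη3
    nlinarith
  · intro i i' hu hPi
    exact hεP Λ m hm4 Ω w W h.law σ i i' (ssampout_pm_mono hεP1 (hP1 i i' hu hPi))
  · intro i i' hu hPi
    exact hεM Λ m hm4 L Ω w W h σ (ssampout_good_mono hεM1 hσ1) i' i hu.1.symm
      (ssampout_pm_mono hεM1 (hnP1 i i' hu hPi))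
  · intro i i' hu hPi
    exact hεS Λ m hm4 L Ω w W h σ (ssampout_good_mono hεS1 hσ1) i' i hu.1.symm
      ((hlkη i' i (hsymm i i' hu)).trans (hη2.trans hεS1)) (ssampout_pm_mono hεS1 (hnP1 i i' hu hPi))


end Pool.Agent.LP
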