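import Pool.Agent.LP.SXDefs
import Pool.Agent.LP.SSampOut

/-!
# LP: bridge from `samp_out` (theory of exact sample laws) to `samp_law`
-/

set_option autoImplicit false

open Finset
open scoped Classical

namespace Pool.Agent.LP.SS

open Pool.Agent.OIP

theorem brs_sqrt : Real.sqrt 3 ≤ 1733 / 1000 := by
  rw [show (1733 / 1000 : ℝ) = Real.sqrt ((1733 / 1000) ^ 2) by
    rw [Real.sqrt_sq (by norm_num)]]
  exact Real.sqrt_le_sqrt (by norm_num)

theorem brs_dl : (1 / 500 : ℝ) ≤ dl pc := by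
  unfold dl pc
  have h := brs_sqrt
  linarith

theorem brs_rc (ε : ℝ) (hε : ε ≤ 1 / 1000) : (26 / 100 : ℝ) ≤ 1 - rc - ε := by
  unfold rc
  have h := brs_sqrt
  linarith

theorem brs_nice {Λ κ : Type} [Fintype κ] {L : SimpleGraph Λ} {U : Λ → Λ → Prop} {G : SimpleGraph (LV Λ κ)}
    (h : Pool.Agent.LP.NiceS L (dl pc) U G) : NiceS L (1 / 500) U G := by
  have hm : (1 / 2 + 1 / 500 : ℝ) * (Fintype.card κ : ℝ) ≤ (1 / 2 + dl pc) * (Fintype.card κ : ℝ) := by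
    have := brs_dl
    have h2 : (0 : ℝ) ≤ (Fintype.card κ : ℝ) := Nat.cast_nonneg _
    nlinarith
  refine ⟨fun i => ?_, fun i i' hL hU => ?_⟩
  · obtain ⟨a, ha⟩ := h.1 i
    exact ⟨a, hm.trans ha⟩
  · obtain ⟨a, ha, ha'⟩ := h.2 i i' hL hU
    exact ⟨a, hm.trans ha, hm.trans ha'⟩

theorem brs_samp {Λ κ : Type} [Fintype κ] {Ω : Type} [Fintype Ω] {L : SimpleGraph Λ} {p : ℝ} {w : Ω → ℝ}
    {W : Ω → SimpleGraph (LV Λ κ)} (h : LSample L p w W) : Pool.Agent.LP.LSample L p w W :=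
  { toLStar := h.toLStar, tr := h.tr }

theorem samp_law {Λ : Type} [Fintype Λ] [DecidableEq Λ] (L : SimpleGraph Λ) (hL : ∀ i, ∃ i', L.Adj i i')
    (ε : ℝ) (hε : 0 < ε) :
    ∃ m₀ : ℕ, ∀ m : ℕ, m₀ ≤ m → ∀ (Ω : Type) [Fintype Ω] (w : Ω → ℝ) (W : Ω → SimpleGraph (LV Λ (I5 m))),
      LSample L pc w W → ∃ (U : Λ → Λ → Prop) (P : Λ → Prop),
        SampOut L (1 / 500) (26 / 100) ε (fun A => pr w {ω | W ω ∈ A}) U P := by
  obtain ⟨ε', hε'⟩ : ∃ ε' : ℝ, ε' = min ε (1 / 1000) := ⟨_, rfl⟩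
  have h0 : 0 < ε' := by
    rw [hε']
    exact lt_min hε (by norm_num)
  have h1 : ε' ≤ ε := by
    rw [hε']
    exact min_le_left _ _
  have h2 : ε' ≤ 1 / 1000 := by
    rw [hε']
    exact min_le_right _ _
  obtain ⟨m₀, hm₀⟩ := samp_out L hL ε' h0
  refine ⟨m₀, fun m hm Ω _ w W hW => ?_⟩
  obtain ⟨U, P, hO⟩ := hm₀ m hm Ω w W (brs_samp hW)
  refine ⟨U, P, hO.rules, ?_, ?_, ?_, ?_⟩
  · have h3 := hO.nice
    refine le_trans (pr_mono hW.law ?_) (h3.trans h1)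
    intro ω hω hn
    exact hω (brs_nice hn)
  · intro i i' hU hP
    exact (brs_rc ε' h2).trans (hO.pend i i' hU hP)
  · intro i i' hU hP
    exact (hO.mend i i' hU hP).trans h1
  · intro i i' hU hP
    obtain ⟨j, j', hS⟩ := hO.mnum i i' hU hP
    refine ⟨j, j', hS.ne, ?_, ?_, ?_, ?_, ?_⟩
    · refine le_trans (by linarith) hS.a1
    · refine le_trans hS.a2 (by linarith)
    · refine le_trans (by linarith) (le_trans hS.b (pr_mono hW.law ?_))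
      intro ω hω
      exact ⟨⟨hω.1, hω.2.1⟩, hω.2.2⟩
    · refine le_trans (by linarith) (le_trans hS.c (pr_mono hW.law ?_))
      intro ω hω
      exact ⟨⟨hω.1, hω.2.1⟩, hω.2.2⟩
    · exact hS.d.trans h1

end Pool.Agent.LP.SS
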