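import Pool.Agent.LP.SXDefs
import Pool.Agent.OIP.Samp
import Pool.Agent.OIP.BSamp

/-!
# LP, samples of a star: deterministic sampling

`Rep δ e σ G`: the sample is representative for `G`: for every layer `i` and every leaf `(i0, j)` of the star the fraction
of the sampled indices `k` with `(i0, j)` connected to `(i, σ (e k))` (through leaves) differs by at most `δ` from the
fraction of all indices, and the same for the hub degrees.  By `OIP.sampling` (for the equivalence relation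
`j ~ l : Cn G leaves (i, j) (i, l)` of layer `i`; a cluster `{l | (i0, j) ~ (i, l)}` of layer `i` is empty or a class) and
by the second moment method for hub degrees the average over `σ` of `not Rep` is at most `2 |Λ| / (δ² |κ|)`.

`rep_maj`, `rep_lk`: on `Rep δ` a leaf `a` of the sample adjacent to `(1/2 + 2 δ) |κ|` sampled leaves of layer `i` (through
`sampG`) gives the leaf `(a.1, σ (e a.2))` of the star whose cluster contains at least `(1/2 + δ) n` leaves of layer `i`
(compare `bsamp_det`, `majW_of_sample`).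
`rep_in`: if moreover `InS (sampG ..) b i` (`b` is adjacent to the majority of the sampled leaves of layer `i`), then `b` has
a common neighbour with such an `a`, so the leaf `(b.1, σ (e b.2))` of the star is in the majority cluster of layer `i`.
-/

set_option autoImplicit false

open Finset
open scoped Classical

namespace Pool.Agent.LP.SS

open Pool.Agent.OIP

section

variable {Λ κ : Type} [Fintype Λ] [Fintype κ] [DecidableEq κ] {n : ℕ}

/-- the sample `σ ∘ e` is representative for `G` -/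
def Rep (δ : ℝ) (e : κ → Fin n) (σ : Equiv.Perm (Fin n)) (G : SimpleGraph (LV Λ (Fin n))) : Prop :=
  (∀ (a : Λ × Fin n) (i : Λ),
    |((Finset.univ.filter (fun k : κ => Cn G (Set.range Sum.inl) (leaf a) (leaf (i, σ (e k))))).card : ℝ) /
        (Fintype.card κ : ℝ) - (lcnt G a i : ℝ) / (n : ℝ)| ≤ δ) ∧
  (∀ i : Λ, |((Finset.univ.filter (fun k : κ => G.Adj (hub i) (leaf (i, σ (e k))))).card : ℝ) /
        (Fintype.card κ : ℝ) - (hdeg G i : ℝ) / (n : ℝ)| ≤ δ)

omit [Fintype Λ] [DecidableEq κ] in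
/-- sampling of one class -/
theorem sssamp_one (e : κ → Fin n) (he : Function.Injective e) (r : Fin n → Fin n → Prop)
    (hr : Equivalence r) (δ : ℝ) (hδ : 0 < δ) (hκ : 1 ≤ Fintype.card κ) :
    avg (fun σ : Equiv.Perm (Fin n) => ind (∃ j : Fin n,
      δ < |((Finset.univ.filter (fun k : κ => r j (σ (e k)))).card : ℝ) / (Fintype.card κ : ℝ) -
        ((Finset.univ.filter (fun k : Fin n => r j k)).card : ℝ) / (n : ℝ)|)) ≤
      1 / (δ ^ 2 * (Fintype.card κ : ℝ)) := by
  have hcard : (Finset.univ.image e).card = Fintype.card κ := by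
    rw [Finset.card_image_of_injective _ he, Finset.card_univ]
  have hm : (0 : ℝ) < (Fintype.card κ : ℝ) := by exact_mod_cast hκ
  have h := sampling r hr (Finset.univ.image e) δ hδ
  rw [hcard] at h
  refine le_trans (avg_mono fun σ => ind_mono ?_) h
  rintro ⟨j, hj⟩
  refine ⟨j, ?_⟩
  have h1 : ((Finset.univ.image e).filter (fun s => r j (σ s))).card =
      (Finset.univ.filter (fun k : κ => r j (σ (e k)))).card := by
    rw [Finset.filter_image, Finset.card_image_of_injective _ he]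
  rw [h1, Fintype.card_fin]
  have h2 : ((Finset.univ.filter (fun k : κ => r j (σ (e k)))).card : ℝ) -
      (Fintype.card κ : ℝ) * ((Finset.univ.filter (fun k : Fin n => r j k)).card : ℝ) / (n : ℝ) =
      (((Finset.univ.filter (fun k : κ => r j (σ (e k)))).card : ℝ) / (Fintype.card κ : ℝ) -
        ((Finset.univ.filter (fun k : Fin n => r j k)).card : ℝ) / (n : ℝ)) *
        (Fintype.card κ : ℝ) := by
    field_simp
  rw [h2, abs_mul, abs_of_pos hm]
  exact mul_lt_mul_of_pos_right hj hm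

omit [Fintype Λ] [DecidableEq κ] in
/-- sets which are empty or a class -/
theorem sssamp_cls {e : κ → Fin n} {r : Fin n → Fin n → Prop} {q : Fin n → Prop}
    (hq : ∀ j, q j → ∀ k, q k ↔ r j k) {δ : ℝ} (hδ : 0 < δ) {σ : Equiv.Perm (Fin n)}
    (h : ¬ |((Finset.univ.filter (fun k : κ => q (σ (e k)))).card : ℝ) / (Fintype.card κ : ℝ) -
        ((Finset.univ.filter (fun k : Fin n => q k)).card : ℝ) / (n : ℝ)| ≤ δ) :
    ∃ j : Fin n,
      δ < |((Finset.univ.filter (fun k : κ => r j (σ (e k)))).card : ℝ) / (Fintype.card κ : ℝ) -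
        ((Finset.univ.filter (fun k : Fin n => r j k)).card : ℝ) / (n : ℝ)| := by
  by_cases hex : ∃ j, q j
  · obtain ⟨j, hj⟩ := hex
    refine ⟨j, ?_⟩
    rw [not_le] at h
    have e1 : (Finset.univ.filter (fun k : κ => q (σ (e k)))) =
        (Finset.univ.filter (fun k : κ => r j (σ (e k)))) :=
      Finset.filter_congr fun k _ => hq j hj _
    have e2 : (Finset.univ.filter (fun k : Fin n => q k)) =
        (Finset.univ.filter (fun k : Fin n => r j k)) :=
      Finset.filter_congr fun k _ => hq j hj _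
    rw [e1, e2] at h
    exact h
  · push Not at hex
    exfalso
    apply h
    have e1 : (Finset.univ.filter (fun k : κ => q (σ (e k)))) = ∅ :=
      Finset.filter_eq_empty_iff.2 fun k _ => hex _
    have e2 : (Finset.univ.filter (fun k : Fin n => q k)) = ∅ :=
      Finset.filter_eq_empty_iff.2 fun k _ => hex _
    rw [e1, e2]
    simp [hδ.le]

theorem rep_avg (e : κ → Fin n) (he : Function.Injective e) (G : SimpleGraph (LV Λ (Fin n))) (δ : ℝ) (hδ : 0 < δ)
    (hκ : 1 ≤ Fintype.card κ) :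
    avg (fun σ : Equiv.Perm (Fin n) => ind (¬ Rep δ e σ G)) ≤
      2 * (Fintype.card Λ : ℝ) / (δ ^ 2 * (Fintype.card κ : ℝ)) := by
  obtain ⟨r1, hr1⟩ : ∃ r1 : Λ → Fin n → Fin n → Prop, r1 = fun i j l =>
    Cn G (Set.range Sum.inl) (leaf (i, j)) (leaf (i, l)) := ⟨_, rfl⟩
  obtain ⟨r2, hr2⟩ : ∃ r2 : Λ → Fin n → Fin n → Prop, r2 = fun i j l =>
    (G.Adj (hub i) (leaf (i, j)) ↔ G.Adj (hub i) (leaf (i, l))) := ⟨_, rfl⟩
  have q1 : ∀ i, Equivalence (r1 i) := by
    intro i
    subst hr1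
    exact ⟨fun _ => Cn.refl G _ _, fun h => h.symm, fun h h' => h.trans h'⟩
  have q2 : ∀ i, Equivalence (r2 i) := by
    intro i
    subst hr2
    exact ⟨fun _ => Iff.rfl, fun h => h.symm, fun h h' => h.trans h'⟩
  obtain ⟨B, hB⟩ : ∃ B : (Λ → Fin n → Fin n → Prop) → Λ → Equiv.Perm (Fin n) → Prop,
    B = fun r i σ => ∃ j : Fin n,
      δ < |((Finset.univ.filter (fun k : κ => r i j (σ (e k)))).card : ℝ) /
        (Fintype.card κ : ℝ) -
        ((Finset.univ.filter (fun k : Fin n => r i j k)).card : ℝ) / (n : ℝ)| := ⟨_, rfl⟩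
  have s1 : ∀ i, avg (fun σ => ind (B r1 i σ)) ≤ 1 / (δ ^ 2 * (Fintype.card κ : ℝ)) := by
    intro i
    subst hB
    exact sssamp_one e he (r1 i) (q1 i) δ hδ hκ
  have s2 : ∀ i, avg (fun σ => ind (B r2 i σ)) ≤ 1 / (δ ^ 2 * (Fintype.card κ : ℝ)) := by
    intro i
    subst hB
    exact sssamp_one e he (r2 i) (q2 i) δ hδ hκ
  have hpt : ∀ σ : Equiv.Perm (Fin n), ind (¬ Rep δ e σ G) ≤
      ∑ i : Λ, (ind (B r1 i σ) + ind (B r2 i σ)) := by
    intro σ
    have hnn : ∀ i : Λ, 0 ≤ ind (B r1 i σ) + ind (B r2 i σ) := fun i =>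
      add_nonneg (ind_nonneg _) (ind_nonneg _)
    by_cases hR : Rep δ e σ G
    · have : ind (¬ Rep δ e σ G) = 0 := by
        unfold ind
        rw [if_neg (not_not.2 hR)]
      rw [this]
      exact Finset.sum_nonneg fun i _ => hnn i
    · have hex : ∃ i : Λ, B r1 i σ ∨ B r2 i σ := by
        unfold Rep at hR
        rw [not_and_or] at hR
        rcases hR with hR | hR
        · push Not at hR
          obtain ⟨a, i, hai⟩ := hR
          refine ⟨i, Or.inl ?_⟩
          subst hB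
          refine sssamp_cls (q := fun k => Cn G (Set.range Sum.inl) (leaf a) (leaf (i, k)))
            ?_ hδ (not_le.2 hai)
          intro j hj k
          subst hr1
          exact ⟨fun h => hj.symm.trans h, fun h => hj.trans h⟩
        · push Not at hR
          obtain ⟨i, hi⟩ := hR
          refine ⟨i, Or.inr ?_⟩
          subst hB
          refine sssamp_cls (q := fun k => G.Adj (hub i) (leaf (i, k))) ?_ hδ (not_le.2 hi)
          intro j hj k
          subst hr2
          exact ⟨fun h => ⟨fun _ => h, fun _ => hj⟩, fun h => h.1 hj⟩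
      obtain ⟨i, hi⟩ := hex
      refine (ind_le_one _).trans ?_
      have h1 : 1 ≤ ind (B r1 i σ) + ind (B r2 i σ) := by
        rcases hi with hi | hi
        · have : ind (B r1 i σ) = 1 := by
            unfold ind
            rw [if_pos hi]
          linarith [ind_nonneg (B r2 i σ)]
        · have : ind (B r2 i σ) = 1 := by
            unfold ind
            rw [if_pos hi]
          linarith [ind_nonneg (B r1 i σ)]
      exact h1.trans (Finset.single_le_sum (f := fun i => ind (B r1 i σ) + ind (B r2 i σ))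
        (fun i _ => hnn i) (Finset.mem_univ i))
  refine (avg_mono hpt).trans ?_
  rw [avg_sum]
  have h2 : ∀ i ∈ (Finset.univ : Finset Λ),
      avg (fun σ : Equiv.Perm (Fin n) => ind (B r1 i σ) + ind (B r2 i σ)) ≤
      1 / (δ ^ 2 * (Fintype.card κ : ℝ)) + 1 / (δ ^ 2 * (Fintype.card κ : ℝ)) := by
    intro i _
    rw [avg_add]
    exact add_le_add (s1 i) (s2 i)
  refine (Finset.sum_le_sum h2).trans ?_
  rw [Finset.sum_const, Finset.card_univ, nsmul_eq_mul]
  apply le_of_eq
  ring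

variable {e : κ → Fin n} {σ : Equiv.Perm (Fin n)} {G : SimpleGraph (LV Λ (Fin n))} {δ : ℝ} (P : Finset (Fin n))

theorem rep_hdeg (hR : Rep δ e σ G) (i : Λ) :
    |(hdeg (sampG σ e P G) i : ℝ) / (Fintype.card κ : ℝ) - (hdeg G i : ℝ) / (n : ℝ)| ≤ δ :=
  hR.2 i

omit [Fintype Λ] [Fintype κ] [DecidableEq κ] in
theorem sssamp_cn {a b : Λ × κ} (hab : a.2 ≠ b.2)
    (h : (sampG σ e P G).Adj (leaf a) (leaf b)) :
    Cn G (Set.range Sum.inl) (leaf (a.1, σ (e a.2))) (leaf (b.1, σ (e b.2))) := by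
  unfold sampG at h
  rw [derL_adj_leaf hab] at h
  refine Cn.mono h ?_
  intro v hv
  rcases hv with ⟨i, q, _, rfl⟩ | hv
  · exact ⟨_, rfl⟩
  · rcases hv with rfl | hv
    · exact ⟨_, rfl⟩
    · rw [Set.mem_singleton_iff] at hv
      subst hv
      exact ⟨_, rfl⟩

omit [Fintype Λ] [DecidableEq κ] in
theorem sssamp_acnt (a : Λ × κ) (i : Λ) :
    acnt (sampG σ e P G) a i ≤ (Finset.univ.filter (fun k : κ =>
      Cn G (Set.range Sum.inl) (leaf (a.1, σ (e a.2))) (leaf (i, σ (e k))))).card := by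
  unfold acnt
  apply Finset.card_le_card
  intro k hk
  rw [Finset.mem_filter] at hk ⊢
  exact ⟨hk.1, sssamp_cn P (a := a) (b := (i, k)) hk.2.1.symm hk.2.2⟩

theorem rep_cnt (hn : 1 ≤ n) (hκ : 1 ≤ Fintype.card κ) (hR : Rep δ e σ G) {β : ℝ} {a : Λ × κ} {i : Λ}
    (h : (β + δ) * (Fintype.card κ : ℝ) ≤ (acnt (sampG σ e P G) a i : ℝ)) :
    β * (n : ℝ) ≤ (lcnt G (a.1, σ (e a.2)) i : ℝ) := by
  have hn0 : (0 : ℝ) < n := by exact_mod_cast hn
  have hk0 : (0 : ℝ) < (Fintype.card κ : ℝ) := by exact_mod_cast hκ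
  have h1 : (acnt (sampG σ e P G) a i : ℝ) ≤ ((Finset.univ.filter (fun k : κ =>
      Cn G (Set.range Sum.inl) (leaf (a.1, σ (e a.2))) (leaf (i, σ (e k))))).card : ℝ) := by
    exact_mod_cast sssamp_acnt P a i
  have h2 := (abs_le.1 (hR.1 (a.1, σ (e a.2)) i)).2
  have h3 : β + δ ≤ ((Finset.univ.filter (fun k : κ =>
      Cn G (Set.range Sum.inl) (leaf (a.1, σ (e a.2))) (leaf (i, σ (e k))))).card : ℝ) /
        (Fintype.card κ : ℝ) := by
    rw [le_div_iff₀ hk0]
    linarith
  have h4 : β ≤ (lcnt G (a.1, σ (e a.2)) i : ℝ) / (n : ℝ) := by linarith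
  rwa [le_div_iff₀ hn0] at h4

theorem rep_maj (hn : 1 ≤ n) (hκ : 1 ≤ Fintype.card κ) (hR : Rep δ e σ G) {i : Λ}
    (h : MajS1 (2 * δ) (sampG σ e P G) i) : MajOK δ G i := by
  obtain ⟨a, ha⟩ := h
  refine ⟨(a.1, σ (e a.2)), ?_⟩
  rw [Fintype.card_fin]
  exact rep_cnt P hn hκ hR (β := 1 / 2 + δ) (by rw [show 1 / 2 + δ + δ = 1 / 2 + 2 * δ by ring]; exact ha)

theorem rep_lk (hn : 1 ≤ n) (hκ : 1 ≤ Fintype.card κ) (hR : Rep δ e σ G) {i i' : Λ}
    (h : LkS1 (2 * δ) (sampG σ e P G) i i') : LkOK δ G i i' := by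
  obtain ⟨a, ha, ha'⟩ := h
  refine ⟨(a.1, σ (e a.2)), ?_, ?_⟩
  · rw [Fintype.card_fin]
    exact rep_cnt P hn hκ hR (β := 1 / 2 + δ) (by rw [show 1 / 2 + δ + δ = 1 / 2 + 2 * δ by ring]; exact ha)
  · rw [Fintype.card_fin]
    exact rep_cnt P hn hκ hR (β := 1 / 2 + δ) (by rw [show 1 / 2 + δ + δ = 1 / 2 + 2 * δ by ring]; exact ha')

theorem rep_in (hδ : 0 < δ) (hn : 1 ≤ n) (hκ : 1 ≤ Fintype.card κ) (hR : Rep δ e σ G) {i : Λ} {b : Λ × κ}
    (h : MajS1 (2 * δ) (sampG σ e P G) i) (hb : InS (sampG σ e P G) b i) :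
    InMaj G (b.1, σ (e b.2)) i := by
  have hn0 : (0 : ℝ) < n := by exact_mod_cast hn
  obtain ⟨a, ha⟩ := h
  have hk0 : (0 : ℝ) < (Fintype.card κ : ℝ) := by exact_mod_cast hκ
  -- a common neighbour
  have hex : ∃ k : κ, (k ≠ a.2 ∧ (sampG σ e P G).Adj (leaf a) (leaf (i, k))) ∧
      (k ≠ b.2 ∧ (sampG σ e P G).Adj (leaf b) (leaf (i, k))) := by
    by_contra hcon
    push Not at hcon
    have hdis : Disjoint
        (Finset.univ.filter (fun k : κ => k ≠ a.2 ∧ (sampG σ e P G).Adj (leaf a) (leaf (i, k))))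
        (Finset.univ.filter (fun k : κ => k ≠ b.2 ∧ (sampG σ e P G).Adj (leaf b) (leaf (i, k)))) := by
      rw [Finset.disjoint_left]
      intro k hk hk'
      exact hcon k (Finset.mem_filter.1 hk).2 (Finset.mem_filter.1 hk').2.1
        (Finset.mem_filter.1 hk').2.2
    have h1 := Finset.card_union_of_disjoint hdis
    have h2 := Finset.card_le_univ (Finset.univ.filter (fun k : κ => k ≠ a.2 ∧
        (sampG σ e P G).Adj (leaf a) (leaf (i, k))) ∪
        Finset.univ.filter (fun k : κ => k ≠ b.2 ∧ (sampG σ e P G).Adj (leaf b) (leaf (i, k))))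
    rw [h1] at h2
    have h3 : acnt (sampG σ e P G) a i + acnt (sampG σ e P G) b i ≤ Fintype.card κ := by
      unfold acnt
      convert h2
    have h4 : (acnt (sampG σ e P G) a i : ℝ) + (acnt (sampG σ e P G) b i : ℝ) ≤
        (Fintype.card κ : ℝ) := by exact_mod_cast h3
    have h5 : (Fintype.card κ : ℝ) < 2 * (acnt (sampG σ e P G) b i : ℝ) := by
      have : Fintype.card κ < 2 * acnt (sampG σ e P G) b i := hb
      exact_mod_cast this
    nlinarith
  obtain ⟨k, hka, hkb⟩ := hex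
  have c1 := sssamp_cn P (a := a) (b := (i, k)) hka.1.symm hka.2
  have c2 := sssamp_cn P (a := b) (b := (i, k)) hkb.1.symm hkb.2
  have c3 := c1.trans c2.symm
  have h6 : lcnt G (b.1, σ (e b.2)) i = lcnt G (a.1, σ (e a.2)) i := by
    unfold lcnt
    congr 1
    refine Finset.filter_congr fun l _ => ?_
    exact ⟨fun h => c3.trans h, fun h => c3.symm.trans h⟩
  have h7 := rep_cnt P hn hκ hR (β := 1 / 2 + δ) (a := a) (i := i)
    (by rw [show 1 / 2 + δ + δ = 1 / 2 + 2 * δ by ring]; exact ha)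
  unfold InMaj
  rw [h6, Fintype.card_fin]
  have h8 : (n : ℝ) < 2 * (lcnt G (a.1, σ (e a.2)) i : ℝ) := by nlinarith
  exact_mod_cast h8

end

end Pool.Agent.LP.SS
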