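import Pool.Agent.LP.SXDefs
import Pool.Agent.OIP.Sat

/-!
# LP, samples of a star: saturation

Port of `OIP.BSat` (`Bsat`) to layered stars, with the additional statement that the sets `P0, P1, P2` have at most `R`
elements, `R` independent of `n`.  As there: `saturation` with `X = Fin n`, `Y` the pairs of sampled leaves with different
indices, `F y = {e a.2, e b.2}`, `f y σ P = pr w {sampG σ e P (W ω) has the edge y}`, `M = 1`, `I` large; `P0, P1, P2` are
disjoint sets of `4^t` elements (`t < I`, `R = 4^I`) outside the range of `e`, and `P0 ∪ P1 ∪ P2 ∪ {e k}` has at most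
`3 * 4^t + 1 ≤ 4^(t+1)` elements.  Union bound over the three sets, the pairs and `k`.
-/

set_option autoImplicit false

open Finset
open scoped Classical

namespace Pool.Agent.LP.SS

open Pool.Agent.OIP

theorem sssat_sets {n m : ℕ} (S : Finset (Fin n)) (h : 3 * m ≤ S.card) :
    ∃ P0 P1 P2 : Finset (Fin n), P0 ⊆ S ∧ P1 ⊆ S ∧ P2 ⊆ S ∧ P0.card = m ∧ P1.card = m ∧
      P2.card = m ∧ Disjoint P0 P1 ∧ Disjoint P0 P2 ∧ Disjoint P1 P2 := by
  obtain ⟨P0, hP0, hc0⟩ := Finset.exists_subset_card_eq (s := S) (n := m) (by omega)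
  have h1 : 2 * m ≤ (S \ P0).card := by
    rw [Finset.card_sdiff_of_subset hP0]
    omega
  obtain ⟨P1, hP1, hc1⟩ := Finset.exists_subset_card_eq (s := S \ P0) (n := m) (by omega)
  have h2 : m ≤ ((S \ P0) \ P1).card := by
    rw [Finset.card_sdiff_of_subset hP1]
    omega
  obtain ⟨P2, hP2, hc2⟩ := Finset.exists_subset_card_eq (s := (S \ P0) \ P1) (n := m) h2
  refine ⟨P0, P1, P2, hP0, hP1.trans Finset.sdiff_subset,
    hP2.trans (Finset.sdiff_subset.trans Finset.sdiff_subset), hc0, hc1, hc2, ?_, ?_, ?_⟩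
  · rw [Finset.disjoint_left]
    intro x hx hx1
    exact (Finset.mem_sdiff.1 (hP1 hx1)).2 hx
  · rw [Finset.disjoint_left]
    intro x hx hx2
    exact (Finset.mem_sdiff.1 (Finset.mem_sdiff.1 (hP2 hx2)).1).2 hx
  · rw [Finset.disjoint_left]
    intro x hx hx2
    exact (Finset.mem_sdiff.1 (hP2 hx2)).2 hx

theorem sssat_leafRL_mono {Λ : Type} {n : ℕ} (σ : Equiv.Perm (Fin n)) {P P' : Finset (Fin n)}
    (h : P ⊆ P') : (leafRL σ P : Set (LV Λ (Fin n))) ⊆ leafRL σ P' := by
  rintro v ⟨i, q, hq, rfl⟩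
  exact ⟨i, q, h hq, rfl⟩

theorem sssat_leafRL_image {Λ : Type} {n : ℕ} (σ π : Equiv.Perm (Fin n)) (P : Finset (Fin n)) :
    (leafRL (σ * π) P : Set (LV Λ (Fin n))) = leafRL σ (P.image π) := by
  ext v
  constructor
  · rintro ⟨i, q, hq, rfl⟩
    exact ⟨i, π q, Finset.mem_image_of_mem _ hq, rfl⟩
  · rintro ⟨i, q, hq, rfl⟩
    obtain ⟨q', hq', rfl⟩ := Finset.mem_image.1 hq
    exact ⟨i, q', hq', rfl⟩

theorem ssat (Λ κ : Type) [Fintype Λ] [DecidableEq Λ] [Fintype κ] [DecidableEq κ] (η : ℝ) (hη : 0 < η) :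
    ∃ R n₀ : ℕ, ∀ n : ℕ, n₀ ≤ n → ∀ e : κ → Fin n, Function.Injective e →
      ∀ (Ω : Type) [Fintype Ω] (w : Ω → ℝ) (W : Ω → SimpleGraph (LV Λ (Fin n))), IsLaw w →
      ∃ P0 P1 P2 : Finset (Fin n), Disjoint P0 P1 ∧ Disjoint P0 P2 ∧ Disjoint P1 P2 ∧
        Disjoint P0 (Finset.univ.image e) ∧ Disjoint P1 (Finset.univ.image e) ∧
        Disjoint P2 (Finset.univ.image e) ∧ P0.card ≤ R ∧
        avg (fun σ : Equiv.Perm (Fin n) => pr w {ω | badS σ e P0 P1 P2 (W ω)}) ≤ η := by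
  let Y : Type := {y : (Λ × κ) × (Λ × κ) // y.1.2 ≠ y.2.2}
  let J : Type := Fin 3 × Y × Option κ
  obtain ⟨I, hI⟩ := exists_nat_gt ((Fintype.card J : ℝ) * (Fintype.card Y : ℝ) / η)
  have hIpos : (0 : ℝ) < ((I + 1 : ℕ) : ℝ) := by positivity
  have hJ : (Fintype.card J : ℝ) * ((Fintype.card Y : ℝ) / ((I + 1 : ℕ) : ℝ)) ≤ η := by
    rw [← mul_div_assoc, div_le_iff₀ hIpos]
    rw [div_lt_iff₀ hη] at hI
    push_cast
    nlinarith
  refine ⟨4 ^ (I + 1), 3 * 4 ^ (I + 1) + Fintype.card κ + 2, ?_⟩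
  intro n hn e he Ω _ w W hw
  let F : Y → Finset (Fin n) := fun y => {e y.1.1.2, e y.1.2.2}
  let f : Y → Equiv.Perm (Fin n) → Finset (Fin n) → ℝ := fun y σ P =>
    pr w {ω | (derL (posS σ e) (leafRL σ P) (W ω)).Adj (leaf y.1.1) (leaf y.1.2)}
  have hmono' : ∀ (y : Y) (σ : Equiv.Perm (Fin n)) (P P' : Finset (Fin n)), P ⊆ P' →
      {ω | (derL (posS σ e) (leafRL σ P) (W ω)).Adj (leaf y.1.1) (leaf y.1.2)} ⊆
      {ω | (derL (posS σ e) (leafRL σ P') (W ω)).Adj (leaf y.1.1) (leaf y.1.2)} := by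
    intro y σ P P' hPP' ω (hω : (derL (posS σ e) (leafRL σ P) (W ω)).Adj (leaf y.1.1) (leaf y.1.2))
    show (derL (posS σ e) (leafRL σ P') (W ω)).Adj (leaf y.1.1) (leaf y.1.2)
    exact derL_mono (sssat_leafRL_mono σ hPP') (W ω) hω
  have hcardF : ∀ y : Y, (F y).card ≤ 2 := fun y => Finset.card_le_two
  obtain ⟨t, htI, ht⟩ := saturation F f
    (fun y σ P P' hPP' => pr_mono hw (hmono' y σ P P' hPP'))
    (fun y σ P => pr_nonneg hw _) (fun y σ P => pr_le_one hw _)
    (by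
      intro y σ π P hπ
      have ha : π (e y.1.1.2) = e y.1.1.2 := hπ _ (Finset.mem_insert_self _ _)
      have hb : π (e y.1.2.2) = e y.1.2.2 :=
        hπ _ (Finset.mem_insert_of_mem (Finset.mem_singleton_self _))
      show pr w _ = pr w _
      congr 1
      ext ω
      rw [Set.mem_ofPred_eq, Set.mem_ofPred_eq, derL_adj_leaf y.2, derL_adj_leaf y.2,
        sssat_leafRL_image]
      have hxa : posS (σ * π) e (leaf y.1.1) = posS σ e (leaf y.1.1) := by
        show leaf (y.1.1.1, σ (π (e y.1.1.2))) = leaf (y.1.1.1, σ (e y.1.1.2))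
        rw [ha]
      have hxb : posS (σ * π) e (leaf y.1.2) = posS σ e (leaf y.1.2) := by
        show leaf (y.1.2.1, σ (π (e y.1.2.2))) = leaf (y.1.2.1, σ (e y.1.2.2))
        rw [hb]
      rw [hxa, hxb])
    1 (I + 1) le_rfl (by omega)
    (by
      intro y
      rw [Fintype.card_fin]
      have := hcardF y
      have h4 : 0 < 4 ^ (I + 1) := by positivity
      omega)
  have h4t : 4 ^ t ≤ 4 ^ (I + 1) := Nat.pow_le_pow_right (by norm_num) (by omega)
  have h4t1 : 1 ≤ 4 ^ t := Nat.one_le_pow _ _ (by norm_num)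
  have hScard : 3 * 4 ^ t ≤ ((Finset.univ : Finset (Fin n)) \ (Finset.univ.image e)).card := by
    rw [Finset.card_sdiff_of_subset (Finset.subset_univ _), Finset.card_univ, Fintype.card_fin]
    have : (Finset.univ.image e).card ≤ Fintype.card κ := by
      refine Finset.card_image_le.trans ?_
      rw [Finset.card_univ]
    omega
  obtain ⟨P0, P1, P2, hS0, hS1, hS2, hc0, hc1, hc2, h01, h02, h12⟩ := sssat_sets _ hScard
  have hdis : ∀ P : Finset (Fin n), P ⊆ Finset.univ \ (Finset.univ.image e) →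
      Disjoint P (Finset.univ.image e) := by
    intro P hP
    rw [Finset.disjoint_left]
    intro x hx
    exact (Finset.mem_sdiff.1 (hP hx)).2
  refine ⟨P0, P1, P2, h01, h02, h12, hdis _ hS0, hdis _ hS1, hdis _ hS2, by rw [hc0]; exact h4t, ?_⟩
  let PP : Fin 3 → Finset (Fin n) := ![P0, P1, P2]
  let QQ : Option κ → Finset (Fin n) := fun z => z.elim (P0 ∪ P1 ∪ P2) (fun k => P0 ∪ P1 ∪ P2 ∪ {e k})
  let vd : Y → Option κ → Prop := fun y z => ∀ k, z = some k → k ≠ y.1.1.2 ∧ k ≠ y.1.2.2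
  have hPPsub : ∀ j : Fin 3, PP j ⊆ Finset.univ \ (Finset.univ.image e) := by
    intro j
    fin_cases j
    · exact hS0
    · exact hS1
    · exact hS2
  have hPPc : ∀ j : Fin 3, (PP j).card = 4 ^ t := by
    intro j
    fin_cases j
    · exact hc0
    · exact hc1
    · exact hc2
  have hPU : ∀ j : Fin 3, PP j ⊆ P0 ∪ P1 ∪ P2 := by
    intro j
    fin_cases j
    · intro x hx
      exact Finset.mem_union_left _ (Finset.mem_union_left _ hx)
    · intro x hx
      exact Finset.mem_union_left _ (Finset.mem_union_right _ hx)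
    · intro x hx
      exact Finset.mem_union_right _ hx
  have hPQ : ∀ (j : Fin 3) (z : Option κ), PP j ⊆ QQ z := by
    intro j z
    cases z with
    | none => exact hPU j
    | some k => exact (hPU j).trans Finset.subset_union_left
  have hUc : (P0 ∪ P1 ∪ P2).card ≤ 3 * 4 ^ t := by
    have h1 := Finset.card_union_le (P0 ∪ P1) P2
    have h2 := Finset.card_union_le P0 P1
    omega
  have hQc : ∀ z : Option κ, (QQ z).card ≤ 4 ^ (t + 1) := by
    intro z
    rw [pow_succ]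
    cases z with
    | none =>
      show (P0 ∪ P1 ∪ P2).card ≤ _
      omega
    | some k =>
      show (P0 ∪ P1 ∪ P2 ∪ {e k}).card ≤ _
      have h1 := Finset.card_union_le (P0 ∪ P1 ∪ P2) {e k}
      rw [Finset.card_singleton] at h1
      omega
  have hFsub : ∀ y : Y, F y ⊆ Finset.univ.image e := by
    intro y x hx
    rcases Finset.mem_insert.1 hx with rfl | hx
    · exact Finset.mem_image_of_mem _ (Finset.mem_univ _)
    · rw [Finset.mem_singleton.1 hx]
      exact Finset.mem_image_of_mem _ (Finset.mem_univ _)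
  have hUdis : Disjoint (P0 ∪ P1 ∪ P2) (Finset.univ.image e) := by
    rw [Finset.disjoint_union_left, Finset.disjoint_union_left]
    exact ⟨⟨hdis _ hS0, hdis _ hS1⟩, hdis _ hS2⟩
  have hQd : ∀ (y : Y) (z : Option κ), vd y z → Disjoint (QQ z) (F y) := by
    intro y z hz
    cases z with
    | none => exact hUdis.mono_right (hFsub y)
    | some k =>
      show Disjoint (P0 ∪ P1 ∪ P2 ∪ {e k}) (F y)
      rw [Finset.disjoint_union_left]
      refine ⟨hUdis.mono_right (hFsub y), ?_⟩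
      rw [Finset.disjoint_singleton_left]
      intro hk
      obtain ⟨hk1, hk2⟩ := hz k rfl
      rcases Finset.mem_insert.1 hk with hk | hk
      · exact hk1 (he hk)
      · exact hk2 (he (Finset.mem_singleton.1 hk))
  -- union bound
  let B : J → Equiv.Perm (Fin n) → Ω → Prop := fun q σ ω =>
    vd q.2.1 q.2.2 ∧ (derL (posS σ e) (leafRL σ (QQ q.2.2)) (W ω)).Adj (leaf q.2.1.1.1) (leaf q.2.1.1.2) ∧
      ¬ (derL (posS σ e) (leafRL σ (PP q.1)) (W ω)).Adj (leaf q.2.1.1.1) (leaf q.2.1.1.2)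
  have hub : ∀ σ : Equiv.Perm (Fin n), pr w {ω | badS σ e P0 P1 P2 (W ω)} ≤
      ∑ q : J, pr w {ω | B q σ ω} := by
    intro σ
    refine le_trans (pr_mono hw ?_) (pr_exists_le hw Finset.univ (fun q ω => B q σ ω))
    rintro ω ⟨P, hP, a, b, hab, h1, h2⟩
    have hj : ∃ j : Fin 3, PP j = P := by
      rcases hP with rfl | rfl | rfl
      · exact ⟨0, rfl⟩
      · exact ⟨1, rfl⟩
      · exact ⟨2, rfl⟩
    obtain ⟨j, rfl⟩ := hj
    rcases h1 with h1 | ⟨k, hka, hkb, h1⟩
    · refine ⟨(j, ⟨(a, b), hab⟩, none), Finset.mem_univ _, ?_, h1, h2⟩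
      intro k hk
      exact absurd hk (by simp)
    · refine ⟨(j, ⟨(a, b), hab⟩, some k), Finset.mem_univ _, ?_, h1, h2⟩
      intro k' hk'
      obtain rfl := Option.some.inj hk'
      exact ⟨hka, hkb⟩
  have hone : ∀ q : J, avg (fun σ : Equiv.Perm (Fin n) => pr w {ω | B q σ ω}) ≤
      (Fintype.card Y : ℝ) / ((I + 1 : ℕ) : ℝ) := by
    rintro ⟨j, y, z⟩
    by_cases hz : vd y z
    · have hkey := ht y (PP j) (QQ z) (((hdis _ (hPPsub j))).mono_right (hFsub y)) (hQd y z hz)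
        (by rw [hPPc j, one_mul]) (by rw [one_mul]; exact hQc z)
      refine le_trans (le_of_eq ?_) hkey
      have hfun : (fun σ : Equiv.Perm (Fin n) => pr w {ω | B (j, y, z) σ ω}) =
          fun σ => f y σ (QQ z) + (-1) * f y σ (PP j) := by
        funext σ
        have h1 := pr_inter_add_diff (w := w)
          {ω | (derL (posS σ e) (leafRL σ (QQ z)) (W ω)).Adj (leaf y.1.1) (leaf y.1.2)}
          {ω | (derL (posS σ e) (leafRL σ (PP j)) (W ω)).Adj (leaf y.1.1) (leaf y.1.2)}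
        rw [Set.inter_eq_right.2 (hmono' y σ (PP j) (QQ z) (hPQ j z))] at h1
        have h2 : {ω | B (j, y, z) σ ω} =
            {ω | (derL (posS σ e) (leafRL σ (QQ z)) (W ω)).Adj (leaf y.1.1) (leaf y.1.2)} \
            {ω | (derL (posS σ e) (leafRL σ (PP j)) (W ω)).Adj (leaf y.1.1) (leaf y.1.2)} := by
          ext ω
          exact ⟨fun h => ⟨h.2.1, h.2.2⟩, fun h => ⟨hz, h.1, h.2⟩⟩
        rw [h2]
        show _ = pr w _ + (-1) * pr w _
        linarith
      rw [hfun, avg_add, avg_const_mul]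
      ring
    · have hfun : (fun σ : Equiv.Perm (Fin n) => pr w {ω | B (j, y, z) σ ω}) = fun _ => 0 := by
        funext σ
        have h2 : {ω | B (j, y, z) σ ω} = ∅ := by
          ext ω
          exact ⟨fun h => absurd h.1 hz, fun h => absurd h (Set.notMem_empty _)⟩
        rw [h2]
        exact pr_empty
      rw [hfun]
      exact avg_le_of_le (by positivity) fun _ => by positivity
  calc avg (fun σ : Equiv.Perm (Fin n) => pr w {ω | badS σ e P0 P1 P2 (W ω)})
      ≤ avg (fun σ : Equiv.Perm (Fin n) => ∑ q : J, pr w {ω | B q σ ω}) := avg_mono hub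
    _ = ∑ q : J, avg (fun σ : Equiv.Perm (Fin n) => pr w {ω | B q σ ω}) :=
        avg_sum Finset.univ (fun q σ => pr w {ω | B q σ ω})
    _ ≤ ∑ _q : J, (Fintype.card Y : ℝ) / ((I + 1 : ℕ) : ℝ) := Finset.sum_le_sum fun q _ => hone q
    _ = (Fintype.card J : ℝ) * ((Fintype.card Y : ℝ) / ((I + 1 : ℕ) : ℝ)) := by
        rw [Finset.sum_const, Finset.card_univ, nsmul_eq_mul]
    _ ≤ η := hJ

end Pool.Agent.LP.SS
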