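import Pool.Agent.LP.SSTV
import Pool.Agent.LP.SSSat
import Pool.Agent.LP.SSNear
import Pool.Agent.LP.SSSamp
import Pool.Agent.OIP.SGoodDefs
import Pool.Agent.LP.SSOutBr

/-!
# LP, samples of a star: output for near sample laws and for samples of an exact star

`samp_law` (the theory of exact sample laws at `p = pc`) is the main theorem of the first half of Part I.a.
`samp_near`: `samp_law` with `ε / 2` and `sample_tv` with `η' = min (ε / 2) (1 / 100)`; all fields are inequalities between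
probabilities.
`samples`: choose `m` with `samp_near` and `2 |Λ| / ((1/1000)² * 5 m) ≤ ρ`, then `η`, then `R`, `n₀` by `ssat` for
`η / 4 * ρ`; by Markov `pr (badS σ) ≤ η / 4` for all but a fraction `ρ` of the `σ`, and then `nearS_of`.
-/

set_option autoImplicit false

open Finset
open scoped Classical

namespace Pool.Agent.LP.SS

open Pool.Agent.OIP

/-- transfer of the output along a small total variation distance -/
theorem ssout_transfer {Λ κ : Type} [Fintype κ] (L : SimpleGraph Λ) {ε : ℝ} (U : Λ → Λ → Prop)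
    (P : Λ → Prop) (Q Q' : Set (SimpleGraph (LV Λ κ)) → ℝ)
    (h : ∀ A, |Q A - Q' A| ≤ min (ε / 2) (1 / 100))
    (hS : SampOut L (1 / 500) (26 / 100) (ε / 2) Q' U P) : SampOut L (1 / 500) (1 / 4) ε Q U P := by
  have h1 : ∀ A, Q A ≤ Q' A + ε / 2 := by
    intro A
    have := (abs_le.1 (h A)).2
    have := min_le_left (ε / 2) (1 / 100 : ℝ)
    linarith
  have h2 : ∀ A, Q' A - ε / 2 ≤ Q A := by
    intro A
    have := (abs_le.1 (h A)).1
    have := min_le_left (ε / 2) (1 / 100 : ℝ)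
    linarith
  have h3 : ∀ A, Q' A - 1 / 100 ≤ Q A := by
    intro A
    have := (abs_le.1 (h A)).1
    have := min_le_right (ε / 2) (1 / 100 : ℝ)
    linarith
  refine ⟨hS.rules, ?_, ?_, ?_, ?_⟩
  · have := hS.nice
    have := h1 {H | ¬ NiceS L (1 / 500) U H}
    linarith
  · intro i i' hU hP
    have ha := hS.pend i i' hU hP
    have hb := h3 {H : SimpleGraph (LV Λ κ) | 200 * hdeg H i ≤ Fintype.card κ}
    linarith
  · intro i i' hU hP
    have ha := hS.mend i i' hU hP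
    have hb := h1 {H : SimpleGraph (LV Λ κ) | 4 * hdeg H i ≤ Fintype.card κ}
    linarith
  · intro i i' hU hP
    obtain ⟨j, j', hN⟩ := hS.mnum i i' hU hP
    refine ⟨j, j', ⟨hN.ne, ?_, ?_, ?_, ?_, ?_⟩⟩
    · have ha := hN.a1
      have hb := h2 {H : SimpleGraph (LV Λ κ) | EvS i i' j j' H}
      linarith
    · have ha := hN.a2
      have hb := h1 {H : SimpleGraph (LV Λ κ) | ¬ InS H (i, j) i' ∧ ¬ InS H (i, j') i}
      linarith
    · have ha := hN.b
      have hb := h2 {H : SimpleGraph (LV Λ κ) | EvS i i' j j' H ∧ H.Adj (hub i) (leaf (i, j))}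
      linarith
    · have ha := hN.c
      have hb := h2 {H : SimpleGraph (LV Λ κ) | EvS i i' j j' H ∧ H.Adj (hub i) (leaf (i, j'))}
      linarith
    · have ha := hN.d
      have hb := h1 {H : SimpleGraph (LV Λ κ) | ¬ InS H (i, j') i ∧ H.Adj (hub i) (leaf (i, j')) ∧
        ¬ H.Adj (hub i) (hub i')}
      linarith

theorem samp_near {Λ : Type} [Fintype Λ] [DecidableEq Λ] (L : SimpleGraph Λ) (hL : ∀ i, ∃ i', L.Adj i i')
    (ε : ℝ) (hε : 0 < ε) :
    ∃ m₀ : ℕ, ∀ m : ℕ, m₀ ≤ m → ∃ η : ℝ, 0 < η ∧ ∀ (Ω : Type) [Fintype Ω] (w : Ω → ℝ)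
      (W : Ω → SimpleGraph (LV Λ (I5 m))), NearS L η pc w W → ∃ (U : Λ → Λ → Prop) (P : Λ → Prop),
        SampOut L (1 / 500) (1 / 4) ε (fun A => pr w {ω | W ω ∈ A}) U P := by
  obtain ⟨m₀, hm₀⟩ := samp_law L hL (ε / 2) (half_pos hε)
  refine ⟨m₀, fun m hm => ?_⟩
  have hη' : (0 : ℝ) < min (ε / 2) (1 / 100) := lt_min (half_pos hε) (by norm_num)
  obtain ⟨η, hη, htv⟩ := sample_tv (κ := I5 m) L pc (min (ε / 2) (1 / 100)) hη'
  refine ⟨η, hη, fun Ω _ w W hW => ?_⟩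
  obtain ⟨Ω', _, w', W', hW', htv'⟩ := htv Ω w W hW
  obtain ⟨U, P, hS⟩ := hm₀ m hm Ω' w' W' hW'
  refine ⟨U, P, ?_⟩
  exact ssout_transfer L U P (fun A => pr w {ω | W ω ∈ A}) (fun A => pr w' {ω | W' ω ∈ A})
    (fun A => htv' A) hS

theorem samples {Λ : Type} [Fintype Λ] [DecidableEq Λ] (L : SimpleGraph Λ) (hL : ∀ i, ∃ i', L.Adj i i')
    (ε ρ : ℝ) (hε : 0 < ε) (hρ : 0 < ρ) :
    ∃ m R n₀ : ℕ, 1 ≤ m ∧ 2 * (Fintype.card Λ : ℝ) / ((1 / 1000) ^ 2 * (Fintype.card (I5 m) : ℝ)) ≤ ρ ∧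
    ∀ n : ℕ, n₀ ≤ n → ∀ e : I5 m → Fin n, Function.Injective e → ∀ (Ω : Type) [Fintype Ω] (w : Ω → ℝ)
      (W : Ω → SimpleGraph (LV Λ (Fin n))), LStar L pc w W →
      ∃ P0 : Finset (Fin n), Disjoint P0 (Finset.univ.image e) ∧ P0.card ≤ R ∧
        avg (fun σ : Equiv.Perm (Fin n) => ind (¬ ∃ (U : Λ → Λ → Prop) (P : Λ → Prop),
          SampOut L (1 / 500) (1 / 4) ε (fun A => pr w {ω | sampG σ e P0 (W ω) ∈ A}) U P)) ≤ ρ := by
  obtain ⟨m₀, hm₀⟩ := samp_near L hL ε hε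
  obtain ⟨m, hm1, hm2, hm3⟩ : ∃ m : ℕ, m₀ ≤ m ∧ 1 ≤ m ∧
      2 * (Fintype.card Λ : ℝ) / ((1 / 1000) ^ 2 * (Fintype.card (I5 m) : ℝ)) ≤ ρ := by
    obtain ⟨N, hN⟩ := exists_nat_gt (2 * (Fintype.card Λ : ℝ) / ((1 / 1000) ^ 2 * ρ))
    refine ⟨max m₀ (max 1 N), le_max_left _ _, le_trans (le_max_left 1 N) (le_max_right _ _), ?_⟩
    set m := max m₀ (max 1 N) with hmdef
    have hNm : N ≤ m := le_trans (le_max_right 1 N) (le_max_right _ _)
    have h1m : 1 ≤ m := le_trans (le_max_left 1 N) (le_max_right _ _)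
    have hcard : (Fintype.card (I5 m) : ℝ) = 5 * (m : ℝ) := by
      simp [I5]
    have hmpos : (0 : ℝ) < (m : ℝ) := by exact_mod_cast h1m
    have hNm' : (N : ℝ) ≤ (m : ℝ) := by exact_mod_cast hNm
    rw [hcard, div_le_iff₀ (by positivity)]
    rw [div_lt_iff₀ (by positivity)] at hN
    have h2 : (N : ℝ) * ((1 / 1000) ^ 2 * ρ) ≤ (m : ℝ) * ((1 / 1000) ^ 2 * ρ) :=
      mul_le_mul_of_nonneg_right hNm' (by positivity)
    have h3 : 0 ≤ (m : ℝ) * ((1 / 1000) ^ 2 * ρ) := by positivity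
    nlinarith
  obtain ⟨η, hη, hnear⟩ := hm₀ m hm1
  obtain ⟨R, n₀, hR⟩ := ssat Λ (I5 m) (η / 4 * ρ) (by positivity)
  refine ⟨m, R, n₀, hm2, hm3, fun n hn e he Ω _ w W hW => ?_⟩
  obtain ⟨P0, P1, P2, h01, h02, h12, h0, h1, h2, hcard, havg⟩ := hR n hn e he Ω w W hW.law
  refine ⟨P0, h0, hcard, ?_⟩
  have hη4 : (0 : ℝ) < η / 4 := by linarith
  have hmk := avg_ind_lt_le (X := Equiv.Perm (Fin n))
    (F := fun σ => pr w {ω | badS σ e P0 P1 P2 (W ω)})
    (fun σ => pr_nonneg hW.law _) hη4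
  have hle : avg (fun σ : Equiv.Perm (Fin n) => pr w {ω | badS σ e P0 P1 P2 (W ω)}) / (η / 4) ≤ ρ := by
    rw [div_le_iff₀ hη4]
    linarith
  refine le_trans (avg_mono fun σ => ind_mono fun hno => ?_) (le_trans hmk hle)
  by_contra hcon
  push Not at hcon
  apply hno
  have hN := nearS_of e he hW h01 h02 h12 h0 h1 h2 σ hcon
  have h4 : 4 * (η / 4) = η := by ring
  rw [h4] at hN
  exact hnear Ω w (fun ω => sampG σ e P0 (W ω)) hN

end Pool.Agent.LP.SS
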