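import Pool.Agent.LP.SXDefs
import Pool.Agent.LP.LTV

/-!
# LP, samples of a star: near sample laws are close to exact sample laws

As `near_tv` (file LTV.lean, same compactness argument, two more families of constraints, see `OIP.CompactSample`).
-/

set_option autoImplicit false

open Finset
open scoped Classical

namespace Pool.Agent.LP.SS

open Pool.Agent.OIP

theorem sstv_push {Λ κ : Type} [Fintype (SimpleGraph (LV Λ κ))] (L : SimpleGraph Λ) (η p : ℝ)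
    (Ω : Type) [Fintype Ω] (w : Ω → ℝ) (W : Ω → SimpleGraph (LV Λ κ)) (h : NearS L η p w W) :
    NearS L η p (push w W) (fun G => G) := by
  have e := fun U : Set (SimpleGraph (LV Λ κ)) => pr_push w W U
  refine ⟨ltv_push L η p Ω w W h.toNearL, ?_, ?_⟩
  · intro a b c hab hbc hac
    rw [e {G | G.Adj (leaf a) (leaf b) ∧ G.Adj (leaf b) (leaf c) ∧ ¬ G.Adj (leaf a) (leaf c)}]
    exact h.tr1 a b c hab hbc hac
  · intro a b i i' k hak hbk hab
    rw [e {G | G.Adj (leaf a) (leaf (i, k)) ∧ G.Adj (leaf (i, k)) (leaf (i', k)) ∧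
      G.Adj (leaf (i', k)) (leaf b) ∧ ¬ G.Adj (leaf a) (leaf b)}]
    exact h.tr2 a b i i' k hak hbk hab

theorem sstv_limit {Λ κ : Type} [Fintype (SimpleGraph (LV Λ κ))] (L : SimpleGraph Λ) (p : ℝ)
    (q : ℕ → SimpleGraph (LV Λ κ) → ℝ) (e : ℕ → ℝ) (he : Filter.Tendsto e Filter.atTop (nhds 0))
    (h : ∀ k, NearS L (e k) p (q k) (fun G => G)) (y : SimpleGraph (LV Λ κ) → ℝ) (hy : IsLaw y)
    (hlim : Filter.Tendsto q Filter.atTop (nhds y)) : NearS L 0 p y (fun G => G) := by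
  have c := fun U : Set (SimpleGraph (LV Λ κ)) => ((ltv_cont U).tendsto y).comp hlim
  refine ⟨ltv_limit L p q e he (fun k => (h k).toNearL) y hy hlim, ?_, ?_⟩
  · intro a b d hab hbd had
    exact le_of_tendsto_of_tendsto' (c {G | G.Adj (leaf a) (leaf b) ∧ G.Adj (leaf b) (leaf d) ∧
      ¬ G.Adj (leaf a) (leaf d)}) he fun m => (h m).tr1 a b d hab hbd had
  · intro a b i i' k hak hbk hab
    exact le_of_tendsto_of_tendsto' (c {G | G.Adj (leaf a) (leaf (i, k)) ∧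
      G.Adj (leaf (i, k)) (leaf (i', k)) ∧ G.Adj (leaf (i', k)) (leaf b) ∧
      ¬ G.Adj (leaf a) (leaf b)}) he fun m => (h m).tr2 a b i i' k hak hbk hab

theorem sstv_exact {Λ κ : Type} [Fintype (SimpleGraph (LV Λ κ))] (L : SimpleGraph Λ) (p : ℝ)
    (y : SimpleGraph (LV Λ κ) → ℝ) (h : NearS L 0 p y (fun G => G)) :
    LSample L p (fun G : {G : SimpleGraph (LV Λ κ) // y G ≠ 0} => y G.1) (fun G => G.1) := by
  refine ⟨ltv_exact L p y h.toNearL, ?_⟩
  intro G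
  constructor
  · intro a b c hab hbc hac h1 h2
    by_contra h3
    exact ltv_null h.law (h.tr1 a b c hab hbc hac) G.2 ⟨h1, h2, h3⟩
  · intro a b i i' k hak hbk hab h1 h2 h3
    by_contra h4
    exact ltv_null h.law (h.tr2 a b i i' k hak hbk hab) G.2 ⟨h1, h2, h3, h4⟩

theorem sample_tv {Λ κ : Type} [Fintype Λ] [DecidableEq Λ] [Fintype κ] [DecidableEq κ] (L : SimpleGraph Λ)
    (p η' : ℝ) (hη' : 0 < η') :
    ∃ η : ℝ, 0 < η ∧ ∀ (Ω : Type) [Fintype Ω] (w : Ω → ℝ) (W : Ω → SimpleGraph (LV Λ κ)), NearS L η p w W →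
      ∃ (Ω' : Type) (_ : Fintype Ω') (w' : Ω' → ℝ) (W' : Ω' → SimpleGraph (LV Λ κ)), LSample L p w' W' ∧
        ∀ U : Set (SimpleGraph (LV Λ κ)), |pr w {ω | W ω ∈ U} - pr w' {ω | W' ω ∈ U}| ≤ η' := by
  let _ : Fintype (SimpleGraph (LV Λ κ)) := Fintype.ofFinite _
  by_contra hcon
  push Not at hcon
  have key : ∀ k : ℕ, ∃ q : SimpleGraph (LV Λ κ) → ℝ, NearS L (1 / ((k : ℝ) + 1)) p q (fun G => G) ∧
      ∀ (Ω' : Type) (_ : Fintype Ω') (w' : Ω' → ℝ) (W' : Ω' → SimpleGraph (LV Λ κ)), LSample L p w' W' →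
        ∃ U : Set (SimpleGraph (LV Λ κ)), η' < |pr q U - pr w' {ω | W' ω ∈ U}| := by
    intro k
    obtain ⟨Ω, hΩ, w, W, h1, h2⟩ := hcon (1 / ((k : ℝ) + 1)) Nat.one_div_pos_of_nat
    refine ⟨push w W, sstv_push L _ p Ω w W h1, ?_⟩
    intro Ω' hΩ' w' W' h3
    obtain ⟨U, hU⟩ := h2 Ω' hΩ' w' W' h3
    refine ⟨U, ?_⟩
    rw [pr_push w W U]
    exact hU
  choose q hq hq' using key
  have hmem : ∀ k, q k ∈ stdSimplex ℝ (SimpleGraph (LV Λ κ)) :=
    fun k => ⟨(hq k).law.nonneg, (hq k).law.total⟩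
  obtain ⟨y, hy, φ, hφ, hlim⟩ := (isCompact_stdSimplex ℝ (SimpleGraph (LV Λ κ))).tendsto_subseq hmem
  have hlaw : IsLaw y := ⟨hy.1, hy.2⟩
  have ht : Filter.Tendsto (fun k : ℕ => 1 / ((φ k : ℝ) + 1)) Filter.atTop (nhds 0) :=
    (tendsto_one_div_add_atTop_nhds_zero_nat (𝕜 := ℝ)).comp hφ.tendsto_atTop
  have hN := sstv_limit L p (fun k => q (φ k)) (fun k => 1 / ((φ k : ℝ) + 1)) ht
    (fun k => hq (φ k)) y hlaw hlim
  have hE := sstv_exact L p y hN
  have hc : Continuous fun q : SimpleGraph (LV Λ κ) → ℝ => ∑ x, |q x - y x| :=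
    continuous_finsetSum _ fun x _ => ((continuous_apply x).sub continuous_const).abs
  have h0 : Filter.Tendsto (fun k => ∑ x, |q (φ k) x - y x|) Filter.atTop (nhds 0) := by
    have h1 := (hc.tendsto y).comp hlim
    simp only [sub_self, abs_zero, Finset.sum_const_zero] at h1
    exact h1
  obtain ⟨k, hk⟩ := (h0.eventually (gt_mem_nhds hη')).exists
  obtain ⟨U, hU⟩ := hq' (φ k) _ _ _ _ hE
  have e := pr_support y U
  rw [e] at hU
  exact absurd ((ltv_diff (q (φ k)) y U).trans hk.le) (not_le.2 hU)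

end Pool.Agent.LP.SS
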