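import Pool.Agent.LP.SSFinDefs

/-!
# LP, Part I.a: types and rules of the star

The average over `σ` of `pr (¬ Rep (1/1000) e σ (W ω))` is at most `ρ` (`avg_pr_le`, `rep_avg`), so the fraction of the `σ`
with `pr (¬ Rep_σ) > 20 ρ` is at most `1/20` and any property of a fraction `≥ 1/10` of the `σ` is shared by a `σ` with
`pr (¬ Rep_σ) ≤ 20 ρ` (`exists_rep`).
(A) if the fraction of the `σ` with `TS`, `US σ i i'`, `PS σ i` is at least `1/10` then `PN i`: for such a `σ`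
`1/4 ≤ pr {200 hdeg (sample) ≤ |κ|}` (`pend`) and `200 hdeg (sample) ≤ |κ|` with `Rep` gives
`hdeg / n ≤ 6/1000` (`rep_hdeg`), so `100 hdeg ≤ n`; `1/4 - 20 ρ ≥ 1/5`.
(B) if the fraction with `TS`, `US σ i i'`, `¬ PS σ i` is at least `1/10` then `pr {5 hdeg i ≤ n} ≤ 1/100`: `5 hdeg ≤ n`
and `Rep` give `hdeg (sample) ≤ (201/1000) |κ|`, so `4 hdeg ≤ |κ|`, probability at most `ρ` (`mend`); `21 ρ ≤ 1/100`.
In case (B) not `PN i`, since `100 hdeg ≤ n` implies `5 hdeg ≤ n`.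
Hence for `UN i i'` (fraction `≥ 9/10`) exactly one of the two fractions is `≥ 1/10`, the other one is `≥ 8/10`
(`ss_type`).  `ss_rules` : `symm` from `Rules.symm`; `u1`, `u2`, `u3` from a common `σ` (fractions `8/10 + 9/10 > 1`,
`8/10 + 8/10 > 1`).
-/

set_option autoImplicit false

open Finset
open scoped Classical

namespace Pool.Agent.LP.SS

open Pool.Agent.OIP

section

variable {Λ : Type} [Fintype Λ] [DecidableEq Λ] {κ : Type} [Fintype κ] [DecidableEq κ] {n : ℕ} {Ω : Type}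
  [Fintype Ω] {L : SimpleGraph Λ} {ρ : ℝ} {w : Ω → ℝ} {W : Ω → SimpleGraph (LV Λ (Fin n))} {e : κ → Fin n}
  {P0 : Finset (Fin n)}

theorem exists_rep (h : SetS L ρ w W e P0) (Q : Equiv.Perm (Fin n) → Prop)
    (hQ : 1 / 10 ≤ avg (fun σ => ind (Q σ))) :
    ∃ σ, Q σ ∧ pr w {ω | ¬ Rep (1 / 1000) e σ (W ω)} ≤ 20 * ρ := by
  have havg : avg (fun σ : Equiv.Perm (Fin n) => pr w {ω | ¬ Rep (1 / 1000) e σ (W ω)}) ≤ ρ :=
    avg_pr_le h.star.law (fun σ ω => ¬ Rep (1 / 1000) e σ (W ω)) ρ fun ω =>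
      (rep_avg e h.inj (W ω) (1 / 1000) (by norm_num) h.k1).trans h.rep
  have hρ := h.pos
  have hmar := avg_ind_lt_le (F := fun σ : Equiv.Perm (Fin n) => pr w {ω | ¬ Rep (1 / 1000) e σ (W ω)})
    (fun σ => pr_nonneg h.star.law _) (t := 20 * ρ) (by linarith)
  have h20 : avg (fun σ : Equiv.Perm (Fin n) => pr w {ω | ¬ Rep (1 / 1000) e σ (W ω)}) / (20 * ρ) ≤ 1 / 20 := by
    rw [div_le_iff₀ (by linarith)]
    linarith
  by_contra hcon
  push Not at hcon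
  have hle : avg (fun σ => ind (Q σ)) ≤
      avg (fun σ : Equiv.Perm (Fin n) => ind (20 * ρ < pr w {ω | ¬ Rep (1 / 1000) e σ (W ω)})) :=
    avg_mono fun σ => ind_mono (hcon σ)
  linarith

private theorem sstype_common {A B : Equiv.Perm (Fin n) → Prop} {a b : ℝ}
    (hA : a ≤ avg (fun σ => ind (A σ))) (hB : b ≤ avg (fun σ => ind (B σ))) (hab : 1 < a + b) :
    ∃ σ, A σ ∧ B σ := by
  by_contra hcon
  push Not at hcon
  have hAB : 1 < avg (fun σ => ind (A σ)) + avg (fun σ => ind (B σ)) := by linarith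
  rw [← avg_add] at hAB
  have h1 : avg (fun σ => ind (A σ) + ind (B σ)) ≤ 1 := by
    refine avg_le_of_le zero_le_one fun σ => ?_
    by_cases hA : A σ
    · have hB := hcon σ hA
      have e1 : ind (B σ) = 0 := if_neg hB
      rw [e1, add_zero]
      exact ind_le_one _
    · have e1 : ind (A σ) = 0 := if_neg hA
      rw [e1, zero_add]
      exact ind_le_one _
  linarith

private theorem sstype_split {A B : Equiv.Perm (Fin n) → Prop} :
    avg (fun σ => ind (A σ)) = avg (fun σ => ind (A σ ∧ B σ)) + avg (fun σ => ind (A σ ∧ ¬ B σ)) := by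
  rw [← avg_add]
  congr 1
  funext σ
  unfold ind
  by_cases hA : A σ <;> by_cases hB : B σ <;> simp [hA, hB]

private theorem sstype_n (h : SetS L ρ w W e P0) : 1 ≤ n := by
  have h1 := h.k1
  have h2 : Nonempty κ := Fintype.card_pos_iff.mp (by omega)
  obtain ⟨k⟩ := h2
  have := (e k).2
  omega

private theorem sstype_A (h : SetS L ρ w W e P0) {i i' : Λ} {σ : Equiv.Perm (Fin n)}
    (hT : TS L ρ w W e P0 σ) (hU : US L ρ w W e P0 σ i i') (hP : PS L ρ w W e P0 σ i)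
    (hR : pr w {ω | ¬ Rep (1 / 1000) e σ (W ω)} ≤ 20 * ρ) : PN w W i := by
  have hn : (0 : ℝ) < n := by exact_mod_cast sstype_n h
  have hk : (0 : ℝ) < (Fintype.card κ : ℝ) := by exact_mod_cast h.k1
  have h1 := (typS_US hT).pend i i' hU hP
  have h2 : pr w {ω | sampG σ e P0 (W ω) ∈ {H : SimpleGraph (LV Λ κ) | 200 * hdeg H i ≤ Fintype.card κ}} ≤
      pr w ({ω | ¬ Rep (1 / 1000) e σ (W ω)} ∪ {ω | 100 * hdeg (W ω) i ≤ n}) := by
    refine pr_mono h.star.law ?_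
    intro ω hω
    rw [Set.mem_union]
    by_cases hRep : Rep (1 / 1000) e σ (W ω)
    · right
      have h3 : 200 * hdeg (sampG σ e P0 (W ω)) i ≤ Fintype.card κ := hω
      have h4 := rep_hdeg P0 hRep i
      have h5 : (200 : ℝ) * (hdeg (sampG σ e P0 (W ω)) i : ℝ) ≤ (Fintype.card κ : ℝ) := by exact_mod_cast h3
      have h6 : (hdeg (sampG σ e P0 (W ω)) i : ℝ) / (Fintype.card κ : ℝ) ≤ 5 / 1000 := by
        rw [div_le_iff₀ hk]
        linarith
      have h7 : (hdeg (W ω) i : ℝ) / (n : ℝ) ≤ 6 / 1000 := by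
        have := (abs_le.1 h4).1
        linarith
      rw [div_le_iff₀ hn] at h7
      have h8 : (100 : ℝ) * (hdeg (W ω) i : ℝ) ≤ (n : ℝ) := by linarith
      have h9 : 100 * hdeg (W ω) i ≤ n := by exact_mod_cast h8
      exact h9
    · left
      exact hRep
  have h3 := pr_union_le h.star.law {ω | ¬ Rep (1 / 1000) e σ (W ω)} {ω | 100 * hdeg (W ω) i ≤ n}
  have h4 := h.small
  unfold PN
  linarith

private theorem sstype_B (h : SetS L ρ w W e P0) {i i' : Λ} {σ : Equiv.Perm (Fin n)}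
    (hT : TS L ρ w W e P0 σ) (hU : US L ρ w W e P0 σ i i') (hP : ¬ PS L ρ w W e P0 σ i)
    (hR : pr w {ω | ¬ Rep (1 / 1000) e σ (W ω)} ≤ 20 * ρ) :
    pr w {ω | 5 * hdeg (W ω) i ≤ n} ≤ 1 / 100 := by
  have hn : (0 : ℝ) < n := by exact_mod_cast sstype_n h
  have hk : (0 : ℝ) < (Fintype.card κ : ℝ) := by exact_mod_cast h.k1
  have h1 := (typS_US hT).mend i i' hU hP
  have h2 : pr w {ω | 5 * hdeg (W ω) i ≤ n} ≤
      pr w ({ω | ¬ Rep (1 / 1000) e σ (W ω)} ∪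
        {ω | sampG σ e P0 (W ω) ∈ {H : SimpleGraph (LV Λ κ) | 4 * hdeg H i ≤ Fintype.card κ}}) := by
    refine pr_mono h.star.law ?_
    intro ω hω
    rw [Set.mem_union]
    by_cases hRep : Rep (1 / 1000) e σ (W ω)
    · right
      have h3 : 5 * hdeg (W ω) i ≤ n := hω
      have h4 := rep_hdeg P0 hRep i
      have h5 : (5 : ℝ) * (hdeg (W ω) i : ℝ) ≤ (n : ℝ) := by exact_mod_cast h3
      have h6 : (hdeg (W ω) i : ℝ) / (n : ℝ) ≤ 1 / 5 := by
        rw [div_le_iff₀ hn]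
        linarith
      have h7 : (hdeg (sampG σ e P0 (W ω)) i : ℝ) / (Fintype.card κ : ℝ) ≤ 201 / 1000 := by
        have := (abs_le.1 h4).2
        linarith
      rw [div_le_iff₀ hk] at h7
      have h8 : (4 : ℝ) * (hdeg (sampG σ e P0 (W ω)) i : ℝ) ≤ (Fintype.card κ : ℝ) := by linarith
      have h9 : 4 * hdeg (sampG σ e P0 (W ω)) i ≤ Fintype.card κ := by exact_mod_cast h8
      exact h9
    · left
      exact hRep
  have h3 := pr_union_le h.star.law {ω | ¬ Rep (1 / 1000) e σ (W ω)}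
    {ω | sampG σ e P0 (W ω) ∈ {H : SimpleGraph (LV Λ κ) | 4 * hdeg H i ≤ Fintype.card κ}}
  have h4 := h.small
  linarith

private theorem sstype_notPN (h : SetS L ρ w W e P0) {i : Λ}
    (hi : pr w {ω | 5 * hdeg (W ω) i ≤ n} ≤ 1 / 100) : ¬ PN w W i := by
  intro hP
  unfold PN at hP
  have h1 : pr w {ω | 100 * hdeg (W ω) i ≤ n} ≤ pr w {ω | 5 * hdeg (W ω) i ≤ n} := by
    refine pr_mono h.star.law ?_
    intro ω hω
    have h2 : 100 * hdeg (W ω) i ≤ n := hω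
    show 5 * hdeg (W ω) i ≤ n
    omega
  linarith

theorem ss_type (h : SetS L ρ w W e P0) (i i' : Λ) (hU : UN L ρ w W e P0 i i') :
    (PN w W i ∧ 8 / 10 ≤ avg (fun σ : Equiv.Perm (Fin n) =>
      ind (TS L ρ w W e P0 σ ∧ US L ρ w W e P0 σ i i' ∧ PS L ρ w W e P0 σ i))) ∨
    (¬ PN w W i ∧ pr w {ω | 5 * hdeg (W ω) i ≤ n} ≤ 1 / 100 ∧ 8 / 10 ≤ avg (fun σ : Equiv.Perm (Fin n) =>
      ind (TS L ρ w W e P0 σ ∧ US L ρ w W e P0 σ i i' ∧ ¬ PS L ρ w W e P0 σ i))) := by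
  have hsplit := sstype_split (n := n) (A := fun σ => TS L ρ w W e P0 σ ∧ US L ρ w W e P0 σ i i')
    (B := fun σ => PS L ρ w W e P0 σ i)
  simp only [and_assoc] at hsplit
  have hU2 := hU.2
  rw [hsplit] at hU2
  by_cases h1 : 1 / 10 ≤ avg (fun σ : Equiv.Perm (Fin n) =>
      ind (TS L ρ w W e P0 σ ∧ US L ρ w W e P0 σ i i' ∧ PS L ρ w W e P0 σ i))
  · left
    obtain ⟨σ, ⟨hT, hUs, hPs⟩, hR⟩ := exists_rep h _ h1
    have hPN := sstype_A h hT hUs hPs hR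
    refine ⟨hPN, ?_⟩
    have h2 : ¬ 1 / 10 ≤ avg (fun σ : Equiv.Perm (Fin n) =>
        ind (TS L ρ w W e P0 σ ∧ US L ρ w W e P0 σ i i' ∧ ¬ PS L ρ w W e P0 σ i)) := by
      intro h2
      obtain ⟨σ', ⟨hT', hUs', hPs'⟩, hR'⟩ := exists_rep h _ h2
      exact sstype_notPN h (sstype_B h hT' hUs' hPs' hR') hPN
    rw [not_le] at h2
    linarith
  · right
    rw [not_le] at h1
    have h2 : 8 / 10 ≤ avg (fun σ : Equiv.Perm (Fin n) =>
        ind (TS L ρ w W e P0 σ ∧ US L ρ w W e P0 σ i i' ∧ ¬ PS L ρ w W e P0 σ i)) := by linarith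
    have h3 : 1 / 10 ≤ avg (fun σ : Equiv.Perm (Fin n) =>
        ind (TS L ρ w W e P0 σ ∧ US L ρ w W e P0 σ i i' ∧ ¬ PS L ρ w W e P0 σ i)) := by linarith
    obtain ⟨σ', ⟨hT', hUs', hPs'⟩, hR'⟩ := exists_rep h _ h3
    have hB := sstype_B h hT' hUs' hPs' hR'
    exact ⟨sstype_notPN h hB, hB, h2⟩

theorem ss_rules (h : SetS L ρ w W e P0) : Rules L (UN L ρ w W e P0) (PN w W) := by
  have hsymm : ∀ i i', UN L ρ w W e P0 i i' → UN L ρ w W e P0 i' i := by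
    intro i i' hU
    refine ⟨L.adj_symm hU.1, hU.2.trans ?_⟩
    refine avg_mono fun σ => ind_mono ?_
    rintro ⟨hT, hUs⟩
    exact ⟨hT, (typS_US hT).rules.symm _ _ hUs⟩
  have htype : ∀ i i', UN L ρ w W e P0 i i' →
      (PN w W i → 8 / 10 ≤ avg (fun σ : Equiv.Perm (Fin n) =>
        ind (TS L ρ w W e P0 σ ∧ US L ρ w W e P0 σ i i' ∧ PS L ρ w W e P0 σ i))) ∧
      (¬ PN w W i → 8 / 10 ≤ avg (fun σ : Equiv.Perm (Fin n) =>
        ind (TS L ρ w W e P0 σ ∧ US L ρ w W e P0 σ i i' ∧ ¬ PS L ρ w W e P0 σ i))) := by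
    intro i i' hU
    rcases ss_type h i i' hU with ⟨h1, h2⟩ | ⟨h1, _, h2⟩
    · exact ⟨fun _ => h2, fun hn => absurd h1 hn⟩
    · exact ⟨fun hp => absurd hp h1, fun _ => h2⟩
  refine ⟨hsymm, fun i i' hU => hU.1, ?_, ?_, ?_⟩
  · intro i i' hU
    have t1 := htype i i' hU
    have t2 := htype i' i (hsymm i i' hU)
    constructor
    · intro hP hP'
      have c1 := t1.1 hP
      have c2 := t2.1 hP'
      obtain ⟨σ, ⟨hT, hUs, hPs⟩, ⟨_, _, hPs'⟩⟩ := sstype_common c1 c2 (by norm_num)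
      exact ((typS_US hT).rules.u1 _ _ hUs).1 hPs hPs'
    · intro hP'
      by_contra hP
      have c1 := t1.2 hP
      have c2 := t2.2 hP'
      obtain ⟨σ, ⟨hT, hUs, hPs⟩, ⟨_, _, hPs'⟩⟩ := sstype_common c1 c2 (by norm_num)
      exact hPs (((typS_US hT).rules.u1 _ _ hUs).2 hPs')
  · intro i i' i'' hU hU' hne hP
    have c1 := (htype i i' hU).1 hP
    have c2 := hU'.2
    obtain ⟨σ, ⟨hT, hUs, hPs⟩, ⟨_, hUs'⟩⟩ := sstype_common c1 c2 (by norm_num)
    exact (typS_US hT).rules.u2 _ _ _ hUs hUs' hne hPs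
  · intro i i' j j' hU hU' hL hne hne'
    have t1 := htype i i' hU
    have t2 := htype j j' hU'
    constructor
    · intro hP
      by_contra hP'
      have c1 := t1.1 hP
      have c2 := t2.2 hP'
      obtain ⟨σ, ⟨hT, hUs, hPs⟩, ⟨_, hUs', hPs'⟩⟩ := sstype_common c1 c2 (by norm_num)
      exact hPs' (((typS_US hT).rules.u3 _ _ _ _ hUs hUs' hL hne hne').1 hPs)
    · intro hP'
      by_contra hP
      have c1 := t1.2 hP
      have c2 := t2.1 hP'
      obtain ⟨σ, ⟨hT, hUs, hPs⟩, ⟨_, hUs', hPs'⟩⟩ := sstype_common c1 c2 (by norm_num)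
      exact hPs (((typS_US hT).rules.u3 _ _ _ _ hUs hUs' hL hne hne').2 hPs')

end

end Pool.Agent.LP.SS
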