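import Pool.Agent.LP.Defs
import Pool.Agent.LP.LDer

/-!
# LP, Part I.a, second half: samples of an exact layered star

`e : κ → Fin n` injective, `σ` a permutation of `Fin n`: the sample consists of the leaves `(i, σ (e k))`.
Region `leafRL σ P`: the leaves with index in `σ P`.  `sampG σ e P G` : sampled star graph.
-/

set_option autoImplicit false

open Finset
open scoped Classical

namespace Pool.Agent.LP.SS

open Pool.Agent.OIP

noncomputable section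

section

variable {Λ κ : Type}

/-- the transitivity properties of a sampled star -/
def LTr (G : SimpleGraph (LV Λ κ)) : Prop :=
  (∀ a b c : Λ × κ, a.2 ≠ b.2 → b.2 ≠ c.2 → a.2 ≠ c.2 → G.Adj (leaf a) (leaf b) →
    G.Adj (leaf b) (leaf c) → G.Adj (leaf a) (leaf c)) ∧
  (∀ (a b : Λ × κ) (i i' : Λ) (k : κ), a.2 ≠ k → b.2 ≠ k → a.2 ≠ b.2 → G.Adj (leaf a) (leaf (i, k)) →
    G.Adj (leaf (i, k)) (leaf (i', k)) → G.Adj (leaf (i', k)) (leaf b) → G.Adj (leaf a) (leaf b))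

/-- exact layered sample law -/
structure LSample {Ω : Type} [Fintype Ω] (L : SimpleGraph Λ) (p : ℝ) (w : Ω → ℝ)
    (W : Ω → SimpleGraph (LV Λ κ)) : Prop extends LStar L p w W where
  tr : ∀ ω, LTr (W ω)

/-- approximate layered sample law -/
structure NearS {Ω : Type} [Fintype Ω] (L : SimpleGraph Λ) (η p : ℝ) (w : Ω → ℝ)
    (W : Ω → SimpleGraph (LV Λ κ)) : Prop extends NearL L η p w W where
  tr1 : ∀ a b c : Λ × κ, a.2 ≠ b.2 → b.2 ≠ c.2 → a.2 ≠ c.2 →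
    pr w {ω | (W ω).Adj (leaf a) (leaf b) ∧ (W ω).Adj (leaf b) (leaf c) ∧ ¬ (W ω).Adj (leaf a) (leaf c)} ≤ η
  tr2 : ∀ (a b : Λ × κ) (i i' : Λ) (k : κ), a.2 ≠ k → b.2 ≠ k → a.2 ≠ b.2 →
    pr w {ω | (W ω).Adj (leaf a) (leaf (i, k)) ∧ (W ω).Adj (leaf (i, k)) (leaf (i', k)) ∧
      (W ω).Adj (leaf (i', k)) (leaf b) ∧ ¬ (W ω).Adj (leaf a) (leaf b)} ≤ η

variable {n : ℕ}

/-- positions of the sampled star -/
def posS (σ : Equiv.Perm (Fin n)) (e : κ → Fin n) : LV Λ κ → LV Λ (Fin n)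
  | Sum.inl a => leaf (a.1, σ (e a.2))
  | Sum.inr i => hub i

def leafRL (σ : Equiv.Perm (Fin n)) (P : Finset (Fin n)) : Set (LV Λ (Fin n)) :=
  {v | ∃ i : Λ, ∃ q ∈ P, v = leaf (i, σ q)}

/-- the sampled star graph -/
def sampG (σ : Equiv.Perm (Fin n)) (e : κ → Fin n) (P : Finset (Fin n)) (G : SimpleGraph (LV Λ (Fin n))) :
    SimpleGraph (LV Λ κ) :=
  derL (posS σ e) (leafRL σ P) G

/-- saturation fails: some pair of sampled leaves is connected with the help of `P0 ∪ P1 ∪ P2` and at most one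
further sampled index, but not with the help of one of `P0`, `P1`, `P2` alone -/
def badS (σ : Equiv.Perm (Fin n)) (e : κ → Fin n) (P0 P1 P2 : Finset (Fin n)) (G : SimpleGraph (LV Λ (Fin n))) :
    Prop :=
  ∃ P : Finset (Fin n), (P = P0 ∨ P = P1 ∨ P = P2) ∧ ∃ a b : Λ × κ, a.2 ≠ b.2 ∧
    ((sampG σ e (P0 ∪ P1 ∪ P2) G).Adj (leaf a) (leaf b) ∨
      ∃ k : κ, k ≠ a.2 ∧ k ≠ b.2 ∧ (sampG σ e (P0 ∪ P1 ∪ P2 ∪ {e k}) G).Adj (leaf a) (leaf b)) ∧
    ¬ (sampG σ e P G).Adj (leaf a) (leaf b)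

end

section out

variable {Λ κ : Type} [Fintype κ]

/-- number of `k ≠ a.2` such that the leaf `a` is adjacent to the leaf `(i, k)` -/
def acnt (H : SimpleGraph (LV Λ κ)) (a : Λ × κ) (i : Λ) : ℕ :=
  (Finset.univ.filter (fun k : κ => k ≠ a.2 ∧ H.Adj (leaf a) (leaf (i, k)))).card

/-- the leaf `a` is adjacent to the majority of the leaves of layer `i` -/
def InS (H : SimpleGraph (LV Λ κ)) (a : Λ × κ) (i : Λ) : Prop := Fintype.card κ < 2 * acnt H a i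

/-- some leaf is adjacent to more than `(1/2 + δ)` of the leaves of layer `i` -/
def MajS1 (δ : ℝ) (H : SimpleGraph (LV Λ κ)) (i : Λ) : Prop :=
  ∃ a : Λ × κ, (1 / 2 + δ) * (Fintype.card κ : ℝ) ≤ (acnt H a i : ℝ)

/-- some leaf is adjacent to more than `(1/2 + δ)` of the leaves of both layers -/
def LkS1 (δ : ℝ) (H : SimpleGraph (LV Λ κ)) (i i' : Λ) : Prop :=
  ∃ a : Λ × κ, (1 / 2 + δ) * (Fintype.card κ : ℝ) ≤ (acnt H a i : ℝ) ∧
    (1 / 2 + δ) * (Fintype.card κ : ℝ) ≤ (acnt H a i' : ℝ)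

/-- sample level version of `Nice` -/
def NiceS (L : SimpleGraph Λ) (δ : ℝ) (U : Λ → Λ → Prop) (H : SimpleGraph (LV Λ κ)) : Prop :=
  (∀ i, MajS1 δ H i) ∧ ∀ i i', L.Adj i i' → ¬ U i i' → LkS1 δ H i i'

/-- `(i, j)` is in the majority class of layer `i`, `(i, j')` in that of layer `i'` -/
def EvS (i i' : Λ) (j j' : κ) (H : SimpleGraph (LV Λ κ)) : Prop := InS H (i, j) i ∧ InS H (i, j') i'

/-- the numbers of an M end, sample level -/
structure SNum (ε : ℝ) (Q : Set (SimpleGraph (LV Λ κ)) → ℝ) (i i' : Λ) (j j' : κ) : Prop where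
  ne : j ≠ j'
  a1 : sc * (1 - sc) - ε ≤ Q {H | EvS i i' j j' H}
  a2 : Q {H | ¬ InS H (i, j) i' ∧ ¬ InS H (i, j') i} ≤ sc * (1 - sc) + ε
  b : sc * (sc * (1 - sc)) - ε ≤ Q {H | EvS i i' j j' H ∧ H.Adj (hub i) (leaf (i, j))}
  c : (1 - sc) * (sc * (1 - sc)) - ε ≤ Q {H | EvS i i' j j' H ∧ H.Adj (hub i) (leaf (i, j'))}
  d : Q {H | ¬ InS H (i, j') i ∧ H.Adj (hub i) (leaf (i, j')) ∧ ¬ H.Adj (hub i) (hub i')} ≤ ε

/-- output of the theory of exact sample laws (there with `c = 26/100`) -/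
structure SampOut (L : SimpleGraph Λ) (δ c ε : ℝ) (Q : Set (SimpleGraph (LV Λ κ)) → ℝ) (U : Λ → Λ → Prop)
    (P : Λ → Prop) : Prop where
  rules : Rules L U P
  nice : Q {H | ¬ NiceS L δ U H} ≤ ε
  pend : ∀ i i', U i i' → P i → c ≤ Q {H | 200 * hdeg H i ≤ Fintype.card κ}
  mend : ∀ i i', U i i' → ¬ P i → Q {H | 4 * hdeg H i ≤ Fintype.card κ} ≤ ε
  mnum : ∀ i i', U i i' → ¬ P i → ∃ j j', SNum ε Q i i' j j'

end out

end

end Pool.Agent.LP.SS
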