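import Pool.Agent.LP.LSwap
import Pool.Agent.LP.Bad
import Pool.Agent.LP.HDefs

/-!
# LP, part V: definitions for the assembly

`hsys`: the height system (part II) of a closed set `A`.  `Wall`: closed flat wall between the inner
site `u - uv i s` (M side, inside `A`) and the outer site `u` (P side, outside `A`), all centres, all
but a fraction `η` of the `K`.  `clA G L`: union of the clusters meeting `Cube L × {0,1}^D`.
-/

set_option autoImplicit false

open MeasureTheory ProbabilityTheory
open scoped Classical

namespace Pool.Agent.LP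

open Pool.Agent.OIP

section

variable {Ω D : Type} [MeasurableSpace Ω] [Fintype D] [DecidableEq D] {n : ℕ}

/-- the set of directions of the star `σ` -/
noncomputable def KK (ι : Fin n → D) (σ : Equiv.Perm D) : Finset D := vsL (fun k => σ (ι k))

/-- the height system of the set `A` -/
noncomputable def hsys (μ : Measure Ω) (W : Ω → SimpleGraph (V D)) (ι : Fin n → D) (A : Set (V D)) :
    Pool.LPH.HSys D (Equiv.Perm D) where
  dir σ := List.ofFn (fun k => σ (ι k))
  a O σ := decide (aa A O (KK ι σ))
  ψ O e σ := psi A (Pty μ W) (KK ι σ) O (mv e O)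

/-- at the centre `O` the star `K` sees a closed wall from `O` (inside, M) to `mv e O` (outside, P) -/
def WallAt (μ : Measure Ω) (W : Ω → SimpleGraph (V D)) (A : Set (V D)) (O : V D) (e : Dir D)
    (K : Finset D) : Prop :=
  aa A O K ∧ ¬ aa A (mv e O) K ∧ ¬ Pty μ W O K ∧ Pty μ W (mv e O) K

/-- closed flat wall between `u - uv i s` (inner) and `u` (outer) -/
def Wall (μ : Measure Ω) (W : Ω → SimpleGraph (V D)) (ι : Fin n → D) (η : ℝ) (A : Set (V D))
    (i : Fin 4) (s : Bool) (u : Fin 4 → ℤ) : Prop :=
  ∀ S : Finset D, avg (fun σ : Equiv.Perm D =>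
    ind (¬ WallAt μ W A (u - Pool.LPG.uv i s, S) (Sum.inl (i, s)) (KK ι σ))) ≤ η

/-- union of the clusters meeting the box -/
def clA (G : SimpleGraph (V D)) (L : ℤ) : Set (V D) :=
  {v | ∃ u : V D, u.1 ∈ Pool.LPG.Cube L ∧ G.Reachable u v}

theorem closedA_clA (G : SimpleGraph (V D)) (L : ℤ) : ClosedA G (clA G L) := by
  intro u v huv
  constructor
  · rintro ⟨a, ha, h⟩
    exact ⟨a, ha, h.trans huv.reachable⟩
  · rintro ⟨a, ha, h⟩
    exact ⟨a, ha, h.trans huv.symm.reachable⟩

end

end Pool.Agent.LP
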