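import Pool.Agent.LP.VDefs
import Pool.Agent.LP.LTyp
import Pool.Agent.LP.LSites1

/-!
# LP, part V: bad sites and the rules at the other sites (interface to parts I, II)

`vgTest`: the test of a star of size `m` with the directions `ι`, far set `T`.  Bad sites: `BadE` for the stars of size
`n` and of size `2 n`.  Off the bad sites `rules_avg`, `swap_avg`, `pair_avg` (in `good_of`) give the rules with error
`η' + 6 exp (-c₀ n) + 100 exp (-n/500000) + n²/N ≤ exp (-c n)`, `c = min c₀ (1/500000) / 2`.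
-/

set_option autoImplicit false

open MeasureTheory ProbabilityTheory
open scoped Classical

namespace Pool.Agent.LP

open Pool.Agent.OIP

section

variable {Ω D : Type} [MeasurableSpace Ω] [Fintype D] [DecidableEq D]

/-- the test of the star with the directions `ι` and the far set `T` -/
noncomputable def vgTest (ε e₁ : ℝ) (μ : Measure Ω) (W : Ω → SimpleGraph (V D)) {m : ℕ} (h3 : 3 ≤ m)
    (ι : Fin m → D) (hι : Function.Injective ι) (T : Finset D) : Test D where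
  n := m
  ι := ι
  T := T
  three := h3
  inj := hι
  Typ O e e' σ := ∃ U P, TypV ε e₁ μ W O e e' (σ ∘ ι) (T.image σ) U P
  B O e e' σ := {G | ¬ Nice plaq (1 / 1000) (UU ε e₁ μ W O e e' (σ ∘ ι) (T.image σ)) G}
  avoid O e e' σ h := by
    obtain ⟨U, P, h⟩ := h
    have h1 := h.2.1
    rw [vsL_perm, ← Finset.image_union] at h1
    rw [Finset.disjoint_left]
    intro d hd hd'
    have h2 := h1 hd
    unfold D0 at h2
    rw [Finset.mem_compl] at h2
    exact h2 hd'

theorem vgTest_F (ε e₁ : ℝ) (μ : Measure Ω) (W : Ω → SimpleGraph (V D)) {m : ℕ} (h3 : 3 ≤ m)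
    (ι : Fin m → D) (hι : Function.Injective ι) (T : Finset D) (O : V D) (e e' : Dir D) (σ : Equiv.Perm D) :
    (vgTest ε e₁ μ W h3 ι hι T).F O e e' σ = FailV ε e₁ μ W O e e' (σ ∘ ι) (T.image σ) := rfl

/-- far sets -/
theorem exists_far (B : Finset D) (M I : ℕ) (h : B.card + M * 4 ^ I ≤ Fintype.card D) :
    ∃ T : ℕ → Finset D, ∀ t < I, Disjoint (T t) B ∧ (T t).card = M * 4 ^ t := by
  have h1 : ∀ t, ∃ S : Finset D, t < I → Disjoint S B ∧ S.card = M * 4 ^ t := by
    intro t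
    by_cases ht : t < I
    · have h2 : M * 4 ^ t ≤ Bᶜ.card := by
        rw [Finset.card_compl]
        have h3 : M * 4 ^ t ≤ M * 4 ^ I :=
          Nat.mul_le_mul_left M (Nat.pow_le_pow_right (by norm_num) ht.le)
        omega
      obtain ⟨S, hS, hSc⟩ := Finset.exists_subset_card_eq h2
      refine ⟨S, fun _ => ⟨?_, hSc⟩⟩
      rw [Finset.disjoint_left]
      intro x hx hxB
      exact (Finset.mem_compl.1 (hS hx)) hxB
    · exact ⟨∅, fun h => absurd h ht⟩
  choose T hT using h1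
  exact ⟨T, hT⟩

/-- **One size of stars**: local rare bad sites off which the fraction of bad windows is small at all centres. -/
theorem vg_size (ε : ℝ) (hε : 0 < ε) : ∃ (c : ℝ) (n₀ : ℕ), 0 < c ∧ ∀ m : ℕ, n₀ ≤ m → ∀ η δ : ℝ, 0 < η →
    0 < δ → ∃ I N₀ : ℕ, 1 ≤ I ∧
    ∀ (D : Type) [Fintype D] [DecidableEq D], N₀ ≤ Fintype.card D →
    ∀ ι : Fin m → D, Function.Injective ι →
    ∀ (Ω : Type) [MeasurableSpace Ω] (μ : Measure Ω) (W : Ω → SimpleGraph (V D)), MModel pc μ W →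
    ∃ (X : (Fin 4 → ℤ) → Set Ω) (T : ℕ → Finset D),
      (∀ z, MeasurableSet[FV W (Pool.LPG.Ball z 3)] (X z)) ∧
      (∀ z, μ (X z) ≤ ENNReal.ofReal δ) ∧
      ∀ ω, ∀ O : V D, ω ∉ X O.1 → ∀ e e' : Dir D, ax e ≠ ax e' →
        avg (fun t : Fin I => avg (fun σ : Equiv.Perm D =>
          ind (WBad ε (2 * Real.exp (-c * m)) μ W O e e' (σ ∘ ι) ((T t).image σ) (W ω)))) ≤
          η + 6 * Real.exp (-c * m) := by
  obtain ⟨c, n₀, hc, htyp⟩ := typ_model ε hε
  refine ⟨c, max 3 n₀, hc, fun m hm η δ hη hδ => ?_⟩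
  have h3 : 3 ≤ m := (le_max_left _ _).trans hm
  obtain ⟨M, I, N₁, hM, hI, htyp'⟩ := htyp m ((le_max_right _ _).trans hm) η hη
  have hζ : 0 < 2 * Real.exp (-c * m) := by positivity
  obtain ⟨N₂, hbad⟩ := bad_small (m + M * 4 ^ I) (1 * I) (2 * Real.exp (-c * m)) δ hζ hδ
  refine ⟨I, max (m + M * 4 ^ I) (max N₁ N₂), hI, ?_⟩
  intro D _ _ hD ι hι Ω _ μ W hMod
  haveI := hMod.prob
  have hD0 : m + M * 4 ^ I ≤ Fintype.card D := (le_max_left _ _).trans hD
  have hD1 : N₁ ≤ Fintype.card D := ((le_max_left _ _).trans (le_max_right _ _)).trans hD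
  have hD2 : N₂ ≤ Fintype.card D := ((le_max_right _ _).trans (le_max_right _ _)).trans hD
  obtain ⟨T, hT⟩ := exists_far (vsL ι) M I (by rw [card_vsL hι]; exact hD0)
  set τ : Fin 1 → Fin I → Test D := fun _ t => vgTest ε (2 * Real.exp (-c * m)) μ W h3 ι hι (T t) with hτ
  refine ⟨fun z => {ω | W ω ∈ BadE τ (η + 6 * Real.exp (-c * m)) z}, T, fun z => bad_meas W τ _ z, ?_, ?_⟩
  · intro z
    refine hbad D hD2 Ω μ W hMod.meas hMod.indep 1 I τ le_rfl ?_ η (η + 6 * Real.exp (-c * m)) ?_ ?_ ?_ z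
    · intro s t
      show (vsL ι ∪ T t).card ≤ _
      refine (Finset.card_union_le _ _).trans ?_
      rw [card_vsL hι, (hT t t.2).2]
      exact Nat.add_le_add_left (Nat.mul_le_mul_left M (Nat.pow_le_pow_right (by norm_num) t.2.le)) m
    · intro s t O e e' σ
      exact prob_FailV hζ.le μ W O e e' (σ ∘ ι) ((T t).image σ)
    · intro s O e e' he
      exact htyp' D hD1 Ω μ W hMod O e e' he ι hι T hT
    · linarith
  · intro ω O hO e e' he
    by_contra hcon
    push Not at hcon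
    exact hO ⟨O, rfl, e, e', he, 0, hcon⟩

end

/-- bad sites `X z` (local, rare) such that off the bad sites all rules hold with error `exp (-c n)` -/
theorem good_main (δ : ℝ) (hδ : 0 < δ) : ∃ (c : ℝ) (n₀ : ℕ), 0 < c ∧ ∀ n : ℕ, n₀ ≤ n → ∃ N₀ : ℕ,
    ∀ (D : Type) [Fintype D] [DecidableEq D], N₀ ≤ Fintype.card D →
    ∀ ι : Fin n → D, Function.Injective ι →
    ∀ (Ω : Type) [MeasurableSpace Ω] (μ : Measure Ω) (W : Ω → SimpleGraph (V D)), MModel pc μ W →
    ∃ X : (Fin 4 → ℤ) → Set Ω,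
      (∀ z, MeasurableSet[FV W (Pool.LPG.Ball z 3)] (X z)) ∧
      (∀ z, μ (X z) ≤ ENNReal.ofReal δ) ∧
      ∀ ω, ∀ A : Set (V D), ClosedA (W ω) A →
        Pool.LPH.Good (hsys μ W ι A) (Pool.LPG.XX X ω) n (Real.exp (-(c * n))) := by
  obtain ⟨c₀, n₁, hc₀, hsize⟩ := vg_size 1 one_pos
  set c₁ : ℝ := min c₀ (1 / 500000) with hc₁
  have hc₁pos : 0 < c₁ := lt_min hc₀ (by norm_num)
  set c : ℝ := c₁ / 2 with hc
  have hcpos : 0 < c := by positivity
  -- `n` large: `exp (-c n) ≤ 1/1000`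
  obtain ⟨n₂, hn₂⟩ := exists_nat_ge (Real.log 1000 / c)
  refine ⟨c, max 3 (max n₁ n₂), hcpos, fun n hn => ?_⟩
  have hn3 : 3 ≤ n := (le_max_left _ _).trans hn
  have hnn₁ : n₁ ≤ n := ((le_max_left _ _).trans (le_max_right _ _)).trans hn
  have hnn₂ : n₂ ≤ n := ((le_max_right _ _).trans (le_max_right _ _)).trans hn
  have hnpos : (0 : ℝ) < n := by
    have : (3 : ℝ) ≤ n := by exact_mod_cast hn3
    linarith
  set x : ℝ := Real.exp (-(c * n)) with hx
  have hxpos : 0 < x := Real.exp_pos _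
  have hxsmall : x ≤ 1 / 1000 := by
    have h1 : Real.log 1000 ≤ c * n := by
      have h2 : (n₂ : ℝ) ≤ n := by exact_mod_cast hnn₂
      rw [div_le_iff₀ hcpos] at hn₂
      nlinarith
    rw [hx, ← Real.exp_log (show (0 : ℝ) < 1 / 1000 by norm_num)]
    apply Real.exp_le_exp.2
    rw [one_div, Real.log_inv]
    linarith
  have hxx : Real.exp (-(c₁ * n)) = x * x := by
    rw [hx, ← Real.exp_add]
    congr 1
    rw [hc]
    ring
  have hE1 : Real.exp (-c₀ * n) ≤ x * x := by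
    rw [← hxx]
    apply Real.exp_le_exp.2
    have : c₁ * n ≤ c₀ * n := mul_le_mul_of_nonneg_right (min_le_left _ _) hnpos.le
    linarith
  have hE2 : Real.exp (-c₀ * ((n + n : ℕ) : ℝ)) ≤ x * x := by
    refine le_trans ?_ hE1
    apply Real.exp_le_exp.2
    push_cast
    nlinarith only [hc₀]
  have hE3 : Real.exp (-((n : ℝ) / 500000)) ≤ x * x := by
    rw [← hxx]
    apply Real.exp_le_exp.2
    have : c₁ * n ≤ 1 / 500000 * n := mul_le_mul_of_nonneg_right (min_le_right _ _) hnpos.le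
    linarith
  have hη : 0 < x / 100 := by positivity
  obtain ⟨I₁, N₁, hI₁, hs₁⟩ := hsize n hnn₁ (x / 100) (δ / 2) hη (by positivity)
  obtain ⟨I₂, N₂, hI₂, hs₂⟩ := hsize (n + n) (by omega) (x / 100) (δ / 2) hη (by positivity)
  obtain ⟨N₃, hN₃⟩ := exists_nat_ge ((n : ℝ) ^ 2 / (x / 100))
  refine ⟨max (2 * n + 1) (max N₃ (max N₁ N₂)), ?_⟩
  intro D _ _ hD ι hι Ω _ μ W hMod
  haveI := hMod.prob
  have hD0 : 2 * n + 1 ≤ Fintype.card D := (le_max_left _ _).trans hD
  have hD3 : N₃ ≤ Fintype.card D := ((le_max_left _ _).trans (le_max_right _ _)).trans hD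
  have hD1 : N₁ ≤ Fintype.card D :=
    (((le_max_left _ _).trans (le_max_right _ _)).trans (le_max_right _ _)).trans hD
  have hD2 : N₂ ≤ Fintype.card D :=
    (((le_max_right _ _).trans (le_max_right _ _)).trans (le_max_right _ _)).trans hD
  have hDpos : (0 : ℝ) < (Fintype.card D : ℝ) := by
    have : 0 < Fintype.card D := by omega
    exact_mod_cast this
  -- second half and the big star
  have hcard : (vsL ι).card = n := card_vsL hι
  obtain ⟨B', hB'sub, hB'⟩ : ∃ B' : Finset D, B' ⊆ (vsL ι)ᶜ ∧ B'.card = n := by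
    refine Finset.exists_subset_card_eq ?_
    rw [Finset.card_compl, hcard]
    omega
  have hdisj : Disjoint (vsL ι) B' := by
    rw [Finset.disjoint_left]
    intro d hd hd'
    exact (Finset.mem_compl.1 (hB'sub hd')) hd
  obtain ⟨ι₂, hι₂⟩ : ∃ ι₂ : Fin (n + n) → D, Function.Injective ι₂ := by
    have h1 : Fintype.card (Fin (n + n)) ≤ Fintype.card D := by
      rw [Fintype.card_fin]
      omega
    obtain ⟨f⟩ := Function.Embedding.nonempty_of_card_le h1
    exact ⟨f, f.injective⟩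
  obtain ⟨X₁, T₁, hm₁, hp₁, hr₁⟩ := hs₁ D hD1 ι hι Ω μ W hMod
  obtain ⟨X₂, T₂, hm₂, hp₂, hr₂⟩ := hs₂ D hD2 ι₂ hι₂ Ω μ W hMod
  refine ⟨fun z => X₁ z ∪ X₂ z, ?_, ?_, ?_⟩
  · intro z
    exact MeasurableSet.union (m := FV W (Pool.LPG.Ball z 3)) (hm₁ z) (hm₂ z)
  · intro z
    calc μ (X₁ z ∪ X₂ z) ≤ μ (X₁ z) + μ (X₂ z) := measure_union_le _ _
      _ ≤ ENNReal.ofReal (δ / 2) + ENNReal.ofReal (δ / 2) := add_le_add (hp₁ z) (hp₂ z)
      _ = ENNReal.ofReal δ := by
          rw [← ENNReal.ofReal_add (by positivity) (by positivity)]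
          congr 1
          ring
  · intro ω A hA
    have hN : (n : ℝ) ^ 2 / (Fintype.card D : ℝ) ≤ x / 100 := by
      rw [div_le_iff₀ hDpos]
      have h1 : (N₃ : ℝ) ≤ Fintype.card D := by exact_mod_cast hD3
      rw [div_le_iff₀ hη] at hN₃
      nlinarith only [hxpos, hN₃, h1]
    refine good_of μ W hι (by omega) (by omega) hdisj hB' A (Pool.LPG.XX (fun z => X₁ z ∪ X₂ z) ω)
      (θ := x) (θ₁ := x / 100 + 6 * (x * x) + 100 * (x * x)) hxpos.le ?_ ?_ ?_
    · intro O e e' hO he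
      have hO1 : ω ∉ X₁ O.1 := fun h => hO (Or.inl h)
      have h1 := rules_avg (W := W) (ε := 1) (e₁ := 2 * Real.exp (-c₀ * n)) hMod.prob (by omega : 1 ≤ n) (O := O)
        (e := e) (e' := e') hι hI₁ T₁ (fun σ t => hA.on _) (B := vsL ι) hcard
      have h2 := hr₁ ω O hO1 e e' he
      have h3 : x / 100 + 6 * (x * x) ≤ x := by nlinarith only [hxpos, hxsmall]
      have h4 : x / 100 + 6 * Real.exp (-c₀ * n) ≤ x / 100 + 6 * (x * x) := by linarith
      exact h1.trans (h2.trans (h4.trans h3))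
    · intro O e hO
      have hO2 : ω ∉ X₂ O.1 := fun h => hO (Or.inr h)
      obtain ⟨e', he'⟩ := Pool.LPH.exists_ax e
      have he : ax e ≠ ax e' := (ax_iff e e').1 he'
      have h1 := swap_avg (W := W) (ε := 1) (e₁ := 2 * Real.exp (-c₀ * ((n + n : ℕ) : ℝ))) hMod.prob hMod.meas
        (by omega : 1 ≤ n) (O := O) (e := e) (e' := e') hι₂ hI₂ T₂ (fun σ t => hA.on _) hdisj hcard hB'
      have h2 := hr₂ ω O hO2 e e' he
      refine h1.trans ?_
      linarith
    · have h3 : x * x ≤ x / 1000 := by nlinarith only [hxpos, hxsmall]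
      linarith

end Pool.Agent.LP
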