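import Pool.Agent.LP.LModel
import Pool.Agent.OIP.LatMain
import Pool.Agent.OIP.DFH

/-!
# LP, part V: transfer to the lattice `Z^(4+N)` and the final statement

`embL4 N : V (Fin N) → (Fin (4 + N) → ℤ)` maps `(z, S)` to `z` followed by the indicator of `S`.  Everything as in
`OIP.LatBasic`, `OIP.LatMain` (`embL`, dimension `2 + N`): `mmodel_lat` is `oneIndepM_latG` + `OneIndepM.comap`,
`measurableSet_latG`, `latMain_prob`, `latMain_prob'`; `latt`: adjacent vertices of the lattice differ by a unit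
vector; for a fibre coordinate both values are in `{0, 1}`, so the fibre part is flipped at `d`.

`final_of_main`: as in `Results/MP_8c5616_pr/LimitThreshold.lean`, with `n = 4 + N`, `N = N₀`: `pc` belongs to the set
by `OIP.dfh_lower`, and for every element `q` of the set `q ≤ pc` (if `pc < q` apply the hypothesis with `p = q` to
`mmodel_lat`; the clusters of the comap are finite if those of `latG ω` are).
-/

set_option autoImplicit false

open MeasureTheory ProbabilityTheory

namespace Pool.Agent.LP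

open Pool.Agent.OIP

def embL4 (N : ℕ) (u : V (Fin N)) : Fin (4 + N) → ℤ :=
  Fin.append u.1 (fun d => if d ∈ u.2 then 1 else 0)

theorem vlat_left {N : ℕ} (v : V (Fin N)) (k : Fin 4) : embL4 N v (Fin.castAdd N k) = v.1 k := by
  simp only [embL4, Fin.append_left]

theorem vlat_right {N : ℕ} (v : V (Fin N)) (k : Fin N) :
    embL4 N v (Fin.natAdd 4 k) = if k ∈ v.2 then 1 else 0 := by
  simp only [embL4, Fin.append_right]

theorem vlat_ne {N : ℕ} (k : Fin 4) (l : Fin N) : Fin.castAdd N k ≠ Fin.natAdd 4 l := by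
  intro h
  have := congrArg Fin.val h
  simp only [Fin.val_castAdd, Fin.val_natAdd] at this
  omega

theorem embL4_injective (N : ℕ) : Function.Injective (embL4 N) := by
  intro v w h
  have h1 : v.1 = w.1 := by
    funext k
    have := congrFun h (Fin.castAdd N k)
    rwa [vlat_left, vlat_left] at this
  have h2 : v.2 = w.2 := by
    ext k
    have := congrFun h (Fin.natAdd 4 k)
    rw [vlat_right, vlat_right] at this
    by_cases h2 : k ∈ v.2 <;> by_cases h3 : k ∈ w.2 <;> simp_all
  exact Prod.ext h1 h2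

theorem vlat_base {N : ℕ} (v w : V (Fin N)) (k : Fin 4) (h1 : w.1 = v.1 + Pi.single k 1) (h2 : w.2 = v.2) :
    embL4 N w = embL4 N v + Pi.single (Fin.castAdd N k) 1 := by
  funext j
  refine Fin.addCases (fun l => ?_) (fun l => ?_) j
  · rw [Pi.add_apply, vlat_left, vlat_left, h1, Pi.add_apply]
    by_cases hl : l = k
    · subst hl
      rw [Pi.single_eq_same, Pi.single_eq_same]
    · have hne : Fin.castAdd N l ≠ Fin.castAdd N k := fun h => hl (Fin.castAdd_injective _ _ h)
      rw [Pi.single_eq_of_ne hl, Pi.single_eq_of_ne hne]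
  · rw [Pi.add_apply, vlat_right, vlat_right, h2, Pi.single_eq_of_ne (vlat_ne k l).symm, add_zero]

theorem vlat_fib {N : ℕ} (v w : V (Fin N)) (x : Fin N) (h1 : w.1 = v.1) (hx : x ∉ v.2)
    (h2 : w.2 = insert x v.2) : embL4 N w = embL4 N v + Pi.single (Fin.natAdd 4 x) 1 := by
  funext j
  refine Fin.addCases (fun l => ?_) (fun l => ?_) j
  · rw [Pi.add_apply, vlat_left, vlat_left, h1, Pi.single_eq_of_ne (vlat_ne l x), add_zero]
  · rw [Pi.add_apply, vlat_right, vlat_right, h2]
    by_cases hl : l = x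
    · subst hl
      rw [Pi.single_eq_same, if_pos (Finset.mem_insert_self _ _), if_neg hx]
      norm_num
    · have hne : Fin.natAdd 4 l ≠ Fin.natAdd 4 x := fun h => hl (Fin.natAdd_injective _ _ h)
      rw [Pi.single_eq_of_ne hne, add_zero]
      simp only [Finset.mem_insert, hl, false_or]

theorem vlat_symm {N : ℕ} (S : Finset (Fin N)) (x : Fin N) :
    (x ∉ S → symmDiff S {x} = insert x S) ∧ (x ∈ S → insert x (symmDiff S {x}) = S) ∧
      (x ∈ S → x ∉ symmDiff S {x}) := by
  refine ⟨?_, ?_, ?_⟩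
  · intro hx
    ext y
    rw [Finset.mem_symmDiff, Finset.mem_insert, Finset.mem_singleton]
    by_cases hy : y = x
    · subst hy
      simp [hx]
    · simp [hy]
  · intro hx
    ext y
    rw [Finset.mem_insert, Finset.mem_symmDiff, Finset.mem_singleton]
    by_cases hy : y = x
    · subst hy
      simp [hx]
    · simp [hy]
  · intro hx h
    rw [Finset.mem_symmDiff, Finset.mem_singleton] at h
    rcases h with h | h
    · exact h.2 rfl
    · exact h.2 hx

/-- a step of the model is a step of the lattice -/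
theorem vlat_step {N : ℕ} (d : Dir (Fin N)) (v : V (Fin N)) :
    ∃ i : Fin (4 + N), embL4 N (mv d v) = embL4 N v + Pi.single i 1 ∨
      embL4 N v = embL4 N (mv d v) + Pi.single i 1 := by
  rcases d with ⟨k, b⟩ | x
  · refine ⟨Fin.castAdd N k, ?_⟩
    cases b
    · right
      refine vlat_base _ _ k ?_ rfl
      show v.1 = v.1 + Pi.single k (if false then 1 else -1) + Pi.single k 1
      rw [add_assoc, ← Pi.single_add]
      simp
    · left
      refine vlat_base _ _ k ?_ rfl
      show v.1 + Pi.single k (if true then 1 else -1) = v.1 + Pi.single k 1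
      simp
  · refine ⟨Fin.natAdd 4 x, ?_⟩
    obtain ⟨h1, h2, h3⟩ := vlat_symm v.2 x
    by_cases hx : x ∈ v.2
    · right
      exact vlat_fib _ _ x rfl (h3 hx) (h2 hx).symm
    · left
      exact vlat_fib _ _ x rfl hx (h1 hx)

/-- lattice neighbours in the model are neighbours of the model -/
theorem vlat_back {N : ℕ} (v w : V (Fin N)) (i : Fin (4 + N))
    (h : embL4 N w = embL4 N v + Pi.single i 1) : (∃ d, w = mv d v) ∧ ∃ d, v = mv d w := by
  revert h
  refine Fin.addCases (fun k => ?_) (fun x => ?_) i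
  · intro h
    have h1 : w.1 = v.1 + Pi.single k 1 := by
      funext l
      have := congrFun h (Fin.castAdd N l)
      rw [Pi.add_apply, vlat_left, vlat_left] at this
      rw [Pi.add_apply, this]
      by_cases hl : l = k
      · subst hl
        rw [Pi.single_eq_same, Pi.single_eq_same]
      · have hne : Fin.castAdd N l ≠ Fin.castAdd N k := fun h => hl (Fin.castAdd_injective _ _ h)
        rw [Pi.single_eq_of_ne hl, Pi.single_eq_of_ne hne]
    have h2 : w.2 = v.2 := by
      ext l
      have := congrFun h (Fin.natAdd 4 l)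
      rw [Pi.add_apply, vlat_right, vlat_right, Pi.single_eq_of_ne (vlat_ne k l).symm, add_zero] at this
      by_cases h2 : l ∈ v.2 <;> by_cases h3 : l ∈ w.2 <;> simp_all
    refine ⟨⟨Sum.inl (k, true), Prod.ext ?_ h2⟩, ⟨Sum.inl (k, false), Prod.ext ?_ h2.symm⟩⟩
    · show w.1 = v.1 + Pi.single k (if true then 1 else -1)
      rw [h1]
      simp
    · show v.1 = w.1 + Pi.single k (if false then 1 else -1)
      rw [h1, add_assoc, ← Pi.single_add]
      simp
  · intro h
    have h1 : w.1 = v.1 := by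
      funext l
      have := congrFun h (Fin.castAdd N l)
      rwa [Pi.add_apply, vlat_left, vlat_left, Pi.single_eq_of_ne (vlat_ne l x), add_zero] at this
    have hx := congrFun h (Fin.natAdd 4 x)
    rw [Pi.add_apply, vlat_right, vlat_right, Pi.single_eq_same] at hx
    have hxv : x ∉ v.2 := by
      intro hxv
      rw [if_pos hxv] at hx
      split_ifs at hx <;> omega
    have hxw : x ∈ w.2 := by
      by_contra hxw
      rw [if_neg hxw, if_neg hxv] at hx
      omega
    have hl : ∀ l, l ≠ x → (l ∈ w.2 ↔ l ∈ v.2) := by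
      intro l hl
      have := congrFun h (Fin.natAdd 4 l)
      have hne : Fin.natAdd 4 l ≠ Fin.natAdd 4 x := fun h => hl (Fin.natAdd_injective _ _ h)
      rw [Pi.add_apply, vlat_right, vlat_right, Pi.single_eq_of_ne hne, add_zero] at this
      by_cases h2 : l ∈ v.2 <;> by_cases h3 : l ∈ w.2 <;> simp_all
    refine ⟨⟨Sum.inr x, Prod.ext h1 ?_⟩, ⟨Sum.inr x, Prod.ext h1.symm ?_⟩⟩
    · show w.2 = symmDiff v.2 {x}
      ext l
      rw [Finset.mem_symmDiff, Finset.mem_singleton]
      by_cases hlx : l = x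
      · subst hlx
        simp [hxv, hxw]
      · simp [hlx, hl l hlx]
    · show v.2 = symmDiff w.2 {x}
      ext l
      rw [Finset.mem_symmDiff, Finset.mem_singleton]
      by_cases hlx : l = x
      · subst hlx
        simp [hxv, hxw]
      · simp [hlx, hl l hlx]

theorem mmodel_lat {N : ℕ} {p : ℝ} {μ : Measure ((Fin (4 + N) → ℤ) × Fin (4 + N) → Bool)}
    (h : LatModel (4 + N) p μ) : MModel p μ (fun ω => (latG ω).comap (embL4 N)) where
  prob := h.prob
  meas := fun _ _ => measurableSet_latG _ _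
  indep := (oneIndepM_latG h).comap (embL4_injective N)
  edge := by
    intro v d
    have hne : ∀ (u u' : Fin (4 + N) → ℤ) (i : Fin (4 + N)), u' = u + Pi.single i 1 → u ≠ u' := by
      intro u u' i h1 h2
      have := congrFun (h2.trans h1) i
      rw [Pi.add_apply, Pi.single_eq_same] at this
      omega
    obtain ⟨i, hi | hi⟩ := vlat_step d v
    · exact latMain_prob h (hne _ _ i hi) hi
    · exact latMain_prob' h (hne _ _ i hi).symm hi
  latt := by
    intro ω u v huv
    have h1 : (latG ω).Adj (embL4 N u) (embL4 N v) := huv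
    rw [latbasic_adj] at h1
    rcases h1.2 with ⟨i, hi, -⟩ | ⟨i, hi, -⟩
    · exact (vlat_back u v i hi).1
    · exact (vlat_back v u i hi).2

/-- the final statement follows from the main theorem for the model -/
theorem final_of_main (N₀ : ℕ) (hmain : ∀ p : ℝ, pc < p → ∀ (Ω : Type) [MeasurableSpace Ω] (μ : Measure Ω)
    (W : Ω → SimpleGraph (V (Fin N₀))), MModel p μ W →
      ¬ ∀ᵐ ω ∂μ, ∀ v : V (Fin N₀), {u | (W ω).Reachable v u}.Finite) :
    ∃ n : ℕ, 3 ≤ n ∧
      sSup {p : ℝ | ∃ μ : Measure ((Fin n → ℤ) × Fin n → Bool),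
        IsProbabilityMeasure μ ∧
        (∀ A B : Set ((Fin n → ℤ) × Fin n),
          (∀ a ∈ A, ∀ b ∈ B,
            Disjoint ({a.1, a.1 + Pi.single a.2 1} : Set (Fin n → ℤ))
              ({b.1, b.1 + Pi.single b.2 1} : Set (Fin n → ℤ))) →
          Indep (⨆ a ∈ A, MeasurableSpace.comap (fun ω : (Fin n → ℤ) × Fin n → Bool => ω a)
                    (⊤ : MeasurableSpace Bool))
                (⨆ b ∈ B, MeasurableSpace.comap (fun ω : (Fin n → ℤ) × Fin n → Bool => ω b)
                    (⊤ : MeasurableSpace Bool)) μ) ∧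
        (∀ e : (Fin n → ℤ) × Fin n, ENNReal.ofReal p ≤ μ {ω | ω e = true}) ∧
        (∀ᵐ ω ∂μ, ∀ x : Fin n → ℤ,
          {y : Fin n → ℤ | (SimpleGraph.fromRel
              (fun u v : Fin n → ℤ => ∃ i : Fin n, v = u + Pi.single i 1 ∧ ω (u, i) = true)).Reachable x y}.Finite)}
        = 4 - 2 * Real.sqrt 3 := by
  refine ⟨4 + N₀, by omega, ?_⟩
  obtain ⟨μ₀, hμ₀, hfin⟩ := dfh_lower (4 + N₀)
  set S : Set ℝ := {p : ℝ | ∃ μ : Measure ((Fin (4 + N₀) → ℤ) × Fin (4 + N₀) → Bool),
        IsProbabilityMeasure μ ∧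
        (∀ A B : Set ((Fin (4 + N₀) → ℤ) × Fin (4 + N₀)),
          (∀ a ∈ A, ∀ b ∈ B,
            Disjoint ({a.1, a.1 + Pi.single a.2 1} : Set (Fin (4 + N₀) → ℤ))
              ({b.1, b.1 + Pi.single b.2 1} : Set (Fin (4 + N₀) → ℤ))) →
          Indep (⨆ a ∈ A, MeasurableSpace.comap (fun ω : (Fin (4 + N₀) → ℤ) × Fin (4 + N₀) → Bool => ω a)
                    (⊤ : MeasurableSpace Bool))
                (⨆ b ∈ B, MeasurableSpace.comap (fun ω : (Fin (4 + N₀) → ℤ) × Fin (4 + N₀) → Bool => ω b)
                    (⊤ : MeasurableSpace Bool)) μ) ∧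
        (∀ e : (Fin (4 + N₀) → ℤ) × Fin (4 + N₀), ENNReal.ofReal p ≤ μ {ω | ω e = true}) ∧
        (∀ᵐ ω ∂μ, ∀ x : Fin (4 + N₀) → ℤ,
          {y : Fin (4 + N₀) → ℤ | (SimpleGraph.fromRel
              (fun u v : Fin (4 + N₀) → ℤ => ∃ i : Fin (4 + N₀), v = u + Pi.single i 1 ∧
                ω (u, i) = true)).Reachable x y}.Finite)}
    with hS
  have hmem : pc ∈ S := ⟨μ₀, hμ₀.prob, hμ₀.indep, hμ₀.edge, hfin⟩
  have hbd : ∀ q ∈ S, q ≤ pc := by
    intro q hq
    by_contra hcon
    push Not at hcon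
    obtain ⟨μ, h1, h2, h3, h4⟩ := hq
    have hlat : LatModel (4 + N₀) q μ := ⟨h1, h2, h3⟩
    refine hmain q hcon _ μ _ (mmodel_lat hlat) ?_
    filter_upwards [h4] with ω hω
    intro v
    have h5 := (hω (embL4 N₀ v)).preimage ((embL4_injective N₀).injOn (s := embL4 N₀ ⁻¹'
      {y | (latG ω).Reachable (embL4 N₀ v) y}))
    refine h5.subset ?_
    intro u hu
    exact SimpleGraph.Reachable.map (⟨embL4 N₀, fun h => h⟩ :
      (latG ω).comap (embL4 N₀) →g latG ω) hu
  have hle : sSup S ≤ pc := csSup_le ⟨_, hmem⟩ hbd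
  have hge : pc ≤ sSup S := le_csSup ⟨_, hbd⟩ hmem
  have hpc : pc = 4 - 2 * Real.sqrt 3 := rfl
  rw [← hpc]
  exact le_antisymm hle hge

end Pool.Agent.LP
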