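import Pool.Agent.LP.VLat

/-!
# LP: all large dimensions

`hmain_mono`: the model theorem for `N₀` fibre directions implies the one for `N ≥ N₀` fibre directions (restrict to the
vertices with all additional fibre coordinates equal to `0`).  `final_all`: `p_max(Z^n) = 4 - 2√3` for all `n ≥ 4 + N₀`.
-/

set_option autoImplicit false

open MeasureTheory ProbabilityTheory

namespace Pool.Agent.LP

open Pool.Agent.OIP

/-- embedding of the model with fewer fibre directions -/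
def embN {N₀ N : ℕ} (h : N₀ ≤ N) (u : V (Fin N₀)) : V (Fin N) := (u.1, u.2.map (Fin.castLEEmb h))

theorem embN_injective {N₀ N : ℕ} (h : N₀ ≤ N) : Function.Injective (embN h) := by
  intro u v huv
  have h1 : (embN h u).1 = (embN h v).1 := by rw [huv]
  have h2 : (embN h u).2 = (embN h v).2 := by rw [huv]
  exact Prod.ext h1 (Finset.map_injective _ h2)

theorem embN_mv {N₀ N : ℕ} (h : N₀ ≤ N) (d : Dir (Fin N₀)) (u : V (Fin N₀)) :
    ∃ d' : Dir (Fin N), embN h (mv d u) = mv d' (embN h u) := by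
  rcases d with ⟨i, b⟩ | x
  · exact ⟨Sum.inl (i, b), rfl⟩
  · refine ⟨Sum.inr (Fin.castLE h x), Prod.ext rfl ?_⟩
    show (symmDiff u.2 {x}).map (Fin.castLEEmb h) = symmDiff (u.2.map (Fin.castLEEmb h)) {Fin.castLE h x}
    ext y
    simp only [Finset.mem_map, Finset.mem_symmDiff, Finset.mem_singleton, Fin.castLEEmb_apply]
    constructor
    · rintro ⟨z, hz, rfl⟩
      rcases hz with ⟨hz1, hz2⟩ | ⟨hz1, hz2⟩
      · left
        exact ⟨⟨z, hz1, rfl⟩, fun h1 => hz2 (Fin.castLE_injective h h1)⟩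
      · right
        refine ⟨by rw [hz1], ?_⟩
        rintro ⟨z', hz', h1⟩
        exact hz2 (Fin.castLE_injective h h1 ▸ hz')
    · rintro (⟨⟨z, hz, rfl⟩, hne⟩ | ⟨rfl, hno⟩)
      · exact ⟨z, Or.inl ⟨hz, fun h1 => hne (by rw [h1])⟩, rfl⟩
      · exact ⟨x, Or.inr ⟨rfl, fun h1 => hno ⟨x, h1, rfl⟩⟩, rfl⟩

theorem embN_back {N₀ N : ℕ} (h : N₀ ≤ N) (d' : Dir (Fin N)) (u v : V (Fin N₀))
    (huv : embN h v = mv d' (embN h u)) : ∃ d : Dir (Fin N₀), v = mv d u := by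
  rcases d' with ⟨i, b⟩ | x
  · refine ⟨Sum.inl (i, b), Prod.ext ?_ ?_⟩
    · have h1 : (embN h v).1 = (mv (Sum.inl (i, b)) (embN h u)).1 := by rw [huv]
      exact h1
    · have h2 : (embN h v).2 = (mv (Sum.inl (i, b)) (embN h u)).2 := by rw [huv]
      exact Finset.map_injective _ h2
  · have h1 : (embN h v).1 = (mv (Sum.inr x) (embN h u)).1 := by rw [huv]
    have h2 : v.2.map (Fin.castLEEmb h) = symmDiff (u.2.map (Fin.castLEEmb h)) {x} := by
      have h3 : (embN h v).2 = (mv (Sum.inr x) (embN h u)).2 := by rw [huv]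
      exact h3
    have hx : ∃ x₀ : Fin N₀, Fin.castLE h x₀ = x := by
      by_cases hxu : x ∈ u.2.map (Fin.castLEEmb h)
      · obtain ⟨z, -, hz⟩ := Finset.mem_map.1 hxu
        exact ⟨z, hz⟩
      · have hxv : x ∈ v.2.map (Fin.castLEEmb h) := by
          rw [h2, Finset.mem_symmDiff]
          exact Or.inr ⟨Finset.mem_singleton_self x, hxu⟩
        obtain ⟨z, -, hz⟩ := Finset.mem_map.1 hxv
        exact ⟨z, hz⟩
    obtain ⟨x₀, rfl⟩ := hx
    refine ⟨Sum.inr x₀, Prod.ext h1 ?_⟩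
    show v.2 = symmDiff u.2 {x₀}
    ext z
    have h3 : Fin.castLE h z ∈ v.2.map (Fin.castLEEmb h) ↔
        Fin.castLE h z ∈ symmDiff (u.2.map (Fin.castLEEmb h)) {Fin.castLE h x₀} := by rw [h2]
    have hm : ∀ S : Finset (Fin N₀), Fin.castLE h z ∈ S.map (Fin.castLEEmb h) ↔ z ∈ S := by
      intro S
      simp only [Finset.mem_map, Fin.castLEEmb_apply]
      constructor
      · rintro ⟨y, hy, h4⟩
        exact Fin.castLE_injective h h4 ▸ hy
      · intro hz
        exact ⟨z, hz, rfl⟩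
    rw [hm, Finset.mem_symmDiff, hm, Finset.mem_singleton] at h3
    rw [h3, Finset.mem_symmDiff, Finset.mem_singleton]
    have h4 : (Fin.castLE h z = Fin.castLE h x₀) ↔ z = x₀ :=
      ⟨fun h5 => Fin.castLE_injective h h5, fun h5 => by rw [h5]⟩
    rw [h4]

theorem mmodel_embN {N₀ N : ℕ} (h : N₀ ≤ N) {p : ℝ} {Ω : Type} [MeasurableSpace Ω] {μ : Measure Ω}
    {W : Ω → SimpleGraph (V (Fin N))} (hM : MModel p μ W) : MModel p μ (fun ω => (W ω).comap (embN h)) where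
  prob := hM.prob
  meas := fun a b => hM.meas _ _
  indep := hM.indep.comap (embN_injective h)
  edge := by
    intro v d
    obtain ⟨d', hd'⟩ := embN_mv h d v
    have h1 := hM.edge (embN h v) d'
    rw [← hd'] at h1
    exact h1
  latt := by
    intro ω u v huv
    obtain ⟨d', hd'⟩ := hM.latt ω _ _ huv
    exact embN_back h d' u v hd'

theorem hmain_mono {N₀ N : ℕ} (h : N₀ ≤ N) (hmain : ∀ p : ℝ, pc < p → ∀ (Ω : Type) [MeasurableSpace Ω]
    (μ : Measure Ω) (W : Ω → SimpleGraph (V (Fin N₀))), MModel p μ W →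
      ¬ ∀ᵐ ω ∂μ, ∀ v : V (Fin N₀), {u | (W ω).Reachable v u}.Finite) :
    ∀ p : ℝ, pc < p → ∀ (Ω : Type) [MeasurableSpace Ω] (μ : Measure Ω) (W : Ω → SimpleGraph (V (Fin N))),
      MModel p μ W → ¬ ∀ᵐ ω ∂μ, ∀ v : V (Fin N), {u | (W ω).Reachable v u}.Finite := by
  intro p hp Ω _ μ W hM hfin
  refine hmain p hp Ω μ _ (mmodel_embN h hM) ?_
  filter_upwards [hfin] with ω hω
  intro v
  have h5 := (hω (embN h v)).preimage ((embN_injective h).injOn (s := embN h ⁻¹'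
    {y | (W ω).Reachable (embN h v) y}))
  refine h5.subset ?_
  intro u hu
  exact SimpleGraph.Reachable.map (⟨embN h, fun h' => h'⟩ : (W ω).comap (embN h) →g W ω) hu

/-- the value of the threshold in dimension `4 + N₀` -/
theorem final_eq (N₀ : ℕ) (hmain : ∀ p : ℝ, pc < p → ∀ (Ω : Type) [MeasurableSpace Ω] (μ : Measure Ω)
    (W : Ω → SimpleGraph (V (Fin N₀))), MModel p μ W →
      ¬ ∀ᵐ ω ∂μ, ∀ v : V (Fin N₀), {u | (W ω).Reachable v u}.Finite) (n : ℕ) (hn : n = 4 + N₀) :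
      sSup {p : ℝ | ∃ μ : Measure ((Fin n → ℤ) × Fin n → Bool),
        IsProbabilityMeasure μ ∧
        (∀ A B : Set ((Fin n → ℤ) × Fin n),
          (∀ a ∈ A, ∀ b ∈ B,
            Disjoint ({a.1, a.1 + Pi.single a.2 1} : Set (Fin n → ℤ))
              ({b.1, b.1 + Pi.single b.2 1} : Set (Fin n → ℤ))) →
          Indep (⨆ a ∈ A, MeasurableSpace.comap (fun ω : (Fin n → ℤ) × Fin n → Bool => ω a)
                    (⊤ : MeasurableSpace Bool))
                (⨆ b ∈ B, MeasurableSpace.comap (fun ω : (Fin n → ℤ) × Fin n → Bool => ω b)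
                    (⊤ : MeasurableSpace Bool)) μ) ∧
        (∀ e : (Fin n → ℤ) × Fin n, ENNReal.ofReal p ≤ μ {ω | ω e = true}) ∧
        (∀ᵐ ω ∂μ, ∀ x : Fin n → ℤ,
          {y : Fin n → ℤ | (SimpleGraph.fromRel
              (fun u v : Fin n → ℤ => ∃ i : Fin n, v = u + Pi.single i 1 ∧ ω (u, i) = true)).Reachable x y}.Finite)}
        = 4 - 2 * Real.sqrt 3 := by
  subst hn
  obtain ⟨μ₀, hμ₀, hfin⟩ := dfh_lower (4 + N₀)
  set S : Set ℝ := {p : ℝ | ∃ μ : Measure ((Fin (4 + N₀) → ℤ) × Fin (4 + N₀) → Bool),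
        IsProbabilityMeasure μ ∧
        (∀ A B : Set ((Fin (4 + N₀) → ℤ) × Fin (4 + N₀)),
          (∀ a ∈ A, ∀ b ∈ B,
            Disjoint ({a.1, a.1 + Pi.single a.2 1} : Set (Fin (4 + N₀) → ℤ))
              ({b.1, b.1 + Pi.single b.2 1} : Set (Fin (4 + N₀) → ℤ))) →
          Indep (⨆ a ∈ A, MeasurableSpace.comap (fun ω : (Fin (4 + N₀) → ℤ) × Fin (4 + N₀) → Bool => ω a)
                    (⊤ : MeasurableSpace Bool))
                (⨆ b ∈ B, MeasurableSpace.comap (fun ω : (Fin (4 + N₀) → ℤ) × Fin (4 + N₀) → Bool => ω b)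
                    (⊤ : MeasurableSpace Bool)) μ) ∧
        (∀ e : (Fin (4 + N₀) → ℤ) × Fin (4 + N₀), ENNReal.ofReal p ≤ μ {ω | ω e = true}) ∧
        (∀ᵐ ω ∂μ, ∀ x : Fin (4 + N₀) → ℤ,
          {y : Fin (4 + N₀) → ℤ | (SimpleGraph.fromRel
              (fun u v : Fin (4 + N₀) → ℤ => ∃ i : Fin (4 + N₀), v = u + Pi.single i 1 ∧
                ω (u, i) = true)).Reachable x y}.Finite)}
    with hS
  have hmem : pc ∈ S := ⟨μ₀, hμ₀.prob, hμ₀.indep, hμ₀.edge, hfin⟩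
  have hbd : ∀ q ∈ S, q ≤ pc := by
    intro q hq
    by_contra hcon
    push Not at hcon
    obtain ⟨μ, h1, h2, h3, h4⟩ := hq
    have hlat : LatModel (4 + N₀) q μ := ⟨h1, h2, h3⟩
    refine hmain q hcon _ μ _ (mmodel_lat hlat) ?_
    filter_upwards [h4] with ω hω
    intro v
    have h5 := (hω (embL4 N₀ v)).preimage ((embL4_injective N₀).injOn (s := embL4 N₀ ⁻¹'
      {y | (latG ω).Reachable (embL4 N₀ v) y}))
    refine h5.subset ?_
    intro u hu
    exact SimpleGraph.Reachable.map (⟨embL4 N₀, fun h => h⟩ :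
      (latG ω).comap (embL4 N₀) →g latG ω) hu
  have hle : sSup S ≤ pc := csSup_le ⟨_, hmem⟩ hbd
  have hge : pc ≤ sSup S := le_csSup ⟨_, hbd⟩ hmem
  have hpc : pc = 4 - 2 * Real.sqrt 3 := rfl
  rw [← hpc]
  exact le_antisymm hle hge

/-- all large dimensions -/
theorem final_all (N₀ : ℕ) (hmain : ∀ p : ℝ, pc < p → ∀ (Ω : Type) [MeasurableSpace Ω] (μ : Measure Ω)
    (W : Ω → SimpleGraph (V (Fin N₀))), MModel p μ W →
      ¬ ∀ᵐ ω ∂μ, ∀ v : V (Fin N₀), {u | (W ω).Reachable v u}.Finite) (n : ℕ) (hn : 4 + N₀ ≤ n) :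
      sSup {p : ℝ | ∃ μ : Measure ((Fin n → ℤ) × Fin n → Bool),
        IsProbabilityMeasure μ ∧
        (∀ A B : Set ((Fin n → ℤ) × Fin n),
          (∀ a ∈ A, ∀ b ∈ B,
            Disjoint ({a.1, a.1 + Pi.single a.2 1} : Set (Fin n → ℤ))
              ({b.1, b.1 + Pi.single b.2 1} : Set (Fin n → ℤ))) →
          Indep (⨆ a ∈ A, MeasurableSpace.comap (fun ω : (Fin n → ℤ) × Fin n → Bool => ω a)
                    (⊤ : MeasurableSpace Bool))
                (⨆ b ∈ B, MeasurableSpace.comap (fun ω : (Fin n → ℤ) × Fin n → Bool => ω b)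
                    (⊤ : MeasurableSpace Bool)) μ) ∧
        (∀ e : (Fin n → ℤ) × Fin n, ENNReal.ofReal p ≤ μ {ω | ω e = true}) ∧
        (∀ᵐ ω ∂μ, ∀ x : Fin n → ℤ,
          {y : Fin n → ℤ | (SimpleGraph.fromRel
              (fun u v : Fin n → ℤ => ∃ i : Fin n, v = u + Pi.single i 1 ∧ ω (u, i) = true)).Reachable x y}.Finite)}
        = 4 - 2 * Real.sqrt 3 := by
  obtain ⟨N, hN⟩ : ∃ N, n = 4 + N := ⟨n - 4, by omega⟩
  have hNN : N₀ ≤ N := by omega
  exact final_eq N (hmain_mono hNN hmain) n hN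

end Pool.Agent.LP
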