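import Pool.Agent.LPL.Main

/-!
# LP, part V: leak of a flat wall (interface to part IV)

Proved in part IV (folder LPL; helper77, helper38, helper12 and others).
-/

set_option autoImplicit false

open MeasureTheory ProbabilityTheory
open scoped Classical

namespace Pool.Agent.LP

open Pool.Agent.OIP

/-- Above `pc` every slice of every large cell contains with probability at least `l` a place (sound
with respect to the given bad sites `X`) where no closed set `A` has a flat closed wall. -/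
theorem leak_main : ∃ n₁ : ℕ, ∀ n : ℕ, n₁ ≤ n → ∃ N₁ : ℕ,
    ∀ (D : Type) [Fintype D] [DecidableEq D], N₁ ≤ Fintype.card D →
    ∀ ι : Fin n → D, Function.Injective ι →
    ∀ p : ℝ, pc < p →
    ∀ (Ω : Type) [MeasurableSpace Ω] (μ : Measure Ω) (W : Ω → SimpleGraph (V D)), MModel p μ W →
    ∀ X : (Fin 4 → ℤ) → Set Ω, (∀ z, MeasurableSet[FV W (Pool.LPG.Ball z 3)] (X z)) →
      (∀ z, μ (X z) ≤ ENNReal.ofReal (1 / 10 ^ 21)) →
    ∃ l : ℝ, 0 < l ∧ ∃ k₁ : ℕ, ∀ k, k₁ ≤ k → ∀ (i : Fin 4) (s : Bool) (c : ℤ) (Y : Fin 4 → ℤ),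
      Y i = c / 100 ^ k →
      ∃ E : Set Ω, MeasurableSet[FV W (Pool.LPG.RegE k Y)] E ∧ ENNReal.ofReal l ≤ μ E ∧
        ∀ ω ∈ E, ∀ A : Set (V D), ClosedA (W ω) A →
          ∃ u, Pool.LPG.anc k u = Y ∧ u i = c ∧
            Pool.LPG.S (Pool.LPG.XX X ω) k Set.univ 0 u ∧
            Pool.LPG.S (Pool.LPG.XX X ω) k Set.univ 0 (u - Pool.LPG.uv i s) ∧
            ¬ Wall μ W ι (1 / (n : ℝ) ^ 4) A i s u :=
  Pool.Agent.LPL.leak_main'

end Pool.Agent.LP
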