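import Pool.Agent.LP.HFin

/-!
# LP, part V: the constants

With `θ = exp (-c n)` all terms of `Small n N θ (1/(8 n^4))` are polynomial in `n` times `sqrt θ`, `θ`
or `sqrt (1/N + θ) ≤ sqrt (1/N) + sqrt θ`, so they are below `1/(8 n^4)` for large `n` and then
large `N` (depending on `n`).
-/

set_option autoImplicit false

open Pool.LPG Pool.Agent.OIP

namespace Pool.LPH

theorem vsmall_exists (c : ℝ) (hc : 0 < c) : ∃ n₀ : ℕ, ∀ n : ℕ, n₀ ≤ n →
    (n : ℝ) ^ 9 * Real.exp (-(c * n) / 2) ≤ 1 / 1000000 := by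
  have hr : |Real.exp (-(c / 2))| < 1 := by
    rw [abs_of_pos (Real.exp_pos _)]
    have h0 := Real.exp_lt_exp.2 (show -(c / 2) < 0 by linarith)
    rwa [Real.exp_zero] at h0
  have h := tendsto_pow_const_mul_const_pow_of_abs_lt_one 9 hr
  have h1 := (h.eventually (ge_mem_nhds (show (0 : ℝ) < 1 / 1000000 by norm_num)))
  obtain ⟨n₀, hn₀⟩ := Filter.eventually_atTop.1 h1
  refine ⟨n₀, fun n hn => ?_⟩
  have h2 := hn₀ n hn
  have h3 : Real.exp (-(c / 2)) ^ n = Real.exp (-(c * n) / 2) := by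
    rw [← Real.exp_nat_mul]
    congr 1
    ring
  rw [h3] at h2
  exact h2

theorem small_exp (c : ℝ) (hc : 0 < c) : ∃ n₀ : ℕ, ∀ n : ℕ, n₀ ≤ n →
    Real.exp (-(c * n)) ≤ 1 / (2 * (n : ℝ) ^ 4) ∧ ∃ N₀ : ℕ, ∀ N : ℕ, N₀ ≤ N →
    Small n N (Real.exp (-(c * n))) (1 / (8 * (n : ℝ) ^ 4)) := by
  obtain ⟨n₀, hn₀⟩ := vsmall_exists c hc
  refine ⟨max n₀ 2, fun n hn => ?_⟩
  have hn1 := hn₀ n ((le_max_left _ _).trans hn)
  have hn2 : (2 : ℝ) ≤ n := by exact_mod_cast (le_max_right _ _).trans hn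
  set x : ℝ := (n : ℝ) with hx
  have hx0 : 0 < x := by linarith
  set t : ℝ := Real.exp (-(c * x) / 2) with ht
  have ht0 : 0 < t := Real.exp_pos _
  have hθ : Real.exp (-(c * x)) = t ^ 2 := by
    rw [ht, ← Real.exp_nat_mul]
    congr 1
    push_cast
    ring
  have ht1 : t ≤ 1 := by
    rw [ht]
    exact Real.exp_le_one_iff.2 (by have := mul_pos hc hx0; linarith)
  rw [hθ]
  -- powers of x
  have hx1 : 1 ≤ x := by linarith
  have hp : ∀ a b : ℕ, a ≤ b → x ^ a ≤ x ^ b := fun a b h => pow_le_pow_right₀ hx1 h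
  have hx9 : x ^ 9 * t ≤ 1 / 1000000 := hn1
  have ht2 : t ^ 2 ≤ t := by nlinarith
  have hxt : ∀ a : ℕ, a ≤ 9 → x ^ a * t ≤ 1 / 1000000 := fun a ha =>
    (mul_le_mul_of_nonneg_right (hp a 9 ha) ht0.le).trans hx9
  have hx4 : 0 < x ^ 4 := by positivity
  constructor
  · rw [le_div_iff₀ (by positivity)]
    have := hxt 4 (by norm_num)
    nlinarith
  · obtain ⟨N₀, hN₀⟩ := exists_nat_ge ((10000 * x ^ 6) ^ 2)
    refine ⟨max N₀ 1, fun N hN => ?_⟩
    have hN1 : ((10000 * x ^ 6) ^ 2 : ℝ) ≤ N :=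
      hN₀.trans (by exact_mod_cast (le_max_left _ _).trans hN)
    have hNpos : (0 : ℝ) < N := lt_of_lt_of_le (by positivity) hN1
    have hsqrt : Real.sqrt (1 / (N : ℝ) + t ^ 2) ≤ 1 / (10000 * x ^ 6) + t := by
      have h1 : 1 / (N : ℝ) ≤ (1 / (10000 * x ^ 6)) ^ 2 := by
        rw [one_div, one_div, inv_pow]
        exact inv_anti₀ (by positivity) hN1
      rw [show (1 / (10000 * x ^ 6) + t) = Real.sqrt ((1 / (10000 * x ^ 6) + t) ^ 2) from
        (Real.sqrt_sq (by positivity)).symm]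
      refine Real.sqrt_le_sqrt ?_
      have : 0 ≤ 1 / (10000 * x ^ 6) * t := by positivity
      nlinarith
    have hinv : 1 / (10000 * x ^ 6) = 1 / 10000 * (1 / x ^ 6) := by
      field_simp
    refine ⟨?_, ?_, ?_⟩
    · have := hxt 2 (by norm_num)
      have h0 : x ^ 2 * t ^ 2 ≤ x ^ 2 * t := mul_le_mul_of_nonneg_left ht2 (by positivity)
      linarith
    · unfold rr
      rw [le_div_iff₀ (by positivity)]
      have hb : 100 * (2 * (x * (2 * (36 * (x ^ 3 * t ^ 2)) +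
          4 / 3 * (x * (36 * (x ^ 3 * t ^ 2)) + x * (2 * Real.sqrt (1 / (N : ℝ) + t ^ 2)) + 36 * (x ^ 3 * t ^ 2)) +
          t ^ 2)) + 36 * (x ^ 3 * t ^ 2)) * (8 * x ^ 4) ≤
          100 * (2 * (x * (2 * (36 * (x ^ 3 * t)) +
          4 / 3 * (x * (36 * (x ^ 3 * t)) + x * (2 * (1 / (10000 * x ^ 6) + t)) + 36 * (x ^ 3 * t)) +
          t)) + 36 * (x ^ 3 * t)) * (8 * x ^ 4) := by
        have h3 : x ^ 3 * t ^ 2 ≤ x ^ 3 * t := mul_le_mul_of_nonneg_left ht2 (by positivity)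
        gcongr
      refine hb.trans ?_
      have e1 : x ^ 6 * (1 / x ^ 6) = 1 := by field_simp
      have hexp : 100 * (2 * (x * (2 * (36 * (x ^ 3 * t)) +
          4 / 3 * (x * (36 * (x ^ 3 * t)) + x * (2 * (1 / (10000 * x ^ 6) + t)) + 36 * (x ^ 3 * t)) +
          t)) + 36 * (x ^ 3 * t)) * (8 * x ^ 4) =
          800 * (72 * 2 + 4 / 3 * 36 * 2) * (x ^ 8 * t) + 800 * (4 / 3 * 36 * 2) * (x ^ 9 * t) +
          800 * (16 / 3) * (x ^ 6 * t) + 800 * 2 * (x ^ 5 * t) + 800 * 36 * (x ^ 7 * t) +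
          800 * (16 / 3) / 10000 * (x ^ 6 * (1 / x ^ 6)) := by
        rw [hinv]
        ring
      rw [hexp, e1]
      have a5 := hxt 5 (by norm_num)
      have a6 := hxt 6 (by norm_num)
      have a7 := hxt 7 (by norm_num)
      have a8 := hxt 8 (by norm_num)
      have a9 := hxt 9 (by norm_num)
      linarith
    · rw [div_le_div_iff₀ (by positivity) (by norm_num)]
      have : (2 : ℝ) ^ 4 ≤ x ^ 4 := pow_le_pow_left₀ (by norm_num) hn2 4
      linarith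

end Pool.LPH
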