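import Pool.Agent.LP.VGood
import Pool.Agent.LP.VLeak
import Pool.Agent.LP.VSmall
import Pool.Agent.LP.GMain

/-!
# LP, part V: the main theorem for the model `Z^4 × {0,1}^N`
-/

set_option autoImplicit false

open MeasureTheory ProbabilityTheory
open scoped Classical

namespace Pool.Agent.LP

open Pool.Agent.OIP

theorem vmain_mono {Ω D : Type} [MeasurableSpace Ω] [DecidableEq D] {p q : ℝ} {μ : Measure Ω}
    {W : Ω → SimpleGraph (V D)} (hpq : p ≤ q) (h : MModel q μ W) : MModel p μ W where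
  prob := h.prob
  meas := h.meas
  indep := h.indep
  edge := fun v d => hpq.trans (h.edge v d)
  latt := h.latt

theorem vmain_cube_finite (L : ℤ) : (Pool.LPG.Cube L).Finite := by
  have : Pool.LPG.Cube L ⊆ Set.pi Set.univ (fun _ : Fin 4 => Set.Icc (-L) L) := by
    intro x hx i _
    exact ⟨(hx i).1, (hx i).2.le⟩
  exact (Set.Finite.pi' fun _ => Set.finite_Icc (-L) L).subset (fun x hx i => this hx i trivial)

section

variable {Ω D : Type} [MeasurableSpace Ω] [Fintype D] [DecidableEq D] {n : ℕ}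

omit [Fintype D] in
theorem vmain_flip_fst (S : Finset D) (O : V D) : (flip S O).1 = O.1 := rfl

theorem vmain_KK_card {ι : Fin n → D} (hι : Function.Injective ι) (σ : Equiv.Perm D) :
    (KK ι σ).card = n := by
  unfold KK vsL
  have h : Function.Injective (fun k => σ (ι k)) := σ.injective.comp hι
  rw [Finset.card_image_of_injective _ h, Finset.card_univ, Fintype.card_fin]

theorem vmain_aa_false {A : Set (V D)} {O : V D} (h : ∀ v ∈ A, v.1 ≠ O.1) (K : Finset D) :
    ¬ aa A O K := by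
  unfold aa
  rw [Finset.filter_false_of_mem]
  · simp
  · intro k _ hk
    exact h _ hk rfl

theorem vmain_aa_true {A : Set (V D)} {O : V D} (h : ∀ v : V D, v.1 = O.1 → v ∈ A) {K : Finset D}
    (hK : 0 < K.card) : aa A O K := by
  unfold aa
  rw [Finset.filter_true_of_mem]
  · omega
  · intro k _
    exact h _ rfl

theorem vmain_clA_finite {G : SimpleGraph (V D)} (h : ∀ v : V D, {u | G.Reachable v u}.Finite) (L : ℤ) :
    (clA G L).Finite := by
  have h1 : ({u : V D | u.1 ∈ Pool.LPG.Cube L}).Finite := by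
    have : ({u : V D | u.1 ∈ Pool.LPG.Cube L}) = Pool.LPG.Cube L ×ˢ (Set.univ : Set (Finset D)) := by
      ext u
      simp
    rw [this]
    exact (vmain_cube_finite L).prod Set.finite_univ
  have h2 : clA G L = ⋃ u ∈ {u : V D | u.1 ∈ Pool.LPG.Cube L}, {v | G.Reachable u v} := by
    ext v
    simp [clA]
  rw [h2]
  exact h1.biUnion fun u _ => h u

theorem vmain_bound {A : Set (V D)} (hA : A.Finite) :
    ∃ M : ℤ, ∀ v ∈ A, v.1 ∈ Pool.LPG.Cube M := by
  induction A, hA using Set.Finite.induction_on with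
  | empty => exact ⟨0, by simp⟩
  | @insert a s _ _ ih =>
    obtain ⟨M, hM⟩ := ih
    refine ⟨max M (∑ i, |a.1 i| + 1), ?_⟩
    intro v hv
    rcases hv with rfl | hv
    · intro i
      have h1 : |v.1 i| ≤ ∑ i, |v.1 i| := Finset.single_le_sum (fun j _ => abs_nonneg (v.1 j)) (Finset.mem_univ i)
      have h2 := neg_abs_le (v.1 i)
      have h3 := le_abs_self (v.1 i)
      have h4 := le_max_right M (∑ i, |v.1 i| + 1)
      constructor <;> omega
    · intro i
      have h1 := hM v hv i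
      have h4 := le_max_left M (∑ i, |a.1 i| + 1)
      constructor <;> omega

theorem vmain_hdata {μ : Measure Ω} {W : Ω → SimpleGraph (V D)} {ι : Fin n → D} (hι : Function.Injective ι)
    (hn : 1 ≤ n) {G : SimpleGraph (V D)} {L : ℤ} (hfin : (clA G L).Finite) {X : Set (Fin 4 → ℤ)} {θ : ℝ}
    (hgood : Pool.LPH.Good (hsys μ W ι (clA G L)) X n θ) (hθ : θ ≤ 1 / (2 * (n : ℝ) ^ 4))
    (hs : Pool.LPH.Small n (Fintype.card D) θ (1 / (8 * (n : ℝ) ^ 4))) :
    Pool.LPG.HData X L (fun i s u => Wall μ W ι (1 / (n : ℝ) ^ 4) (clA G L) i s u) := by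
  have hne : Nonempty (Equiv.Perm D) := ⟨1⟩
  obtain ⟨M, hM⟩ := vmain_bound hfin
  refine Pool.LPH.hdata hgood hs L M _ ?_ ?_ ?_
  · intro z hz S σ
    show decide (aa (clA G L) (z, S) (KK ι σ)) = false
    rw [decide_eq_false_iff_not]
    refine vmain_aa_false ?_ _
    intro v hv h
    have h' : v.1 = z := h
    exact hz (h' ▸ hM v hv)
  · intro z hz _ S
    have : ∀ σ, ¬ ((hsys μ W ι (clA G L)).a (z, S) σ = false) := by
      intro σ h
      have h' : decide (aa (clA G L) (z, S) (KK ι σ)) = false := h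
      rw [decide_eq_false_iff_not] at h'
      refine h' (vmain_aa_true ?_ ?_)
      · intro v hv
        exact ⟨v, by rw [hv]; exact hz, SimpleGraph.Reachable.refl v⟩
      · rw [vmain_KK_card hι]; omega
    unfold Pool.LPH.fr
    refine le_trans (le_of_eq ?_) hgood.nn
    have h0 : (fun σ : Equiv.Perm D => ind ((hsys μ W ι (clA G L)).a (z, S) σ = false)) = fun _ => 0 := by
      funext σ
      unfold ind
      rw [if_neg (this σ)]
    rw [h0, avg_const]
  · intro i s u _ hu' hC S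
    have hn' : (0 : ℝ) < (n : ℝ) ^ 4 := by positivity
    have h4 : 4 * (1 / (8 * (n : ℝ) ^ 4)) + 1 / (2 * (n : ℝ) ^ 4) = 1 / (n : ℝ) ^ 4 := by
      field_simp
      norm_num
    have hax : Pool.LPH.Ax (Sum.inl (i, s) : Pool.LPH.Stp D) (Sum.inl (i + 1, true)) := by
      show i ≠ i + 1
      fin_cases i <;> decide
    have hrule := hgood.rule (u - Pool.LPG.uv i s, S) (Sum.inl (i, s)) (Sum.inl (i + 1, true)) hu' hax
    rw [← h4]
    refine le_trans ?_ (add_le_add (hC S) (hrule.trans hθ))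
    unfold Pool.LPH.fr
    rw [← avg_add]
    refine avg_mono fun σ => le_trans (ind_mono ?_) (ind_or_le _ _)
    intro hW
    by_contra hcon
    push Not at hcon
    obtain ⟨⟨h1, h2, h3⟩, hR⟩ := hcon
    apply hW
    have h1' : aa (clA G L) (u - Pool.LPG.uv i s, S) (KK ι σ) := of_decide_eq_true h1
    have h2' : ¬ aa (clA G L) (u, S) (KK ι σ) := of_decide_eq_false h2
    have hmv : mv (Sum.inl (i, s)) ((u - Pool.LPG.uv i s, S) : V D) = (u, S) := by
      show (u - Pool.LPG.uv i s + Pool.LPG.uv i s, S) = (u, S)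
      rw [sub_add_cancel]
    have h3' : psi (clA G L) (Pty μ W) (KK ι σ) (u - Pool.LPG.uv i s, S)
        (mv (Sum.inl (i, s)) ((u - Pool.LPG.uv i s, S) : V D)) = -1 := h3
    have hanti := hR.anti
    rw [h3] at hanti
    have h5 : psi (clA G L) (Pty μ W) (KK ι σ) (mv (Sum.inl (i, s)) ((u - Pool.LPG.uv i s, S) : V D))
        (mv (Sum.inl (i, !s)) (mv (Sum.inl (i, s)) ((u - Pool.LPG.uv i s, S) : V D))) = 1 := by
      have h6 : psi (clA G L) (Pty μ W) (KK ι σ) (mv (Sum.inl (i, s)) ((u - Pool.LPG.uv i s, S) : V D))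
        (mv (Sum.inl (i, !s)) (mv (Sum.inl (i, s)) ((u - Pool.LPG.uv i s, S) : V D))) = - -1 := hanti
      rw [h6]
      norm_num
    rw [hmv] at h3' h5
    unfold WallAt
    rw [hmv]
    refine ⟨h1', h2', ?_, ?_⟩
    · intro hP
      unfold psi at h3'
      rw [if_pos hP] at h3'
      split_ifs at h3'
      all_goals exact absurd h3' (by norm_num)
    · by_contra hP
      unfold psi at h5
      rw [if_neg hP] at h5
      split_ifs at h5
      all_goals exact absurd h5 (by norm_num)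

end

theorem main_upper : ∃ N₀ : ℕ, ∀ p : ℝ, pc < p → ∀ (Ω : Type) [MeasurableSpace Ω] (μ : Measure Ω)
    (W : Ω → SimpleGraph (V (Fin N₀))), MModel p μ W →
      ¬ ∀ᵐ ω ∂μ, ∀ v : V (Fin N₀), {u | (W ω).Reachable v u}.Finite := by
  obtain ⟨c, n₀, hc, hgood⟩ := good_main (1 / 10 ^ 21) (by positivity)
  obtain ⟨n₁, hleak⟩ := leak_main
  obtain ⟨n₂, hsmall⟩ := Pool.LPH.small_exp c hc
  set n := max (max n₀ n₁) (max n₂ 1) with hn
  obtain ⟨N₀, hN₀⟩ := hgood n ((le_max_left _ _).trans (le_max_left _ _))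
  obtain ⟨N₁, hN₁⟩ := hleak n ((le_max_right _ _).trans (le_max_left _ _))
  obtain ⟨hθ, N₂, hN₂⟩ := hsmall n ((le_max_left _ _).trans (le_max_right _ _))
  have hn1 : 1 ≤ n := (le_max_right _ _).trans (le_max_right _ _)
  set N := max (max N₀ N₁) (max N₂ n) with hN
  have hnN : n ≤ N := (le_max_right _ _).trans (le_max_right _ _)
  refine ⟨N, fun p hp Ω _ μ W hM hae => ?_⟩
  have hprob := hM.prob
  have hMc : MModel pc μ W := vmain_mono hp.le hM
  have hι : Function.Injective (Fin.castLE hnN) := Fin.castLE_injective hnN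
  have hcard : Fintype.card (Fin N) = N := Fintype.card_fin N
  obtain ⟨X, hXm, hXp, hG⟩ := hN₀ (Fin N) (by rw [hcard]; exact (le_max_left _ _).trans (le_max_left _ _))
    (Fin.castLE hnN) hι Ω μ W hMc
  obtain ⟨l, hl, k₁, hL⟩ := hN₁ (Fin N) (by rw [hcard]; exact (le_max_right _ _).trans (le_max_left _ _))
    (Fin.castLE hnN) hι p hp Ω μ W hM X hXm hXp
  have hs : Pool.LPH.Small n (Fintype.card (Fin N)) (Real.exp (-(c * n))) (1 / (8 * (n : ℝ) ^ 4)) := by
    rw [hcard]
    exact hN₂ N ((le_max_left _ _).trans (le_max_right _ _))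
  refine Pool.LPG.geo_main μ (FV W) (locV μ W hM.meas hM.indep) X hXm ?_
    (fun ω L => (clA (W ω) L).Finite)
    (fun ω L i s u => Wall μ W (Fin.castLE hnN) (1 / (n : ℝ) ^ 4) (clA (W ω) L) i s u) ?_ l hl k₁ ?_ ?_
  · intro z
    refine (hXp z).trans (ENNReal.ofReal_le_ofReal ?_)
    norm_num
  · intro ω L hfin
    exact vmain_hdata hι hn1 hfin (hG ω _ (closedA_clA _ _)) hθ hs
  · intro k hk i s c Y hY
    obtain ⟨E, hE, hlE, h⟩ := hL k hk i s c Y hY
    exact ⟨E, hE, hlE, fun ω hω L => h ω hω _ (closedA_clA _ _)⟩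
  · filter_upwards [hae] with ω hω L
    exact vmain_clA_finite hω L

end Pool.Agent.LP
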