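import Pool.Agent.LP.WSwapF
import Pool.Agent.LP.LSites1

/-!
# LP, Part IV.3: the giant cluster over a good flat site

`GW` : at all centres over `z` the fraction of bad windows is at most `θ` (one star size).
`FlatT` : all but a fraction `ρ` of the stars at every centre over `z` have the same type `τ`.
Walk `O → O + K'` (`n` fibre steps, each a link for all closed sets at once), swap, walk back: two random
stars at `O` agree for all closed sets inside the fibre over `z`.  Hence one cluster of the fibre over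
`z` contains the majority of the leaves of almost every star, and it is the same for all centres over `z`.
-/

set_option autoImplicit false
set_option linter.unusedSectionVars false

open MeasureTheory ProbabilityTheory
open scoped Classical

namespace Pool.Agent.LP

open Pool.Agent.OIP
open Pool.LPH (fr fr_mono fr_or fr_le_add fr_le_add3 fr_nonneg fr_prod fr_prod' fr_of_fst fr_of_snd
  exists_of_fr_lt_one)

section

variable {Ω D : Type} [MeasurableSpace Ω] [Fintype D] [DecidableEq D] {n : ℕ}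

/-- good windows of one size at all centres over `z` -/
def GW (ε e₁ θ : ℝ) (μ : Measure Ω) (W : Ω → SimpleGraph (V D)) {m : ℕ} (ι : Fin m → D)
    (T : ℕ → Finset D) (I : ℕ) (G : SimpleGraph (V D)) (z : Fin 4 → ℤ) : Prop :=
  ∀ O : V D, O.1 = z → ∀ e e' : Dir D, ax e ≠ ax e' →
    avg (fun t : Fin I => avg (fun σ : Equiv.Perm D =>
      ind (WBad ε e₁ μ W O e e' (σ ∘ ι) ((T t).image σ) G))) ≤ θ

/-- almost all stars at the centres over `z` have type `τ` (`True`: P, `False`: M) -/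
def FlatT (μ : Measure Ω) (W : Ω → SimpleGraph (V D)) (ι : Fin n → D) (τ : Prop) (ρ : ℝ)
    (z : Fin 4 → ℤ) : Prop :=
  ∀ O : V D, O.1 = z → fr (fun σ : Equiv.Perm D => ¬ (Pty μ W O (KK ι σ) ↔ τ)) ≤ ρ

/-- the fibre over `z` -/
def fib (z : Fin 4 → ℤ) : Set (V D) := {v | v.1 = z}

/-- all closed sets inside `R` agree at `(O, K)` and `(O', K')` -/
def AllA (G : SimpleGraph (V D)) (R : Set (V D)) (O : V D) (K : Finset D) (O' : V D)
    (K' : Finset D) : Prop :=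
  ∀ A : Set (V D), ClosedOn G R A → (aa A O K ↔ aa A O' K')

theorem AllA.symm {G : SimpleGraph (V D)} {R : Set (V D)} {O O' : V D} {K K' : Finset D}
    (h : AllA G R O K O' K') : AllA G R O' K' O K := fun A hA => (h A hA).symm

theorem AllA.trans {G : SimpleGraph (V D)} {R : Set (V D)} {O O' O'' : V D} {K K' K'' : Finset D}
    (h : AllA G R O K O' K') (h' : AllA G R O' K' O'' K'') : AllA G R O K O'' K'' :=
  fun A hA => (h A hA).trans (h' A hA)

theorem flip_mem_fib {z : Fin 4 → ℤ} {O : V D} (hO : O.1 = z) (S : Finset D) :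
    flip S O ∈ (fib z : Set (V D)) := hO

theorem flip_insert' {S : Finset D} {d : D} (h : d ∉ S) (v : V D) :
    flip (insert d S) v = flip {d} (flip S v) := lmodel_flip_insert h v

variable {ε e₁ e₂ θ ρ : ℝ} {μ : Measure Ω} {W : Ω → SimpleGraph (V D)} {ι : Fin n → D}
  {T : ℕ → Finset D} {I : ℕ} {G : SimpleGraph (V D)} {z : Fin 4 → ℤ} {τ : Prop}

/-- one fibre step -/
theorem fib_step (hM : IsProbabilityMeasure μ) (hn : 1 ≤ n) (hι : Function.Injective ι) (hI : 1 ≤ I)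
    (hN : 2 ≤ Fintype.card D) (hW : GW ε e₁ θ μ W ι T I G z) (hF : FlatT μ W ι τ ρ z) {O : V D}
    (hO : O.1 = z) (d : D) :
    fr (fun σ : Equiv.Perm D => ¬ AllA G (fib z) O (KK ι σ) (flip {d} O) (KK ι σ)) ≤ θ + 2 * ρ := by
  obtain ⟨d', hd'⟩ : ∃ d', d' ≠ d := by
    have : Nontrivial D := Fintype.one_lt_card_iff_nontrivial.1 (by omega)
    exact exists_ne d
  have hax : ax (Sum.inr d : Dir D) ≠ ax (Sum.inr d' : Dir D) := by
    intro h
    exact hd' (Sum.inr.inj h).symm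
  have hty : fr (fun σ : Equiv.Perm D =>
      ¬ (Pty μ W (lam4 O (Sum.inr d) (Sum.inr d') (false, false)) ((vsL ι).image σ) ↔
        Pty μ W (lam4 O (Sum.inr d) (Sum.inr d') (true, false)) ((vsL ι).image σ))) ≤ 2 * ρ := by
    have h1 := hF O hO
    have h2 := hF (flip {d} O) hO
    have h3 : (2 : ℝ) * ρ = ρ + ρ := by ring
    rw [h3]
    refine fr_le_add h1 h2 ?_
    intro σ hσ
    by_contra hcon
    push Not at hcon
    rw [KK_eq] at hcon
    exact hσ (hcon.1.trans hcon.2.symm)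
  have hR : ∀ (σ : Equiv.Perm D) (t : ℕ),
      winV (lam4 O (Sum.inr d) (Sum.inr d')) (σ ∘ ι) ((T t).image σ) ⊆ (fib z : Set (V D)) := by
    intro σ t
    have h := winV_fib (O := O) (e := Sum.inr d) (e' := Sum.inr d') (lmodel_bs_inr d)
      (lmodel_bs_inr d') (σ ∘ ι) ((T t).image σ)
    rw [hO] at h
    exact h
  have hadj : plaq.Adj (false, false) (true, false) := Or.inr ⟨by simp, rfl⟩
  have h := link_free_avg (ε := ε) (e₁ := e₁) hM hn hι hI T hR (B := vsL ι) (card_vsL hι) hadj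
    (hW O hO _ _ hax) hty
  refine le_trans (fr_mono ?_) h
  intro σ hσ hA
  apply hσ
  intro A hAc
  rw [KK_eq]
  exact hA A hAc

/-- a walk of fibre steps -/
theorem fib_walk (hM : IsProbabilityMeasure μ) (hn : 1 ≤ n) (hι : Function.Injective ι) (hI : 1 ≤ I)
    (hN : 2 ≤ Fintype.card D) (hθ : 0 ≤ θ + 2 * ρ) (hW : GW ε e₁ θ μ W ι T I G z)
    (hF : FlatT μ W ι τ ρ z) {O : V D} (hO : O.1 = z) (S : Finset D) :
    fr (fun σ : Equiv.Perm D => ¬ AllA G (fib z) O (KK ι σ) (flip S O) (KK ι σ)) ≤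
      S.card * (θ + 2 * ρ) := by
  induction S using Finset.induction_on with
  | empty =>
    have h0 : flip ∅ O = O := by
      show (O.1, symmDiff O.2 ∅) = O
      rw [lmodel_sd]
    rw [h0]
    have h1 : fr (fun σ : Equiv.Perm D => ¬ AllA G (fib z) O (KK ι σ) O (KK ι σ)) ≤ 0 := by
      unfold fr
      refine Pool.Agent.OIP.avg_le_of_le le_rfl fun σ => ?_
      unfold ind
      rw [if_neg]
      intro h
      exact h fun A _ => Iff.rfl
    simpa using h1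
  | insert d S hd ih =>
    rw [Finset.card_insert_of_notMem hd, flip_insert' hd]
    have h2 := fib_step hM hn hι hI hN hW hF (O := flip S O) hO d
    refine (fr_le_add ih h2 ?_).trans (le_of_eq ?_)
    · intro σ hσ
      by_contra hcon
      push Not at hcon
      exact hσ (hcon.1.trans hcon.2)
    · push_cast
      ring

/-- two random stars at the same centre -/
theorem fib_pair (hM : IsProbabilityMeasure μ) (hn : 1 ≤ n) (hι : Function.Injective ι) (hI : 1 ≤ I)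
    (hN : 2 ≤ Fintype.card D) (hθ : 0 ≤ θ + 2 * ρ) (hW : GW ε e₁ θ μ W ι T I G z)
    (hF : FlatT μ W ι τ ρ z) {ι₂ : Fin (n + n) → D} (hι₂ : Function.Injective ι₂)
    {T₂ : ℕ → Finset D} {I₂ : ℕ} (hI₂ : 1 ≤ I₂) {θ₂ : ℝ} (hW₂ : GW ε e₂ θ₂ μ W ι₂ T₂ I₂ G z) {O : V D}
    (hO : O.1 = z) :
    avg (fun σ : Equiv.Perm D => fr (fun σ' : Equiv.Perm D =>
      ¬ AllA G (fib z) O (KK ι σ) O (KK ι σ'))) ≤
      2 * (n * (θ + 2 * ρ)) + ((n : ℝ) ^ 2 / (Fintype.card D : ℝ) + (θ₂ + 2 * Real.exp (-((n : ℝ) / 500000)))) := by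
  have hn0 : (0 : ℝ) ≤ n * (θ + 2 * ρ) := mul_nonneg (Nat.cast_nonneg _) hθ
  have hcard : ∀ σ : Equiv.Perm D, (KK ι σ).card = n := fun σ => by
    rw [KK_eq, Finset.card_image_of_injective _ σ.injective, card_vsL hι]
  -- the three parts
  have h1 : fr (fun p : Equiv.Perm D × Equiv.Perm D =>
      ¬ AllA G (fib z) O (KK ι p.1) (flip (KK ι p.2) O) (KK ι p.1)) ≤ n * (θ + 2 * ρ) := by
    refine fr_of_snd hn0 fun σ' => ?_
    have h := fib_walk hM hn hι hI hN hθ hW hF hO (KK ι σ')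
    rw [hcard σ'] at h
    exact h
  have h3 : fr (fun p : Equiv.Perm D × Equiv.Perm D =>
      ¬ AllA G (fib z) O (KK ι p.2) (flip (KK ι p.1) O) (KK ι p.2)) ≤ n * (θ + 2 * ρ) := by
    refine fr_of_fst hn0 fun σ => ?_
    have h := fib_walk hM hn hι hI hN hθ hW hF hO (KK ι σ)
    rw [hcard σ] at h
    exact h
  have h2 : fr (fun p : Equiv.Perm D × Equiv.Perm D =>
      ¬ AllA G (fib z) (flip (KK ι p.2) O) (KK ι p.1) (flip (KK ι p.1) O) (KK ι p.2)) ≤
      (n : ℝ) ^ 2 / (Fintype.card D : ℝ) + (θ₂ + 2 * Real.exp (-((n : ℝ) / 500000))) := by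
    -- a set disjoint from `vsL ι`
    obtain ⟨B', hB'1, hB'2⟩ : ∃ B' : Finset D, Disjoint (vsL ι) B' ∧ B'.card = n := by
      have h2n : n + n ≤ Fintype.card D := by
        have := Fintype.card_le_of_injective ι₂ hι₂
        rwa [Fintype.card_fin] at this
      have hc : n ≤ (vsL ι)ᶜ.card := by
        rw [Finset.card_compl, card_vsL hι]
        omega
      obtain ⟨B', hB', hB'c⟩ := Finset.exists_subset_card_eq hc
      refine ⟨B', ?_, hB'c⟩
      rw [Finset.disjoint_left]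
      intro x hx hx'
      exact (Finset.mem_compl.1 (hB' hx')) hx
    obtain ⟨d, d', hdd⟩ : ∃ d d' : D, d ≠ d' := by
      have : Nontrivial D := Fintype.one_lt_card_iff_nontrivial.1 (by omega)
      exact exists_pair_ne D
    have hax : ax (Sum.inr d : Dir D) ≠ ax (Sum.inr d' : Dir D) := by
      intro h
      exact hdd (Sum.inr.inj h)
    have hR : ∀ (σ : Equiv.Perm D) (t : ℕ),
        winV (lam4 O (Sum.inr d) (Sum.inr d')) (σ ∘ ι₂) ((T₂ t).image σ) ⊆ (fib z : Set (V D)) := by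
      intro σ t
      have h := winV_fib (O := O) (e := Sum.inr d) (e' := Sum.inr d') (lmodel_bs_inr d)
        (lmodel_bs_inr d') (σ ∘ ι₂) ((T₂ t).image σ)
      rw [hO] at h
      exact h
    have hs := swap_free_avg (ε := ε) (e₁ := e₂) (μ := μ) (W := W) hn hι₂ hI₂ T₂ hR
      (fun S => flip_mem_fib hO S) hB'1 (card_vsL hι) hB'2 (hW₂ O hO _ _ hax)
    have hp := pair_avg hB'1 (by rw [card_vsL hι, hB'2])
      (fun K K' => ¬ AllA G (fib z) (flip K' O) K (flip K O) K')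
    rw [card_vsL hι] at hp
    rw [fr_prod]
    refine le_trans ?_ (hp.trans (add_le_add le_rfl hs))
    refine avg_mono fun σ => avg_mono fun σ' => ind_mono ?_
    intro h
    rw [← KK_eq, ← KK_eq]
    exact h
  have h4 : avg (fun σ : Equiv.Perm D => fr (fun σ' : Equiv.Perm D =>
      ¬ AllA G (fib z) O (KK ι σ) O (KK ι σ'))) =
      fr (fun p : Equiv.Perm D × Equiv.Perm D => ¬ AllA G (fib z) O (KK ι p.1) O (KK ι p.2)) :=
    (fr_prod (fun p : Equiv.Perm D × Equiv.Perm D =>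
      ¬ AllA G (fib z) O (KK ι p.1) O (KK ι p.2))).symm
  rw [h4]
  refine (fr_le_add3 h1 h2 h3 ?_).trans (by linarith)
  intro p hp
  by_contra hcon
  push Not at hcon
  exact hp ((hcon.1.trans hcon.2.1).trans hcon.2.2.symm)

/-- most stars have a majority cluster -/
theorem fib_maj (hn : 1 ≤ n) (hI : 1 ≤ I) (hN : 2 ≤ Fintype.card D)
    (hι : Function.Injective ι) (hW : GW ε e₁ θ μ W ι T I G z) {O : V D} (hO : O.1 = z) :
    fr (fun σ : Equiv.Perm D => ¬ ∃ x : V D, x.1 = z ∧ aa (ClV G (fib z) x) O (KK ι σ)) ≤ θ := by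
  obtain ⟨d, d', hdd⟩ : ∃ d d' : D, d ≠ d' := by
    have : Nontrivial D := Fintype.one_lt_card_iff_nontrivial.1 (by omega)
    exact exists_pair_ne D
  have hax : ax (Sum.inr d : Dir D) ≠ ax (Sum.inr d' : Dir D) := by
    intro h
    exact hdd (Sum.inr.inj h)
  have hR : ∀ (σ : Equiv.Perm D) (t : ℕ),
      winV (lam4 O (Sum.inr d) (Sum.inr d')) (σ ∘ ι) ((T t).image σ) ⊆ (fib z : Set (V D)) := by
    intro σ t
    have h := winV_fib (O := O) (e := Sum.inr d) (e' := Sum.inr d') (lmodel_bs_inr d)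
      (lmodel_bs_inr d') (σ ∘ ι) ((T t).image σ)
    rw [hO] at h
    exact h
  have hI' : Nonempty (Fin I) := ⟨⟨0, hI⟩⟩
  refine le_trans ?_ (hW O hO _ _ hax)
  calc fr (fun σ : Equiv.Perm D => ¬ ∃ x : V D, x.1 = z ∧ aa (ClV G (fib z) x) O (KK ι σ))
      = avg (fun _ : Fin I => fr (fun σ : Equiv.Perm D =>
        ¬ ∃ x : V D, x.1 = z ∧ aa (ClV G (fib z) x) O (KK ι σ))) := (avg_const _).symm
    _ ≤ _ := avg_mono fun t => avg_mono fun σ => ind_mono ?_
  intro h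
  by_contra hWB
  apply h
  obtain ⟨x, hx1, hx2⟩ := maj_cluster hWB (hR σ t)
  refine ⟨x, hR σ t hx1, ?_⟩
  unfold aa
  have hc : (KK ι σ).card = n := by
    rw [KK_eq, Finset.card_image_of_injective _ σ.injective, card_vsL hι]
  rw [hc]
  have h1 : (0 : ℝ) < n := by exact_mod_cast hn
  have h2 : (n : ℝ) < 2 * ((((KK ι σ)).filter
      (fun k => flip (((KK ι σ)).erase k) O ∈ ClV G (fib z) x)).card : ℝ) := by
    have h3 : KK ι σ = vsL (σ ∘ ι) := rfl
    rw [h3]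
    linarith
  exact_mod_cast h2

/-- the majority cluster at one centre -/
theorem giant_at (hM : IsProbabilityMeasure μ) (hn : 1 ≤ n) (hι : Function.Injective ι) (hI : 1 ≤ I)
    (hN : 2 ≤ Fintype.card D) (hθ : 0 ≤ θ + 2 * ρ) (hW : GW ε e₁ θ μ W ι T I G z)
    (hF : FlatT μ W ι τ ρ z) {ι₂ : Fin (n + n) → D} (hι₂ : Function.Injective ι₂)
    {T₂ : ℕ → Finset D} {I₂ : ℕ} (hI₂ : 1 ≤ I₂) {θ₂ : ℝ} (hW₂ : GW ε e₂ θ₂ μ W ι₂ T₂ I₂ G z) {δ : ℝ}
    (hδ : 2 * (n * (θ + 2 * ρ)) + ((n : ℝ) ^ 2 / (Fintype.card D : ℝ) +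
      (θ₂ + 2 * Real.exp (-((n : ℝ) / 500000)))) + θ ≤ δ) (hδ1 : δ < 1) {O : V D} (hO : O.1 = z) :
    ∃ x : V D, x.1 = z ∧ fr (fun σ : Equiv.Perm D => ¬ aa (ClV G (fib z) x) O (KK ι σ)) ≤ δ := by
  have h1 := fib_pair hM hn hι hI hN hθ hW hF hι₂ hI₂ hW₂ hO
  have h2 := fib_maj hn hI hN hι hW hO
  obtain ⟨σ₀, hσ₀⟩ := exists_le_avg (fun σ : Equiv.Perm D =>
    fr (fun σ' : Equiv.Perm D => ¬ AllA G (fib z) O (KK ι σ) O (KK ι σ')) +
      ind (¬ ∃ x : V D, x.1 = z ∧ aa (ClV G (fib z) x) O (KK ι σ)))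
  rw [avg_add] at hσ₀
  have h3 : avg (fun σ : Equiv.Perm D => ind (¬ ∃ x : V D, x.1 = z ∧
      aa (ClV G (fib z) x) O (KK ι σ))) ≤ θ := h2
  have h4 : fr (fun σ' : Equiv.Perm D => ¬ AllA G (fib z) O (KK ι σ₀) O (KK ι σ')) +
      ind (¬ ∃ x : V D, x.1 = z ∧ aa (ClV G (fib z) x) O (KK ι σ₀)) ≤ δ := by linarith
  have h5 : ∃ x : V D, x.1 = z ∧ aa (ClV G (fib z) x) O (KK ι σ₀) := by
    by_contra hcon
    have h6 : ind (¬ ∃ x : V D, x.1 = z ∧ aa (ClV G (fib z) x) O (KK ι σ₀)) = 1 := by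
      unfold ind
      rw [if_pos hcon]
    rw [h6] at h4
    have h7 := fr_nonneg (fun σ' : Equiv.Perm D => ¬ AllA G (fib z) O (KK ι σ₀) O (KK ι σ'))
    linarith
  obtain ⟨x, hx, hxa⟩ := h5
  refine ⟨x, hx, ?_⟩
  have h6 := ind_nonneg (¬ ∃ x : V D, x.1 = z ∧ aa (ClV G (fib z) x) O (KK ι σ₀))
  refine le_trans (fr_mono ?_) (le_trans (le_add_of_nonneg_right h6) h4)
  intro σ' h7 h8
  exact h7 ((h8 _ (ClV_closed G (fib z) x)).1 hxa)

/-- **The giant over a good flat site.** -/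
theorem loc_giant (hM : IsProbabilityMeasure μ) (hn : 1 ≤ n) (hι : Function.Injective ι) (hI : 1 ≤ I)
    (hN : 2 ≤ Fintype.card D) (hθ : 0 ≤ θ + 2 * ρ) (hW : GW ε e₁ θ μ W ι T I G z)
    (hF : FlatT μ W ι τ ρ z) {ι₂ : Fin (n + n) → D} (hι₂ : Function.Injective ι₂)
    {T₂ : ℕ → Finset D} {I₂ : ℕ} (hI₂ : 1 ≤ I₂) {θ₂ : ℝ} (hW₂ : GW ε e₂ θ₂ μ W ι₂ T₂ I₂ G z) {δ : ℝ}
    (hδ : 2 * (n * (θ + 2 * ρ)) + ((n : ℝ) ^ 2 / (Fintype.card D : ℝ) +
      (θ₂ + 2 * Real.exp (-((n : ℝ) / 500000)))) + θ ≤ δ) (hδ1 : 2 * δ + (θ + 2 * ρ) < 1) :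
    ∃ x : V D, x.1 = z ∧ ∀ O : V D, O.1 = z →
      fr (fun σ : Equiv.Perm D => ¬ aa (ClV G (fib z) x) O (KK ι σ)) ≤ δ := by
  have hδ2 : δ < 1 := by
    have : 0 ≤ δ ∨ δ < 0 := le_or_gt 0 δ
    rcases this with h | h <;> linarith
  have hat := fun (O : V D) (hO : O.1 = z) =>
    giant_at hM hn hι hI hN hθ hW hF hι₂ hI₂ hW₂ hδ hδ2 hO
  obtain ⟨x, hx, hxb⟩ := hat (z, ∅) rfl
  refine ⟨x, hx, ?_⟩
  have key : ∀ S : Finset D, fr (fun σ : Equiv.Perm D =>
      ¬ aa (ClV G (fib z) x) (flip S (z, ∅)) (KK ι σ)) ≤ δ := by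
    intro S
    induction S using Finset.induction_on with
    | empty =>
      have h0 : flip ∅ ((z, ∅) : V D) = (z, ∅) := by
        show (z, symmDiff ∅ ∅) = ((z, ∅) : V D)
        rw [lmodel_sd]
      rw [h0]
      exact hxb
    | insert d S hd ih =>
      rw [flip_insert' hd]
      obtain ⟨y, hy, hyb⟩ := hat (flip {d} (flip S (z, ∅))) rfl
      have hst := fib_step hM hn hι hI hN hW hF (O := flip S (z, ∅)) rfl d
      -- a star where everything holds
      have hsum : fr (fun σ : Equiv.Perm D => ¬ aa (ClV G (fib z) x) (flip S (z, ∅)) (KK ι σ) ∨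
          ¬ aa (ClV G (fib z) y) (flip {d} (flip S (z, ∅))) (KK ι σ) ∨
          ¬ AllA G (fib z) (flip S (z, ∅)) (KK ι σ) (flip {d} (flip S (z, ∅))) (KK ι σ)) < 1 := by
        refine lt_of_le_of_lt (fr_le_add3 ih hyb hst fun σ h => h) ?_
        linarith
      obtain ⟨σ, hσ⟩ := exists_of_fr_lt_one hsum
      push Not at hσ
      obtain ⟨c1, c2, c3⟩ := hσ
      have c4 := (c3 _ (ClV_closed G (fib z) x)).1 c1
      have heq := ClV_unique c4 c2
      rw [heq]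
      exact hyb
  intro O hO
  have hOf : O = flip O.2 (z, ∅) := by
    show O = (z, symmDiff ∅ O.2)
    rw [← hO]
    refine Prod.ext rfl ?_
    show O.2 = symmDiff ∅ O.2
    rw [symmDiff_comm, lmodel_sd]
  rw [hOf]
  exact key O.2

/-- **Giants of adjacent sites of the same type are joined.** -/
theorem loc_link (hM : IsProbabilityMeasure μ) (hn : 1 ≤ n) (hι : Function.Injective ι) (hI : 1 ≤ I)
    (hN : 2 ≤ Fintype.card D) (hW : GW ε e₁ θ μ W ι T I G z) (hF : FlatT μ W ι τ ρ z)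
    {j : Fin 4} {s : Bool} {z' : Fin 4 → ℤ} (hz' : z' = z + Pool.LPG.uv j s)
    (hF' : FlatT μ W ι τ ρ z') {x x' : V D} {δ : ℝ}
    (hx : ∀ O : V D, O.1 = z →
      fr (fun σ : Equiv.Perm D => ¬ aa (ClV G (fib z) x) O (KK ι σ)) ≤ δ)
    (hx' : ∀ O : V D, O.1 = z' →
      fr (fun σ : Equiv.Perm D => ¬ aa (ClV G (fib z') x') O (KK ι σ)) ≤ δ)
    (hδ : 2 * δ + (θ + 2 * ρ) < 1) :
    Cn G {v | v.1 = z ∨ v.1 = z'} x x' := by
  obtain ⟨d⟩ : Nonempty D := Fintype.card_pos_iff.1 (by omega)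
  set O : V D := (z, ∅) with hO
  set O' : V D := mv (Sum.inl (j, s)) O with hO'
  have hO'1 : O'.1 = z' := by
    rw [hz']
    rfl
  have hax : ax (Sum.inl (j, s) : Dir D) ≠ ax (Sum.inr d : Dir D) := by
    intro h
    exact Sum.inl_ne_inr h
  have hty : fr (fun σ : Equiv.Perm D =>
      ¬ (Pty μ W (lam4 O (Sum.inl (j, s)) (Sum.inr d) (false, false)) ((vsL ι).image σ) ↔
        Pty μ W (lam4 O (Sum.inl (j, s)) (Sum.inr d) (true, false)) ((vsL ι).image σ))) ≤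
      2 * ρ := by
    have h1 := hF O rfl
    have h2 := hF' O' hO'1
    have h3 : (2 : ℝ) * ρ = ρ + ρ := by ring
    rw [h3]
    refine fr_le_add h1 h2 ?_
    intro σ hσ
    by_contra hcon
    push Not at hcon
    rw [KK_eq] at hcon
    exact hσ (hcon.1.trans hcon.2.symm)
  have hR : ∀ (σ : Equiv.Perm D) (t : ℕ),
      winV (lam4 O (Sum.inl (j, s)) (Sum.inr d)) (σ ∘ ι) ((T t).image σ) ⊆
        ({v | v.1 = z ∨ v.1 = z'} : Set (V D)) := by
    intro σ t
    have h := winV_two (O := O) (e := Sum.inl (j, s)) (e' := Sum.inr d) (lmodel_bs_inr d) (σ ∘ ι)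
      ((T t).image σ)
    intro v hv
    rcases h hv with h1 | h1
    · exact Or.inl h1
    · exact Or.inr (h1.trans hO'1)
  have hadj : plaq.Adj (false, false) (true, false) := Or.inr ⟨by simp, rfl⟩
  have hlk := link_free_avg (ε := ε) (e₁ := e₁) hM hn hι hI T hR (B := vsL ι) (card_vsL hι) hadj
    (hW O rfl _ _ hax) hty
  have hsum : fr (fun σ : Equiv.Perm D => ¬ aa (ClV G (fib z) x) O (KK ι σ) ∨
      ¬ aa (ClV G (fib z') x') O' (KK ι σ) ∨
      ¬ ∀ A : Set (V D), ClosedOn G {v | v.1 = z ∨ v.1 = z'} A →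
        (aa A (lam4 O (Sum.inl (j, s)) (Sum.inr d) (false, false)) ((vsL ι).image σ) ↔
          aa A (lam4 O (Sum.inl (j, s)) (Sum.inr d) (true, false)) ((vsL ι).image σ))) < 1 := by
    refine lt_of_le_of_lt (fr_le_add3 (hx O rfl) (hx' O' hO'1) hlk fun σ h => h) ?_
    linarith
  obtain ⟨σ, hσ⟩ := exists_of_fr_lt_one hsum
  push Not at hσ
  obtain ⟨c1, c2, c3⟩ := hσ
  have hsub : (fib z : Set (V D)) ⊆ {v | v.1 = z ∨ v.1 = z'} := fun v hv => Or.inl hv
  have hsub' : (fib z' : Set (V D)) ⊆ {v | v.1 = z ∨ v.1 = z'} := fun v hv => Or.inr hv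
  have c4 : aa (ClV G {v | v.1 = z ∨ v.1 = z'} x) O (KK ι σ) := aa_mono (ClV_mono hsub x) c1
  rw [KK_eq] at c4 c2
  have c5 := (c3 _ (ClV_closed G {v | v.1 = z ∨ v.1 = z'} x)).1 c4
  have c6 : aa (ClV G {v | v.1 = z ∨ v.1 = z'} x') O' ((vsL ι).image σ) :=
    aa_mono (ClV_mono hsub' x') c2
  have heq : ClV G {v | v.1 = z ∨ v.1 = z'} x = ClV G {v | v.1 = z ∨ v.1 = z'} x' :=
    ClV_unique c5 c6
  have h7 : x' ∈ ClV G {v | v.1 = z ∨ v.1 = z'} x := by
    rw [heq]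
    exact ClV_self _ _ _
  exact h7

end

end Pool.Agent.LP
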