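import Pool.Agent.LP.LRules
import Pool.Agent.LP.LHalf
import Pool.Agent.LP.HAvg

/-!
# LP, Part IV.3: links between two layers of the same type, for all closed sets at once

`A` ranges over all sets which are unions of clusters of `G` inside the region `R`.
`link_free`: if the window is not bad and the two layers have the same type, then `aa A` agrees at
the two layers for all such `A` (a boundary link has ends of different types, `rules_model`).
-/

set_option autoImplicit false
set_option linter.unusedSectionVars false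

open MeasureTheory ProbabilityTheory
open scoped Classical

namespace Pool.Agent.LP

open Pool.Agent.OIP
open Pool.LPH (fr fr_mono fr_or fr_le_add fr_nonneg)

section

variable {Ω D : Type} [MeasurableSpace Ω] [Fintype D] [DecidableEq D] {n : ℕ}

theorem ClosedOn.mono {G : SimpleGraph (V D)} {R R' A : Set (V D)} (h : ClosedOn G R A)
    (hR : R' ⊆ R) : ClosedOn G R' A := fun u hu v hv => h u (hR hu) v (hR hv)

/-- the cluster of `x` in `G` inside `R` -/
def ClV (G : SimpleGraph (V D)) (R : Set (V D)) (x : V D) : Set (V D) := {v | Cn G R x v}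

theorem ClV_self (G : SimpleGraph (V D)) (R : Set (V D)) (x : V D) : x ∈ ClV G R x :=
  Relation.ReflTransGen.refl

theorem ClV_closed (G : SimpleGraph (V D)) (R : Set (V D)) (x : V D) :
    ClosedOn G R (ClV G R x) := by
  intro u hu v hv huv
  exact ⟨fun h => Relation.ReflTransGen.tail h ⟨huv, hu, hv⟩,
    fun h => Relation.ReflTransGen.tail h ⟨huv.symm, hv, hu⟩⟩

theorem ClV_eq {G : SimpleGraph (V D)} {R : Set (V D)} {x y : V D} (h : y ∈ ClV G R x) :
    ClV G R y = ClV G R x := by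
  ext v
  exact ⟨fun hv => Cn.trans h hv, fun hv => Cn.trans (Cn.symm h) hv⟩

theorem ClV_mono {G : SimpleGraph (V D)} {R R' : Set (V D)} (h : R ⊆ R') (x : V D) :
    ClV G R x ⊆ ClV G R' x := by
  intro v hv
  exact Cn.mono hv h

theorem aa_mono {A A' : Set (V D)} (h : A ⊆ A') {O : V D} {K : Finset D} (ha : aa A O K) :
    aa A' O K := by
  unfold aa at ha ⊢
  refine lt_of_lt_of_le ha (Nat.mul_le_mul_left 2 (Finset.card_le_card ?_))
  intro k hk
  rw [Finset.mem_filter] at hk ⊢
  exact ⟨hk.1, h hk.2⟩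

/-- two majorities intersect -/
theorem aa_inter {A A' : Set (V D)} {O : V D} {K : Finset D} (h : aa A O K) (h' : aa A' O K) :
    ∃ v, v ∈ A ∧ v ∈ A' ∧ v.1 = O.1 := by
  unfold aa at h h'
  by_contra hcon
  push Not at hcon
  have hdis : Disjoint (K.filter (fun k => flip (K.erase k) O ∈ A))
      (K.filter (fun k => flip (K.erase k) O ∈ A')) := by
    rw [Finset.disjoint_left]
    intro k hk hk'
    exact hcon _ (Finset.mem_filter.1 hk).2 (Finset.mem_filter.1 hk').2 rfl
  have h2 := Finset.card_le_card (Finset.union_subset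
    (Finset.filter_subset (fun k => flip (K.erase k) O ∈ A) K)
    (Finset.filter_subset (fun k => flip (K.erase k) O ∈ A') K))
  rw [Finset.card_union_of_disjoint hdis] at h2
  omega

/-- two clusters containing a majority of the same star coincide -/
theorem ClV_unique {G : SimpleGraph (V D)} {R : Set (V D)} {x y O : V D} {K : Finset D}
    (h : aa (ClV G R x) O K) (h' : aa (ClV G R y) O K) : ClV G R x = ClV G R y := by
  obtain ⟨v, hv, hv', _⟩ := aa_inter h h'
  exact (ClV_eq hv).symm.trans (ClV_eq hv')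

theorem link_free {ε e₁ : ℝ} {μ : Measure Ω} {W : Ω → SimpleGraph (V D)}
    (hM : IsProbabilityMeasure μ) (hn : 1 ≤ n) {O : V D} {e e' : Dir D} {ι : Fin n → D}
    {T : Finset D} {G : SimpleGraph (V D)} (h : ¬ WBad ε e₁ μ W O e e' ι T G) {i j : Bool × Bool}
    (hij : plaq.Adj i j)
    (hty : Pty μ W (lam4 O e e' i) (vsL ι) ↔ Pty μ W (lam4 O e e' j) (vsL ι)) {A : Set (V D)}
    (hA : ClosedOn G (winV (lam4 O e e') ι T) A) :
    aa A (lam4 O e e' i) (vsL ι) ↔ aa A (lam4 O e e' j) (vsL ι) := by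
  by_contra hne
  have hR := (rules_model hM hn h hA).1 i j hij hne
  tauto

/-- averages over random `n`-sets do not depend on the set that is moved -/
theorem avg_image_eq {B C : Finset D} (h : B.card = C.card) (F : Finset D → ℝ) :
    avg (fun σ : Equiv.Perm D => F (B.image σ)) = avg (fun σ : Equiv.Perm D => F (C.image σ)) := by
  obtain ⟨τ, hτ⟩ := lrules_perm h
  rw [← avg_perm_mul_right τ (fun σ : Equiv.Perm D => F (C.image σ))]
  congr 1
  funext σ
  rw [hτ, Finset.image_image]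
  rfl

/-- fraction of the stars with a link missing for some closed set -/
theorem link_free_avg {ε e₁ : ℝ} {μ : Measure Ω} {W : Ω → SimpleGraph (V D)}
    (hM : IsProbabilityMeasure μ) (hn : 1 ≤ n) {O : V D} {e e' : Dir D} {ι : Fin n → D}
    (hι : Function.Injective ι) {I : ℕ} (hI : 1 ≤ I) (T : ℕ → Finset D) {G : SimpleGraph (V D)}
    {R : Set (V D)}
    (hR : ∀ (σ : Equiv.Perm D) (t : ℕ), winV (lam4 O e e') (σ ∘ ι) ((T t).image σ) ⊆ R)
    {B : Finset D} (hB : B.card = n) {i j : Bool × Bool} (hij : plaq.Adj i j) {θ ρ : ℝ}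
    (hθ : avg (fun t : Fin I => avg (fun σ : Equiv.Perm D =>
        ind (WBad ε e₁ μ W O e e' (σ ∘ ι) ((T t).image σ) G))) ≤ θ)
    (hρ : fr (fun σ : Equiv.Perm D => ¬ (Pty μ W (lam4 O e e' i) (B.image σ) ↔
      Pty μ W (lam4 O e e' j) (B.image σ))) ≤ ρ) :
    fr (fun σ : Equiv.Perm D => ¬ ∀ A : Set (V D), ClosedOn G R A →
      (aa A (lam4 O e e' i) (B.image σ) ↔ aa A (lam4 O e e' j) (B.image σ))) ≤ θ + ρ := by
  have hc : B.card = (vsL ι).card := by rw [hB, card_vsL hι]
  have h1 : fr (fun σ : Equiv.Perm D => ¬ ∀ A : Set (V D), ClosedOn G R A →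
      (aa A (lam4 O e e' i) (B.image σ) ↔ aa A (lam4 O e e' j) (B.image σ))) =
      fr (fun σ : Equiv.Perm D => ¬ ∀ A : Set (V D), ClosedOn G R A →
      (aa A (lam4 O e e' i) (vsL (σ ∘ ι)) ↔ aa A (lam4 O e e' j) (vsL (σ ∘ ι)))) := by
    unfold fr
    refine (avg_image_eq hc (fun K => ind (¬ ∀ A : Set (V D), ClosedOn G R A →
      (aa A (lam4 O e e' i) K ↔ aa A (lam4 O e e' j) K)))).trans ?_
    congr 1
    funext σ
    simp only [vsL_perm]
  have h2 : fr (fun σ : Equiv.Perm D => ¬ (Pty μ W (lam4 O e e' i) (B.image σ) ↔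
      Pty μ W (lam4 O e e' j) (B.image σ))) =
      fr (fun σ : Equiv.Perm D => ¬ (Pty μ W (lam4 O e e' i) (vsL (σ ∘ ι)) ↔
      Pty μ W (lam4 O e e' j) (vsL (σ ∘ ι)))) := by
    unfold fr
    refine (avg_image_eq hc (fun K => ind (¬ (Pty μ W (lam4 O e e' i) K ↔
      Pty μ W (lam4 O e e' j) K)))).trans ?_
    congr 1
    funext σ
    simp only [vsL_perm]
  rw [h1]
  rw [h2] at hρ
  have hI' : Nonempty (Fin I) := ⟨⟨0, hI⟩⟩
  have h3 : ∀ t : Fin I, fr (fun σ : Equiv.Perm D => ¬ ∀ A : Set (V D), ClosedOn G R A →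
      (aa A (lam4 O e e' i) (vsL (σ ∘ ι)) ↔ aa A (lam4 O e e' j) (vsL (σ ∘ ι)))) ≤
      avg (fun σ : Equiv.Perm D => ind (WBad ε e₁ μ W O e e' (σ ∘ ι) ((T t).image σ) G)) + ρ := by
    intro t
    refine fr_le_add (Q := fun σ : Equiv.Perm D =>
      WBad ε e₁ μ W O e e' (σ ∘ ι) ((T t).image σ) G) le_rfl hρ ?_
    intro σ hσ
    by_contra hcon
    push Not at hcon
    refine hσ fun A hA => ?_
    exact link_free hM hn hcon.1 hij (by tauto) (hA.mono (hR σ t))
  have h4 : fr (fun σ : Equiv.Perm D => ¬ ∀ A : Set (V D), ClosedOn G R A →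
      (aa A (lam4 O e e' i) (vsL (σ ∘ ι)) ↔ aa A (lam4 O e e' j) (vsL (σ ∘ ι)))) ≤
      avg (fun t : Fin I => avg (fun σ : Equiv.Perm D =>
        ind (WBad ε e₁ μ W O e e' (σ ∘ ι) ((T t).image σ) G))) + ρ := by
    calc fr (fun σ : Equiv.Perm D => ¬ ∀ A : Set (V D), ClosedOn G R A →
        (aa A (lam4 O e e' i) (vsL (σ ∘ ι)) ↔ aa A (lam4 O e e' j) (vsL (σ ∘ ι))))
        = avg (fun _ : Fin I => fr (fun σ : Equiv.Perm D => ¬ ∀ A : Set (V D), ClosedOn G R A →
        (aa A (lam4 O e e' i) (vsL (σ ∘ ι)) ↔ aa A (lam4 O e e' j) (vsL (σ ∘ ι))))) :=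
          (avg_const _).symm
      _ ≤ avg (fun t : Fin I => avg (fun σ : Equiv.Perm D =>
          ind (WBad ε e₁ μ W O e e' (σ ∘ ι) ((T t).image σ) G)) + ρ) := avg_mono h3
      _ = _ := by rw [avg_add, avg_const]
  linarith

/-- the window of a plaquette with two fibre directions lies over the base point -/
theorem winV_fib {O : V D} {e e' : Dir D} (he : ∀ i, lmodel_bs e i = 0)
    (he' : ∀ i, lmodel_bs e' i = 0) (ι : Fin n → D) (T : Finset D) :
    winV (lam4 O e e') ι T ⊆ {v | v.1 = O.1} := by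
  rintro v ⟨u, _, _, _, rfl⟩
  show (phi (lam4 O e e') u).1 = O.1
  funext i
  rw [lmodel_phi_fst, he i, he' i]
  simp

/-- the window of a plaquette with one base direction `e` and one fibre direction -/
theorem winV_two {O : V D} {e e' : Dir D} (he' : ∀ i, lmodel_bs e' i = 0) (ι : Fin n → D)
    (T : Finset D) :
    winV (lam4 O e e') ι T ⊆ {v | v.1 = O.1 ∨ v.1 = (mv e O).1} := by
  rintro v ⟨u, _, _, _, rfl⟩
  rcases u with ⟨⟨x, y⟩, S⟩
  cases x
  · left
    show (phi (lam4 O e e') ((false, y), S)).1 = O.1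
    funext i
    rw [lmodel_phi_fst, he' i]
    simp
  · right
    show (phi (lam4 O e e') ((true, y), S)).1 = (mv e O).1
    funext i
    rw [lmodel_phi_fst, he' i, lmodel_mv]
    simp

theorem lmodel_bs_inr (d : D) (i : Fin 4) : lmodel_bs (Sum.inr d : Dir D) i = 0 := rfl

end

end Pool.Agent.LP
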