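import Pool.Agent.LP.SDefs
import Pool.Agent.OIP.PrBasic

/-!
# LP, Part IV: numbers of the conditioning event

`A` = the two leaves lie in the majority clusters of the two layers, `S` = the two majority clusters coincide,
`C` = good connections and cells, `k` = hub joined to the first leaf, `l` = hub joined to the second leaf,
`x` = the vertical hub edge is closed.  `F = A ∧ ¬ S ∧ C`.
-/

set_option autoImplicit false

open scoped Classical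

namespace Pool.Agent.LP

open Pool.Agent.OIP

theorem wnum_sc : 0.6339 < sc ∧ sc < 0.6340 := by
  have h1 : Real.sqrt 3 < 1.7321 := by
    rw [Real.sqrt_lt' (by norm_num)]
    norm_num
  have h2 : 1.732 < Real.sqrt 3 := by
    rw [Real.lt_sqrt (by norm_num)]
    norm_num
  unfold sc
  constructor <;> linarith

/-- the numbers of the event `F` -/
structure FNum {Ω : Type} [Fintype Ω] (w : Ω → ℝ) (F k l x : Set Ω) : Prop where
  pos : 1 / 5 ≤ pr w F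
  hk : (sc - 1 / 1000) * pr w F ≤ pr w (F ∩ k)
  hl : (1 - sc - 1 / 1000) * pr w F ≤ pr w (F ∩ l)
  hcl : pr w (F ∩ x ∩ l) ≤ 1 / 1000 * pr w F

theorem fnum {Ω : Type} [Fintype Ω] {w : Ω → ℝ} (hw : IsLaw w) {A S C k l x : Set Ω} {ε θ γ : ℝ}
    (hε : ε ≤ 1 / 100000) (hθ : θ ≤ 1 / 100000) (hγ : γ ≤ 1 / 100000)
    (a1 : sc * (1 - sc) - ε ≤ pr w A) (a2 : pr w (A ∩ Sᶜ) ≤ sc * (1 - sc) + ε)
    (b : sc * (sc * (1 - sc)) - ε ≤ pr w (A ∩ k)) (c : (1 - sc) * (sc * (1 - sc)) - ε ≤ pr w (A ∩ l))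
    (d : pr w (A ∩ Sᶜ ∩ l ∩ x) ≤ ε) (hS : pr w (A ∩ S ∩ C) ≤ θ) (hC : pr w Cᶜ ≤ γ) :
    FNum w (A ∩ Sᶜ ∩ C) k l x := by
  obtain ⟨s1, s2⟩ := wnum_sc
  have hF : pr w (A ∩ Sᶜ ∩ C) ≤ sc * (1 - sc) + ε :=
    (pr_mono hw Set.inter_subset_left).trans a2
  -- lower bounds
  have key : ∀ B : Set Ω, pr w (A ∩ B) ≤ pr w (A ∩ Sᶜ ∩ C ∩ B) + θ + γ := by
    intro B
    have h1 : pr w (A ∩ B) ≤ pr w ((A ∩ Sᶜ ∩ C ∩ B) ∪ ((A ∩ S ∩ C) ∪ Cᶜ)) := by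
      refine pr_mono hw ?_
      rintro ω ⟨hA, hB⟩
      by_cases hCω : ω ∈ C
      · by_cases hSω : ω ∈ S
        · exact Or.inr (Or.inl ⟨⟨hA, hSω⟩, hCω⟩)
        · exact Or.inl ⟨⟨⟨hA, hSω⟩, hCω⟩, hB⟩
      · exact Or.inr (Or.inr hCω)
    have h2 := pr_union_le hw (A ∩ Sᶜ ∩ C ∩ B) ((A ∩ S ∩ C) ∪ Cᶜ)
    have h3 := pr_union_le hw (A ∩ S ∩ C) Cᶜ
    linarith
  have hFl : sc * (1 - sc) - ε ≤ pr w (A ∩ Sᶜ ∩ C) + θ + γ := by
    have h1 := key Set.univ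
    rw [Set.inter_univ, Set.inter_univ] at h1
    linarith
  have q1 : 0.2320 ≤ sc * (1 - sc) := by nlinarith
  have q2 : sc * (1 - sc) ≤ 0.2322 := by nlinarith
  refine ⟨by linarith, ?_, ?_, ?_⟩
  · have h1 := key k
    have h2 : (sc - 1 / 1000) * pr w (A ∩ Sᶜ ∩ C) ≤ (sc - 1 / 1000) * (sc * (1 - sc) + ε) :=
      mul_le_mul_of_nonneg_left hF (by linarith)
    have h3 : (sc - 1 / 1000) * (sc * (1 - sc) + ε) =
        sc * (sc * (1 - sc)) - 1 / 1000 * (sc * (1 - sc)) + (sc - 1 / 1000) * ε := by ring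
    have h4 : (sc - 1 / 1000) * ε ≤ (sc - 1 / 1000) * (1 / 100000) :=
      mul_le_mul_of_nonneg_left hε (by linarith)
    nlinarith
  · have h1 := key l
    have h2 : (1 - sc - 1 / 1000) * pr w (A ∩ Sᶜ ∩ C) ≤ (1 - sc - 1 / 1000) * (sc * (1 - sc) + ε) :=
      mul_le_mul_of_nonneg_left hF (by linarith)
    have h3 : (1 - sc - 1 / 1000) * (sc * (1 - sc) + ε) =
        (1 - sc) * (sc * (1 - sc)) - 1 / 1000 * (sc * (1 - sc)) + (1 - sc - 1 / 1000) * ε := by ring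
    have h4 : (1 - sc - 1 / 1000) * ε ≤ (1 - sc - 1 / 1000) * (1 / 100000) :=
      mul_le_mul_of_nonneg_left hε (by linarith)
    nlinarith
  · have h1 : pr w (A ∩ Sᶜ ∩ C ∩ x ∩ l) ≤ pr w (A ∩ Sᶜ ∩ l ∩ x) := by
      refine pr_mono hw ?_
      rintro ω ⟨⟨⟨⟨hA, hS⟩, _⟩, hx⟩, hl⟩
      exact ⟨⟨⟨hA, hS⟩, hl⟩, hx⟩
    linarith

end Pool.Agent.LP
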