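import Pool.Agent.LP.WLink

/-!
# LP, Part IV.3: the swap `(O + K', K) <-> (O + K, K')` for all closed sets at once

Star of size `2 n` at `O`, `S = K ∪ K'`.  If the window is not bad, some cluster of `G` inside `R`
(`R` contains the window) contains at least `(1/2 + 1/1000) 2 n` leaves of `(O, S)`; `XM G R O S x` says
that the leaf `x` lies in the cluster containing a majority of the leaves (unique).  Outside the
halving event more than half of the leaves of `K` (and of `K'`) lie in this cluster.
-/

set_option autoImplicit false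
set_option linter.unusedSectionVars false

open MeasureTheory ProbabilityTheory
open scoped Classical

namespace Pool.Agent.LP

open Pool.Agent.OIP
open Pool.LPH (fr fr_mono fr_or fr_le_add fr_le_add3 fr_nonneg)

section

variable {Ω D : Type} [MeasurableSpace Ω] [Fintype D] [DecidableEq D] {n : ℕ}

/-- the leaf `x` of the star `(O, S)` lies in a cluster containing a majority of the leaves -/
def XM (G : SimpleGraph (V D)) (R : Set (V D)) (O : V D) (S : Finset D) (x : D) : Prop :=
  aa (ClV G R (flip (S.erase x) O)) O S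

theorem XM_same {G : SimpleGraph (V D)} {R : Set (V D)} {O : V D} {S : Finset D} {x y : D}
    (hx : XM G R O S x) (hy : XM G R O S y) :
    flip (S.erase y) O ∈ ClV G R (flip (S.erase x) O) := by
  have h := ClV_unique hx hy
  rw [h]
  exact ClV_self _ _ _

/-- a connection in the star graph is a connection in `G` inside the window -/
theorem star_cn {Λ : Type} (lam : Λ → V D) {ι : Fin n → D} (hι : Function.Injective ι)
    (T : Finset D) {G : SimpleGraph (V D)} {R : Set (V D)} (hR : winV lam ι T ⊆ R)
    {s t : LV Λ (Fin n)} (h : Cn (starV lam ι T G) (Set.range Sum.inl) s t) :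
    phi lam (xL ι t) ∈ ClV G R (phi lam (xL ι s)) :=
  (lrules_cnStar lam hι T ((ClV_closed G R _).mono hR) h).1 (ClV_self _ _ _)

/-- a window which is not bad has a majority cluster -/
theorem maj_cluster {ε e₁ : ℝ} {μ : Measure Ω} {W : Ω → SimpleGraph (V D)}
    {O : V D} {e e' : Dir D} {ι : Fin n → D} {T : Finset D} {G : SimpleGraph (V D)}
    (h : ¬ WBad ε e₁ μ W O e e' ι T G) {R : Set (V D)} (hR : winV (lam4 O e e') ι T ⊆ R) :
    ∃ x : V D, x ∈ winV (lam4 O e e') ι T ∧ (1 / 2 + 1 / 1000) * (n : ℝ) ≤
      (((vsL ι).filter (fun k => flip ((vsL ι).erase k) O ∈ ClV G R x)).card : ℝ) := by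
  unfold WBad at h
  push Not at h
  obtain ⟨hex, hFV⟩ := h
  have hT := typV_UU hex
  have hι := hT.1
  have hnice : Nice plaq (1 / 1000) (UU ε e₁ μ W O e e' ι T) (starV (lam4 O e e') ι T G) := by
    by_contra hcon
    exact hFV ⟨hex, hcon⟩
  obtain ⟨a, ha⟩ := hnice.1 (false, false)
  refine ⟨phi (lam4 O e e') (xL ι (leaf a)), lrules_leaf _ hι T a, ?_⟩
  rw [Fintype.card_fin] at ha
  refine ha.trans ?_
  have h1 : lcnt (starV (lam4 O e e') ι T G) a (false, false) ≤
      ((vsL ι).filter (fun k => flip ((vsL ι).erase k) O ∈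
        ClV G R (phi (lam4 O e e') (xL ι (leaf a))))).card := by
    unfold lcnt
    rw [← Finset.card_image_of_injective _ hι]
    apply Finset.card_le_card
    intro d hd
    obtain ⟨k, hk, rfl⟩ := Finset.mem_image.1 hd
    rw [Finset.mem_filter]
    exact ⟨mem_vsL ι k, star_cn (lam4 O e e') hι T hR (Finset.mem_filter.1 hk).2⟩
  exact_mod_cast h1

/-- leaves of the two halves -/
theorem flip_half {K K' : Finset D} (hd : Disjoint K K') {x : D} (hx : x ∈ K) (O : V D) :
    flip (K.erase x) (flip K' O) = flip ((K ∪ K').erase x) O := by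
  show (O.1, symmDiff (symmDiff O.2 K') (K.erase x)) = (O.1, symmDiff O.2 ((K ∪ K').erase x))
  rw [symmDiff_assoc]
  congr 2
  ext y
  have h1 : y ∈ K → y ∉ K' := fun h h' => Finset.disjoint_left.1 hd h h'
  have h2 : x ∉ K' := fun h' => Finset.disjoint_left.1 hd hx h'
  rw [Finset.mem_symmDiff, Finset.mem_erase, Finset.mem_erase, Finset.mem_union]
  by_cases hy : y = x
  · subst hy
    simp [h2]
  · simp only [hy, not_false_eq_true, ne_eq, true_and]
    tauto

/-- deterministic part of the swap -/
theorem swap_det {G : SimpleGraph (V D)} {R : Set (V D)} {O : V D} {K K' : Finset D}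
    (hd : Disjoint K K')
    (h1 : K.card < 2 * (K.filter (fun x => XM G R O (K ∪ K') x)).card)
    (h2 : K'.card < 2 * (K'.filter (fun x => XM G R O (K ∪ K') x)).card)
    (hRR : ∀ S : Finset D, flip S O ∈ R) {A : Set (V D)} (hA : ClosedOn G R A) :
    aa A (flip K' O) K ↔ aa A (flip K O) K' := by
  -- membership of `A` is constant on the cluster
  have hcl : ∀ u v : V D, Cn G R u v → (u ∈ A ↔ v ∈ A) := by
    intro u v h
    unfold Cn at h
    induction h with
    | refl => exact Iff.rfl
    | tail _ hbc ih => exact ih.trans (hA _ hbc.2.1 _ hbc.2.2 hbc.1)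
  obtain ⟨x0, hx0⟩ : ∃ x0, x0 ∈ K.filter (fun x => XM G R O (K ∪ K') x) := by
    by_contra hcon
    push Not at hcon
    rw [Finset.eq_empty_of_forall_notMem hcon] at h1
    simp at h1
  have hX0 := (Finset.mem_filter.1 hx0).2
  have hin : ∀ x, XM G R O (K ∪ K') x → (flip ((K ∪ K').erase x0) O ∈ A ↔
      flip ((K ∪ K').erase x) O ∈ A) := fun x hx => hcl _ _ (XM_same hX0 hx)
  have key : ∀ L L' : Finset D, Disjoint L L' → L ∪ L' = K ∪ K' →
      L.card < 2 * (L.filter (fun x => XM G R O (K ∪ K') x)).card →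
      (aa A (flip L' O) L ↔ flip ((K ∪ K').erase x0) O ∈ A) := by
    intro L L' hLd hLu hL
    have hleaf : ∀ x ∈ L, flip (L.erase x) (flip L' O) = flip ((K ∪ K').erase x) O := by
      intro x hx
      rw [flip_half hLd hx, hLu]
    unfold aa
    constructor
    · intro h
      by_contra hna
      have hdis : Disjoint (L.filter (fun k => flip (L.erase k) (flip L' O) ∈ A))
          (L.filter (fun x => XM G R O (K ∪ K') x)) := by
        rw [Finset.disjoint_left]
        intro k hk hk'
        rw [Finset.mem_filter] at hk hk'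
        rw [hleaf k hk.1] at hk
        exact hna ((hin k hk'.2).2 hk.2)
      have h3 := Finset.card_le_card (Finset.union_subset
        (Finset.filter_subset (fun k => flip (L.erase k) (flip L' O) ∈ A) L)
        (Finset.filter_subset (fun x => XM G R O (K ∪ K') x) L))
      rw [Finset.card_union_of_disjoint hdis] at h3
      omega
    · intro h
      refine lt_of_lt_of_le hL (Nat.mul_le_mul_left 2 (Finset.card_le_card ?_))
      intro k hk
      rw [Finset.mem_filter] at hk ⊢
      refine ⟨hk.1, ?_⟩
      rw [hleaf k hk.1]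
      exact (hin k hk.2).1 h
  rw [key K K' hd rfl h1, key K' K hd.symm (Finset.union_comm _ _) h2]

/-- **Swap, for all closed sets at once.** -/
theorem swap_free_avg {ε e₁ : ℝ} {μ : Measure Ω} {W : Ω → SimpleGraph (V D)}
    (hn : 1 ≤ n) {O : V D} {e e' : Dir D} {ι : Fin (n + n) → D} (hι : Function.Injective ι)
    {I : ℕ} (hI : 1 ≤ I) (T : ℕ → Finset D) {G : SimpleGraph (V D)} {R : Set (V D)}
    (hR : ∀ (σ : Equiv.Perm D) (t : ℕ), winV (lam4 O e e') (σ ∘ ι) ((T t).image σ) ⊆ R)
    (hRR : ∀ S : Finset D, flip S O ∈ R) {B B' : Finset D} (hd : Disjoint B B') (hB : B.card = n)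
    (hB' : B'.card = n) {θ : ℝ}
    (hθ : avg (fun t : Fin I => avg (fun σ : Equiv.Perm D =>
        ind (WBad ε e₁ μ W O e e' (σ ∘ ι) ((T t).image σ) G))) ≤ θ) :
    fr (fun σ : Equiv.Perm D => ¬ ∀ A : Set (V D), ClosedOn G R A →
      (aa A (flip (B'.image σ) O) (B.image σ) ↔ aa A (flip (B.image σ) O) (B'.image σ))) ≤
      θ + 2 * Real.exp (-((n : ℝ) / 500000)) := by
  -- move `B ∪ B'` to the star positions
  have hBB : (B ∪ B').card = n + n := by
    rw [Finset.card_union_of_disjoint hd, hB, hB']
  have hc : (vsL ι).card = (B ∪ B').card := by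
    rw [hBB, card_vsL hι]
  obtain ⟨τ, hτ⟩ := lrules_perm hc
  set C := B.image τ with hC
  set C' := B'.image τ with hC'
  have hCd : Disjoint C C' := by
    rw [hC, hC', Finset.disjoint_image τ.injective]
    exact hd
  have hCu : C ∪ C' = vsL ι := by
    rw [hC, hC', ← Finset.image_union, ← hτ]
  have hCc : C.card = n := by rw [hC, Finset.card_image_of_injective _ τ.injective, hB]
  have hCc' : C'.card = n := by rw [hC', Finset.card_image_of_injective _ τ.injective, hB']
  have h1 : fr (fun σ : Equiv.Perm D => ¬ ∀ A : Set (V D), ClosedOn G R A →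
      (aa A (flip (B'.image σ) O) (B.image σ) ↔ aa A (flip (B.image σ) O) (B'.image σ))) =
      fr (fun σ : Equiv.Perm D => ¬ ∀ A : Set (V D), ClosedOn G R A →
      (aa A (flip (C'.image σ) O) (C.image σ) ↔ aa A (flip (C.image σ) O) (C'.image σ))) := by
    unfold fr
    rw [← avg_perm_mul_right τ (fun σ : Equiv.Perm D => ind (¬ ∀ A : Set (V D), ClosedOn G R A →
      (aa A (flip (B'.image σ) O) (B.image σ) ↔ aa A (flip (B.image σ) O) (B'.image σ))))]
    congr 1
    funext σ
    have e1 : ∀ F : Finset D, F.image (σ * τ : Equiv.Perm D) = (F.image τ).image σ := by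
      intro F
      rw [Finset.image_image]
      rfl
    simp only [e1, hC, hC']
  rw [h1]
  -- the halving events
  set β : ℝ := 1 / 2 + 1 / 1000 with hβ
  have hhalf : ∀ E E' : Finset D, Disjoint E E' → E.card = n → E'.card = n → E ∪ E' = vsL ι →
      fr (fun σ : Equiv.Perm D =>
        2 * β * n ≤ ((((vsL ι).image σ).filter (fun x => XM G R O ((vsL ι).image σ) x)).card : ℝ) ∧
        (((E.image σ).filter (fun x => XM G R O ((vsL ι).image σ) x)).card : ℝ) ≤
          (β - 1 / 1000) * n) ≤ Real.exp (-((n : ℝ) / 500000)) := by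
    intro E E' hE hEc hEc' hEu
    have h := halving E E' hE hEc hEc' (fun S x => XM G R O S x) β (1 / 1000) (by norm_num)
    rw [hEu] at h
    refine h.trans (le_of_eq ?_)
    congr 1
    ring
  have hI' : Nonempty (Fin I) := ⟨⟨0, hI⟩⟩
  have h3 : ∀ t : Fin I, fr (fun σ : Equiv.Perm D => ¬ ∀ A : Set (V D), ClosedOn G R A →
      (aa A (flip (C'.image σ) O) (C.image σ) ↔ aa A (flip (C.image σ) O) (C'.image σ))) ≤
      avg (fun σ : Equiv.Perm D => ind (WBad ε e₁ μ W O e e' (σ ∘ ι) ((T t).image σ) G)) +
        Real.exp (-((n : ℝ) / 500000)) + Real.exp (-((n : ℝ) / 500000)) := by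
    intro t
    refine fr_le_add3 (Q := fun σ : Equiv.Perm D =>
      WBad ε e₁ μ W O e e' (σ ∘ ι) ((T t).image σ) G) le_rfl (hhalf C C' hCd hCc hCc' hCu)
      (hhalf C' C hCd.symm hCc' hCc (by rw [Finset.union_comm, hCu])) ?_
    intro σ hσ
    by_contra hcon
    push Not at hcon
    obtain ⟨hW, hh1, hh2⟩ := hcon
    refine hσ fun A hA => ?_
    obtain ⟨x, _, hx⟩ := maj_cluster hW (hR σ t)
    have hvs : vsL (σ ∘ ι) = (vsL ι).image σ := vsL_perm ι σ
    rw [hvs] at hx
    have hnn : ((n + n : ℕ) : ℝ) = 2 * (n : ℝ) := by push_cast; ring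
    rw [hnn] at hx
    have hn0 : (0 : ℝ) < n := by exact_mod_cast hn
    have hcardS : ((vsL ι).image σ).card = n + n := by
      rw [Finset.card_image_of_injective _ σ.injective, card_vsL hι]
    have hsub : ((vsL ι).image σ).filter (fun k => flip (((vsL ι).image σ).erase k) O ∈ ClV G R x) ⊆
        ((vsL ι).image σ).filter (fun k => XM G R O ((vsL ι).image σ) k) := by
      intro k hk
      rw [Finset.mem_filter] at hk ⊢
      refine ⟨hk.1, ?_⟩
      unfold XM
      rw [ClV_eq hk.2]
      unfold aa
      rw [hcardS]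
      have h5 : ((n + n : ℕ) : ℝ) < 2 * ((((vsL ι).image σ).filter
          (fun k => flip (((vsL ι).image σ).erase k) O ∈ ClV G R x)).card : ℝ) := by
        rw [hnn]
        linarith
      exact_mod_cast h5
    have hbig : 2 * β * n ≤ ((((vsL ι).image σ).filter
        (fun x => XM G R O ((vsL ι).image σ) x)).card : ℝ) := by
      have h5 : ((((vsL ι).image σ).filter
          (fun k => flip (((vsL ι).image σ).erase k) O ∈ ClV G R x)).card : ℝ) ≤
          ((((vsL ι).image σ).filter (fun x => XM G R O ((vsL ι).image σ) x)).card : ℝ) := by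
        exact_mod_cast Finset.card_le_card hsub
      rw [hβ]
      linarith
    have hh1' := hh1 hbig
    have hh2' := hh2 hbig
    have hβn : (β - 1 / 1000) * n = n / 2 := by
      rw [hβ]
      ring
    rw [hβn] at hh1' hh2'
    have hCσ : (C.image σ) ∪ (C'.image σ) = (vsL ι).image σ := by
      rw [← Finset.image_union, hCu]
    have hCdσ : Disjoint (C.image σ) (C'.image σ) := by
      rw [Finset.disjoint_image σ.injective]
      exact hCd
    refine swap_det hCdσ ?_ ?_ hRR hA
    · rw [hCσ, Finset.card_image_of_injective _ σ.injective, hCc]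
      have h5 : (n : ℝ) < 2 * (((C.image σ).filter
        (fun x => XM G R O ((vsL ι).image σ) x)).card : ℝ) := by linarith
      exact_mod_cast h5
    · rw [hCσ, Finset.card_image_of_injective _ σ.injective, hCc']
      have h5 : (n : ℝ) < 2 * (((C'.image σ).filter
        (fun x => XM G R O ((vsL ι).image σ) x)).card : ℝ) := by linarith
      exact_mod_cast h5
  have h4 : fr (fun σ : Equiv.Perm D => ¬ ∀ A : Set (V D), ClosedOn G R A →
      (aa A (flip (C'.image σ) O) (C.image σ) ↔ aa A (flip (C.image σ) O) (C'.image σ))) ≤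
      avg (fun t : Fin I => avg (fun σ : Equiv.Perm D =>
        ind (WBad ε e₁ μ W O e e' (σ ∘ ι) ((T t).image σ) G))) +
        (Real.exp (-((n : ℝ) / 500000)) + Real.exp (-((n : ℝ) / 500000))) := by
    calc fr (fun σ : Equiv.Perm D => ¬ ∀ A : Set (V D), ClosedOn G R A →
        (aa A (flip (C'.image σ) O) (C.image σ) ↔ aa A (flip (C.image σ) O) (C'.image σ)))
        = avg (fun _ : Fin I => fr (fun σ : Equiv.Perm D => ¬ ∀ A : Set (V D), ClosedOn G R A →
        (aa A (flip (C'.image σ) O) (C.image σ) ↔ aa A (flip (C.image σ) O) (C'.image σ)))) :=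
          (avg_const _).symm
      _ ≤ avg (fun t : Fin I => avg (fun σ : Equiv.Perm D =>
          ind (WBad ε e₁ μ W O e e' (σ ∘ ι) ((T t).image σ) G)) +
          (Real.exp (-((n : ℝ) / 500000)) + Real.exp (-((n : ℝ) / 500000)))) :=
          avg_mono fun t => by linarith [h3 t]
      _ = _ := by rw [avg_add, avg_const]
  linarith

end

end Pool.Agent.LP
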