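import Pool.Agent.LP.WGiant
import Pool.Agent.LP.VGood

/-!
# LP, Part IV.3: unlinked layers and types of one good window, local events of the star graph

`typ_bd`: if the window is not bad and `aa A` differs at two adjacent layers, they are unlinked.
`typ_pty`: types of the ends of an unlinked link.  `depOn_starV`: events of the leaves of the star graph
depend on the window without the hubs only.
-/

set_option autoImplicit false
set_option linter.unusedSectionVars false

open MeasureTheory ProbabilityTheory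
open scoped Classical

namespace Pool.Agent.LP

open Pool.Agent.OIP

section

variable {Ω D : Type} [MeasurableSpace Ω] [Fintype D] [DecidableEq D] {n : ℕ}

/-- boundary links are unlinked -/
theorem typ_bd {ε e₁ : ℝ} {μ : Measure Ω} {W : Ω → SimpleGraph (V D)}
    (hn : 1 ≤ n) {O : V D} {e e' : Dir D} {ι : Fin n → D} {T : Finset D} {G : SimpleGraph (V D)}
    (h : ¬ WBad ε e₁ μ W O e e' ι T G) {A : Set (V D)}
    (hA : ClosedOn G (winV (lam4 O e e') ι T) A) {i j : Bool × Bool} (hij : plaq.Adj i j)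
    (hne : ¬ (aa A (lam4 O e e' i) (vsL ι) ↔ aa A (lam4 O e e' j) (vsL ι))) :
    (∃ U P, TypV ε e₁ μ W O e e' ι T U P) ∧ UU ε e₁ μ W O e e' ι T i j := by
  unfold WBad at h
  push Not at h
  obtain ⟨hex, hFV⟩ := h
  refine ⟨hex, ?_⟩
  have hT := typV_UU hex
  obtain ⟨hι, hsub, hTyp⟩ := hT
  have hnice : Nice plaq (1 / 1000) (UU ε e₁ μ W O e e' ι T) (starV (lam4 O e e') ι T G) := by
    by_contra hcon
    exact hFV ⟨hex, hcon⟩
  obtain ⟨hmaj, hlk⟩ := hnice
  have hcard : Fintype.card (Fin n) = n := Fintype.card_fin n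
  by_contra hU'
  obtain ⟨a, ha1, ha2⟩ := hlk i j hij hU'
  have h1 := aa_of_cluster (lam4 O e e') hι T hA (lrules_majority hcard hn ha1)
  have h2 := aa_of_cluster (lam4 O e e') hι T hA (lrules_majority hcard hn ha2)
  exact hne (h1.trans h2.symm)

/-- types of the ends of an unlinked link -/
theorem typ_pty {ε e₁ : ℝ} {μ : Measure Ω} {W : Ω → SimpleGraph (V D)} (hM : IsProbabilityMeasure μ)
    {O : V D} {e e' : Dir D} {ι : Fin n → D} {T : Finset D}
    (hex : ∃ U P, TypV ε e₁ μ W O e e' ι T U P) {i j : Bool × Bool}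
    (hij : UU ε e₁ μ W O e e' ι T i j) :
    Pty μ W (lam4 O e e' i) (vsL ι) ↔ PP ε e₁ μ W O e e' ι T i := by
  obtain ⟨hι, hsub, hTyp⟩ := typV_UU hex
  unfold Pty
  rw [card_vsL hι]
  constructor
  · intro h1
    by_contra hPi
    have h2 := hTyp.mend i j hij hPi
    have h3 : μ.real {ω | 50 * degV (W ω) (lam4 O e e' i) (vsL ι) ≤ n} ≤
        μ.real {ω | starV (lam4 O e e') ι T (W ω) ∈
          {G : SimpleGraph (LV (Bool × Bool) (Fin n)) | 5 * hdeg G i ≤ n}} := by
      apply measureReal_mono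
      · intro ω hω
        have hω' : 50 * degV (W ω) (lam4 O e e' i) (vsL ι) ≤ n := hω
        show 5 * hdeg (starV (lam4 O e e') ι T (W ω)) i ≤ n
        rw [degV_eq (lam4 O e e') hι T (W ω) i]
        omega
      · exact measure_ne_top _ _
    have h4 := h1.trans (h3.trans h2)
    norm_num at h4
  · intro hPi
    have h2 := hTyp.pend i j hij hPi
    have h3 : μ.real {ω | starV (lam4 O e e') ι T (W ω) ∈
          {G : SimpleGraph (LV (Bool × Bool) (Fin n)) | 100 * hdeg G i ≤ n}} ≤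
        μ.real {ω | 50 * degV (W ω) (lam4 O e e' i) (vsL ι) ≤ n} := by
      apply measureReal_mono
      · intro ω hω
        have hω' : 100 * hdeg (starV (lam4 O e e') ι T (W ω)) i ≤ n := hω
        rw [degV_eq (lam4 O e e') hι T (W ω) i] at hω'
        show 50 * degV (W ω) (lam4 O e e' i) (vsL ι) ≤ n
        omega
      · exact measure_ne_top _ _
    have h4 : (1 / 6 : ℝ) ≤ μ.real {ω | 50 * degV (W ω) (lam4 O e e' i) (vsL ι) ≤ n} := h2.trans h3
    linarith

/-- events of the leaves depend on the window without the hubs -/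
theorem depOn_starV {Λ : Type} (lam : Λ → V D) {ι : Fin n → D} (hι : Function.Injective ι)
    (T : Finset D) {R : Set (V D)} (hR : winV lam ι T ⊆ R)
    {U : Set (SimpleGraph (LV Λ (Fin n)))} (hU : DepOn (Set.range Sum.inl) U) :
    DepOn R {G | starV lam ι T G ∈ U} := by
  intro G H hGH
  have h1 := depOn_derL (x := (xL ι : LV Λ (Fin n) → Λ × Finset D)) (R := farL ι T) hU
  refine h1 (G.comap (phi lam)) (H.comap (phi lam)) ?_
  have h2 : ∀ u : Λ × Finset D, u ∈ farL ι T ∪
      (xL ι : LV Λ (Fin n) → Λ × Finset D) '' (Set.range Sum.inl) → phi lam u ∈ R := by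
    rintro u (hu | ⟨s, ⟨a, rfl⟩, rfl⟩)
    · exact hR (lrules_far lam ι T hu)
    · exact hR (lrules_leaf lam hι T a)
  intro a ha b hb
  exact hGH _ (h2 a ha) _ (h2 b hb)

theorem cn_congr_leaf {Λ κ : Type} {G H : SimpleGraph (LV Λ κ)}
    (h : ∀ a ∈ Set.range (Sum.inl : Λ × κ → LV Λ κ), ∀ b ∈ Set.range (Sum.inl : Λ × κ → LV Λ κ),
      (G.Adj a b ↔ H.Adj a b)) (s t : LV Λ κ) :
    Cn G (Set.range Sum.inl) s t ↔ Cn H (Set.range Sum.inl) s t := by
  unfold Cn
  constructor
  · intro hc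
    induction hc with
    | refl => exact Relation.ReflTransGen.refl
    | tail _ hbc ih => exact ih.tail ⟨(h _ hbc.2.1 _ hbc.2.2).1 hbc.1, hbc.2.1, hbc.2.2⟩
  · intro hc
    induction hc with
    | refl => exact Relation.ReflTransGen.refl
    | tail _ hbc ih => exact ih.tail ⟨(h _ hbc.2.1 _ hbc.2.2).2 hbc.1, hbc.2.1, hbc.2.2⟩

theorem inMaj_congr {Λ κ : Type} [Fintype κ] {G H : SimpleGraph (LV Λ κ)}
    (h : ∀ a ∈ Set.range (Sum.inl : Λ × κ → LV Λ κ), ∀ b ∈ Set.range (Sum.inl : Λ × κ → LV Λ κ),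
      (G.Adj a b ↔ H.Adj a b)) (a : Λ × κ) (i : Λ) : InMaj G a i ↔ InMaj H a i := by
  unfold InMaj lcnt
  have h1 : (Finset.univ.filter (fun k : κ => Cn G (Set.range Sum.inl) (leaf a) (leaf (i, k)))) =
      (Finset.univ.filter (fun k : κ => Cn H (Set.range Sum.inl) (leaf a) (leaf (i, k)))) := by
    refine Finset.filter_congr fun k _ => ?_
    exact cn_congr_leaf h _ _
  rw [h1]

theorem depOn_EvA {Λ κ : Type} [Fintype κ] (i i' : Λ) (j j' : κ) :
    DepOn (Set.range (Sum.inl : Λ × κ → LV Λ κ)) {G : SimpleGraph (LV Λ κ) | EvA i i' j j' G} := by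
  intro G H h
  show EvA i i' j j' G ↔ EvA i i' j j' H
  unfold EvA
  rw [inMaj_congr h, inMaj_congr h]

theorem depOn_SameMaj {Λ κ : Type} [Fintype κ] (i i' : Λ) :
    DepOn (Set.range (Sum.inl : Λ × κ → LV Λ κ)) {G : SimpleGraph (LV Λ κ) | SameMaj G i i'} := by
  intro G H h
  show SameMaj G i i' ↔ SameMaj H i i'
  unfold SameMaj
  simp only [inMaj_congr h]

end

end Pool.Agent.LP
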